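import Pool.Agent.MP_1a6d78_lc.DS.Basic

/-! PROJECT DS: the itineraries depend only on the values up to the radius. -/

namespace Pool.Agent.MP_1a6d78_lc.DS

open Classical ED PR

namespace AgrL

variable {S : Sk} {e : ℕ → ℕ} {ρ z : ℕ} (hρ : ρ < S.Z)
  (he : ∀ v, S.K v → e v = if S.F v ≤ ρ then S.F v else S.Z) (hz : S.K z) (hF : S.F z ≤ ρ)
include hρ he hz hF

theorem key {u : ℕ} (hu : S.K u) (c : ℕ) : e u + c = e z ↔ S.F u + c = S.F z := by
  rw [he u hu, he z hz, if_pos hF]
  split_ifs <;> omega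

theorem ts (k : S.Kt0) : S.ts e z = S.ts S.F z := funext fun d => propext
  (and_congr_right fun _ => and_congr_right fun h => key hρ he hz hF (k.gk d h).2 _)

theorem tg (a b : ℕ) : (S.M.nd b = z ∧ S.tg e a b) ↔ (S.M.nd b = z ∧ S.tg S.F a b) :=
  and_congr_right fun h => and_congr_right fun p => and_congr_right fun _ =>
    and_congr_right fun _ => h ▸ key hρ he (h ▸ hz) (h ▸ hF) p.2.1 _

theorem la : S.la e z = S.la S.F z :=
  lst_congr fun a _ => exists_congr fun b => and_congr_right fun _ => tg hρ he hz hF a b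

theorem lb : S.lb e z = S.lb S.F z := by
  rw [Sk.lb, la hρ he hz hF]
  exact lst_congr fun b _ => tg hρ he hz hF _ b

end AgrL

open AgrL in
theorem agrS : AgrS := by
  intro S r μ ok k ky _ bl e ρ hρ he
  have : ∀ t z, S.K z → S.F z ≤ ρ → S.cls e t z = S.cls S.F t z := by
    intro t
    induction t with
    | zero => exact fun _ _ _ => rfl
    | succ t ih =>
      intro z hz hF
      have e1 : S.sl e z = S.sl S.F z := by rw [Sk.sl, ts hρ he hz hF k, Sk.sl]
      have e2 : S.sv e z = S.sv S.F z := by rw [Sk.sv, ts hρ he hz hF k, Sk.sv]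
      simp only [Sk.cls]
      rw [e1, e2, la hρ he hz hF, lb hρ he hz hF]
      split_ifs with h1 h2 h3
      · rfl
      · rfl
      · rfl
      · obtain ⟨-, -, p, q⟩ := lst_spec h2
        exact ih _ (k.gk _ p).2 ((Nat.le_add_right _ _).trans (q.trans_le hF))
      · obtain ⟨-, b, -, rfl, p, -, -, q⟩ := lst_spec
          ((bl.ex z hz fun h => h1 (h ▸ ky.xb _ ok.xs)).resolve_left h2)
        exact congrArg (· ++ _) (ih _ p.2.1 ((Nat.le_add_right _ _).trans (q.trans_le hF)))
  exact this _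

end Pool.Agent.MP_1a6d78_lc.DS
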