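import Pool.Agent.MP_1a6d78_lc.DS.Basic

/-! PROJECT PSD: itineraries, Monge values, the recursion (rows packed). -/

section MrgPart1

/-! PROJECT DS, row NC: canonical legs do not cross. -/

namespace Pool.Agent.MP_1a6d78_lc.DS

namespace NcL

variable {S : Sk} {a b a' b' : ℕ}

theorem lg (hL : S.LsK) (h : S.tg S.F a b) : S.Lg a b (S.Lv a b) := hL.lg a b h.1 h.2.1 h.2.2.1

/-- Exchanged legs of the same total cost are tight. -/
theorem key (hL : S.LsK) (hB : S.BellK) (hC : S.ClsK) (h : S.Can a b) (h' : S.Can a' b')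
    {c1 c2 : ℕ} (l1 : S.Lg a b' c1) (l2 : S.Lg a' b c2) (e : c1 + c2 = S.Lv a b + S.Lv a' b') :
    a = a' := by
  obtain ⟨t, -, -, m⟩ := hC.can a b h
  obtain ⟨t', -, -, m'⟩ := hC.can a' b' h'
  obtain ⟨f1, g1⟩ := hL.le _ _ _ l1
  obtain ⟨f2, g2⟩ := hL.le _ _ _ l2
  have k1 := hB.lg _ _ _ (hL.lg _ _ l1.1 l1.2.1 f1)
  have k2 := hB.lg _ _ _ (hL.lg _ _ l2.1 l2.2.1 f2)
  have e1 := t.2.2.2
  have e2 := t'.2.2.2
  exact le_antisymm (m a' b rfl ⟨l2.1, l2.2.1, f2, by omega⟩)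
    (m' a b' rfl ⟨l1.1, l1.2.1, f1, by omega⟩)

end NcL

open NcL

theorem ncS : NcS := by
  intro S hK hb hX hL hB hO hT hC
  refine ⟨fun a b a' b' h h' ⟨p1, p2, p3⟩ => ?_, fun a b a' b' h h' e => ?_, fun a b h => ?_,
    fun a b a' b' h h' k => ?_⟩
  · have l := lg hL (hC.can a b h).1
    have l' := lg hL (hC.can a' b' h').1
    have s := hX.symm _ _ _ l
    have s' := hX.symm _ _ _ l'
    have e : a = a' := by
      rcases le_total (S.pos a) (S.pos b) with q | q <;>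
        rcases le_total (S.pos a') (S.pos b') with q' | q'
      · obtain ⟨c1, c2, u, v, e⟩ := (hX.swap a a' b b' _ _ (by omega) (by omega) (by omega) l l').1
        exact key hL hB hC h h' u v e
      · obtain ⟨c1, c2, u, v, e⟩ := (hX.swap a b' b a' _ _ (by omega) (by omega) (by omega) l s').2
        exact key hL hB hC h h' u (hX.symm _ _ _ v) e
      · obtain ⟨c1, c2, u, v, e⟩ := (hX.swap b a' a b' _ _ (by omega) (by omega) (by omega) s l').2
        exact key hL hB hC h h' v (hX.symm _ _ _ u) (by omega)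
      · obtain ⟨c1, c2, u, v, e⟩ := (hX.swap b b' a a' _ _ (by omega) (by omega) (by omega) s s').1
        exact key hL hB hC h h' (hX.symm _ _ _ v) (hX.symm _ _ _ u) (by omega)
    subst e
    omega
  · have t := (hC.can a b h).1
    have t' := (hC.can a' b' h').1
    obtain rfl := hK.inj _ t.2.1.1 _ t'.1.1 e
    have e1 := t.2.2.2
    have e2 := t'.2.2.2
    have := hL.pos _ _ _ (lg hL t)
    rcases hL.back _ _ _ _ _ (lg hL t) (lg hL t') with q | ⟨c, q1, q2⟩
    · rw [q] at e2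
      omega
    · have := hB.lg _ _ _ q1
      omega
  · have t := (hC.can a b h).1
    have n : ¬S.sam (S.M.nd a) (S.M.nd b) := fun e => hO.once _ _ e (hO.leg a b t)
    exact ⟨n, fun e => n (hb.s2 a b t.1 t.2.1 e)⟩
  · have t := (hC.can a b h).1
    have t' := (hC.can a' b' h').1
    have n : ¬S.sam (S.M.nd a') (S.M.nd b) := fun e => hO.once _ _ e
      (hO.pa _ _ _ t'.1.2.1 t.1.2.1 t.2.1.2.1
        (hO.pa _ _ _ t'.1.2.1 t'.2.1.2.1 t.1.2.1 (hO.leg a' b' t') (hT.mem _ _ k).2.2.2.2.1)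
        (hO.leg a b t).fa)
    exact ⟨n, fun e => n (hb.s2 a' b t'.1 t.2.1 e)⟩

end Pool.Agent.MP_1a6d78_lc.DS

end MrgPart1

section MrgPart2

/-! PROJECT DS: TOUCH. -/

namespace Pool.Agent.MP_1a6d78_lc.DS

open Classical ED PR

namespace TouchH

variable {S : Sk}

/-- Two different territories of one class occupy disjoint intervals of heights. -/
theorem dis (T : S.TerK) {h v h' v' : ℕ} (a : S.Te h v) (b : S.Te h' v') (s : S.sam v v')
    (ne : h' ≠ h) (le : S.f.ht v' ≤ S.f.ht v) :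
    S.f.ht h' < S.f.ht h ∧ S.f.ht h' < S.f.ht v ∧ S.f.ht v' < S.f.ht h ∧
      S.f.ht v' < S.f.ht v := by
  have ma := T.mem _ _ a
  have mb := T.mem _ _ b
  have e1 := fun k => ne (T.uniq _ _ _ b (T.conv _ _ v' a s.symm k))
  have e2 := fun k => ne (T.uniq _ _ _ mb.1 (T.conv _ _ h' a (mb.2.1.trans s.symm) k))
  have e3 := fun k => ne (T.uniq _ _ _ (T.conv _ _ v b s k) a)
  have e4 := fun k => ne (T.uniq _ _ _ (T.conv _ _ h b (ma.2.1.trans s) k) ma.1)
  have e1 : ¬_ := e1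
  have e2 : ¬_ := e2
  have e3 : ¬_ := e3
  have e4 : ¬_ := e4
  omega

theorem cross (B : S.BlkK) (N : S.NcK) {a1 b1 a3 b3 a1' b1' a3' b3' : ℕ} (c1 : S.Can a1 b1)
    (c3 : S.Can a3 b3) (d1 : S.Can a1' b1') (d3 : S.Can a3' b3') (e1 : S.blk a1 = S.blk a3)
    (e2 : S.blk b1 = S.blk b3) (e3 : S.blk a1' = S.blk a3') (e4 : S.blk b1' = S.blk a1)
    (e5 : S.blk b3' = S.blk a1) (n3 : S.blk a1' ≠ S.blk b1) (p1 : S.pos a3 < S.pos b1')
    (p2 : S.pos b3' < S.pos a1) : False := by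
  have n1 := (N.ns _ _ c1).2
  have n2 := (N.ns _ _ d1).2
  have L : ∀ a b, S.blk a < S.blk b → S.pos a < S.pos b := fun _ _ k => B.lt k
  rcases lt_or_gt_of_ne n1 with q1 | q1 <;> rcases lt_or_gt_of_ne n2 with q2 | q2 <;>
    rcases lt_or_gt_of_ne n3 with q3 | q3
  · have := N.nc _ _ _ _ d1 c3
    have := L a1' a3 (by omega)
    have := L b1' b3 (by omega)
    omega
  · omega
  · have := N.nc _ _ _ _ d3 c1
    have := L a1 a3' (by omega)
    have := L a3' b1 (by omega)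
    omega
  · have := N.nc _ _ _ _ c3 d1
    have := L b1' b3 (by omega)
    have := L b3 a1' (by omega)
    omega
  · have := N.nc _ _ _ _ d3 c1
    have := L a3' b1 (by omega)
    have := L b1 b3' (by omega)
    omega
  · have := N.nc _ _ _ _ c3 d1
    have := L b3 a1' (by omega)
    have := L a1' a3 (by omega)
    omega
  · omega
  · have := N.nc _ _ _ _ c1 d3
    have := L b1 b3' (by omega)
    have := L a1 a3' (by omega)
    omega

end TouchH

open TouchH in
theorem touchS : TouchS := by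
  intro S _ _ B T C N
  have L : ∀ a b, S.blk a < S.blk b → S.pos a < S.pos b := fun _ _ k => B.lt k
  refine ⟨?_, ?_, ?_⟩
  · intro a1 b1 a2 b2 a3 b3 c1 c2 c3 p1 p2 e1 e2
    have n1 := (N.ns _ _ c1).2
    have n2 := (N.ns _ _ c2).2
    have m1 := B.mono _ _ p1.le
    have m2 := B.mono _ _ p2.le
    have k12 := N.nc _ _ _ _ c1 c2
    have k21 := N.nc _ _ _ _ c2 c1
    have k23 := N.nc _ _ _ _ c2 c3
    have k32 := N.nc _ _ _ _ c3 c2
    rcases lt_or_gt_of_ne n1 with q1 | q1 <;> rcases lt_or_gt_of_ne n2 with q2 | q2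
    · have := L a1 b1 q1
      have := L a3 b1 (by omega)
      have := L a2 b1 (by omega)
      omega
    · have := L a3 b1 (by omega)
      have := L b3 a2 (by omega)
      omega
    · have := L a2 b1 (by omega)
      have := L b3 a1 (by omega)
      omega
    · have := L b3 a1 (by omega)
      have := L b3 a2 (by omega)
      have := L b3 a3 (by omega)
      omega
  · intro a1 b1 a3 b3 a1' b1' a3' b3' c1 c3 d1 d3 t1 t3 e1 e2 e3 e4 e5
    by_contra ne
    have pa1 := (C.can _ _ c1).1.1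
    have pa3 := (C.can _ _ c3).1.1
    have pb1 := (C.can _ _ d1).1.2.1
    have pb3 := (C.can _ _ d3).1.2.1
    have s := B.s2 _ _ pa1 pa3 e1
    have n3 := (N.two _ _ _ _ c1 d1 t1).2
    have X := fun p1 p2 => cross B N c1 c3 d1 d3 e1 e2 e3 e4 e5 n3 p1 p2
    have Y := fun p1 p2 => cross B N c3 c1 d3 d1 e1.symm e2.symm e3.symm (e5.trans e1)
      (e4.trans e1) (by omega) p1 p2
    have X : ¬(S.pos a3 < S.pos b1' ∧ S.pos b3' < S.pos a1) := fun k => X k.1 k.2
    have Y : ¬(S.pos a1 < S.pos b3' ∧ S.pos b1' < S.pos a3) := fun k => Y k.1 k.2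
    have H : (S.hp b3' < S.hp a1 ∧ S.hp a3 < S.hp b1') ∨
        (S.hp b1' < S.hp a3 ∧ S.hp a1 < S.hp b3') := by
      rcases le_total (S.f.ht (S.M.nd a3)) (S.f.ht (S.M.nd a1)) with q | q
      · have := dis T t1 t3 s (Ne.symm ne) q
        exact Or.inl ⟨this.2.1, this.2.2.1⟩
      · have := dis T t3 t1 s.symm ne q
        exact Or.inr ⟨this.2.1, this.2.2.1⟩
    rcases B.dir (S.blk a1) with D | D
    · have k1 := D a1 pa1.1 b3' pb3.1 pa1 pb3 rfl e5
      have k2 := D b3' pb3.1 a1 pa1.1 pb3 pa1 e5 rfl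
      have k3 := D a3 pa3.1 b1' pb1.1 pa3 pb1 e1.symm e4
      have k4 := D b1' pb1.1 a3 pa3.1 pb1 pa3 e4 e1.symm
      omega
    · have k1 := D a1 pa1.1 b3' pb3.1 pa1 pb3 rfl e5
      have k2 := D b3' pb3.1 a1 pa1.1 pb3 pa1 e5 rfl
      have k3 := D a3 pa3.1 b1' pb1.1 pa3 pb1 e1.symm e4
      have k4 := D b1' pb1.1 a3 pa3.1 pb1 pa3 e4 e1.symm
      omega
  · intro h1 v1 h2 v2 h3 v3 t1 t2 t3 s1 s2 l1 l2 n1 n3
    have a := dis T t1 t2 s1 n1 l2
    have b := dis T t2 t3 s2 n3.symm l1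
    exact ⟨b.1, a.1, b.2.2.1, a.2.1⟩

end Pool.Agent.MP_1a6d78_lc.DS

end MrgPart2

section MrgPart3

/-! PROJECT DS: Lemma A.  The entries of one itinerary form an interval of their block. -/

namespace Pool.Agent.MP_1a6d78_lc.DS

open Classical ED PR

namespace LemAx

variable {S : Sk}

/-- Equal itineraries end with the same pair of blocks. -/
theorem split (hc : S.ClsK) {a b a' b' : ℕ} (h : S.Can a b) (h' : S.Can a' b')
    (e : S.C (S.M.nd b) = S.C (S.M.nd b')) :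
    S.C (S.M.nd a) = S.C (S.M.nd a') ∧ S.blk a = S.blk a' ∧ S.blk b = S.blk b' := by
  rw [(hc.can a b h).2.2.1, (hc.can a' b' h').2.2.1] at e
  obtain ⟨e1, e2⟩ := List.append_inj' e rfl
  simp only [List.cons.injEq, and_true] at e2
  exact ⟨e1, e2.1, e2.2⟩

theorem len (hc : S.ClsK) {a b : ℕ} (h : S.Can a b) :
    (S.C (S.M.nd b)).length = (S.C (S.M.nd a)).length + 2 := by
  rw [(hc.can a b h).2.2.1, List.length_append]
  rfl

/-- Strictly ordered heights in one block give strictly ordered positions. -/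
theorem ordr (hb : S.BlkK) {a b c : ℕ} (pa : S.port a) (pb : S.port b) (pc : S.port c)
    (e1 : S.blk a = S.blk b) (e2 : S.blk c = S.blk b)
    (l : (S.hp a < S.hp b ∧ S.hp b < S.hp c) ∨ (S.hp c < S.hp b ∧ S.hp b < S.hp a)) :
    (S.pos a < S.pos b ∧ S.pos b < S.pos c) ∨ (S.pos c < S.pos b ∧ S.pos b < S.pos a) := by
  rcases hb.dir (S.blk b) with d | d
  · have d1 := d b pb.1 a pa.1 pb pa rfl e1
    have d2 := d c pc.1 b pb.1 pc pb e2 rfl
    have d3 := d b pb.1 c pc.1 pb pc rfl e2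
    have d4 := d a pa.1 b pb.1 pa pb e1 rfl
    omega
  · have d1 := d b pb.1 a pa.1 pb pa rfl e1
    have d2 := d c pc.1 b pb.1 pc pb e2 rfl
    have d3 := d b pb.1 c pc.1 pb pc rfl e2
    have d4 := d a pa.1 b pb.1 pa pb e1 rfl
    omega

/-- A leg that ends between the sources of two parallel legs starts in one of their blocks. -/
theorem cross (hb : S.BlkK) (hn : S.NcK) {a1 b1 a3 b3 a b : ℕ} (c1 : S.Can a1 b1)
    (c3 : S.Can a3 b3) (c : S.Can a b) (eA : S.blk a1 = S.blk a3) (eB : S.blk b1 = S.blk b3)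
    (l : S.pos b1 < S.pos b3) (l1 : S.pos a3 < S.pos b) (l2 : S.pos b < S.pos a1)
    (nA : S.blk a ≠ S.blk a1) (nB : S.blk a ≠ S.blk b1) : False := by
  have nAB := (hn.ns _ _ c1).2
  rcases lt_or_gt_of_ne nAB with k | k
  · have p1 := hb.lt k
    rcases lt_or_gt_of_ne nA with k1 | k1
    · have p2 : S.pos a < S.pos a3 := hb.lt (eA ▸ k1)
      exact hn.nc _ _ _ _ c c3 (by omega)
    · have p2 : S.pos a1 < S.pos a := hb.lt k1
      rcases lt_or_gt_of_ne nB with k2 | k2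
      · have p3 : S.pos a < S.pos b1 := hb.lt k2
        exact hn.nc _ _ _ _ c c1 (by omega)
      · have p3 : S.pos b3 < S.pos a := hb.lt (eB ▸ k2)
        exact hn.nc _ _ _ _ c3 c (by omega)
  · have p1 : S.pos b3 < S.pos a3 := hb.lt (by omega)
    rcases lt_or_gt_of_ne nA with k1 | k1
    · have p2 : S.pos a < S.pos a3 := hb.lt (eA ▸ k1)
      rcases lt_or_gt_of_ne nB with k2 | k2
      · have p3 : S.pos a < S.pos b1 := hb.lt k2
        exact hn.nc _ _ _ _ c c1 (by omega)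
      · have p3 : S.pos b3 < S.pos a := hb.lt (eB ▸ k2)
        exact hn.nc _ _ _ _ c3 c (by omega)
    · have p2 : S.pos a1 < S.pos a := hb.lt k1
      exact hn.nc _ _ _ _ c1 c (by omega)

/-- A head with a lower and a higher ordinary vertex in its class is the end of a leg. -/
theorem inner (hc : S.ClsK) {h u v : ℕ} (t : S.Te h h) (su : S.sam u h) (sv : S.sam v h)
    (nu : ¬S.sp u) (nv : ¬S.sp v) (lu : S.f.ht u < S.f.ht h) (lv : S.f.ht h < S.f.ht v) :
    ∃ a b, S.Can a b ∧ S.M.nd b = h := by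
  rcases hc.head h t with k | k | k
  · exact absurd (k.2.1 u su nu) (by omega)
  · exact absurd (k.2.1 v sv nv) (by omega)
  · exact k

/-- Two heads of different heights in one class with the same itinerary are ends of legs. -/
theorem both (hc : S.ClsK) {h h' : ℕ} (t : S.Te h h) (t' : S.Te h' h') (s : S.sam h h')
    (n : ¬S.sp h) (n' : ¬S.sp h') (l : S.f.ht h ≠ S.f.ht h') (e : S.C h = S.C h') :
    (∃ a b, S.Can a b ∧ S.M.nd b = h) ∧ ∃ a b, S.Can a b ∧ S.M.nd b = h' := by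
  have long : ∀ z, (∃ a b, S.Can a b ∧ S.M.nd b = z) → 2 ≤ (S.C z).length := by
    rintro z ⟨a, b, k, rfl⟩
    have := len hc k
    omega
  rcases hc.head h t with k | k | k <;> rcases hc.head h' t' with k' | k' | k'
  · have := k.2.1 h' s.symm n'
    have := k'.2.1 h s n
    omega
  · rw [k.1, k'.1] at e
    simp at e
  · have := long _ k'
    rw [← e, k.1] at this
    simp at this
  · rw [k.1, k'.1] at e
    simp at e
  · have := k.2.1 h' s.symm n'
    have := k'.2.1 h s n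
    omega
  · have := long _ k'
    rw [← e, k.1] at this
    simp at this
  · have := long _ k
    rw [e, k'.1] at this
    simp at this
  · have := long _ k
    rw [e, k'.1] at this
    simp at this
  · exact ⟨k, k'⟩

theorem main (hb : S.BlkK) (h3 : S.Blk3) (ht : S.TerK) (hc : S.ClsK) (hn : S.NcK)
    (hT : S.TouchK) (n : ℕ) : ∀ a1 b1 a2 b2 a3 b3, (S.C (S.M.nd b1)).length < n → S.Can a1 b1 →
      S.Can a2 b2 → S.Can a3 b3 → S.pos b1 < S.pos b2 → S.pos b2 < S.pos b3 →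
      S.C (S.M.nd b1) = S.C (S.M.nd b3) → S.C (S.M.nd b2) = S.C (S.M.nd b1) := by
  induction n with
  | zero => exact fun _ _ _ _ _ _ h => absurd h (Nat.not_lt_zero _)
  | succ n ih =>
    intro a1 b1 a2 b2 a3 b3 hl c1 c2 c3 l12 l23 e
    obtain ⟨eC, eA, eB⟩ := split hc c1 c3 e
    obtain ⟨m1, m2⟩ := hT.mid _ _ _ _ _ _ c1 c2 c3 l12 l23 eB eA
    have eA2 : S.blk a2 = S.blk a1 := by
      have := hb.mono _ _ m1
      have := hb.mono _ _ m2
      omega
    have eB2 : S.blk b2 = S.blk b1 := by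
      have := hb.mono _ _ l12.le
      have := hb.mono _ _ l23.le
      omega
    suffices g : S.C (S.M.nd a2) = S.C (S.M.nd a1) by
      rw [(hc.can _ _ c2).2.2.1, (hc.can _ _ c1).2.2.1, g, eA2, eB2]
    have p1 := (hc.can _ _ c1).1.1
    have p2 := (hc.can _ _ c2).1.1
    have p3 := (hc.can _ _ c3).1.1
    by_cases s1 : S.sp (S.M.nd a1)
    · rw [hb.s1 _ _ p1 p2 eA2.symm s1]
    have s2 : ¬S.sp (S.M.nd a2) := fun k => s1 (by rw [hb.s1 _ _ p2 p1 eA2 k]; exact k)
    have s3 : ¬S.sp (S.M.nd a3) := fun k => s1 (by rw [hb.s1 _ _ p3 p1 eA.symm k]; exact k)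
    obtain ⟨h1, t1⟩ := ht.ex _ p1.2.1 s1
    obtain ⟨h2, t2⟩ := ht.ex _ p2.2.1 s2
    obtain ⟨h3', t3⟩ := ht.ex _ p3.2.1 s3
    have r1 := hc.te _ _ t1
    have r2 := hc.te _ _ t2
    have r3 := hc.te _ _ t3
    by_cases q1 : h2 = h1
    · rw [r1, r2, q1]
    by_cases q3 : h2 = h3'
    · rw [eC, r3, r2, q3]
    have v12 := hb.s2 _ _ p1 p2 eA2.symm
    have v23 := hb.s2 _ _ p2 p3 (eA2.trans eA)
    have bt : (S.f.ht h3' < S.f.ht h2 ∧ S.f.ht h2 < S.f.ht h1 ∧
        S.f.ht (S.M.nd a3) < S.f.ht h2 ∧ S.f.ht h2 < S.f.ht (S.M.nd a1)) ∨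
        (S.f.ht h1 < S.f.ht h2 ∧ S.f.ht h2 < S.f.ht h3' ∧
        S.f.ht (S.M.nd a1) < S.f.ht h2 ∧ S.f.ht h2 < S.f.ht (S.M.nd a3)) := by
      rcases hb.dir (S.blk a1) with d | d
      · exact Or.inl (hT.bet _ _ _ _ _ _ t1 t2 t3 v12 v23
          (d _ p3.1 _ p2.1 p3 p2 eA.symm eA2 m1) (d _ p2.1 _ p1.1 p2 p1 eA2 rfl m2) q1 q3)
      · exact Or.inr (hT.bet _ _ _ _ _ _ t3 t2 t1 v23.symm v12.symm
          (d _ p2.1 _ p1.1 p2 p1 eA2 rfl m2) (d _ p3.1 _ p2.1 p3 p2 eA.symm eA2 m1) q3 q1)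
    obtain ⟨u1, w1, n1, -⟩ := ht.mem _ _ t1
    obtain ⟨u2, w2, n2, -⟩ := ht.mem _ _ t2
    obtain ⟨u3, w3, n3, -⟩ := ht.mem _ _ t3
    have x12 : S.sam h1 h2 := (w1.trans v12).trans w2.symm
    have x32 : S.sam h3' h2 := (w3.trans v23.symm).trans w2.symm
    have eh : S.C h1 = S.C h3' := by rw [← r1, ← r3, eC]
    obtain ⟨⟨a1', b1', c1', rfl⟩, a3', b3', c3', rfl⟩ :=
      both hc u1 u3 (x12.trans x32.symm) n1 n3 (by omega) eh
    obtain ⟨a2', b2', c2', rfl⟩ : ∃ a b, S.Can a b ∧ S.M.nd b = h2 := by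
      rcases bt with k | k
      · exact inner hc u2 x32 x12 n3 n1 k.1 k.2.1
      · exact inner hc u2 x12 x32 n1 n3 k.1 k.2.1
    obtain ⟨-, eA0, eB0⟩ := split hc c1' c3' eh
    have o1 := (hc.can _ _ c1').1.2.1
    have o2 := (hc.can _ _ c2').1.2.1
    have o3 := (hc.can _ _ c3').1.2.1
    have nb : S.blk b1' ≠ S.blk a1 := fun k => by
      have := hT.touch _ _ _ _ _ _ _ _ c1 c3 c1' c3' t1 t3 eA eB eA0 k (eB0 ▸ k)
      rw [this] at bt
      omega
    have nb2 : S.blk a1 ≠ S.blk b2' := fun k => by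
      have o := ordr hb p3 o2 p1 (eA.symm.trans k) k (by unfold Sk.hp; omega)
      exact cross hb hn c1 c3 c2' eA eB (l12.trans l23) (by omega) (by omega)
        (k ▸ (hn.ns _ _ c2').2) (eB2 ▸ (hn.two _ _ _ _ c2 c2' t2).2)
    have eb : S.blk b1' = S.blk b2' :=
      ((h3 _ _ _ o1 p1 o2 n1 s1 n2 w1 x12).resolve_left nb).resolve_right nb2
    have ln := len hc c1
    rw [r1, r2]
    rcases ordr hb o1 o2 o3 eb (eB0.symm.trans eb) (by unfold Sk.hp; omega) with o | o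
    · exact ih _ _ _ _ _ _ (by rw [← r1]; omega) c1' c2' c3' o.1 o.2 eh
    · rw [eh]
      exact ih _ _ _ _ _ _ (by rw [← eh, ← r1]; omega) c3' c2' c1' o.1 o.2 eh.symm

end LemAx

theorem lemAS : LemAS := fun _ _ _ hb h3 ht hc hn hT a1 b1 a2 b2 a3 b3 =>
  LemAx.main hb h3 ht hc hn hT _ a1 b1 a2 b2 a3 b3 (Nat.lt_succ_self _)

end Pool.Agent.MP_1a6d78_lc.DS

end MrgPart3

section MrgPart4

/-! PROJECT DS, row STAIR. -/

namespace Pool.Agent.MP_1a6d78_lc.DS

open Sk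

namespace Stair

variable {S : Sk}

theorem ports (hc : S.ClsK) {a b : ℕ} (h : S.Can a b) : S.port a ∧ S.port b :=
  ⟨(hc.can a b h).1.1, (hc.can a b h).1.2.1⟩

/-- Three ports of one block are ordered by their heights. -/
theorem order (hb : S.BlkK) {a b c : ℕ} (pa : S.port a) (pb : S.port b) (pc : S.port c)
    (e1 : S.blk a = S.blk b) (e2 : S.blk c = S.blk b) (h1 : S.hp a < S.hp b)
    (h2 : S.hp b < S.hp c) :
    (S.pos a < S.pos b ∧ S.pos b < S.pos c) ∨ (S.pos c < S.pos b ∧ S.pos b < S.pos a) := by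
  rcases hb.dir (S.blk b) with k | k
  · exact Or.inl ⟨lt_of_not_ge fun e => h1.not_ge (k b pb.1 a pa.1 pb pa rfl e1 e),
      lt_of_not_ge fun e => h2.not_ge (k c pc.1 b pb.1 pc pb e2 rfl e)⟩
  · exact Or.inr ⟨lt_of_not_ge fun e => h2.not_ge (k b pb.1 c pc.1 pb pc rfl e2 e),
      lt_of_not_ge fun e => h1.not_ge (k a pa.1 b pb.1 pa pb e1 rfl e)⟩

theorem first (hb : S.BlkK) {m : ℕ} (hn : S.BlkN m) (hx : S.NcK) {a b a' b' : ℕ} (h : S.Can a b)
    (h' : S.Can a' b') (e : S.blk a' = S.blk a)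
    (k : cy m (S.blk a) (S.blk b) < cy m (S.blk a) (S.blk b')) : S.pos a' ≤ S.pos a := by
  by_contra hp
  have n1 := hx.nc a b a' b' h h'
  have n2 := hx.nc a' b' a b h' h
  have s1 := (hx.ns a b h).2
  have s2 := (hx.ns a' b' h').2
  have m1 := hn b'
  have l1 := hb.lt (a := a') (b := b)
  have l2 := hb.lt (a := b) (b := b')
  have l3 := hb.lt (a := b') (b := a)
  unfold cy at k
  split_ifs at k <;> omega

end Stair

open Stair

theorem stairS : StairS := by
  intro S m h0 _ hb h3 hn ht hc hx hu hl a b a1 b1 a' b' a1' b1' a'' b'' c c1 c' c1' c'' t t'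
    n1 n1' e' e'' eb hp hC hcy
  obtain ⟨pa, -⟩ := ports hc c
  obtain ⟨pa', -⟩ := ports hc c'
  obtain ⟨pa'', -⟩ := ports hc c''
  obtain ⟨-, pb1⟩ := ports hc c1
  obtain ⟨-, pb1'⟩ := ports hc c1'
  have hq := first hb hn hx c c'' e'' (eb ▸ hcy)
  have m := ht.mem _ _ t
  have m' := ht.mem _ _ t'
  have ns : ¬S.sp (S.M.nd a'') := fun k =>
    m.2.2.2.1 (hb.s1 a'' a pa'' pa e'' k ▸ k)
  obtain ⟨h'', t''⟩ := ht.ex _ pa''.2.1 ns
  have m'' := ht.mem _ _ t''
  have q := hc.te _ _ t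
  have q' := hc.te _ _ t'
  have q'' := hc.te _ _ t''
  have r' := (hc.can _ _ c1').2.2.1
  have hlen : 3 ≤ (S.C h'').length := by
    rw [← q'', hC, q', r', List.length_append]
    have := List.length_pos_iff.2 (hc.ne (S.M.nd a1'))
    simp only [List.length_cons, List.length_nil]
    omega
  obtain ⟨a1'', b1'', c1'', rfl⟩ : ∃ x y, S.Can x y ∧ S.M.nd y = h'' := by
    rcases hc.head _ m''.1 with k | k | k
    · rw [k.1] at hlen
      simp at hlen
    · rw [k.1] at hlen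
      simp at hlen
    · exact k
  obtain ⟨-, pb1''⟩ := ports hc c1''
  have hh : S.C (S.M.nd b1'') = S.C (S.M.nd b1') := by rw [← q'', hC, q']
  have eb1 : S.blk b1'' = S.blk b1' := by
    have k := hh
    rw [r', (hc.can _ _ c1'').2.2.1] at k
    simpa using (List.append_inj' k rfl).2 |> List.tail_eq_of_cons_eq
  have s' := hb.s2 a a' pa pa' e'.symm
  have s'' := hb.s2 a a'' pa pa'' e''.symm
  have hd : (S.hp a'' ≤ S.hp a ∧ S.hp a ≤ S.hp a') ∨ (S.hp a' ≤ S.hp a ∧ S.hp a ≤ S.hp a'') := by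
    rcases hb.dir (S.blk a) with k | k
    · exact Or.inl ⟨k _ pa''.1 _ pa.1 pa'' pa e'' rfl hq, k _ pa.1 _ pa'.1 pa pa' rfl e' hp⟩
    · exact Or.inr ⟨k _ pa.1 _ pa'.1 pa pa' rfl e' hp, k _ pa''.1 _ pa.1 pa'' pa e'' rfl hq⟩
  unfold Sk.hp at hd
  by_cases d1 : S.M.nd b1 = S.M.nd b1'
  · rw [q, q', d1]
  by_cases d2 : S.M.nd b1 = S.M.nd b1''
  · rw [q, d2, hh, q']
  by_cases d3 : S.M.nd b1'' = S.M.nd b1'
  · rw [d3] at t''
    have : S.Te (S.M.nd b1') (S.M.nd a) := by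
      rcases le_total (S.f.ht (S.M.nd b1')) (S.f.ht (S.M.nd a)) with k | k <;>
        rcases hd with k' | k'
      exacts [ht.conv _ _ _ t' s' (Or.inl ⟨k, k'.2⟩), ht.conv _ _ _ t'' s'' (Or.inl ⟨k, k'.2⟩),
        ht.conv _ _ _ t'' s'' (Or.inr ⟨k'.1, k⟩), ht.conv _ _ _ t' s' (Or.inr ⟨k'.1, k⟩)]
    rw [hc.te _ _ this, q']
  have eb2 : S.blk b1' = S.blk b1 := by
    rcases h3 b1' a b1 pb1' pa pb1 m'.2.2.1 m.2.2.2.1 m.2.2.1 (m'.2.1.trans s'.symm)
      ((m'.2.1.trans s'.symm).trans m.2.1.symm) with k | k | k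
    exacts [absurd k n1', k, absurd k.symm n1]
  have fin : (S.pos b1'' < S.pos b1 ∧ S.pos b1 < S.pos b1') ∨
      (S.pos b1' < S.pos b1 ∧ S.pos b1 < S.pos b1'') := by
    rcases hd with k | k
    · have := hu.bet _ _ _ _ _ _ t' t t'' s'.symm s'' k.1 k.2 d1 d2
      exact order hb pb1'' pb1 pb1' (eb1.trans eb2) eb2 this.1 this.2.1
    · have := hu.bet _ _ _ _ _ _ t'' t t' s''.symm s' k.1 k.2 d2 d1
      exact (order hb pb1' pb1 pb1'' eb2 (eb1.trans eb2) this.1 this.2.1).symm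
  rcases fin with k | k
  · rw [q, q', hl _ _ _ _ _ _ c1'' c1 c1' k.1 k.2 hh, hh]
  · rw [q, q', hl _ _ _ _ _ _ c1' c1 c1'' k.1 k.2 hh.symm]

end Pool.Agent.MP_1a6d78_lc.DS

end MrgPart4

section MrgPart5

/-! Row LEN: an itinerary enters each block at most once. -/

namespace Pool.Agent.MP_1a6d78_lc.DS

open Classical ED PR

theorem lenS : LenS := by
  intro S B hB hN _ _ hO hT hC
  have key : ∀ m z, S.F z = m → S.K z → ∃ s : Finset ℕ, s ⊆ Finset.range B ∧
      (S.C z).length = 2 * s.card + 1 ∧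
      ∀ q ∈ s, ∃ b, S.port b ∧ S.blk b = q ∧ S.Fa (S.M.nd b) z := by
    intro m
    induction m using Nat.strong_induction_on with
    | _ m ih =>
      intro z hm hz
      by_cases sp : S.sp z
      · exact ⟨∅, by simp, by simp [hC.sp z sp], by simp⟩
      obtain ⟨h, te⟩ := hT.ex z hz sp
      obtain ⟨t1, t2, -, -, t5, t6⟩ := hT.mem h z te
      rw [hC.te h z te]
      rcases hC.head h t1 with k | k | ⟨a, b, cn, rfl⟩
      · exact ⟨∅, by simp, by simp [k.1], by simp⟩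
      · exact ⟨∅, by simp, by simp [k.1], by simp⟩
      obtain ⟨tg, -, e, -⟩ := hC.can a b cn
      have fp := hO.leg a b tg
      have ka : S.K (S.M.nd a) := tg.1.2.1
      obtain ⟨s, s1, s2, s3⟩ := ih (S.F (S.M.nd a)) (by unfold Sk.Fp at fp; omega) _ rfl ka
      have ns : S.blk b ∉ s := fun q => by
        obtain ⟨b', p, e', fa⟩ := s3 _ q
        exact hO.once _ _ (hB.s2 b' b p tg.2.1 e') (hO.ap _ _ _ p.2.1 ka cn.1 fa fp)
      refine ⟨insert (S.blk b) s, Finset.insert_subset (Finset.mem_range.2 (hN b)) s1, ?_,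
        fun q hq => ?_⟩
      · rw [e, Finset.card_insert_of_notMem ns, List.length_append, s2]; rfl
      · rcases Finset.mem_insert.1 hq with rfl | hq
        · exact ⟨b, tg.2.1, rfl, t5⟩
        · obtain ⟨b', p, e', fa⟩ := s3 q hq
          exact ⟨b', p, e', hO.aa _ _ _ p.2.1 cn.1 hz (hO.ap _ _ _ p.2.1 ka cn.1 fa fp).fa t5⟩
  intro z hz
  obtain ⟨s, s1, s2, -⟩ := key _ z rfl hz
  have := Finset.card_le_card s1
  rw [Finset.card_range] at this
  omega

end Pool.Agent.MP_1a6d78_lc.DS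

end MrgPart5

section MrgPart6

/-! PROJECT DS, row CNT: the number of itineraries. -/

namespace Pool.Agent.MP_1a6d78_lc.DS

open Classical ED PR Finset

namespace Cnt

variable {S : Sk} {B : ℕ}

/-- the itineraries of the vertices that are not special -/
noncomputable def J (S : Sk) : Finset (List ℕ) :=
  ((range S.M.n).filter fun z => S.K z ∧ ¬S.sp z).image S.C

/-- those with `i` legs -/
noncomputable def P (S : Sk) (i : ℕ) : Finset (List ℕ) := (J S).filter fun l => l.length = 2 * i + 1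

theorem mem_J (kt : S.Kt0) {z : ℕ} (h : S.K z) (h' : ¬S.sp z) : S.C z ∈ J S :=
  mem_image.2 ⟨z, mem_filter.2 ⟨mem_range.2 (kt.live z h).2.1, h, h'⟩, rfl⟩

theorem of_J {l : List ℕ} (h : l ∈ J S) : ∃ z, S.K z ∧ ¬S.sp z ∧ S.C z = l := by
  obtain ⟨z, a, b⟩ := mem_image.1 h
  exact ⟨z, (mem_filter.1 a).2.1, (mem_filter.1 a).2.2, b⟩

/-- the shape of an itinerary -/
theorem shape (te : S.TerK) (cl : S.ClsK) {z : ℕ} (h : S.K z) (h' : ¬S.sp z) :
    S.C z = [1] ∨ S.C z = [2] ∨ ∃ a b, S.Can a b ∧ S.Te (S.M.nd b) z := by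
  obtain ⟨x, hx⟩ := te.ex z h h'
  rw [cl.te x z hx]
  rcases cl.head x (te.mem x z hx).1 with k | k | ⟨a, b, k, rfl⟩
  · exact Or.inl k.1
  · exact Or.inr (Or.inl k.1)
  · exact Or.inr (Or.inr ⟨a, b, k, hx⟩)

theorem split (cl : S.ClsK) {a b z : ℕ} (k : S.Can a b) (t : S.Te (S.M.nd b) z) :
    S.C z = S.C (S.M.nd a) ++ [S.blk a, S.blk b] := (cl.te _ _ t).trans (cl.can a b k).2.2.1

theorem p0 (te : S.TerK) (cl : S.ClsK) {z : ℕ} (h : S.K z) (h' : ¬S.sp z)
    (e : (S.C z).length = 1) : S.C z = [1] ∨ S.C z = [2] := by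
  rcases shape te cl h h' with k | k | ⟨a, b, k, t⟩
  · exact Or.inl k
  · exact Or.inr k
  · rw [split cl k t] at e
    simp at e

theorem long (te : S.TerK) (cl : S.ClsK) {z : ℕ} (h : S.K z) (h' : ¬S.sp z)
    (e : 1 < (S.C z).length) : ∃ a b, S.Can a b ∧ S.Te (S.M.nd b) z := by
  rcases shape te cl h h' with k | k | k
  · rw [k] at e; simp at e
  · rw [k] at e; simp at e
  · exact k

theorem card0 (te : S.TerK) (cl : S.ClsK) : (P S 0).card ≤ 2 := by
  refine (card_le_card (t := {[1], [2]}) fun l hl => ?_).trans card_le_two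
  obtain ⟨h1, h2⟩ := mem_filter.1 hl
  obtain ⟨z, a, b, rfl⟩ := of_J h1
  simpa using p0 te cl a b h2

theorem card1 (bn : S.BlkN B) (te : S.TerK) (cl : S.ClsK) : (P S 1).card ≤ 3 * B ^ 2 := by
  have : (P S 1) ⊆ (range 3 ×ˢ range B ×ˢ range B).image fun q => [q.1, q.2.1, q.2.2] := by
    intro l hl
    obtain ⟨h1, h2⟩ := mem_filter.1 hl
    obtain ⟨z, h, h', rfl⟩ := of_J h1
    obtain ⟨a, b, k, t⟩ := long te cl h h' (by omega)
    have e := split cl k t
    have e1 : (S.C (S.M.nd a)).length = 1 := by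
      rw [e] at h2
      simpa using h2
    have : ∃ m < 3, S.C (S.M.nd a) = [m] := by
      by_cases q : S.sp (S.M.nd a)
      · exact ⟨0, by omega, cl.sp _ q⟩
      · rcases p0 te cl (cl.can a b k).1.1.2.1 q e1 with r | r
        · exact ⟨1, by omega, r⟩
        · exact ⟨2, by omega, r⟩
    obtain ⟨m, m3, em⟩ := this
    refine mem_image.2 ⟨(m, S.blk a, S.blk b), ?_, by rw [e, em]; rfl⟩
    simp [m3, bn a, bn b]
  refine (card_le_card this).trans (card_image_le.trans (le_of_eq ?_))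
  simp [sq]

/-- a last leg and the leg before it -/
structure W (S : Sk) (l : List ℕ) (a b a1 b1 : ℕ) : Prop where
  c : S.Can a b
  c1 : S.Can a1 b1
  t : S.Te (S.M.nd b1) (S.M.nd a)
  e : l = S.C (S.M.nd a) ++ [S.blk a, S.blk b]

/-- the target is the last one of its class -/
def La (S : Sk) (B a b : ℕ) : Prop :=
  ∀ a' b', S.Can a' b' → S.blk a' = S.blk a → S.C (S.M.nd a') = S.C (S.M.nd a) →
    Sk.cy B (S.blk a) (S.blk b') ≤ Sk.cy B (S.blk a) (S.blk b)

theorem wit (kt : S.Kt0) (te : S.TerK) (cl : S.ClsK) {i : ℕ} {l : List ℕ}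
    (hl : l ∈ P S (i + 2)) : ∃ a b a1 b1, W S l a b a1 b1 ∧ S.C (S.M.nd a) ∈ P S (i + 1) := by
  obtain ⟨h1, h2⟩ := mem_filter.1 hl
  obtain ⟨z, h, h', rfl⟩ := of_J h1
  obtain ⟨a, b, k, t⟩ := long te cl h h' (by omega)
  have e := split cl k t
  have e1 : (S.C (S.M.nd a)).length = 2 * (i + 1) + 1 := by
    rw [e] at h2
    simp at h2
    omega
  have ka := (cl.can a b k).1.1.2.1
  have q : ¬S.sp (S.M.nd a) := fun q => by
    rw [cl.sp _ q] at e1
    simp at e1
  obtain ⟨a1, b1, k1, t1⟩ := long te cl ka q (by omega)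
  exact ⟨a, b, a1, b1, ⟨k, k1, t1, e⟩, mem_filter.2 ⟨mem_J kt ka q, e1⟩⟩

theorem touch (cl : S.ClsK) (tk : S.TouchK) {l l' : List ℕ} {a b a1 b1 a' b' a1' b1' : ℕ}
    (w : W S l a b a1 b1) (w' : W S l' a' b' a1' b1') (h : S.blk b1 = S.blk a)
    (h' : S.blk b1' = S.blk a') (e1 : S.blk a1 = S.blk a1') (e2 : S.blk a = S.blk a')
    (e3 : S.blk b = S.blk b') : l = l' := by
  have := tk.touch a b a' b' a1 b1 a1' b1' w.c w'.c w.c1 w'.c1 w.t w'.t e2 e3 e1 h
    (h'.trans e2.symm)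
  rw [w.e, w'.e, cl.te _ _ w.t, cl.te _ _ w'.t, this, e2, e3]

theorem last (bk : S.BlkK) (b3 : S.Blk3) (bn : S.BlkN B) (te : S.TerK) (cl : S.ClsK)
    {l l' : List ℕ} {a b a1 b1 a' b' a1' b1' : ℕ}
    (w : W S l a b a1 b1) (w' : W S l' a' b' a1' b1') (h : S.blk b1 ≠ S.blk a)
    (h' : S.blk b1' ≠ S.blk a') (k : La S B a b) (k' : La S B a' b')
    (e : S.C (S.M.nd a) = S.C (S.M.nd a')) : l = l' := by
  have e1 : S.blk b1 = S.blk b1' := by
    have := e
    rw [split cl w.c1 w.t, split cl w'.c1 w'.t] at this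
    have := (List.append_inj' this rfl).2
    simp at this
    exact this.2
  have p1 := (cl.can _ _ w.c1).1.2.1
  have p1' := (cl.can _ _ w'.c1).1.2.1
  have m := te.mem _ _ w.t
  have m' := te.mem _ _ w'.t
  have e2 : S.blk a = S.blk a' := by
    rcases b3 b1 a a' p1 (cl.can _ _ w.c).1.1 (cl.can _ _ w'.c).1.1 m.2.2.1 m.2.2.2.1 m'.2.2.2.1
      m.2.1 ((bk.s2 _ _ p1 p1' e1).trans m'.2.1) with q | q | q
    · exact absurd q h
    · exact absurd (e1.symm.trans q) h'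
    · exact q
  have c1 := k a' b' w'.c e2.symm e.symm
  have c2 := k' a b w.c e2 e
  have e3 : S.blk b = S.blk b' := by
    have := bn b
    have := bn b'
    rw [← e2] at c2
    unfold Sk.cy at c1 c2
    split_ifs at c1 c2 <;> omega
  rw [w.e, w'.e, e, e2, e3]

theorem stair (st : S.Stair B) {l l' : List ℕ} {a b a1 b1 a' b' a1' b1' : ℕ}
    (w : W S l a b a1 b1) (w' : W S l' a' b' a1' b1') (h : S.blk b1 ≠ S.blk a)
    (h' : S.blk b1' ≠ S.blk a') (k' : ¬La S B a' b') (e2 : S.blk a = S.blk a')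
    (e3 : S.blk b = S.blk b') (hp : S.pos a ≤ S.pos a') : l = l' := by
  unfold La at k'
  push Not at k'
  obtain ⟨x, y, c, q1, q2, q3⟩ := k'
  have := st a b a1 b1 a' b' a1' b1' x y w.c w.c1 w'.c w'.c1 c w.t w'.t h (e2 ▸ h') e2.symm
    (q1.trans e2.symm) e3.symm hp q2 (e2 ▸ q3)
  rw [w.e, w'.e, this, e2, e3]

theorem card_rel {α β : Type} {s : Finset α} {t : Finset β} (r : α → β → Prop)
    (h : ∀ a ∈ s, ∃ b, b ∈ t ∧ r a b) (k : ∀ b a a', r a b → r a' b → a = a') :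
    s.card ≤ t.card := by
  choose f hf using h
  rw [← card_attach (s := s)]
  refine card_le_card_of_injOn (fun a => f a.1 a.2) (fun a _ => (hf a.1 a.2).1)
    fun a _ a' _ e => Subtype.ext (k _ _ _ (hf a.1 a.2).2 ?_)
  rw [show f a.1 a.2 = f a'.1 a'.2 from e]
  exact (hf a'.1 a'.2).2

theorem step (kt : S.Kt0) (bk : S.BlkK) (b3 : S.Blk3) (bn : S.BlkN B) (te : S.TerK) (cl : S.ClsK)
    (tk : S.TouchK) (st : S.Stair B) (i : ℕ) :
    (P S (i + 2)).card ≤ (P S (i + 1)).card + B ^ 2 + B ^ 3 := by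
  have key := card_rel (s := P S (i + 2))
    (t := ((P S (i + 1)).disjSum (range B ×ˢ range B)).disjSum (range B ×ˢ range B ×ˢ range B))
    (fun l q => ∃ a b a1 b1, W S l a b a1 b1 ∧
      ((S.blk b1 ≠ S.blk a ∧ La S B a b ∧ q = .inl (.inl (S.C (S.M.nd a)))) ∨
        (S.blk b1 ≠ S.blk a ∧ ¬La S B a b ∧ q = .inl (.inr (S.blk a, S.blk b))) ∨
        (S.blk b1 = S.blk a ∧ q = .inr (S.blk a1, S.blk a, S.blk b)))) (fun l hl => ?_)
    (fun q l l' hl hl' => ?_)
  · simp only [card_disjSum, card_product, card_range] at key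
    refine key.trans (le_of_eq ?_)
    ring
  · obtain ⟨a, b, a1, b1, w, hp⟩ := wit kt te cl hl
    by_cases h : S.blk b1 = S.blk a
    · exact ⟨_, by simp [bn a, bn b, bn a1], a, b, a1, b1, w, Or.inr (Or.inr ⟨h, rfl⟩)⟩
    · by_cases k : La S B a b
      · exact ⟨_, by simpa using hp, a, b, a1, b1, w, Or.inl ⟨h, k, rfl⟩⟩
      · exact ⟨_, by simp [bn a, bn b], a, b, a1, b1, w, Or.inr (Or.inl ⟨h, k, rfl⟩)⟩
  · obtain ⟨a, b, a1, b1, w, c⟩ := hl
    obtain ⟨a', b', a1', b1', w', c'⟩ := hl'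
    rcases c with ⟨h, k, rfl⟩ | ⟨h, k, rfl⟩ | ⟨h, rfl⟩ <;>
      rcases c' with ⟨h', k', e⟩ | ⟨h', k', e⟩ | ⟨h', e⟩ <;> simp at e
    · exact last bk b3 bn te cl w w' h h' k k' e
    · rcases le_total (S.pos a) (S.pos a') with p | p
      · exact stair st w w' h h' k' e.1 e.2 p
      · exact (stair st w' w h' h k e.1.symm e.2.symm p).symm
    · exact touch cl tk w w' h h' e.1 e.2.1 e.2.2

end Cnt

open Cnt in
theorem cntS : CntS := by
  intro S B kt bk b3 bn te cl tk st ln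
  have h1 : ∀ i, (P S (i + 1)).card ≤ 3 * B ^ 2 + i * (B ^ 2 + B ^ 3) := by
    intro i
    induction i with
    | zero => simpa using card1 bn te cl
    | succ i ih =>
      have := step kt bk b3 bn te cl tk st i
      rw [Nat.add_mul i 1, Nat.one_mul, show i + 1 + 1 = i + 2 from rfl]
      omega
  have h2 : J S ⊆ P S 0 ∪ (range B).biUnion fun i => P S (i + 1) := by
    intro l hl
    obtain ⟨z, h, _, rfl⟩ := of_J hl
    obtain ⟨a, b⟩ := ln z h
    by_cases q : (S.C z).length = 1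
    · exact mem_union_left _ (mem_filter.2 ⟨hl, q⟩)
    · refine mem_union_right _ (mem_biUnion.2 ⟨(S.C z).length / 2 - 1, mem_range.2 (by omega),
        mem_filter.2 ⟨hl, by omega⟩⟩)
  have h3 : ((range B).biUnion fun i => P S (i + 1)).card ≤
      B * (3 * B ^ 2 + B * (B ^ 2 + B ^ 3)) := by
    refine card_biUnion_le.trans ((sum_le_card_nsmul _ _ (3 * B ^ 2 + B * (B ^ 2 + B ^ 3))
      fun i hi => (h1 i).trans ?_).trans (by simp))
    have := (mem_range.1 hi).le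
    gcongr
  have h4 := (card_le_card h2).trans (card_union_le _ _)
  have h5 := card0 te cl
  have h6 : (B + 2) ^ 5 = B * (3 * B ^ 2 + B * (B ^ 2 + B ^ 3)) + 2 +
      (9 * B ^ 4 + 37 * B ^ 3 + 80 * B ^ 2 + 80 * B + 30) := by ring
  have h7 : (J S).card ≤ (B + 2) ^ 5 := by omega
  exact h7

end Pool.Agent.MP_1a6d78_lc.DS

end MrgPart6

section MrgPart7

/-! PROJECT DS: the cost of one leg between two blocks is a Monge function. -/

namespace Pool.Agent.MP_1a6d78_lc.DS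

open Classical ED PR

namespace MonQ

theorem code {n a b : ℕ} (ha : a < n) (hb : b < n) :
    (a * n + b) / n = a ∧ (a * n + b) % n = b ∧ a * n + b < n * n := by
  refine ⟨?_, ?_, ?_⟩
  · rw [Nat.add_comm, Nat.add_mul_div_right _ _ (by omega), Nat.div_eq_of_lt hb, Nat.zero_add]
  · rw [Nat.add_comm, Nat.add_mul_mod_self_right, Nat.mod_eq_of_lt hb]
  · have := Nat.mul_le_mul_right n (Nat.succ_le_of_lt ha)
    rw [Nat.succ_mul] at this
    omega

variable {S : Sk}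

theorem val {a b : ℕ} (ha : S.port a) (hb : S.port b) (hl : S.Lf a b) :
    a * S.M.n + b < S.M.n * S.M.n ∧ S.vq (S.blk a) (S.blk b) (a * S.M.n + b) := by
  obtain ⟨h1, h2, h3⟩ := code ha.1 hb.1
  refine ⟨h3, ?_⟩
  unfold Sk.vq
  rw [h1, h2]
  exact ⟨ha, hb, rfl, rfl, hl⟩

theorem sq_le {a b A B : ℕ} (h h' : ℕ) (ha : S.port a) (hb : S.port b) (hl : S.Lf a b)
    (hA : S.blk a = A) (hB : S.blk b = B) :
    S.sq A B h h' ≤ S.N * df h (S.hp a) + S.Lv a b + S.N * df (S.hp b) h' := by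
  subst hA hB
  obtain ⟨h1, h2, -⟩ := code ha.1 hb.1
  have h3 := val ha hb hl
  unfold Sk.sq
  rw [if_pos ⟨_, h3⟩]
  have := (mnv_spec (S.cq h h') ⟨_, h3⟩).2 _ h3.1 h3.2
  unfold Sk.cq at this ⊢
  rwa [h1, h2] at this

theorem sq_ex {A B : ℕ} (h h' : ℕ) (hq : ∃ q < S.M.n * S.M.n, S.vq A B q) :
    ∃ a b, S.port a ∧ S.port b ∧ S.blk a = A ∧ S.blk b = B ∧ S.Lf a b ∧
      S.sq A B h h' = S.N * df h (S.hp a) + S.Lv a b + S.N * df (S.hp b) h' := by
  obtain ⟨q, -, h2, h3⟩ := (mnv_spec (S.cq h h') hq).1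
  refine ⟨_, _, h2.1, h2.2.1, h2.2.2.1, h2.2.2.2.1, h2.2.2.2.2, ?_⟩
  unfold Sk.sq
  rw [if_pos hq, h3]
  rfl

theorem cross (hK : S.Kt0) (hB : S.BlkK) (hC : S.CrossK) (hL : S.LsK) {a1 a2 b1 b2 : ℕ}
    (p1 : S.port a1) (p2 : S.port a2) (q1 : S.port b1) (q2 : S.port b2)
    (ea : S.blk a2 = S.blk a1) (eb : S.blk b2 = S.blk b1) (hne : S.blk a1 ≠ S.blk b1)
    (l1 : S.Lf a1 b1) (l2 : S.Lf a2 b2) (oa : S.pos a1 ≤ S.pos a2) (ob : S.pos b1 ≤ S.pos b2) :
    S.Lf a1 b2 ∧ S.Lf a2 b1 ∧ S.Lv a1 b2 + S.Lv a2 b1 ≤ S.Lv a1 b1 + S.Lv a2 b2 := by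
  rcases oa.eq_or_lt with oa | oa
  · obtain rfl := hK.inj _ p1.1 _ p2.1 oa
    exact ⟨l2, l1, (Nat.add_comm _ _).le⟩
  rcases ob.eq_or_lt with ob | ob
  · obtain rfl := hK.inj _ q1.1 _ q2.1 ob
    exact ⟨l1, l2, le_rfl⟩
  have g1 := hL.lg _ _ p1 q1 l1
  have g2 := hL.lg _ _ p2 q2 l2
  rcases lt_or_gt_of_ne hne with h | h
  · obtain ⟨c1, c2, k1, k2, k3⟩ := (hC.swap _ _ _ _ _ _ oa (hB.lt (by omega)) ob g1 g2).1
    obtain ⟨u1, u2⟩ := hL.le _ _ _ k1
    obtain ⟨u3, u4⟩ := hL.le _ _ _ k2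
    exact ⟨u1, u3, by omega⟩
  · obtain ⟨c1, c2, k1, k2, k3⟩ :=
      (hC.swap _ _ _ _ _ _ ob (hB.lt (by omega)) oa (hC.symm _ _ _ g1) (hC.symm _ _ _ g2)).1
    obtain ⟨u1, u2⟩ := hL.le _ _ _ (hC.symm _ _ _ k1)
    obtain ⟨u3, u4⟩ := hL.le _ _ _ (hC.symm _ _ _ k2)
    exact ⟨u3, u1, by omega⟩

theorem cvx (hB : S.BlkK) {A a a' h1 h2 : ℕ} (p : S.port a) (p' : S.port a') (e : S.blk a = A)
    (e' : S.blk a' = A) (o : S.pos a ≤ S.pos a') (hh : if S.inc A then h1 ≤ h2 else h2 ≤ h1) :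
    S.N * df h1 (S.hp a) + S.N * df h2 (S.hp a') ≤ S.N * df h1 (S.hp a') + S.N * df h2 (S.hp a) := by
  rw [← Nat.mul_add, ← Nat.mul_add]
  refine Nat.mul_le_mul_left _ ?_
  split_ifs at hh with hi
  · have := hi a p.1 a' p'.1 p p' e e' o
    unfold df; omega
  · have := (hB.dir A).resolve_left hi a p.1 a' p'.1 p p' e e' o
    unfold df; omega

end MonQ

open MonQ in
theorem monQS : MonQS := by
  intro S hK hB hC hL
  refine ⟨fun a b h h' ha hb hl => sq_le h h' ha hb hl rfl rfl,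
    fun a b h h' ha hb hl => sq_ex h h' ⟨_, val ha hb hl⟩, fun A B h1 h2 k1 k2 hne hh hk => ?_⟩
  by_cases hq : ∃ q < S.M.n * S.M.n, S.vq A B q
  swap
  · simp only [Sk.sq, if_neg hq, le_refl]
  obtain ⟨a1, b1, p1, q1, e1, f1, l1, s1⟩ := sq_ex h1 k2 hq
  obtain ⟨a2, b2, p2, q2, e2, f2, l2, s2⟩ := sq_ex h2 k1 hq
  rw [s1, s2, df_comm (S.hp b1), df_comm (S.hp b2)]
  rcases le_total (S.pos a1) (S.pos a2) with oa | oa <;>
    rcases le_total (S.pos b1) (S.pos b2) with ob | ob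
  · obtain ⟨m1, m2, m3⟩ := cross hK hB hC hL p1 p2 q1 q2 (by omega) (by omega) (by omega) l1 l2 oa ob
    have t1 := sq_le h1 k1 p1 q2 m1 e1 f2
    have t2 := sq_le h2 k2 p2 q1 m2 e2 f1
    rw [df_comm (S.hp _)] at t1 t2
    omega
  · have t1 := sq_le h1 k1 p1 q1 l1 e1 f1
    have t2 := sq_le h2 k2 p2 q2 l2 e2 f2
    have c := cvx hB q2 q1 f2 f1 ob hk
    rw [df_comm (S.hp _)] at t1 t2
    omega
  · have t1 := sq_le h1 k1 p2 q2 l2 e2 f2
    have t2 := sq_le h2 k2 p1 q1 l1 e1 f1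
    have c := cvx hB p2 p1 e2 e1 oa hh
    rw [df_comm (S.hp _)] at t1 t2
    omega
  · obtain ⟨m1, m2, m3⟩ := cross hK hB hC hL p2 p1 q2 q1 (by omega) (by omega) (by omega) l2 l1 oa ob
    have t1 := sq_le h1 k1 p2 q1 m1 e2 f1
    have t2 := sq_le h2 k2 p1 q2 m2 e1 f2
    have c := cvx hB p2 p1 e2 e1 oa hh
    have c' := cvx hB q2 q1 f2 f1 ob hk
    rw [df_comm (S.hp _)] at t1 t2
    omega

end Pool.Agent.MP_1a6d78_lc.DS

end MrgPart7

section MrgPart8

/-! PROJECT DS, row MON: the step costs of an itinerary have the Monge property. -/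

namespace Pool.Agent.MP_1a6d78_lc.DS

open Classical ED PR

theorem monS : MonS := by
  intro S r μ hL hQ T I j a a' b b' ha hb
  rcases j with _ | m
  · simp only [Sk.sd, if_true]
    omega
  · simp only [Sk.sd, Nat.succ_ne_zero, if_false, Nat.add_sub_cancel]
    split_ifs with hg
    · obtain ⟨hne, k0, k1⟩ := hg
      have ho : S.ori I (m + 1) = if ((S.ori I m = 1 ↔ S.inc (gt I (2 * (m + 1)))) ↔
          S.inc (gt I (2 * (m + 1) + 1))) then 0 else 1 := rfl
      have m0 := hL.mono _ a a' k0 ha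
      have a0 := fun h => hL.anti _ (S.ori I m) a a' k0 h ha
      have m1 := hL.mono _ b b' k1 hb
      have a1 := hL.anti _ 0 b b' k1 (by decide) hb
      unfold Sk.pv
      rw [ho]
      generalize gt I (2 * (m + 1)) = A at *
      generalize gt I (2 * (m + 1) + 1) = B at *
      generalize S.ori I m = o at *
      by_cases e : o = 1 <;> by_cases eA : S.inc A <;> by_cases eB : S.inc B
      · rw [if_pos (by simp [e, eA, eB]), e]
        exact hQ.mon A B _ _ _ _ hne ((if_pos eA).mpr m0) ((if_pos eB).mpr a1)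
      · rw [if_neg (by simp [e, eA, eB]), e]
        exact hQ.mon A B _ _ _ _ hne ((if_pos eA).mpr m0) ((if_neg eB).mpr m1)
      · rw [if_neg (by simp [e, eA, eB]), e]
        have := hQ.mon A B _ _ _ _ hne ((if_neg eA).mpr m0) ((if_pos eB).mpr m1)
        omega
      · rw [if_pos (by simp [e, eA, eB]), e]
        have := hQ.mon A B _ _ _ _ hne ((if_neg eA).mpr m0) ((if_neg eB).mpr a1)
        omega
      · rw [if_neg (by simp [e, eA, eB])]
        have := hQ.mon A B _ _ _ _ hne ((if_pos eA).mpr (a0 e))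
          ((if_pos eB).mpr m1)
        omega
      · rw [if_pos (by simp [e, eA, eB])]
        have := hQ.mon A B _ _ _ _ hne ((if_pos eA).mpr (a0 e))
          ((if_neg eB).mpr a1)
        omega
      · rw [if_pos (by simp [e, eA, eB])]
        exact hQ.mon A B _ _ _ _ hne ((if_neg eA).mpr (a0 e)) ((if_pos eB).mpr a1)
      · rw [if_neg (by simp [e, eA, eB])]
        exact hQ.mon A B _ _ _ _ hne ((if_neg eA).mpr (a0 e)) ((if_neg eB).mpr m1)
    · exact le_rfl

end Pool.Agent.MP_1a6d78_lc.DS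

end MrgPart8

section MrgPart9

/-! PROJECT DS: the start of an itinerary and its last class. -/

namespace Pool.Agent.MP_1a6d78_lc.DS

open Classical ED PR Sk

namespace D0L

variable {S : Sk} {r μ B : ℕ}

theorem lo (k : S.Kt0) (ky : S.KeyK) (ln : S.LineK r μ) (bl : S.BellK) (T : List ℕ) (z u : ℕ)
    (hT : ∀ x, S.sp x → S.F x ≤ S.g T x) (h : S.sam u z) : S.F u ≤ S.d0 T z (S.f.ht u) := by
  obtain ⟨a1, a2, a3, a4⟩ := ky.ends z h.2.1
  obtain ⟨b1, b2⟩ := ky.ht u z h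
  have c1 := bl.wk _ _ _ (k.live _ a1.1).1 (ln.slide _ _ (a1.trans h.symm))
  have c2 := bl.wk _ _ _ (k.live _ a3.1).1 (ln.slide _ _ (a3.trans h.symm))
  rw [df_le b1] at c1
  rw [df_ge b2] at c2
  exact le_min (c1.trans (Nat.add_le_add_right (hT _ ⟨a1.1, Or.inl a2⟩) _))
    (c2.trans (Nat.add_le_add_right (hT _ ⟨a3.1, Or.inr a4⟩) _))

theorem add_sub (N : ℕ) {a b c : ℕ} (h : a ≤ b) (h' : b ≤ c) :
    N * (c - a) = N * (b - a) + N * (c - b) := by
  rw [← Nat.mul_add]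
  congr 1
  omega

theorem hi (ky : S.KeyK) (te : S.TerK) (cl : S.ClsK) (T : List ℕ) (z u : ℕ)
    (hT : ∀ y, S.sp y → S.F y ≤ S.F u → S.g T y = S.F y) (h : S.sam u z)
    (hl : (S.C u).length = 1) : S.d0 T z (S.f.ht u) ≤ S.F u := by
  by_cases hs : S.sp u
  · rcases hs.2 with t | t
    · refine (min_le_left _ _).trans ?_
      rw [← ky.tp u z h t, hT u hs le_rfl, Nat.sub_self]
      rfl
    · refine (min_le_right _ _).trans ?_
      rw [← ky.bt u z h t, hT u hs le_rfl, Nat.sub_self]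
      rfl
  · obtain ⟨v, hv⟩ := te.ex u h.1 hs
    obtain ⟨m1, m2, -, -, -, m3⟩ := te.mem v u hv
    obtain ⟨a1, a2, a3, a4⟩ := ky.ends v m2.1
    obtain ⟨b1, b2⟩ := ky.ht v v (sam.refl m2.1)
    rw [cl.te v u hv] at hl
    rcases cl.head v m1 with ⟨-, p, q, q'⟩ | ⟨-, p, q, q'⟩ | ⟨a, b, c, rfl⟩
    · have e := p u m2.symm hs
      rw [df_le e] at m3
      refine (min_le_left _ _).trans ?_
      rw [← ky.tp _ z ((a1.trans m2).trans h) a2, hT _ ⟨a1.1, Or.inl a2⟩ (by omega),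
        add_sub _ b1 e]
      omega
    · have e := p u m2.symm hs
      rw [df_ge e] at m3
      refine (min_le_right _ _).trans ?_
      rw [← ky.bt _ z ((a3.trans m2).trans h) a4, hT _ ⟨a3.1, Or.inr a4⟩ (by omega),
        add_sub _ e b2]
      omega
    · rw [(cl.can a b c).2.2.1] at hl
      simp at hl

theorem rep (bk : S.BlkK) (a : ℕ) (h : S.port a) : S.port (S.rep (S.blk a)) ∧
    S.blk (S.rep (S.blk a)) = S.blk a ∧ S.sam (S.M.nd (S.rep (S.blk a))) (S.M.nd a) :=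
  have p := (lst_spec (P := fun x => S.port x ∧ S.blk x = S.blk a) ⟨a, h.1, h, rfl⟩).2
  ⟨p.1, p.2, bk.s2 _ _ p.1 h p.2⟩

theorem app {I l : List ℕ} {x y : ℕ} (h : Pre I (l ++ [x, y])) :
    Pre I l ∧ gt I (l.length + 1) = x ∧ gt I (l.length + 2) = y := by
  refine ⟨fun j hj => (h j (by simp; omega)).trans ?_, (h _ (by simp)).trans ?_,
    (h (l.length + 1) (by simp)).trans ?_⟩
  · exact List.getD_append _ _ _ _ hj
  · simp [gt]
  · simp [gt]

theorem last (bk : S.BlkK) (te : S.TerK) (cl : S.ClsK) (le : S.LenK B) (I : List ℕ) (z : ℕ)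
    (hz : S.K z) (hI : Pre I (S.C z)) (h3 : 3 ≤ (S.C z).length) :
    S.sam (S.lz I ((S.C z).length / 2)) z := by
  obtain ⟨v, hv⟩ := te.ex z hz fun hs => by simp [cl.sp z hs] at h3
  obtain ⟨m1, m2, -⟩ := te.mem v z hv
  rw [cl.te v z hv] at hI h3 ⊢
  rcases cl.head v m1 with ⟨p, -⟩ | ⟨p, -⟩ | ⟨a, b, c, rfl⟩
  · simp [p] at h3
  · simp [p] at h3
  · obtain ⟨⟨pa, pb, -⟩, -, e, -⟩ := cl.can a b c
    have o := (le _ pa.2.1).2
    rw [e] at hI ⊢
    rw [Sk.lz, if_neg (by simp), show 2 * ((S.C (S.M.nd a) ++ [S.blk a, S.blk b]).length / 2)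
      + 1 = (S.C (S.M.nd a)).length + 2 by simp; omega, (app hI).2.2]
    exact (rep bk b pb).2.2.trans m2

end D0L

open D0L in
theorem d0S : D0S := by
  intro S r μ B k ky ln bk bl te cl le
  refine ⟨lo k ky ln bl, hi ky te cl, D0L.rep bk, last bk te cl le, fun I a b c hI => ?_⟩
  obtain ⟨⟨pa, -⟩, -, e, -⟩ := cl.can a b c
  have o := (le _ pa.2.1).2
  rw [e] at hI ⊢
  obtain ⟨p1, p2, p3⟩ := app hI
  have e1 : 2 * ((S.C (S.M.nd a)).length / 2 + 1) = (S.C (S.M.nd a)).length + 1 := by omega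
  refine ⟨p1, by simp, e1 ▸ p2, e1 ▸ p3, ?_⟩
  by_cases h : (S.C (S.M.nd a)).length = 1
  · rw [h] at p2 ⊢
    rw [Sk.lz, if_pos rfl, p2]
    exact (D0L.rep bk a pa).2.2
  · exact last bk te cl le I _ pa.2.1 p1 (by omega)

end Pool.Agent.MP_1a6d78_lc.DS

end MrgPart9

section MrgPart10

/-! PROJECT DS: the value of an itinerary is at least the distance. -/

namespace Pool.Agent.MP_1a6d78_lc.DS

open Classical ED PR Sk

theorem valLS : ValLS := by
  intro S r μ B hL hB hS hF hK hT hC hN hQ hn hD T I Wd z hW hg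
  induction h : S.F z using Nat.strong_induction_on generalizing z with
  | _ m ih =>
  subst h
  intro kz pz l3
  have ns : ¬S.sp z := fun e => by
    rw [hC.sp z e] at l3
    simp at l3
  obtain ⟨h, te⟩ := hT.ex z kz ns
  obtain ⟨th, -, -, -, -, eF⟩ := hT.mem h z te
  rw [hC.te h z te] at pz l3 ⊢
  rcases hC.head h th with ⟨e, -⟩ | ⟨e, -⟩ | ⟨a, b, cn, rfl⟩
  · rw [e] at l3
    simp at l3
  · rw [e] at l3
    simp at l3
  obtain ⟨⟨pa, pb, lf, eT⟩, -⟩ := hC.can a b cn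
  have l1 := hS.pos _ _ _ (hS.lg a b pa pb lf)
  obtain ⟨p1, p2, p3, p4, p5⟩ := hD.pre I a b cn pz
  have low : ∀ j ≤ (S.C (S.M.nd a)).length / 2, S.K (S.lz I j) ∧
      ∀ x, S.F (S.pv I j x) ≤ opt (S.sd T I) 0 Wd (gt []) j x := by
    by_cases q : 3 ≤ (S.C (S.M.nd a)).length
    · exact ih _ (by omega) _ rfl pa.2.1 p1 q
    · have := (hn _ pa.2.1).2
      have e0 : (S.C (S.M.nd a)).length / 2 = 0 := by omega
      rw [e0] at p5 ⊢
      intro j hj
      obtain rfl : j = 0 := by omega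
      exact ⟨p5.1, fun x => hD.lo T _ _ hg (hL.sam _ _ x p5.1)⟩
  have la := hD.last I _ cn.1 pz l3
  rw [p2] at la ⊢
  generalize (S.C (S.M.nd a)).length / 2 = i at *
  intro j hj
  rcases Nat.lt_or_ge i j with q | q
  swap
  · exact low j q
  obtain rfl : j = i + 1 := by omega
  refine ⟨la.1, fun x => ?_⟩
  obtain ⟨y, -, ey⟩ := Nat.sInf_mem (s := (fun y => opt (S.sd T I) 0 Wd (gt []) i y +
    S.sd T I (i + 1) y x) '' Set.Ico (gt [] i) (gt [] i + Wd)) ⟨_, gt [] i, ⟨le_rfl, by omega⟩, rfl⟩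
  have e1 : S.sd T I (i + 1) y x = S.sq (S.blk a) (S.blk b) (S.f.ht (S.pv I i y))
      (S.f.ht (S.pv I (i + 1) x)) := by
    unfold Sk.sd
    rw [if_neg (by omega), p3, p4, if_pos ⟨(hN.ns a b cn).2, p5.1, la.1⟩]
    rfl
  obtain ⟨a', b', pa', pb', ba, bb, lf', e2⟩ :=
    hQ.ex a b (S.f.ht (S.pv I i y)) (S.f.ht (S.pv I (i + 1) x)) pa pb lf
  have s1 : S.sam (S.pv I i y) (S.M.nd a') :=
    ((hL.sam _ _ y p5.1).trans p5).trans (hB.s2 a a' pa pa' ba.symm)
  have s2 : S.sam (S.M.nd b') (S.pv I (i + 1) x) :=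
    ((hB.s2 b' b pb' pb bb).trans la.symm).trans (hL.sam _ _ x la.1).symm
  have w1 := hF.wk _ _ _ (hK.live _ s1.1).1 (hL.slide _ _ s1)
  have w2 := hF.wk _ _ _ (hK.live _ s2.1).1 (hL.slide _ _ s2)
  have w3 := hF.lg _ _ _ (hS.lg a' b' pa' pb' lf')
  have w4 := (low i le_rfl).2 y
  have e3 : opt (S.sd T I) 0 Wd (gt []) (i + 1) x =
      opt (S.sd T I) 0 Wd (gt []) i y + S.sd T I (i + 1) y x := ey.symm
  rw [e3, e1, e2]
  unfold Sk.hp
  omega

end Pool.Agent.MP_1a6d78_lc.DS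

end MrgPart10

section MrgPart11

/-! PROJECT DS, row VALU: the value of the itinerary of a vertex is at most its distance. -/

namespace Pool.Agent.MP_1a6d78_lc.DS

open Classical ED PR

theorem valUS : ValUS := by
  intro S r μ B hL _ hls _ _ hT hC hN hQ hn hD T I Wd z x hW
  induction e : S.F z using Nat.strong_induction_on generalizing z x with | _ m ih => ?_
  subst e
  intro hK hg hp hs hx
  by_cases h1 : (S.C z).length = 1
  · rw [h1] at hs hx ⊢
    have hx' : S.pv I 0 x = z := hx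
    show S.sd T I 0 0 x ≤ _
    rw [Sk.sd, if_pos rfl, hx']
    exact hD.hi T _ z hg hs.symm h1
  have hsp : ¬S.sp z := fun k => h1 (by rw [hC.sp z k]; rfl)
  obtain ⟨h, ht⟩ := hT.ex z hK hsp
  have e1 := hC.te h z ht
  obtain ⟨m1, -, -, -, -, m2⟩ := hT.mem h z ht
  rcases hC.head h m1 with k | k | ⟨a, b, hc, rfl⟩
  · exact absurd (by rw [e1, k.1]; rfl) h1
  · exact absurd (by rw [e1, k.1]; rfl) h1
  obtain ⟨pa, pb, lf, tg⟩ := (hC.can a b hc).1
  rw [e1] at hp hs hx ⊢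
  obtain ⟨p1, p2, p3, p4, p5⟩ := hD.pre I a b hc hp
  rw [p2] at hs hx ⊢
  obtain ⟨x0, x1, x2⟩ := hL.surj _ (S.ori I ((S.C (S.M.nd a)).length / 2)) _ p5.symm
  have x3 : S.pv I ((S.C (S.M.nd a)).length / 2) x0 = S.M.nd a := x2
  have l1 := hls.pos a b _ (hls.lg a b pa pb lf)
  have lt : S.F (S.M.nd a) < S.F z := by omega
  have i1 := ih _ lt (S.M.nd a) x0 rfl pa.2.1 (fun y k k' => hg y k (k'.trans lt.le)) p1 p5 x3
  obtain ⟨j, hj⟩ : ∃ j, j = (S.C (S.M.nd a)).length / 2 := ⟨_, rfl⟩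
  rw [← hj] at hs hx p3 p4 p5 x3 i1 ⊢
  have i2 : S.sd T I (j + 1) x0 x ≤ S.Lv a b + S.N * df (S.f.ht (S.M.nd b)) (S.f.ht z) := by
    rw [Sk.sd, if_neg (Nat.succ_ne_zero j), p3, p4, Nat.add_sub_cancel,
      if_pos ⟨(hN.ns a b hc).2, p5.1, hs.1⟩, x3, hx]
    have := hQ.le a b (S.f.ht (S.M.nd a)) (S.f.ht z) pa pb lf
    rw [Sk.hp, df_self, Nat.mul_zero, Nat.zero_add] at this
    exact this
  refine (Nat.sInf_le (s := (fun y => opt (S.sd T I) 0 Wd (gt []) j y + S.sd T I (j + 1) y x) ''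
    Set.Ico (gt [] j) (gt [] j + Wd)) ⟨x0, ⟨?_, ?_⟩, rfl⟩).trans ?_
  · simp [gt]
  · omega
  · show _ + _ ≤ _
    omega

end Pool.Agent.MP_1a6d78_lc.DS

end MrgPart11

section MrgPart12

/-! PROJECT DS: the value computed from a state. -/

namespace Pool.Agent.MP_1a6d78_lc.DS

open Classical ED PR Sk

namespace VlA

variable (P : ℕ → Prop) (c : ℕ → ℕ) (z : ℕ)

theorem lo {m : ℕ} (k : ℕ) (hz : m ≤ z) (h : ∀ r < k, P r → m ≤ c r) :
    m ≤ itr (fun r acc => if P r then min acc (c r) else acc) z k := by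
  induction k with
  | zero => exact hz
  | succ k ih =>
    have := ih fun r hr => h r (by omega)
    rw [itr]
    split_ifs with q
    · exact le_min this (h k (by omega) q)
    · exact this

theorem hi (k : ℕ) : itr (fun r acc => if P r then min acc (c r) else acc) z k ≤ z ∧
    ∀ r < k, P r → itr (fun r acc => if P r then min acc (c r) else acc) z k ≤ c r := by
  induction k with
  | zero => exact ⟨le_rfl, fun r hr => absurd hr (by omega)⟩
  | succ k ih =>
    rw [itr]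
    split_ifs with q
    · refine ⟨(min_le_left _ _).trans ih.1, fun r hr p => ?_⟩
      rcases Nat.lt_succ_iff_lt_or_eq.1 hr with e | rfl
      · exact (min_le_left _ _).trans (ih.2 r e p)
      · exact min_le_right _ _
    · refine ⟨ih.1, fun r hr p => ?_⟩
      rcases Nat.lt_succ_iff_lt_or_eq.1 hr with e | rfl
      · exact ih.2 r e p
      · exact absurd p q

end VlA

theorem vlS : VlS := by
  intro S r μ B k t hK hL hF hn hM hD vL vU hk ht ρ T hI z kz
  have hg : ∀ x, S.sp x → S.F x ≤ S.g T x := fun x hx => by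
    rw [hI.g x hx]
    split_ifs
    · exact le_rfl
    · exact (hF.lt x (hK.live x hx.1).1).le
  have e1 : ∀ y, nl (enc k (S.C y)) = (S.C y).length / 2 := fun y => by
    rw [nl, enc_zero _ (by omega)]
  have e2 : ∀ y, S.K y → Pre (enc k (S.C y)) (S.C y) := fun y ky =>
    enc_pre (by have := (hn y ky).1; omega)
  have e3 : ∀ y, S.K y → S.ov k t T (enc k (S.C y)) z = opt (S.sd T (enc k (S.C y))) 0 (k ^ t)
      (gt []) ((S.C y).length / 2) (S.ix (enc k (S.C y)) z) := fun y ky => by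
    rw [Sk.ov, e1]
    exact ED.val _ 0 k (hM T _) (by omega) t [] _ _ (by have := (hn y ky).1; omega)
  have e4 : ∀ I, S.sam (S.lz I (nl I)) z → S.pv I (nl I) (S.ix I z) = z := fun I h =>
    (lst_spec (P := fun x => S.pv I (nl I) x = z) (hL.surj _ _ _ h.symm)).2
  unfold Sk.vl
  split_ifs with q
  · exact ⟨hg z q, fun h => by rw [hI.g z q, if_pos h]⟩
  have low : S.F z ≤ itr (fun r acc => if S.use (row k T r) z then
      min acc (S.ov k t T (row k T r) z) else acc) (S.d0 T z (S.f.ht z)) k := by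
    refine VlA.lo (fun r => S.use (row k T r) z) (fun r => S.ov k t T (row k T r) z) _ k
      (hD.lo T z z hg (sam.refl kz)) fun r hr u => ?_
    rcases hI.rows r hr with e | ⟨y, ky, e⟩
    · have := u.1
      omega
    · have u1 := u.1
      have u2 := e4 _ u.2
      rw [e] at u1 u2 ⊢
      rw [e1] at u1 u2
      have := (hn y ky).2
      have := (vL T _ (k ^ t) y (Nat.pow_pos (by omega)) hg ky (e2 y ky) (by omega) _ le_rfl).2
        (S.ix (enc k (S.C y)) z)
      rwa [u2, ← e3 y ky] at this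
  refine ⟨low, fun h => le_antisymm ?_ low⟩
  have hu : ∀ y, S.sp y → S.F y ≤ S.F z → S.g T y = S.F y := fun y hy e => by
    rw [hI.g y hy, if_pos (e.trans_lt h)]
  have hh := VlA.hi (fun r => S.use (row k T r) z) (fun r => S.ov k t T (row k T r) z)
    (S.d0 T z (S.f.ht z)) k
  by_cases l : (S.C z).length = 1
  · exact hh.1.trans (hD.hi T z z hu (sam.refl kz) l)
  have := (hn z kz).2
  obtain ⟨i, hi, e⟩ := hI.all z kz q h
  have la := hD.last _ z kz (e2 z kz) (by omega)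
  have u : S.use (row k T i) z := by
    rw [e, Sk.use, e1]
    exact ⟨by omega, la⟩
  refine (hh.2 i hi u).trans ?_
  have u2 := e4 _ u.2
  rw [e] at u2 ⊢
  rw [e1] at u2
  rw [e3 z kz]
  exact vU T _ _ z _ ht kz hu (e2 z kz) la u2

end Pool.Agent.MP_1a6d78_lc.DS

end MrgPart12

section MrgPart13

/-! PROJECT DS, row E1: one step of the search by radius. -/

namespace Pool.Agent.MP_1a6d78_lc.DS

open Classical ED PR

theorem e1S : E1S := by
  intro S k t kt ls be vl ρ T hρ inv z hz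
  have e0 : ∀ v, S.K v → S.e0 k t T ρ v = if S.F v < ρ then S.F v else S.Z := fun v hv => by
    obtain ⟨a, b⟩ := vl ρ T inv v hv
    unfold Sk.e0
    by_cases h : S.F v < ρ
    · rw [b h]
    · rw [if_neg h, if_neg (by omega)]
  have e1 : ∀ v c, S.K v → S.e0 k t T ρ v + c = ρ → S.F v + c ≤ ρ := fun v c hv h => by
    rw [e0 v hv] at h
    split_ifs at h <;> omega
  have e2 : ∀ v c, S.K v → 1 ≤ c → S.F v + c = ρ → S.e0 k t T ρ v + c = ρ := fun v c hv h h' => by
    rw [e0 v hv, if_pos (by omega), h']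
  obtain ⟨a, b⟩ := vl ρ T inv z hz
  unfold Sk.e1
  by_cases h : S.F z < ρ
  · rw [b h, if_pos h, if_pos h.le]
  rw [if_neg (by omega)]
  have key : S.hit (S.e0 k t T ρ) ρ z ↔ S.F z ≤ ρ := by
    constructor
    · rintro (⟨rfl, -⟩ | ⟨d, hd, rfl, g, e⟩ | ⟨p, -, q, -, rfl, hp, hq, l, e⟩)
      · rw [be.zero]
        exact Nat.zero_le _
      · exact (be.sl d hd g).1.trans (e1 _ _ (kt.gk d g).2 e)
      · exact (be.lg _ _ _ (ls.lg p q hp hq l)).trans (e1 _ _ hp.2.1 e)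
    · intro u
      have e : S.F z = ρ := by omega
      by_cases q : z = S.M.nd S.M.s
      · exact Or.inl ⟨q, by rw [← e, q, be.zero]⟩
      rcases be.ex z hz q with ⟨d, hd, h1, h2, h3⟩ | ⟨p, hp, q, hq, h1, h2, h3, h4, h5⟩
      · exact Or.inr (Or.inl ⟨d, hd, h1, h2,
          e2 _ _ (kt.gk d h2).2 (be.sl d hd h2).2 (h3.trans e)⟩)
      · exact Or.inr (Or.inr ⟨p, hp, q, hq, h1, h2, h3, h4, e2 _ _ h2.2.1
          (ls.pos _ _ _ (ls.lg p q h2 h3 h4)) (by rw [h5, h1, e])⟩)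
  by_cases u : S.F z ≤ ρ
  · rw [if_pos (key.2 u), if_pos u]
    omega
  · rw [if_neg (mt key.1 u), if_neg u]

end Pool.Agent.MP_1a6d78_lc.DS

end MrgPart13

section MrgPart14

/-! PROJECT DS, row MK: the state made from the values up to a radius. -/

namespace Pool.Agent.MP_1a6d78_lc.DS

open Classical ED PR

namespace Mk

variable {S : Sk} {k : ℕ} {e : ℕ → ℕ} {ρ : ℕ}

theorem tab_enc (k : ℕ) (l : List ℕ) : tab k (fun j => gt (enc k l) j) = enc k l :=
  tab_cg fun _ h => gt_tb _ h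

theorem row_eq (S : Sk) (e : ℕ → ℕ) (ρ : ℕ) {r : ℕ} (hr : r < k) :
    row k (S.mkT k e ρ) r = tab k fun j => if sel S.M.n (S.fst k e ρ) r < S.M.n then
      gt (S.cz k e (sel S.M.n (S.fst k e ρ) r)) j else 0 := by
  refine tab_cg fun j hj => ?_
  have h1 : (r + 1) * k ≤ k * k := Nat.mul_le_mul_right _ hr
  rw [Nat.succ_mul] at h1
  have h2 : k + r * k + j - k = j + r * k := by omega
  have h3 : (j + r * k) / k = r := by
    rw [Nat.add_mul_div_right _ _ (by omega), Nat.div_eq_of_lt hj, Nat.zero_add]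
  have h4 : (j + r * k) % k = j := by rw [Nat.add_mul_mod_self_right, Nat.mod_eq_of_lt hj]
  unfold Sk.mkT
  rw [gt_tb _ (by omega), if_neg (by omega), h2, h3, h4]

theorem row_sel (S : Sk) (e : ℕ → ℕ) (ρ : ℕ) {r : ℕ} (hr : r < k)
    (h : sel S.M.n (S.fst k e ρ) r < S.M.n) :
    row k (S.mkT k e ρ) r = S.cz k e (sel S.M.n (S.fst k e ρ) r) := by
  rw [row_eq S e ρ hr]
  simp only [if_pos h]
  exact tab_enc _ _

theorem cz_eq (hA : S.AgrK) (hρ : ρ < S.Z)
    (he : ∀ v, S.K v → e v = if S.F v ≤ ρ then S.F v else S.Z) {z : ℕ} (h : S.act e ρ z) :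
    S.cz k e z = enc k (S.C z) := by
  have h1 : S.F z ≤ ρ := by
    by_contra q
    have := he z h.1
    rw [if_neg q] at this
    have := h.2.2
    omega
  unfold Sk.cz
  rw [hA e ρ hρ he z h.1 h1]

theorem cnt_fst {B : ℕ} (hA : S.AgrK) (hC : S.CntK B) (hρ : ρ < S.Z)
    (he : ∀ v, S.K v → e v = if S.F v ≤ ρ then S.F v else S.Z) :
    cnt S.M.n (S.fst k e ρ) ≤ (B + 2) ^ 5 := by
  have key : ∀ a b, a < b → S.fst k e ρ a → S.fst k e ρ b → S.C a ≠ S.C b := by
    intro a b hab ha hb q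
    obtain ⟨j, _, hj⟩ := hb.2 a hab ha.1
    rw [cz_eq hA hρ he ha.1, cz_eq hA hρ he hb.1, q] at hj
    exact hj rfl
  refine le_trans ?_ hC
  refine Finset.card_le_card_of_injOn S.C (fun a ha => ?_) fun a ha b hb q => ?_
  · rw [Finset.mem_coe, Finset.mem_filter] at ha
    exact Finset.mem_coe.2 (Finset.mem_image_of_mem _
      (Finset.mem_filter.2 ⟨ha.1, ha.2.1.1, ha.2.1.2.1⟩))
  · rw [Finset.mem_coe, Finset.mem_filter] at ha hb
    rcases lt_trichotomy a b with l | l | l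
    · exact absurd q (key a b l ha.2 hb.2)
    · exact l
    · exact absurd q.symm (key b a l hb.2 ha.2)

end Mk

theorem mkS : MkS := by
  intro S B k h0 hA hC hk hs e ρ hρ he
  refine ⟨fun x hx => ?_, fun r hr => ?_, fun z hz hsp hF => ?_⟩
  · obtain ⟨h1, h2⟩ := sel_cnt (h0.live x hx.1).2.1 hx
    unfold Sk.g Sk.mkT
    rw [gt_tb _ (by omega), if_pos (by omega), h1, he x hx.1]
    simp only [Nat.lt_succ_iff]
  · by_cases h : sel S.M.n (S.fst k e ρ) r < S.M.n
    · have a := (sel_spec h).1.1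
      exact Or.inr ⟨_, a.1, (Mk.row_sel S e ρ hr h).trans (Mk.cz_eq hA hρ he a)⟩
    · left
      rw [Mk.row_eq S e ρ hr]
      unfold nl
      rw [gt_tb _ (by omega), if_neg h]
  · have ha : S.act e ρ z := ⟨hz, hsp, by rw [he z hz, if_pos (by omega)]; omega⟩
    have ex : ∃ z', S.act e ρ z' ∧ ∀ j < k, gt (S.cz k e z') j = gt (S.cz k e z) j :=
      ⟨z, ha, fun _ _ => rfl⟩
    obtain ⟨p1, p2⟩ := Nat.find_spec ex
    have hf : S.fst k e ρ (Nat.find ex) := by
      refine ⟨p1, fun z' l a => ?_⟩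
      by_contra q
      refine Nat.find_min ex l ⟨a, fun j hj => ?_⟩
      by_contra q'
      exact q ⟨j, hj, fun q'' => q' (q''.trans (p2 j hj))⟩
    have hn := (h0.live _ p1.1).2.1
    obtain ⟨h1, h2⟩ := sel_cnt hn hf
    have h3 := Mk.cnt_fst (k := k) hA hC hρ he
    have hr : cnt (Nat.find ex) (S.fst k e ρ) < k := by omega
    refine ⟨_, hr, ?_⟩
    rw [Mk.row_sel S e ρ hr (by rw [h1]; exact hn), h1, ← Mk.cz_eq hA hρ he ha]
    exact (Mk.tab_enc _ _).symm.trans ((tab_cg p2).trans (Mk.tab_enc _ _))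

end Pool.Agent.MP_1a6d78_lc.DS

end MrgPart14

section MrgPart15

/-! PROJECT DS, row DIJ: the sweep over the radius ends with the right value. -/

namespace Pool.Agent.MP_1a6d78_lc.DS

open Classical ED PR

namespace Dij

theorem base (S : Sk) (k : ℕ) (h0 : S.Kt0) (hk : cnt S.M.n S.sp ≤ k) :
    S.Inv k 0 (tab (k + k * k) fun i => if i < k then S.Z else 0) where
  g x hx := by
    have h1 : cnt x S.sp < k := (sel_cnt (h0.live x hx.1).2.1 hx).2.trans_le hk
    rw [if_neg (Nat.not_lt_zero _)]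
    unfold Sk.g
    rw [gt_tb _ (by omega), if_pos h1]
  rows r hr := by
    refine Or.inl ?_
    have h1 : gt (tab (k + k * k) fun i => if i < k then S.Z else 0) (k + r * k + 0) = 0 := by
      rcases Nat.lt_or_ge (k + r * k + 0) (k + k * k) with h | h
      · rw [gt_tb _ h, if_neg (by omega)]
      · exact gt_tb' _ h
    unfold nl row
    rw [gt_tb _ (by omega), h1]
  all z _ _ h := absurd h (Nat.not_lt_zero _)

theorem inv (S : Sk) (k t : ℕ) (h0 : S.Kt0) (hE : S.E1K k t) (hM : S.MkK k)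
    (hk : cnt S.M.n S.sp ≤ k) : ∀ ρ ≤ S.Z, S.Inv k ρ (S.stt k t ρ) := by
  intro ρ
  induction ρ with
  | zero => exact fun _ => base S k h0 hk
  | succ ρ ih =>
    intro h
    exact hM _ ρ h (hE ρ _ h (ih (Nat.le_of_succ_le h)))

end Dij

theorem dijS : DijS := by
  intro S k t h0 hK hB hE hM hk hX
  have h1 := hK.xb _ hX
  have h2 := (h0.live _ h1.1).1
  unfold Sk.res
  rw [(Dij.inv S k t h0 hE hM hk S.Z le_rfl).g _ h1, if_pos (hB.lt _ h2), hB.ans _ h2]

end Pool.Agent.MP_1a6d78_lc.DS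

end MrgPart15

section MrgPart16

/-! PROJECT DS, row COMP: the component of the source and the first forest. -/

namespace Pool.Agent.MP_1a6d78_lc.DS

open Classical ED PR

namespace Comp

variable {M : Mp} {w : ℕ → ℕ} {W : ℕ}

theorem key (h : Wok M w W) {a b : ℕ} (ha : a < M.n) (hb : b < M.n) :
    ps M.n (fun d => M.ρ ((M.F M.f0).tau d)) (fun _ => True) a / M.n =
      ps M.n (fun d => M.ρ ((M.F M.f0).tau d)) (fun _ => True) b / M.n ↔
      Rc M w U (M.nd a) (M.nd b) := by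
  have hM := h.ok
  have m := msfS nclK _ (GSet.fok hM (Lev.inv_zero hM 0 0).fit.1)
  have iv : Iv M.n (M.F M.f0).tau := m.iv
  have hβ : ∀ d < M.n, (M.F M.f0).β d = M.β d := fun d hd =>
    if_pos ⟨⟨(Mp.nd_spec hd).1, Mp.nd_nd hM.pm hd⟩,
      (Mp.nd_spec (hM.iv d hd).1).1, Mp.nd_nd hM.pm (hM.iv d hd).1⟩
  have hf := hM.pm.comp iv.pm
  have hr : ∀ d < M.n, ∃ e < M.n, Sc M.n (fun d => M.ρ ((M.F M.f0).tau d)) d e ∧
      (fun _ => True) e := fun d hd => ⟨d, hd, Sc.refl _ hd, trivial⟩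
  have dv : ∀ d < M.n, ps M.n (fun d => M.ρ ((M.F M.f0).tau d)) (fun _ => True) d / M.n =
      st M.n (fun d => M.ρ ((M.F M.f0).tau d)) (fun _ => True) d := fun d hd => by
    rw [Cont.ps_eq, Nat.add_comm, Nat.add_mul_div_right _ _ (by omega),
      Nat.div_eq_of_lt (Cont.tm_spec hf hr hd).1, Nat.zero_add]
  rw [dv a ha, dv b hb]
  constructor
  · intro e
    have c : Conn M.n M.ρ (M.F M.f0).tau a b :=
      ((Cont.st_spec hr ha).2.1.conn hM.pm iv ha).trans
        (e ▸ ((Cont.st_spec hr hb).2.1.conn hM.pm iv hb).symm)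
    refine Conn.ind (r := fun a b => Rc M w U (M.nd a) (M.nd b))
      ⟨fun _ => ⟨0, .nil trivial⟩, fun ⟨_, k⟩ => ⟨_, k.symm hM.iv fun _ p q => h.symm p q⟩,
        fun ⟨_, k⟩ ⟨_, k'⟩ => ⟨_, k.trans k'⟩⟩ (fun d hd => ?_) (fun d hd => ?_) c
    · rw [← (Mp.nd_iff hM.pm hd (hM.pm.1 d hd)).2 (Sc.step hM.pm.1 hd)]
      exact ⟨0, .nil trivial⟩
    · rcases m.sb d hd with k | k
      · rw [k]; exact ⟨0, .nil trivial⟩
      · rw [k, hβ d hd]
        by_cases q : M.β d = d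
        · rw [q]; exact ⟨0, .nil trivial⟩
        · exact ⟨_, Wk.one hd q trivial trivial⟩
  · rintro ⟨c, k⟩
    have sc : ∀ x < M.n, ∀ y < M.n, M.nd y = M.nd x → Conn M.n M.ρ (M.F M.f0).tau x y :=
      fun x hx y hy e => Sc.conn' _ hM.pm hx ((Mp.nd_iff hM.pm hx hy).1 e.symm)
    have := (k.inv (P := fun v => ∀ y < M.n, M.nd y = v → Conn M.n M.ρ (M.F M.f0).tau a y)
      (sc a ha) fun d hd _ _ _ p y hy e => ?_).1 b hb rfl
    · exact Cont.st_eq hf ha (Cont.conn_sc swapK hM.pm iv m.br ha this)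
    · have s : Conn M.n M.ρ (M.F M.f0).tau d ((M.F M.f0).β d) := (m.span d hd).mono fun e _ => by
        split_ifs
        exacts [Or.inr rfl, Or.inl rfl]
      rw [hβ d hd] at s
      exact ((p d hd rfl).trans s).trans (sc _ (hM.iv d hd).1 y hy e)

end Comp

theorem compS : CompS := by
  intro M w W h
  have hM := h.ok
  have e : ∀ v, lv M v ↔ v < M.n ∧ M.nd v = v ∧ Rc M w U (M.nd M.s) v := fun v =>
    and_congr_right fun hv => and_congr_right fun q => by
      rw [eq_comm, Comp.key h hM.s hv, q]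
  have s : lv M (M.nd M.s) :=
    (e _).2 ⟨(Mp.nd_spec hM.s).1, Mp.nd_nd hM.pm hM.s, 0, .nil trivial⟩
  refine ⟨e, ⟨⟨fun v k => k.1, fun u v k a => ?_, fun v _ k => absurd rfl k, fun _ _ => h.Wpos,
    fun _ k => k⟩, fun v k _ => ⟨v, k, 0, rfl⟩, s, rfl, fun _ k => k.2.1⟩,
    fun v k => ((e v).1 k).2.2, ⟨fun _ _ _ _ _ _ _ => Nat.zero_le _,
      fun _ _ _ _ k => absurd rfl k⟩, (Nat.one_mul W).symm⟩
  obtain ⟨d, hd, _, rfl, rfl⟩ := a
  obtain ⟨c, p⟩ := ((e _).1 k).2.2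
  refine (e _).2 ⟨(Mp.nd_spec (hM.iv d hd).1).1, Mp.nd_nd hM.pm (hM.iv d hd).1, ?_⟩
  by_cases q : M.β d = d
  · rw [q]; exact ⟨c, p⟩
  · exact ⟨_, p.trans (Wk.one hd q trivial trivial)⟩

end Pool.Agent.MP_1a6d78_lc.DS

end MrgPart16

section MrgPart17

/-! PROJECT DS: the distance to the skeleton. -/

namespace Pool.Agent.MP_1a6d78_lc.DS

open Classical ED PR

namespace DkL

variable {M : Mp} {w : ℕ → ℕ} {K : ℕ → Prop} {v z c : ℕ}

/-- The first entry of a walk into `K`. -/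
theorem first (h : Wk M w U v z c) (hv : ¬K v) : Rc M w (fun x => ¬K x) v z ∨
    ∃ d < M.n, M.β d ≠ d ∧ K (M.nd (M.β d)) ∧ Rc M w (fun x => ¬K x) v (M.nd d) := by
  induction h with
  | nil _ => exact Or.inl ⟨0, .nil hv⟩
  | @step u u' c d _ a b e e' _ ih =>
    subst e e'
    rcases ih with ⟨c0, k⟩ | k
    · by_cases q : K (M.nd (M.β d))
      · exact Or.inr ⟨d, a, b, q, c0, k⟩
      · exact Or.inl ⟨_, k.step a b rfl rfl q⟩
    · exact Or.inr k

theorem spec {W l Z : ℕ} {f : Fo} {o : ℕ → ℕ → ℕ} (hw : Wok M w W) (hl : Lok M w W l f)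
    (hs : K (M.nd M.s)) (hK : ∀ v, K v → f.live v) (hZ : W ≤ Z) (ho : OrK M w f.live K o Z)
    (h1 : f.live v) (h2 : ¬K v) :
    (∃ d < M.n, M.β d ≠ d ∧ K (M.nd (M.β d)) ∧ ∃ c, Wk M w (fun x => ¬K x) v (M.nd d) c ∧
      dK M w K o Z v = c + w d ∧ c + w d < W) ∧
    ∀ d < M.n, M.β d ≠ d → K (M.nd (M.β d)) → ∀ c, Wk M w (fun x => ¬K x) v (M.nd d) c →
      dK M w K o Z v ≤ c + w d := by
  obtain ⟨m, m1, m2⟩ := hw.max
  have val : ∀ d < M.n, Rc M w (fun x => ¬K x) v (M.nd d) → ¬K (M.nd d) ∧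
      o v (M.nd d) = ds M w (fun x => ¬K x) v (M.nd d) ∧ o v (M.nd d) + w d < W := by
    intro d a k
    have k1 := ds_spec k
    have k2 := ho _ _ h1 h2 (hw.live hl.fit k1 h1) k1.mem.2
    rw [if_pos k] at k2
    have k3 := ds_bnd hw.ok.iv (fun e p _ => m1 e p) k (hl.fit.1.lt v h1)
    have k4 := m1 d a
    have k5 : m * (M.n - 1) + m = M.n * m := by
      rw [← Nat.mul_succ, Nat.mul_comm]
      congr 1
      omega
    exact ⟨k1.mem.2, k2, by omega⟩
  obtain ⟨c0, p⟩ := hl.comp v h1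
  obtain ⟨d, a, b, e, k⟩ := (first (K := K) (p.symm hw.ok.iv fun _ p q => hw.symm p q)
    h2).resolve_left fun ⟨_, k⟩ => k.mem.2 hs
  obtain ⟨v1, v2, v3⟩ := val d a k
  obtain ⟨⟨q, q1, ⟨q2, q3, q4, q5⟩, q6⟩, mn⟩ := mnv_spec
    (P := fun d => M.β d ≠ d ∧ ¬K (M.nd d) ∧ K (M.nd (M.β d)) ∧ o v (M.nd d) < Z)
    (fun d => o v (M.nd d) + w d) ⟨d, a, b, v1, e, by omega⟩
  rw [dK, if_neg h2]
  refine ⟨?_, fun d a b e c k => ?_⟩
  · have l1 := hw.clo hl.fit (hw.ok.iv q q1).1 (hK _ q4)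
    rw [(hw.ok.iv q q1).2] at l1
    have r : Rc M w (fun x => ¬K x) v (M.nd q) := by
      by_contra r
      rw [ho _ _ h1 h2 l1 q3, if_neg r] at q5
      exact lt_irrefl _ q5
    obtain ⟨-, u2, u3⟩ := val q q1 r
    exact ⟨q, q1, q2, q4, _, ds_spec r, u2 ▸ q6, u2 ▸ u3⟩
  · obtain ⟨u1, u2, u3⟩ := val d a ⟨c, k⟩
    have := ds_le k
    exact (mn d a ⟨b, u1, e, by omega⟩).trans (by omega)

end DkL

theorem dkS : DkS := by
  intro M w W l f K o Z hw hl hs hK hZ ho
  have sp := fun v => DkL.spec (v := v) hw hl hs hK hZ ho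
  have zero : ∀ v, K v → dK M w K o Z v = 0 := fun v k => if_pos k
  have lip : ∀ d < M.n, M.β d ≠ d → f.live (M.nd d) →
      dK M w K o Z (M.nd d) ≤ dK M w K o Z (M.nd (M.β d)) + w d := by
    intro d a b h
    by_cases k : K (M.nd d)
    · rw [zero _ k]
      exact Nat.zero_le _
    by_cases k' : K (M.nd (M.β d))
    · have := (sp _ h k).2 d a b k' 0 (.nil k)
      omega
    · obtain ⟨e, e1, e2, e3, c, e4, e5, -⟩ := (sp _ (hw.clo hl.fit a h) k').1
      have := (sp _ h k).2 e e1 e2 e3 _ ((Wk.one (A := fun x => ¬K x) a b k k').trans e4)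
      omega
  refine ⟨zero, fun v h => ?_, lip, fun v h k => ?_⟩
  · by_cases k : K v
    · rw [zero _ k]
      exact hw.Wpos
    · obtain ⟨e, -, -, -, c, -, e5, e6⟩ := (sp v h k).1
      omega
  · obtain ⟨e, e1, e2, e3, c, e4, e5, -⟩ := (sp v h k).1
    rcases e4.exit with rfl | ⟨d, c', a, b, rfl, p, q⟩
    · have h1 := (sp _ h k).2 e e1 e2 e3 0 (.nil k)
      have h2 := zero _ e3
      exact ⟨e, e1, rfl, e2, by omega⟩
    · have h1 := (sp _ (hw.clo hl.fit a h) p.mem.1.1).2 e e1 e2 e3 _ (p.mono fun _ k => k.1)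
      have h2 := lip d a b h
      exact ⟨d, a, rfl, b, by omega⟩

end Pool.Agent.MP_1a6d78_lc.DS

end MrgPart17

section MrgPart18

/-! PROJECT DS, row NEXT: the next forest satisfies the invariant. -/

namespace Pool.Agent.MP_1a6d78_lc.DS

open Classical ED PR

theorem nxS : NxS := by
  intro M w W l f K X δ hw hl xs xl hK hδ
  obtain ⟨⟨fo, rt⟩, comp, geo, hH⟩ := hl
  have Wp := hw.Wpos
  have kl : ∀ v, K v → f.live v := fun v hv => by
    obtain ⟨x, hx, t, rfl⟩ := (hK v).1 hv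
    refine iter_inv (fun a ha => ?_) (xl x hx) t
    by_cases e : f.par a = a
    · rwa [e]
    · exact (fo.par a ha e).2.1
  have kp : ∀ v, K v → K (f.par v) := fun v hv => by
    obtain ⟨x, hx, t, rfl⟩ := (hK v).1 hv
    exact (hK _).2 ⟨x, hx, t + 1, Function.iterate_succ_apply' _ _ _⟩
  have kx : ∀ x, X x → K x := fun x hx => (hK x).2 ⟨x, hx, 0, rfl⟩
  generalize hg : nxF M w W f K X δ = g
  have gl : g.live = f.live := hg ▸ rfl
  have gm : g.mk' = X := hg ▸ rfl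
  have gH : g.H = f.H + W := hg ▸ rfl
  have p1 : ∀ v, K v → g.par v = f.par v := fun v hv => hg ▸ if_pos hv
  have h1 : ∀ v, K v → g.ht v = f.ht v := fun v hv => hg ▸ if_pos hv
  have h2 : ∀ v, ¬K v → g.ht v = f.H + δ v := fun v hv => hg ▸ if_neg hv
  have p2 : ∀ v, f.live v → ¬K v → ∃ d < M.n, M.nd d = v ∧ M.β d ≠ d ∧
      w d + δ (M.nd (M.β d)) = δ v ∧ g.par v = M.nd (M.β d) := fun v hv k =>
    have s := lst_spec (hδ.ex v hv k)
    ⟨_, s.1, s.2.1, s.2.2.1, s.2.2.2, hg ▸ if_neg k⟩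
  have c1 : ∀ v, K v → g.ht v / W < l := fun v hv => by
    rw [h1 v hv, Nat.div_lt_iff_lt_mul Wp, ← hH]
    exact fo.ht v (kl v hv)
  have c2 : ∀ v, ¬K v → l ≤ g.ht v / W := fun v hv => by
    rw [h2 v hv, Nat.le_div_iff_mul_le Wp, hH]
    omega
  have lip : ∀ u v c, f.live u → Wk M w U u v c → δ u ≤ δ v + c := by
    intro u v c hu k
    induction k with
    | nil _ => exact le_rfl
    | step p a b e e' _ ih =>
      subst e e'
      have := hδ.lip _ a b (hw.live ⟨fo, rt⟩ p hu)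
      omega
  refine ⟨⟨⟨gl ▸ fo.lt, gl ▸ fo.clo, fun v hv e => ?_, fun v hv => ?_, gl ▸ gm ▸ xl⟩,
    ⟨fun v hv e => ?_, gl ▸ rt.ls, (p1 _ (kx _ xs)).trans rt.ps, gl ▸ rt.vx⟩⟩, gl ▸ comp,
    ⟨fun u v c hu hv e k => ?_, fun d hd b hv e1 e2 e3 => ?_⟩, by rw [gH, hH, Nat.succ_mul]⟩
  · rw [gl] at hv ⊢
    by_cases k : K v
    · rw [p1 v k] at e ⊢
      rw [h1 v k, h1 _ (kp v k)]
      exact fo.par v hv e
    · obtain ⟨d, d1, rfl, d3, d4, d5⟩ := p2 v hv k
      have lv := hw.clo ⟨fo, rt⟩ d1 hv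
      have := hw.pos d d1 d3
      rw [d5]
      refine ⟨⟨M.β d, (hw.ok.iv d d1).1, hw.dir _, rfl, by rw [(hw.ok.iv d d1).2]⟩, lv, ?_⟩
      rw [h2 _ k]
      by_cases k' : K (M.nd (M.β d))
      · have := fo.ht _ lv
        rw [h1 _ k']
        omega
      · rw [h2 _ k']
        omega
  · rw [gl] at hv
    have := fo.ht v hv
    have := hδ.lt v hv
    by_cases k : K v
    · rw [h1 v k]
      omega
    · rw [h2 v k]
      omega
  · rw [gl] at hv
    by_cases k : K v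
    · obtain ⟨x, hx, t, rfl⟩ := (hK v).1 k
      refine ⟨x, gm ▸ hx, t, ?_⟩
      clear hv e k
      induction t with
      | zero => rfl
      | succ t ih =>
        rw [Function.iterate_succ_apply', Function.iterate_succ_apply', ih,
          p1 _ (iter_inv kp (kx x hx) t)]
    · obtain ⟨d, d1, -, d3, d4, d5⟩ := p2 v hv k
      have := hw.pos d d1 d3
      rw [← d5, e] at d4
      omega
  · rw [gl] at hu hv
    by_cases k : K u <;> by_cases k' : K v
    · rw [h1 u k, h1 v k'] at e ⊢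
      exact geo.lip u v c hu hv e ‹_›
    · have := c1 u k
      have := c2 v k'
      omega
    · have := c2 u k
      have := c1 v k'
      omega
    · have := lip u v c hu ‹_›
      rw [h2 u k, h2 v k']
      omega
  · rw [gl] at hv
    by_cases k : K (M.nd d)
    · rw [p1 _ k] at e1 e2
      rw [h1 _ k, h1 _ (e2 ▸ kp _ k)] at e3 ⊢
      exact geo.par d hd b hv e1 e2 e3
    · obtain ⟨e, d1, d2, d3, d4, d5⟩ := p2 _ hv k
      have k' : ¬K (M.nd (M.β d)) := fun t => by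
        have := c1 _ t
        have := c2 _ k
        omega
      rw [h2 _ k, h2 _ k', ← d4, ← d5, e2, hw.same d1 hd d3 b d2 (d5.symm.trans e2)]
      omega

end Pool.Agent.MP_1a6d78_lc.DS

end MrgPart18

section MrgPart19

/-! PROJECT DS, row SIZE: a mark on every `R`-th live vertex makes the pieces small. -/

namespace Pool.Agent.MP_1a6d78_lc.DS

open Classical ED PR

namespace Size

/-- The rank of `v` among the numbers with `P`, ordered by `pos`. -/
noncomputable def rank (n : ℕ) (P : ℕ → Prop) (pos : ℕ → ℕ) (v : ℕ) : ℕ :=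
  cnt n fun u => P u ∧ pos u < pos v

variable {n : ℕ} {P : ℕ → Prop} {pos : ℕ → ℕ} {u v : ℕ}

theorem rank_lt (hu : u < n) (h : P u) (k : pos u < pos v) : rank n P pos u < rank n P pos v :=
  cnt_lt (fun _ _ a => ⟨a.1, a.2.trans k⟩) hu ⟨h, k⟩ fun a => lt_irrefl _ a.2

theorem rank_le (k : pos u ≤ pos v) : rank n P pos u ≤ rank n P pos v :=
  cnt_mono fun _ _ a => ⟨a.1, a.2.trans_le k⟩

theorem rank_top (hv : v < n) (h : P v) : rank n P pos v < cnt n P :=
  cnt_lt (fun _ _ a => a.1) hv h fun a => lt_irrefl _ a.2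

theorem rank_inj (inj : ∀ a < n, ∀ b < n, pos a = pos b → a = b) (hu : u < n) (hv : v < n)
    (h : P u) (h' : P v) (e : rank n P pos u = rank n P pos v) : u = v := by
  rcases lt_trichotomy (pos u) (pos v) with k | k | k
  · exact absurd e (rank_lt hu h k).ne
  · exact inj u hu v hv k
  · exact absurd e (rank_lt hv h' k).ne'

theorem rank_onto (inj : ∀ a < n, ∀ b < n, pos a = pos b → a = b) {j : ℕ} (hj : j < cnt n P) :
    ∃ c < n, P c ∧ rank n P pos c = j := by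
  have := Finset.surjOn_of_injOn_of_card_le (s := (Finset.range n).filter P)
    (t := Finset.range (cnt n P)) (rank n P pos) (fun a ha => ?_) (fun a ha b hb e => ?_)
    (by rw [Finset.card_range]; exact le_rfl)
  · obtain ⟨c, hc, e⟩ := this (Finset.mem_coe.2 (Finset.mem_range.2 hj))
    have hc := Finset.mem_filter.1 (Finset.mem_coe.1 hc)
    exact ⟨c, Finset.mem_range.1 hc.1, hc.2, e⟩
  · have ha := Finset.mem_filter.1 (Finset.mem_coe.1 ha)
    exact Finset.mem_coe.2 (Finset.mem_range.2 (rank_top (Finset.mem_range.1 ha.1) ha.2))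
  · have ha := Finset.mem_filter.1 (Finset.mem_coe.1 ha)
    have hb := Finset.mem_filter.1 (Finset.mem_coe.1 hb)
    exact rank_inj inj (Finset.mem_range.1 ha.1) (Finset.mem_range.1 hb.1) ha.2 hb.2 e

/-- Between two ranks with different quotients there is a multiple of `R`. -/
theorem between (inj : ∀ a < n, ∀ b < n, pos a = pos b → a = b) {R : ℕ} (hR : 1 ≤ R) (hv : v < n)
    (h' : P v) (k : rank n P pos u / R < rank n P pos v / R) :
    ∃ c < n, P c ∧ rank n P pos c % R = 0 ∧ pos u < pos c ∧ pos c ≤ pos v := by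
  have h1 : rank n P pos v / R * R ≤ rank n P pos v := Nat.div_mul_le_self _ _
  have h2 : rank n P pos u < rank n P pos v / R * R := (Nat.div_lt_iff_lt_mul hR).1 k
  obtain ⟨c, hc, p, e⟩ := rank_onto inj (h1.trans_lt (rank_top hv h'))
  refine ⟨c, hc, p, by rw [e, Nat.mul_mod_left], lt_of_not_ge fun a => ?_, le_of_not_gt fun a => ?_⟩
  · have := rank_le (n := n) (P := P) a
    omega
  · have := rank_lt hv h' a
    omega

end Size

open Size in
theorem sizeS : SizeS := by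
  intro M w W l f D R m hw hl hD hR hm
  have fit : M.Fit (pl M f R) :=
    ⟨⟨hl.fit.1.lt, hl.fit.1.clo, hl.fit.1.par, hl.fit.1.ht,
      fun v k => k.elim (hl.fit.1.mk' v) fun a => a.1⟩,
     ⟨fun v a b => (hl.fit.2.rt v a b).imp fun _ k => ⟨Or.inl k.1, k.2⟩, hl.fit.2.ls, hl.fit.2.ps,
      hl.fit.2.vx⟩⟩
  have s := gSetS (msfS nclK) (msfC nclK) (contS swapK) M _ hw.ok fit
  have p := gPtS sectS secUS secQS part M D _ hD hw.ok fit s
  have lab := (glev M D _ hD hw.ok fit).1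
  have sec := sectS _ p.lok
  have inj : ∀ a < M.n, ∀ b < M.n, (M.L f).pos a = (M.L f).pos b → a = b := p.lok.inj
  refine ⟨⟨fit, hl.comp, ⟨hl.geo.lip, hl.geo.par⟩, hl.hH⟩, ?_, fun K w' hK u hu hKu => ?_⟩
  · refine (cnt_or _ _ _).trans (Nat.add_le_add_left (le_trans ?_ (cnt_le m fun _ => True)) _)
    refine cnt_inj (fun v => rank M.n f.live (M.L f).pos v / R) (fun a ha k => ⟨?_, trivial⟩)
      fun a ha b hb k k' e => rank_inj inj ha hb k.1 k'.1 ?_
    · exact (Nat.div_lt_iff_lt_mul hR).2 ((rank_top ha k.1).trans_le hm)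
    · have h1 : rank M.n f.live (M.L f).pos a % R = 0 := k.2
      have h2 : rank M.n f.live (M.L f).pos b % R = 0 := k'.2
      exact Nat.ext_div_mod e (h1.trans h2.symm)
  let Q : ℕ → Prop := fun i => M.l2 D (pl M f R) i = (M.ld D (pl M f R)).pc u
  have key : ∀ v, Rc M w' (fun z => ¬K z) u v → f.live v ∧ Q ((M.L (pl M f R)).rk v) := by
    rintro v ⟨c, k⟩
    refine (k.inv (P := fun x => f.live x ∧ Q ((M.L (pl M f R)).rk x)) ⟨hu, rfl⟩
      fun d hd _ a b h => ⟨hw.clo hl.fit hd h.1, ?_⟩).1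
    exact (lab _ _ h.1 ⟨d, hd, hw.dir d, rfl, rfl⟩ (fun k => a (hK _ k)) fun k => b (hK _ k)).symm.trans
      h.2
  have blk : ∀ a < M.n, ∀ b < M.n, f.live b → (M.L (pl M f R)).rk a = (M.L (pl M f R)).rk b →
      ¬rank M.n f.live (M.L f).pos a / R < rank M.n f.live (M.L f).pos b / R := by
    intro a ha b hb h e k
    obtain ⟨c, hc, c1, c2, c3, c4⟩ := between inj hR hb h k
    exact (sec.gap a ha b hb c hc (Or.inr (Or.inr ⟨c1, c2⟩)) c3 c4).ne ((sec.same a ha b hb).1 e).1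
  refine le_trans ?_ (cnt_le (4 * D ^ 2 * R) fun _ => True)
  refine cnt_inj (fun v => cnt ((M.L (pl M f R)).rk v) Q * R + rank M.n f.live (M.L f).pos v % R)
    (fun a ha k => ⟨?_, trivial⟩) fun a ha b hb k k' e => ?_
  · have h1 := (cnt_lt_of (sec.lt a ha) (key a k.2).2).trans_le (p.size _)
    have h2 := Nat.mod_lt (rank M.n f.live (M.L f).pos a) hR
    have h3 := Nat.mul_le_mul_right R (Nat.succ_le_of_lt h1)
    rw [Nat.succ_mul] at h3
    omega
  · have ka := key a k.2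
    have kb := key b k'.2
    have e1 : rank M.n f.live (M.L f).pos a % R = rank M.n f.live (M.L f).pos b % R := by
      have := congrArg (· % R) e
      simpa only [Nat.mul_add_mod', Nat.mod_mod] using this
    have e2 : cnt ((M.L (pl M f R)).rk a) Q = cnt ((M.L (pl M f R)).rk b) Q :=
      Nat.eq_of_mul_eq_mul_right hR (by omega)
    have e3 : (M.L (pl M f R)).rk a = (M.L (pl M f R)).rk b := by
      rcases lt_trichotomy ((M.L (pl M f R)).rk a) ((M.L (pl M f R)).rk b) with h | h | h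
      · exact absurd e2 (cnt_lt_of h ka.2).ne
      · exact h
      · exact absurd e2 (cnt_lt_of h kb.2).ne'
    refine rank_inj inj ha hb ka.1 kb.1 (Nat.ext_div_mod ?_ e1)
    exact le_antisymm (not_lt.1 (blk b hb a ha ka.1 e3.symm)) (not_lt.1 (blk a ha b hb kb.1 e3))

end Pool.Agent.MP_1a6d78_lc.DS

end MrgPart19

section MrgPart20

/-! PROJECT DS, row VY: a call on a virtual instance. -/

namespace Pool.Agent.MP_1a6d78_lc.DS

open Classical ED PR ED.RowKk ED.Code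

namespace Vy

/-- Two maps that agree on the darts. -/
structure Ag (M M' : Mp) : Prop where
  n : M'.n = M.n
  ρ : ∀ d < M.n, M'.ρ d = M.ρ d
  β : ∀ d < M.n, M'.β d = M.β d

variable {M M' : Mp} {w w' : ℕ → ℕ}

theorem Ag.symm (h : Ag M M') : Ag M' M :=
  ⟨h.n.symm, fun d k => (h.ρ d (h.n ▸ k)).symm, fun d k => (h.β d (h.n ▸ k)).symm⟩

theorem Ag.pm (h : Ag M M') (p : Pm M.n M.ρ) : Pm M'.n M'.ρ := by
  rw [h.n]
  exact ⟨fun d k => h.ρ d k ▸ p.1 d k, fun a ha b hb e =>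
    p.2 a ha b hb (by rw [← h.ρ a ha, e, h.ρ b hb])⟩

theorem Ag.iv (h : Ag M M') (p : Iv M.n M.β) : Iv M'.n M'.β := by
  rw [h.n]
  intro d k
  rw [h.β d k, h.β _ (p d k).1]
  exact p d k

theorem Ag.pl (h : Ag M M') (p : Pm M.n M.ρ) (q : Pl M.n M.ρ M.β) : Pl M'.n M'.ρ M'.β := by
  rw [h.n]
  intro γ h1 h2 a ha e k
  rw [h.β a ha] at k ⊢
  refine Sc.congr (p.comp h1.pm).1 (fun d hd => (h.ρ _ (h1 d hd).1).symm) ha
    (q γ h1 (fun d hd => h.β d hd ▸ h2 d hd) a ha e ?_)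
  exact Conn.ind ⟨Conn.refl _ _ _, Conn.symm, Conn.trans⟩
    (fun d hd => by rw [h.ρ d hd]; exact Conn.rho _ _ hd) (fun d hd => Conn.gam _ _ hd) k

theorem Ag.nd (h : Ag M M') (p : Pm M.n M.ρ) {d : ℕ} (hd : d < M.n) : M'.nd d = M.nd d := by
  unfold Mp.nd
  rw [h.n]
  exact lst_congr fun m _ => ⟨Sc.congr (fun a k => h.ρ a k ▸ p.1 a k) h.ρ hd,
    Sc.congr p.1 (fun a k => (h.ρ a k).symm) hd⟩

theorem Ag.wk (h : Ag M M') (p : Pm M.n M.ρ) (q : Iv M.n M.β) (hw : ∀ d < M.n, w' d = w d)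
    {A : ℕ → Prop} {u v c : ℕ} (k : Wk M w A u v c) : Wk M' w' A u v c := by
  induction k with
  | nil k => exact .nil k
  | @step v v' c d _ a b e e' k ih =>
    rw [← hw d a]
    exact ih.step (h.n ▸ a) (by rw [h.β d a]; exact b) (by rw [h.nd p a, e])
      (by rw [h.β d a, h.nd p (q d a).1, e']) k

theorem Ag.wk_iff (h : Ag M M') (p : Pm M.n M.ρ) (q : Iv M.n M.β) (hw : ∀ d < M.n, w' d = w d)
    {A : ℕ → Prop} {u v c : ℕ} : Wk M' w' A u v c ↔ Wk M w A u v c :=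
  ⟨h.symm.wk (h.pm p) (h.iv q) fun d k => (hw d (h.n ▸ k)).symm, h.wk p q hw⟩

theorem Ag.csz (h : Ag M M') (p : Pm M.n M.ρ) (q : Iv M.n M.β) (hw : ∀ d < M.n, w' d = w d)
    (A : ℕ → Prop) (u : ℕ) : csz M' w' A u = csz M w A u := by
  unfold DS.csz
  rw [h.n]
  exact cnt_congr fun a k => by
    rw [h.nd p k]
    exact and_congr_right fun _ => exists_congr fun c => h.wk_iff p q hw

theorem Ag.wok (h : Ag M M') {W W' : ℕ} (k : Wok M w W) (hw : ∀ d < M.n, w' d = w d)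
    (hs : M'.s < M'.n) (hd : ∀ d, M'.dir d) (hb : ∀ d < M'.n, M'.n * w' d < W') :
    Wok M' w' W' := by
  refine ⟨⟨h.pm k.ok.pm, h.iv k.ok.iv, h.pl k.ok.pm k.ok.pl, hs⟩, hd, fun d a b => ?_,
    fun d a e a' b b' c c' => ?_, hb⟩
  · rw [h.n] at a
    rw [h.β d a] at b
    rw [hw d a]
    exact k.pos d a b
  · rw [h.n] at a a'
    rw [h.β d a] at b c'
    rw [h.β e a'] at b' c
    rw [h.nd k.ok.pm a, h.nd k.ok.pm (k.ok.iv e a').1] at c
    rw [h.nd k.ok.pm a', h.nd k.ok.pm (k.ok.iv d a).1] at c'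
    rw [hw d a, hw e a']
    exact k.par d a e a' b b' c c'

theorem num_vy (x : List Bool) (β w : ℕ → ℕ) (u v θ : ℕ) {i : ℕ}
    (h : i < 4 + num x 0 + num x 0 + num x 0) : num (vy x β w u v θ) i = ent x β w u v θ i := by
  rw [vy, num_unary]
  exact gt_tb _ h

theorem le_Zx (x : List Bool) : x.length ≤ Zx x :=
  (Nat.le_add_right _ 2).trans (Nat.le_self_pow (by omega) _)

end Vy

open Vy in
theorem vyS : VyS := by
  intro m φ x β w u v θ W hc hw hv hθ hz hs
  have hu : u < num x 0 := hw.ok.s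
  have hn : ∀ i, num x i ≤ Zx x := fun i => (num_le x i).trans (le_Zx x)
  have h00 := hn 0
  have n0 : num (vy x β w u v θ) 0 = num x 0 := by
    rw [num_vy _ _ _ _ _ _ (by omega), ent, if_pos rfl, min_eq_right h00]
  have n1 : num (vy x β w u v θ) 1 = u := by
    rw [num_vy _ _ _ _ _ _ (by omega), ent, if_neg (by omega), if_pos rfl, min_eq_right (by omega)]
  have n2 : num (vy x β w u v θ) 2 = v := by
    rw [num_vy _ _ _ _ _ _ (by omega), ent, if_neg (by omega), if_neg (by omega), if_pos rfl,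
      min_eq_right (by omega)]
  have n3 : num (vy x β w u v θ) 3 = θ := by
    rw [num_vy _ _ _ _ _ _ (by omega), ent, if_neg (by omega), if_neg (by omega),
      if_neg (by omega), if_pos rfl, min_eq_right hθ]
  have ag : Ag (alt (inp x) β u v) (inp (vy x β w u v θ)) := by
    refine ⟨n0, fun d k => ?_, fun d k => ?_⟩
    · change d < num x 0 at k
      change num _ (4 + d) = num x (4 + d)
      rw [num_vy _ _ _ _ _ _ (by omega), ent, if_neg (by omega), if_neg (by omega),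
        if_neg (by omega), if_neg (by omega), if_pos (by omega), min_eq_right (hn _)]
    · have b : β d < num x 0 := (hw.ok.iv d k).1
      change d < num x 0 at k
      change num _ (4 + num _ 0 + d) = β d
      rw [n0, num_vy _ _ _ _ _ _ (by omega), ent, if_neg (by omega), if_neg (by omega),
        if_neg (by omega), if_neg (by omega), if_neg (by omega), if_pos (by omega),
        Nat.add_sub_cancel_left, min_eq_right (by omega)]
  have aw : ∀ d < (alt (inp x) β u v).n, wt (vy x β w u v θ) d = w d := fun d k => by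
    change d < num x 0 at k
    rw [wt, n0, num_vy _ _ _ _ _ _ (by omega), ent, if_neg (by omega), if_neg (by omega),
      if_neg (by omega), if_neg (by omega), if_neg (by omega), if_neg (by omega),
      Nat.add_sub_cancel_left, min_eq_right (hz d k)]
  have e1 : (inp (vy x β w u v θ)).nd (inp (vy x β w u v θ)).s = (inp x).nd u := by
    change (inp _).nd (num _ 1) = _
    rw [n1]
    exact ag.nd hw.ok.pm hu
  have e2 : (inp (vy x β w u v θ)).nd (inp (vy x β w u v θ)).t = (inp x).nd v := by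
    change (inp _).nd (num _ 2) = _
    rw [n2]
    exact ag.nd hw.ok.pm hv
  have wk : Wok (inp (vy x β w u v θ)) (wt (vy x β w u v θ)) (Wx (vy x β w u v θ)) := by
    refine ag.wok hw aw (show num _ 1 < num _ 0 by rw [n0, n1]; exact hu) (fun _ => trivial)
      fun d _ => ?_
    calc _ ≤ (vy x β w u v θ).length * (vy x β w u v θ).length :=
          Nat.mul_le_mul (num_le _ _) (num_le _ _)
      _ < _ := by rw [Wx]; nlinarith
  have := hc _ wk (show num _ 2 < num _ 0 by rw [n0, n2]; exact hv)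
    (by rw [e1, n0, ag.csz hw.ok.pm hw.ok.iv aw]; exact hs)
  rw [this, e1, e2, n3]
  exact exists_congr fun c => and_congr_right fun _ => ag.wk_iff hw.ok.pm hw.ok.iv aw

end Pool.Agent.MP_1a6d78_lc.DS

end MrgPart20

section MrgPart21

/-! PROJECT DS, row SUB: the calls on the map without `K` give the distances off `K`. -/

namespace Pool.Agent.MP_1a6d78_lc.DS

open Classical ED PR

namespace Sub

variable {M : Mp} {K : ℕ → Prop} {w : ℕ → ℕ} {d u v a b c : ℕ}

theorem nle (x : List Bool) (i : ℕ) : num x i ≤ x.length :=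
  (Finset.sum_le_card_nsmul _ _ 1 fun p _ => by
    unfold bit
    split_ifs <;> omega).trans (by simp)

theorem on (h1 : ¬K (M.nd d)) (h2 : ¬K (M.nd (M.β d))) : sub M K d = M.β d := if_pos ⟨h1, h2⟩

theorem ne (h : sub M K d ≠ d) : ¬K (M.nd d) ∧ ¬K (M.nd (M.β d)) ∧ sub M K d = M.β d := by
  by_cases k : ¬K (M.nd d) ∧ ¬K (M.nd (M.β d))
  · exact ⟨k.1, k.2, if_pos k⟩
  · exact absurd (if_neg k) h

theorem sb : Sb M.n (sub M K) M.β := fun _ _ => (Classical.em _).imp id fun h => (ne h).2.2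

theorem iv (h : Iv M.n M.β) : Iv M.n (sub M K) := fun d hd => by
  by_cases k : sub M K d = d
  · rw [k, k]
    exact ⟨hd, rfl⟩
  · obtain ⟨k1, k2, k3⟩ := ne k
    rw [k3, on k2 (by rw [(h d hd).2]; exact k1)]
    exact h d hd

theorem down (h : Wk (alt M (sub M K) u v) w U a b c) (ha : ¬K a) :
    Wk M w (fun z => ¬K z) a b c := by
  induction h with
  | nil _ => exact .nil ha
  | @step y y' c d _ k1 k2 k3 k4 _ ih =>
    obtain ⟨_, j2, j3⟩ := ne (M := M) (K := K) (d := d) k2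
    have k5 : M.nd (M.β d) = y' := j3 ▸ k4
    exact ih.step k1 (fun e => k2 (j3.trans e)) k3 k5 (k5 ▸ j2)

theorem up (h : Wk M w (fun z => ¬K z) a b c) : Wk (alt M (sub M K) u v) w U a b c := by
  induction h with
  | nil _ => exact .nil trivial
  | @step y y' c d p k1 k2 k3 k4 k5 ih =>
    have j : sub M K d = M.β d := on (k3 ▸ p.mem.2) (k4 ▸ k5)
    exact ih.step k1 (fun e => k2 (j.symm.trans e)) k3
      ((congrArg M.nd j).trans k4) trivial

theorem wok {W Z p q : ℕ} (h : Wok M w W) (hp : 1 ≤ p) (hu : u < M.n)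
    (hZ : ∀ d < M.n, p * w d + q ≤ Z) :
    Wok (alt M (sub M K) u v) (fun d => p * w d + q) (M.n * Z + 1) where
  ok := ⟨h.ok.pm, iv h.ok.iv, h.ok.pl.sub sb, hu⟩
  dir _ := trivial
  pos d hd k := by
    have := Nat.mul_le_mul hp (h.pos d hd fun e => k ((ne k).2.2.trans e))
    omega
  par d hd e he k k' e1 e2 := by
    have j := (ne (M := M) (K := K) (d := d) k).2.2
    have j' := (ne (M := M) (K := K) (d := e) k').2.2
    rw [h.par d hd e he (fun i => k (j.trans i)) (fun i => k' (j'.trans i))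
      (e1.trans (congrArg M.nd j')) ((congrArg M.nd j).symm.trans e2)]
  big d hd := Nat.lt_succ_of_le (Nat.mul_le_mul_left _ (hZ d hd))

end Sub

theorem subS : SubS := by
  intro vy m φ x live K p q hc hw hp hp' hq hl hs u v lu ku lv kv
  have n0 := Sub.nle x 0
  have hm : ∀ d, p * wt x d + q ≤ (x.length + 2) ^ 2 := fun d => by
    have : p * wt x d ≤ (x.length + 1) * x.length :=
      Nat.mul_le_mul (hp'.trans (Nat.succ_le_succ n0)) (Sub.nle x _)
    nlinarith
  have hZ : ∀ d, p * wt x d + q ≤ Zx x := fun d =>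
    (hm d).trans (Nat.pow_le_pow_right (by omega) (by omega))
  have key : ∀ θ < Zx x + 1, (θ = Zx x ∨
      φ (DS.vy x (sub (inp x) K) (fun d => p * wt x d + q) u v θ) = 1) ↔ (θ = Zx x ∨
      ∃ c ≤ θ, Wk (inp x) (fun d => p * wt x d + q) (fun z => ¬K z) u v c) := fun θ hθ => by
    rw [vy m φ x (sub (inp x) K) _ u v θ _ hc (Sub.wok hw hp (hl u lu).1 fun d _ => hZ d)
      (hl v lv).1 (by omega) (fun d _ => hZ d) ?_, (hl u lu).2, (hl v lv).2]
    · exact or_congr_right (exists_congr fun c => and_congr_right fun _ =>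
        ⟨fun k => Sub.down k ku, Sub.up⟩)
    · rw [(hl u lu).2]
      exact le_trans (cnt_mono fun a _ k => ⟨k.1, k.2.imp fun c j => Sub.down j ku⟩) (hs u lu ku)
  rw [orc, lst_congr key]
  obtain ⟨-, h2⟩ := lst_spec (n := Zx x + 1) (P := fun θ => θ = Zx x ∨
    ∃ c ≤ θ, Wk (inp x) (fun d => p * wt x d + q) (fun z => ¬K z) u v c)
    ⟨_, Nat.lt_succ_self _, Or.inl rfl⟩
  split_ifs with h
  · have h3 := ds_bnd hw.ok.iv (fun d _ _ => hm d) h (hl u lu).1
    have h4 : ds (inp x) (fun d => p * wt x d + q) (fun z => ¬K z) u v ≤ Zx x :=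
      h3.trans (by
        rw [Zx, show 4 = 2 + 2 from rfl, Nat.pow_add]
        refine Nat.mul_le_mul_left _ ?_
        have : (inp x).n ≤ x.length := n0
        nlinarith [Nat.sub_le (inp x).n 1])
    refine le_antisymm (lst_le (by omega) (Or.inr ⟨_, le_rfl, ds_spec h⟩)) ?_
    rcases h2 with h2 | ⟨c, h5, h6⟩
    · exact h2.symm ▸ h4
    · exact (ds_le h6).trans h5
  · exact h2.resolve_right fun ⟨c, _, k⟩ => h ⟨c, k⟩

end Pool.Agent.MP_1a6d78_lc.DS

end MrgPart21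

section MrgPart22

/-! PROJECT DS, row LEV: the invariants of the levels. -/

namespace Pool.Agent.MP_1a6d78_lc.DS

open Classical ED PR

namespace LevL

theorem ar {E X a b Q : ℕ} (hE : 1 ≤ E)
    (h : 5000 * E * X ≤ 5000 * (a + b) + 1000 * (Q * (5000 * E))) : X ≤ a / E + b + 1000 * Q := by
  have h1 : X * E ≤ a + (b + 1000 * Q) * E := by nlinarith [Nat.mul_le_mul_left b hE]
  have h2 := (Nat.le_div_iff_mul_le hE).2 h1
  rw [Nat.add_mul_div_right _ _ hE] at h2
  omega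

theorem wz (x : List Bool) : Wx x ≤ Zx x :=
  (Nat.pow_le_pow_left (Nat.le_succ _) 2).trans (Nat.pow_le_pow_right (by omega) (by omega))

end LevL

theorem levS : LevS := by
  intro comp dk nx size sub vy m φ x E R hc hw hE hR hs hm l
  have hD : 1 ≤ 5000 * E := by omega
  obtain ⟨c1, c2⟩ := comp _ _ _ hw
  have hl : cnt (inp x).n (lv (inp x)) ≤ (5000 * E) ^ 3 * R :=
    (cnt_congr fun a ha => (c1 a).trans ⟨fun k => k.2, fun k => ⟨ha, k⟩⟩).le.trans hs
  induction l with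
  | zero =>
    obtain ⟨s1, s2, s3⟩ := size _ _ _ _ _ _ _ _ hw c2 hD hR hl
    refine ⟨s1, rfl, s2.trans ?_, fun K w' hK u hu k => (s3 K w' hK u hu k).trans hm⟩
    have : cnt (inp x).n (f1 (inp x) (Wx x)).mk' ≤ num x 0 := cnt_le _ _
    simpa using this
  | succ l ih =>
    obtain ⟨i1, i2, i3, i4⟩ := ih
    set g := lev φ x (5000 * E) R l with hg
    have ck := (glev _ _ g hD hw.ok i1.fit).2
    have xs : (inp x).X (5000 * E) g ((inp x).nd (inp x).s) := Or.inl rfl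
    have o := sub vy m φ x g.live ((inp x).ld (5000 * E) g).K 1 0 hc hw le_rfl (by omega)
      (by omega) (fun v hv => ⟨i1.fit.1.lt v hv, i1.fit.2.vx v hv⟩)
      fun u hu k => i4 _ _ (fun _ k => k) u (i2 ▸ hu) k
    have e : (fun d => 1 * wt x d + 0) = wt x := funext fun d => by simp
    have o' : OrK (inp x) (wt x) g.live ((inp x).ld (5000 * E) g).K
        (orc φ x ((inp x).ld (5000 * E) g).K fun d => 1 * wt x d + 0) (Zx x) := by
      rw [e] at o ⊢
      exact o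
    have d := dk _ _ _ _ g _ _ _ hw i1 ((ck.K _).2 ⟨_, xs, 0, rfl⟩) ck.klive (LevL.wz x) o'
    have n1 : Lok (inp x) (wt x) (Wx x) (l + 1 + 1) (nxt φ x (5000 * E) g) :=
      nx _ _ _ _ g _ _ _ hw i1 xs (fun v hv => hv.elim (fun k => k ▸ i1.fit.2.ls) fun k => k.1)
        ck.K d
    have n2 : (nxt φ x (5000 * E) g).live = lv (inp x) := i2
    obtain ⟨s1, s2, s3⟩ := size _ _ _ _ _ _ _ _ hw n1 hD hR (n2 ▸ hl)
    refine ⟨s1, i2, s2.trans ?_, fun K w' hK u hu k => (s3 K w' hK u (n2 ▸ hu) k).trans hm⟩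
    have f1 : cnt (inp x).n ((inp x).X (5000 * E) g) ≤ num x 0 / E ^ l / E +
        (l * (1001 * (5000 * E) ^ 4) + (5000 * E) ^ 3) + 1000 * (5000 * E) ^ 4 := by
      refine LevL.ar hE (ck.few.trans ?_)
      rw [← pow_succ, ← add_assoc]
      exact Nat.add_le_add_right (Nat.mul_le_mul_left _ i3) _
    have f2 : (5000 * E) ^ 3 ≤ (5000 * E) ^ 4 := Nat.pow_le_pow_right hD (by omega)
    have f3 : cnt (inp x).n (nxt φ x (5000 * E) g).mk' =
        cnt (inp x).n ((inp x).X (5000 * E) g) := rfl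
    rw [Nat.div_div_eq_div_mul, ← pow_succ] at f1
    rw [f3, Nat.add_mul l 1, Nat.one_mul]
    omega

end Pool.Agent.MP_1a6d78_lc.DS

end MrgPart22

section MrgPart23

/-! PROJECT DS: the last forest gives a skeleton. -/

namespace Pool.Agent.MP_1a6d78_lc.DS

open Classical ED PR

namespace Skl

theorem one (n a : ℕ) (P : ℕ → Prop) : cnt n (fun v => v = a ∧ P v) ≤ 1 :=
  (cnt_inj (m := 1) (Q := fun _ => True) (fun _ => 0) (fun _ _ _ => ⟨one_pos, trivial⟩)
    fun _ _ _ _ h k _ => h.1.trans k.1.symm).trans (cnt_le _ _)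

theorem img (n : ℕ) (P : ℕ → Prop) (g : ℕ → ℕ) :
    cnt n (fun v => ∃ d < n, P d ∧ g d = v) ≤ cnt n P :=
  cnt_inj (fun v => lst n fun d => P d ∧ g d = v)
    (fun _ _ h => ⟨(lst_spec h).1, (lst_spec h).2.1⟩) fun _ _ _ _ h k e =>
      (lst_spec h).2.2.symm.trans ((congrArg g e).trans (lst_spec k).2.2)

theorem zed {n L : ℕ} (h : n ≤ L) : (n + 1) * (L + 1) ^ 2 + (n + 1) ≤ (L + 2) ^ 4 := by
  have h1 : (n + 1) * (L + 1) ^ 2 ≤ (L + 1) * (L + 1) ^ 2 := Nat.mul_le_mul_right _ (by omega)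
  have h2 : (L + 2) ^ 4 = (L + 1) * (L + 1) ^ 2 + (L + 1) +
      (L ^ 4 + 7 * L ^ 3 + 21 * L ^ 2 + 28 * L + 14) := by ring
  omega

theorem nums {r D c a : ℕ} (hD : 5000 ≤ D) (hc : c ≤ r * (1001 * D ^ 4) + D ^ 3)
    (ha : D * a ≤ 5000 * c + 1000 * D ^ 5) : a + (2 * c + 1) ≤ mu r D := by
  have h1 : a ≤ c + 1000 * D ^ 4 := by
    refine Nat.le_of_mul_le_mul_left (ha.trans ?_) (by omega : 0 < D)
    have := Nat.mul_le_mul_right c hD
    rw [Nat.mul_add, show D * (1000 * D ^ 4) = 1000 * D ^ 5 by ring]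
    omega
  have h2 : D ^ 3 ≤ D ^ 4 := Nat.pow_le_pow_right (by omega) (by omega)
  have h3 : 1 ≤ D ^ 4 := Nat.one_le_pow _ _ (by omega)
  have h4 : mu r D = 4000 * (r * D ^ 4) + 4000 * D ^ 4 := by unfold mu; ring
  rw [show r * (1001 * D ^ 4) = 1001 * (r * D ^ 4) by ring] at hc
  omega

end Skl

theorem sklS : SklS := by
  intro sub vy m φ x D r f hc hw hD hl hm hK
  have s := gSetS (msfS nclK) (msfC nclK) (contS swapK) (inp x) f hw.ok hl.fit
  have g := (glev (inp x) D f (by omega) hw.ok hl.fit).2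
  have n := Skl.nums hD hm g.few
  have c := s.con
  refine ⟨hw, hl.fit, hl.comp, hl.geo, hl.hH.le, ?_, Or.inl (Or.inl rfl),
    fun d hd h => Or.inr (Or.inl ⟨d, hd, h, rfl⟩), ?_, ?_, ?_,
    Skl.zed (RowKk.num_le x 0)⟩
  · rintro v ((rfl | h) | ⟨d, hd, h, rfl⟩ | h)
    · exact hl.fit.2.ls
    · exact h.1
    · by_contra k
      exact h.1 ((s.msf.sb d hd).elim id fun e => e.trans (if_neg fun k' => k k'.1))
    · exact h.2
  · refine (cnt_or _ _ _).trans ((Nat.add_le_add_left ((cnt_or _ _ _).trans (Nat.add_le_add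
      ((Skl.img _ _ _).trans c) (Skl.one _ _ _))) _).trans n)
  · exact c.trans (by omega)
  · exact sub vy m φ x f.live (anc (inp x).n f.par (xs x D f)) (num x 0 + 1) 1 hc hw (by omega)
      le_rfl le_rfl (fun v h => ⟨hl.fit.1.lt v h, hl.fit.2.vx v h⟩)
      (hK _ _ fun v ⟨y, h1, h2, h3⟩ => ⟨y, h1, Or.inl h2, h3⟩)

end Pool.Agent.MP_1a6d78_lc.DS

end MrgPart23

section MrgPart24

/-! PROJECT DS, rows RO and REC: the recursion on the size of the components. -/

namespace Pool.Agent.MP_1a6d78_lc.DS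

open Classical ED PR

theorem roS : RoS := fun r n hr => by
  obtain ⟨k1, k2, k3, -⟩ := kkS r (List.replicate n true) hr
  have e : kk r (List.replicate n true) = ro r n := by
    unfold kk ro
    rw [List.length_replicate]
  rw [e] at k1 k2 k3
  rw [List.length_replicate] at k2 k3
  have := (Nat.le_self_pow (by omega : r ≠ 0) (ro r n - 1)).trans k3
  exact ⟨k1, k2, k3, by omega⟩

namespace Rec

theorem ans_iff (hF : FinS) {S : Sk} {r μ t : ℕ} (θ : ℕ) (h : S.Ok r μ)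
    (hn : S.M.n ≤ kq r μ ^ t) (hx : S.f.live (S.M.nd S.M.t) → S.X (S.M.nd S.M.t)) :
    ans S (kq r μ) t θ = 1 ↔ ∃ c ≤ θ, Wk S.M S.w U (S.M.nd S.M.s) (S.M.nd S.M.t) c := by
  unfold ans
  constructor
  · intro e
    have k : S.f.live (S.M.nd S.M.t) ∧ S.res (kq r μ) t ≤ θ := by
      by_contra q
      rw [if_neg q] at e
      exact absurd e (by omega)
    exact ⟨_, hF S r μ t h hn (hx k.1) ▸ k.2, ds_spec (h.comp _ k.1)⟩
  · rintro ⟨c, hc, k⟩
    have l := h.wok.live h.fit k h.fit.2.ls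
    rw [if_pos ⟨l, by rw [hF S r μ t h hn (hx l)]; exact (ds_le k).trans hc⟩]

theorem mu_ge (r D : ℕ) (hD : 1 ≤ D) : 2 * D ^ 3 ≤ mu r D ∧ D ≤ mu r D := by
  have a : D ^ 3 ≤ D ^ 4 := Nat.pow_le_pow_right hD (by omega)
  have b : D ≤ D ^ 4 := Nat.le_self_pow (by omega) D
  have c : 4000 * D ^ 4 ≤ 4000 * (r + 1) * D ^ 4 :=
    Nat.mul_le_mul_right _ (Nat.le_mul_of_pos_right _ (by omega))
  unfold mu
  omega

theorem kx_ge (hR : RoS) {r : ℕ} (hr : 1 ≤ r) (x : List Bool) : num x 0 ≤ kx r x ^ r := by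
  obtain ⟨k1, k2, -, -⟩ := hR r (num x 0) hr
  have a := (mu_ge r (Dx r x) (by unfold Dx; omega)).2
  have b : bq (r + 1) (mu r (Dx r x)) + 2 ≤ kx r x := Nat.le_self_pow (by omega) _
  have c : ro r (num x 0) ≤ kx r x := by
    unfold bq at b
    unfold Dx at a b
    omega
  exact k2.le.trans (Nat.pow_le_pow_left c r)

theorem zx (x : List Bool) : (num x 0 + 1) * Wx x + (num x 0 + 1) ≤ Zx x := by
  have a := (kkS 1 x le_rfl).2.2.2 0
  have b : (num x 0 + 1) * Wx x ≤ (x.length + 1) * Wx x := Nat.mul_le_mul_right _ (by omega)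
  have c : (x.length + 1) * Wx x + (x.length + 1) ≤ Zx x := by
    unfold Wx Zx
    nlinarith [Nat.zero_le (x.length ^ 4), Nat.zero_le (x.length ^ 3), Nat.zero_le (x.length ^ 2)]
  omega

theorem ok0 (hC : CompS) {x : List Bool} (r D : ℕ) (hD : 1 ≤ D)
    (h : Wok (inp x) (wt x) (Wx x))
    (hs : csz (inp x) (wt x) U ((inp x).nd (inp x).s) ≤ D ^ 3) : (sk0 x).Ok (r + 1) (mu r D) := by
  obtain ⟨c1, c2⟩ := hC _ _ _ h
  have g := gSetS (msfS nclK) (msfC nclK) (contS swapK) _ _ h.ok c2.fit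
  have a : cnt (inp x).n (lv (inp x)) ≤ D ^ 3 :=
    (cnt_mono fun v _ k => ((c1 v).1 k).2).trans hs
  have b := (mu_ge r D hD).1
  have c : cnt (inp x).n ((inp x).F (f1 (inp x) (Wx x))).con ≤ 2 * cnt (inp x).n (lv (inp x)) :=
    g.con
  refine ⟨h, c2.fit, c2.comp, c2.geo, ?_, fun _ k => k, c2.fit.2.ls, fun d hd k => ?_, ?_, ?_,
    fun u v l k _ _ => ?_, zx x⟩
  · exact c2.hH.le.trans (Nat.mul_le_mul_right _ (by omega))
  · have e := (g.msf.sb d hd).resolve_left k.1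
    by_contra q
    refine k.1 (e.trans ?_)
    exact if_neg fun p => q p.1
  · exact a.trans (by omega)
  · exact c.trans (by omega)
  · have hu : u < (inp x).n := c2.fit.1.lt u l
    exact absurd ⟨u, hu, l, 0, (Nat.zero_le _).trans_lt hu, rfl⟩ k

end Rec

open Rec in
theorem recS : RecS := by
  intro hR hC hS hV hD hN hZ hL hK hF r hr j
  induction j with
  | zero =>
    intro y h _ hs
    have k1 := (hR r (num y 0) hr).1
    have o := ok0 hC r (Dx r y) (by unfold Dx; omega) h (by simpa [mm, Dx] using hs)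
    exact ans_iff hF (num y 3) o (kx_ge hR hr y) fun k => k
  | succ j ih =>
    intro y h _ hs
    obtain ⟨k1, k2, -, -⟩ := hR r (num y 0) hr
    have e : 4 * (5000 * ro r (num y 0)) ^ 2 * ro r (num y 0) ^ (j + 1) ≤ mm r j (num y 0) := by
      unfold mm
      generalize ro r (num y 0) = E
      have : (5000 * E) ^ 3 * E ^ j = 5000 * ((5000 * E) ^ 2 * E ^ (j + 1)) := by ring
      rw [this, Nat.mul_assoc]
      exact Nat.mul_le_mul_right _ (by omega)
    obtain ⟨l1, l2, l3, l4⟩ := hL hC hD hN hZ hS hV (mm r j) (alg r j) y (ro r (num y 0))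
      (ro r (num y 0) ^ (j + 1)) ih h k1 (Nat.one_le_pow _ _ k1) hs e r
    rw [Nat.div_eq_of_lt k2, Nat.zero_add] at l3
    have o := hK hS hV (mm r j) (alg r j) y (5000 * ro r (num y 0)) r _ ih h (by omega) l1 l3
      fun K w' a u b => l4 K w' a u (l2 ▸ b)
    exact ans_iff hF (num y 3) o (kx_ge hR hr y) fun k => Or.inr (Or.inr ⟨rfl, k⟩)

end Pool.Agent.MP_1a6d78_lc.DS

end MrgPart24

section MrgPart25

/-! PROJECT DS, row TOP: a directed instance with a potential is an undirected instance. -/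

namespace Pool.Agent.MP_1a6d78_lc.DS

open Classical ED PR

namespace Tp

variable {x : List Bool} {π : ℕ → ℕ}

theorem nle (x : List Bool) (i : ℕ) : num x i ≤ x.length := ED.RowKk.num_le x i

theorem be_eq {d : ℕ} (h : be x d ≠ d) :
    be x d = (inp x).β d ∧ (us x d ∨ us x ((inp x).β d)) := by
  unfold be at h ⊢
  by_cases k : us x d ∨ us x ((inp x).β d)
  · exact ⟨if_pos k, k⟩
  · exact absurd (if_neg k) h

theorem be_bb (hO : (inp x).Ok) {d : ℕ} (hd : d < num x 0) (h : be x d ≠ d) :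
    be x ((inp x).β d) = d ∧ be x ((inp x).β d) ≠ (inp x).β d := by
  obtain ⟨e, k⟩ := be_eq h
  have b := (hO.iv d hd).2
  have : be x ((inp x).β d) = d := by
    unfold be
    rw [b, if_pos k.symm]
  exact ⟨this, by rw [this, ← e]; exact h.symm⟩

theorem be_iv (hO : (inp x).Ok) : Iv (num x 0) (be x) := by
  intro d hd
  by_cases h : be x d = d
  · rw [h]; exact ⟨hd, h⟩
  · rw [(be_eq h).1]
    exact ⟨(hO.iv d hd).1, (be_bb hO hd h).1⟩

theorem be_sb : Sb (num x 0) (be x) (inp x).β := by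
  intro d _
  by_cases h : be x d = d
  · exact Or.inl h
  · exact Or.inr (be_eq h).1

theorem om_b (hO : (inp x).Ok) (hP : Pot x π) {e : ℕ} (he : e < num x 0) (h : be x e ≠ e) :
    om x π ((inp x).β e) = om x π e := by
  have b := (hO.iv e he).2
  unfold om
  rw [b, df_comm]
  congr 1
  by_cases k : us x e <;> by_cases k' : us x ((inp x).β e)
  · rw [if_pos k, if_pos k']; exact (hP.two e he k k').1
  · rw [if_pos k, if_neg k']
  · rw [if_neg k, if_pos k']
  · exact absurd (be_eq h).2 (by tauto)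

theorem om_le (hP : Pot x π) (e : ℕ) : om x π e ≤ x.length + (x.length + 1) * x.length := by
  unfold om
  refine Nat.add_le_add ?_ (Nat.mul_le_mul (Nat.succ_le_succ (nle x 3)) ?_)
  · split_ifs <;> exact nle x _
  · have a := hP.le ((inp x).nd e)
    have b := hP.le ((inp x).nd ((inp x).β e))
    have c := nle x 0
    unfold df
    omega

theorem wm_le (hP : Pot x π) (d : ℕ) : wm x π d ≤ x.length + (x.length + 1) * x.length :=
  om_le hP _

theorem wm_spec {d : ℕ} (hd : d < num x 0) (h : be x d ≠ d) :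
    (∃ e < num x 0, (be x e ≠ e ∧ (inp x).nd e = (inp x).nd d ∧
      (inp x).nd ((inp x).β e) = (inp x).nd ((inp x).β d)) ∧ wm x π d = om x π e) ∧
    ∀ e < num x 0, (be x e ≠ e ∧ (inp x).nd e = (inp x).nd d ∧
      (inp x).nd ((inp x).β e) = (inp x).nd ((inp x).β d)) → wm x π d ≤ om x π e :=
  mnv_spec (om x π) ⟨d, hd, h, rfl, rfl⟩

theorem wm_par (hO : (inp x).Ok) (hP : Pot x π) {d e : ℕ} (hd : d < num x 0) (he : e < num x 0)
    (h : be x d ≠ d) (k : be x e ≠ e) (e1 : (inp x).nd d = (inp x).nd ((inp x).β e))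
    (e2 : (inp x).nd ((inp x).β d) = (inp x).nd e) : wm x π d ≤ wm x π e := by
  obtain ⟨q, q1, ⟨q2, q3, q4⟩, q5⟩ := (wm_spec (π := π) he k).1
  rw [q5, ← om_b hO hP q1 q2]
  refine (wm_spec hd h).2 _ (hO.iv q q1).1 ⟨(be_bb hO q1 q2).2, q4.trans e1.symm, ?_⟩
  rw [(hO.iv q q1).2]
  exact q3.trans e2.symm

theorem zb (x : List Bool) {a : ℕ} (ha : a ≤ x.length + (x.length + 1) * x.length) :
    (num x 0 + 1) * a + num x 0 + 1 ≤ Zx x := by
  have h := nle x 0
  have h1 := Nat.mul_le_mul (Nat.succ_le_succ h) ha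
  unfold Zx
  generalize x.length = L at *
  have : (L + 1) * (L + (L + 1) * L) + L + 1 ≤ (L + 2) ^ 4 := by
    have : (L + 2) ^ 4 = (L + 1) * (L + (L + 1) * L) + L + 1 +
      (L ^ 4 + 7 * L ^ 3 + 21 * L ^ 2 + 29 * L + 15) := by ring
    omega
  simp only [Nat.succ_eq_add_one] at h1
  omega

theorem wok (hO : (inp x).Ok) (hP : Pot x π) (t : ℕ) :
    Wok (alt (inp x) (be x) (num x 1) t) (fun d => (num x 0 + 1) * wm x π d + 1)
      (num x 0 * Zx x + 1) where
  ok := ⟨hO.pm, be_iv hO, hO.pl.sub be_sb, hO.s⟩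
  dir _ := trivial
  pos _ _ _ := Nat.le_add_left _ _
  par d hd e he h k e1 e2 := by
    have e1' : (inp x).nd d = (inp x).nd ((inp x).β e) := (be_eq k).1 ▸ e1
    have e2' : (inp x).nd ((inp x).β d) = (inp x).nd e := (be_eq h).1 ▸ e2
    have : wm x π d = wm x π e := le_antisymm (wm_par hO hP hd he h k e1' e2')
      (wm_par hO hP he hd k h e2'.symm e1'.symm)
    simp only [this]
  big d _ := by
    refine Nat.lt_succ_of_le (Nat.mul_le_mul_left _ ?_)
    have := zb x (wm_le hP d)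
    omega

theorem nd_rho (hO : (inp x).Ok) {a : ℕ} (ha : a < num x 0) :
    (inp x).nd ((inp x).ρ a) = (inp x).nd a :=
  ((Mp.nd_iff hO.pm ha (hO.pm.1 a ha)).2 (Sc.step hO.pm.1 ha)).symm

theorem pot_le (hP : Pot x π) {a : ℕ} (ha : a < num x 0) (h : us x a) :
    π ((inp x).nd a) ≤ π ((inp x).nd ((inp x).β a)) := by
  by_cases k : us x ((inp x).β a)
  · exact (hP.two a ha h k).2.le
  · exact (hP.one a ha h k).le

/-- A directed walk gives an undirected one. -/
theorem fwd (hO : (inp x).Ok) (hP : Pot x π) (t : ℕ) {a c : ℕ}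
    (h : Dw (inp x) (us x) (wt x) (num x 1) a c) :
    a < num x 0 ∧ π ((inp x).nd (num x 1)) ≤ π ((inp x).nd a) ∧
      ∃ c', Wk (alt (inp x) (be x) (num x 1) t) (wm x π) U ((inp x).nd (num x 1)) ((inp x).nd a) c' ∧
        c' + (num x 3 + 1) * π ((inp x).nd (num x 1)) ≤ c + (num x 3 + 1) * π ((inp x).nd a) := by
  induction h with
  | nil => exact ⟨hO.s, le_rfl, 0, .nil trivial, le_rfl⟩
  | @rot a c _ ih =>
    rw [nd_rho hO ih.1]
    exact ⟨hO.pm.1 a ih.1, ih.2⟩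
  | @edge a c _ k ih =>
    obtain ⟨i1, i2, c', i3, i4⟩ := ih
    have p := pot_le hP i1 k
    refine ⟨(hO.iv a i1).1, i2.trans p, ?_⟩
    by_cases q : (inp x).β a = a
    · rw [q]; exact ⟨c', i3, by omega⟩
    · have e : be x a = (inp x).β a := if_pos (Or.inl k)
      have e' : be x a ≠ a := by rw [e]; exact q
      refine ⟨c' + wm x π a, i3.step (d := a) i1 e' rfl ?_ trivial, ?_⟩
      · show (inp x).nd (be x a) = _
        rw [e]
      · have w1 := (wm_spec (π := π) i1 e').2 a i1 ⟨e', rfl, rfl⟩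
        unfold om at w1
        rw [if_pos k, df_le p] at w1
        obtain ⟨r, hr⟩ := Nat.exists_eq_add_of_le p
        rw [hr, Nat.add_sub_cancel_left] at w1
        rw [hr, Nat.mul_add]
        omega

theorem rot_all (hO : (inp x).Ok) {a b c : ℕ} (ha : a < num x 0) (hb : b < num x 0)
    (e : (inp x).nd b = (inp x).nd a) (h : Dw (inp x) (us x) (wt x) (num x 1) a c) :
    Dw (inp x) (us x) (wt x) (num x 1) b c :=
  Sc.ind hO.pm.1 (Q := fun d => Dw (inp x) (us x) (wt x) (num x 1) d c) ha h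
    (fun _ _ k => k.rot) ((Mp.nd_iff hO.pm ha hb).1 e.symm)

/-- A cheap undirected walk gives a directed one. -/
theorem bwd (hO : (inp x).Ok) (hP : Pot x π) (t : ℕ) {v c0 : ℕ}
    (h : Wk (alt (inp x) (be x) (num x 1) t) (wm x π) U ((inp x).nd (num x 1)) v c0) :
    (∃ c, (∀ a < num x 0, (inp x).nd a = v → Dw (inp x) (us x) (wt x) (num x 1) a c) ∧
      c + (num x 3 + 1) * π v ≤ c0 + (num x 3 + 1) * π ((inp x).nd (num x 1))) ∨
    (num x 3 + 1) * π v + (num x 3 + 1) ≤ c0 + (num x 3 + 1) * π ((inp x).nd (num x 1)) := by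
  induction h with
  | nil _ => exact Or.inl ⟨0, fun a ha e => rot_all hO hO.s ha e .nil, le_rfl⟩
  | @step v v' c d _ hd hb e1 e2 _ ih =>
    have hb' : be x d ≠ d := hb
    have e1' : (inp x).nd d = v := e1
    have e2' : (inp x).nd ((inp x).β d) = v' := (be_eq hb').1 ▸ e2
    obtain ⟨e, he, ⟨q2, q3, q4⟩, q5⟩ := (wm_spec (π := π) hd hb').1
    rw [e1'] at q3
    rw [e2'] at q4
    rw [q5]
    have m1 : (num x 3 + 1) * π v' ≤ (num x 3 + 1) * π v + (num x 3 + 1) * df (π v) (π v') := by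
      rw [← Nat.mul_add]
      exact Nat.mul_le_mul_left _ (by unfold df; omega)
    unfold om
    rw [q3, q4]
    rcases ih with ⟨c1, i1, i2⟩ | i
    · by_cases k : us x e
      · rw [if_pos k]
        refine Or.inl ⟨c1 + wt x e, fun a ha ea => ?_, by omega⟩
        exact rot_all hO (hO.iv e he).1 ha (ea.trans q4.symm) ((i1 e he q3).edge k)
      · have k' : us x ((inp x).β e) := (be_eq q2).2.resolve_left k
        have o := hP.one _ (hO.iv e he).1 k' (by rw [(hO.iv e he).2]; exact k)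
        rw [(hO.iv e he).2, q3, q4] at o
        have := Nat.mul_le_mul_left (num x 3 + 1) (Nat.succ_le_of_lt o)
        rw [Nat.mul_succ] at this
        exact Or.inr (by omega)
    · exact Or.inr (by omega)

end Tp

open Tp in
theorem topS : TopS := by
  intro hV m φ x π hC hm hO ht hP
  have hW := wok hO hP (num x 2)
  have hθ : num x 3 + (num x 3 + 1) * (π ((inp x).nd (num x 2)) - π ((inp x).nd (num x 1))) ≤
      x.length + (x.length + 1) * x.length := by
    refine Nat.add_le_add (nle x 3) (Nat.mul_le_mul (Nat.succ_le_succ (nle x 3)) ?_)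
    have a := hP.le ((inp x).nd (num x 2))
    have c := nle x 0
    omega
  have key := hV m φ x (be x) (fun d => (num x 0 + 1) * wm x π d + 1) (num x 1) (num x 2)
    ((num x 0 + 1) * (num x 3 + (num x 3 + 1) *
      (π ((inp x).nd (num x 2)) - π ((inp x).nd (num x 1)))) + num x 0) _ hC hW ht
    (by have := zb x hθ; omega) (fun d _ => by have := zb x (wm_le hP d); omega)
    ((cnt_le _ _).trans (hm _))
  unfold topv
  constructor
  · intro h
    by_cases p : π ((inp x).nd (num x 1)) ≤ π ((inp x).nd (num x 2))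
    · rw [if_pos p] at h
      obtain ⟨c, hc, hw⟩ := key.1 h
      obtain ⟨c0, w0, l0⟩ := hw.wle (w := wm x π) (a := num x 0 + 1)
        fun _ _ _ => Nat.le_succ _
      obtain ⟨r, hr⟩ := Nat.exists_eq_add_of_le p
      rw [hr, Nat.add_sub_cancel_left] at hc
      have l1 : c0 ≤ num x 3 + (num x 3 + 1) * r := by
        by_contra q
        have := Nat.mul_le_mul_left (num x 0 + 1) (Nat.succ_le_of_lt (not_le.1 q))
        rw [Nat.mul_succ] at this
        omega
      rcases bwd hO hP _ w0 with ⟨c1, i1, i2⟩ | i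
      · rw [hr, Nat.mul_add] at i2
        exact ⟨c1, by omega, i1 _ ht rfl⟩
      · rw [hr, Nat.mul_add] at i
        omega
    · rw [if_neg p] at h
      exact absurd h (by decide)
  · rintro ⟨c, hc, hw⟩
    obtain ⟨_, p, c', w1, l1⟩ := fwd hO hP (num x 2) hw
    rw [if_pos p]
    obtain ⟨c2, w2, l2⟩ := w1.hop (w' := fun d => (num x 0 + 1) * wm x π d + 1) hW.ok.iv
      (a := num x 0 + 1) (b := 1) (fun _ _ _ => le_rfl) (Mp.nd_spec hO.s).1
    refine key.2 ⟨c2, ?_, w2⟩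
    obtain ⟨r, hr⟩ := Nat.exists_eq_add_of_le p
    rw [hr, Nat.mul_add] at l1
    rw [hr, Nat.add_sub_cancel_left]
    have l3 : c' ≤ num x 3 + (num x 3 + 1) * r := by omega
    have := Nat.mul_le_mul_left (num x 0 + 1) l3
    have e : (alt (inp x) (be x) (num x 1) (num x 2)).n = num x 0 := rfl
    rw [e] at l2
    omega

end Pool.Agent.MP_1a6d78_lc.DS

end MrgPart25

section MrgPart26

/-! PROJECT DS, row COD: the map, the weights and the walks read from the code. -/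

namespace Pool.Agent.MP_1a6d78_lc.DS

open Classical ED ED.Code PR

namespace Cod

section

variable {n : ℕ} (σ α : Equiv.Perm (Fin n)) (dir : Fin n → Bool) (w : Fin n → ℕ) (s t : Fin n)
  (θ : ℕ)

theorem c_num (i : ℕ) : num (code σ α dir w s t θ) i =
    ([n, s.val, t.val, θ] ++ (List.ofFn (fun a => (σ a).val) ++ (List.ofFn (fun a => (α a).val) ++
      (List.ofFn w ++ List.ofFn fun a => if dir a then 1 else 0)))).getD i 0 := by
  rw [code, num_unary, List.append_assoc, List.append_assoc, List.append_assoc]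

theorem c_n : num (code σ α dir w s t θ) 0 = n := by rw [c_num]; rfl

theorem c_rho (a : Fin n) : num (code σ α dir w s t θ) (4 + a) = σ a := by
  rw [c_num, getD_right _ _ (n := 4) rfl,
    List.getD_append _ _ _ _ (by rw [List.length_ofFn]; exact a.2), getD_ofFn]

theorem c_beta (a : Fin n) : num (code σ α dir w s t θ) (4 + n + a) = α a := by
  rw [c_num, Nat.add_assoc, getD_right _ _ (n := 4) rfl, getD_right _ _ (n := n) List.length_ofFn,
    List.getD_append _ _ _ _ (by rw [List.length_ofFn]; exact a.2), getD_ofFn]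

theorem c_wt (a : Fin n) : num (code σ α dir w s t θ) (4 + n + n + a) = w a := by
  rw [c_num, Nat.add_assoc, Nat.add_assoc, getD_right _ _ (n := 4) rfl,
    getD_right _ _ (n := n) List.length_ofFn, getD_right _ _ (n := n) List.length_ofFn,
    List.getD_append _ _ _ _ (by rw [List.length_ofFn]; exact a.2), getD_ofFn]

theorem c_dir (a : Fin n) :
    num (code σ α dir w s t θ) (4 + n + n + n + a) = if dir a then 1 else 0 := by
  rw [c_num, Nat.add_assoc, Nat.add_assoc, Nat.add_assoc, getD_right _ _ (n := 4) rfl,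
    getD_right _ _ (n := n) List.length_ofFn, getD_right _ _ (n := n) List.length_ofFn,
    getD_right _ _ (n := n) List.length_ofFn, getD_ofFn]

theorem c_rep : Rep σ α (fun _ => true) s t (inp (code σ α dir w s t θ)) where
  hn := c_n σ α dir w s t θ
  ρ a := c_rho σ α dir w s t θ a
  β a := by
    show num _ (4 + num _ 0 + a) = _
    rw [c_n, c_beta]
  dir a := ⟨fun _ => rfl, fun _ => trivial⟩
  s := by
    show num _ 1 = _
    rw [c_num]; rfl
  t := by
    show num _ 2 = _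
    rw [c_num]; rfl

theorem c_w (a : Fin n) : wt (code σ α dir w s t θ) a = w a := by
  show num _ (4 + num _ 0 + num _ 0 + a) = _
  rw [c_n, c_wt]

theorem c_us (a : Fin n) : us (code σ α dir w s t θ) a ↔ dir a = true := by
  show num _ (4 + num _ 0 + num _ 0 + num _ 0 + a) = 1 ↔ _
  rw [c_n, c_dir]
  cases dir a <;> simp

variable {σ α dir w s} {M : Mp} {u : ℕ → Prop} {v : ℕ → ℕ}

theorem to_walk (hρ : ∀ a : Fin n, M.ρ a = σ a) (hβ : ∀ a : Fin n, M.β a = α a)
    (hw : ∀ a : Fin n, v a = w a) (hu : ∀ a : Fin n, u a ↔ dir a = true) {b c : ℕ}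
    (k : Dw M u v s b c) : ∃ a : Fin n, a.val = b ∧ Walk σ α dir w s a c := by
  induction k with
  | nil => exact ⟨s, rfl, Walk.nil⟩
  | rot _ ih =>
    obtain ⟨a, rfl, h⟩ := ih
    exact ⟨σ a, (hρ a).symm, h.rot⟩
  | edge _ e ih =>
    obtain ⟨a, rfl, h⟩ := ih
    rw [hw a]
    exact ⟨α a, (hβ a).symm, h.edge ((hu a).1 e)⟩

theorem of_walk (hρ : ∀ a : Fin n, M.ρ a = σ a) (hβ : ∀ a : Fin n, M.β a = α a)
    (hw : ∀ a : Fin n, v a = w a) (hu : ∀ a : Fin n, u a ↔ dir a = true) {a : Fin n} {c : ℕ}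
    (k : Walk σ α dir w s a c) : Dw M u v s a c := by
  induction k with
  | nil => exact Dw.nil
  | @rot a _ _ ih => rw [← hρ a]; exact ih.rot
  | @edge a _ _ e ih => rw [← hβ a, ← hw a]; exact ih.edge ((hu a).2 e)

end

end Cod

theorem codS : CodS := by
  intro n σ α dir w s t θ x hα hP hx
  subst hx
  have r := Cod.c_rep σ α dir w s t θ
  obtain ⟨e1, e2, e3⟩ := eulS σ α (fun _ => true) s t _ r hα hP
  refine ⟨⟨e1, e2, (genK swapK nclK).pl e1 e2 e3.le, by rw [r.s, r.hn]; exact s.2⟩, e3,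
    Cod.c_n σ α dir w s t θ, r.s, r.t, by rw [Cod.c_num]; rfl,
    fun a => ⟨r.ρ a, r.β a, Cod.c_w σ α dir w s t θ a, Cod.c_us σ α dir w s t θ a⟩,
    fun c => ⟨fun k => ?_, fun k => ?_⟩⟩
  · obtain ⟨a, e, h⟩ := Cod.to_walk r.ρ r.β (Cod.c_w σ α dir w s t θ) (Cod.c_us σ α dir w s t θ) k
    rw [← Fin.ext e]; exact h
  · exact Cod.of_walk r.ρ r.β (Cod.c_w σ α dir w s t θ) (Cod.c_us σ α dir w s t θ) k

end Pool.Agent.MP_1a6d78_lc.DS

end MrgPart26
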