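import Pool.Agent.MP_1a6d78_lc.DS.Basic
import Pool.Agent.MP_1a6d78_lc.GM.Vin
import Pool.Agent.MP_1a6d78_lc.GM.RecC

/-! PROJECT PSD: space and time accounting (rows packed). -/

section MrgPart1

/-! PROJECT DS, rows FM and PI: the forest map and the input are computable. -/

namespace Pool.Agent.MP_1a6d78_lc.DS

open Classical ED PR

theorem fmC : FmC := by
  intro κ M f ⟨hn, hρ, hβ, _, _, _⟩ nd hf
  have n0 : Cn κ fun x ρ => (M x).nd (hd (ρ 0)) := nd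
  have nb : Cn κ fun x ρ => (M x).nd ((M x).β (hd (ρ 0))) := K.app nd hβ
  have F : Fm.C κ fun x => (M x).F (f x) :=
    ⟨hn, hρ, K.ite (K.and (K.appP hf.2.2.2.1 n0) (K.appP hf.2.2.2.1 nb)) hβ (K.v 0), nd,
      K.ite (K.and hf.2.2.2.1 (K.ne hf.1 (K.v 0)))
        (K.lst (P := fun x ρ d => (M x).nd d = hd (ρ 0) ∧
          (M x).nd ((M x).β d) = (f x).par (hd (ρ 0))) hn
          (K.and (K.eq n0 (K.v 1)) (K.eq nb (K.app hf.1 (K.v 1))))) hn, hf.2.1⟩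
  obtain ⟨tau, -⟩ := (aFm κ).1 _ F
  refine ⟨F, (aFm κ).2 (fun x _ => (M x).n) (fun x _ d => (M x).ρ (((M x).F (f x)).tau d))
    (fun x _ => (M x).rt (f x)) hn (K.app hρ tau) (K.le hn (K.app F.2.2.2.2.1 n0)),
    fun n P c h1 h2 h3 => ?_⟩
  exact K.app h3 (K.lst (P := fun x ρ q => P x ρ q ∧ ∀ q' < n x ρ, P x ρ q' → c x ρ q ≤ c x ρ q')
    h1 (K.and h2 (K.all
      (P := fun x ρ q' => P x (tl ρ) q' → c x (tl ρ) (hd (ρ 0)) ≤ c x (tl ρ) q') (K.w h1)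
      (K.imp (K.appP (K.wP1 (K.wP1 h2)) (K.v 0))
        (K.le (K.app (K.wF (K.wF h3)) (K.v 1)) (K.app (K.wF (K.wF h3)) (K.v 0)))))))

namespace Fmx

/-- A computable number is bounded by a polynomial. -/
theorem pol {b : List Bool → ℕ} (h : Cn (fun _ => 1) fun x _ => b x) :
    ∃ e, ∀ x, b x ≤ (x.length + 2) ^ e := by
  obtain ⟨c, h1, -⟩ := h
  refine ⟨2 * c, fun x => ?_⟩
  have h2 := h1 x (fun _ => []) (x.length + 1)
    ⟨le_rfl, Nat.le_add_left _ _, Nat.le_succ _, fun _ _ k => absurd k List.not_mem_nil⟩ (b x)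
    (List.mem_singleton.2 rfl)
  rw [pow_mul]
  exact h2.trans (Nat.pow_le_pow_left (by nlinarith) c)

end Fmx

theorem piS : PiS := by
  intro _ hF r _
  have num : ∀ {κ : List Bool → ℕ} {a : List Bool → Env → ℕ}, Cn κ a →
      Cn κ fun x ρ => num x (a x ρ) := fun h => AlgD.numC (kitOne _) (kitTwo _) h
  have hn : ∀ κ, Cn κ fun x _ => ED.num x 0 := fun _ => num (K.c 0)
  have hM : ∀ κ, Mp.C κ inp := fun κ =>
    ⟨hn κ, num (K.add (K.c 4) (K.v 0)), num (K.add (K.add (K.c 4) (hn κ)) (K.v 0)),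
      K.cgP (K.eq (K.c 0) (K.c 0)) fun _ _ => ⟨fun _ => trivial, fun _ => rfl⟩, num (K.c 1),
      num (K.c 2)⟩
  have nd : ∀ κ, F1 κ fun x _ => (inp x).nd := fun κ =>
    K.lst (P := fun x ρ => Sc (inp x).n (inp x).ρ (hd (ρ 0))) (hM κ).1
      (K.sc (hM κ).1 (hM κ).2.1 (K.v 1) (K.v 0))
  have hro : ∀ κ, Cn κ fun x _ => ro r (ED.num x 0) := fun κ =>
    (kitOne κ).fold (fun x _ m acc => if m ^ r ≤ ED.num x 0 then m + 1 else acc)
      (fun _ _ m => m + 1) (K.add (hn κ) (K.c 1)) (K.c 0)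
      ((kitOne κ).ile (K.pow r (K.v 1)) (hn κ) (K.add (K.v 1) (K.c 1)) (K.v 0))
      (K.add (K.v 0) (K.c 1)) fun _ _ _ _ _ h1 h2 => by split_ifs <;> assumption
  have hmu : ∀ κ, Cn κ fun x _ => mu r (Dx r x) := fun κ =>
    K.mul (K.c (4000 * (r + 1))) (K.pow 4 (K.mul (K.c 5000) (hro κ)))
  have hk : ∀ κ, Cn κ fun x _ => kx r x := fun κ =>
    K.pow 5 (K.add (K.add (K.add (K.mul (K.c 6) (K.mul (K.mul (hmu κ) (K.add (hmu κ) (K.c 1)))
      (K.c (r + 1)))) (hmu κ)) (K.c 1)) (K.c 2))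
  have hb : ∀ κ, Cn κ fun x _ => bs r x := fun κ => K.pow 3 (K.add (hk κ) (K.c 2))
  refine ⟨fun _ => num (K.v 0), hM, nd,
    fun κ => num (K.add (K.add (K.add (K.c 4) (hn κ)) (hn κ)) (K.v 0)),
    fun κ => K.pow 2 (K.add (kitOne κ).len (K.c 1)), fun κ => K.pow 4 (K.add (kitOne κ).len (K.c 2)),
    hro, hk, fun κ => ?_, ⟨fun _ => le_rfl, hb, Fmx.pol (hb _)⟩, fun x => ?_⟩
  · have v : P1 κ fun x _ v => v < (inp x).n ∧ (inp x).nd v = v :=
      K.and (K.lt (K.v 0) (hn κ)) (K.eq (nd κ) (K.v 0))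
    obtain ⟨F, -⟩ := hF κ inp (fun x => (inp x).f0) (hM κ) (nd κ) ⟨K.v 0, K.c 0, K.c 1, v, v⟩
    obtain ⟨tau, -⟩ := (aFm κ).1 _ F
    have p := (aFm κ).2 (fun x _ => (inp x).n)
      (fun x _ d => (inp x).ρ (((inp x).F (inp x).f0).tau d)) (fun _ _ _ => True) (hM κ).1
      (K.app (hM κ).2.1 tau) (hM κ).2.2.2.1
    exact K.and (K.lt (K.v 0) (hn κ)) (K.and (K.eq (nd κ) (K.v 0))
      (K.eq (K.div p (hn κ)) (K.div (K.app p (hM κ).2.2.2.2.1) (hn κ))))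
  · have h1 : 5 * Dx r x ^ 4 ≤ mu r (Dx r x) := Nat.mul_le_mul_right _ (by omega)
    have h2 : bq (r + 1) (mu r (Dx r x)) + 2 ≤ kx r x := Nat.le_self_pow (by omega) _
    have h3 : kx r x + 2 ≤ bs r x := Nat.le_self_pow (by omega) _
    unfold bq at h2
    omega

end Pool.Agent.MP_1a6d78_lc.DS

end MrgPart1

section MrgPart2

/-! PROJECT DS, row PK: the static data of the skeleton are computable. -/

namespace Pool.Agent.MP_1a6d78_lc.DS

open Classical ED PR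

namespace Pk

variable {κ : List Bool → ℕ}

theorem ap {f : List Bool → ℕ → ℕ} (h : F1 κ fun x _ => f x) {a : List Bool → Env → ℕ}
    (ha : Cn κ a) : Cn κ fun x ρ => f x (a x ρ) := K.app h ha

theorem aq {P : List Bool → ℕ → Prop} (h : P1 κ fun x _ => P x) {a : List Bool → Env → ℕ}
    (ha : Cn κ a) : Cp κ fun x ρ => P x (a x ρ) := K.appP h ha

variable {S : List Bool → Sk} (h : SkC κ S)
include h

theorem bel : P2 κ fun x => (S x).bel := fun a b ha hb =>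
  K.and (aq h.X hb) (K.ex (P := fun x ρ t => it (S x).M.n (S x).f.par t (b x ρ) = a x ρ) h.M.1
    (K.eq (K.it (f := fun x _ => (S x).f.par) h.M.1 h.f.1 (K.v 0) (K.w hb)) (K.w ha)))

theorem kk : P1 κ fun x _ => (S x).K :=
  K.ex (P := fun x ρ y => (S x).bel (hd (ρ 0)) y) h.M.1 (bel h _ _ (K.v 1) (K.v 0))

theorem sam : P2 κ fun x => (S x).sam := fun a b ha hb => by
  have p : ∀ c, Cn κ c → P1 κ fun x ρ y => (S x).bel (c x ρ) y := fun c hc =>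
    bel h _ _ (K.w hc) (K.v 0)
  exact K.and (aq (kk h) ha) (K.and (aq (kk h) hb)
    (K.and (K.eq (K.lst h.M.1 (p a ha)) (K.lst h.M.1 (p b hb)))
      (K.and (K.eq (K.cnt h.M.1 (p a ha)) (K.cnt h.M.1 (p b hb)))
        (K.eq (K.div (ap h.f.2.1 ha) h.W) (K.div (ap h.f.2.1 hb) h.W)))))

theorem top : P1 κ fun x _ => (S x).top :=
  K.or (K.eq (ap h.f.1 (K.v 0)) (K.v 0)) (K.not (sam h _ _ (ap h.f.1 (K.v 0)) (K.v 0)))

theorem bot : P1 κ fun x _ => (S x).bot :=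
  K.not (K.ex (P := fun x ρ u => u ≠ hd (ρ 0) ∧ (S x).f.par u = hd (ρ 0) ∧
    (S x).sam u (hd (ρ 0))) h.M.1 (K.and (K.ne (K.v 0) (K.v 1))
      (K.and (K.eq (ap h.f.1 (K.v 0)) (K.v 1)) (sam h _ _ (K.v 0) (K.v 1)))))

theorem sp : P1 κ fun x _ => (S x).sp :=
  K.and (aq (kk h) (K.v 0)) (K.or (aq (top h) (K.v 0)) (aq (bot h) (K.v 0)))

theorem tp : F1 κ fun x _ => (S x).tp :=
  K.lst (P := fun x ρ u => (S x).sam u (hd (ρ 0)) ∧ (S x).top u) h.M.1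
    (K.and (sam h _ _ (K.v 0) (K.v 1)) (aq (top h) (K.v 0)))

theorem bt : F1 κ fun x _ => (S x).bt :=
  K.lst (P := fun x ρ u => (S x).sam u (hd (ρ 0)) ∧ (S x).bot u) h.M.1
    (K.and (sam h _ _ (K.v 0) (K.v 1)) (aq (bot h) (K.v 0)))

theorem len : F1 κ fun x _ => (S x).len :=
  K.sub (K.cnt (P := fun x ρ u => (S x).sam u (hd (ρ 0))) h.M.1 (sam h _ _ (K.v 0) (K.v 1)))
    (K.c 1)

theorem vx : F3 κ fun x => (S x).vx := fun _ _ _ ha hb hc =>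
  K.it (f := fun x _ => (S x).f.par) h.M.1 h.f.1
    (K.ite (K.eq hb (K.c 1)) (K.sub (ap (len h) ha) hc) (K.min hc (ap (len h) ha))) (ap (bt h) ha)

theorem hp : F1 κ fun x _ => (S x).hp := ap h.f.2.1 (ap h.nd (K.v 0))

theorem nn : Cn κ fun x _ => (S x).N := K.add h.M.1 (K.c 1)

theorem w1 : F1 κ fun x _ => (S x).w1 := K.add (K.mul (nn h) (ap h.w (K.v 0))) (K.c 1)

theorem nb {a : List Bool → Env → ℕ} (ha : Cn κ a) :
    Cn κ fun x ρ => (S x).M.nd ((S x).M.β (a x ρ)) := ap h.nd (ap h.M.2.2.1 ha)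

theorem lf : P2 κ fun x => (S x).Lf := fun _ _ ha hb =>
  K.or (K.eq (ap h.M.2.2.1 ha) hb) (K.and (K.not (aq (kk h) (nb h ha)))
    (K.and (K.not (aq (kk h) (nb h hb))) (K.lt (h.o _ _ (nb h ha) (nb h hb)) h.Z)))

theorem lv : F2 κ fun x => (S x).Lv := fun _ _ ha hb =>
  K.ite (K.eq (ap h.M.2.2.1 ha) hb) (ap (w1 h) ha)
    (K.add (K.add (ap (w1 h) ha) (h.o _ _ (nb h ha) (nb h hb))) (ap (w1 h) hb))

variable (ht : F1 κ fun x _ => ((S x).M.F (S x).f).tau)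
include ht

theorem gam : F1 κ fun x _ => (S x).gam :=
  K.ite (K.and (aq (kk h) (ap h.nd (K.v 0))) (aq (kk h) (ap h.nd (ap ht (K.v 0)))))
    (ap ht (K.v 0)) (K.v 0)

theorem pos : F1 κ fun x _ => (S x).pos :=
  (aFm κ).2 (fun x _ => (S x).M.n) (fun x _ => (S x).psi)
    (fun x _ e => ¬(S x).K ((S x).M.nd e) ∨ (S x).f.par ((S x).M.nd e) = (S x).M.nd e) h.M.1
    (ap h.M.2.1 (ap (gam h ht) (K.v 0)))
    (K.or (K.not (aq (kk h) (ap h.nd (K.v 0))))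
      (K.eq (ap h.f.1 (ap h.nd (K.v 0))) (ap h.nd (K.v 0))))

theorem port : P1 κ fun x _ => (S x).port :=
  K.and (K.lt (K.v 0) h.M.1) (K.and (aq (kk h) (ap h.nd (K.v 0)))
    (K.and (K.eq (ap (gam h ht) (K.v 0)) (K.v 0)) (K.ne (ap h.M.2.2.1 (K.v 0)) (K.v 0))))

theorem cut : P1 κ fun x _ => (S x).cut :=
  K.and (K.ne (ap (gam h ht) (K.v 0)) (K.v 0)) (K.or (aq (sp h) (ap h.nd (K.v 0)))
    (aq (sp h) (ap h.nd (ap (gam h ht) (K.v 0)))))

theorem blk : F1 κ fun x _ => (S x).blk :=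
  K.cnt (P := fun x ρ e => (S x).cut e ∧ (S x).pos e < (S x).pos (hd (ρ 0))) h.M.1
    (K.and (aq (cut h ht) (K.v 0)) (K.lt (ap (pos h ht) (K.v 0)) (ap (pos h ht) (K.v 1))))

theorem inc : P1 κ fun x _ => (S x).inc :=
  K.all (P := fun x ρ a => ∀ b < (S x).M.n, (S x).port a → (S x).port b →
      (S x).blk a = hd (ρ 0) → (S x).blk b = hd (ρ 0) → (S x).pos a ≤ (S x).pos b →
        (S x).hp a ≤ (S x).hp b) h.M.1
    (K.all (P := fun x ρ b => (S x).port (hd (ρ 0)) → (S x).port b →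
        (S x).blk (hd (ρ 0)) = hd (ρ 1) → (S x).blk b = hd (ρ 1) →
        (S x).pos (hd (ρ 0)) ≤ (S x).pos b → (S x).hp (hd (ρ 0)) ≤ (S x).hp b) h.M.1
      (K.imp (aq (port h ht) (K.v 1)) (K.imp (aq (port h ht) (K.v 0))
        (K.imp (K.eq (ap (blk h ht) (K.v 1)) (K.v 2)) (K.imp (K.eq (ap (blk h ht) (K.v 0)) (K.v 2))
          (K.imp (K.le (ap (pos h ht) (K.v 1)) (ap (pos h ht) (K.v 0)))
            (K.le (ap (hp h) (K.v 1)) (ap (hp h) (K.v 0)))))))))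

theorem rep : F1 κ fun x _ => (S x).rep :=
  K.lst (P := fun x ρ a => (S x).port a ∧ (S x).blk a = hd (ρ 0)) h.M.1
    (K.and (aq (port h ht) (K.v 0)) (K.eq (ap (blk h ht) (K.v 0)) (K.v 1)))

end Pk

theorem pkS : PkS := fun hF κ S h =>
  have ht : F1 κ fun x _ => ((S x).M.F (S x).f).tau :=
    ((aFm κ).1 _ (hF κ (fun x => (S x).M) (fun x => (S x).f) h.M h.nd h.f).1).1
  ⟨Pk.kk h, Pk.gam h ht, Pk.sam h, Pk.sp h, Pk.tp h, Pk.bt h, Pk.vx h, Pk.port h ht, Pk.blk h ht,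
    Pk.hp h, Pk.inc h ht, Pk.rep h ht, Pk.nn h, Pk.lf h, Pk.lv h⟩

end Pool.Agent.MP_1a6d78_lc.DS

end MrgPart2

section MrgPart3

/-! PROJECT DS, row PC: the itinerary of a vertex is computable. -/

namespace Pool.Agent.MP_1a6d78_lc.DS

open Classical ED PR

namespace Pc

noncomputable section

variable (S : Sk) (e : ℕ → ℕ)

def jj (z d : ℕ) : ℕ :=
  if d ≠ 0 then 0 else if S.sp z then 1 else if S.sl e z then (if S.sp (S.sv e z) then 1 else 0)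
  else 2

def aa (z : ℕ) : ℕ :=
  if S.sp z then 0 else if S.sl e z then (if S.sv e z = S.f.par z then 1 else 2)
  else S.blk (S.la e z)

def cc (z d : ℕ) : ℕ :=
  if d ≠ 0 then z else if S.sp z then z else if S.sl e z then S.sv e z else S.M.nd (S.la e z)

def dd (z d : ℕ) : ℕ := if d ≠ 0 then 1 else if jj S e z d = 1 then 1 else 0

def ab (s : ℕ × ℕ × List ℕ) : ℕ × ℕ × List ℕ :=
  (cc S e s.1 s.2.1, dd S e s.1 s.2.1,
    List.take (jj S e s.1 s.2.1) [aa S e s.1, S.blk (S.lb e s.1)] ++ s.2.2)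

def up (k c d j a b g : ℕ) (T : List ℕ) : List ℕ :=
  tab (k + 3) fun i => if i = 0 then c else if i = 1 then d else if i = 2 then min (gt T 2 + j) g
    else if i < 3 + j then (if i = 3 then a else b) else gt T (i - j)

def rp (k : ℕ) (s : ℕ × ℕ × List ℕ) : List ℕ :=
  tab (k + 3) (gt (s.1 :: s.2.1 :: s.2.2.length :: s.2.2))

def stp (k m : ℕ) (T : List ℕ) : List ℕ :=
  up k (cc S e (gt T 0) (gt T 1)) (dd S e (gt T 0) (gt T 1)) (jj S e (gt T 0) (gt T 1))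
    (aa S e (gt T 0)) (S.blk (S.lb e (gt T 0))) (2 * m + 2) T

end

variable {S : Sk} {e : ℕ → ℕ}

theorem jj_le (z d : ℕ) : jj S e z d ≤ 2 := by unfold jj; split_ifs <;> omega

theorem up_rp (k c d j a b g : ℕ) (s : ℕ × ℕ × List ℕ) (hj : j ≤ 2) (hg : s.2.2.length + j ≤ g) :
    up k c d j a b g (rp k s) = rp k (c, d, List.take j [a, b] ++ s.2.2) := by
  refine tab_cg fun i hi => ?_
  obtain rfl | rfl | rfl | ⟨i, rfl⟩ : i = 0 ∨ i = 1 ∨ i = 2 ∨ ∃ i', i = i' + 3 := by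
    rcases i with _ | _ | _ | i
    exacts [.inl rfl, .inr (.inl rfl), .inr (.inr (.inl rfl)), .inr (.inr (.inr ⟨i, rfl⟩))]
  · rfl
  · rfl
  · rw [if_neg (by omega), if_neg (by omega), if_pos rfl, rp, gt_tb _ (by omega)]
    obtain rfl | rfl | rfl : j = 0 ∨ j = 1 ∨ j = 2 := by omega
    all_goals simp [gt] at hg ⊢; omega
  · rw [if_neg (by omega), if_neg (by omega), if_neg (by omega)]
    obtain rfl | rfl | rfl : j = 0 ∨ j = 1 ∨ j = 2 := by omega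
    · rw [if_neg (by omega), rp, gt_tb _ (by omega)]; rfl
    · rcases i with _ | i
      · rfl
      · rw [if_neg (by omega), rp, gt_tb _ (by omega)]; rfl
    · rcases i with _ | _ | i
      · rfl
      · rfl
      · rw [if_neg (by omega), rp, gt_tb _ (by omega)]; rfl

theorem inv (z m : ℕ) : (itr (fun _ => ab S e) (z, 0, []) m).2.2.length ≤ 2 * m ∧
    ∀ t, S.cls e (t + m) z = if (itr (fun _ => ab S e) (z, 0, []) m).2.1 ≠ 0 then
      (itr (fun _ => ab S e) (z, 0, []) m).2.2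
      else S.cls e t (itr (fun _ => ab S e) (z, 0, []) m).1 ++
        (itr (fun _ => ab S e) (z, 0, []) m).2.2 := by
  induction m with
  | zero => simp [itr]
  | succ m ih =>
    simp only [itr]
    generalize itr (fun _ => ab S e) (z, 0, []) m = s at ih ⊢
    obtain ⟨c, d, L⟩ := s
    refine ⟨?_, fun t => ?_⟩
    · have := jj_le (S := S) (e := e) c d
      have := ih.1
      simp only [ab, List.length_append, List.length_take] at this ⊢
      omega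
    · rw [show t + (m + 1) = t + 1 + m by omega, ih.2]
      simp only [ab, dd, jj, cc, aa, Sk.cls]
      by_cases h1 : d = 0 <;> by_cases h2 : S.sp c <;> by_cases h3 : S.sl e c <;>
        by_cases h4 : S.sp (S.sv e c) <;> simp [h1, h2, h3, h4]

theorem run (k z m : ℕ) : itr (stp S e k) (rp k (z, 0, [])) m =
    rp k (itr (fun _ => ab S e) (z, 0, []) m) := by
  induction m with
  | zero => rfl
  | succ m ih =>
    have l := (inv (S := S) (e := e) z m).1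
    simp only [itr]
    rw [ih]
    generalize itr (fun _ => ab S e) (z, 0, []) m = s at l ⊢
    have a : gt (rp k s) 0 = s.1 := gt_tb _ (by omega)
    have b : gt (rp k s) 1 = s.2.1 := gt_tb _ (by omega)
    rw [stp, a, b, up_rp _ _ _ _ _ _ _ _ (jj_le _ _) (by have := jj_le (S := S) (e := e) s.1 s.2.1; omega)]
    rfl

theorem fin (k z : ℕ) (T : List ℕ) (h : T = itr (stp S e k) (rp k (z, 0, [])) S.Z) :
    S.cz k e z = tab k fun i =>
      gt (up k 0 0 (if gt T 1 ≠ 0 then 0 else 1) 0 0 (2 * S.Z + 2) T) (i + 2) := by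
  obtain ⟨l, q⟩ := inv (S := S) (e := e) z S.Z
  have q := q 0
  rw [h, run]
  generalize itr (fun _ => ab S e) (z, 0, []) S.Z = s at l q ⊢
  have b : gt (rp k s) 1 = s.2.1 := gt_tb _ (by omega)
  rw [b, up_rp _ _ _ _ _ _ _ _ (by split_ifs <;> omega) (by split_ifs <;> omega), Sk.cz,
    ← Nat.zero_add S.Z, q]
  refine tab_cg fun i hi => ?_
  rw [rp, gt_tb _ (by omega)]
  split_ifs <;> rfl

theorem lst_n (n : ℕ) (P : ℕ → Prop) : lst n P ≤ n := by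
  rcases Nat.eq_zero_or_pos n with rfl | h
  · exact (lst_none (by omega)).le
  · exact (lst_lt P h).le

theorem gt_le {T : List ℕ} {b : ℕ} (h : ∀ a ∈ T, a ≤ b) (i : ℕ) : gt T i ≤ b := by
  unfold gt
  rcases lt_or_ge i T.length with k | k
  · rw [List.getD_eq_getElem _ _ k]; exact h _ (List.getElem_mem k)
  · rw [List.getD_eq_default _ _ k]; exact Nat.zero_le _

theorem stp_le (k m : ℕ) (T : List ℕ) (b : ℕ) (h : ∀ a ∈ T, a ≤ b) (hb : 2 * m + S.M.n + 3 ≤ b) :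
    ∀ a ∈ stp S e k m T, a ≤ b := by
  intro a ha
  obtain ⟨i, _, rfl⟩ := List.mem_map.1 ha
  have g := gt_le h
  have n1 : ∀ d, S.M.nd d ≤ b := fun d => (lst_n _ _).trans (by omega)
  have n2 : ∀ d, S.blk d ≤ b := fun d => (cnt_le _ _).trans (by omega)
  split_ifs
  · unfold cc Sk.sv; split_ifs; exacts [g _, g _, n1 _, n1 _]
  · unfold dd; split_ifs <;> omega
  · omega
  · unfold aa; split_ifs; exacts [by omega, by omega, by omega, n2 _]
  · exact n2 _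
  · exact g _

section
variable {κ k : List Bool → ℕ} {S : List Bool → Sk} (h : SkC κ S) (p : PkK κ S)
  {e : List Bool → Env → ℕ → ℕ} {a b z : List Bool → Env → ℕ}
include h p

theorem tgC (he : F1 κ e) (ha : Cn κ a) (hb : Cn κ b) :
    Cp κ fun x ρ => (S x).tg (e x ρ) (a x ρ) (b x ρ) :=
  K.and (K.appP p.port ha) (K.and (K.appP p.port hb) (K.and (p.Lf _ _ ha hb)
    (K.eq (K.add (K.app he (K.app h.nd ha)) (p.Lv _ _ ha hb)) (K.app he (K.app h.nd hb)))))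

theorem tsC (he : F1 κ e) (hz : Cn κ z) (ha : Cn κ a) :
    Cp κ fun x ρ => (S x).ts (e x ρ) (z x ρ) (a x ρ) :=
  K.and (K.eq (K.app h.nd ha) hz) (K.and (K.ne (K.app p.gam ha) ha)
    (K.eq (K.add (K.app he (K.app h.nd (K.app p.gam ha))) (K.mul p.N (K.app h.w ha)))
      (K.app he hz)))

theorem slC (he : F1 κ e) (hz : Cn κ z) : Cp κ fun x ρ => (S x).sl (e x ρ) (z x ρ) :=
  K.ex (P := fun x ρ => (S x).ts (e x ρ) (z x ρ)) h.M.1 (tsC h p (K.wF he) (K.w hz) (K.v 0))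

theorem svC (he : F1 κ e) (hz : Cn κ z) : Cn κ fun x ρ => (S x).sv (e x ρ) (z x ρ) :=
  K.cg (K.app h.nd (K.app p.gam (K.lst (P := fun x ρ => (S x).ts (e x ρ) (z x ρ)) h.M.1
    (tsC h p (K.wF he) (K.w hz) (K.v 0))))) fun _ _ => rfl

theorem laC (he : F1 κ e) (hz : Cn κ z) : Cn κ fun x ρ => (S x).la (e x ρ) (z x ρ) :=
  K.lst (P := fun x ρ a => ∃ b < (S x).M.n, (S x).M.nd b = z x ρ ∧ (S x).tg (e x ρ) a b) h.M.1
    (K.ex (P := fun x ρ b => (S x).M.nd b = z x (tl ρ) ∧ (S x).tg (e x (tl ρ)) (hd (ρ 0)) b) h.M.1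
      (K.and (K.eq (K.app h.nd (K.v 0)) (K.w (K.w hz))) (tgC h p (K.wF (K.wF he)) (K.v 1) (K.v 0))))

theorem lbC (he : F1 κ e) (hz : Cn κ z) : Cn κ fun x ρ => (S x).lb (e x ρ) (z x ρ) :=
  K.lst (P := fun x ρ b => (S x).M.nd b = z x ρ ∧ (S x).tg (e x ρ) ((S x).la (e x ρ) (z x ρ)) b)
    h.M.1 (K.and (K.eq (K.app h.nd (K.v 0)) (K.w hz))
      (tgC h p (K.wF he) (laC h p (K.wF he) (K.w hz)) (K.v 0)))

theorem jjC (he : F1 κ e) (hz : Cn κ z) (ha : Cn κ a) :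
    Cn κ fun x ρ => jj (S x) (e x ρ) (z x ρ) (a x ρ) :=
  K.ite (K.ne ha (K.c 0)) (K.c 0) (K.ite (K.appP p.sp hz) (K.c 1) (K.ite (slC h p he hz)
    (K.ite (K.appP p.sp (svC h p he hz)) (K.c 1) (K.c 0)) (K.c 2)))

theorem hitC (he : F1 κ e) (hz : Cn κ z) (ha : Cn κ a) :
    Cp κ fun x ρ => (S x).hit (e x ρ) (a x ρ) (z x ρ) :=
  K.or (K.and (K.eq hz (K.app h.nd h.M.2.2.2.2.1)) (K.eq ha (K.c 0))) (K.or
    (K.ex (P := fun x ρ d => (S x).M.nd d = z x ρ ∧ (S x).gam d ≠ d ∧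
      e x ρ ((S x).M.nd ((S x).gam d)) + (S x).N * (S x).w d = a x ρ) h.M.1
      (K.and (K.eq (K.app h.nd (K.v 0)) (K.w hz)) (K.and (K.ne (K.app p.gam (K.v 0)) (K.v 0))
        (K.eq (K.add (K.app (K.wF he) (K.app h.nd (K.app p.gam (K.v 0))))
          (K.mul p.N (K.app h.w (K.v 0)))) (K.w ha)))))
    (K.ex (P := fun x ρ c => ∃ b < (S x).M.n, (S x).M.nd b = z x ρ ∧ (S x).port c ∧
      (S x).port b ∧ (S x).Lf c b ∧ e x ρ ((S x).M.nd c) + (S x).Lv c b = a x ρ) h.M.1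
      (K.ex (P := fun x ρ b => (S x).M.nd b = z x (tl ρ) ∧ (S x).port (hd (ρ 0)) ∧
        (S x).port b ∧ (S x).Lf (hd (ρ 0)) b ∧
          e x (tl ρ) ((S x).M.nd (hd (ρ 0))) + (S x).Lv (hd (ρ 0)) b = a x (tl ρ)) h.M.1
        (K.and (K.eq (K.app h.nd (K.v 0)) (K.w (K.w hz))) (K.and (K.appP p.port (K.v 1))
          (K.and (K.appP p.port (K.v 0)) (K.and (p.Lf _ _ (K.v 1) (K.v 0))
            (K.eq (K.add (K.app (K.wF (K.wF he)) (K.app h.nd (K.v 1)))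
              (p.Lv _ _ (K.v 1) (K.v 0))) (K.w (K.w ha))))))))))

omit h p in
theorem upC (hk : Cn κ fun x _ => k x) (hκ : ∀ x, k x + 3 ≤ κ x)
    {c d j g : List Bool → Env → ℕ} {T : List Bool → Env → List ℕ} (hc : Cn κ c) (hd : Cn κ d)
    (hj : Cn κ j) (ha : Cn κ a) (hb : Cn κ b) (hg : Cn κ g) (hT : Cm κ T) :
    Cm κ fun x ρ => up (k x) (c x ρ) (d x ρ) (j x ρ) (a x ρ) (b x ρ) (g x ρ) (T x ρ) :=
  (kitOne κ).tab (n := fun x => k x + 3) (fun x ρ i => if i = 0 then c x ρ else if i = 1 then d x ρ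
    else if i = 2 then min (gt (T x ρ) 2 + j x ρ) (g x ρ) else if i < 3 + j x ρ then
      (if i = 3 then a x ρ else b x ρ) else gt (T x ρ) (i - j x ρ)) hκ (K.add hk (K.c 3))
    (K.ite (K.eq (K.v 0) (K.c 0)) (K.w hc) (K.ite (K.eq (K.v 0) (K.c 1)) (K.w hd)
      (K.ite (K.eq (K.v 0) (K.c 2)) (K.min (K.add (K.gt (K.wL hT) (K.c 2)) (K.w hj)) (K.w hg))
        (K.ite (K.lt (K.v 0) (K.add (K.c 3) (K.w hj)))
          (K.ite (K.eq (K.v 0) (K.c 3)) (K.w ha) (K.w hb))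
          (K.gt (K.wL hT) (K.sub (K.v 0) (K.w hj)))))))

theorem stpC (hk : Cn κ fun x _ => k x) (hκ : ∀ x, k x + 3 ≤ κ x) (he : F1 κ e) (ha : Cn κ a)
    {T : List Bool → Env → List ℕ} (hT : Cm κ T) :
    Cm κ fun x ρ => stp (S x) (e x ρ) (k x) (a x ρ) (T x ρ) :=
  have z := K.gt hT (K.c 0)
  have d := K.gt hT (K.c 1)
  upC hk hκ (K.ite (K.ne d (K.c 0)) z (K.ite (K.appP p.sp z) z (K.ite (slC h p he z)
      (svC h p he z) (K.app h.nd (laC h p he z)))))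
    (K.ite (K.ne d (K.c 0)) (K.c 1) (K.ite (K.eq (jjC h p he z d) (K.c 1)) (K.c 1) (K.c 0)))
    (jjC h p he z d)
    (K.ite (K.appP p.sp z) (K.c 0) (K.ite (slC h p he z)
      (K.ite (K.eq (svC h p he z) (K.app h.f.1 z)) (K.c 1) (K.c 2)) (K.app p.blk (laC h p he z))))
    (K.app p.blk (lbC h p he z)) (K.add (K.mul (K.c 2) ha) (K.c 2)) hT

end

end Pc

open Pc in
theorem pcS : PcS := by
  intro κ k S h p hk hκ e z he hz
  refine ⟨?_, fun a ha => hitC h p he hz ha⟩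
  have k3 : ∀ x, k x + 3 ≤ κ x := fun x => le_trans (by nlinarith [Nat.zero_le (k x ^ 3), Nat.zero_le (k x ^ 2)]) (hκ x)
  have h0 : Cm κ fun x ρ => rp (k x) (z x ρ, 0, []) := by
    have := (kitOne κ).tab (n := fun x => k x + 3) (fun x ρ i => if i = 0 then z x ρ else 0) k3
      (K.add hk (K.c 3)) (K.ite (K.eq (K.v 0) (K.c 0)) (K.w hz) (K.c 0))
    convert this using 3 with x ρ
    refine tab_cg fun i _ => ?_
    rcases i with _ | _ | _ | i <;> simp [gt]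
  have hT : Cm κ fun x ρ => itr (stp (S x) (e x ρ) (k x)) (rp (k x) (z x ρ, 0, [])) (S x).Z :=
    (kitOne κ).foldL (fun x ρ => stp (S x) (e x ρ) (k x)) (fun x _ m => 2 * m + (S x).M.n + 3)
      h.Z h0 (stpC h p hk k3 (K.wF (K.wF he)) (K.v 1) (K.vL 0))
      (K.add (K.add (K.mul (K.c 2) (K.v 0)) h.M.1) (K.c 3))
      fun x ρ m acc b h1 h2 => stp_le _ m acc b h1 h2
  have hU := upC hk k3 (K.c 0) (K.c 0)
    (K.ite (i := fun _ _ => inferInstance) (K.ne (K.gt hT (K.c 1)) (K.c 0)) (K.c 0) (K.c 1))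
    (K.c 0) (K.c 0) (K.add (K.mul (K.c 2) h.Z) (K.c 2)) hT
  have := (kitOne κ).tab (n := k) (fun x ρ i => gt (up (k x) 0 0 (if gt (itr (stp (S x) (e x ρ)
    (k x)) (rp (k x) (z x ρ, 0, [])) (S x).Z) 1 ≠ 0 then 0 else 1) 0 0 (2 * (S x).Z + 2)
      (itr (stp (S x) (e x ρ) (k x)) (rp (k x) (z x ρ, 0, [])) (S x).Z)) (i + 2))
    (fun x => by have := k3 x; omega) hk (K.gt (K.wL hU) (K.add (K.v 0) (K.c 2)))
  convert this using 3 with x ρ
  exact fin _ _ _ rfl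

end Pool.Agent.MP_1a6d78_lc.DS

end MrgPart3

section MrgPart4

/-! PROJECT DS, row AV: the chain of boxes with two list parameters is computable. -/

namespace Pool.Agent.MP_1a6d78_lc.DS

open Classical ED PR

namespace Av

/-- A family of box evaluators that is computable in substitution form. -/
def PF (κ : List Bool → ℕ) (F : List Bool → List ℕ → List ℕ → List ℕ → ℕ → ℕ → ℕ) : Prop :=
  ∀ (P I B : List Bool → Env → List ℕ) (i y : List Bool → Env → ℕ),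
    Cm κ P → Cm κ I → Cm κ B → Cn κ i → Cn κ y →
      Cn κ fun x ρ => F x (P x ρ) (I x ρ) (B x ρ) (i x ρ) (y x ρ)

section
variable {κ k : List Bool → ℕ} {F : List Bool → List ℕ → List ℕ → List ℕ → ℕ → ℕ → ℕ}

theorem bi_c (K1 : Kit1 κ) (K2 : Kit2 κ) (hκ : ∀ x, (k x + 1) ^ 3 ≤ κ x)
    (hk : Cn κ fun x _ => k x) (hF : PF κ F) {P I T : List Bool → Env → List ℕ}
    {j y : List Bool → Env → ℕ} (ho : Cm κ P) (hs : Cm κ I) (hT : Cm κ T) (hj : Cn κ j)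
    (hy : Cn κ y) :
    Cn κ fun x ρ => bi (k x) (F x (P x ρ) (I x ρ)) (T x ρ) (j x ρ) (y x ρ) := by
  refine K1.fold (n := fun x ρ => 1 + j x ρ * (k x - 1)) (z := fun _ _ => 0)
    (fun x ρ a acc => if F x (P x ρ) (I x ρ) (rowOf (k x) (T x ρ) acc) (j x ρ) (y x ρ) ≤
      F x (P x ρ) (I x ρ) (rowOf (k x) (T x ρ) a) (j x ρ) (y x ρ) then acc else a)
    (fun _ _ m => m) (K1.add (K1.const 1) (K2.mul hj (K1.sub hk (K1.const 1)))) (K1.const 0)
    ?_ (K1.hdv 0) ?_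
  · exact K1.ile
      (hF _ _ _ _ _ (K1.tl (K1.tl ho)) (K1.tl (K1.tl hs))
        (AlgV.row_c K1 K2 hκ hk (K1.tl (K1.tl hT)) (K1.hdv 0)) (K1.tlN (K1.tlN hj))
        (K1.tlN (K1.tlN hy)))
      (hF _ _ _ _ _ (K1.tl (K1.tl ho)) (K1.tl (K1.tl hs))
        (AlgV.row_c K1 K2 hκ hk (K1.tl (K1.tl hT)) (K1.hdv 1)) (K1.tlN (K1.tlN hj))
        (K1.tlN (K1.tlN hy)))
      (K1.hdv 0) (K1.hdv 1)
  · intro x ρ m acc b h1 h2
    split_ifs
    · exact h1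
    · exact h2

theorem ts_c (K1 : Kit1 κ) (K2 : Kit2 κ) (hκ : ∀ x, (k x + 1) ^ 3 ≤ κ x)
    (hk : Cn κ fun x _ => k x) (hF : PF κ F) {P I B T : List Bool → Env → List ℕ}
    {w j r : List Bool → Env → ℕ} (hw : Cn κ w) (ho : Cm κ P) (hs : Cm κ I) (hB : Cm κ B)
    (hT : Cm κ T) (hj : Cn κ j) (hr : Cn κ r) :
    Cn κ fun x ρ => ts (k x) (w x ρ) (F x (P x ρ) (I x ρ)) (B x ρ) (T x ρ) (j x ρ) (r x ρ) := by
  refine K1.sum (n := fun x _ => k x - 1)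
    (fun x ρ t => if bi (k x) (F x (P x ρ) (I x ρ)) (T x ρ) (j x ρ)
      (gt (B x ρ) (j x ρ) + (t + 1) * w x ρ) + (t + 1) ≤ r x ρ then 1 else 0)
    (K1.sub hk (K1.const 1)) ?_
  exact K1.ile
    (K1.add (bi_c K1 K2 hκ hk hF (K1.tl ho) (K1.tl hs) (K1.tl hT) (K1.tlN hj)
      (K1.add (K1.gt (K1.tl hB) (K1.tlN hj))
        (K2.mul (K1.add (K1.hdv 0) (K1.const 1)) (K1.tlN hw))))
      (K1.add (K1.hdv 0) (K1.const 1)))
    (K1.tlN hr) (K1.const 1) (K1.const 0)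

theorem stp_c (K1 : Kit1 κ) (K2 : Kit2 κ) (hκ : ∀ x, (k x + 1) ^ 3 ≤ κ x)
    (hk : Cn κ fun x _ => k x) (hF : PF κ F) {P I B T : List Bool → Env → List ℕ}
    {w j e : List Bool → Env → ℕ} (hw : Cn κ w) (ho : Cm κ P) (hs : Cm κ I) (hB : Cm κ B)
    (hT : Cm κ T) (hj : Cn κ j) (he : Cn κ e) :
    Cn κ fun x ρ => stp (k x) (w x ρ) (F x (P x ρ) (I x ρ)) (B x ρ) (T x ρ) (j x ρ) (e x ρ) := by
  have h := ts_c K1 K2 hκ hk hF hw ho hs hB hT hj (K2.div he hk)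
  exact K2.ieq (K2.mod he hk) hj (K1.add (K1.gt hB hj) (K2.mul h hw))
    (K1.gt hT (K1.add (K2.mul (K1.sub (K2.div he hk) h) hk) (K2.mod he hk)))

theorem tbl_c (K1 : Kit1 κ) (K2 : Kit2 κ) (hκ : ∀ x, (k x + 1) ^ 3 ≤ κ x)
    (hk : Cn κ fun x _ => k x) (hF : PF κ F) {P I B : List Bool → Env → List ℕ}
    {w i : List Bool → Env → ℕ} (hw : Cn κ w) (ho : Cm κ P) (hs : Cm κ I) (hB : Cm κ B)
    (hi : Cn κ i) :
    Cm κ fun x ρ => tbl (k x) (w x ρ) (F x (P x ρ) (I x ρ)) (B x ρ) (i x ρ) := by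
  have hq : Cn κ fun x _ => (k x + 1) ^ 3 := K2.pow 3 (K1.add hk (K1.const 1))
  refine K1.foldL (n := i) (z := fun x _ => tab ((k x + 1) ^ 3) fun _ => 0)
    (fun x ρ j T => tab ((k x + 1) ^ 3)
      (stp (k x) (w x ρ) (F x (P x ρ) (I x ρ)) (B x ρ) T j))
    (fun x ρ j => gt (B x ρ) j + k x * w x ρ) hi
    (K1.tab (n := fun x => (k x + 1) ^ 3) (fun _ _ _ => 0) hκ hq (K1.const 0)) ?_ ?_ ?_
  · refine K1.tab (n := fun x => (k x + 1) ^ 3)
      (fun x ρ e => stp (k x) (w x (tl (tl ρ))) (F x (P x (tl (tl ρ))) (I x (tl (tl ρ))))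
        (B x (tl (tl ρ))) (ρ 0) (hd (ρ 1)) e) hκ hq ?_
    exact stp_c K1 K2 hκ hk hF (K1.tlN (K1.tlN (K1.tlN hw))) (K1.tl (K1.tl (K1.tl ho)))
      (K1.tl (K1.tl (K1.tl hs))) (K1.tl (K1.tl (K1.tl hB))) (K1.tl (K1.var 0))
      (K1.tlN (K1.hdv 1)) (K1.hdv 0)
  · exact K1.add (K1.gt (K1.tl hB) (K1.hdv 0)) (K2.mul hk (K1.tlN hw))
  · intro x ρ m acc b h1 h2 a ha
    unfold tab at ha
    obtain ⟨e, -, rfl⟩ := List.mem_map.1 ha
    unfold stp
    split_ifs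
    · exact le_trans (Nat.add_le_add_left
        (Nat.mul_le_mul_right _ (AlgV.ts_le _ _ _ _ _ _ _)) _) h2
    · exact AlgV.gt_le _ _ _ h1

end

end Av

open Av in
theorem avS : AvS := by
  intro κ k d hκ hk hd t
  have K1 := kitOne κ
  have K2 := kitTwo κ
  have key : PF κ fun x P I => Val (k x) 0 (d x P I) t := by
    induction t with
    | zero =>
      intro P I B i y ho hs hB hi hy
      refine K1.sum (n := fun x ρ => i x ρ + 1)
        (fun x ρ j => d x (P x ρ) (I x ρ) j (if j = 0 then 0 else gt (B x ρ) (j - 1))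
          (if j = i x ρ then y x ρ else gt (B x ρ) j)) (K1.add hi (K1.const 1)) ?_
      exact hd _ _ _ _ _ (K1.tl ho) (K1.tl hs) (K1.hdv 0)
        (K2.ieq (K1.hdv 0) (K1.const 0) (K1.const 0)
          (K1.gt (K1.tl hB) (K1.sub (K1.hdv 0) (K1.const 1))))
        (K2.ieq (K1.hdv 0) (K1.tlN hi) (K1.tlN hy) (K1.gt (K1.tl hB) (K1.hdv 0)))
    | succ t ih =>
      intro P I B i y ho hs hB hi hy
      have hT := tbl_c K1 K2 hκ hk ih (K2.pow t hk) ho hs hB hi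
      exact ih _ _ _ _ _ ho hs
        (AlgV.row_c K1 K2 hκ hk hT (bi_c K1 K2 hκ hk ih ho hs hT hi hy)) hi hy
  intro P I B i y ho hs hB hi hy
  exact key P I B i y ho hs hB hi hy

end Pool.Agent.MP_1a6d78_lc.DS

end MrgPart4

section MrgPart5

/-! PROJECT DS: the values of an itinerary are computable. -/

namespace Pool.Agent.MP_1a6d78_lc.DS

open Classical ED PR

namespace Ps

variable {κ : List Bool → ℕ} {a b z j A B q : List Bool → Env → ℕ}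
  {T I : List Bool → Env → List ℕ}

theorem ap {f : List Bool → ℕ → ℕ} (hf : F1 κ fun x _ => f x) (ha : Cn κ a) :
    Cn κ fun x ρ => f x (a x ρ) := K.app (f := fun x _ => f x) hf ha

theorem apP {P : List Bool → ℕ → Prop} (hP : P1 κ fun x _ => P x) (ha : Cn κ a) :
    Cp κ fun x ρ => P x (a x ρ) := K.appP (P := fun x _ => P x) hP ha

theorem iff {P Q : List Bool → Env → Prop} (hP : Cp κ P) (hQ : Cp κ Q) :
    Cp κ fun x ρ => P x ρ ↔ Q x ρ :=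
  K.cgP (K.and (K.imp hP hQ) (K.imp hQ hP)) fun _ _ => iff_iff_implies_and_implies.symm

theorem dfC (ha : Cn κ a) (hb : Cn κ b) : Cn κ fun x ρ => df (a x ρ) (b x ρ) :=
  K.add (K.sub ha hb) (K.sub hb ha)

theorem nlC (hI : Cm κ I) : Cn κ fun x ρ => nl (I x ρ) := K.div (K.gt hI (K.c 0)) (K.c 2)

theorem odd (hI : Cm κ I) (hj : Cn κ j) (n : ℕ) : Cn κ fun x ρ => gt (I x ρ) (2 * j x ρ + n) :=
  K.gt hI (K.add (K.mul (K.c 2) hj) (K.c n))

variable {S : List Bool → Sk} (h : SkC κ S) (p : PkK κ S)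

include p

theorem g (hT : Cm κ T) (hz : Cn κ z) : Cn κ fun x ρ => (S x).g (T x ρ) (z x ρ) :=
  K.gt hT (K.cnt (P := fun x _ => (S x).sp) hz p.sp)

theorem ori (hI : Cm κ I) (hj : Cn κ j) : Cn κ fun x ρ => (S x).ori (I x ρ) (j x ρ) :=
  (kitOne κ).fold (fun x ρ m o => if ((o = 1 ↔ (S x).inc (gt (I x ρ) (2 * m + 2))) ↔
      (S x).inc (gt (I x ρ) (2 * m + 3))) then 0 else 1) (fun _ _ _ => 1) hj (K.c 1)
    (K.ite (iff (iff (K.eq (K.v 0) (K.c 1)) (apP p.inc (odd (K.wL (K.wL hI)) (K.v 1) 2)))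
      (apP p.inc (odd (K.wL (K.wL hI)) (K.v 1) 3))) (K.c 0) (K.c 1))
    (K.c 1) fun _ _ _ _ _ _ e => by split_ifs <;> omega

include h

theorem lz (hI : Cm κ I) (hj : Cn κ j) : Cn κ fun x ρ => (S x).lz (I x ρ) (j x ρ) :=
  ap h.nd (ap p.rep (K.ite (K.eq hj (K.c 0)) (K.gt hI (K.c 2)) (odd hI hj 1)))

theorem pv (hI : Cm κ I) (hj : Cn κ j) (ha : Cn κ a) :
    Cn κ fun x ρ => (S x).pv (I x ρ) (j x ρ) (a x ρ) := p.vx _ _ _ (lz h p hI hj) (ori p hI hj) ha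

theorem d0 (hT : Cm κ T) (hz : Cn κ z) (ha : Cn κ a) :
    Cn κ fun x ρ => (S x).d0 (T x ρ) (z x ρ) (a x ρ) :=
  K.min (K.add (g p hT (ap p.tp hz)) (K.mul p.N (K.sub ha (ap h.f.2.1 (ap p.tp hz)))))
    (K.add (g p hT (ap p.bt hz)) (K.mul p.N (K.sub (ap h.f.2.1 (ap p.bt hz)) ha)))

theorem vq (hA : Cn κ A) (hB : Cn κ B) (hq : Cn κ q) :
    Cp κ fun x ρ => (S x).vq (A x ρ) (B x ρ) (q x ρ) :=
  K.and (apP p.port (K.div hq h.M.1)) (K.and (apP p.port (K.mod hq h.M.1))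
    (K.and (K.eq (ap p.blk (K.div hq h.M.1)) hA) (K.and (K.eq (ap p.blk (K.mod hq h.M.1)) hB)
      (p.Lf _ _ (K.div hq h.M.1) (K.mod hq h.M.1)))))

theorem cq (ha : Cn κ a) (hb : Cn κ b) (hq : Cn κ q) :
    Cn κ fun x ρ => (S x).cq (a x ρ) (b x ρ) (q x ρ) :=
  K.add (K.add (K.mul p.N (dfC ha (ap p.hp (K.div hq h.M.1))))
    (p.Lv _ _ (K.div hq h.M.1) (K.mod hq h.M.1))) (K.mul p.N (dfC (ap p.hp (K.mod hq h.M.1)) hb))

theorem sq (fm : FmC) (hA : Cn κ A) (hB : Cn κ B) (ha : Cn κ a) (hb : Cn κ b) :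
    Cn κ fun x ρ => (S x).sq (A x ρ) (B x ρ) (a x ρ) (b x ρ) :=
  have v : P1 κ fun x ρ => (S x).vq (A x ρ) (B x ρ) := vq h p (K.w hA) (K.w hB) (K.v 0)
  have c : F1 κ fun x ρ => (S x).cq (a x ρ) (b x ρ) := cq h p (K.w ha) (K.w hb) (K.v 0)
  K.ite (K.ex (K.mul h.M.1 h.M.1) v)
    ((fm κ _ _ h.M h.nd h.f).2.2 _ _ _ (K.mul h.M.1 h.M.1) v c) (K.c 0)

theorem sd (fm : FmC) (hT : Cm κ T) (hI : Cm κ I) (hj : Cn κ j) (ha : Cn κ a) (hb : Cn κ b) :
    Cn κ fun x ρ => (S x).sd (T x ρ) (I x ρ) (j x ρ) (a x ρ) (b x ρ) :=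
  have e : Cn κ fun x ρ => gt (I x ρ) (2 * j x ρ) := K.gt hI (K.mul (K.c 2) hj)
  K.ite (K.eq hj (K.c 0)) (d0 h p hT (lz h p hI (K.c 0)) (ap h.f.2.1 (pv h p hI (K.c 0) hb)))
    (K.ite (K.and (K.ne e (odd hI hj 1))
        (K.and (apP p.K (lz h p hI (K.sub hj (K.c 1)))) (apP p.K (lz h p hI hj))))
      (sq h p fm e (odd hI hj 1) (ap h.f.2.1 (pv h p hI (K.sub hj (K.c 1)) ha))
        (ap h.f.2.1 (pv h p hI hj hb))) (K.c 0))

theorem ix (hI : Cm κ I) (hz : Cn κ z) : Cn κ fun x ρ => (S x).ix (I x ρ) (z x ρ) :=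
  K.lst (P := fun x ρ y => (S x).pv (I x ρ) (nl (I x ρ)) y = z x ρ) h.M.1
    (K.eq (pv h p (K.wL hI) (nlC (K.wL hI)) (K.v 0)) (K.w hz))

theorem use (hI : Cm κ I) (hz : Cn κ z) : Cp κ fun x ρ => (S x).use (I x ρ) (z x ρ) :=
  K.and (K.le (K.c 1) (nlC hI)) (p.sam _ _ (lz h p hI (nlC hI)) hz)

end Ps

theorem psS : PsS := fun fm _ _ h p =>
  ⟨fun _ _ => Ps.g p, fun _ _ _ => Ps.d0 h p, fun _ _ _ _ _ => Ps.sd h p fm, fun _ _ => Ps.ix h p,
    fun _ _ => Ps.use h p⟩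

end Pool.Agent.MP_1a6d78_lc.DS

end MrgPart5

section MrgPart6

/-! PROJECT DS, row PE: the values of one round are computable. -/

namespace Pool.Agent.MP_1a6d78_lc.DS

open Classical ED PR

namespace PeL

variable {κ k : List Bool → ℕ} {S : List Bool → Sk} {t : ℕ}

theorem rowC (hk : Cn κ fun x _ => k x) (hb : ∀ x, k x ≤ κ x) {T : List Bool → Env → List ℕ}
    {r : List Bool → Env → ℕ} (hT : Cm κ T) (hr : Cn κ r) :
    Cm κ fun x ρ => row (k x) (T x ρ) (r x ρ) :=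
  (kitOne κ).tab (fun x ρ j => gt (T x ρ) (k x + r x ρ * k x + j)) hb hk
    (K.gt (K.wL hT) (K.add (K.add hk (K.mul (K.w hr) hk)) (K.v 0)))

theorem vlC (hA : AvS) (hS : SkC κ S) (hP : PkK κ S) (hQ : PsK κ S) (hk : Cn κ fun x _ => k x)
    (hb : ∀ x, (k x + 2) ^ 3 ≤ κ x) {T : List Bool → Env → List ℕ} {z : List Bool → Env → ℕ}
    (hT : Cm κ T) (hz : Cn κ z) : Cn κ fun x ρ => (S x).vl (k x) t (T x ρ) (z x ρ) := by
  have b1 : ∀ x, (k x + 1) ^ 3 ≤ κ x := fun x =>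
    (Nat.pow_le_pow_left (Nat.le_succ _) 3).trans (hb x)
  have b0 : ∀ x, k x ≤ κ x := fun x =>
    ((Nat.le_succ _).trans (Nat.le_self_pow (by omega) _)).trans (b1 x)
  have nil : Cm κ fun _ _ => [] :=
    (kitOne κ).tab (n := fun _ => 0) (fun _ _ _ => 0) (fun _ => Nat.zero_le _) (K.c 0) (K.c 0)
  have hT2 := K.wL (K.wL hT)
  have hz2 := K.w (K.w hz)
  have hR := rowC hk b0 hT2 (K.v 1)
  have hO := hA κ k (fun x => (S x).sd) b1 hk hQ.sd t _ _ _ _ _ hT2 hR nil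
    (K.div (K.gt hR (K.c 0)) (K.c 2)) (hQ.ix _ _ hR hz2)
  refine K.ite (K.appP hP.sp hz) (hQ.g _ _ hT hz) ((kitOne κ).fold
    (fun x ρ r acc => if (S x).use (row (k x) (T x ρ) r) (z x ρ) then
      min acc ((S x).ov (k x) t (T x ρ) (row (k x) (T x ρ) r) (z x ρ)) else acc)
    (fun _ _ _ => 0) hk (hQ.d0 _ _ _ hT hz (K.app hS.f.2.1 hz))
    (K.ite (hQ.use _ _ hR hz2) (K.min (K.v 0) hO) (K.v 0)) (K.c 0) fun x ρ m acc b h _ => ?_)
  split_ifs
  · exact (min_le_left _ _).trans h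
  · exact h

end PeL

theorem peS : PeS := by
  intro hA κ k S t hS hP hC hQ hk hb T p hT hp
  have h0 : F1 κ fun x ρ => (S x).e0 (k x) t (T x ρ) (p x ρ) := by
    have h := PeL.vlC (t := t) hA hS hP hQ hk hb (K.wL hT) (K.v 0)
    exact K.ite (K.lt h (K.w hp)) h hS.Z
  have h := PeL.vlC (t := t) hA hS hP hQ hk hb (K.wL hT) (K.v 0)
  exact K.ite (K.lt h (K.w hp)) h
    (K.ite ((hC _ _ (K.wF h0) (K.v 0)).2 _ (K.w hp)) (K.w hp) hS.Z)

end Pool.Agent.MP_1a6d78_lc.DS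

end MrgPart6

section MrgPart7

/-! PROJECT DS, row PD: the states and the result are computable. -/

namespace Pool.Agent.MP_1a6d78_lc.DS

open Classical ED PR

namespace PdL

theorem gt_le {l : List ℕ} {b : ℕ} (h : ∀ a ∈ l, a ≤ b) (j : ℕ) : gt l j ≤ b := by
  rw [gt, List.getD_eq_getElem?_getD]
  cases e : l[j]? with
  | none => exact Nat.zero_le _
  | some a => exact h a (List.mem_of_getElem? e)

theorem tab_le {n b : ℕ} {f : ℕ → ℕ} (h : ∀ i, f i ≤ b) : ∀ a ∈ tab n f, a ≤ b := fun a ha => by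
  obtain ⟨i, -, rfl⟩ := List.mem_map.1 ha
  exact h i

theorem cls_bd (S : Sk) (e : ℕ → ℕ) (t z : ℕ) :
    (S.cls e t z).length ≤ 2 * t + 1 ∧ ∀ a ∈ S.cls e t z, a ≤ S.M.n + 2 := by
  induction t generalizing z with
  | zero => simp [Sk.cls]
  | succ t ih =>
    simp only [Sk.cls]
    split_ifs
    · simp
    · simp
    · simp
    · exact ⟨(ih _).1.trans (by omega), (ih _).2⟩
    · refine ⟨?_, fun a ha => ?_⟩
      · have := (ih (S.M.nd (S.la e z))).1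
        simp only [List.length_append, List.length_cons, List.length_nil]
        omega
      · simp only [List.mem_append, List.mem_cons, List.not_mem_nil, or_false] at ha
        rcases ha with ha | rfl | rfl
        · exact (ih _).2 a ha
        · exact (cnt_le _ _).trans (by omega)
        · exact (cnt_le _ _).trans (by omega)

theorem mkT_le (S : Sk) (k t m : ℕ) (T : List ℕ) :
    ∀ a ∈ S.mkT k (S.e1 k t T m) m, a ≤ m + 2 * S.Z + S.M.n + 3 := by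
  refine tab_le fun i => ?_
  split_ifs
  · unfold Sk.e1
    split_ifs <;> omega
  · refine gt_le (tab_le fun j => gt_le (fun a ha => ?_) j) _
    rcases List.mem_cons.1 ha with rfl | ha
    · exact (cls_bd S _ _ _).1.trans (by omega)
    · exact ((cls_bd S _ _ _).2 a ha).trans (by omega)
  · omega

variable {κ k : List Bool → ℕ} {S : List Bool → Sk} {e : List Bool → Env → ℕ → ℕ}
  {p : List Bool → Env → ℕ}

theorem act (hP : PkK κ S) (he : F1 κ e) (hp : Cn κ p) :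
    P1 κ fun x ρ => (S x).act (e x ρ) (p x ρ) :=
  K.and (K.appP hP.K (K.v 0)) (K.and (K.not (K.appP hP.sp (K.v 0))) (K.le he (K.w hp)))

theorem fst (hP : PkK κ S) (hc : PcK κ k S) (hk : Cn κ fun x _ => k x) (he : F1 κ e)
    (hp : Cn κ p) : P1 κ fun x ρ => (S x).fst (k x) (e x ρ) (p x ρ) :=
  K.and (act hP he hp) (K.all (P := fun x ρ z' => (S x).act (e x (tl ρ)) (p x (tl ρ)) z' →
      ∃ j < k x, gt ((S x).cz (k x) (e x (tl ρ)) z') j ≠
        gt ((S x).cz (k x) (e x (tl ρ)) (hd (ρ 0))) j) (K.v 0)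
    (K.imp (K.wP1 (act hP he hp)) (K.ex (P := fun x ρ j =>
        gt ((S x).cz (k x) (e x (tl (tl ρ))) (hd (ρ 0))) j ≠
          gt ((S x).cz (k x) (e x (tl (tl ρ))) (hd (ρ 1))) j) hk
      (K.ne (K.gt (K.wL (hc _ _ (K.wF (K.wF he)) (K.v 0)).1) (K.v 0))
        (K.gt (K.wL (hc _ _ (K.wF (K.wF he)) (K.v 1)).1) (K.v 0))))))

theorem mkT (hn : Cn κ fun x _ => (S x).M.n) (hP : PkK κ S) (hc : PcK κ k S)
    (hk : Cn κ fun x _ => k x) (hκ : ∀ x, k x + k x * k x ≤ κ x) (he : F1 κ e) (hp : Cn κ p) :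
    Cm κ fun x ρ => (S x).mkT (k x) (e x ρ) (p x ρ) := by
  have hq := K.app (K.wF (K.sel hn (fst hP hc hk he hp))) (K.div (K.sub (K.v 0) hk) hk)
  exact (kitOne κ).tab (fun x ρ i => if i < k x then e x ρ (sel (S x).M.n (S x).sp i)
      else if sel (S x).M.n ((S x).fst (k x) (e x ρ) (p x ρ)) ((i - k x) / k x) < (S x).M.n then
        gt ((S x).cz (k x) (e x ρ)
          (sel (S x).M.n ((S x).fst (k x) (e x ρ) (p x ρ)) ((i - k x) / k x))) ((i - k x) % k x)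
      else 0) hκ (K.add hk (K.mul hk hk))
    (K.ite (K.lt (K.v 0) hk) (K.app (K.wF he) (K.app (K.sel hn hP.sp) (K.v 0)))
      (K.ite (K.lt hq hn) (K.gt (hc _ _ (K.wF he) hq).1 (K.mod (K.sub (K.v 0) hk) hk)) (K.c 0)))

end PdL

theorem pdS : PdS := by
  intro κ k S t hS hP hc hs hE hk h3
  have hκ : ∀ x, k x + k x * k x ≤ κ x := fun x => le_trans (by nlinarith [Nat.zero_le (k x ^ 3)])
    (h3 x)
  have hn := hS.M.1
  have hT : Cm κ fun x _ => (S x).stt (k x) t (S x).Z :=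
    (kitOne κ).foldL (fun x _ m T => (S x).mkT (k x) ((S x).e1 (k x) t T m) m)
      (fun x _ m => m + 2 * (S x).Z + (S x).M.n + 3) hS.Z
      ((kitOne κ).tab (fun x _ i => if i < k x then (S x).Z else 0) hκ (K.add hk (K.mul hk hk))
        (K.ite (K.lt (K.v 0) hk) hS.Z (K.c 0)))
      (PdL.mkT hn hP hc hk hκ (hE _ _ (K.vL 0) (K.v 1)) (K.v 1))
      (K.add (K.add (K.add (K.v 0) (K.mul (K.c 2) hS.Z)) hn) (K.c 3))
      fun x _ m T _ _ h a ha => (PdL.mkT_le _ _ _ _ T a ha).trans h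
  exact K.div (hs.g _ _ hT (K.app hS.nd hS.M.2.2.2.2.2)) hP.N

end Pool.Agent.MP_1a6d78_lc.DS

end MrgPart7

section MrgPart8

/-! PROJECT DS, row PO: a call on a virtual instance is computable. -/

namespace Pool.Agent.MP_1a6d78_lc.DS

open Classical ED PR

namespace Po

def ps (e : ℕ → ℕ) (i : ℕ) : ℕ := ∑ j ∈ Finset.range i, (e j + 1)

theorem un_succ (e : ℕ → ℕ) (M : ℕ) :
    unary (tab (M + 1) e) = unary (tab M e) ++ (List.replicate (e M) true ++ [false]) := by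
  simp [unary, tab, List.range_succ]

theorem un_len (e : ℕ → ℕ) : ∀ M, (unary (tab M e)).length = ps e M
  | 0 => rfl
  | M + 1 => by
    rw [un_succ, List.length_append, un_len e M, ps, ps, Finset.sum_range_succ]
    simp

theorem ps_mono (e : ℕ → ℕ) {i j : ℕ} (h : i ≤ j) : ps e i ≤ ps e j :=
  Finset.sum_le_sum_of_subset (Finset.range_mono h)

theorem un_bit (e : ℕ → ℕ) (p : ℕ) : ∀ M, bit (unary (tab M e)) p =
    if p < ps e M ∧ ∀ i < M, p + 1 ≠ ps e (i + 1) then 1 else 0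
  | 0 => by simp [bit, unary, tab, ps]
  | M + 1 => by
    have a : ps e (M + 1) = ps e M + (e M + 1) := Finset.sum_range_succ _ _
    have ih := un_bit e p M
    rw [bit] at ih ⊢
    rw [un_succ]
    rcases lt_or_ge p (ps e M) with h | h
    · rw [List.getElem?_append_left (by rwa [un_len]), ih]
      refine if_congr ⟨fun k => ⟨by omega, fun i hi => ?_⟩, fun k => ⟨h, fun i hi => k.2 i (by omega)⟩⟩
        rfl rfl
      rcases Nat.lt_succ_iff_lt_or_eq.1 hi with hi | rfl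
      · exact k.2 i hi
      · omega
    · rw [List.getElem?_append_right (by rwa [un_len]), un_len]
      refine if_congr ⟨fun k => ?_, fun k => ?_⟩ rfl rfl
      · have : p - ps e M < e M := by
          by_contra c
          rw [List.getElem?_append_right (by simpa using c)] at k
          rcases Nat.eq_zero_or_pos (p - ps e M - (List.replicate (e M) true).length) with z | z
          · rw [z] at k; simp at k
          · rw [List.getElem?_eq_none (by simp at z ⊢; omega)] at k; simp at k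
        refine ⟨by omega, fun i hi => ?_⟩
        rcases Nat.lt_succ_iff_lt_or_eq.1 hi with hi | rfl
        · have := ps_mono e (show i + 1 ≤ M from hi); omega
        · omega
      · have := k.2 M M.lt_succ_self
        have := k.1
        rw [List.getElem?_append_left (by simp; omega), List.getElem?_replicate, if_pos (by omega)]

theorem ps_le {e : ℕ → ℕ} {N : ℕ} (h : ∀ i, e i ≤ N) (M : ℕ) : ps e M ≤ M * (N + 1) := by
  refine (Finset.sum_le_card_nsmul _ _ (N + 1) fun i _ => Nat.succ_le_succ (h i)).trans ?_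
  simp

theorem pg {κ f : List Bool → ℕ} (h : Cn κ fun x _ => f x) : GM.Pg κ f := by
  obtain ⟨c, -, h⟩ := h
  obtain ⟨p, hp⟩ := h (fun _ => 0) 1 fun _ => Nat.one_pos
  exact ⟨p, 1, c, fun x B h1 h2 h3 => ⟨_, hp x (fun _ => []) B ⟨h1, h2, h3, by simp⟩
    (fun _ => Nat.zero_le _) fun _ _ => rfl, by simp [hd]⟩⟩

theorem nle (x : List Bool) (i : ℕ) : num x i ≤ x.length :=
  (Finset.sum_le_card_nsmul _ _ 1 fun p _ => by unfold bit; split_ifs <;> omega).trans (by simp)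

theorem pw_le (x : List Bool) {a b : ℕ} (h : a ≤ b) : (x.length + 2) ^ a ≤ (x.length + 2) ^ b :=
  Nat.pow_le_pow_right (by omega) h

theorem lt_pw (x : List Bool) (a : ℕ) : a < (x.length + 2) ^ a := Nat.lt_pow_self (by omega)

variable (x : List Bool) (β w : ℕ → ℕ) (u v θ : ℕ)

theorem bs_vy (r : ℕ) : bs r (vy x β w u v θ) = bs r x := by
  have h : num (vy x β w u v θ) 0 = num x 0 := by
    have := nle x 0
    have := pw_le x (show 1 ≤ 4 by omega)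
    refine (ED.Code.num_unary _ _).trans ((gt_tb _ (by omega)).trans ?_)
    rw [pow_one] at this
    rw [ent, if_pos rfl, Zx]
    omega
  simp only [bs, kx, Dx, h]

theorem len_vy : (vy x β w u v θ).length ≤ (x.length + 2) ^ 8 := by
  refine ((un_len _ _).trans_le (ps_le (N := Zx x) (fun i => min_le_left _ _) _)).trans ?_
  have := nle x 0
  have h : 1 ≤ Zx x := Nat.one_le_pow _ _ (by omega)
  calc _ ≤ (x.length + 2) ^ 4 * Zx x := by
        refine (Nat.mul_le_mul (show _ ≤ 4 * (x.length + 2) by omega)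
          (show _ ≤ 2 * Zx x by omega)).trans ?_
        have : 2 ^ 3 ≤ (x.length + 2) ^ 3 := Nat.pow_le_pow_left (by omega) 3
        rw [pow_succ _ 3]
        nlinarith [Nat.mul_le_mul_right ((x.length + 2) * Zx x) this]
    _ = _ := by rw [Zx, ← pow_add]

theorem vy_min {q : ℕ} (h : Zx x ≤ q) :
    vy x β w (min q u) (min q v) (min q θ) = vy x β w u v θ := by
  unfold vy
  refine congrArg unary (tab_cg fun i _ => ?_)
  unfold ent
  split_ifs <;> omega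

end Po

open Po

theorem poS : PoS := by
  rintro r b φ hi hb ⟨A1, h1⟩ hφ β w ⟨A2, h2⟩
  obtain ⟨e, he⟩ := hb.pol
  have b8 : ∀ x, 8 ≤ bs r x := fun x => Nat.pow_le_pow_left (Nat.le_add_left 2 _) 3
  have b9 : ∀ x, 8 ≤ b x := fun x => (b8 x).trans (hb.le x)
  obtain ⟨κ0, k0⟩ : ∃ κ0 : List Bool → ℕ, κ0 = fun x => (A1 + 1 + A2) * b x := ⟨_, rfl⟩
  obtain ⟨q, eq⟩ : ∃ q : List Bool → ℕ, q = fun x => (x.length + 2) ^ (A1 + 1 + e + 8) := ⟨_, rfl⟩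
  have q8 : ∀ x, (x.length + 2) ^ 8 ≤ q x := fun x => eq ▸ pw_le x (by omega)
  have k8 : ∀ x, 8 ≤ κ0 x := fun x => k0 ▸ (b9 x).trans (Nat.le_mul_of_pos_left _ (by omega))
  obtain ⟨cβ, cw⟩ := h2 κ0 fun x => k0 ▸ Nat.mul_le_mul_right _ (by omega)
  have cn : Cn κ0 fun x _ => num x 0 := K.app (hi.num κ0) (K.c 0)
  have cM : Cn κ0 fun x _ => 4 + num x 0 + num x 0 + num x 0 :=
    K.add (K.add (K.add (K.c 4) cn) cn) cn
  have ce : F1 κ0 fun x ρ => ent x (β x) (w x) (gt (ρ 0) 0) (gt (ρ 0) 1) (gt (ρ 0) 2) :=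
    K.min (hi.Z κ0) (K.ite (K.eq (K.v 0) (K.c 0)) cn
      (K.ite (K.eq (K.v 0) (K.c 1)) (K.gt (K.vL 1) (K.c 0))
      (K.ite (K.eq (K.v 0) (K.c 2)) (K.gt (K.vL 1) (K.c 1))
      (K.ite (K.eq (K.v 0) (K.c 3)) (K.gt (K.vL 1) (K.c 2))
      (K.ite (K.lt (K.v 0) (K.add (K.c 4) cn)) (hi.num κ0)
      (K.ite (K.lt (K.v 0) (K.add (K.add (K.c 4) cn) cn))
        (K.app cβ (K.sub (K.v 0) (K.add (K.c 4) cn)))
        (K.app cw (K.sub (K.v 0) (K.add (K.add (K.c 4) cn) cn)))))))))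
  have cp : F1 κ0 fun x ρ => ps (ent x (β x) (w x) (gt (ρ 0) 0) (gt (ρ 0) 1) (gt (ρ 0) 2)) :=
    (kitOne κ0).sum (fun x ρ j => ent x (β x) (w x) (gt (ρ 1) 0) (gt (ρ 1) 1) (gt (ρ 1) 2) j + 1)
      (K.v 0) (K.add (K.wF ce) (K.c 1))
  have cF : SC.Nq κ0 q q fun x _ ρ =>
      φ (vy x (β x) (w x) (gt (ρ 0) 0) (gt (ρ 0) 1) (gt (ρ 0) 2)) := by
    refine GM.vin (fun y => (A1 + 1) * bs r y) φ
      (pg (h1 _ fun y => Nat.mul_le_mul_right _ (by omega)))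
      (fun y => Nat.mul_pos (by omega) (by have := b8 y; omega)) hφ κ0 q q
      (fun x _ ρ => vy x (β x) (w x) (gt (ρ 0) 0) (gt (ρ 0) 1) (gt (ρ 0) 2)) (fun x _ ρ => ?_)
      (SC.Q.lift (K.cg (K.app cp cM) fun x ρ => (un_len _ _).symm))
      (SC.Q.lift (K.cg (K.ite (i := fun _ _ => instDecidableAnd)
        (K.and (K.lt (K.v 0) (K.w (K.app cp cM)))
          (K.all (P := fun x ρ i => hd (ρ 0) + 1 ≠
            ps (ent x (β x) (w x) (gt (ρ 1) 0) (gt (ρ 1) 1) (gt (ρ 1) 2)) (i + 1)) cM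
            (K.ne (K.add (K.v 1) (K.c 1)) (K.cg (K.app (K.wF (K.wF cp)) (K.add (K.v 0) (K.c 1)))
              fun _ _ => rfl)))) (K.c 1) (K.c 0)) fun x ρ => (un_bit _ _ _).symm))
    refine ⟨(len_vy ..).trans (q8 x), ?_, ?_⟩ <;> simp only [bs_vy]
    · exact k0 ▸ Nat.mul_le_mul (by omega) (hb.le x)
    · refine eq ▸ (Nat.mul_le_mul (lt_pw x _).le ((hb.le x).trans (he x))).trans ?_
      rw [← pow_add]
      exact pw_le x (by omega)
  obtain ⟨E, hE⟩ := GM.recC κ0 q q (fun _ => 1)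
    (fun x _ l => φ (vy x (β x) (w x) (gt l 0) (gt l 1) (gt l 2))) (A1 + 1 + e + 8 + 1) cF
    (fun x _ _ => (hφ _).trans ((Nat.one_le_pow _ _ (by omega)).trans (q8 x)))
    (fun x => by have := k8 x; omega) fun x => by
      have := (lt_pw x 8).le.trans (q8 x)
      have e' : (x.length + 2) ^ (A1 + 1 + e + 8 + 1) = q x * (x.length + 2) := by rw [eq, pow_succ]
      rw [e', pow_one]
      refine ⟨?_, ?_, ?_⟩ <;> nlinarith
  refine ⟨E * (A1 + 1 + A2 + 1) * 2 + 1, fun κ hκ a1 a2 a3 c1 c2 c3 => ?_⟩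
  have k3 : ∀ x, 3 ≤ κ x := fun x => by
    have := hκ x
    have := b9 x
    rw [Nat.add_mul] at *
    omega
  have cR := hE κ (fun x => le_trans (by
      have := b9 x
      rw [k0]
      nlinarith [Nat.mul_le_mul_left E (show 1 ≤ b x by omega)]) (hκ x)) (K.c 1)
    (k0 ▸ K.mul (K.c _) (hb.c κ)) (eq ▸ K.pow _ (K.add (kitOne κ).len (K.c 2)))
  refine K.cg ((kitA κ).bind _ _ ((kitOne κ).tab (n := fun _ => 3)
    (fun x ρ i => if i = 0 then a1 x ρ else if i = 1 then a2 x ρ else a3 x ρ) k3 (K.c 3)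
    (K.ite (K.eq (K.v 0) (K.c 0)) (K.w c1) (K.ite (K.eq (K.v 0) (K.c 1)) (K.w c2) (K.w c3)))) cR)
    fun x ρ => ?_
  have := k8 x
  refine Eq.trans ?_ (congrArg φ (vy_min x _ _ _ _ _ ((pw_le x (by omega)).trans (q8 x))))
  simp only [rc, GM.clip]
  rw [gt_tb _ (by omega), gt_tb _ (by omega), gt_tb _ (by omega)]
  rfl

end Pool.Agent.MP_1a6d78_lc.DS

end MrgPart8

section MrgPart9

/-! PROJECT DS, row PN: one level is computable. -/

namespace Pool.Agent.MP_1a6d78_lc.DS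

open Classical ED PR

namespace Pn

variable {r : ℕ} {φ : List Bool → ℕ} {κ : List Bool → ℕ} {f : List Bool → Fo}

theorem orcC (hP : PoS) (pi : PiK r) (hφ : Ev (bs r) fun κ => Cn κ fun x _ => φ x)
    (h1 : ∀ y, φ y ≤ 1) (A : List Bool → ℕ → Prop) (w : List Bool → ℕ → ℕ)
    (h : Ev (bs r) fun κ => (P1 κ fun x _ => A x) ∧ F1 κ fun x _ => w x) :
    Ev (bs r) fun κ => F2 κ fun x => orc φ x (A x) (w x) :=
  (hP r (bs r) φ pi pi.bs hφ h1 (fun x => sub (inp x) (A x)) w (h.imp fun κ _ k =>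
    ⟨K.ite (K.and (K.not (K.appP k.1 (pi.nd κ)))
      (K.not (K.appP k.1 (K.app (pi.nd κ) (pi.M κ).2.2.1)))) (pi.M κ).2.2.1 (K.v 0), k.2⟩)).imp
    fun κ _ o a b ha hb => K.lst (P := fun x ρ θ => θ = Zx x ∨
      φ (vy x (sub (inp x) (A x)) (w x) (a x ρ) (b x ρ) θ) = 1) (K.add (pi.Z κ) (K.c 1))
      (K.or (K.eq (K.v 0) (pi.Z κ)) (K.eq (o _ _ _ (K.w ha) (K.w hb) (K.v 0)) (K.c 1)))

theorem plC (hF : FmC) (pi : PiK r) {R : List Bool → ℕ} (hR : Cn κ fun x _ => R x)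
    (hf : Fo.C κ f) : Fo.C κ fun x => pl (inp x) (f x) (R x) :=
  have pos := (hF κ inp f (pi.M κ) (pi.nd κ) hf).2.1
  ⟨hf.1, hf.2.1, hf.2.2.1, hf.2.2.2.1, K.or hf.2.2.2.2 (K.and hf.2.2.2.1 (K.eq (K.mod
    (K.cnt (P := fun x ρ u => (f x).live u ∧
      ((inp x).L (f x)).pos u < ((inp x).L (f x)).pos (hd (ρ 0))) (pi.M κ).1
      (K.and hf.2.2.2.1 (K.lt pos (K.app pos (K.v 1))))) hR) (K.c 0)))⟩

theorem ldC (pi : PiK r) (e : ∀ x, bs r x ≤ κ x) (hf : Fo.C κ f) :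
    (P1 κ fun x _ => ((inp x).ld (Dx r x) (f x)).K) ∧
      P1 κ fun x _ => (inp x).X (Dx r x) (f x) :=
  have h := (aLd aFm aLn (aPt aFm aLn aBall) κ (Dx r) inp (pi.M κ) (K.mul (K.c 5000) (pi.ro κ))
    fun x => (pi.D x).trans (e x)).2.2 f hf
  ⟨h.1.2.1, h.2⟩

theorem nxC (hF : FmC) (pi : PiK r) {A X : List Bool → ℕ → Prop} {o : List Bool → ℕ → ℕ → ℕ}
    (hf : Fo.C κ f) (hA : P1 κ fun x _ => A x) (hX : P1 κ fun x _ => X x) (ho : F2 κ o) :
    Fo.C κ fun x => nxF (inp x) (wt x) (Wx x) (f x) (A x) (X x)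
      (dK (inp x) (wt x) (A x) (o x) (Zx x)) := by
  have hn := (pi.M κ).1
  have hβ := (pi.M κ).2.2.1
  have nd := pi.nd κ
  have n0 : Cn κ fun x ρ => (inp x).nd (hd (ρ 0)) := nd
  have nb : Cn κ fun x ρ => (inp x).nd ((inp x).β (hd (ρ 0))) := K.app nd hβ
  have o1 : Cn κ fun x ρ => o x (hd (ρ 1)) ((inp x).nd (hd (ρ 0))) := ho _ _ (K.v 1) n0
  have δ : F1 κ fun x _ => dK (inp x) (wt x) (A x) (o x) (Zx x) :=
    K.ite hA (K.c 0) ((hF κ inp f (pi.M κ) nd hf).2.2 (fun x _ => (inp x).n)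
      (fun x ρ d => (inp x).β d ≠ d ∧ ¬A x ((inp x).nd d) ∧ A x ((inp x).nd ((inp x).β d)) ∧
        o x (hd (ρ 0)) ((inp x).nd d) < Zx x)
      (fun x ρ d => o x (hd (ρ 0)) ((inp x).nd d) + wt x d) hn
      (K.and (K.ne hβ (K.v 0)) (K.and (K.not (K.appP hA n0))
        (K.and (K.appP hA nb) (K.lt o1 (pi.Z κ))))) (K.add o1 (pi.wt κ)))
  exact ⟨K.ite hA hf.1 (K.app nd (K.app hβ (K.lst (P := fun x ρ d => (inp x).nd d = hd (ρ 0) ∧
      (inp x).β d ≠ d ∧ wt x d + dK (inp x) (wt x) (A x) (o x) (Zx x) ((inp x).nd ((inp x).β d)) =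
        dK (inp x) (wt x) (A x) (o x) (Zx x) (hd (ρ 0))) hn
      (K.and (K.eq n0 (K.v 1)) (K.and (K.ne hβ (K.v 0))
        (K.eq (K.add (pi.wt κ) (K.app δ nb)) (K.app δ (K.v 1)))))))),
    K.ite hA hf.2.1 (K.add hf.2.2.1 δ), K.add hf.2.2.1 (pi.W κ), hf.2.2.2.1, hX⟩

theorem xsC (hF : FmC) (pi : PiK r) (e : ∀ x, bs r x ≤ κ x) (hf : Fo.C κ f) :
    (P1 κ fun x _ => xs x (Dx r x) (f x)) ∧
      P1 κ fun x _ => anc (inp x).n (f x).par (xs x (Dx r x) (f x)) :=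
  have hn := (pi.M κ).1
  have X : P1 κ fun x _ => xs x (Dx r x) (f x) :=
    K.or (ldC pi e hf).2 (K.or
      (K.ex (P := fun x ρ d => ((inp x).F (f x)).con d ∧ (inp x).nd d = hd (ρ 0)) hn
        (K.and ((aFm κ).1 _ (hF κ inp f (pi.M κ) (pi.nd κ) hf).1).2 (K.eq (pi.nd κ) (K.v 1))))
      (K.and (K.eq (K.v 0) (K.app (pi.nd κ) (pi.M κ).2.2.2.2.2)) hf.2.2.2.1))
  ⟨X, K.ex (P := fun x ρ y => xs x (Dx r x) (f x) y ∧
    ∃ t < (inp x).n, it (inp x).n (f x).par t y = hd (ρ 0)) hn (K.and X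
      (K.ex (P := fun x ρ t => it (inp x).n (f x).par t (hd (ρ 0)) = hd (ρ 1)) hn
        (K.eq (K.it hn hf.1 (K.v 0) (K.v 1)) (K.v 2))))⟩

end Pn

open Pn in
theorem pnS : PnS := by
  intro hF hP r φ R pi hφ h1 hR
  refine ⟨fun l => ?_, fun f hf => ?_⟩
  · induction l with
    | zero =>
      exact Ev.all fun κ => plC (f := fun x => f1 (inp x) (Wx x)) hF pi (hR κ)
        ⟨K.v 0, K.c 0, pi.W κ, pi.lv κ, pi.lv κ⟩
    | succ l ih =>
      refine (ih.and (orcC hP pi hφ h1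
        (fun x => ((inp x).ld (Dx r x) (lev φ x (Dx r x) (R x) l)).K) (fun x d => 1 * wt x d + 0)
        (ih.imp fun κ e k => ⟨(ldC pi e k).1,
          K.add (K.mul (K.c 1) (pi.wt κ)) (K.c 0)⟩))).imp fun κ e k => ?_
      exact plC (f := fun x => nxt φ x (Dx r x) (lev φ x (Dx r x) (R x) l)) hF pi (hR κ)
        (nxC hF pi k.1 (ldC pi e k.1).1 (ldC pi e k.1).2 k.2)
  · exact (hf.and (orcC hP pi hφ h1 (fun x => anc (inp x).n (f x).par (xs x (Dx r x) (f x)))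
      (fun x d => (num x 0 + 1) * wt x d + 1) (hf.imp fun κ e k => ⟨(xsC hF pi e k).2,
        K.add (K.mul (K.add (pi.M κ).1 (K.c 1)) (pi.wt κ)) (K.c 1)⟩))).imp fun κ e k =>
      ⟨pi.M κ, pi.nd κ, pi.wt κ, pi.W κ, k.1, (xsC hF pi e k.1).1, k.2, pi.Z κ⟩

end Pool.Agent.MP_1a6d78_lc.DS

end MrgPart9

section MrgPart10

/-! PROJECT DS: the levels of the algorithm and its top are computable. -/

namespace Pool.Agent.MP_1a6d78_lc.DS

open Classical ED PR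

namespace Pa

variable {κ : List Bool → ℕ} {r : ℕ}

theorem alg_le (r j : ℕ) (y : List Bool) : alg r j y ≤ 1 := by
  cases j <;> (simp only [alg, ans]; split_ifs <;> omega)

theorem nm (i : PiK r) (κ : List Bool → ℕ) (n : ℕ) : Cn κ fun x _ => num x n :=
  K.app (i.num κ) (K.c n)

theorem fo (i : PiK r) (κ : List Bool → ℕ) : Fo.C κ fun x => f1 (inp x) (Wx x) :=
  ⟨K.v 0, K.c 0, i.W κ, i.lv κ, i.lv κ⟩

theorem an (pf : PfS) (i : PiK r) {S : List Bool → Sk} (h : SkC κ S) (hκ : ∀ x, bs r x ≤ κ x) :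
    Cn κ fun x _ => ans (S x) (kx r x) r (num x 3) :=
  K.ite (K.and (K.appP h.f.2.2.2.1 (K.app h.nd h.M.2.2.2.2.2))
    (K.le (pf κ (kx r) S r h (i.k κ) hκ) (nm i κ 3))) (K.c 1) (K.c 0)

variable {a : List Bool → Env → ℕ} {π : List Bool → ℕ → ℕ}

theorem bt (i : PiK r) (h : Cn κ a) : Cn κ fun x ρ => (inp x).β (a x ρ) :=
  K.app (i.M κ).2.2.1 h

theorem nd (i : PiK r) (h : Cn κ a) : Cn κ fun x ρ => (inp x).nd (a x ρ) := K.app (i.nd κ) h

theorem u (i : PiK r) (h : Cn κ a) : Cp κ fun x ρ => us x (a x ρ) :=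
  K.eq (K.app (i.num κ) (K.add (K.add (K.add (K.add (K.c 4) (nm i κ 0)) (nm i κ 0)) (nm i κ 0)) h))
    (K.c 1)

theorem b (i : PiK r) (h : Cn κ a) : Cn κ fun x ρ => be x (a x ρ) :=
  K.ite (K.or (u i h) (u i (bt i h))) (bt i h) h

theorem o (i : PiK r) (p : F1 κ fun x _ => π x) (h : Cn κ a) :
    Cn κ fun x ρ => om x (π x) (a x ρ) :=
  have p1 := K.app p (nd i h)
  have p2 := K.app p (nd i (bt i h))
  K.add (K.ite (u i h) (K.app (i.wt κ) h) (K.app (i.wt κ) (bt i h)))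
    (K.mul (K.add (nm i κ 3) (K.c 1)) (K.add (K.sub p1 p2) (K.sub p2 p1)))

theorem w (fm : FmC) (i : PiK r) (p : F1 κ fun x _ => π x) : F1 κ fun x _ => wm x (π x) :=
  (fm κ inp _ (i.M κ) (i.nd κ) (fo i κ)).2.2 (fun x _ => num x 0)
    (fun x ρ e => be x e ≠ e ∧ (inp x).nd e = (inp x).nd (hd (ρ 0)) ∧
      (inp x).nd ((inp x).β e) = (inp x).nd ((inp x).β (hd (ρ 0))))
    (fun x _ => om x (π x)) (nm i κ 0)
    (K.and (K.ne (b i (K.v 0)) (K.v 0)) (K.and (K.eq (nd i (K.v 0)) (nd i (K.v 1)))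
      (K.eq (nd i (bt i (K.v 0))) (nd i (bt i (K.v 1)))))) (o i p (K.v 0))

end Pa

open Pa

theorem paS : PaS := by
  intro fm po pn pf r i j
  induction j with
  | zero =>
    exact (Ev.all (P := fun _ => True) fun _ => trivial).imp fun κ hκ _ => an pf i
      ⟨i.M κ, i.nd κ, i.wt κ, i.W κ, fo i κ, i.lv κ, fun _ _ _ _ => K.c 0, i.Z κ⟩ hκ
  | succ j ih =>
    obtain ⟨h1, h2⟩ := pn fm po r (alg r j) (fun x => ro r (num x 0) ^ (j + 1)) i ih
      (alg_le r j) fun κ => K.pow _ (i.ro κ)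
    exact (h2 _ (h1 r)).imp fun κ hκ h => an pf i h hκ

theorem ptS : PtS := by
  intro fm po r b φ π i hb hφ h1 hπ
  have h := po r b φ i hb hφ h1 be (fun x d => (num x 0 + 1) * wm x (π x) d + 1)
    (hπ.imp fun κ _ p => ⟨Pa.b i (K.v 0),
      K.add (K.mul (K.add (nm i κ 0) (K.c 1)) (w fm i p)) (K.c 1)⟩)
  refine (h.and hπ).imp fun κ _ ⟨q, p⟩ => ?_
  have p1 := K.app p (nd i (nm i κ 1))
  have p2 := K.app p (nd i (nm i κ 2))
  exact K.ite (K.le p1 p2) (q _ _ _ (nm i κ 1) (nm i κ 2)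
    (K.add (K.mul (K.add (nm i κ 0) (K.c 1)) (K.add (nm i κ 3)
      (K.mul (K.add (nm i κ 3) (K.c 1)) (K.sub p2 p1)))) (nm i κ 0))) (K.c 0)

end Pool.Agent.MP_1a6d78_lc.DS

end MrgPart10

section MrgPart11

/-! PROJECT DS, row MCH: the machine. -/

namespace Pool.Agent.MP_1a6d78_lc.DS

open Classical ED PR

namespace Mch

theorem kq_le {r μ m : ℕ} (h : μ ≤ m) (h1 : 1 ≤ m) : kq r μ ≤ (12 * r + 4) ^ 5 * m ^ 10 := by
  have a : μ * (μ + 1) ≤ m * (2 * m) := Nat.mul_le_mul h (by omega)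
  have b : μ * (μ + 1) * r ≤ m * (2 * m) * r := Nat.mul_le_mul_right _ a
  have c : m ≤ m * m := Nat.le_mul_self m
  have d : bq r μ + 2 ≤ (12 * r + 4) * m ^ 2 := by
    unfold bq
    have e : (12 * r + 4) * m ^ 2 = 6 * (m * (2 * m) * r) + 4 * (m * m) := by ring
    omega
  calc kq r μ ≤ ((12 * r + 4) * m ^ 2) ^ 5 := Nat.pow_le_pow_left d 5
    _ = _ := by rw [mul_pow, ← pow_mul]

theorem mu_le (r : ℕ) : ∃ a, 1 ≤ a ∧ ∀ E k, E ≤ k → mu r (5000 * E) ≤ a * k ^ 4 :=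
  ⟨4000 * (r + 1) * 5000 ^ 4, Nat.mul_pos (by omega) (by norm_num), fun E k h => by
    rw [mu, mul_pow, ← mul_assoc]
    exact Nat.mul_le_mul_left _ (Nat.pow_le_pow_left h 4)⟩

theorem bs_le (r : ℕ) : ∃ C, ∀ x k, 1 ≤ k → ro r (num x 0) ≤ k → bs r x ≤ C * k ^ 120 := by
  obtain ⟨a, a1, ha⟩ := mu_le r
  refine ⟨((12 * (r + 1) + 4) ^ 5 * a ^ 10 + 2) ^ 3, fun x k k1 h => ?_⟩
  have h1 : kx r x ≤ (12 * (r + 1) + 4) ^ 5 * (a * k ^ 4) ^ 10 :=
    kq_le (ha _ _ h) (Nat.mul_pos a1 (Nat.pow_pos k1))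
  rw [mul_pow, ← pow_mul, ← mul_assoc] at h1
  generalize (12 * (r + 1) + 4) ^ 5 * a ^ 10 = b at h1 ⊢
  have h2 : 1 ≤ k ^ (4 * 10) := Nat.pow_pos k1
  have h3 : kx r x + 2 ≤ (b + 2) * k ^ (4 * 10) := by
    rw [add_mul]
    omega
  calc bs r x ≤ ((b + 2) * k ^ (4 * 10)) ^ 3 := Nat.pow_le_pow_left h3 3
    _ = _ := by rw [mul_pow, ← pow_mul]

theorem two_pow {n k r : ℕ} (h : n < k ^ r) : n + 1 ≤ 2 ^ (k * r) := by
  rw [pow_mul]
  exact h.trans_le (Nat.pow_le_pow_left Nat.lt_two_pow_self.le r)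

theorem log_le {n e : ℕ} (h : n ≤ 2 ^ e) : Nat.log 2 n ≤ e :=
  (Nat.log_mono_right h).trans (Nat.log_pow (by norm_num) e).le

theorem bl_le (r : ℕ) : ∃ C, ∀ x k, 1 ≤ k → ro r (num x 0) ≤ k → x.length < k ^ r →
    bl r x ≤ C * k ^ 120 := by
  obtain ⟨C, hC⟩ := bs_le r
  refine ⟨C + (r + 1) ^ 2, fun x k k1 h h' => ?_⟩
  have a : SC.lg x ≤ (r + 1) * k := by
    have := log_le ((Nat.le_succ _).trans (two_pow h'))
    unfold SC.lg
    rw [add_mul, one_mul, mul_comm r k]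
    omega
  have b : SC.lg x ^ 2 ≤ (r + 1) ^ 2 * k ^ 120 := by
    refine (Nat.pow_le_pow_left a 2).trans ?_
    rw [mul_pow]
    exact Nat.mul_le_mul_left _ (Nat.pow_le_pow_right k1 (by norm_num))
  have c := hC x k k1 h
  rw [add_mul]
  exact Nat.add_le_add c b

theorem time (n m : ℕ) : (n + 2) ^ (m + 1) + 2 ≤ (n + 2) ^ (m + 2) := by
  have a : 2 ≤ (n + 2) ^ (m + 1) := (Nat.le_add_left 2 n).trans (Nat.le_self_pow (by omega) _)
  rw [pow_succ _ (m + 1), Nat.mul_add]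
  omega

theorem lgB {n k r : ℕ} (m : ℕ) (k1 : 1 ≤ k) (h : n < k ^ r) :
    Nat.log 2 ((n + 2) ^ (m + 1) + 2) ≤ (r + 1) * (m + 2) * k := by
  have a : n + 2 ≤ 2 ^ (k * r + k) := by
    have a1 := two_pow h
    have a2 : 2 ≤ 2 ^ k := Nat.le_self_pow (by omega) 2
    have a3 := Nat.mul_le_mul a1 a2
    rw [pow_add]
    omega
  refine log_le ((time n m).trans ((Nat.pow_le_pow_left a _).trans (le_of_eq ?_)))
  rw [← pow_mul]
  congr 1
  ring

theorem root {n k r : ℕ} {ε : ℝ} (hε : 0 < ε) (hr : 1 ≤ r) (h4 : 4 / (ε / 31) ≤ r)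
    (h : (k - 1) ^ r ≤ n) : ((k ^ 124 : ℕ) : ℝ) ≤ ((81 ^ 31 : ℕ) : ℝ) * ((n : ℝ) + 1) ^ ε := by
  have a := Fn.root (by positivity) hr h4 h
  have e : (((n : ℝ) + 1) ^ (ε / 31)) ^ 31 = ((n : ℝ) + 1) ^ ε := by
    rw [← Real.rpow_natCast, ← Real.rpow_mul (by positivity)]
    congr 1
    push_cast
    ring
  have b : ((k ^ 124 : ℕ) : ℝ) ≤ ((((k + 1) ^ 4) ^ 31 : ℕ) : ℝ) := by
    rw [← pow_mul]
    exact Nat.cast_le.2 (Nat.pow_le_pow_left (Nat.le_succ k) _)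
  refine b.trans ?_
  rw [Nat.cast_pow, ← e, Nat.cast_pow 81 31, ← mul_pow]
  exact pow_le_pow_left₀ (Nat.cast_nonneg _) (by exact_mod_cast a) 31

theorem bsl {r : ℕ} (h : PiK r) : Bs r (bl r) := by
  refine ⟨fun x => Nat.le_add_right _ _, fun κ => K.add (h.bs.c κ) (K.pow 2 (SC.lgC κ)), ?_⟩
  obtain ⟨e, he⟩ := h.bs.pol
  refine ⟨e + 2 + 1, fun x => ?_⟩
  have a : bs r x ≤ (x.length + 2) ^ (e + 2) :=
    (he x).trans (Nat.pow_le_pow_right (by omega) (by omega))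
  have b : SC.lg x ^ 2 ≤ (x.length + 2) ^ (e + 2) :=
    (Nat.pow_le_pow_left ((SC.lg_le x).trans (Nat.le_succ _)) 2).trans
      (Nat.pow_le_pow_right (by omega) (by omega))
  unfold bl
  rw [pow_succ _ (e + 2), Nat.mul_add]
  omega

theorem space {κ l c C L k : ℕ} (k1 : 1 ≤ k) (h1 : κ ≤ C * k ^ 120) (h2 : l ≤ L * k) :
    (κ + 1) * (c * l + c) ≤ (C + 1) * (c * L + c) * k ^ 124 := by
  have a : 1 ≤ k ^ 120 := Nat.pow_pos k1
  have a1 : κ + 1 ≤ (C + 1) * k ^ 120 := by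
    rw [add_mul, one_mul]
    omega
  have a2 : k ≤ k ^ 4 := Nat.le_self_pow (by norm_num) k
  have a3 : c * l + c ≤ (c * L + c) * k ^ 4 := by
    have b1 : c * l ≤ c * (L * k ^ 4) :=
      Nat.mul_le_mul_left _ (h2.trans (Nat.mul_le_mul_left _ a2))
    have b2 : c ≤ c * k ^ 4 := Nat.le_mul_of_pos_right _ (Nat.pow_pos k1)
    rw [add_mul, mul_assoc]
    omega
  refine (Nat.mul_le_mul a1 a3).trans (le_of_eq ?_)
  rw [show (124 : ℕ) = 120 + 4 from rfl, pow_add]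
  exact mul_mul_mul_comm _ _ _ _

end Mch

open Mch in
theorem mchS : MchS := by
  intro hR ε hε
  obtain ⟨r, hr, h4⟩ : ∃ r : ℕ, 1 ≤ r ∧ 4 / (ε / 31) ≤ r :=
    ⟨⌈4 / (ε / 31)⌉₊, Nat.ceil_pos.2 (by positivity), Nat.le_ceil _⟩
  refine ⟨r, hr, fun hP => ⟨bsl hP, ?_⟩⟩
  rintro f ⟨A, hA⟩
  obtain ⟨e, he⟩ := (bsl hP).pol
  obtain ⟨C, hC⟩ := bl_le r
  obtain ⟨M, c, H⟩ := mach (fun x => (A + 1) * bl r x) f
    (hA _ fun x => Nat.mul_le_mul_right _ (Nat.le_succ A))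
  obtain ⟨Q, hQ⟩ : ∃ Q : ℕ, Q = 81 ^ 31 := ⟨_, rfl⟩
  refine ⟨M, (A + e + 2) * c + ((A + 1) * C + 1) * (c * ((r + 1) * (A + e + 2)) + c) * Q,
    fun x => ?_⟩
  obtain ⟨k1, k2, k3, -⟩ := hR r x.length hr
  obtain ⟨-, -, j3, -⟩ := hR r (num x 0) hr
  have j4 : ro r (num x 0) ≤ ro r x.length := by
    have := lt_of_pow_lt_pow_left₀ r (Nat.zero_le _) ((j3.trans (RowKk.num_le x 0)).trans_lt k2)
    omega
  have b1 : 1 ≤ bl r x := (Nat.pow_pos (by omega)).trans_le (Nat.le_add_right _ _)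
  have b2 : (A + 1) * bl r x ≤ (x.length + 2) ^ (A + e + 1) := by
    have : A + 1 ≤ (x.length + 2) ^ (A + 1) :=
      Nat.lt_two_pow_self.le.trans (Nat.pow_le_pow_left (by omega) _)
    rw [show A + e + 1 = A + 1 + e by omega, pow_add]
    exact Nat.mul_le_mul this (he x)
  obtain ⟨H1, H2⟩ := H x ((x.length + 2) ^ (A + e + 1)) (Nat.mul_pos (by omega) b1) b2
    ((Nat.le_add_right _ 2).trans (Nat.le_self_pow (by omega) _))
  refine ⟨?_, fun t i => ?_⟩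
  · rw [Fn.halt M x H1, H1]
    refine (Nat.pow_le_pow_left (time _ _) c).trans ?_
    rw [← pow_mul]
    exact Nat.pow_le_pow_right (by omega) (Nat.le_add_right _ _)
  · have a0 : (A + 1) * bl r x ≤ (A + 1) * C * ro r x.length ^ 120 := by
      rw [mul_assoc]
      exact Nat.mul_le_mul_left _ (hC x _ k1 j4 k2)
    have a : ((M.run x t).head i : ℝ) ≤ ((((A + 1) * C + 1) *
        (c * ((r + 1) * (A + e + 2)) + c) * ro r x.length ^ 124 : ℕ) : ℝ) :=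
      Nat.cast_le.2 ((H2 t i).trans (space k1 a0 (lgB _ k1 k2)))
    have b := root hε hr h4 k3
    rw [← hQ] at b
    have p : (0 : ℝ) ≤ ((x.length : ℝ) + 1) ^ ε := by positivity
    rw [Nat.cast_mul] at a
    refine (a.trans (mul_le_mul_of_nonneg_left b (Nat.cast_nonneg _))).trans ?_
    rw [← mul_assoc, ← Nat.cast_mul]
    exact mul_le_mul_of_nonneg_right (Nat.cast_le.2 (Nat.le_add_left _ _)) p

end Pool.Agent.MP_1a6d78_lc.DS

end MrgPart11
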