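import Pool.Agent.MP_1a6d78_lc.DS.PackA
import Pool.Agent.MP_1a6d78_lc.DS.PackB
import Pool.Agent.MP_1a6d78_lc.DS.PackC
import Pool.Agent.MP_1a6d78_lc.GM.BoxQ

/-! PROJECT PSD: the potential and the assembly. -/

section MrgPart1

/-! PROJECT DS, row POT: the number of darts that reach a vertex is a computable potential. -/

namespace Pool.Agent.MP_1a6d78_lc.DS

open Classical ED PR

namespace PotAux

variable {M : Mp} {u : ℕ → Prop}

theorem sc_wk (h : Pm M.n M.ρ) {a b : ℕ} (ha : a < M.n) (k : Sc M.n M.ρ a b) :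
    PL.Wk M.n M.ρ M.β u a b :=
  Sc.ind h.1 (Q := fun d => PL.Wk M.n M.ρ M.β u a d) ha .refl
    (fun _ hd i => i.tail ⟨hd, Or.inl rfl⟩) k

theorem to_nd (h : Pm M.n M.ρ) {d : ℕ} (hd : d < M.n) : PL.Wk M.n M.ρ M.β u d (M.nd d) :=
  sc_wk h hd (Mp.nd_spec hd).2

theorem of_nd (h : Pm M.n M.ρ) {d : ℕ} (hd : d < M.n) : PL.Wk M.n M.ρ M.β u (M.nd d) d :=
  sc_wk h (Mp.nd_spec hd).1 ((Mp.nd_spec hd).2.symm h hd)

/-- A usable dart carries the reachability from its vertex to the other end. -/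
theorem arc (h : Pm M.n M.ρ) (hi : Iv M.n M.β) {d a : ℕ} (hd : d < M.n) (hu : u d)
    (k : PL.Wk M.n M.ρ M.β u a (M.nd d)) : PL.Wk M.n M.ρ M.β u a (M.nd (M.β d)) :=
  ((k.trans (of_nd h hd)).tail ⟨hd, Or.inr ⟨hu, rfl⟩⟩).trans (to_nd h (hi d hd).1)

theorem clip_hd {k b : ℕ} (h : 1 ≤ k) (l : List ℕ) : gt (GM.clip k b l) 0 = min b (hd l) := by
  rw [GM.clip, gt_tb _ h]
  cases l <;> rfl

end PotAux

open PotAux in
theorem potS : PotS := by
  intro hC r hP _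
  obtain ⟨bx, b1, b2⟩ := GM.boxQ
  obtain ⟨A, hA⟩ := b2 1
  have l1 : ∀ x, 1 ≤ SC.lg x ^ 2 := fun x => Nat.one_le_pow _ _ (Nat.succ_pos _)
  have nl : ∀ x : List Bool, num x 0 ≤ (x.length + 2) ^ (A + 1) := fun x =>
    ((RowKk.num_le x 0).trans (Nat.le_add_right _ 2)).trans (Nat.le_self_pow (by omega) _)
  have cn : ∀ κ, Cn κ fun x _ => num x 0 := fun κ => (hP.M κ).1
  have cu : ∀ κ, P1 κ fun x _ => us x := fun κ =>
    K.eq (K.app (hP.num κ) (K.add (K.add (K.add (K.add (K.c 4) (cn κ)) (cn κ)) (cn κ)) (K.v 0)))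
      (K.c 1)
  have hF : SC.Nq (fun x => (A + 1) * SC.lg x ^ 2) (fun x => (x.length + 2) ^ (A + 1))
      (fun x => (x.length + 2) ^ (A + 1)) fun x _ ρ =>
        cnt (num x 0) fun a => bx (num x 0) (inp x).ρ (inp x).β (us x) a (gt (ρ 0) 0) :=
    SC.Q.cnt (P := fun x _ ρ a => bx (num x 0) (inp x).ρ (inp x).β (us x) a (gt (ρ 0) 0))
      (SC.Q.lift (cn _)) (fun x _ _ => nl x)
      (hA _ _ _ (fun x => num x 0) (fun x => ⟨(RowKk.num_le x 0).trans (by rw [pow_one]; omega),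
          Nat.mul_le_mul_right _ (Nat.le_succ _), Nat.pow_le_pow_right (by omega) (Nat.le_succ _)⟩)
        (SC.Q.lift (cn _)) (fun x _ _ => (inp x).ρ) (fun x _ _ => (inp x).β) (fun x _ _ => us x)
        (fun _ _ ρ => hd (ρ 0)) (fun _ _ ρ => gt (ρ 1) 0) (SC.Q.lift (hP.M _).2.1)
        (SC.Q.lift (hP.M _).2.2.1) (SC.Q.liftP (cu _)) (SC.Q.v 0)
        (SC.Q.gt (SC.Q.vL 1) (SC.Q.c 0)))
  have k1 : ∀ x, 1 ≤ (A + 1) * SC.lg x ^ 2 := fun x => Nat.mul_pos (Nat.succ_pos _) (l1 x)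
  obtain ⟨E, hE⟩ := GM.recC _ _ _ (fun _ => 1) (fun x _ l =>
      cnt (num x 0) fun a => bx (num x 0) (inp x).ρ (inp x).β (us x) a (gt l 0)) (A + 2) hF
    (fun x _ _ => (cnt_le _ _).trans (nl x)) k1 fun x => by
      have e1 : (x.length + 2) ^ (A + 2) = (x.length + 2) ^ (A + 1) * (x.length + 2) := pow_succ _ _
      have e2 : x.length + 2 ≤ (x.length + 2) ^ (A + 1) := Nat.le_self_pow (by omega) _
      rw [pow_one, e1]
      refine ⟨?_, ?_, ?_⟩ <;> nlinarith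
  refine ⟨fun x v => cnt (num x 0) fun a => bx (num x 0) (inp x).ρ (inp x).β (us x) a
    (min ((x.length + 2) ^ (A + 1)) v), ⟨E * (A + 2) * 2, fun κ hκ => ?_⟩, ?_⟩
  · refine K.cg (hE κ (fun x => le_trans ?_ (hκ x)) (K.c 1)
      (K.mul (K.c _) (K.pow 2 (SC.lgC κ))) (K.pow _ (K.add (kitOne κ).len (K.c 2)))) fun x ρ => ?_
    · have e1 := l1 x
      have e2 : SC.lg x ^ 2 ≤ bl r x := Nat.le_add_left _ _
      have e3 : (A + 1) * SC.lg x ^ 2 + 1 ≤ (A + 2) * bl r x := by nlinarith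
      calc _ ≤ E * ((A + 2) * bl r x) * 2 := Nat.mul_le_mul_right _ (Nat.mul_le_mul_left _ e3)
        _ = _ := by ring
    · simp only [rc, clip_hd (k1 x)]
  intro n σ α dir w s t θ x h1 h2 h3 hM
  obtain ⟨ok, g0, e0, -, -, -, ea, -⟩ := hC σ α dir w s t θ x h1 h2 h3
  clear h3
  subst e0
  have pm : Pm (inp x).n (inp x).ρ := ok.pm
  have iv : Iv (inp x).n (inp x).β := ok.iv
  have ed : dir = fun a : Fin (num x 0) => decide (us x a) := funext fun a => by
    rw [(ea a).2.2.2]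
    simp
  have rw' : ∀ a b : Fin (num x 0), Reach σ α dir a b ↔
      PL.Wk (inp x).n (inp x).ρ (inp x).β (us x) a b := fun a b =>
    ed ▸ GM.Bq.reach_wk σ α (fun a => (ea a).1) (fun a => (ea a).2.1) a b
  have ev : ∀ v < (inp x).n, (cnt (num x 0) fun a => bx (num x 0) (inp x).ρ (inp x).β (us x) a
      (min ((x.length + 2) ^ (A + 1)) v)) =
      cnt (inp x).n fun a => PL.Wk (inp x).n (inp x).ρ (inp x).β (us x) a v := fun v hv => by
    rw [min_eq_right ((le_of_lt hv).trans (nl x))]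
    exact cnt_congr fun a ha => b1 _ _ _ _ _ _ pm iv g0 ha hv
  refine ⟨fun v => cnt_le _ _, fun d hd u1 u2 => ⟨?_, ?_⟩, fun d hd u1 u2 => ?_⟩
  · have eb : (inp x).β d = α ⟨d, hd⟩ := (ea ⟨d, hd⟩).2.1
    rcases hM ⟨d, hd⟩ ((ea ⟨d, hd⟩).2.2.2.1 u1) with k | k
    · rw [eb, (ea _).2.2.1, k.2]
      exact (ea ⟨d, hd⟩).2.2.1.symm
    · refine absurd ((rw' _ _).2 ?_) k
      rw [← eb]
      exact .single ⟨(iv d hd).1, Or.inr ⟨u2, (iv d hd).2.symm⟩⟩
  · beta_reduce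
    rw [ev _ (Mp.nd_spec hd).1, ev _ (Mp.nd_spec (iv d hd).1).1]
    refine cnt_congr fun a _ => ⟨arc pm iv hd u1, fun k => ?_⟩
    have := arc pm iv (iv d hd).1 u2 k
    rwa [(iv d hd).2] at this
  · have eb : (inp x).β d = α ⟨d, hd⟩ := (ea ⟨d, hd⟩).2.1
    beta_reduce
    rw [ev _ (Mp.nd_spec hd).1, ev _ (Mp.nd_spec (iv d hd).1).1]
    refine cnt_lt (fun a _ => arc pm iv hd u1) (iv d hd).1 (to_nd pm (iv d hd).1) fun k => ?_
    rcases hM ⟨d, hd⟩ ((ea ⟨d, hd⟩).2.2.2.1 u1) with k' | k'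
    · exact u2 (eb ▸ (ea _).2.2.2.2 k'.1)
    · refine k' ((rw' _ _).2 ?_)
      rw [← eb]
      exact k.trans (of_nd pm hd)

end Pool.Agent.MP_1a6d78_lc.DS

end MrgPart1

section MrgPart2

/-! PROJECT DS: the wiring of the rows. -/

namespace Pool.Agent.MP_1a6d78_lc.DS

open Classical ED PR

theorem finS (jor : JorS) (kt0 : Kt0S) (kt : KtS) (key : KeyS) (line : LineS) (side : SideS)
    (blk : BlkS) (blk3 : Blk3S) (blkN : BlkNS) (cross : CrossS) (ls : LsS) (bell : BellS)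
    (once : OnceS) (ter : TerS) (cls : ClsS) (agr : AgrS) (nc : NcS) (touch : TouchS)
    (lemA : LemAS) (stair : StairS) (len : LenS) (cnt' : CntS) (monQ : MonQS) (mon : MonS)
    (d0 : D0S) (valL : ValLS) (valU : ValUS) (vl : VlS) (e1 : E1S) (mk : MkS) (dij : DijS) :
    FinS := by
  intro S r μ t ok hn hx
  have k0 := kt0 S r μ ok
  have k1 := kt S r μ ok k0
  have k2 := key S r μ ok k0
  have k3 := line S r μ ok k0 k2
  have k4 := side S r μ ok k0 k2
  have b1 := blk S k1 k4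
  have b3 := blk3 S r μ ok k1 k4
  have bn := blkN S r μ ok k0 k2 k3
  have cr := cross jor S r μ ok k1
  have l := ls S r μ ok k0
  have be := bell S r μ ok k0 l
  have on := once S r μ ok k0 k3 l be
  have te := ter S r μ ok k0 k2 be on
  have cl := cls S r μ ok k0 k2 l be
  have ag := agr S r μ ok k0 k2 l be
  have n := nc S k0 b1 cr l be on te cl
  have tc := touch S k0 k2 b1 te cl n
  have la := lemA S k0 k2 b1 b3 te cl n tc
  have st := stair S _ k0 k2 b1 b3 bn te cl n tc la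
  have le := len S _ b1 bn l be on te cl
  have cn := cnt' S _ k0 b1 b3 bn te cl tc st le
  have mq := monQ S k0 b1 cr l
  have mo := mon S r μ k3 mq
  have d := d0 S r μ _ k0 k2 k3 b1 be te cl le
  have vL := valL S r μ _ k3 b1 l be k0 te cl n mq le d
  have vU := valU S r μ _ k3 b1 l be k0 te cl n mq le d
  have p2 : (bq r μ + 2) ^ 2 ≤ kq r μ := Nat.pow_le_pow_right (by omega) (by omega)
  have h1 : 2 * bq r μ + 2 ≤ kq r μ := by nlinarith
  have h2 : cnt S.M.n S.sp ≤ kq r μ := k3.nsp.trans (by unfold bq at h1; omega)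
  exact dij S _ t k0 k2 be (e1 S _ t k0 l be (vl S r μ _ _ t k0 k3 be le mo d vL vU h1 hn))
    (mk S _ _ k0 ag cn le_rfl h2) h2 hx

theorem pfS (fm : FmC) (pk : PkS) (pc : PcS) (av : AvS) (ps : PsS) (pe : PeS) (pd : PdS) : PfS :=
  fun κ k S t h hk hκ =>
    have a := pk fm κ S h
    have b := pc κ k S h a hk hκ
    have c := ps fm κ S h a
    pd κ k S t h a b c (pe av κ k S t h a b c hk hκ) hk hκ

theorem alg_le (r j : ℕ) (y : List Bool) : alg r j y ≤ 1 := by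
  cases j <;> (simp only [alg, ans]; split_ifs <;> omega)

theorem mainS (fin : FinS) (pf : PfS) (ro' : RoS) (comp : CompS) (dk : DkS) (nx : NxS)
    (size : SizeS) (vy' : VyS) (sub' : SubS) (lev' : LevS) (skl' : SklS) (rec : RecS) (top : TopS)
    (cod : CodS) (fm : FmC) (pi : PiS) (po : PoS) (pn : PnS) (pa : PaS) (pt : PtS) (mch : MchS)
    (pot : PotS) : MainS := by
  intro ε hε
  obtain ⟨r, hr, h⟩ := mch ro' ε hε
  have i := pi ro' fm r hr
  obtain ⟨hb, h⟩ := h i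
  obtain ⟨π, p1, p2⟩ := pot cod r i hb
  obtain ⟨M, c, hM⟩ := h _ (pt fm po r _ (alg r r) π i hb (pa fm po pn pf r i r) (alg_le r r) p1)
  refine ⟨M, c, fun x => ⟨_, (hM x).1, (hM x).2, fun n σ α dir w s t θ hα hp hm hx => ?_⟩⟩
  obtain ⟨c1, _, c3, c4, c5, c6, _, c8⟩ := cod σ α dir w s t θ x hα hp hx
  have q := top vy' (mm r r) (alg r r) x (π x)
    (rec ro' comp sub' vy' dk nx size lev' skl' fin r hr r) (fun m => by
      obtain ⟨a, b, _⟩ := ro' r m hr
      exact b.le.trans (Nat.le_mul_of_pos_left _ (Nat.pow_pos (by omega))))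
    c1 (by rw [c5, c3]; exact t.2) (p2 σ α dir w s t θ x hα hp hx hm)
  have u : topv x (π x) (alg r r) ≤ 1 := by
    unfold topv
    split_ifs
    exacts [alg_le _ _ _, Nat.zero_le _]
  rw [c4, c5, c6] at q
  simp only [c8] at q
  rw [← q, bne_iff_ne]
  omega

end Pool.Agent.MP_1a6d78_lc.DS

end MrgPart2

namespace Pool.Agent.MP_1a6d78_lc.DS

theorem main : MainS :=
  mainS
    (finS jorS kt0S ktS keyS lineS sideS blkS blk3S blkNS crossS lsS bellS onceS terS clsS agrS ncS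
      touchS lemAS stairS lenS cntS monQS monS d0S valLS valUS vlS e1S mkS dijS)
    (pfS fmC pkS pcS avS psS peS pdS) roS compS dkS nxS sizeS vyS subS levS sklS recS topS codS fmC
    piS poS pnS paS ptS mchS potS

end Pool.Agent.MP_1a6d78_lc.DS
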