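import Pool.Agent.MP_1a6d78_lc.DS.Basic

/-! PROJECT DS: the wiring of the rows. -/

namespace Pool.Agent.MP_1a6d78_lc.DS

open Classical ED PR

theorem finS (jor : JorS) (kt0 : Kt0S) (kt : KtS) (key : KeyS) (line : LineS) (side : SideS)
    (blk : BlkS) (blk3 : Blk3S) (blkN : BlkNS) (cross : CrossS) (ls : LsS) (bell : BellS)
    (once : OnceS) (ter : TerS) (cls : ClsS) (agr : AgrS) (nc : NcS) (touch : TouchS)
    (lemA : LemAS) (stair : StairS) (len : LenS) (cnt' : CntS) (monQ : MonQS) (mon : MonS)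
    (d0 : D0S) (valL : ValLS) (valU : ValUS) (vl : VlS) (e1 : E1S) (mk : MkS) (dij : DijS) :
    FinS := by
  intro S r μ t ok hn hx
  have k0 := kt0 S r μ ok
  have k1 := kt S r μ ok k0
  have k2 := key S r μ ok k0
  have k3 := line S r μ ok k0 k2
  have k4 := side S r μ ok k0 k2
  have b1 := blk S k1 k4
  have b3 := blk3 S r μ ok k1 k4
  have bn := blkN S r μ ok k0 k2 k3
  have cr := cross jor S r μ ok k1
  have l := ls S r μ ok k0
  have be := bell S r μ ok k0 l
  have on := once S r μ ok k0 k3 l be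
  have te := ter S r μ ok k0 k2 be on
  have cl := cls S r μ ok k0 k2 l be
  have ag := agr S r μ ok k0 k2 l be
  have n := nc S k0 b1 cr l be on te cl
  have tc := touch S k0 k2 b1 te cl n
  have la := lemA S k0 k2 b1 b3 te cl n tc
  have st := stair S _ k0 k2 b1 b3 bn te cl n tc la
  have le := len S _ b1 bn l be on te cl
  have cn := cnt' S _ k0 b1 b3 bn te cl tc st le
  have mq := monQ S k0 b1 cr l
  have mo := mon S r μ k3 mq
  have d := d0 S r μ _ k0 k2 k3 b1 be te cl le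
  have vL := valL S r μ _ k3 b1 l be k0 te cl n mq le d
  have vU := valU S r μ _ k3 b1 l be k0 te cl n mq le d
  have p2 : (bq r μ + 2) ^ 2 ≤ kq r μ := Nat.pow_le_pow_right (by omega) (by omega)
  have h1 : 2 * bq r μ + 2 ≤ kq r μ := by nlinarith
  have h2 : cnt S.M.n S.sp ≤ kq r μ := k3.nsp.trans (by unfold bq at h1; omega)
  exact dij S _ t k0 k2 be (e1 S _ t k0 l be (vl S r μ _ _ t k0 k3 be le mo d vL vU h1 hn))
    (mk S _ _ k0 ag cn le_rfl h2) h2 hx

theorem pfS (fm : FmC) (pk : PkS) (pc : PcS) (av : AvS) (ps : PsS) (pe : PeS) (pd : PdS) : PfS :=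
  fun κ k S t h hk hκ =>
    have a := pk fm κ S h
    have b := pc κ k S h a hk hκ
    have c := ps fm κ S h a
    pd κ k S t h a b c (pe av κ k S t h a b c hk hκ) hk hκ

theorem alg_le (r j : ℕ) (y : List Bool) : alg r j y ≤ 1 := by
  cases j <;> (simp only [alg, ans]; split_ifs <;> omega)

theorem mainS (fin : FinS) (pf : PfS) (ro' : RoS) (comp : CompS) (dk : DkS) (nx : NxS)
    (size : SizeS) (vy' : VyS) (sub' : SubS) (lev' : LevS) (skl' : SklS) (rec : RecS) (top : TopS)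
    (cod : CodS) (fm : FmC) (pi : PiS) (po : PoS) (pn : PnS) (pa : PaS) (pt : PtS) (mch : MchS)
    (pot : PotS) : MainS := by
  intro ε hε
  obtain ⟨r, hr, h⟩ := mch ro' ε hε
  have i := pi ro' fm r hr
  obtain ⟨hb, h⟩ := h i
  obtain ⟨π, p1, p2⟩ := pot cod r i hb
  obtain ⟨M, c, hM⟩ := h _ (pt fm po r _ (alg r r) π i hb (pa fm po pn pf r i r) (alg_le r r) p1)
  refine ⟨M, c, fun x => ⟨_, (hM x).1, (hM x).2, fun n σ α dir w s t θ hα hp hm hx => ?_⟩⟩
  obtain ⟨c1, _, c3, c4, c5, c6, _, c8⟩ := cod σ α dir w s t θ x hα hp hx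
  have q := top vy' (mm r r) (alg r r) x (π x)
    (rec ro' comp sub' vy' dk nx size lev' skl' fin r hr r) (fun m => by
      obtain ⟨a, b, _⟩ := ro' r m hr
      exact b.le.trans (Nat.le_mul_of_pos_left _ (Nat.pow_pos (by omega))))
    c1 (by rw [c5, c3]; exact t.2) (p2 σ α dir w s t θ x hα hp hx hm)
  have u : topv x (π x) (alg r r) ≤ 1 := by
    unfold topv
    split_ifs
    exacts [alg_le _ _ _, Nat.zero_le _]
  rw [c4, c5, c6] at q
  simp only [c8] at q
  rw [← q, bne_iff_ne]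
  omega

end Pool.Agent.MP_1a6d78_lc.DS
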