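import Pool.Agent.MP_1a6d78_lc.DS.Basic

/-! PROJECT DS, row AV: the chain of boxes with two list parameters is computable. -/

namespace Pool.Agent.MP_1a6d78_lc.DS

open Classical ED PR

namespace Av

/-- A family of box evaluators that is computable in substitution form. -/
def PF (κ : List Bool → ℕ) (F : List Bool → List ℕ → List ℕ → List ℕ → ℕ → ℕ → ℕ) : Prop :=
  ∀ (P I B : List Bool → Env → List ℕ) (i y : List Bool → Env → ℕ),
    Cm κ P → Cm κ I → Cm κ B → Cn κ i → Cn κ y →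
      Cn κ fun x ρ => F x (P x ρ) (I x ρ) (B x ρ) (i x ρ) (y x ρ)

section
variable {κ k : List Bool → ℕ} {F : List Bool → List ℕ → List ℕ → List ℕ → ℕ → ℕ → ℕ}

theorem bi_c (K1 : Kit1 κ) (K2 : Kit2 κ) (hκ : ∀ x, (k x + 1) ^ 3 ≤ κ x)
    (hk : Cn κ fun x _ => k x) (hF : PF κ F) {P I T : List Bool → Env → List ℕ}
    {j y : List Bool → Env → ℕ} (ho : Cm κ P) (hs : Cm κ I) (hT : Cm κ T) (hj : Cn κ j)
    (hy : Cn κ y) :
    Cn κ fun x ρ => bi (k x) (F x (P x ρ) (I x ρ)) (T x ρ) (j x ρ) (y x ρ) := by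
  refine K1.fold (n := fun x ρ => 1 + j x ρ * (k x - 1)) (z := fun _ _ => 0)
    (fun x ρ a acc => if F x (P x ρ) (I x ρ) (rowOf (k x) (T x ρ) acc) (j x ρ) (y x ρ) ≤
      F x (P x ρ) (I x ρ) (rowOf (k x) (T x ρ) a) (j x ρ) (y x ρ) then acc else a)
    (fun _ _ m => m) (K1.add (K1.const 1) (K2.mul hj (K1.sub hk (K1.const 1)))) (K1.const 0)
    ?_ (K1.hdv 0) ?_
  · exact K1.ile
      (hF _ _ _ _ _ (K1.tl (K1.tl ho)) (K1.tl (K1.tl hs))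
        (AlgV.row_c K1 K2 hκ hk (K1.tl (K1.tl hT)) (K1.hdv 0)) (K1.tlN (K1.tlN hj))
        (K1.tlN (K1.tlN hy)))
      (hF _ _ _ _ _ (K1.tl (K1.tl ho)) (K1.tl (K1.tl hs))
        (AlgV.row_c K1 K2 hκ hk (K1.tl (K1.tl hT)) (K1.hdv 1)) (K1.tlN (K1.tlN hj))
        (K1.tlN (K1.tlN hy)))
      (K1.hdv 0) (K1.hdv 1)
  · intro x ρ m acc b h1 h2
    split_ifs
    · exact h1
    · exact h2

theorem ts_c (K1 : Kit1 κ) (K2 : Kit2 κ) (hκ : ∀ x, (k x + 1) ^ 3 ≤ κ x)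
    (hk : Cn κ fun x _ => k x) (hF : PF κ F) {P I B T : List Bool → Env → List ℕ}
    {w j r : List Bool → Env → ℕ} (hw : Cn κ w) (ho : Cm κ P) (hs : Cm κ I) (hB : Cm κ B)
    (hT : Cm κ T) (hj : Cn κ j) (hr : Cn κ r) :
    Cn κ fun x ρ => ts (k x) (w x ρ) (F x (P x ρ) (I x ρ)) (B x ρ) (T x ρ) (j x ρ) (r x ρ) := by
  refine K1.sum (n := fun x _ => k x - 1)
    (fun x ρ t => if bi (k x) (F x (P x ρ) (I x ρ)) (T x ρ) (j x ρ)
      (gt (B x ρ) (j x ρ) + (t + 1) * w x ρ) + (t + 1) ≤ r x ρ then 1 else 0)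
    (K1.sub hk (K1.const 1)) ?_
  exact K1.ile
    (K1.add (bi_c K1 K2 hκ hk hF (K1.tl ho) (K1.tl hs) (K1.tl hT) (K1.tlN hj)
      (K1.add (K1.gt (K1.tl hB) (K1.tlN hj))
        (K2.mul (K1.add (K1.hdv 0) (K1.const 1)) (K1.tlN hw))))
      (K1.add (K1.hdv 0) (K1.const 1)))
    (K1.tlN hr) (K1.const 1) (K1.const 0)

theorem stp_c (K1 : Kit1 κ) (K2 : Kit2 κ) (hκ : ∀ x, (k x + 1) ^ 3 ≤ κ x)
    (hk : Cn κ fun x _ => k x) (hF : PF κ F) {P I B T : List Bool → Env → List ℕ}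
    {w j e : List Bool → Env → ℕ} (hw : Cn κ w) (ho : Cm κ P) (hs : Cm κ I) (hB : Cm κ B)
    (hT : Cm κ T) (hj : Cn κ j) (he : Cn κ e) :
    Cn κ fun x ρ => stp (k x) (w x ρ) (F x (P x ρ) (I x ρ)) (B x ρ) (T x ρ) (j x ρ) (e x ρ) := by
  have h := ts_c K1 K2 hκ hk hF hw ho hs hB hT hj (K2.div he hk)
  exact K2.ieq (K2.mod he hk) hj (K1.add (K1.gt hB hj) (K2.mul h hw))
    (K1.gt hT (K1.add (K2.mul (K1.sub (K2.div he hk) h) hk) (K2.mod he hk)))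

theorem tbl_c (K1 : Kit1 κ) (K2 : Kit2 κ) (hκ : ∀ x, (k x + 1) ^ 3 ≤ κ x)
    (hk : Cn κ fun x _ => k x) (hF : PF κ F) {P I B : List Bool → Env → List ℕ}
    {w i : List Bool → Env → ℕ} (hw : Cn κ w) (ho : Cm κ P) (hs : Cm κ I) (hB : Cm κ B)
    (hi : Cn κ i) :
    Cm κ fun x ρ => tbl (k x) (w x ρ) (F x (P x ρ) (I x ρ)) (B x ρ) (i x ρ) := by
  have hq : Cn κ fun x _ => (k x + 1) ^ 3 := K2.pow 3 (K1.add hk (K1.const 1))
  refine K1.foldL (n := i) (z := fun x _ => tab ((k x + 1) ^ 3) fun _ => 0)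
    (fun x ρ j T => tab ((k x + 1) ^ 3)
      (stp (k x) (w x ρ) (F x (P x ρ) (I x ρ)) (B x ρ) T j))
    (fun x ρ j => gt (B x ρ) j + k x * w x ρ) hi
    (K1.tab (n := fun x => (k x + 1) ^ 3) (fun _ _ _ => 0) hκ hq (K1.const 0)) ?_ ?_ ?_
  · refine K1.tab (n := fun x => (k x + 1) ^ 3)
      (fun x ρ e => stp (k x) (w x (tl (tl ρ))) (F x (P x (tl (tl ρ))) (I x (tl (tl ρ))))
        (B x (tl (tl ρ))) (ρ 0) (hd (ρ 1)) e) hκ hq ?_
    exact stp_c K1 K2 hκ hk hF (K1.tlN (K1.tlN (K1.tlN hw))) (K1.tl (K1.tl (K1.tl ho)))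
      (K1.tl (K1.tl (K1.tl hs))) (K1.tl (K1.tl (K1.tl hB))) (K1.tl (K1.var 0))
      (K1.tlN (K1.hdv 1)) (K1.hdv 0)
  · exact K1.add (K1.gt (K1.tl hB) (K1.hdv 0)) (K2.mul hk (K1.tlN hw))
  · intro x ρ m acc b h1 h2 a ha
    unfold tab at ha
    obtain ⟨e, -, rfl⟩ := List.mem_map.1 ha
    unfold stp
    split_ifs
    · exact le_trans (Nat.add_le_add_left
        (Nat.mul_le_mul_right _ (AlgV.ts_le _ _ _ _ _ _ _)) _) h2
    · exact AlgV.gt_le _ _ _ h1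

end

end Av

open Av in
theorem avS : AvS := by
  intro κ k d hκ hk hd t
  have K1 := kitOne κ
  have K2 := kitTwo κ
  have key : PF κ fun x P I => Val (k x) 0 (d x P I) t := by
    induction t with
    | zero =>
      intro P I B i y ho hs hB hi hy
      refine K1.sum (n := fun x ρ => i x ρ + 1)
        (fun x ρ j => d x (P x ρ) (I x ρ) j (if j = 0 then 0 else gt (B x ρ) (j - 1))
          (if j = i x ρ then y x ρ else gt (B x ρ) j)) (K1.add hi (K1.const 1)) ?_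
      exact hd _ _ _ _ _ (K1.tl ho) (K1.tl hs) (K1.hdv 0)
        (K2.ieq (K1.hdv 0) (K1.const 0) (K1.const 0)
          (K1.gt (K1.tl hB) (K1.sub (K1.hdv 0) (K1.const 1))))
        (K2.ieq (K1.hdv 0) (K1.tlN hi) (K1.tlN hy) (K1.gt (K1.tl hB) (K1.hdv 0)))
    | succ t ih =>
      intro P I B i y ho hs hB hi hy
      have hT := tbl_c K1 K2 hκ hk ih (K2.pow t hk) ho hs hB hi
      exact ih _ _ _ _ _ ho hs
        (AlgV.row_c K1 K2 hκ hk hT (bi_c K1 K2 hκ hk ih ho hs hT hi hy)) hi hy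
  intro P I B i y ho hs hB hi hy
  exact key P I B i y ho hs hB hi hy

end Pool.Agent.MP_1a6d78_lc.DS
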