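import Pool.Agent.MP_1a6d78_lc.DS.Spec

/-! PROJECT DS: basic facts on walks, distances and minima. -/

namespace Pool.Agent.MP_1a6d78_lc.DS

open Classical ED PR

variable {M : Mp} {w w' : ℕ → ℕ} {A A' : ℕ → Prop} {u v z c c' : ℕ}

theorem Wk.mem (h : Wk M w A u v c) : A u ∧ A v := by
  induction h with
  | nil k => exact ⟨k, k⟩
  | step _ _ _ _ _ k ih => exact ⟨ih.1, k⟩

theorem Wk.trans (h : Wk M w A u v c) (h' : Wk M w A v z c') : Wk M w A u z (c + c') := by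
  induction h' with
  | nil _ => exact h
  | step _ a b e e' k ih => exact Nat.add_assoc _ _ _ ▸ ih.step a b e e' k

theorem Wk.one {d : ℕ} (hd : d < M.n) (hb : M.β d ≠ d) (h1 : A (M.nd d))
    (h2 : A (M.nd (M.β d))) : Wk M w A (M.nd d) (M.nd (M.β d)) (w d) :=
  Nat.zero_add (w d) ▸ (Wk.nil h1).step hd hb rfl rfl h2

theorem Wk.mono (hA : ∀ x, A x → A' x) (h : Wk M w A u v c) : Wk M w A' u v c := by
  induction h with
  | nil k => exact .nil (hA _ k)
  | step _ a b e e' k ih => exact ih.step a b e e' (hA _ k)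

theorem Wk.toU (h : Wk M w A u v c) : Wk M w U u v c := h.mono fun _ _ => trivial

/-- A property closed under the edges holds along a walk. -/
theorem Wk.inv {P : ℕ → Prop} (h : Wk M w A u v c) (h0 : P u)
    (hs : ∀ d < M.n, M.β d ≠ d → A (M.nd d) → A (M.nd (M.β d)) → P (M.nd d) →
      P (M.nd (M.β d))) : P v ∧ Wk M w (fun x => A x ∧ P x) u v c := by
  induction h with
  | nil k => exact ⟨h0, .nil ⟨k, h0⟩⟩
  | step p a b e e' k ih =>
    subst e e'
    have := hs _ a b p.mem.2 k ih.1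
    exact ⟨this, ih.2.step a b rfl rfl ⟨k, this⟩⟩

theorem Wk.cg (hw : ∀ d < M.n, M.β d ≠ d → A (M.nd d) → A (M.nd (M.β d)) → w d = w' d)
    (h : Wk M w A u v c) : Wk M w' A u v c := by
  induction h with
  | nil k => exact .nil k
  | step p a b e e' k ih =>
    subst e e'
    exact hw _ a b p.mem.2 k ▸ ih.step a b rfl rfl k

theorem Wk.symm (hi : Iv M.n M.β) (hw : ∀ d < M.n, M.β d ≠ d → w (M.β d) = w d)
    (h : Wk M w A u v c) : Wk M w A v u c := by
  induction h with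
  | nil k => exact .nil k
  | @step v v' c d p a b e e' k ih =>
    subst e e'
    have o : Wk M w A (M.nd (M.β d)) (M.nd (M.β (M.β d))) (w (M.β d)) :=
      Wk.one (hi d a).1 (by rw [(hi d a).2]; exact b.symm) k (by rw [(hi d a).2]; exact p.mem.2)
    rw [(hi d a).2, hw d a b] at o
    exact Nat.add_comm _ _ ▸ o.trans ih

/-- Passage to smaller weights. -/
theorem Wk.wle {a : ℕ} (hw : ∀ d < M.n, M.β d ≠ d → a * w d ≤ w' d) (h : Wk M w' A u v c') :
    ∃ c, Wk M w A u v c ∧ a * c ≤ c' := by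
  induction h with
  | nil k => exact ⟨0, .nil k, by simp⟩
  | @step v v' c d _ p b e e' k ih =>
    obtain ⟨c0, i1, i2⟩ := ih
    exact ⟨c0 + w d, i1.step p b e e' k, by have := hw d p b; rw [Nat.mul_add]; omega⟩

theorem Rc.wt (w' : ℕ → ℕ) (h : Rc M w A u v) : Rc M w' A u v :=
  h.elim fun _ k => (Wk.wle (a := 0) (w := w') (fun _ _ _ => by simp) k).imp fun _ k => k.1

theorem Wk.lt (hi : Iv M.n M.β) (h : Wk M w A u v c) (hu : u < M.n) : v < M.n := by
  cases h with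
  | nil _ => exact hu
  | step _ a _ _ e' _ => exact e' ▸ (Mp.nd_spec (hi _ a).1).1

/-- The last exit from the first vertex. -/
theorem Wk.exit (h : Wk M w A u v c) : u = v ∨ ∃ d c', d < M.n ∧ M.β d ≠ d ∧ M.nd d = u ∧
    Wk M w (fun x => A x ∧ x ≠ u) (M.nd (M.β d)) v c' ∧ w d + c' ≤ c := by
  induction h with
  | nil _ => exact Or.inl rfl
  | @step v v' c d _ a b e e' k ih =>
    by_cases q : u = v'
    · exact Or.inl q
    · rcases ih with rfl | ⟨d0, c0, i1, i2, i3, i4, i5⟩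
      · exact Or.inr ⟨d, 0, a, b, e, e' ▸ .nil (e' ▸ ⟨k, Ne.symm q⟩), by omega⟩
      · exact Or.inr ⟨d0, c0 + w d, i1, i2, i3, i4.step a b e e' ⟨k, Ne.symm q⟩, by omega⟩

/-- A walk may be taken with fewer than `n` edges. -/
theorem Wk.hop (hi : Iv M.n M.β) {a b : ℕ} (hw : ∀ d < M.n, M.β d ≠ d → w' d ≤ a * w d + b)
    (h : Wk M w A u v c) (hu : u < M.n) : ∃ c', Wk M w' A u v c' ∧ c' ≤ a * c + b * (M.n - 1) := by
  have key : ∀ m (A : ℕ → Prop) u c, cnt M.n A ≤ m + 1 → u < M.n → Wk M w A u v c →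
      ∃ c', Wk M w' A u v c' ∧ c' ≤ a * c + b * m := by
    intro m
    induction m with
    | zero =>
      intro A u c k hu h
      rcases h.exit with rfl | ⟨d, c0, i1, _, _, i4, _⟩
      · exact ⟨0, .nil h.mem.1, Nat.zero_le _⟩
      · have l1 := cnt_lt (P := fun x => A x ∧ x ≠ u) (fun _ _ k => k.1) hu h.mem.1 fun k => k.2 rfl
        have l2 := cnt_pos (P := fun x => A x ∧ x ≠ u) (Mp.nd_spec (hi d i1).1).1 i4.mem.1
        omega
    | succ m ih =>
      intro A u c k hu h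
      rcases h.exit with rfl | ⟨d, c0, i1, i2, rfl, i4, i5⟩
      · exact ⟨0, .nil h.mem.1, Nat.zero_le _⟩
      · have l1 := cnt_lt (P := fun x => A x ∧ x ≠ M.nd d) (fun _ _ k => k.1) hu h.mem.1
          fun k => k.2 rfl
        obtain ⟨c1, j1, j2⟩ := ih _ _ _ (by omega) (Mp.nd_spec (hi d i1).1).1 i4
        refine ⟨w' d + c1, (Wk.one i1 i2 h.mem.1 i4.mem.1.1).trans (j1.mono fun _ k => k.1), ?_⟩
        have := hw d i1 i2
        have := Nat.mul_le_mul_left a i5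
        rw [Nat.mul_add] at this
        rw [Nat.mul_succ]
        omega
  exact key _ A u c ((cnt_le _ _).trans (by omega)) hu h

theorem ds_spec (h : Rc M w A u v) : Wk M w A u v (ds M w A u v) :=
  Nat.sInf_mem (s := {c | Wk M w A u v c}) h

theorem ds_le (h : Wk M w A u v c) : ds M w A u v ≤ c :=
  Nat.sInf_le (s := {c | Wk M w A u v c}) h

theorem ds_self (h : A u) : ds M w A u u = 0 := Nat.le_zero.1 (ds_le (.nil h))

theorem ds_bnd (hi : Iv M.n M.β) {m : ℕ} (hw : ∀ d < M.n, M.β d ≠ d → w d ≤ m)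
    (h : Rc M w A u v) (hu : u < M.n) : ds M w A u v ≤ m * (M.n - 1) := by
  obtain ⟨c', k, k'⟩ := (ds_spec h).hop hi (w' := w) (a := 0) (b := m)
    (fun d a b => by have := hw d a b; omega) hu
  have := ds_le k
  omega

theorem mnv_spec {n : ℕ} {P : ℕ → Prop} (c : ℕ → ℕ) (h : ∃ q < n, P q) :
    (∃ q < n, P q ∧ mnv n P c = c q) ∧ ∀ q < n, P q → mnv n P c ≤ c q := by
  obtain ⟨q, h1, h2⟩ := h
  obtain ⟨m, k1, k2⟩ := Finset.exists_min_image ((Finset.range n).filter P) c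
    ⟨q, Finset.mem_filter.2 ⟨Finset.mem_range.2 h1, h2⟩⟩
  rw [Finset.mem_filter, Finset.mem_range] at k1
  have := lst_spec (P := fun q => P q ∧ ∀ q' < n, P q' → c q ≤ c q') ⟨m, k1.1, k1.2,
    fun q' a b => k2 q' (Finset.mem_filter.2 ⟨Finset.mem_range.2 a, b⟩)⟩
  exact ⟨⟨_, this.1, this.2.1, rfl⟩, this.2.2⟩

variable {W : ℕ}

theorem Wok.symm (h : Wok M w W) {d : ℕ} (hd : d < M.n) (hb : M.β d ≠ d) : w (M.β d) = w d :=
  (h.par d hd _ (h.ok.iv d hd).1 hb (by rw [(h.ok.iv d hd).2]; exact hb.symm)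
    (by rw [(h.ok.iv d hd).2]) rfl).symm

theorem Wok.same (h : Wok M w W) {d e : ℕ} (hd : d < M.n) (he : e < M.n) (hb : M.β d ≠ d)
    (hc : M.β e ≠ e) (e1 : M.nd d = M.nd e) (e2 : M.nd (M.β d) = M.nd (M.β e)) : w d = w e :=
  (h.par d hd _ (h.ok.iv e he).1 hb (by rw [(h.ok.iv e he).2]; exact hc.symm)
    (by rw [(h.ok.iv e he).2]; exact e1) e2).trans (h.symm he hc)

theorem Wok.Wpos (h : Wok M w W) : 0 < W := (Nat.zero_le _).trans_lt (h.big _ h.ok.s)

theorem Wok.max (h : Wok M w W) : ∃ m, (∀ d < M.n, w d ≤ m) ∧ M.n * m < W := by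
  obtain ⟨d, k1, k2⟩ := Finset.exists_max_image (Finset.range M.n) w
    ⟨_, Finset.mem_range.2 h.ok.s⟩
  exact ⟨w d, fun e he => k2 e (Finset.mem_range.2 he), h.big d (Finset.mem_range.1 k1)⟩

/-- Live vertices are closed under the edges. -/
theorem Wok.clo (h : Wok M w W) {f : Fo} (hf : M.Fit f) {d : ℕ} (hd : d < M.n)
    (hl : f.live (M.nd d)) : f.live (M.nd (M.β d)) :=
  hf.1.clo _ _ hl ⟨d, hd, h.dir d, rfl, rfl⟩

theorem Wok.live (h : Wok M w W) {f : Fo} (hf : M.Fit f) (k : Wk M w' A u v c) (hu : f.live u) :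
    f.live v := (k.inv hu fun _ a _ _ _ b => h.clo hf a b).1

/-- Two vertices of the component of the source are joined. -/
theorem Wok.rc (h : Wok M w W) {s : ℕ} (hu : Rc M w U s u) (hv : Rc M w U s v) : Rc M w U u v :=
  hu.elim fun _ a => hv.elim fun _ b => ⟨_, (a.symm h.ok.iv fun _ p q => h.symm p q).trans b⟩

theorem df_comm (a b : ℕ) : df a b = df b a := Nat.add_comm _ _

theorem df_self (a : ℕ) : df a a = 0 := by simp [df]

theorem df_le {a b : ℕ} (h : a ≤ b) : df a b = b - a := by unfold df; omega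

theorem df_ge {a b : ℕ} (h : b ≤ a) : df a b = a - b := by unfold df; omega

namespace Sk

variable {S : Sk}

theorem sam.refl (h : S.K u) : S.sam u u := ⟨h, h, rfl, rfl, rfl⟩

theorem sam.symm (h : S.sam u v) : S.sam v u :=
  ⟨h.2.1, h.1, h.2.2.1.symm, h.2.2.2.1.symm, h.2.2.2.2.symm⟩

theorem sam.trans (h : S.sam u v) (k : S.sam v z) : S.sam u z :=
  ⟨h.1, k.2.1, h.2.2.1.trans k.2.2.1, h.2.2.2.1.trans k.2.2.2.1, h.2.2.2.2.trans k.2.2.2.2⟩

theorem Fp.fa (h : S.Fp u z) : S.Fa u z := le_of_lt h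

theorem Kt0.gam_eq (h : S.Kt0) {d : ℕ} (hd : d < S.M.n) (k : S.gam d ≠ d) : S.gam d = S.M.β d :=
  (h.sb d hd).resolve_left k

theorem BlkK.lt (h : S.BlkK) {a b : ℕ} (k : S.blk a < S.blk b) : S.pos a < S.pos b :=
  lt_of_not_ge fun e => absurd (h.mono b a e) k.not_ge

end Sk

theorem gt_tb {n e : ℕ} (f : ℕ → ℕ) (h : e < n) : gt (tab n f) e = f e := by
  simp [gt, tab, List.getD_eq_getElem?_getD, h]

theorem gt_tb' {n e : ℕ} (f : ℕ → ℕ) (h : n ≤ e) : gt (tab n f) e = 0 := by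
  simp [gt, tab, List.getD_eq_getElem?_getD, h]

theorem tab_cg {n : ℕ} {f g : ℕ → ℕ} (h : ∀ i < n, f i = g i) : tab n f = tab n g :=
  List.map_congr_left fun i k => h i (List.mem_range.1 k)

theorem enc_zero {k : ℕ} (l : List ℕ) (h : 0 < k) : gt (enc k l) 0 = l.length := gt_tb _ h

theorem enc_pre {k : ℕ} {l : List ℕ} (h : l.length < k) : Sk.Pre (enc k l) l := fun j hj =>
  gt_tb _ (by omega)

variable {b : List Bool → ℕ} {P Q : (List Bool → ℕ) → Prop}

theorem Ev.all (h : ∀ κ, P κ) : Ev b P := ⟨0, fun κ _ => h κ⟩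

theorem Ev.imp (h : Ev b P) (k : ∀ κ, (∀ x, b x ≤ κ x) → P κ → Q κ) : Ev b Q :=
  h.elim fun A p => ⟨A + 1, fun κ e =>
    k κ (fun x => by have := e x; rw [Nat.succ_mul] at this; omega)
      (p κ fun x => by have := e x; rw [Nat.succ_mul] at this; omega)⟩

theorem Ev.and (h : Ev b P) (k : Ev b Q) : Ev b fun κ => P κ ∧ Q κ :=
  h.elim fun A p => k.elim fun A' q => ⟨A + A', fun κ e =>
    ⟨p κ fun x => by have := e x; rw [Nat.add_mul] at this; omega,
      q κ fun x => by have := e x; rw [Nat.add_mul] at this; omega⟩⟩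

theorem Ev.base {b' : List Bool → ℕ} (h : Ev b P) (k : ∀ x, b x ≤ b' x) : Ev b' P :=
  h.elim fun A p => ⟨A, fun κ e => p κ fun x => (Nat.mul_le_mul_left _ (k x)).trans (e x)⟩

end Pool.Agent.MP_1a6d78_lc.DS
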