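import Pool.Agent.MP_1a6d78_lc.DS.Basic

/-! PROJECT DS: the Bellman equations on the skeleton. -/

namespace Pool.Agent.MP_1a6d78_lc.DS

open Classical ED PR

namespace Bell

variable {S : Sk} {r μ : ℕ}

theorem wp_le (d : ℕ) : S.wp d ≤ S.N * S.w d + 1 := by
  unfold Sk.wp Sk.w1
  split_ifs <;> omega

theorem le_wp (d : ℕ) : S.N * S.w d ≤ S.wp d := by
  unfold Sk.wp Sk.w1
  split_ifs <;> omega

theorem wp_fix {d : ℕ} (h : S.gam d = d) : S.wp d = S.w1 d := if_pos h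

theorem wp_mov {d : ℕ} (h : S.gam d ≠ d) : S.wp d = S.N * S.w d := if_neg h

theorem rc (ok : S.Ok r μ) {v : ℕ} (h : S.f.live v) : Rc S.M S.wp U (S.M.nd S.M.s) v :=
  (ok.comp v h).wt _

theorem bnd (ok : S.Ok r μ) {v : ℕ} (h : S.f.live v) :
    S.N * S.D (S.M.nd S.M.s) v ≤ S.F v ∧ S.F v < S.N * S.D (S.M.nd S.M.s) v + S.N := by
  constructor
  · obtain ⟨c, h1, h2⟩ := (ds_spec (rc ok h)).wle (a := S.N) (w := S.w) fun d _ _ => le_wp d
    exact (Nat.mul_le_mul_left _ (ds_le h1)).trans h2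
  · obtain ⟨c, h1, h2⟩ := (ds_spec (ok.comp v h)).hop ok.wok.ok.iv (w' := S.wp) (a := S.N) (b := 1)
      (fun d _ _ => wp_le d) (Mp.nd_spec ok.wok.ok.s).1
    have h3 : S.F v ≤ c := ds_le h1
    have h4 : S.N = S.M.n + 1 := rfl
    unfold Sk.D
    omega

theorem wk (ok : S.Ok r μ) {u v c : ℕ} (hu : S.f.live u) (h : Wk S.M S.wp U u v c) :
    S.F v ≤ S.F u + c := ds_le ((ds_spec (rc ok hu)).trans h)

theorem back (ok : S.Ok r μ) (kt : S.Kt0) {d : ℕ} (hd : d < S.M.n) (hb : S.M.β d ≠ d) :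
    Wk S.M S.wp U (S.M.nd (S.M.β d)) (S.M.nd d) (S.wp d) :=
  (Wk.one hd hb trivial trivial).symm ok.wok.ok.iv kt.wps

theorem lg (ok : S.Ok r μ) (kt : S.Kt0) {a b c : ℕ} (h : S.Lg a b c) :
    S.F (S.M.nd b) ≤ S.F (S.M.nd a) + c := by
  obtain ⟨pa, pb, h⟩ := h
  have o : Wk S.M S.wp U (S.M.nd a) (S.M.nd (S.M.β a)) (S.wp a) :=
    Wk.one pa.1 pa.2.2.2 trivial trivial
  rw [wp_fix pa.2.2.1] at o
  refine wk ok (kt.live _ pa.2.1).1 ?_
  rcases h with ⟨rfl, rfl⟩ | ⟨c', h, rfl⟩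
  · exact o
  · have o2 := back ok kt pb.1 pb.2.2.2
    rw [wp_fix pb.2.2.1] at o2
    exact (o.trans (h.cg (w' := S.wp) fun d _ _ k _ =>
      (wp_fix (by_contra fun e => k (kt.gk d e).1)).symm).toU).trans o2

theorem tg_of (ok : S.Ok r μ) (kt : S.Kt0) (ls : S.LsK) {a b c : ℕ} (h : S.Lg a b c)
    (e : S.F (S.M.nd a) + c = S.F (S.M.nd b)) : S.tg S.F a b := by
  obtain ⟨h1, h2⟩ := ls.le a b c h
  have h3 := lg ok kt (ls.lg a b h.1 h.2.1 h1)
  exact ⟨h.1, h.2.1, h1, by omega⟩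

theorem ex (ok : S.Ok r μ) (kt : S.Kt0) (ls : S.LsK) {v c : ℕ}
    (h : Wk S.M S.wp U (S.M.nd S.M.s) v c) (e : c = S.F v) :
    (S.K v → v = S.M.nd S.M.s ∨ S.sl S.F v ∨
      ∃ a < S.M.n, ∃ b < S.M.n, S.M.nd b = v ∧ S.tg S.F a b) ∧
    (¬S.K v → ∃ a c', S.port a ∧ Wk S.M S.w1 (fun z => ¬S.K z) (S.M.nd (S.M.β a)) v c' ∧
      S.F (S.M.nd a) + S.w1 a + c' = S.F v) := by
  induction h with
  | nil _ => exact ⟨fun _ => Or.inl rfl, fun k => absurd ((kt.K _).2 ⟨_, ok.xs, 0, rfl⟩) k⟩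
  | @step v v' c d p hd hb e1 e2 _ ih =>
    subst e1 e2
    have iv := ok.wok.ok.iv d hd
    have l0 : S.f.live (S.M.nd d) := ok.wok.live ok.fit p (ok.xl _ ok.xs)
    have a1 : S.F (S.M.nd d) ≤ c := ds_le p
    have a2 := wk ok l0 (Wk.one (w := S.wp) (A := U) hd hb trivial trivial)
    have ec : c = S.F (S.M.nd d) := by omega
    have ws := ok.wok.symm hd hb
    by_cases hg : S.gam d = d
    · have hg' : S.gam (S.M.β d) = S.M.β d := by
        by_contra k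
        have k1 := kt.gam_eq iv.1 k
        have k2 := (kt.iv _ iv.1).2
        rw [k1, iv.2, hg] at k2
        exact hb k2.symm
      have w1s : S.w1 (S.M.β d) = S.w1 d := by unfold Sk.w1; rw [ws]
      have pb : S.K (S.M.nd (S.M.β d)) → S.port (S.M.β d) := fun k =>
        ⟨iv.1, k, hg', by rw [iv.2]; exact hb.symm⟩
      rw [wp_fix hg] at e
      by_cases k0 : S.K (S.M.nd d)
      · have pa : S.port d := ⟨hd, k0, hg, hb⟩
        exact ⟨fun k => Or.inr (Or.inr ⟨d, hd, _, iv.1, rfl,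
          tg_of ok kt ls ⟨pa, pb k, Or.inl ⟨rfl, rfl⟩⟩ (by omega)⟩),
          fun k => ⟨d, 0, pa, .nil k, by omega⟩⟩
      · obtain ⟨a, c', pa, q, eq⟩ := (ih ec).2 k0
        refine ⟨fun k => Or.inr (Or.inr ⟨a, pa.1, _, iv.1, rfl,
          tg_of ok kt ls ⟨pa, pb k, Or.inr ⟨c', by rw [iv.2]; exact q, rfl⟩⟩ (by omega)⟩),
          fun k => ⟨a, c' + S.w1 d, pa, q.step hd hb rfl rfl k, by omega⟩⟩
    · have g1 := kt.gam_eq hd hg
      have g2 := (kt.iv d hd).2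
      have g3 := (kt.gk d hg).2
      rw [g1] at g2 g3
      rw [wp_mov hg] at e
      refine ⟨fun _ => Or.inr (Or.inl ⟨_, iv.1, rfl, by rw [g2]; exact hb.symm, ?_⟩),
        fun k => absurd g3 k⟩
      rw [g2, ws]
      omega

end Bell

open Bell in
theorem bellS : BellS := by
  intro S r μ ok kt ls
  refine ⟨fun v h => ?_, ds_self trivial, fun u v c hu h => wk ok hu h, fun d hd hg => ?_,
    fun a b c h => lg ok kt h, fun z k hz => ?_, fun v h => ?_⟩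
  · obtain ⟨m, h1, h2⟩ := ok.wok.max
    have h3 := ds_bnd ok.wok.ok.iv (fun d a _ => h1 d a) (ok.comp v h) (Mp.nd_spec ok.wok.ok.s).1
    have h4 : S.D (S.M.nd S.M.s) v ≤ S.W :=
      h3.trans ((Nat.mul_le_mul_left _ (Nat.sub_le _ _)).trans (by rw [Nat.mul_comm]; exact h2.le))
    have h5 := Nat.mul_le_mul_left S.N h4
    have h6 := (bnd ok h).2
    have h7 := ok.Z
    omega
  · have g1 := kt.gam_eq hd hg
    have hb : S.M.β d ≠ d := g1 ▸ hg
    have g3 := (kt.gk d hg).2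
    have o := back ok kt hd hb
    rw [wp_mov hg, ← g1] at o
    exact ⟨wk ok (kt.live _ g3).1 o, Nat.mul_pos (Nat.succ_pos _) (ok.wok.pos d hd hb)⟩
  · exact ((ex ok kt ls (ds_spec (rc ok (kt.live _ k).1)) rfl).1 k).resolve_left hz
  · obtain ⟨h1, h2⟩ := bnd ok h
    refine Nat.div_eq_of_lt_le ?_ ?_
    · rw [Nat.mul_comm]; exact h1
    · rw [Nat.succ_mul, Nat.mul_comm]; exact h2

end Pool.Agent.MP_1a6d78_lc.DS
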