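import Pool.Agent.MP_1a6d78_lc.DS.Basic

/-! PROJECT DS, row BLK1: the ports of a block lie on one side of one class. -/

namespace Pool.Agent.MP_1a6d78_lc.DS

open Classical ED PR

namespace Blk1

variable {S : Sk}

/-- What is kept along a run without cuts. -/
def Rel (S : Sk) (a d : ℕ) : Prop :=
  d < S.M.n ∧ S.K (S.M.nd d) ∧ ((S.sp (S.M.nd a) ∧ S.M.nd d = S.M.nd a) ∨
    (¬S.sp (S.M.nd a) ∧ ¬S.sp (S.M.nd d) ∧ S.sam (S.M.nd d) (S.M.nd a) ∧ (S.dn d ↔ S.dn a) ∧
      (S.dn a → S.hp a ≤ S.hp d) ∧ (¬S.dn a → S.hp d ≤ S.hp a)))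

theorem base {a : ℕ} (ha : a < S.M.n) (hk : S.K (S.M.nd a)) : Rel S a a := by
  refine ⟨ha, hk, ?_⟩
  by_cases q : S.sp (S.M.nd a)
  · exact Or.inl ⟨q, rfl⟩
  · exact Or.inr ⟨q, q, Sk.sam.refl hk, Iff.rfl, fun _ => le_rfl, fun _ => le_rfl⟩

theorem step (h : S.KtK) (k : S.SideK) {a d : ℕ} (r : Rel S a d) (hc : ¬S.cut d) :
    Rel S a (S.psi d) := by
  obtain ⟨hd, hk, r⟩ := r
  have p := h.psi d hd
  rcases r with ⟨r1, r2⟩ | ⟨r1, r2, r3, r4, r5, r6⟩
  · have g : S.gam d = d := by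
      by_contra g
      exact hc ⟨g, Or.inl (by rw [r2]; exact r1)⟩
    have e : S.M.nd (S.psi d) = S.M.nd d := by rw [p.2, g]
    exact ⟨p.1, by rw [e]; exact hk, Or.inl ⟨r1, e.trans r2⟩⟩
  · obtain ⟨s1, s2, s3, s4, s5⟩ := k.step d hd hk r2 hc
    exact ⟨p.1, s3.1, Or.inr ⟨r1, s2, s3.trans r3, s1.trans r4,
      fun q => (r5 q).trans (s4 (r4.2 q)), fun q => (s5 fun q' => q (r4.1 q')).trans (r6 q)⟩⟩

theorem key (h : S.KtK) (k : S.SideK) {a b : ℕ} (ha : S.port a) (hb : S.port b)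
    (e : S.blk a = S.blk b) (l : S.pos a ≤ S.pos b) : Rel S a b := by
  obtain ⟨t, t1, t2⟩ := h.run a ha.1 b hb.1 ha.2.1 hb.2.1 l
  have all : ∀ s ≤ t, Rel S a (S.psi^[s] a) := by
    intro s
    induction s with
    | zero => exact fun _ => base ha.1 ha.2.1
    | succ s ih =>
      intro hs
      have r := ih (by omega)
      rw [Function.iterate_succ_apply']
      refine step h k r fun hc => ?_
      have u1 := t2 s (by omega)
      have u2 := t2 t le_rfl
      rw [t1] at u2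
      have lt : S.blk a < S.blk b :=
        cnt_lt (P := fun e => S.cut e ∧ S.pos e < S.pos a)
          (Q := fun e => S.cut e ∧ S.pos e < S.pos b)
          (fun _ _ q => ⟨q.1, q.2.trans_le l⟩) r.1 ⟨hc, by omega⟩ fun q => by
            have := q.2
            omega
      omega
  have := all t le_rfl
  rw [t1] at this
  exact this

theorem same (h : S.KtK) (k : S.SideK) {a b : ℕ} (ha : S.port a) (hb : S.port b)
    (e : S.blk a = S.blk b) (p : ¬S.sp (S.M.nd a)) (q : ¬S.sp (S.M.nd b)) (d : S.dn a) :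
    S.dn b := by
  rcases le_total (S.pos a) (S.pos b) with l | l
  · rcases (key h k ha hb e l).2.2 with r | r
    · exact absurd r.1 p
    · exact r.2.2.2.1.2 d
  · rcases (key h k hb ha e.symm l).2.2 with r | r
    · exact absurd r.1 q
    · exact r.2.2.2.1.1 d

end Blk1

open Blk1

theorem blkS : BlkS := by
  intro S h k
  refine ⟨fun a b l => cnt_mono fun _ _ q => ⟨q.1, q.2.trans_le l⟩, fun a b ha hb e s => ?_,
    fun a b ha hb e => ?_, fun A => ?_⟩
  · rcases le_total (S.pos a) (S.pos b) with l | l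
    · rcases (key h k ha hb e l).2.2 with r | r
      · exact r.2
      · exact absurd s r.1
    · rcases (key h k hb ha e.symm l).2.2 with r | r
      · exact r.2.symm
      · exact absurd s r.2.1
  · rcases le_total (S.pos a) (S.pos b) with l | l
    · rcases (key h k ha hb e l).2.2 with r | r
      · rw [r.2]
        exact Sk.sam.refl ha.2.1
      · exact r.2.2.1.symm
    · rcases (key h k hb ha e.symm l).2.2 with r | r
      · rw [r.2]
        exact Sk.sam.refl hb.2.1
      · exact r.2.2.1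
  · by_cases x : ∃ a0, S.port a0 ∧ S.blk a0 = A ∧ ¬S.sp (S.M.nd a0) ∧ S.dn a0
    · obtain ⟨a0, x1, x2, x3, x4⟩ := x
      refine Or.inl fun a _ b _ ha hb e1 e2 l => ?_
      rcases (key h k ha hb (e1.trans e2.symm) l).2.2 with r | r
      · unfold Sk.hp
        rw [r.2]
      · exact r.2.2.2.2.1 (same h k x1 ha (x2.trans e1.symm) x3 r.1 x4)
    · refine Or.inr fun a _ b _ ha hb e1 e2 l => ?_
      rcases (key h k ha hb (e1.trans e2.symm) l).2.2 with r | r
      · unfold Sk.hp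
        rw [r.2]
      · exact r.2.2.2.2.2 fun d => x ⟨a, ha, e1, r.1, d⟩

end Pool.Agent.MP_1a6d78_lc.DS
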