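import Pool.Agent.MP_1a6d78_lc.DS.Basic

/-! PROJECT DS, row BLK3: a class has two sides. -/

namespace Pool.Agent.MP_1a6d78_lc.DS

open Classical ED PR

namespace Blk3L

variable {S : Sk}

/-- Before the first cut the side, the class and the count of positions are kept. -/
theorem keep (hK : S.Kt0) (hS : S.SideK) {a : ℕ} (ha : a < S.M.n) (k : S.K (S.M.nd a))
    (hs : ¬S.sp (S.M.nd a)) (t : ℕ) (h : ∀ s < t, ¬S.cut (S.psi^[s] a)) :
    S.psi^[t] a < S.M.n ∧ ¬S.sp (S.M.nd (S.psi^[t] a)) ∧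
      S.sam (S.M.nd (S.psi^[t] a)) (S.M.nd a) ∧ (S.dn (S.psi^[t] a) ↔ S.dn a) ∧
      S.pos (S.psi^[t] a) = S.pos a + t := by
  induction t with
  | zero => exact ⟨ha, hs, .refl k, Iff.rfl, rfl⟩
  | succ t ih =>
    obtain ⟨i1, i2, i3, i4, i5⟩ := ih fun s e => h s (by omega)
    obtain ⟨j1, j2, j3, -⟩ := hS.step _ i1 i3.1 i2 (h t (by omega))
    rw [Function.iterate_succ_apply']
    refine ⟨(hK.psi _ i1).1, j2, j3.trans i3, j1.trans i4, ?_⟩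
    rcases hK.succ _ i1 i3.1 with e | e
    · omega
    · exact absurd ⟨j3.1, Or.inl (Or.inl e)⟩ j2

theorem first (hM : S.M.Ok) (hK : S.Kt0) (hS : S.SideK) {a : ℕ} (ha : a < S.M.n)
    (k : S.K (S.M.nd a)) (hs : ¬S.sp (S.M.nd a)) :
    ∃ t, S.cut (S.psi^[t] a) ∧ ∀ s < t, ¬S.cut (S.psi^[s] a) := by
  have h : ∃ t, S.cut (S.psi^[t] a) := by
    by_contra h
    obtain ⟨p, p0, e⟩ := Pm.period (f := S.psi) (hM.pm.comp hK.iv.pm) ha
    have := (keep hK hS ha k hs p fun s _ c => h ⟨s, c⟩).2.2.2.2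
    rw [e] at this
    omega
  exact ⟨Nat.find h, Nat.find_spec h, fun s e => Nat.find_min h e⟩

theorem same (hM : S.M.Ok) (hK : S.KtK) (hS : S.SideK) {a b : ℕ} (ha : a < S.M.n) (hb : b < S.M.n)
    (sa : ¬S.sp (S.M.nd a)) (sb : ¬S.sp (S.M.nd b)) (h : S.sam (S.M.nd a) (S.M.nd b))
    (hd : S.dn a ↔ S.dn b) (hp : S.pos a ≤ S.pos b) : S.blk a = S.blk b := by
  obtain ⟨t, c1, c2⟩ := first hM hK.toKt0 hS ha h.1 sa
  obtain ⟨u, d1, d2⟩ := first hM hK.toKt0 hS hb h.2.1 sb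
  obtain ⟨i1, i2, i3, i4, i5⟩ := keep hK.toKt0 hS ha h.1 sa t c2
  obtain ⟨j1, j2, j3, j4, j5⟩ := keep hK.toKt0 hS hb h.2.1 sb u d2
  have e := hS.fin _ i1 _ j1 i2 j2 c1 d1 ((i3.trans h).trans j3.symm) ((i4.trans hd).trans j4.symm)
  rw [e] at i5
  refine cnt_congr fun e he => ⟨fun k => ⟨k.1, by omega⟩, fun k => ⟨k.1, lt_of_not_ge fun q => ?_⟩⟩
  obtain ⟨s, s1, s2⟩ := hK.run a ha e he h.1 (hK.gk e k.1.1).1 q
  have := s2 s le_rfl
  rw [s1] at this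
  exact c2 s (by omega) (s1 ▸ k.1)

theorem same' (hM : S.M.Ok) (hK : S.KtK) (hS : S.SideK) {a b : ℕ} (ha : a < S.M.n)
    (hb : b < S.M.n) (sa : ¬S.sp (S.M.nd a)) (sb : ¬S.sp (S.M.nd b))
    (h : S.sam (S.M.nd a) (S.M.nd b)) (hd : S.dn a ↔ S.dn b) : S.blk a = S.blk b :=
  (le_total (S.pos a) (S.pos b)).elim (same hM hK hS ha hb sa sb h hd)
    fun k => (same hM hK hS hb ha sb sa h.symm hd.symm k).symm

end Blk3L

theorem blk3S : Blk3S := by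
  intro S r μ hO hK hS a b c pa pb pc sa sb sc h1 h2
  by_cases e1 : S.dn a ↔ S.dn b
  · exact Or.inl (Blk3L.same' hO.wok.ok hK hS pa.1 pb.1 sa sb h1 e1)
  by_cases e2 : S.dn a ↔ S.dn c
  · exact Or.inr (Or.inl (Blk3L.same' hO.wok.ok hK hS pa.1 pc.1 sa sc h2 e2))
  · exact Or.inr (Or.inr (Blk3L.same' hO.wok.ok hK hS pb.1 pc.1 sb sc (h1.symm.trans h2)
      (by tauto)))

end Pool.Agent.MP_1a6d78_lc.DS
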