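import Pool.Agent.MP_1a6d78_lc.DS.Basic

/-! PROJECT DS, row BLKN: the number of blocks. -/

namespace Pool.Agent.MP_1a6d78_lc.DS

open Classical ED PR

namespace BlkNP

variable {S : Sk} {r μ : ℕ}

/-- The lower ends of the tree edges with a special end. -/
def Lo (S : Sk) (u : ℕ) : Prop :=
  S.K u ∧ S.f.par u ≠ u ∧ (S.sp u ∨ S.sp (S.f.par u))

theorem lo_top (kt : S.Kt0) {u : ℕ} (h : Lo S u) (hs : ¬S.sp u) :
    S.sam (S.f.par u) u ∧ S.top (S.f.par u) := by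
  obtain ⟨hK, hp, h3⟩ := h
  have hsam : S.sam (S.f.par u) u := by
    by_contra k
    exact hs ⟨hK, Or.inl (Or.inr k)⟩
  refine ⟨hsam, ?_⟩
  rcases (h3.resolve_left hs).2 with t | b
  · exact t
  · exact absurd ⟨u, (kt.live u hK).2.1, hp.symm, rfl, hsam.symm⟩ b

theorem lo_cnt (ok : S.Ok r μ) (kt : S.Kt0) (key : S.KeyK) (ln : S.LineK r μ) :
    cnt S.M.n (Lo S) ≤ 3 * (μ * (μ + 1) * r) := by
  have h1 : cnt S.M.n (Lo S) ≤ cnt S.M.n fun u => S.sp u ∨ (Lo S u ∧ ¬S.sp u) :=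
    cnt_mono fun a _ k => by
      by_cases q : S.sp a
      · exact Or.inl q
      · exact Or.inr ⟨k, q⟩
  have h2 := cnt_or S.M.n S.sp fun u => Lo S u ∧ ¬S.sp u
  have lt : ∀ u, Lo S u → S.f.ht (S.f.par u) < S.f.ht u := fun u k =>
    (ok.fit.1.par u (kt.live u k.1).1 k.2.1).2.2
  have h3 : cnt S.M.n (fun u => Lo S u ∧ ¬S.sp u) ≤ cnt S.M.n fun v => S.K v ∧ S.top v := by
    refine cnt_inj S.f.par (fun a _ k => ?_) fun a _ b _ ka kb e => ?_
    · exact ⟨(kt.live _ (kt.par a k.1.1)).2.1, kt.par a k.1.1, (lo_top kt k.1 k.2).2⟩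
    · have sa := (lo_top kt ka.1 ka.2).1
      have sb := (lo_top kt kb.1 kb.2).1
      have sab : S.sam a b := sa.symm.trans (e ▸ sb)
      have la := lt a ka.1
      have lb := lt b kb.1
      rcases lt_trichotomy (S.f.ht a) (S.f.ht b) with q | q | q
      · have := key.nxt a b sab kb.1.2.1 q
        rw [← e] at this
        omega
      · exact key.inj a b sab q
      · have := key.nxt b a sab.symm ka.1.2.1 q
        rw [e] at this
        omega
  have := ln.ntop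
  have := ln.nsp
  omega

theorem cut_cnt (kt : S.Kt0) :
    cnt S.M.n S.cut ≤ cnt S.M.n S.con + 2 * cnt S.M.n (Lo S) := by
  have h1 : cnt S.M.n S.cut ≤ cnt S.M.n fun e => S.con e ∨
      ((S.cut e ∧ S.pd (S.M.nd e) = e) ∨ (S.cut e ∧ S.pd (S.M.nd (S.gam e)) = S.gam e)) :=
    cnt_mono fun e he k => by
      rcases kt.typ e he k.1 with q | q | q
      · exact Or.inr (Or.inl ⟨k, q⟩)
      · exact Or.inr (Or.inr ⟨k, q⟩)
      · exact Or.inl q.1
  have h2 := cnt_or S.M.n S.con fun e =>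
    (S.cut e ∧ S.pd (S.M.nd e) = e) ∨ (S.cut e ∧ S.pd (S.M.nd (S.gam e)) = S.gam e)
  have h3 := cnt_or S.M.n (fun e => S.cut e ∧ S.pd (S.M.nd e) = e)
    fun e => S.cut e ∧ S.pd (S.M.nd (S.gam e)) = S.gam e
  have h4 : cnt S.M.n (fun e => S.cut e ∧ S.pd (S.M.nd e) = e) ≤ cnt S.M.n (Lo S) := by
    refine cnt_inj S.M.nd (fun e he k => ?_) fun a _ b _ ka kb e => ?_
    · have hK := (kt.gk e k.1.1).1
      have hp := kt.pd (S.M.nd e) (by rw [k.2]; exact he)
      have hu := (kt.up _ hK hp).2.2.2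
      rw [k.2] at hu
      exact ⟨(kt.live _ hK).2.1, hK, hp, hu ▸ k.1.2⟩
    · rw [← ka.2, ← kb.2, e]
  have h5 : cnt S.M.n (fun e => S.cut e ∧ S.pd (S.M.nd (S.gam e)) = S.gam e) ≤
      cnt S.M.n (Lo S) := by
    refine cnt_inj (fun e => S.M.nd (S.gam e)) (fun e he k => ?_) fun a ha b hb ka kb e => ?_
    · have hK := (kt.gk e k.1.1).2
      have hp := kt.pd (S.M.nd (S.gam e)) (by rw [k.2]; exact (kt.iv e he).1)
      have hu := (kt.up _ hK hp).2.2.2
      rw [k.2, (kt.iv e he).2] at hu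
      exact ⟨(kt.live _ hK).2.1, hK, hp, hu ▸ k.1.2.symm⟩
    · have g : S.gam a = S.gam b := by
        rw [← ka.2, ← kb.2]
        exact congrArg S.pd e
      rw [← (kt.iv a ha).2, g, (kt.iv b hb).2]
  omega

end BlkNP

theorem blkNS : BlkNS := by
  intro S r μ ok kt key ln a
  have h0 : S.blk a ≤ cnt S.M.n S.cut := cnt_mono fun _ _ k => k.1
  have h1 := BlkNP.cut_cnt kt
  have h2 := BlkNP.lo_cnt ok kt key ln
  have h3 := ok.xm
  unfold bq
  omega

end Pool.Agent.MP_1a6d78_lc.DS
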