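import Pool.Agent.MP_1a6d78_lc.DS.Basic

/-! PROJECT DS, row CLS: the recursion of the itineraries. -/

namespace Pool.Agent.MP_1a6d78_lc.DS

open Classical ED PR

namespace ClsP

variable {S : Sk} {r μ : ℕ}

theorem ne (e : ℕ → ℕ) (t z : ℕ) : S.cls e t z ≠ [] := by
  induction t generalizing z with
  | zero => simp [Sk.cls]
  | succ t ih =>
    simp only [Sk.cls]
    split_ifs <;> simp [ih]

theorem sv (kt : S.Kt0) (bell : S.BellK) {z : ℕ} (h : S.sl S.F z) :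
    S.K (S.sv S.F z) ∧ S.F (S.sv S.F z) < S.F z ∧ ∃ d < S.M.n, S.M.nd d = z ∧ S.gam d ≠ d ∧
      S.M.nd (S.gam d) = S.sv S.F z ∧ S.F (S.sv S.F z) + S.N * S.w d = S.F z := by
  obtain ⟨h1, h2, h3, h4⟩ := lst_spec h
  have h5 := (bell.sl _ h1 h3).2
  exact ⟨(kt.gk _ h3).2, by unfold Sk.sv; omega, _, h1, h2, h3, rfl, h4⟩

theorem la (ok : S.Ok r μ) (key : S.KeyK) (ls : S.LsK) (bell : S.BellK) {z : ℕ} (hz : S.K z)
    (h1 : ¬S.sp z) (h2 : ¬S.sl S.F z) :
    S.M.nd (S.lb S.F z) = z ∧ S.tg S.F (S.la S.F z) (S.lb S.F z) ∧ S.K (S.M.nd (S.la S.F z)) ∧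
      S.F (S.M.nd (S.la S.F z)) < S.F z := by
  have h3 := (bell.ex z hz fun e => h1 (e ▸ key.xb _ ok.xs)).resolve_left h2
  obtain ⟨-, h4⟩ := lst_spec h3
  obtain ⟨-, h5, h6⟩ := lst_spec h4
  have h7 := ls.pos _ _ _ (ls.lg _ _ h6.1 h6.2.1 h6.2.2.1)
  have h8 := h6.2.2.2
  rw [h5] at h8
  exact ⟨h5, h6, h6.1.2.1, by unfold Sk.la; omega⟩

theorem fuel (ok : S.Ok r μ) (kt : S.Kt0) (key : S.KeyK) (ls : S.LsK) (bell : S.BellK) (t : ℕ) :
    ∀ t' z, S.K z → S.F z < t → S.F z < t' → S.cls S.F t z = S.cls S.F t' z := by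
  induction t with
  | zero => exact fun _ _ _ h => absurd h (Nat.not_lt_zero _)
  | succ t ih =>
    intro t' z hz h h'
    obtain ⟨t', rfl⟩ : ∃ s, t' = s + 1 := ⟨t' - 1, by omega⟩
    simp only [Sk.cls]
    by_cases h1 : S.sp z
    · rw [if_pos h1, if_pos h1]
    rw [if_neg h1, if_neg h1]
    by_cases h2 : S.sl S.F z
    · obtain ⟨k1, k2, -⟩ := sv kt bell h2
      rw [if_pos h2, if_pos h2, ih t' _ k1 (by omega) (by omega)]
    · obtain ⟨-, -, k1, k2⟩ := la ok key ls bell hz h1 h2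
      rw [if_neg h2, if_neg h2, ih t' _ k1 (by omega) (by omega)]

theorem unf (ok : S.Ok r μ) (kt : S.Kt0) (key : S.KeyK) (ls : S.LsK) (bell : S.BellK) {z : ℕ}
    (hz : S.K z) : S.C z = if S.sp z then [0] else if S.sl S.F z then
      (if S.sp (S.sv S.F z) then [if S.sv S.F z = S.f.par z then 1 else 2] else S.C (S.sv S.F z))
    else S.C (S.M.nd (S.la S.F z)) ++ [S.blk (S.la S.F z), S.blk (S.lb S.F z)] := by
  have h := bell.lt z (kt.live z hz).1
  exact fuel ok kt key ls bell S.Z (S.Z + 1) z hz h (by omega)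

theorem te_mem (kt : S.Kt0) (bell : S.BellK) {h z : ℕ} (k : S.Te h z) :
    S.K z ∧ ¬S.sp z ∧ S.F h ≤ S.F z := by
  induction k with
  | base a b _ => exact ⟨a, b, le_rfl⟩
  | step _ a b c ih => exact ⟨a, b, ih.2.2.trans (sv kt bell c).2.1.le⟩

theorem te_base (kt : S.Kt0) (bell : S.BellK) {h z : ℕ} (k : S.Te h z) (e : z = h) :
    ¬S.sl S.F h ∨ S.sp (S.sv S.F h) := by
  cases k with
  | base _ _ c => exact c
  | step p _ _ c =>
    subst e
    exact absurd (sv kt bell c).2.1 (te_mem kt bell p).2.2.not_gt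

theorem up (ok : S.Ok r μ) (kt : S.Kt0) (key : S.KeyK) {h d : ℕ} (hk : S.K h) (hs : ¬S.sp h)
    (hd : d < S.M.n) (e : S.M.nd d = h) (hg : S.gam d ≠ d) (hy : S.sp (S.M.nd (S.gam d)))
    (hp : S.M.nd (S.gam d) = S.f.par h) :
    S.M.nd (S.gam d) = S.tp h ∧ S.f.ht h - S.f.ht (S.tp h) = S.w d ∧
      ∀ u, S.sam u h → ¬S.sp u → S.f.ht h ≤ S.f.ht u := by
  have h1 : ¬S.top h := fun k => hs ⟨hk, Or.inl k⟩
  have h2 : S.f.par h ≠ h := fun k => h1 (Or.inl k)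
  have h3 : S.sam (S.f.par h) h := by_contra fun k => h1 (Or.inr k)
  rw [hp] at hy
  have h4 : S.f.par h = S.tp h := key.tp _ _ h3 (hy.2.resolve_right fun k =>
    k ⟨h, (kt.live h hk).2.1, h2.symm, rfl, h3.symm⟩)
  have h5 := kt.gam_eq hd hg
  have h6 := ok.geo.par d hd (h5 ▸ hg) (e ▸ (kt.live h hk).1) (e ▸ h2)
    (by rw [e, ← h5, hp]) (by rw [e, ← h5, hp]; exact h3.2.2.2.2.symm)
  rw [e, ← h5, hp, h4] at h6
  refine ⟨hp.trans h4, by omega, fun u a b => not_lt.1 fun k => b ?_⟩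
  have k1 := key.nxt u h a h2 k
  have k2 := (key.ht u h a).1
  rw [← h4] at k2
  rw [key.inj u _ (a.trans h3.symm) (le_antisymm k1 k2)]
  exact hy

theorem down (ok : S.Ok r μ) (kt : S.Kt0) (key : S.KeyK) {h d : ℕ} (hk : S.K h) (hs : ¬S.sp h)
    (hd : d < S.M.n) (e : S.M.nd d = h) (hg : S.gam d ≠ d) (hy : S.sp (S.M.nd (S.gam d)))
    (hp : S.M.nd (S.gam d) ≠ S.f.par h) :
    S.M.nd (S.gam d) = S.bt h ∧ S.f.ht (S.bt h) - S.f.ht h = S.w d ∧
      ∀ u, S.sam u h → ¬S.sp u → S.f.ht u ≤ S.f.ht h := by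
  have hi := kt.iv d hd
  have h0 : S.pd (S.M.nd (S.gam d)) = S.gam d := by
    rcases kt.typ d hd hg with k | k | k
    · rw [e] at k
      have := (kt.up h hk (kt.pd h (k.symm ▸ hd))).2.2.2
      rw [k] at this
      exact absurd this hp
    · exact k
    · exact absurd (key.xb _ (e ▸ ok.xc d hd k.1)) hs
  have h2 := kt.pd _ (h0.symm ▸ hi.1)
  have h1 := (kt.up _ hy.1 h2).2.2.2
  rw [h0, hi.2, e] at h1
  have h3 := (key.child h _ hk hs hy.1 (fun k => h2 (h1.symm.trans k.symm)) h1.symm).1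
  have h4 : S.M.nd (S.gam d) = S.bt h := key.bt _ _ h3 (hy.2.resolve_left fun k =>
    k.elim h2 fun k => k (h1 ▸ h3.symm))
  have h5 := kt.gam_eq hd hg
  have hj := ok.wok.ok.iv d hd
  have h6 := ok.geo.par (S.M.β d) hj.1 (by rw [hj.2, ← h5]; exact hg.symm)
    (h5 ▸ (kt.live _ hy.1).1) (h5 ▸ h2) (by rw [hj.2, e, ← h5]; exact h1.symm)
    (by rw [hj.2, e, ← h5]; exact h3.2.2.2.2)
  rw [hj.2, e, ok.wok.symm hd (h5 ▸ hg), ← h5, h4] at h6
  refine ⟨h4, by omega, fun u a b => not_lt.1 fun k => b ?_⟩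
  have k2 := (key.ht u h a).2
  rw [← h4] at k2
  rcases k2.lt_or_eq with k1 | k1
  · have := key.nxt u _ (a.trans h3.symm) h2 k1
    rw [← h1] at this
    omega
  · rw [key.inj u _ (a.trans h3.symm) k1]
    exact hy

end ClsP

open ClsP in
theorem clsS : ClsS := by
  intro S r μ ok kt key ls bell
  refine ⟨fun z h => ?_, fun h z k => ?_, fun a b k => ?_, fun h k => ?_, fun z => ne _ _ _⟩
  · rw [unf ok kt key ls bell h.1, if_pos h]
  · induction k with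
    | base => rfl
    | step p a b c ih =>
      rw [unf ok kt key ls bell a, if_neg b, if_pos c, if_neg (te_mem kt bell p).2.1, ih]
  · obtain ⟨k1, k2, k3, k4, k5⟩ := k
    have h := (la ok key ls bell k1 k2 k3).2.1
    rw [k4, k5] at h
    refine ⟨h, .base k1 k2 (Or.inl k3), ?_, fun a' b' e t => ?_⟩
    · rw [unf ok kt key ls bell k1, if_neg k2, if_neg k3, k4, k5]
    · exact k4 ▸ lst_le t.1.1 ⟨b', t.2.1.1, e, t⟩
  · obtain ⟨k1, k2, -⟩ := te_mem kt bell k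
    by_cases c : S.sl S.F h
    · have hy := (te_base kt bell k rfl).resolve_left (not_not.2 c)
      have hC := unf ok kt key ls bell k1
      rw [if_neg k2, if_pos c, if_pos hy] at hC
      obtain ⟨-, a1, d, hd, e, hg, a2, a3⟩ := sv kt bell c
      rw [← a2] at hy hC a1 a3
      by_cases hp : S.M.nd (S.gam d) = S.f.par h
      · obtain ⟨b1, b2, b3⟩ := up ok kt key k1 k2 hd e hg hy hp
        rw [if_pos hp] at hC
        rw [b1] at a1 a3
        exact Or.inl ⟨hC, b3, by rw [b2, a3], a1⟩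
      · obtain ⟨b1, b2, b3⟩ := down ok kt key k1 k2 hd e hg hy hp
        rw [if_neg hp] at hC
        rw [b1] at a1 a3
        exact Or.inr (Or.inl ⟨hC, b3, by rw [b2, a3], a1⟩)
    · have e := (la ok key ls bell k1 k2 c).1
      refine Or.inr (Or.inr ⟨S.la S.F h, S.lb S.F h, ?_, e⟩)
      unfold Sk.Can
      rw [e]
      exact ⟨k1, k2, c, rfl, rfl⟩

end Pool.Agent.MP_1a6d78_lc.DS
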