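import Pool.Agent.MP_1a6d78_lc.DS.Basic

/-! PROJECT DS, row CNT: the number of itineraries. -/

namespace Pool.Agent.MP_1a6d78_lc.DS

open Classical ED PR Finset

namespace Cnt

variable {S : Sk} {B : ℕ}

/-- the itineraries of the vertices that are not special -/
noncomputable def J (S : Sk) : Finset (List ℕ) :=
  ((range S.M.n).filter fun z => S.K z ∧ ¬S.sp z).image S.C

/-- those with `i` legs -/
noncomputable def P (S : Sk) (i : ℕ) : Finset (List ℕ) := (J S).filter fun l => l.length = 2 * i + 1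

theorem mem_J (kt : S.Kt0) {z : ℕ} (h : S.K z) (h' : ¬S.sp z) : S.C z ∈ J S :=
  mem_image.2 ⟨z, mem_filter.2 ⟨mem_range.2 (kt.live z h).2.1, h, h'⟩, rfl⟩

theorem of_J {l : List ℕ} (h : l ∈ J S) : ∃ z, S.K z ∧ ¬S.sp z ∧ S.C z = l := by
  obtain ⟨z, a, b⟩ := mem_image.1 h
  exact ⟨z, (mem_filter.1 a).2.1, (mem_filter.1 a).2.2, b⟩

/-- the shape of an itinerary -/
theorem shape (te : S.TerK) (cl : S.ClsK) {z : ℕ} (h : S.K z) (h' : ¬S.sp z) :
    S.C z = [1] ∨ S.C z = [2] ∨ ∃ a b, S.Can a b ∧ S.Te (S.M.nd b) z := by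
  obtain ⟨x, hx⟩ := te.ex z h h'
  rw [cl.te x z hx]
  rcases cl.head x (te.mem x z hx).1 with k | k | ⟨a, b, k, rfl⟩
  · exact Or.inl k.1
  · exact Or.inr (Or.inl k.1)
  · exact Or.inr (Or.inr ⟨a, b, k, hx⟩)

theorem split (cl : S.ClsK) {a b z : ℕ} (k : S.Can a b) (t : S.Te (S.M.nd b) z) :
    S.C z = S.C (S.M.nd a) ++ [S.blk a, S.blk b] := (cl.te _ _ t).trans (cl.can a b k).2.2.1

theorem p0 (te : S.TerK) (cl : S.ClsK) {z : ℕ} (h : S.K z) (h' : ¬S.sp z)
    (e : (S.C z).length = 1) : S.C z = [1] ∨ S.C z = [2] := by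
  rcases shape te cl h h' with k | k | ⟨a, b, k, t⟩
  · exact Or.inl k
  · exact Or.inr k
  · rw [split cl k t] at e
    simp at e

theorem long (te : S.TerK) (cl : S.ClsK) {z : ℕ} (h : S.K z) (h' : ¬S.sp z)
    (e : 1 < (S.C z).length) : ∃ a b, S.Can a b ∧ S.Te (S.M.nd b) z := by
  rcases shape te cl h h' with k | k | k
  · rw [k] at e; simp at e
  · rw [k] at e; simp at e
  · exact k

theorem card0 (te : S.TerK) (cl : S.ClsK) : (P S 0).card ≤ 2 := by
  refine (card_le_card (t := {[1], [2]}) fun l hl => ?_).trans card_le_two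
  obtain ⟨h1, h2⟩ := mem_filter.1 hl
  obtain ⟨z, a, b, rfl⟩ := of_J h1
  simpa using p0 te cl a b h2

theorem card1 (bn : S.BlkN B) (te : S.TerK) (cl : S.ClsK) : (P S 1).card ≤ 3 * B ^ 2 := by
  have : (P S 1) ⊆ (range 3 ×ˢ range B ×ˢ range B).image fun q => [q.1, q.2.1, q.2.2] := by
    intro l hl
    obtain ⟨h1, h2⟩ := mem_filter.1 hl
    obtain ⟨z, h, h', rfl⟩ := of_J h1
    obtain ⟨a, b, k, t⟩ := long te cl h h' (by omega)
    have e := split cl k t
    have e1 : (S.C (S.M.nd a)).length = 1 := by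
      rw [e] at h2
      simpa using h2
    have : ∃ m < 3, S.C (S.M.nd a) = [m] := by
      by_cases q : S.sp (S.M.nd a)
      · exact ⟨0, by omega, cl.sp _ q⟩
      · rcases p0 te cl (cl.can a b k).1.1.2.1 q e1 with r | r
        · exact ⟨1, by omega, r⟩
        · exact ⟨2, by omega, r⟩
    obtain ⟨m, m3, em⟩ := this
    refine mem_image.2 ⟨(m, S.blk a, S.blk b), ?_, by rw [e, em]; rfl⟩
    simp [m3, bn a, bn b]
  refine (card_le_card this).trans (card_image_le.trans (le_of_eq ?_))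
  simp [sq]

/-- a last leg and the leg before it -/
structure W (S : Sk) (l : List ℕ) (a b a1 b1 : ℕ) : Prop where
  c : S.Can a b
  c1 : S.Can a1 b1
  t : S.Te (S.M.nd b1) (S.M.nd a)
  e : l = S.C (S.M.nd a) ++ [S.blk a, S.blk b]

/-- the target is the last one of its class -/
def La (S : Sk) (B a b : ℕ) : Prop :=
  ∀ a' b', S.Can a' b' → S.blk a' = S.blk a → S.C (S.M.nd a') = S.C (S.M.nd a) →
    Sk.cy B (S.blk a) (S.blk b') ≤ Sk.cy B (S.blk a) (S.blk b)

theorem wit (kt : S.Kt0) (te : S.TerK) (cl : S.ClsK) {i : ℕ} {l : List ℕ}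
    (hl : l ∈ P S (i + 2)) : ∃ a b a1 b1, W S l a b a1 b1 ∧ S.C (S.M.nd a) ∈ P S (i + 1) := by
  obtain ⟨h1, h2⟩ := mem_filter.1 hl
  obtain ⟨z, h, h', rfl⟩ := of_J h1
  obtain ⟨a, b, k, t⟩ := long te cl h h' (by omega)
  have e := split cl k t
  have e1 : (S.C (S.M.nd a)).length = 2 * (i + 1) + 1 := by
    rw [e] at h2
    simp at h2
    omega
  have ka := (cl.can a b k).1.1.2.1
  have q : ¬S.sp (S.M.nd a) := fun q => by
    rw [cl.sp _ q] at e1
    simp at e1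
  obtain ⟨a1, b1, k1, t1⟩ := long te cl ka q (by omega)
  exact ⟨a, b, a1, b1, ⟨k, k1, t1, e⟩, mem_filter.2 ⟨mem_J kt ka q, e1⟩⟩

theorem touch (cl : S.ClsK) (tk : S.TouchK) {l l' : List ℕ} {a b a1 b1 a' b' a1' b1' : ℕ}
    (w : W S l a b a1 b1) (w' : W S l' a' b' a1' b1') (h : S.blk b1 = S.blk a)
    (h' : S.blk b1' = S.blk a') (e1 : S.blk a1 = S.blk a1') (e2 : S.blk a = S.blk a')
    (e3 : S.blk b = S.blk b') : l = l' := by
  have := tk.touch a b a' b' a1 b1 a1' b1' w.c w'.c w.c1 w'.c1 w.t w'.t e2 e3 e1 h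
    (h'.trans e2.symm)
  rw [w.e, w'.e, cl.te _ _ w.t, cl.te _ _ w'.t, this, e2, e3]

theorem last (bk : S.BlkK) (b3 : S.Blk3) (bn : S.BlkN B) (te : S.TerK) (cl : S.ClsK)
    {l l' : List ℕ} {a b a1 b1 a' b' a1' b1' : ℕ}
    (w : W S l a b a1 b1) (w' : W S l' a' b' a1' b1') (h : S.blk b1 ≠ S.blk a)
    (h' : S.blk b1' ≠ S.blk a') (k : La S B a b) (k' : La S B a' b')
    (e : S.C (S.M.nd a) = S.C (S.M.nd a')) : l = l' := by
  have e1 : S.blk b1 = S.blk b1' := by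
    have := e
    rw [split cl w.c1 w.t, split cl w'.c1 w'.t] at this
    have := (List.append_inj' this rfl).2
    simp at this
    exact this.2
  have p1 := (cl.can _ _ w.c1).1.2.1
  have p1' := (cl.can _ _ w'.c1).1.2.1
  have m := te.mem _ _ w.t
  have m' := te.mem _ _ w'.t
  have e2 : S.blk a = S.blk a' := by
    rcases b3 b1 a a' p1 (cl.can _ _ w.c).1.1 (cl.can _ _ w'.c).1.1 m.2.2.1 m.2.2.2.1 m'.2.2.2.1
      m.2.1 ((bk.s2 _ _ p1 p1' e1).trans m'.2.1) with q | q | q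
    · exact absurd q h
    · exact absurd (e1.symm.trans q) h'
    · exact q
  have c1 := k a' b' w'.c e2.symm e.symm
  have c2 := k' a b w.c e2 e
  have e3 : S.blk b = S.blk b' := by
    have := bn b
    have := bn b'
    rw [← e2] at c2
    unfold Sk.cy at c1 c2
    split_ifs at c1 c2 <;> omega
  rw [w.e, w'.e, e, e2, e3]

theorem stair (st : S.Stair B) {l l' : List ℕ} {a b a1 b1 a' b' a1' b1' : ℕ}
    (w : W S l a b a1 b1) (w' : W S l' a' b' a1' b1') (h : S.blk b1 ≠ S.blk a)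
    (h' : S.blk b1' ≠ S.blk a') (k' : ¬La S B a' b') (e2 : S.blk a = S.blk a')
    (e3 : S.blk b = S.blk b') (hp : S.pos a ≤ S.pos a') : l = l' := by
  unfold La at k'
  push Not at k'
  obtain ⟨x, y, c, q1, q2, q3⟩ := k'
  have := st a b a1 b1 a' b' a1' b1' x y w.c w.c1 w'.c w'.c1 c w.t w'.t h (e2 ▸ h') e2.symm
    (q1.trans e2.symm) e3.symm hp q2 (e2 ▸ q3)
  rw [w.e, w'.e, this, e2, e3]

theorem card_rel {α β : Type} {s : Finset α} {t : Finset β} (r : α → β → Prop)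
    (h : ∀ a ∈ s, ∃ b, b ∈ t ∧ r a b) (k : ∀ b a a', r a b → r a' b → a = a') :
    s.card ≤ t.card := by
  choose f hf using h
  rw [← card_attach (s := s)]
  refine card_le_card_of_injOn (fun a => f a.1 a.2) (fun a _ => (hf a.1 a.2).1)
    fun a _ a' _ e => Subtype.ext (k _ _ _ (hf a.1 a.2).2 ?_)
  rw [show f a.1 a.2 = f a'.1 a'.2 from e]
  exact (hf a'.1 a'.2).2

theorem step (kt : S.Kt0) (bk : S.BlkK) (b3 : S.Blk3) (bn : S.BlkN B) (te : S.TerK) (cl : S.ClsK)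
    (tk : S.TouchK) (st : S.Stair B) (i : ℕ) :
    (P S (i + 2)).card ≤ (P S (i + 1)).card + B ^ 2 + B ^ 3 := by
  have key := card_rel (s := P S (i + 2))
    (t := ((P S (i + 1)).disjSum (range B ×ˢ range B)).disjSum (range B ×ˢ range B ×ˢ range B))
    (fun l q => ∃ a b a1 b1, W S l a b a1 b1 ∧
      ((S.blk b1 ≠ S.blk a ∧ La S B a b ∧ q = .inl (.inl (S.C (S.M.nd a)))) ∨
        (S.blk b1 ≠ S.blk a ∧ ¬La S B a b ∧ q = .inl (.inr (S.blk a, S.blk b))) ∨
        (S.blk b1 = S.blk a ∧ q = .inr (S.blk a1, S.blk a, S.blk b)))) (fun l hl => ?_)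
    (fun q l l' hl hl' => ?_)
  · simp only [card_disjSum, card_product, card_range] at key
    refine key.trans (le_of_eq ?_)
    ring
  · obtain ⟨a, b, a1, b1, w, hp⟩ := wit kt te cl hl
    by_cases h : S.blk b1 = S.blk a
    · exact ⟨_, by simp [bn a, bn b, bn a1], a, b, a1, b1, w, Or.inr (Or.inr ⟨h, rfl⟩)⟩
    · by_cases k : La S B a b
      · exact ⟨_, by simpa using hp, a, b, a1, b1, w, Or.inl ⟨h, k, rfl⟩⟩
      · exact ⟨_, by simp [bn a, bn b], a, b, a1, b1, w, Or.inr (Or.inl ⟨h, k, rfl⟩)⟩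
  · obtain ⟨a, b, a1, b1, w, c⟩ := hl
    obtain ⟨a', b', a1', b1', w', c'⟩ := hl'
    rcases c with ⟨h, k, rfl⟩ | ⟨h, k, rfl⟩ | ⟨h, rfl⟩ <;>
      rcases c' with ⟨h', k', e⟩ | ⟨h', k', e⟩ | ⟨h', e⟩ <;> simp at e
    · exact last bk b3 bn te cl w w' h h' k k' e
    · rcases le_total (S.pos a) (S.pos a') with p | p
      · exact stair st w w' h h' k' e.1 e.2 p
      · exact (stair st w' w h' h k e.1.symm e.2.symm p).symm
    · exact touch cl tk w w' h h' e.1 e.2.1 e.2.2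

end Cnt

open Cnt in
theorem cntS : CntS := by
  intro S B kt bk b3 bn te cl tk st ln
  have h1 : ∀ i, (P S (i + 1)).card ≤ 3 * B ^ 2 + i * (B ^ 2 + B ^ 3) := by
    intro i
    induction i with
    | zero => simpa using card1 bn te cl
    | succ i ih =>
      have := step kt bk b3 bn te cl tk st i
      rw [Nat.add_mul i 1, Nat.one_mul, show i + 1 + 1 = i + 2 from rfl]
      omega
  have h2 : J S ⊆ P S 0 ∪ (range B).biUnion fun i => P S (i + 1) := by
    intro l hl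
    obtain ⟨z, h, _, rfl⟩ := of_J hl
    obtain ⟨a, b⟩ := ln z h
    by_cases q : (S.C z).length = 1
    · exact mem_union_left _ (mem_filter.2 ⟨hl, q⟩)
    · refine mem_union_right _ (mem_biUnion.2 ⟨(S.C z).length / 2 - 1, mem_range.2 (by omega),
        mem_filter.2 ⟨hl, by omega⟩⟩)
  have h3 : ((range B).biUnion fun i => P S (i + 1)).card ≤
      B * (3 * B ^ 2 + B * (B ^ 2 + B ^ 3)) := by
    refine card_biUnion_le.trans ((sum_le_card_nsmul _ _ (3 * B ^ 2 + B * (B ^ 2 + B ^ 3))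
      fun i hi => (h1 i).trans ?_).trans (by simp))
    have := (mem_range.1 hi).le
    gcongr
  have h4 := (card_le_card h2).trans (card_union_le _ _)
  have h5 := card0 te cl
  have h6 : (B + 2) ^ 5 = B * (3 * B ^ 2 + B * (B ^ 2 + B ^ 3)) + 2 +
      (9 * B ^ 4 + 37 * B ^ 3 + 80 * B ^ 2 + 80 * B + 30) := by ring
  have h7 : (J S).card ≤ (B + 2) ^ 5 := by omega
  exact h7

end Pool.Agent.MP_1a6d78_lc.DS
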