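import Pool.Agent.MP_1a6d78_lc.DS.Basic

/-! PROJECT DS, row COD: the map, the weights and the walks read from the code. -/

namespace Pool.Agent.MP_1a6d78_lc.DS

open Classical ED ED.Code PR

namespace Cod

section

variable {n : ℕ} (σ α : Equiv.Perm (Fin n)) (dir : Fin n → Bool) (w : Fin n → ℕ) (s t : Fin n)
  (θ : ℕ)

theorem c_num (i : ℕ) : num (code σ α dir w s t θ) i =
    ([n, s.val, t.val, θ] ++ (List.ofFn (fun a => (σ a).val) ++ (List.ofFn (fun a => (α a).val) ++
      (List.ofFn w ++ List.ofFn fun a => if dir a then 1 else 0)))).getD i 0 := by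
  rw [code, num_unary, List.append_assoc, List.append_assoc, List.append_assoc]

theorem c_n : num (code σ α dir w s t θ) 0 = n := by rw [c_num]; rfl

theorem c_rho (a : Fin n) : num (code σ α dir w s t θ) (4 + a) = σ a := by
  rw [c_num, getD_right _ _ (n := 4) rfl,
    List.getD_append _ _ _ _ (by rw [List.length_ofFn]; exact a.2), getD_ofFn]

theorem c_beta (a : Fin n) : num (code σ α dir w s t θ) (4 + n + a) = α a := by
  rw [c_num, Nat.add_assoc, getD_right _ _ (n := 4) rfl, getD_right _ _ (n := n) List.length_ofFn,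
    List.getD_append _ _ _ _ (by rw [List.length_ofFn]; exact a.2), getD_ofFn]

theorem c_wt (a : Fin n) : num (code σ α dir w s t θ) (4 + n + n + a) = w a := by
  rw [c_num, Nat.add_assoc, Nat.add_assoc, getD_right _ _ (n := 4) rfl,
    getD_right _ _ (n := n) List.length_ofFn, getD_right _ _ (n := n) List.length_ofFn,
    List.getD_append _ _ _ _ (by rw [List.length_ofFn]; exact a.2), getD_ofFn]

theorem c_dir (a : Fin n) :
    num (code σ α dir w s t θ) (4 + n + n + n + a) = if dir a then 1 else 0 := by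
  rw [c_num, Nat.add_assoc, Nat.add_assoc, Nat.add_assoc, getD_right _ _ (n := 4) rfl,
    getD_right _ _ (n := n) List.length_ofFn, getD_right _ _ (n := n) List.length_ofFn,
    getD_right _ _ (n := n) List.length_ofFn, getD_ofFn]

theorem c_rep : Rep σ α (fun _ => true) s t (inp (code σ α dir w s t θ)) where
  hn := c_n σ α dir w s t θ
  ρ a := c_rho σ α dir w s t θ a
  β a := by
    show num _ (4 + num _ 0 + a) = _
    rw [c_n, c_beta]
  dir a := ⟨fun _ => rfl, fun _ => trivial⟩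
  s := by
    show num _ 1 = _
    rw [c_num]; rfl
  t := by
    show num _ 2 = _
    rw [c_num]; rfl

theorem c_w (a : Fin n) : wt (code σ α dir w s t θ) a = w a := by
  show num _ (4 + num _ 0 + num _ 0 + a) = _
  rw [c_n, c_wt]

theorem c_us (a : Fin n) : us (code σ α dir w s t θ) a ↔ dir a = true := by
  show num _ (4 + num _ 0 + num _ 0 + num _ 0 + a) = 1 ↔ _
  rw [c_n, c_dir]
  cases dir a <;> simp

variable {σ α dir w s} {M : Mp} {u : ℕ → Prop} {v : ℕ → ℕ}

theorem to_walk (hρ : ∀ a : Fin n, M.ρ a = σ a) (hβ : ∀ a : Fin n, M.β a = α a)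
    (hw : ∀ a : Fin n, v a = w a) (hu : ∀ a : Fin n, u a ↔ dir a = true) {b c : ℕ}
    (k : Dw M u v s b c) : ∃ a : Fin n, a.val = b ∧ Walk σ α dir w s a c := by
  induction k with
  | nil => exact ⟨s, rfl, Walk.nil⟩
  | rot _ ih =>
    obtain ⟨a, rfl, h⟩ := ih
    exact ⟨σ a, (hρ a).symm, h.rot⟩
  | edge _ e ih =>
    obtain ⟨a, rfl, h⟩ := ih
    rw [hw a]
    exact ⟨α a, (hβ a).symm, h.edge ((hu a).1 e)⟩

theorem of_walk (hρ : ∀ a : Fin n, M.ρ a = σ a) (hβ : ∀ a : Fin n, M.β a = α a)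
    (hw : ∀ a : Fin n, v a = w a) (hu : ∀ a : Fin n, u a ↔ dir a = true) {a : Fin n} {c : ℕ}
    (k : Walk σ α dir w s a c) : Dw M u v s a c := by
  induction k with
  | nil => exact Dw.nil
  | @rot a _ _ ih => rw [← hρ a]; exact ih.rot
  | @edge a _ _ e ih => rw [← hβ a, ← hw a]; exact ih.edge ((hu a).2 e)

end

end Cod

theorem codS : CodS := by
  intro n σ α dir w s t θ x hα hP hx
  subst hx
  have r := Cod.c_rep σ α dir w s t θ
  obtain ⟨e1, e2, e3⟩ := eulS σ α (fun _ => true) s t _ r hα hP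
  refine ⟨⟨e1, e2, (genK swapK nclK).pl e1 e2 e3.le, by rw [r.s, r.hn]; exact s.2⟩, e3,
    Cod.c_n σ α dir w s t θ, r.s, r.t, by rw [Cod.c_num]; rfl,
    fun a => ⟨r.ρ a, r.β a, Cod.c_w σ α dir w s t θ a, Cod.c_us σ α dir w s t θ a⟩,
    fun c => ⟨fun k => ?_, fun k => ?_⟩⟩
  · obtain ⟨a, e, h⟩ := Cod.to_walk r.ρ r.β (Cod.c_w σ α dir w s t θ) (Cod.c_us σ α dir w s t θ) k
    rw [← Fin.ext e]; exact h
  · exact Cod.of_walk r.ρ r.β (Cod.c_w σ α dir w s t θ) (Cod.c_us σ α dir w s t θ) k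

end Pool.Agent.MP_1a6d78_lc.DS
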