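import Pool.Agent.MP_1a6d78_lc.DS.Basic

/-! PROJECT DS, row COMP: the component of the source and the first forest. -/

namespace Pool.Agent.MP_1a6d78_lc.DS

open Classical ED PR

namespace Comp

variable {M : Mp} {w : ℕ → ℕ} {W : ℕ}

theorem key (h : Wok M w W) {a b : ℕ} (ha : a < M.n) (hb : b < M.n) :
    ps M.n (fun d => M.ρ ((M.F M.f0).tau d)) (fun _ => True) a / M.n =
      ps M.n (fun d => M.ρ ((M.F M.f0).tau d)) (fun _ => True) b / M.n ↔
      Rc M w U (M.nd a) (M.nd b) := by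
  have hM := h.ok
  have m := msfS nclK _ (GSet.fok hM (Lev.inv_zero hM 0 0).fit.1)
  have iv : Iv M.n (M.F M.f0).tau := m.iv
  have hβ : ∀ d < M.n, (M.F M.f0).β d = M.β d := fun d hd =>
    if_pos ⟨⟨(Mp.nd_spec hd).1, Mp.nd_nd hM.pm hd⟩,
      (Mp.nd_spec (hM.iv d hd).1).1, Mp.nd_nd hM.pm (hM.iv d hd).1⟩
  have hf := hM.pm.comp iv.pm
  have hr : ∀ d < M.n, ∃ e < M.n, Sc M.n (fun d => M.ρ ((M.F M.f0).tau d)) d e ∧
      (fun _ => True) e := fun d hd => ⟨d, hd, Sc.refl _ hd, trivial⟩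
  have dv : ∀ d < M.n, ps M.n (fun d => M.ρ ((M.F M.f0).tau d)) (fun _ => True) d / M.n =
      st M.n (fun d => M.ρ ((M.F M.f0).tau d)) (fun _ => True) d := fun d hd => by
    rw [Cont.ps_eq, Nat.add_comm, Nat.add_mul_div_right _ _ (by omega),
      Nat.div_eq_of_lt (Cont.tm_spec hf hr hd).1, Nat.zero_add]
  rw [dv a ha, dv b hb]
  constructor
  · intro e
    have c : Conn M.n M.ρ (M.F M.f0).tau a b :=
      ((Cont.st_spec hr ha).2.1.conn hM.pm iv ha).trans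
        (e ▸ ((Cont.st_spec hr hb).2.1.conn hM.pm iv hb).symm)
    refine Conn.ind (r := fun a b => Rc M w U (M.nd a) (M.nd b))
      ⟨fun _ => ⟨0, .nil trivial⟩, fun ⟨_, k⟩ => ⟨_, k.symm hM.iv fun _ p q => h.symm p q⟩,
        fun ⟨_, k⟩ ⟨_, k'⟩ => ⟨_, k.trans k'⟩⟩ (fun d hd => ?_) (fun d hd => ?_) c
    · rw [← (Mp.nd_iff hM.pm hd (hM.pm.1 d hd)).2 (Sc.step hM.pm.1 hd)]
      exact ⟨0, .nil trivial⟩
    · rcases m.sb d hd with k | k
      · rw [k]; exact ⟨0, .nil trivial⟩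
      · rw [k, hβ d hd]
        by_cases q : M.β d = d
        · rw [q]; exact ⟨0, .nil trivial⟩
        · exact ⟨_, Wk.one hd q trivial trivial⟩
  · rintro ⟨c, k⟩
    have sc : ∀ x < M.n, ∀ y < M.n, M.nd y = M.nd x → Conn M.n M.ρ (M.F M.f0).tau x y :=
      fun x hx y hy e => Sc.conn' _ hM.pm hx ((Mp.nd_iff hM.pm hx hy).1 e.symm)
    have := (k.inv (P := fun v => ∀ y < M.n, M.nd y = v → Conn M.n M.ρ (M.F M.f0).tau a y)
      (sc a ha) fun d hd _ _ _ p y hy e => ?_).1 b hb rfl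
    · exact Cont.st_eq hf ha (Cont.conn_sc swapK hM.pm iv m.br ha this)
    · have s : Conn M.n M.ρ (M.F M.f0).tau d ((M.F M.f0).β d) := (m.span d hd).mono fun e _ => by
        split_ifs
        exacts [Or.inr rfl, Or.inl rfl]
      rw [hβ d hd] at s
      exact ((p d hd rfl).trans s).trans (sc _ (hM.iv d hd).1 y hy e)

end Comp

theorem compS : CompS := by
  intro M w W h
  have hM := h.ok
  have e : ∀ v, lv M v ↔ v < M.n ∧ M.nd v = v ∧ Rc M w U (M.nd M.s) v := fun v =>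
    and_congr_right fun hv => and_congr_right fun q => by
      rw [eq_comm, Comp.key h hM.s hv, q]
  have s : lv M (M.nd M.s) :=
    (e _).2 ⟨(Mp.nd_spec hM.s).1, Mp.nd_nd hM.pm hM.s, 0, .nil trivial⟩
  refine ⟨e, ⟨⟨fun v k => k.1, fun u v k a => ?_, fun v _ k => absurd rfl k, fun _ _ => h.Wpos,
    fun _ k => k⟩, fun v k _ => ⟨v, k, 0, rfl⟩, s, rfl, fun _ k => k.2.1⟩,
    fun v k => ((e v).1 k).2.2, ⟨fun _ _ _ _ _ _ _ => Nat.zero_le _,
      fun _ _ _ _ k => absurd rfl k⟩, (Nat.one_mul W).symm⟩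
  obtain ⟨d, hd, _, rfl, rfl⟩ := a
  obtain ⟨c, p⟩ := ((e _).1 k).2.2
  refine (e _).2 ⟨(Mp.nd_spec (hM.iv d hd).1).1, Mp.nd_nd hM.pm (hM.iv d hd).1, ?_⟩
  by_cases q : M.β d = d
  · rw [q]; exact ⟨c, p⟩
  · exact ⟨_, p.trans (Wk.one hd q trivial trivial)⟩

end Pool.Agent.MP_1a6d78_lc.DS
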