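import Pool.Agent.MP_1a6d78_lc.DS.Basic

/-! PROJECT DS, row CROSS: two crossing legs can be exchanged. -/

namespace Pool.Agent.MP_1a6d78_lc.DS

open Classical ED PR

namespace Cross

variable {M : Mp} {w : ℕ → ℕ} {A : ℕ → Prop} {u v c : ℕ}

/-- A walk stays among the vertices that split its cost. -/
theorem own {y c1 : ℕ} (h : Wk M w A u y c1) : ∀ c2, Wk M w A y v c2 → c1 + c2 = c →
    Wk M w (fun x => ∃ c1 c2, Wk M w A u x c1 ∧ Wk M w A x v c2 ∧ c1 + c2 = c) u y c1 := by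
  induction h with
  | nil k => exact fun c2 p e => .nil ⟨0, c2, .nil k, p, e⟩
  | @step y y' c1 d p a b e e' k ih =>
    intro c2 q s
    subst e e'
    exact (ih (w d + c2) ((Wk.one a b p.mem.2 k).trans q) (by omega)).step a b rfl rfl
      ⟨c1 + w d, c2, p.step a b rfl rfl k, q, s⟩

variable {S : Sk} {r μ : ℕ}

theorem w1_symm (h : S.Ok r μ) : ∀ d < S.M.n, S.M.β d ≠ d → S.w1 (S.M.β d) = S.w1 d :=
  fun d a b => by unfold Sk.w1; rw [h.wok.symm a b]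

/-- The interior of a leg. -/
theorem inner {a b c : ℕ} (h : S.Lg a b c) : ∃ V : ℕ → Prop, (∀ x, V x → ¬S.K x) ∧
    (S.M.β a = b ∨ Rc S.M S.w1 V (S.M.nd (S.M.β a)) (S.M.nd (S.M.β b))) ∧
    ∀ x, V x → ∃ c1 c2, Wk S.M S.w1 (fun z => ¬S.K z) (S.M.nd (S.M.β a)) x c1 ∧
      Wk S.M S.w1 (fun z => ¬S.K z) x (S.M.nd (S.M.β b)) c2 ∧ c = S.w1 a + (c1 + c2) + S.w1 b := by
  rcases h.2.2 with ⟨e, _⟩ | ⟨c', p, e⟩
  · exact ⟨fun _ => False, fun _ k => k.elim, Or.inl e, fun _ k => k.elim⟩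
  · refine ⟨fun x => ∃ c1 c2, Wk S.M S.w1 (fun z => ¬S.K z) (S.M.nd (S.M.β a)) x c1 ∧
      Wk S.M S.w1 (fun z => ¬S.K z) x (S.M.nd (S.M.β b)) c2 ∧ c1 + c2 = c', ?_,
      Or.inr ⟨c', own p 0 (.nil p.mem.2) rfl⟩, ?_⟩
    · rintro x ⟨c1, c2, q, _, _⟩
      exact q.mem.2
    · rintro x ⟨c1, c2, q, q', s⟩
      exact ⟨c1, c2, q, q', by omega⟩

theorem iter_lt {n : ℕ} {f : ℕ → ℕ} (hf : ∀ d < n, f d < n) {a : ℕ} (ha : a < n) (t : ℕ) :
    f^[t] a < n := by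
  induction t with
  | zero => exact ha
  | succ t ih => rw [Function.iterate_succ_apply']; exact hf _ ih

theorem sep (h : S.Ok r μ) (kt : S.KtK) {a a' b b' : ℕ} (pa : S.port a) (pa' : S.port a')
    (pb : S.port b) (pb' : S.port b') (h1 : S.pos a < S.pos a') (h2 : S.pos a' < S.pos b)
    (h3 : S.pos b < S.pos b') :
    ¬Sc S.M.n (fun d => S.M.ρ (S.gam (sw a b d))) a' b' := by
  have pm : Pm S.M.n S.psi := h.wok.ok.pm.comp kt.iv.pm
  obtain ⟨t, e, ht⟩ := kt.run a pa.1 b' pb'.1 pa.2.1 pb'.2.1 (by omega)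
  have et : S.pos b' = S.pos a + t := e ▸ ht t le_rfl
  have id : ∀ x, x < S.M.n → S.pos a ≤ S.pos x → S.pos x ≤ S.pos b' →
      S.psi^[S.pos x - S.pos a] a = x := fun x hx k k' =>
    kt.inj _ (iter_lt pm.1 pa.1 _) x hx (by rw [ht _ (by omega)]; omega)
  have := swapK.sep (i := 0) (j := S.pos a' - S.pos a) (k := S.pos b - S.pos a) (l := t) pm pa.1
    (by omega) (by omega) (by omega) fun s hs s' hs' q => by
      have i1 := ht s hs
      have i2 := ht s' hs'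
      rw [q] at i1
      omega
  rw [id a' pa'.1 h1.le (by omega), id b pb.1 (by omega) h3.le, e] at this
  exact this

theorem conn (h : S.Ok r μ) (kt : S.KtK) {a b : ℕ} (pa : S.port a) (pb : S.port b)
    (h1 : S.pos a ≤ S.pos b) : Conn S.M.n S.M.ρ S.gam a b := by
  have pm : Pm S.M.n S.psi := h.wok.ok.pm.comp kt.iv.pm
  obtain ⟨t, e, _⟩ := kt.run a pa.1 b pb.1 pa.2.1 pb.2.1 h1
  exact Sc.conn h.wok.ok.pm kt.iv pa.1 ((sc_iff pm.1 pa.1).2 ⟨t, e⟩)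

end Cross

theorem crossS : CrossS := fun jor S r μ h kt =>
  { symm := by
      rintro a b c ⟨pa, pb, ⟨e, q⟩ | ⟨c', p, q⟩⟩
      · refine ⟨pb, pa, Or.inl ⟨?_, ?_⟩⟩
        · rw [← e]; exact (h.wok.ok.iv a pa.1).2
        · rw [← e, Cross.w1_symm h a pa.1 pa.2.2.2]; exact q
      · exact ⟨pb, pa, Or.inr ⟨c', p.symm h.wok.ok.iv (Cross.w1_symm h), by omega⟩⟩
    swap := by
      intro a a' b b' c c' h1 h2 h3 l l'
      obtain ⟨V, v1, v2, v3⟩ := Cross.inner l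
      obtain ⟨V', u1, u2, u3⟩ := Cross.inner l'
      obtain ⟨pa, pb, -⟩ := l
      obtain ⟨pa', pb', -⟩ := l'
      by_cases k : ∃ x, V x ∧ V' x
      · obtain ⟨x, k1, k2⟩ := k
        obtain ⟨c1, c2, p1, p2, e⟩ := v3 x k1
        obtain ⟨d1, d2, q1, q2, e'⟩ := u3 x k2
        exact ⟨⟨_, _, ⟨pa, pb', Or.inr ⟨_, p1.trans q2, rfl⟩⟩,
            ⟨pa', pb, Or.inr ⟨_, q1.trans p2, rfl⟩⟩, by omega⟩,
          _, _, ⟨pa, pa', Or.inr ⟨_, p1.trans (q1.symm h.wok.ok.iv (Cross.w1_symm h)), rfl⟩⟩,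
            ⟨pb, pb', Or.inr ⟨_, (p2.symm h.wok.ok.iv (Cross.w1_symm h)).trans q2, rfl⟩⟩, by omega⟩
      · have ne : ∀ {x y : ℕ}, S.pos x < S.pos y → x ≠ y := fun q e => by
          rw [e] at q; exact lt_irrefl _ q
        refine (jor S.M S.w1 S.gam V V' a b a' b' h.wok.ok kt.iv kt.sb pa.1 pb.1 pa'.1 pb'.1
          (ne (by omega)) (ne (by omega)) (ne h1) (ne (by omega)) (ne h2).symm (ne h3)
          pa.2.2.1 pb.2.2.1 pa'.2.2.1 pb'.2.2.1 pa.2.2.2 pb.2.2.2 pa'.2.2.2 pb'.2.2.2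
          (fun x i j => k ⟨x, i, j⟩) (fun d _ i => ?_) (Cross.sep h kt pa pa' pb pb' h1 h2 h3)
          (Cross.conn h kt pa' pb' (by omega)) v2 u2).elim
        have nk : ¬S.K (S.M.nd d) := i.elim (v1 _) (u1 _)
        have n1 : ∀ {x : ℕ}, S.port x → S.M.nd d ≠ S.M.nd x := fun p e => nk (e ▸ p.2.1)
        have n2 : ∀ {x : ℕ}, S.port x → d ≠ x := fun p e => n1 p (e ▸ rfl)
        exact ⟨by_contra fun q => nk (kt.gk d q).1, n2 pa, n2 pb, n2 pa', n2 pb', n1 pa, n1 pb,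
          n1 pa', n1 pb'⟩ }

end Pool.Agent.MP_1a6d78_lc.DS
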