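import Pool.Agent.MP_1a6d78_lc.DS.Basic

/-! PROJECT DS: the start of an itinerary and its last class. -/

namespace Pool.Agent.MP_1a6d78_lc.DS

open Classical ED PR Sk

namespace D0L

variable {S : Sk} {r μ B : ℕ}

theorem lo (k : S.Kt0) (ky : S.KeyK) (ln : S.LineK r μ) (bl : S.BellK) (T : List ℕ) (z u : ℕ)
    (hT : ∀ x, S.sp x → S.F x ≤ S.g T x) (h : S.sam u z) : S.F u ≤ S.d0 T z (S.f.ht u) := by
  obtain ⟨a1, a2, a3, a4⟩ := ky.ends z h.2.1
  obtain ⟨b1, b2⟩ := ky.ht u z h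
  have c1 := bl.wk _ _ _ (k.live _ a1.1).1 (ln.slide _ _ (a1.trans h.symm))
  have c2 := bl.wk _ _ _ (k.live _ a3.1).1 (ln.slide _ _ (a3.trans h.symm))
  rw [df_le b1] at c1
  rw [df_ge b2] at c2
  exact le_min (c1.trans (Nat.add_le_add_right (hT _ ⟨a1.1, Or.inl a2⟩) _))
    (c2.trans (Nat.add_le_add_right (hT _ ⟨a3.1, Or.inr a4⟩) _))

theorem add_sub (N : ℕ) {a b c : ℕ} (h : a ≤ b) (h' : b ≤ c) :
    N * (c - a) = N * (b - a) + N * (c - b) := by
  rw [← Nat.mul_add]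
  congr 1
  omega

theorem hi (ky : S.KeyK) (te : S.TerK) (cl : S.ClsK) (T : List ℕ) (z u : ℕ)
    (hT : ∀ y, S.sp y → S.F y ≤ S.F u → S.g T y = S.F y) (h : S.sam u z)
    (hl : (S.C u).length = 1) : S.d0 T z (S.f.ht u) ≤ S.F u := by
  by_cases hs : S.sp u
  · rcases hs.2 with t | t
    · refine (min_le_left _ _).trans ?_
      rw [← ky.tp u z h t, hT u hs le_rfl, Nat.sub_self]
      rfl
    · refine (min_le_right _ _).trans ?_
      rw [← ky.bt u z h t, hT u hs le_rfl, Nat.sub_self]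
      rfl
  · obtain ⟨v, hv⟩ := te.ex u h.1 hs
    obtain ⟨m1, m2, -, -, -, m3⟩ := te.mem v u hv
    obtain ⟨a1, a2, a3, a4⟩ := ky.ends v m2.1
    obtain ⟨b1, b2⟩ := ky.ht v v (sam.refl m2.1)
    rw [cl.te v u hv] at hl
    rcases cl.head v m1 with ⟨-, p, q, q'⟩ | ⟨-, p, q, q'⟩ | ⟨a, b, c, rfl⟩
    · have e := p u m2.symm hs
      rw [df_le e] at m3
      refine (min_le_left _ _).trans ?_
      rw [← ky.tp _ z ((a1.trans m2).trans h) a2, hT _ ⟨a1.1, Or.inl a2⟩ (by omega),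
        add_sub _ b1 e]
      omega
    · have e := p u m2.symm hs
      rw [df_ge e] at m3
      refine (min_le_right _ _).trans ?_
      rw [← ky.bt _ z ((a3.trans m2).trans h) a4, hT _ ⟨a3.1, Or.inr a4⟩ (by omega),
        add_sub _ e b2]
      omega
    · rw [(cl.can a b c).2.2.1] at hl
      simp at hl

theorem rep (bk : S.BlkK) (a : ℕ) (h : S.port a) : S.port (S.rep (S.blk a)) ∧
    S.blk (S.rep (S.blk a)) = S.blk a ∧ S.sam (S.M.nd (S.rep (S.blk a))) (S.M.nd a) :=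
  have p := (lst_spec (P := fun x => S.port x ∧ S.blk x = S.blk a) ⟨a, h.1, h, rfl⟩).2
  ⟨p.1, p.2, bk.s2 _ _ p.1 h p.2⟩

theorem app {I l : List ℕ} {x y : ℕ} (h : Pre I (l ++ [x, y])) :
    Pre I l ∧ gt I (l.length + 1) = x ∧ gt I (l.length + 2) = y := by
  refine ⟨fun j hj => (h j (by simp; omega)).trans ?_, (h _ (by simp)).trans ?_,
    (h (l.length + 1) (by simp)).trans ?_⟩
  · exact List.getD_append _ _ _ _ hj
  · simp [gt]
  · simp [gt]

theorem last (bk : S.BlkK) (te : S.TerK) (cl : S.ClsK) (le : S.LenK B) (I : List ℕ) (z : ℕ)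
    (hz : S.K z) (hI : Pre I (S.C z)) (h3 : 3 ≤ (S.C z).length) :
    S.sam (S.lz I ((S.C z).length / 2)) z := by
  obtain ⟨v, hv⟩ := te.ex z hz fun hs => by simp [cl.sp z hs] at h3
  obtain ⟨m1, m2, -⟩ := te.mem v z hv
  rw [cl.te v z hv] at hI h3 ⊢
  rcases cl.head v m1 with ⟨p, -⟩ | ⟨p, -⟩ | ⟨a, b, c, rfl⟩
  · simp [p] at h3
  · simp [p] at h3
  · obtain ⟨⟨pa, pb, -⟩, -, e, -⟩ := cl.can a b c
    have o := (le _ pa.2.1).2
    rw [e] at hI ⊢
    rw [Sk.lz, if_neg (by simp), show 2 * ((S.C (S.M.nd a) ++ [S.blk a, S.blk b]).length / 2)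
      + 1 = (S.C (S.M.nd a)).length + 2 by simp; omega, (app hI).2.2]
    exact (rep bk b pb).2.2.trans m2

end D0L

open D0L in
theorem d0S : D0S := by
  intro S r μ B k ky ln bk bl te cl le
  refine ⟨lo k ky ln bl, hi ky te cl, D0L.rep bk, last bk te cl le, fun I a b c hI => ?_⟩
  obtain ⟨⟨pa, -⟩, -, e, -⟩ := cl.can a b c
  have o := (le _ pa.2.1).2
  rw [e] at hI ⊢
  obtain ⟨p1, p2, p3⟩ := app hI
  have e1 : 2 * ((S.C (S.M.nd a)).length / 2 + 1) = (S.C (S.M.nd a)).length + 1 := by omega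
  refine ⟨p1, by simp, e1 ▸ p2, e1 ▸ p3, ?_⟩
  by_cases h : (S.C (S.M.nd a)).length = 1
  · rw [h] at p2 ⊢
    rw [Sk.lz, if_pos rfl, p2]
    exact (D0L.rep bk a pa).2.2
  · exact last bk te cl le I _ pa.2.1 p1 (by omega)

end Pool.Agent.MP_1a6d78_lc.DS
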