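import Pool.Agent.MP_1a6d78_lc.PR.Defs

/-! Weighted walks in plane maps with one-way and two-way edges. -/

namespace Pool.Agent.MP_1a6d78_lc.DS

/-- `Walk σ α dir w s a c`: a walk of cost `c` from the vertex of the dart `s` to the vertex of the
dart `a`; the edge of a dart `a` may be used from the vertex of `a` to the vertex of `α a` iff
`dir a`, at the cost `w a`. -/
inductive Walk {n : ℕ} (σ α : Equiv.Perm (Fin n)) (dir : Fin n → Bool) (w : Fin n → ℕ)
    (s : Fin n) : Fin n → ℕ → Prop
  | nil : Walk σ α dir w s s 0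
  | rot {a : Fin n} {c : ℕ} : Walk σ α dir w s a c → Walk σ α dir w s (σ a) c
  | edge {a : Fin n} {c : ℕ} : Walk σ α dir w s a c → dir a = true →
      Walk σ α dir w s (α a) (c + w a)

/-- Every usable arc can be used backwards at the same cost or lies on no directed cycle. -/
def Mixed {n : ℕ} (σ α : Equiv.Perm (Fin n)) (dir : Fin n → Bool) (w : Fin n → ℕ) : Prop :=
  ∀ a, dir a = true → (dir (α a) = true ∧ w (α a) = w a) ∨ ¬PR.Reach σ α dir (α a) a

/-- The code of an instance: `n, s, t, θ` and the tables of `σ, α, w, dir`, in unary. -/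
def code {n : ℕ} (σ α : Equiv.Perm (Fin n)) (dir : Fin n → Bool) (w : Fin n → ℕ) (s t : Fin n)
    (θ : ℕ) : List Bool :=
  ED.unary ([n, s.val, t.val, θ] ++ List.ofFn (fun a => (σ a).val) ++
    List.ofFn (fun a => (α a).val) ++ List.ofFn w ++ List.ofFn fun a => if dir a then 1 else 0)

end Pool.Agent.MP_1a6d78_lc.DS
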