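import Pool.Agent.MP_1a6d78_lc.DS.Basic

/-! PROJECT DS, row DIJ: the sweep over the radius ends with the right value. -/

namespace Pool.Agent.MP_1a6d78_lc.DS

open Classical ED PR

namespace Dij

theorem base (S : Sk) (k : ℕ) (h0 : S.Kt0) (hk : cnt S.M.n S.sp ≤ k) :
    S.Inv k 0 (tab (k + k * k) fun i => if i < k then S.Z else 0) where
  g x hx := by
    have h1 : cnt x S.sp < k := (sel_cnt (h0.live x hx.1).2.1 hx).2.trans_le hk
    rw [if_neg (Nat.not_lt_zero _)]
    unfold Sk.g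
    rw [gt_tb _ (by omega), if_pos h1]
  rows r hr := by
    refine Or.inl ?_
    have h1 : gt (tab (k + k * k) fun i => if i < k then S.Z else 0) (k + r * k + 0) = 0 := by
      rcases Nat.lt_or_ge (k + r * k + 0) (k + k * k) with h | h
      · rw [gt_tb _ h, if_neg (by omega)]
      · exact gt_tb' _ h
    unfold nl row
    rw [gt_tb _ (by omega), h1]
  all z _ _ h := absurd h (Nat.not_lt_zero _)

theorem inv (S : Sk) (k t : ℕ) (h0 : S.Kt0) (hE : S.E1K k t) (hM : S.MkK k)
    (hk : cnt S.M.n S.sp ≤ k) : ∀ ρ ≤ S.Z, S.Inv k ρ (S.stt k t ρ) := by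
  intro ρ
  induction ρ with
  | zero => exact fun _ => base S k h0 hk
  | succ ρ ih =>
    intro h
    exact hM _ ρ h (hE ρ _ h (ih (Nat.le_of_succ_le h)))

end Dij

theorem dijS : DijS := by
  intro S k t h0 hK hB hE hM hk hX
  have h1 := hK.xb _ hX
  have h2 := (h0.live _ h1.1).1
  unfold Sk.res
  rw [(Dij.inv S k t h0 hE hM hk S.Z le_rfl).g _ h1, if_pos (hB.lt _ h2), hB.ans _ h2]

end Pool.Agent.MP_1a6d78_lc.DS
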