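import Pool.Agent.MP_1a6d78_lc.DS.Basic

/-! PROJECT DS: the distance to the skeleton. -/

namespace Pool.Agent.MP_1a6d78_lc.DS

open Classical ED PR

namespace DkL

variable {M : Mp} {w : ℕ → ℕ} {K : ℕ → Prop} {v z c : ℕ}

/-- The first entry of a walk into `K`. -/
theorem first (h : Wk M w U v z c) (hv : ¬K v) : Rc M w (fun x => ¬K x) v z ∨
    ∃ d < M.n, M.β d ≠ d ∧ K (M.nd (M.β d)) ∧ Rc M w (fun x => ¬K x) v (M.nd d) := by
  induction h with
  | nil _ => exact Or.inl ⟨0, .nil hv⟩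
  | @step u u' c d _ a b e e' _ ih =>
    subst e e'
    rcases ih with ⟨c0, k⟩ | k
    · by_cases q : K (M.nd (M.β d))
      · exact Or.inr ⟨d, a, b, q, c0, k⟩
      · exact Or.inl ⟨_, k.step a b rfl rfl q⟩
    · exact Or.inr k

theorem spec {W l Z : ℕ} {f : Fo} {o : ℕ → ℕ → ℕ} (hw : Wok M w W) (hl : Lok M w W l f)
    (hs : K (M.nd M.s)) (hK : ∀ v, K v → f.live v) (hZ : W ≤ Z) (ho : OrK M w f.live K o Z)
    (h1 : f.live v) (h2 : ¬K v) :
    (∃ d < M.n, M.β d ≠ d ∧ K (M.nd (M.β d)) ∧ ∃ c, Wk M w (fun x => ¬K x) v (M.nd d) c ∧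
      dK M w K o Z v = c + w d ∧ c + w d < W) ∧
    ∀ d < M.n, M.β d ≠ d → K (M.nd (M.β d)) → ∀ c, Wk M w (fun x => ¬K x) v (M.nd d) c →
      dK M w K o Z v ≤ c + w d := by
  obtain ⟨m, m1, m2⟩ := hw.max
  have val : ∀ d < M.n, Rc M w (fun x => ¬K x) v (M.nd d) → ¬K (M.nd d) ∧
      o v (M.nd d) = ds M w (fun x => ¬K x) v (M.nd d) ∧ o v (M.nd d) + w d < W := by
    intro d a k
    have k1 := ds_spec k
    have k2 := ho _ _ h1 h2 (hw.live hl.fit k1 h1) k1.mem.2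
    rw [if_pos k] at k2
    have k3 := ds_bnd hw.ok.iv (fun e p _ => m1 e p) k (hl.fit.1.lt v h1)
    have k4 := m1 d a
    have k5 : m * (M.n - 1) + m = M.n * m := by
      rw [← Nat.mul_succ, Nat.mul_comm]
      congr 1
      omega
    exact ⟨k1.mem.2, k2, by omega⟩
  obtain ⟨c0, p⟩ := hl.comp v h1
  obtain ⟨d, a, b, e, k⟩ := (first (K := K) (p.symm hw.ok.iv fun _ p q => hw.symm p q)
    h2).resolve_left fun ⟨_, k⟩ => k.mem.2 hs
  obtain ⟨v1, v2, v3⟩ := val d a k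
  obtain ⟨⟨q, q1, ⟨q2, q3, q4, q5⟩, q6⟩, mn⟩ := mnv_spec
    (P := fun d => M.β d ≠ d ∧ ¬K (M.nd d) ∧ K (M.nd (M.β d)) ∧ o v (M.nd d) < Z)
    (fun d => o v (M.nd d) + w d) ⟨d, a, b, v1, e, by omega⟩
  rw [dK, if_neg h2]
  refine ⟨?_, fun d a b e c k => ?_⟩
  · have l1 := hw.clo hl.fit (hw.ok.iv q q1).1 (hK _ q4)
    rw [(hw.ok.iv q q1).2] at l1
    have r : Rc M w (fun x => ¬K x) v (M.nd q) := by
      by_contra r
      rw [ho _ _ h1 h2 l1 q3, if_neg r] at q5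
      exact lt_irrefl _ q5
    obtain ⟨-, u2, u3⟩ := val q q1 r
    exact ⟨q, q1, q2, q4, _, ds_spec r, u2 ▸ q6, u2 ▸ u3⟩
  · obtain ⟨u1, u2, u3⟩ := val d a ⟨c, k⟩
    have := ds_le k
    exact (mn d a ⟨b, u1, e, by omega⟩).trans (by omega)

end DkL

theorem dkS : DkS := by
  intro M w W l f K o Z hw hl hs hK hZ ho
  have sp := fun v => DkL.spec (v := v) hw hl hs hK hZ ho
  have zero : ∀ v, K v → dK M w K o Z v = 0 := fun v k => if_pos k
  have lip : ∀ d < M.n, M.β d ≠ d → f.live (M.nd d) →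
      dK M w K o Z (M.nd d) ≤ dK M w K o Z (M.nd (M.β d)) + w d := by
    intro d a b h
    by_cases k : K (M.nd d)
    · rw [zero _ k]
      exact Nat.zero_le _
    by_cases k' : K (M.nd (M.β d))
    · have := (sp _ h k).2 d a b k' 0 (.nil k)
      omega
    · obtain ⟨e, e1, e2, e3, c, e4, e5, -⟩ := (sp _ (hw.clo hl.fit a h) k').1
      have := (sp _ h k).2 e e1 e2 e3 _ ((Wk.one (A := fun x => ¬K x) a b k k').trans e4)
      omega
  refine ⟨zero, fun v h => ?_, lip, fun v h k => ?_⟩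
  · by_cases k : K v
    · rw [zero _ k]
      exact hw.Wpos
    · obtain ⟨e, -, -, -, c, -, e5, e6⟩ := (sp v h k).1
      omega
  · obtain ⟨e, e1, e2, e3, c, e4, e5, -⟩ := (sp v h k).1
    rcases e4.exit with rfl | ⟨d, c', a, b, rfl, p, q⟩
    · have h1 := (sp _ h k).2 e e1 e2 e3 0 (.nil k)
      have h2 := zero _ e3
      exact ⟨e, e1, rfl, e2, by omega⟩
    · have h1 := (sp _ (hw.clo hl.fit a h) p.mem.1.1).2 e e1 e2 e3 _ (p.mono fun _ k => k.1)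
      have h2 := lip d a b h
      exact ⟨d, a, rfl, b, by omega⟩

end Pool.Agent.MP_1a6d78_lc.DS
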