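import Pool.Agent.MP_1a6d78_lc.DS.Basic

/-! PROJECT DS, row E1: one step of the search by radius. -/

namespace Pool.Agent.MP_1a6d78_lc.DS

open Classical ED PR

theorem e1S : E1S := by
  intro S k t kt ls be vl ρ T hρ inv z hz
  have e0 : ∀ v, S.K v → S.e0 k t T ρ v = if S.F v < ρ then S.F v else S.Z := fun v hv => by
    obtain ⟨a, b⟩ := vl ρ T inv v hv
    unfold Sk.e0
    by_cases h : S.F v < ρ
    · rw [b h]
    · rw [if_neg h, if_neg (by omega)]
  have e1 : ∀ v c, S.K v → S.e0 k t T ρ v + c = ρ → S.F v + c ≤ ρ := fun v c hv h => by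
    rw [e0 v hv] at h
    split_ifs at h <;> omega
  have e2 : ∀ v c, S.K v → 1 ≤ c → S.F v + c = ρ → S.e0 k t T ρ v + c = ρ := fun v c hv h h' => by
    rw [e0 v hv, if_pos (by omega), h']
  obtain ⟨a, b⟩ := vl ρ T inv z hz
  unfold Sk.e1
  by_cases h : S.F z < ρ
  · rw [b h, if_pos h, if_pos h.le]
  rw [if_neg (by omega)]
  have key : S.hit (S.e0 k t T ρ) ρ z ↔ S.F z ≤ ρ := by
    constructor
    · rintro (⟨rfl, -⟩ | ⟨d, hd, rfl, g, e⟩ | ⟨p, -, q, -, rfl, hp, hq, l, e⟩)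
      · rw [be.zero]
        exact Nat.zero_le _
      · exact (be.sl d hd g).1.trans (e1 _ _ (kt.gk d g).2 e)
      · exact (be.lg _ _ _ (ls.lg p q hp hq l)).trans (e1 _ _ hp.2.1 e)
    · intro u
      have e : S.F z = ρ := by omega
      by_cases q : z = S.M.nd S.M.s
      · exact Or.inl ⟨q, by rw [← e, q, be.zero]⟩
      rcases be.ex z hz q with ⟨d, hd, h1, h2, h3⟩ | ⟨p, hp, q, hq, h1, h2, h3, h4, h5⟩
      · exact Or.inr (Or.inl ⟨d, hd, h1, h2,
          e2 _ _ (kt.gk d h2).2 (be.sl d hd h2).2 (h3.trans e)⟩)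
      · exact Or.inr (Or.inr ⟨p, hp, q, hq, h1, h2, h3, h4, e2 _ _ h2.2.1
          (ls.pos _ _ _ (ls.lg p q h2 h3 h4)) (by rw [h5, h1, e])⟩)
  by_cases u : S.F z ≤ ρ
  · rw [if_pos (key.2 u), if_pos u]
    omega
  · rw [if_neg (mt key.1 u), if_neg u]

end Pool.Agent.MP_1a6d78_lc.DS
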