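import Pool.Agent.MP_1a6d78_lc.DS.Basic

/-! PROJECT DS, rows FM and PI: the forest map and the input are computable. -/

namespace Pool.Agent.MP_1a6d78_lc.DS

open Classical ED PR

theorem fmC : FmC := by
  intro κ M f ⟨hn, hρ, hβ, _, _, _⟩ nd hf
  have n0 : Cn κ fun x ρ => (M x).nd (hd (ρ 0)) := nd
  have nb : Cn κ fun x ρ => (M x).nd ((M x).β (hd (ρ 0))) := K.app nd hβ
  have F : Fm.C κ fun x => (M x).F (f x) :=
    ⟨hn, hρ, K.ite (K.and (K.appP hf.2.2.2.1 n0) (K.appP hf.2.2.2.1 nb)) hβ (K.v 0), nd,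
      K.ite (K.and hf.2.2.2.1 (K.ne hf.1 (K.v 0)))
        (K.lst (P := fun x ρ d => (M x).nd d = hd (ρ 0) ∧
          (M x).nd ((M x).β d) = (f x).par (hd (ρ 0))) hn
          (K.and (K.eq n0 (K.v 1)) (K.eq nb (K.app hf.1 (K.v 1))))) hn, hf.2.1⟩
  obtain ⟨tau, -⟩ := (aFm κ).1 _ F
  refine ⟨F, (aFm κ).2 (fun x _ => (M x).n) (fun x _ d => (M x).ρ (((M x).F (f x)).tau d))
    (fun x _ => (M x).rt (f x)) hn (K.app hρ tau) (K.le hn (K.app F.2.2.2.2.1 n0)),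
    fun n P c h1 h2 h3 => ?_⟩
  exact K.app h3 (K.lst (P := fun x ρ q => P x ρ q ∧ ∀ q' < n x ρ, P x ρ q' → c x ρ q ≤ c x ρ q')
    h1 (K.and h2 (K.all
      (P := fun x ρ q' => P x (tl ρ) q' → c x (tl ρ) (hd (ρ 0)) ≤ c x (tl ρ) q') (K.w h1)
      (K.imp (K.appP (K.wP1 (K.wP1 h2)) (K.v 0))
        (K.le (K.app (K.wF (K.wF h3)) (K.v 1)) (K.app (K.wF (K.wF h3)) (K.v 0)))))))

namespace Fmx

/-- A computable number is bounded by a polynomial. -/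
theorem pol {b : List Bool → ℕ} (h : Cn (fun _ => 1) fun x _ => b x) :
    ∃ e, ∀ x, b x ≤ (x.length + 2) ^ e := by
  obtain ⟨c, h1, -⟩ := h
  refine ⟨2 * c, fun x => ?_⟩
  have h2 := h1 x (fun _ => []) (x.length + 1)
    ⟨le_rfl, Nat.le_add_left _ _, Nat.le_succ _, fun _ _ k => absurd k List.not_mem_nil⟩ (b x)
    (List.mem_singleton.2 rfl)
  rw [pow_mul]
  exact h2.trans (Nat.pow_le_pow_left (by nlinarith) c)

end Fmx

theorem piS : PiS := by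
  intro _ hF r _
  have num : ∀ {κ : List Bool → ℕ} {a : List Bool → Env → ℕ}, Cn κ a →
      Cn κ fun x ρ => num x (a x ρ) := fun h => AlgD.numC (kitOne _) (kitTwo _) h
  have hn : ∀ κ, Cn κ fun x _ => ED.num x 0 := fun _ => num (K.c 0)
  have hM : ∀ κ, Mp.C κ inp := fun κ =>
    ⟨hn κ, num (K.add (K.c 4) (K.v 0)), num (K.add (K.add (K.c 4) (hn κ)) (K.v 0)),
      K.cgP (K.eq (K.c 0) (K.c 0)) fun _ _ => ⟨fun _ => trivial, fun _ => rfl⟩, num (K.c 1),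
      num (K.c 2)⟩
  have nd : ∀ κ, F1 κ fun x _ => (inp x).nd := fun κ =>
    K.lst (P := fun x ρ => Sc (inp x).n (inp x).ρ (hd (ρ 0))) (hM κ).1
      (K.sc (hM κ).1 (hM κ).2.1 (K.v 1) (K.v 0))
  have hro : ∀ κ, Cn κ fun x _ => ro r (ED.num x 0) := fun κ =>
    (kitOne κ).fold (fun x _ m acc => if m ^ r ≤ ED.num x 0 then m + 1 else acc)
      (fun _ _ m => m + 1) (K.add (hn κ) (K.c 1)) (K.c 0)
      ((kitOne κ).ile (K.pow r (K.v 1)) (hn κ) (K.add (K.v 1) (K.c 1)) (K.v 0))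
      (K.add (K.v 0) (K.c 1)) fun _ _ _ _ _ h1 h2 => by split_ifs <;> assumption
  have hmu : ∀ κ, Cn κ fun x _ => mu r (Dx r x) := fun κ =>
    K.mul (K.c (4000 * (r + 1))) (K.pow 4 (K.mul (K.c 5000) (hro κ)))
  have hk : ∀ κ, Cn κ fun x _ => kx r x := fun κ =>
    K.pow 5 (K.add (K.add (K.add (K.mul (K.c 6) (K.mul (K.mul (hmu κ) (K.add (hmu κ) (K.c 1)))
      (K.c (r + 1)))) (hmu κ)) (K.c 1)) (K.c 2))
  have hb : ∀ κ, Cn κ fun x _ => bs r x := fun κ => K.pow 3 (K.add (hk κ) (K.c 2))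
  refine ⟨fun _ => num (K.v 0), hM, nd,
    fun κ => num (K.add (K.add (K.add (K.c 4) (hn κ)) (hn κ)) (K.v 0)),
    fun κ => K.pow 2 (K.add (kitOne κ).len (K.c 1)), fun κ => K.pow 4 (K.add (kitOne κ).len (K.c 2)),
    hro, hk, fun κ => ?_, ⟨fun _ => le_rfl, hb, Fmx.pol (hb _)⟩, fun x => ?_⟩
  · have v : P1 κ fun x _ v => v < (inp x).n ∧ (inp x).nd v = v :=
      K.and (K.lt (K.v 0) (hn κ)) (K.eq (nd κ) (K.v 0))
    obtain ⟨F, -⟩ := hF κ inp (fun x => (inp x).f0) (hM κ) (nd κ) ⟨K.v 0, K.c 0, K.c 1, v, v⟩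
    obtain ⟨tau, -⟩ := (aFm κ).1 _ F
    have p := (aFm κ).2 (fun x _ => (inp x).n)
      (fun x _ d => (inp x).ρ (((inp x).F (inp x).f0).tau d)) (fun _ _ _ => True) (hM κ).1
      (K.app (hM κ).2.1 tau) (hM κ).2.2.2.1
    exact K.and (K.lt (K.v 0) (hn κ)) (K.and (K.eq (nd κ) (K.v 0))
      (K.eq (K.div p (hn κ)) (K.div (K.app p (hM κ).2.2.2.2.1) (hn κ))))
  · have h1 : 5 * Dx r x ^ 4 ≤ mu r (Dx r x) := Nat.mul_le_mul_right _ (by omega)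
    have h2 : bq (r + 1) (mu r (Dx r x)) + 2 ≤ kx r x := Nat.le_self_pow (by omega) _
    have h3 : kx r x + 2 ≤ bs r x := Nat.le_self_pow (by omega) _
    unfold bq at h2
    omega

end Pool.Agent.MP_1a6d78_lc.DS
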