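import Pool.Agent.MP_1a6d78_lc.DS.Basic

/-! PROJECT DS: two paths through isolated vertices cannot cross in a face. -/

namespace Pool.Agent.MP_1a6d78_lc.DS

open Classical ED PR

namespace Jor

theorem sw_l (a b : ℕ) : sw a b a = b := if_pos rfl

theorem sw_r (a b : ℕ) : sw a b b = a := by
  unfold sw
  split_ifs with h k
  exacts [h, rfl, absurd rfl k]

theorem sw_o {a b d : ℕ} (h : d ≠ a) (k : d ≠ b) : sw a b d = d := by
  rw [sw, if_neg h, if_neg k]

/-- A passage through a cycle acts on the other points as one transposition. -/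
theorem pass {n a b p x y z : ℕ} {f : ℕ → ℕ} (hf : Pm n f) (ha : a < n) (hb : b < n) (hp : p < n)
    (hx : x < n) (hy : y < n) (hab : a ≠ b) (hxp : x ≠ p) (px : Sc n f p x) (pa : ¬Sc n f p a)
    (pb : ¬Sc n f p b) (py : ¬Sc n f p y) (pz : ¬Sc n f p z)
    (h : Sc n (fun d => f (sw a p (sw x b d))) y z) : Sc n (fun d => f (sw a b d)) y z := by
  have pp := Sc.refl f hp
  have ap : a ≠ p := fun e => pa (e ▸ pp)
  have bp : b ≠ p := fun e => pb (e ▸ pp)
  have ax : a ≠ x := fun e => pa (e ▸ px)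
  have hk : Pm n fun d => f (sw p x d) := swapK.pm hf hp hx
  have hh : Pm n fun d => f (sw a b d) := swapK.pm hf ha hb
  have hg : Pm n fun d => f (sw a p (sw x b d)) :=
    swapK.pm (f := fun d => f (sw a p d)) (swapK.pm hf ha hp) hx hb
  have nk : ¬Sc n (fun d => f (sw p x d)) x p := fun k =>
    swapK.split hf hp hx hxp.symm px (k.symm hk hx)
  have cyc : ∀ g : ℕ → ℕ, Pm n g → ∀ c < n, ∀ d < n, Sc n g c (g d) ↔ Sc n g c d :=
    fun g q c hc d hd => ⟨fun k => k.trans q.1 hc ((Sc.step q.1 hd).symm q hd),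
      fun k => k.trans q.1 hc (Sc.step q.1 hd)⟩
  let π : ℕ → ℕ := fun d =>
    if Sc n f p d then (if Sc n (fun d => f (sw p x d)) x d then a else b) else d
  have off : ∀ d, ¬Sc n f p d → π d = d := fun d k => if_neg k
  have la : ∀ d, Sc n f p d → Sc n (fun d => f (sw p x d)) x d → π d = a :=
    fun d k k' => (if_pos k).trans (if_pos k')
  have lb : ∀ d, Sc n f p d → ¬Sc n (fun d => f (sw p x d)) x d → π d = b :=
    fun d k k' => (if_pos k).trans (if_neg k')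
  have key := Sc.ind hg.1 (Q := fun d => Sc n (fun d => f (sw a b d)) y (π d)) hy
    (by rw [off y py]; exact Sc.refl _ hy) (fun d hd k => ?_) h
  · rwa [off z pz] at key
  by_cases dx : d = x
  · rw [dx, la x px (Sc.refl _ hx)] at k
    rw [dx, sw_l, sw_o hab.symm bp, off _ (mt (cyc f hf p hp b hb).1 pb)]
    have := (cyc _ hh y hy a ha).2 k
    rwa [sw_l] at this
  by_cases db : d = b
  · rw [db, off b pb] at k
    rw [db, sw_r, sw_o ax.symm hxp, lb _ ((cyc f hf p hp x hx).2 px) fun q => nk ?_]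
    · exact k
    · refine (cyc _ hk x hx p hp).1 ?_
      rwa [sw_l]
  rw [sw_o dx db]
  by_cases da : d = a
  · rw [da, off a pa] at k
    rw [da, sw_l, la _ ((cyc f hf p hp p hp).2 pp) ?_]
    · exact k
    · have := Sc.step hk.1 hx
      rwa [sw_r] at this
  by_cases dp : d = p
  · rw [dp, lb p pp nk] at k
    rw [dp, sw_r, off _ (mt (cyc f hf p hp a ha).1 pa)]
    have := (cyc _ hh y hy b hb).2 k
    rwa [sw_r] at this
  rw [sw_o da dp]
  by_cases q : Sc n f p d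
  · have e := cyc _ hk x hx d hd
    rw [sw_o dp dx] at e
    by_cases q' : Sc n (fun d => f (sw p x d)) x d
    · rwa [(la _ ((cyc f hf p hp d hd).2 q) (e.2 q')).trans (la d q q').symm]
    · rwa [(lb _ ((cyc f hf p hp d hd).2 q) (mt e.1 q')).trans (lb d q q').symm]
  · rw [off d q] at k
    rw [off _ (mt (cyc f hf p hp d hd).1 q)]
    have := (cyc _ hh y hy d hd).2 k
    rwa [sw_o da db] at this

variable {M : Mp} {w γ : ℕ → ℕ} {V : ℕ → Prop} {a b : ℕ}

/-- The face of a dart of an isolated vertex is the vertex. -/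
theorem iso (hM : M.Ok) (hγ : Iv M.n γ) {p d : ℕ} (hp : p < M.n) (hd : d < M.n)
    (h : ∀ e < M.n, M.nd e = M.nd p → γ e = e) :
    Sc M.n (fun e => M.ρ (γ e)) p d ↔ M.nd d = M.nd p := by
  have hf := hM.pm.comp hγ.pm
  have st : ∀ e < M.n, M.nd (M.ρ e) = M.nd e := fun e he =>
    ((Mp.nd_iff hM.pm he (hM.pm.1 e he)).2 (Sc.step hM.pm.1 he)).symm
  constructor
  · exact Sc.ind hf.1 (Q := fun e => M.nd e = M.nd p) hp rfl fun e he k => by
      rw [h e he k, st e he, k]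
  · intro e
    refine (Sc.ind hM.pm.1 (Q := fun e => M.nd e = M.nd p ∧ Sc M.n (fun e => M.ρ (γ e)) p e) hp
      ⟨rfl, Sc.refl _ hp⟩ (fun e he k => ⟨(st e he).trans k.1, ?_⟩)
      ((Mp.nd_iff hM.pm hp hd).1 e.symm)).2
    have := k.2.trans hf.1 hp (Sc.step hf.1 he)
    rwa [h e he k.1] at this

theorem add_sb (hM : M.Ok) (hs : Sb M.n γ M.β) (ha : a < M.n) (ea : γ a = a)
    (eb : γ (M.β a) = M.β a) : Sb M.n (fun d => γ (sw a (M.β a) d)) M.β ∧
      Sb M.n γ fun d => γ (sw a (M.β a) d) := by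
  refine ⟨fun d hd => ?_, fun d _ => ?_⟩ <;> beta_reduce
  · by_cases h1 : d = a
    · exact Or.inr (by rw [h1, sw_l, eb])
    by_cases h2 : d = M.β a
    · exact Or.inr (by rw [h2, sw_r, ea, (hM.iv a ha).2])
    simpa only [sw_o h1 h2] using hs d hd
  · by_cases h1 : d = a
    · exact Or.inl (h1 ▸ ea)
    by_cases h2 : d = M.β a
    · exact Or.inl (h2 ▸ eb)
    exact Or.inr (by rw [sw_o h1 h2])

/-- The state of a path under construction. -/
structure St (M : Mp) (V : ℕ → Prop) (γ : ℕ → ℕ) (a b : ℕ) : Prop where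
  iv : Iv M.n γ
  sb : Sb M.n γ M.β
  ha : a < M.n
  hb : b < M.n
  ne : a ≠ b
  ea : γ a = a
  eb : γ b = b
  nb : M.β b ≠ b
  va : ¬V (M.nd a)
  vb : ¬V (M.nd b)
  fix : ∀ d < M.n, V (M.nd d) → γ d = d

/-- One more vertex of the path. -/
theorem adv (hM : M.Ok) (h : St M V γ a b) (k : Rc M w V (M.nd (M.β a)) (M.nd (M.β b))) :
    ∃ x, V (M.nd (M.β a)) ∧ M.nd x = M.nd (M.β a) ∧ x ≠ M.β a ∧
      St M (fun v => V v ∧ v ≠ M.nd (M.β a)) (fun d => γ (sw a (M.β a) d)) x b ∧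
      (M.β x = b ∨ Rc M w (fun v => V v ∧ v ≠ M.nd (M.β a)) (M.nd (M.β x)) (M.nd (M.β b))) := by
  obtain ⟨c, k⟩ := k
  have hu := k.mem.1
  have hp := hM.iv a h.ha
  have hq := hM.iv b h.hb
  have ep := h.fix _ hp.1 hu
  have mk : ∀ x < M.n, M.nd x = M.nd (M.β a) → x ≠ M.β a →
      St M (fun v => V v ∧ v ≠ M.nd (M.β a)) (fun d => γ (sw a (M.β a) d)) x b := fun x hx e q =>
    { iv := h.iv.add h.ha hp.1 h.ea ep
      sb := (add_sb hM h.sb h.ha h.ea ep).1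
      ha := hx
      hb := h.hb
      ne := fun r => h.vb (r ▸ e ▸ hu)
      ea := by rw [sw_o (fun r : x = a => h.va (r ▸ e ▸ hu)) q, h.fix x hx (e ▸ hu)]
      eb := by rw [sw_o h.ne.symm fun r => h.vb (r ▸ hu), h.eb]
      nb := h.nb
      va := fun r => r.2 e
      vb := fun r => h.vb r.1
      fix := fun d hd r => by
        rw [sw_o (fun s : d = a => h.va (s ▸ r.1)) fun s => r.2 (congrArg _ s), h.fix d hd r.1] }
  rcases k.exit with e | ⟨d, c', d1, -, d3, d4, -⟩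
  · have q : M.β b ≠ M.β a := fun r => h.ne (hM.iv.pm.2 a h.ha b h.hb r.symm)
    exact ⟨M.β b, hu, e.symm, q, mk _ hq.1 e.symm q, Or.inl hq.2⟩
  · have q : d ≠ M.β a := fun r => h.va (by have := d4.mem.1.1; rwa [r, hp.2] at this)
    exact ⟨d, hu, d3, q, mk d d1 d3 q, Or.inr ⟨c', d4⟩⟩

/-- A path through isolated vertices may replace a chord. -/
theorem one (hM : M.Ok) {y z : ℕ} (hy : y < M.n) (hz : z < M.n) (m : ℕ) :
    ∀ (V : ℕ → Prop) (γ : ℕ → ℕ) (a : ℕ), cnt M.n V < m → St M V γ a b → ¬V (M.nd y) →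
      ¬V (M.nd z) → ¬Sc M.n (fun d => M.ρ (γ (sw a b d))) y z →
      (M.β a = b ∨ Rc M w V (M.nd (M.β a)) (M.nd (M.β b))) →
      ∃ γ', Iv M.n γ' ∧ Sb M.n γ' M.β ∧ Sb M.n γ γ' ∧
        (∀ d < M.n, d ≠ a → d ≠ b → ¬V (M.nd d) → γ' d = γ d) ∧
        ¬Sc M.n (fun d => M.ρ (γ' d)) y z := by
  induction m with
  | zero => exact fun _ _ _ k => absurd k (Nat.not_lt_zero _)
  | succ m ih =>
    rintro V γ a hm h vy vz hn (e | k)
    · have s := add_sb hM h.sb h.ha h.ea (e ▸ h.eb)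
      rw [e] at s
      exact ⟨_, h.iv.add h.ha h.hb h.ea h.eb, s.1, s.2, fun d _ p q _ => by rw [sw_o p q], hn⟩
    obtain ⟨x, hu, ex, xp, h', k'⟩ := adv hM h k
    have hp := (hM.iv a h.ha).1
    have I : ∀ d < M.n, Sc M.n (fun e => M.ρ (γ e)) (M.β a) d ↔ M.nd d = M.nd (M.β a) :=
      fun d hd => iso hM h.iv hp hd fun e he r => h.fix e he (r ▸ hu)
    have N : ∀ d < M.n, ¬V (M.nd d) → ¬Sc M.n (fun e => M.ρ (γ e)) (M.β a) d :=
      fun d hd r s => r ((I d hd).1 s ▸ hu)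
    have l := cnt_lt (P := fun v => V v ∧ v ≠ M.nd (M.β a)) (fun _ _ r => r.1) (Mp.nd_spec hp).1 hu
      fun r => r.2 rfl
    obtain ⟨γ', i1, i2, i3, i4, i5⟩ := ih _ _ x (by omega) h' (fun r => vy r.1) (fun r => vz r.1)
      (fun r => hn (pass (hM.pm.comp h.iv.pm) h.ha h.hb hp h'.ha hy h.ne xp ((I x h'.ha).2 ex)
        (N a h.ha h.va) (N b h.hb h.vb) (N y hy vy) (N z hz vz) r)) k'
    refine ⟨γ', i1, i2, (add_sb hM h.sb h.ha h.ea (h.fix _ hp hu)).2.trans i3,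
      fun d hd p q r => ?_, i5⟩
    rw [i4 d hd (fun s => r (s ▸ ex ▸ hu)) q fun s => r s.1, sw_o p fun s => r (s ▸ hu)]

/-- The ends of a path through isolated vertices lie in one face. -/
theorem two (hM : M.Ok) (m : ℕ) :
    ∀ (V : ℕ → Prop) (γ : ℕ → ℕ) (a : ℕ), cnt M.n V < m → St M V γ a b → Conn M.n M.ρ γ a b →
      (M.β a = b ∨ Rc M w V (M.nd (M.β a)) (M.nd (M.β b))) →
      Sc M.n (fun d => M.ρ (γ d)) a b := by
  induction m with
  | zero => exact fun _ _ _ k => absurd k (Nat.not_lt_zero _)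
  | succ m ih =>
    rintro V γ a hm h hc (e | k)
    · exact e ▸ hM.pl γ h.iv h.sb a h.ha h.ea (e ▸ hc)
    obtain ⟨x, hu, ex, -, h', k'⟩ := adv hM h k
    have hp := (hM.iv a h.ha).1
    have hf := hM.pm.comp h.iv.pm
    have N : ∀ c < M.n, M.nd c = M.nd (M.β a) → ∀ d < M.n, ¬V (M.nd d) →
        ¬Sc M.n (fun e => M.ρ (γ e)) c d := fun c hc e d hd r s =>
      r (((iso hM h.iv hc hd fun e' he q => h.fix e' he ((q.trans e) ▸ hu)).1 s).trans e ▸ hu)
    have l := cnt_lt (P := fun v => V v ∧ v ≠ M.nd (M.β a)) (fun _ _ r => r.1) (Mp.nd_spec hp).1 hu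
      fun r => r.2 rfl
    have c1 := Conn.gam M.ρ (fun d => γ (sw a (M.β a) d)) hp
    rw [sw_r, h.ea] at c1
    have s := ih _ _ x (by omega) h'
      ((Sc.conn' _ hM.pm h'.ha ((Mp.nd_iff hM.pm h'.ha hp).1 ex)).trans
        (c1.trans (hc.mono (add_sb hM h.sb h.ha h.ea (h.fix _ hp hu)).2))) k'
    rcases (swapK.merge hf h.ha hp (fun r => N _ hp rfl a h.ha h.va (r.symm hf h.ha)) x h'.ha b
      h.hb).1 s with r | r | r
    exacts [absurd r (N x h'.ha ex b h.hb h.vb), absurd r.1 (N x h'.ha ex a h.ha h.va), r.2]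

end Jor

theorem jorS : JorS := by
  intro M w γ V V' a b a' b' hM iv sb ha hb ha' hb' n1 n2 n3 n4 n5 n6 e1 e2 e3 e4 _ t2 _ t4 dj hV
    hn hc p1 p2
  have va' : ¬V (M.nd a') := fun r => (hV a' ha' (Or.inl r)).2.2.2.1 rfl
  have vb' : ¬V (M.nd b') := fun r => (hV b' hb' (Or.inl r)).2.2.2.2.1 rfl
  obtain ⟨γ', i1, i2, i3, i4, i5⟩ := Jor.one hM ha' hb' _ V γ a (Nat.lt_succ_self _)
    ⟨iv, sb, ha, hb, n1, e1, e2, t2, fun r => (hV a ha (Or.inl r)).2.1 rfl,
      fun r => (hV b hb (Or.inl r)).2.2.1 rfl, fun d hd r => (hV d hd (Or.inl r)).1⟩ va' vb' hn p1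
  refine i5 (Jor.two hM _ V' γ' a' (Nat.lt_succ_self _) ⟨i1, i2, ha', hb', n2,
    (i4 a' ha' n3.symm n5.symm va').trans e3, (i4 b' hb' n4.symm n6.symm vb').trans e4, t4,
    fun r => (hV a' ha' (Or.inr r)).2.2.2.1 rfl, fun r => (hV b' hb' (Or.inr r)).2.2.2.2.1 rfl,
    fun d hd r => ?_⟩ (hc.mono i3) p2)
  have q := hV d hd (Or.inr r)
  exact (i4 d hd q.2.1 q.2.2.1 fun s => dj _ s r).trans q.1

end Pool.Agent.MP_1a6d78_lc.DS
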