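import Pool.Agent.MP_1a6d78_lc.DS.Basic

/-! PROJECT DS, row KEY: the classes are paths, the special vertices are their ends. -/

namespace Pool.Agent.MP_1a6d78_lc.DS

open Classical ED PR

namespace KeyP

variable {S : Sk} {r μ u v z x : ℕ}

theorem drop (h : S.Ok r μ) (k : S.Kt0) (hv : S.K v) (hp : S.f.par v ≠ v) :
    S.f.ht (S.f.par v) < S.f.ht v :=
  (h.fit.1.par v (k.live v hv).1 hp).2.2

theorem le1 (h : S.Ok r μ) (k : S.Kt0) (hv : S.K v) : S.f.ht (S.f.par v) ≤ S.f.ht v := by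
  by_cases e : S.f.par v = v
  · rw [e]
  · exact (drop h k hv e).le

theorem kit (k : S.Kt0) (hv : S.K v) (t : ℕ) : S.K (S.f.par^[t] v) := by
  induction t with
  | zero => exact hv
  | succ t ih => rw [Function.iterate_succ_apply']; exact k.par _ ih

theorem hit (h : S.Ok r μ) (k : S.Kt0) (hv : S.K v) (t : ℕ) :
    S.f.ht (S.f.par^[t] v) ≤ S.f.ht v := by
  induction t with
  | zero => exact le_rfl
  | succ t ih => rw [Function.iterate_succ_apply']; exact (le1 h k (kit k hv t)).trans ih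

theorem heq (h : S.Ok r μ) (k : S.Kt0) (hv : S.K v) (t : ℕ)
    (e : S.f.ht v ≤ S.f.ht (S.f.par^[t] v)) : S.f.par^[t] v = v := by
  by_cases q : S.f.par v = v
  · exact Function.iterate_fixed q t
  · cases t with
    | zero => rfl
    | succ t =>
      rw [Function.iterate_succ_apply] at e
      have a := hit h k (k.par v hv) t
      have b := drop h k hv q
      omega

theorem xk (k : S.Kt0) (hx : S.X x) : S.K x := (k.K x).2 ⟨x, hx, 0, rfl⟩

theorem belit (k : S.Kt0) (b : S.bel u x) (t : ℕ) : S.bel (S.f.par^[t] u) x := by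
  obtain ⟨hx, s, e⟩ := (k.bel u x).1 b
  exact (k.bel _ x).2 ⟨hx, t + s, by rw [Function.iterate_add_apply, e]⟩

theorem xlt (k : S.Kt0) (b : S.bel u x) : x < S.M.n := (k.live x (xk k b.1)).2.1

theorem exb (k : S.Kt0) (hu : S.K u) : ∃ x, S.bel u x :=
  ((k.K u).1 hu).imp fun x a => (k.bel u x).2 a

theorem wit (k : S.Kt0) (hu : S.K u) : S.bel u (lst S.M.n (S.bel u)) :=
  (lst_spec ((exb k hu).imp fun _ a => ⟨xlt k a, a⟩)).2

/-- Two vertices above one mark lie on one root path. -/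
theorem line (k : S.Kt0) (a : S.bel u x) (b : S.bel v x) :
    ∃ t, S.f.par^[t] v = u ∨ S.f.par^[t] u = v := by
  obtain ⟨_, s, e⟩ := (k.bel u x).1 a
  obtain ⟨_, t, e'⟩ := (k.bel v x).1 b
  rcases le_total s t with q | q
  · exact ⟨t - s, Or.inr (by rw [← e, ← Function.iterate_add_apply, Nat.sub_add_cancel q, e'])⟩
  · exact ⟨s - t, Or.inl (by rw [← e', ← Function.iterate_add_apply, Nat.sub_add_cancel q, e])⟩

theorem up (h : S.Ok r μ) (k : S.Kt0) (s : S.sam u v) (l : S.f.ht u ≤ S.f.ht v) :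
    ∃ t, S.f.par^[t] v = u := by
  have a := wit k s.1
  have b := wit k s.2.1
  rw [← s.2.2.1] at b
  obtain ⟨t, e | e⟩ := line k a b
  · exact ⟨t, e⟩
  · exact ⟨0, e.symm.trans (heq h k s.1 t (by rw [e]; exact l))⟩

theorem beq (k : S.Kt0) (s : S.sam u v) {t : ℕ} (e : S.f.par^[t] v = u) (b : S.bel u x) :
    S.bel v x := by
  by_contra q
  have := cnt_lt (n := S.M.n) (P := S.bel v) (Q := S.bel u)
    (fun a _ c => e ▸ belit k c t) (xlt k b) b q
  have := s.2.2.2.1
  omega

theorem mid (h : S.Ok r μ) (k : S.Kt0) (s : S.sam u v) {t m : ℕ} (e : S.f.par^[t] v = u)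
    (l : m ≤ t) : S.sam (S.f.par^[m] v) v := by
  have e' : S.f.par^[t - m] (S.f.par^[m] v) = u := by
    rw [← Function.iterate_add_apply, Nat.sub_add_cancel l, e]
  have i : ∀ a < S.M.n, S.bel (S.f.par^[m] v) a ↔ S.bel v a := fun a _ =>
    ⟨fun c => beq k s e (e' ▸ belit k c (t - m)), fun c => belit k c m⟩
  have a := hit h k s.2.1 m
  have b := hit h k (kit k s.2.1 m) (t - m)
  rw [e'] at b
  exact ⟨kit k s.2.1 m, s.2.1, lst_congr i, cnt_congr i, le_antisymm (Nat.div_le_div_right a)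
    (s.2.2.2.2.ge.trans (Nat.div_le_div_right b))⟩

theorem cmp (h : S.Ok r μ) (k : S.Kt0) (s : S.sam u v) (l : S.f.ht u ≤ S.f.ht v) :
    ∃ t, S.f.par^[t] v = u ∧ ∀ m ≤ t, S.sam (S.f.par^[m] v) v ∧
      (m < t → S.f.par (S.f.par^[m] v) ≠ S.f.par^[m] v) := by
  have ex := up h k s l
  refine ⟨Nat.find ex, Nat.find_spec ex, fun m q => ⟨mid h k s (Nat.find_spec ex) q, fun q' e => ?_⟩⟩
  refine Nat.find_min ex q' ?_
  have := Nat.find_spec ex
  rw [← Nat.sub_add_cancel q, Function.iterate_add_apply, Function.iterate_fixed e] at this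
  exact this

theorem topmin (h : S.Ok r μ) (k : S.Kt0) (s : S.sam u z) (a : S.top z)
    (l : S.f.ht u ≤ S.f.ht z) : u = z := by
  obtain ⟨t, e, q⟩ := cmp h k s l
  cases t with
  | zero => exact e.symm
  | succ t =>
    rcases a with a | a
    · exact absurd a ((q 0 (Nat.zero_le _)).2 t.succ_pos)
    · exact absurd (q 1 (by omega)).1 a

theorem botmax (h : S.Ok r μ) (k : S.Kt0) (s : S.sam u z) (a : S.bot u)
    (l : S.f.ht u ≤ S.f.ht z) : u = z := by
  obtain ⟨t, e, q⟩ := cmp h k s l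
  cases t with
  | zero => exact e.symm
  | succ t =>
    rw [Function.iterate_succ_apply'] at e
    obtain ⟨q1, q2⟩ := q t t.le_succ
    exact absurd ⟨_, (k.live _ q1.1).2.1, fun c => q2 t.lt_succ_self (e.trans c.symm), e,
      q1.trans s.symm⟩ a

theorem extop (h : S.Ok r μ) (k : S.Kt0) (hz : S.K z) :
    ∃ u < S.M.n, S.sam u z ∧ S.top u := by
  obtain ⟨u, k1, k2⟩ := Finset.exists_min_image ((Finset.range S.M.n).filter fun u => S.sam u z)
    S.f.ht ⟨z, Finset.mem_filter.2 ⟨Finset.mem_range.2 (k.live z hz).2.1, Sk.sam.refl hz⟩⟩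
  rw [Finset.mem_filter, Finset.mem_range] at k1
  refine ⟨u, k1.1, k1.2, ?_⟩
  by_cases e : S.f.par u = u
  · exact Or.inl e
  · refine Or.inr fun c => ?_
    have := k2 _ (Finset.mem_filter.2 ⟨Finset.mem_range.2 (k.live _ c.1).2.1, c.trans k1.2⟩)
    have := drop h k k1.2.1 e
    omega

theorem exbot (h : S.Ok r μ) (k : S.Kt0) (hz : S.K z) :
    ∃ u < S.M.n, S.sam u z ∧ S.bot u := by
  obtain ⟨u, k1, k2⟩ := Finset.exists_max_image ((Finset.range S.M.n).filter fun u => S.sam u z)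
    S.f.ht ⟨z, Finset.mem_filter.2 ⟨Finset.mem_range.2 (k.live z hz).2.1, Sk.sam.refl hz⟩⟩
  rw [Finset.mem_filter, Finset.mem_range] at k1
  refine ⟨u, k1.1, k1.2, ?_⟩
  rintro ⟨w, a, b, c, d⟩
  have := k2 _ (Finset.mem_filter.2 ⟨Finset.mem_range.2 a, d.trans k1.2⟩)
  have := drop h k d.1 (c ▸ b.symm)
  rw [c] at this
  omega

theorem ends (h : S.Ok r μ) (k : S.Kt0) (hz : S.K z) :
    S.sam (S.tp z) z ∧ S.top (S.tp z) ∧ S.sam (S.bt z) z ∧ S.bot (S.bt z) :=
  have a := (lst_spec (P := fun u => S.sam u z ∧ S.top u) (extop h k hz)).2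
  have b := (lst_spec (P := fun u => S.sam u z ∧ S.bot u) (exbot h k hz)).2
  ⟨a.1, a.2, b.1, b.2⟩

theorem xb (h : S.Ok r μ) (k : S.Kt0) (hx : S.X x) : S.sp x := by
  refine ⟨xk k hx, Or.inr ?_⟩
  rintro ⟨w, _, b, c, d⟩
  have e : S.bel w x := beq k d.symm (t := 1) c ((k.bel x x).2 ⟨hx, 0, rfl⟩)
  obtain ⟨_, t, e⟩ := (k.bel w x).1 e
  have a := hit h k (xk k hx) t
  have := drop h k d.1 (c ▸ b.symm)
  rw [c] at this
  rw [e] at a
  omega

/-- Two children of one vertex on one root path are equal. -/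
theorem sib (h : S.Ok r μ) (k : S.Kt0) {w t : ℕ} (hu : S.K u) (hw : S.K w) (n : w ≠ v)
    (a : S.f.par u = v) (b : S.f.par w = v) (e : S.f.par^[t] u = w) : u = w := by
  cases t with
  | zero => exact e
  | succ t =>
    rw [Function.iterate_succ_apply] at e
    have c := hit h k (k.par u hu) t
    have := drop h k hw (b ▸ n.symm)
    rw [b] at this
    rw [e, a] at c
    omega

theorem only (h : S.Ok r μ) (k : S.Kt0) {w : ℕ} (n : w ≠ v) (b : S.f.par w = v)
    (s : S.sam w v) (hu : S.K u) (n' : u ≠ v) (a : S.f.par u = v) : u = w := by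
  obtain ⟨x, c⟩ := exb k hu
  have c1 : S.bel v x := a ▸ belit k c 1
  have c2 : S.bel w x := beq k s.symm (t := 1) b c1
  obtain ⟨t, e | e⟩ := line k c c2
  · exact (sib h k s.1 hu n' b a e).symm
  · exact sib h k hu s.1 n a b e

end KeyP

open KeyP in
theorem keyS : KeyS := fun S _ _ h k =>
  { ends := fun _ hz => ends h k hz
    tp := fun u z s a => by
      obtain ⟨b, c, _⟩ := ends h k s.2.1
      rcases le_total (S.f.ht u) (S.f.ht (S.tp z)) with q | q
      · exact topmin h k (s.trans b.symm) c q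
      · exact (topmin h k (b.trans s.symm) a q).symm
    bt := fun u z s a => by
      obtain ⟨_, _, b, c⟩ := ends h k s.2.1
      rcases le_total (S.f.ht u) (S.f.ht (S.bt z)) with q | q
      · exact botmax h k (s.trans b.symm) a q
      · exact (botmax h k (b.trans s.symm) c q).symm
    ht := fun u z s => by
      obtain ⟨b, c, b', c'⟩ := ends h k s.2.1
      constructor
      · rcases le_total (S.f.ht u) (S.f.ht (S.tp z)) with q | q
        · rw [← topmin h k (s.trans b.symm) c q]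
        · exact q
      · rcases le_total (S.f.ht u) (S.f.ht (S.bt z)) with q | q
        · exact q
        · rw [botmax h k (b'.trans s.symm) c' q]
    cmp := fun _ _ s l => cmp h k s l
    inj := fun u v s e => by
      obtain ⟨t, q⟩ := up h k s e.le
      exact q.symm.trans (heq h k s.2.1 t (by rw [q]; exact e.ge))
    xb := fun _ hx => xb h k hx
    child := fun v u hv n hu n' a => by
      obtain ⟨w, _, b, c, d⟩ := not_not.1 fun q => n ⟨hv, Or.inr q⟩
      have e := only h k b c d hu n' a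
      exact ⟨e ▸ d, fun u' p q o => (only h k b c d p q o).trans e.symm⟩
    nxt := fun u v s _ l => by
      obtain ⟨t, q⟩ := up h k s l.le
      cases t with
      | zero => exact absurd l (by rw [← q]; exact lt_irrefl _)
      | succ t =>
        rw [Function.iterate_succ_apply] at q
        exact q ▸ hit h k (k.par v s.2.1) t }

end Pool.Agent.MP_1a6d78_lc.DS
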