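import Pool.Agent.MP_1a6d78_lc.DS.Basic

/-! PROJECT DS, row KT: the darts of the skeleton form one cycle of the contour. -/

namespace Pool.Agent.MP_1a6d78_lc.DS

open Classical ED PR

namespace KtA

/-- The least index of a dart on the cycle of `z`. -/
theorem idx {n z a : ℕ} {φ : ℕ → ℕ} (hf : Pm n φ) (hz : z < n) (k : Sc n φ z a) :
    lst n (fun t => it n φ t z = a) < n ∧ φ^[lst n fun t => it n φ t z = a] z = a ∧
      ∀ t < n, φ^[t] z = a → lst n (fun t => it n φ t z = a) ≤ t := by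
  obtain ⟨k1, k2⟩ := lst_spec (P := fun t => it n φ t z = a) k
  exact ⟨k1, (it_eq hf.1 hz _).symm.trans k2, fun t ht e =>
    lst_le (P := fun t => it n φ t z = a) ht ((it_eq hf.1 hz t).trans e)⟩

/-- On one cycle the positions increase by one along the walk. -/
theorem run_ps {n d e : ℕ} {φ : ℕ → ℕ} {rt : ℕ → Prop} (hf : Pm n φ) (hd : d < n)
    (k : Sc n φ d e) (hr : ∃ r < n, Sc n φ d r ∧ rt r) (h : ps n φ rt d ≤ ps n φ rt e) :
    ∃ t, φ^[t] d = e ∧ ∀ s ≤ t, ps n φ rt (φ^[s] d) = ps n φ rt d + s := by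
  obtain ⟨hz, kz, -⟩ : st n φ rt d < n ∧ Sc n φ d (st n φ rt d) ∧ rt (st n φ rt d) := lst_spec hr
  have zd := kz.symm hf hd
  obtain ⟨-, i2, -⟩ := idx hf hz zd
  obtain ⟨j1, j2, j3⟩ := idx hf hz (zd.trans hf.1 hz k)
  have he : st n φ rt e = st n φ rt d := (Cont.st_eq hf hd k).symm
  have hs : ∀ s, st n φ rt (φ^[s] d) = st n φ rt d := fun s =>
    (Cont.st_eq hf hd ((sc_iff hf.1 hd).2 ⟨s, rfl⟩)).symm
  unfold ps at h ⊢
  simp only [hs]
  rw [he] at h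
  generalize st n φ rt d = z at *
  generalize lst n (fun t => it n φ t z = d) = i at *
  generalize lst n (fun t => it n φ t z = e) = j at *
  have hij : i ≤ j := by omega
  have inj := iter_first j2 fun t ht q => absurd (j3 t (ht.trans j1) q) (not_le.2 ht)
  refine ⟨j - i, ?_, fun s hs' => ?_⟩
  · rw [← i2, ← Function.iterate_add_apply, Nat.sub_add_cancel hij, j2]
  · have ea : φ^[s + i] z = φ^[s] d := by rw [Function.iterate_add_apply, i2]
    obtain ⟨-, a2, a3⟩ := idx hf hz ((sc_iff hf.1 hz).2 ⟨s + i, ea⟩)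
    have l1 := a3 (s + i) (by omega) ea
    have := inj _ (by omega) (s + i) (by omega) (a2.trans ea.symm)
    omega

variable {S : Sk} {r μ : ℕ}

theorem c_nd (ok : S.Ok r μ) {d : ℕ} (hd : d < S.M.n) : Conn S.M.n S.M.ρ S.gam d (S.M.nd d) :=
  (Mp.nd_spec hd).2.conn' _ ok.wok.ok.pm hd

theorem c_par (ok : S.Ok r μ) (kt : S.Kt0) {v : ℕ} (hv : S.K v) :
    Conn S.M.n S.M.ρ S.gam v (S.f.par v) := by
  by_cases e : S.f.par v = v
  · rw [e]; exact Conn.refl _ _ _ _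
  · obtain ⟨a, b, -, c⟩ := kt.up v hv e
    have h1 := c_nd ok a
    have h2 := c_nd ok (kt.iv _ a).1
    rw [b] at h1
    rw [c] at h2
    exact h1.symm.trans ((Conn.gam _ _ a).trans h2)

theorem c_iter (ok : S.Ok r μ) (kt : S.Kt0) {v : ℕ} (hv : S.K v) (t : ℕ) :
    Conn S.M.n S.M.ρ S.gam v (S.f.par^[t] v) :=
  (iter_inv (Q := fun u => S.K u ∧ Conn S.M.n S.M.ρ S.gam v u)
    (fun u k => ⟨kt.par u k.1, k.2.trans (c_par ok kt k.1)⟩) ⟨hv, Conn.refl _ _ _ _⟩ t).2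

/-- Some ancestor lies in the skeleton and is joined to the source there. -/
def Q (S : Sk) (v : ℕ) : Prop :=
  ∃ t, S.K (S.f.par^[t] v) ∧ Conn S.M.n S.M.ρ S.gam (S.f.par^[t] v) S.M.s

theorem q_par (ok : S.Ok r μ) (kt : S.Kt0) (v : ℕ) : Q S v ↔ Q S (S.f.par v) := by
  constructor
  · rintro ⟨t, a, b⟩
    refine ⟨t, ?_⟩
    rw [← Function.iterate_succ_apply, Function.iterate_succ_apply']
    exact ⟨kt.par _ a, (c_par ok kt a).symm.trans b⟩
  · rintro ⟨t, a⟩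
    exact ⟨t + 1, a⟩

theorem q_K (ok : S.Ok r μ) (kt : S.Kt0) {v : ℕ} (hv : S.K v) :
    Q S v ↔ Conn S.M.n S.M.ρ S.gam v S.M.s :=
  ⟨fun ⟨t, _, b⟩ => (c_iter ok kt hv t).trans b, fun k => ⟨0, hv, k⟩⟩

theorem q_tau (ok : S.Ok r μ) (kt : S.Kt0) (s : S.M.SetK S.f) {d : ℕ} (hd : d < S.M.n) :
    Q S (S.M.nd d) ↔ Q S (S.M.nd ((S.M.F S.f).tau d)) := by
  by_cases e : (S.M.F S.f).tau d = d
  · rw [e]
  have eb : (S.M.F S.f).tau d = (S.M.F S.f).β d := (s.msf.sb d hd).resolve_left e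
  obtain ⟨b1, b2⟩ := s.fok.iv d hd
  by_cases hF : (S.M.F S.f).isF d
  · rcases hF with p | p
    · obtain ⟨-, c2, c3⟩ := s.child d hd p
      rw [eb, c3, ← c2]
      exact q_par ok kt _
    · obtain ⟨-, c2, c3⟩ := s.child _ b1 p
      rw [← c3, b2] at c2
      rw [eb, ← c2]
      exact (q_par ok kt _).symm
  · have c1 : S.con d := ⟨e, hF⟩
    have c2 : S.con ((S.M.F S.f).tau d) := by
      refine ⟨?_, fun k => hF ?_⟩
      · rw [(s.msf.iv d hd).2]; exact Ne.symm e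
      · rw [eb] at k
        unfold Fm.isF at k ⊢
        rw [b2] at k
        exact k.symm
    have t1 := (s.msf.iv d hd).1
    have k1 : S.K (S.M.nd d) := (kt.K _).2 ⟨_, ok.xc d hd c1, 0, rfl⟩
    have k2 : S.K (S.M.nd ((S.M.F S.f).tau d)) := (kt.K _).2 ⟨_, ok.xc _ t1 c2, 0, rfl⟩
    have g : S.gam d = (S.M.F S.f).tau d := if_pos ⟨k1, k2⟩
    have cn : Conn S.M.n S.M.ρ S.gam (S.M.nd d) (S.M.nd ((S.M.F S.f).tau d)) :=
      (c_nd ok hd).symm.trans ((g ▸ Conn.gam S.M.ρ S.gam hd).trans (c_nd ok t1))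
    rw [q_K ok kt k1, q_K ok kt k2]
    exact ⟨fun k => cn.symm.trans k, fun k => cn.trans k⟩

theorem q_beta (ok : S.Ok r μ) (kt : S.Kt0) (s : S.M.SetK S.f) {d : ℕ} (hd : d < S.M.n)
    (hl : S.f.live (S.M.nd d)) : Q S (S.M.nd d) ↔ Q S (S.M.nd (S.M.β d)) := by
  have eb : (S.M.F S.f).β d = S.M.β d := if_pos ⟨hl, ok.wok.clo ok.fit hd hl⟩
  have sp : Conn S.M.n S.M.ρ (S.M.F S.f).tau d ((S.M.F S.f).β d) := by
    refine Conn.mono (fun x _ => ?_) (s.msf.span d hd)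
    by_cases q : (S.M.F S.f).mx x ≤ (S.M.F S.f).mx d
    · exact Or.inr (if_pos q)
    · exact Or.inl (if_neg q)
  rw [eb] at sp
  refine Conn.ind (r := fun a b => Q S (S.M.nd a) ↔ Q S (S.M.nd b))
    ⟨fun _ => Iff.rfl, Iff.symm, Iff.trans⟩ (fun a ha => ?_) (fun a ha => q_tau ok kt s ha) sp
  rw [(Mp.nd_iff ok.wok.ok.pm ha (ok.wok.ok.pm.1 a ha)).2 (Sc.step ok.wok.ok.pm.1 ha)]

/-- The skeleton is connected. -/
theorem conn (ok : S.Ok r μ) (kt : S.Kt0) (s : S.M.SetK S.f) {d : ℕ} (hd : d < S.M.n)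
    (hK : S.K (S.M.nd d)) : Conn S.M.n S.M.ρ S.gam d S.M.s := by
  obtain ⟨c, p⟩ := ok.comp _ (kt.live _ hK).1
  have k0 : S.K (S.M.nd S.M.s) := (kt.K _).2 ⟨_, ok.xs, 0, rfl⟩
  have := (p.inv (P := fun v => S.f.live v ∧ Q S v)
    ⟨ok.xl _ ok.xs, (q_K ok kt k0).2 (c_nd ok ok.wok.ok.s).symm⟩
    fun e he _ _ _ k => ⟨ok.wok.clo ok.fit he k.1, (q_beta ok kt s he k.1).1 k.2⟩).1.2
  exact (c_nd ok hd).trans ((q_K ok kt hK).1 this)

theorem gam_sb (d : ℕ) : S.gam d = d ∨ S.gam d = (S.M.F S.f).tau d := by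
  unfold Sk.gam
  split_ifs
  · exact Or.inr rfl
  · exact Or.inl rfl

theorem bridge (s : S.M.SetK S.f) (d : ℕ) (hd : d < S.M.n) (e : S.gam d ≠ d) :
    ¬Conn S.M.n S.M.ρ (del S.gam d) d (S.gam d) := by
  have g := (gam_sb d).resolve_left e
  intro k
  refine s.msf.br d hd (g ▸ e) (g ▸ Conn.mono (fun x _ => ?_) k)
  unfold del
  rw [g]
  split_ifs
  · exact Or.inl rfl
  · exact gam_sb x

end KtA

open KtA

theorem ktS : KtS := by
  intro S r μ ok kt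
  refine ⟨kt, fun d hd e he kd ke h => ?_⟩
  have s := gSetS (msfS nclK) (msfC nclK) (contS swapK) S.M S.f ok.wok.ok ok.fit
  have hρ := ok.wok.ok.pm
  have sc : ∀ b, Conn S.M.n S.M.ρ S.gam d b → Sc S.M.n S.psi d b := fun b k =>
    Cont.conn_sc swapK hρ kt.iv (bridge s) hd k
  have cd := conn ok kt s hd kd
  exact run_ps (φ := S.psi) (hρ.comp kt.iv.pm) hd (sc e (cd.trans (conn ok kt s he ke).symm))
    ⟨_, ok.wok.ok.s, sc _ cd, Or.inr ok.fit.2.ps⟩ h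

end Pool.Agent.MP_1a6d78_lc.DS
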