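import Pool.Agent.MP_1a6d78_lc.DS.Basic

/-! PROJECT DS, row KT0: the tree on the skeleton and its contour. -/

namespace Pool.Agent.MP_1a6d78_lc.DS

open Classical ED PR

namespace KT0

variable {S : Sk}

theorem gam_or (S : Sk) (d : ℕ) : S.gam d = d ∨ (S.gam d = (S.M.F S.f).tau d ∧ S.K (S.M.nd d) ∧
    S.K (S.M.nd ((S.M.F S.f).tau d))) := by
  unfold Sk.gam
  split_ifs with h
  exacts [Or.inr ⟨rfl, h⟩, Or.inl rfl]

theorem gam_pos {d : ℕ} (h : S.K (S.M.nd d)) (k : S.K (S.M.nd ((S.M.F S.f).tau d))) :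
    S.gam d = (S.M.F S.f).tau d := if_pos ⟨h, k⟩

theorem lpar (hf : S.f.Ok S.M.n S.M.arc) (a : ℕ) (h : S.f.live a) : S.f.live (S.f.par a) := by
  by_cases e : S.f.par a = a
  · rwa [e]
  · exact (hf.par a h e).2.1

theorem bnd (hf : S.f.Ok S.M.n S.M.arc) {x v : ℕ} (h : S.f.live x) :
    (∃ t < S.M.n, it S.M.n S.f.par t x = v) ↔ ∃ t, S.f.par^[t] x = v :=
  ⟨fun ⟨t, _, e⟩ => ⟨t, (it_eq' (lpar hf) hf.lt h t).symm.trans e⟩, fun ⟨_, e⟩ =>
    (iter_bnd' (lpar hf) hf.lt h e).imp fun s k => ⟨k.1, (it_eq' (lpar hf) hf.lt h s).trans k.2⟩⟩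

end KT0

open KT0 in
theorem kt0S : Kt0S := by
  intro S r μ ok
  have hM := ok.wok.ok
  have hf := ok.fit.1
  have s := gSetS (msfS nclK) (msfC nclK) (contS swapK) S.M S.f hM ok.fit
  have hK : ∀ v, S.K v ↔ ∃ x, S.X x ∧ ∃ t, S.f.par^[t] x = v := fun v =>
    ⟨fun ⟨x, _, a, b⟩ => ⟨x, a, (bnd hf (ok.xl x a)).1 b⟩,
      fun ⟨x, a, b⟩ => ⟨x, hf.lt x (ok.xl x a), a, (bnd hf (ok.xl x a)).2 b⟩⟩
  have hl : ∀ v, S.K v → S.f.live v := fun v h => by
    obtain ⟨x, a, t, rfl⟩ := (hK v).1 h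
    exact iter_inv (lpar hf) (ok.xl x a) t
  have hp : ∀ v, S.K v → S.K (S.f.par v) := fun v h => by
    obtain ⟨x, a, t, rfl⟩ := (hK v).1 h
    exact (hK _).2 ⟨x, a, t + 1, Function.iterate_succ_apply' _ _ _⟩
  have ti : ∀ d < S.M.n, (S.M.F S.f).tau d < S.M.n ∧
      (S.M.F S.f).tau ((S.M.F S.f).tau d) = d := s.msf.iv
  have iv : Iv S.M.n S.gam := fun d hd => by
    rcases gam_or S d with e | ⟨e, a, b⟩
    · rw [e, e]
      exact ⟨hd, rfl⟩
    · rw [e, gam_pos b (by rwa [(ti d hd).2])]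
      exact ti d hd
  have sb : Sb S.M.n S.gam S.M.β := fun d hd => by
    rcases gam_or S d with e | ⟨e, -, -⟩
    · exact Or.inl e
    · rcases s.msf.sb d hd with k | k
      · exact Or.inl (e.trans k)
      · by_cases c : S.f.live (S.M.nd d) ∧ S.f.live (S.M.nd (S.M.β d))
        exacts [Or.inr (e.trans (k.trans (if_pos c))), Or.inl (e.trans (k.trans (if_neg c)))]
  have gk : ∀ d, S.gam d ≠ d → S.K (S.M.nd d) ∧ S.K (S.M.nd (S.gam d)) := fun d h => by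
    obtain ⟨e, a, b⟩ := (gam_or S d).resolve_left h
    exact ⟨a, e ▸ b⟩
  have up : ∀ v, S.K v → S.f.par v ≠ v → S.pd v < S.M.n ∧ S.M.nd (S.pd v) = v ∧
      S.gam (S.pd v) ≠ S.pd v ∧ S.M.nd (S.gam (S.pd v)) = S.f.par v := fun v h e => by
    obtain ⟨a, b, c⟩ : S.pd v < S.M.n ∧ S.M.nd (S.pd v) = v ∧
        S.M.nd (S.M.β (S.pd v)) = S.f.par v := GSet.pd_of hM hf ⟨hl v h, e⟩
    have k : (S.M.F S.f).pd (S.M.nd (S.pd v)) = S.pd v := congrArg S.pd b
    have t : (S.M.F S.f).tau (S.pd v) = S.M.β (S.pd v) :=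
      (s.msf.phi _ a (Or.inl k)).trans (s.child _ a k).2.2
    have g : S.gam (S.pd v) = S.M.β (S.pd v) :=
      (gam_pos (by rwa [b]) (by rw [t, c]; exact hp v h)).trans t
    rw [g]
    exact ⟨a, b, fun u => e (by rw [← c, u, b]), c⟩
  have ps : ∀ d < S.M.n, S.psi d < S.M.n ∧ S.M.nd (S.psi d) = S.M.nd (S.gam d) := fun d hd =>
    ⟨hM.pm.1 _ (iv d hd).1, ((Mp.nd_iff hM.pm (iv d hd).1 (hM.pm.1 _ (iv d hd).1)).2
      (Sc.step hM.pm.1 (iv d hd).1)).symm⟩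
  have ct := contS swapK S.M.n S.M.ρ S.gam S.gam
    (fun e => ¬S.K (S.M.nd e) ∨ S.f.par (S.M.nd e) = S.M.nd e) hM.pm iv (hM.pl.sub sb) iv
    (fun _ _ => Or.inr rfl) (fun d hd => Conn.gam _ _ hd) (fun d hd h c => by
      obtain ⟨e, -, -⟩ := (gam_or S d).resolve_left h
      refine s.msf.br d hd (e ▸ h) (e ▸ c.mono fun a _ => ?_)
      unfold del
      rw [e]
      split_ifs
      · exact Or.inl rfl
      · exact (gam_or S a).imp_right And.left) (fun d hd => by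
      induction hk : S.f.ht (S.M.nd d) using Nat.strong_induction_on generalizing d with
      | _ k ih =>
        by_cases q : ¬S.K (S.M.nd d) ∨ S.f.par (S.M.nd d) = S.M.nd d
        · exact ⟨d, hd, Conn.refl _ _ _ _, q⟩
        rw [not_or, not_not] at q
        obtain ⟨a, b, -, c⟩ := up _ q.1 q.2
        obtain ⟨e, h1, h2, h3⟩ := ih _ (by
          rw [c, ← hk]
          exact (hf.par _ (hl _ q.1) q.2).2.2) _ (iv _ a).1 rfl
        exact ⟨e, h1, (Sc.conn' _ hM.pm hd ((Mp.nd_iff hM.pm hd a).1 b.symm)).trans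
          ((Conn.gam _ _ a).trans h2), h3⟩)
  refine ⟨fun v x => and_congr_right fun a => bnd hf (ok.xl x a), hK,
    fun v h => ⟨hl v h, hf.lt v (hl v h), ok.fit.2.vx v (hl v h)⟩, hp, iv, sb, gk,
    fun d hd h => ?_, up, fun v h => (GSet.of_pd h).2, ct.inj, ps, fun d hd h => ?_,
    fun d hd h => ?_⟩
  · obtain ⟨e, -, -⟩ := (gam_or S d).resolve_left h
    have b : (S.M.F S.f).tau d = (S.M.F S.f).β d := (s.msf.sb d hd).resolve_left (e ▸ h)
    by_cases c : (S.M.F S.f).isF d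
    · exact c.imp_right fun c => Or.inl (by rw [e, b]; exact c)
    · refine Or.inr (Or.inr ⟨⟨e ▸ h, c⟩, ?_⟩)
      rw [e]
      refine ⟨by rw [(ti d hd).2]; exact (e ▸ h : _ ≠ d).symm, fun k => c ?_⟩
      rw [b, Fm.isF, (s.fok.iv d hd).2] at k
      exact k.symm
  · by_cases e : st S.M.n (fun d => S.M.ρ (S.gam d))
        (fun e => ¬S.K (S.M.nd e) ∨ S.f.par (S.M.nd e) = S.M.nd e) (S.psi d) = S.psi d
    · have k := ct.root _ (ps d hd).1
      rw [e] at k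
      refine Or.inr (k.resolve_left (not_not.2 ?_))
      rw [(ps d hd).2]
      by_cases g : S.gam d = d
      · rwa [g]
      · exact (gk d g).2
    · exact Or.inl (ct.succ d hd e)
  · have e : S.gam (S.M.β d) = S.M.β d ↔ S.gam d = d := by
      refine ⟨fun k => (sb d hd).resolve_right fun g => h ?_, Cont.fix hM.iv iv sb hd⟩
      rw [← k, ← g, (iv d hd).2]
    simp only [Sk.wp, Sk.w1, e, ok.wok.symm hd h]

end Pool.Agent.MP_1a6d78_lc.DS
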