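import Pool.Agent.MP_1a6d78_lc.DS.Basic

/-! PROJECT DS: Lemma A.  The entries of one itinerary form an interval of their block. -/

namespace Pool.Agent.MP_1a6d78_lc.DS

open Classical ED PR

namespace LemAx

variable {S : Sk}

/-- Equal itineraries end with the same pair of blocks. -/
theorem split (hc : S.ClsK) {a b a' b' : ℕ} (h : S.Can a b) (h' : S.Can a' b')
    (e : S.C (S.M.nd b) = S.C (S.M.nd b')) :
    S.C (S.M.nd a) = S.C (S.M.nd a') ∧ S.blk a = S.blk a' ∧ S.blk b = S.blk b' := by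
  rw [(hc.can a b h).2.2.1, (hc.can a' b' h').2.2.1] at e
  obtain ⟨e1, e2⟩ := List.append_inj' e rfl
  simp only [List.cons.injEq, and_true] at e2
  exact ⟨e1, e2.1, e2.2⟩

theorem len (hc : S.ClsK) {a b : ℕ} (h : S.Can a b) :
    (S.C (S.M.nd b)).length = (S.C (S.M.nd a)).length + 2 := by
  rw [(hc.can a b h).2.2.1, List.length_append]
  rfl

/-- Strictly ordered heights in one block give strictly ordered positions. -/
theorem ordr (hb : S.BlkK) {a b c : ℕ} (pa : S.port a) (pb : S.port b) (pc : S.port c)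
    (e1 : S.blk a = S.blk b) (e2 : S.blk c = S.blk b)
    (l : (S.hp a < S.hp b ∧ S.hp b < S.hp c) ∨ (S.hp c < S.hp b ∧ S.hp b < S.hp a)) :
    (S.pos a < S.pos b ∧ S.pos b < S.pos c) ∨ (S.pos c < S.pos b ∧ S.pos b < S.pos a) := by
  rcases hb.dir (S.blk b) with d | d
  · have d1 := d b pb.1 a pa.1 pb pa rfl e1
    have d2 := d c pc.1 b pb.1 pc pb e2 rfl
    have d3 := d b pb.1 c pc.1 pb pc rfl e2
    have d4 := d a pa.1 b pb.1 pa pb e1 rfl
    omega
  · have d1 := d b pb.1 a pa.1 pb pa rfl e1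
    have d2 := d c pc.1 b pb.1 pc pb e2 rfl
    have d3 := d b pb.1 c pc.1 pb pc rfl e2
    have d4 := d a pa.1 b pb.1 pa pb e1 rfl
    omega

/-- A leg that ends between the sources of two parallel legs starts in one of their blocks. -/
theorem cross (hb : S.BlkK) (hn : S.NcK) {a1 b1 a3 b3 a b : ℕ} (c1 : S.Can a1 b1)
    (c3 : S.Can a3 b3) (c : S.Can a b) (eA : S.blk a1 = S.blk a3) (eB : S.blk b1 = S.blk b3)
    (l : S.pos b1 < S.pos b3) (l1 : S.pos a3 < S.pos b) (l2 : S.pos b < S.pos a1)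
    (nA : S.blk a ≠ S.blk a1) (nB : S.blk a ≠ S.blk b1) : False := by
  have nAB := (hn.ns _ _ c1).2
  rcases lt_or_gt_of_ne nAB with k | k
  · have p1 := hb.lt k
    rcases lt_or_gt_of_ne nA with k1 | k1
    · have p2 : S.pos a < S.pos a3 := hb.lt (eA ▸ k1)
      exact hn.nc _ _ _ _ c c3 (by omega)
    · have p2 : S.pos a1 < S.pos a := hb.lt k1
      rcases lt_or_gt_of_ne nB with k2 | k2
      · have p3 : S.pos a < S.pos b1 := hb.lt k2
        exact hn.nc _ _ _ _ c c1 (by omega)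
      · have p3 : S.pos b3 < S.pos a := hb.lt (eB ▸ k2)
        exact hn.nc _ _ _ _ c3 c (by omega)
  · have p1 : S.pos b3 < S.pos a3 := hb.lt (by omega)
    rcases lt_or_gt_of_ne nA with k1 | k1
    · have p2 : S.pos a < S.pos a3 := hb.lt (eA ▸ k1)
      rcases lt_or_gt_of_ne nB with k2 | k2
      · have p3 : S.pos a < S.pos b1 := hb.lt k2
        exact hn.nc _ _ _ _ c c1 (by omega)
      · have p3 : S.pos b3 < S.pos a := hb.lt (eB ▸ k2)
        exact hn.nc _ _ _ _ c3 c (by omega)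
    · have p2 : S.pos a1 < S.pos a := hb.lt k1
      exact hn.nc _ _ _ _ c1 c (by omega)

/-- A head with a lower and a higher ordinary vertex in its class is the end of a leg. -/
theorem inner (hc : S.ClsK) {h u v : ℕ} (t : S.Te h h) (su : S.sam u h) (sv : S.sam v h)
    (nu : ¬S.sp u) (nv : ¬S.sp v) (lu : S.f.ht u < S.f.ht h) (lv : S.f.ht h < S.f.ht v) :
    ∃ a b, S.Can a b ∧ S.M.nd b = h := by
  rcases hc.head h t with k | k | k
  · exact absurd (k.2.1 u su nu) (by omega)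
  · exact absurd (k.2.1 v sv nv) (by omega)
  · exact k

/-- Two heads of different heights in one class with the same itinerary are ends of legs. -/
theorem both (hc : S.ClsK) {h h' : ℕ} (t : S.Te h h) (t' : S.Te h' h') (s : S.sam h h')
    (n : ¬S.sp h) (n' : ¬S.sp h') (l : S.f.ht h ≠ S.f.ht h') (e : S.C h = S.C h') :
    (∃ a b, S.Can a b ∧ S.M.nd b = h) ∧ ∃ a b, S.Can a b ∧ S.M.nd b = h' := by
  have long : ∀ z, (∃ a b, S.Can a b ∧ S.M.nd b = z) → 2 ≤ (S.C z).length := by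
    rintro z ⟨a, b, k, rfl⟩
    have := len hc k
    omega
  rcases hc.head h t with k | k | k <;> rcases hc.head h' t' with k' | k' | k'
  · have := k.2.1 h' s.symm n'
    have := k'.2.1 h s n
    omega
  · rw [k.1, k'.1] at e
    simp at e
  · have := long _ k'
    rw [← e, k.1] at this
    simp at this
  · rw [k.1, k'.1] at e
    simp at e
  · have := k.2.1 h' s.symm n'
    have := k'.2.1 h s n
    omega
  · have := long _ k'
    rw [← e, k.1] at this
    simp at this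
  · have := long _ k
    rw [e, k'.1] at this
    simp at this
  · have := long _ k
    rw [e, k'.1] at this
    simp at this
  · exact ⟨k, k'⟩

theorem main (hb : S.BlkK) (h3 : S.Blk3) (ht : S.TerK) (hc : S.ClsK) (hn : S.NcK)
    (hT : S.TouchK) (n : ℕ) : ∀ a1 b1 a2 b2 a3 b3, (S.C (S.M.nd b1)).length < n → S.Can a1 b1 →
      S.Can a2 b2 → S.Can a3 b3 → S.pos b1 < S.pos b2 → S.pos b2 < S.pos b3 →
      S.C (S.M.nd b1) = S.C (S.M.nd b3) → S.C (S.M.nd b2) = S.C (S.M.nd b1) := by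
  induction n with
  | zero => exact fun _ _ _ _ _ _ h => absurd h (Nat.not_lt_zero _)
  | succ n ih =>
    intro a1 b1 a2 b2 a3 b3 hl c1 c2 c3 l12 l23 e
    obtain ⟨eC, eA, eB⟩ := split hc c1 c3 e
    obtain ⟨m1, m2⟩ := hT.mid _ _ _ _ _ _ c1 c2 c3 l12 l23 eB eA
    have eA2 : S.blk a2 = S.blk a1 := by
      have := hb.mono _ _ m1
      have := hb.mono _ _ m2
      omega
    have eB2 : S.blk b2 = S.blk b1 := by
      have := hb.mono _ _ l12.le
      have := hb.mono _ _ l23.le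
      omega
    suffices g : S.C (S.M.nd a2) = S.C (S.M.nd a1) by
      rw [(hc.can _ _ c2).2.2.1, (hc.can _ _ c1).2.2.1, g, eA2, eB2]
    have p1 := (hc.can _ _ c1).1.1
    have p2 := (hc.can _ _ c2).1.1
    have p3 := (hc.can _ _ c3).1.1
    by_cases s1 : S.sp (S.M.nd a1)
    · rw [hb.s1 _ _ p1 p2 eA2.symm s1]
    have s2 : ¬S.sp (S.M.nd a2) := fun k => s1 (by rw [hb.s1 _ _ p2 p1 eA2 k]; exact k)
    have s3 : ¬S.sp (S.M.nd a3) := fun k => s1 (by rw [hb.s1 _ _ p3 p1 eA.symm k]; exact k)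
    obtain ⟨h1, t1⟩ := ht.ex _ p1.2.1 s1
    obtain ⟨h2, t2⟩ := ht.ex _ p2.2.1 s2
    obtain ⟨h3', t3⟩ := ht.ex _ p3.2.1 s3
    have r1 := hc.te _ _ t1
    have r2 := hc.te _ _ t2
    have r3 := hc.te _ _ t3
    by_cases q1 : h2 = h1
    · rw [r1, r2, q1]
    by_cases q3 : h2 = h3'
    · rw [eC, r3, r2, q3]
    have v12 := hb.s2 _ _ p1 p2 eA2.symm
    have v23 := hb.s2 _ _ p2 p3 (eA2.trans eA)
    have bt : (S.f.ht h3' < S.f.ht h2 ∧ S.f.ht h2 < S.f.ht h1 ∧
        S.f.ht (S.M.nd a3) < S.f.ht h2 ∧ S.f.ht h2 < S.f.ht (S.M.nd a1)) ∨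
        (S.f.ht h1 < S.f.ht h2 ∧ S.f.ht h2 < S.f.ht h3' ∧
        S.f.ht (S.M.nd a1) < S.f.ht h2 ∧ S.f.ht h2 < S.f.ht (S.M.nd a3)) := by
      rcases hb.dir (S.blk a1) with d | d
      · exact Or.inl (hT.bet _ _ _ _ _ _ t1 t2 t3 v12 v23
          (d _ p3.1 _ p2.1 p3 p2 eA.symm eA2 m1) (d _ p2.1 _ p1.1 p2 p1 eA2 rfl m2) q1 q3)
      · exact Or.inr (hT.bet _ _ _ _ _ _ t3 t2 t1 v23.symm v12.symm
          (d _ p2.1 _ p1.1 p2 p1 eA2 rfl m2) (d _ p3.1 _ p2.1 p3 p2 eA.symm eA2 m1) q3 q1)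
    obtain ⟨u1, w1, n1, -⟩ := ht.mem _ _ t1
    obtain ⟨u2, w2, n2, -⟩ := ht.mem _ _ t2
    obtain ⟨u3, w3, n3, -⟩ := ht.mem _ _ t3
    have x12 : S.sam h1 h2 := (w1.trans v12).trans w2.symm
    have x32 : S.sam h3' h2 := (w3.trans v23.symm).trans w2.symm
    have eh : S.C h1 = S.C h3' := by rw [← r1, ← r3, eC]
    obtain ⟨⟨a1', b1', c1', rfl⟩, a3', b3', c3', rfl⟩ :=
      both hc u1 u3 (x12.trans x32.symm) n1 n3 (by omega) eh
    obtain ⟨a2', b2', c2', rfl⟩ : ∃ a b, S.Can a b ∧ S.M.nd b = h2 := by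
      rcases bt with k | k
      · exact inner hc u2 x32 x12 n3 n1 k.1 k.2.1
      · exact inner hc u2 x12 x32 n1 n3 k.1 k.2.1
    obtain ⟨-, eA0, eB0⟩ := split hc c1' c3' eh
    have o1 := (hc.can _ _ c1').1.2.1
    have o2 := (hc.can _ _ c2').1.2.1
    have o3 := (hc.can _ _ c3').1.2.1
    have nb : S.blk b1' ≠ S.blk a1 := fun k => by
      have := hT.touch _ _ _ _ _ _ _ _ c1 c3 c1' c3' t1 t3 eA eB eA0 k (eB0 ▸ k)
      rw [this] at bt
      omega
    have nb2 : S.blk a1 ≠ S.blk b2' := fun k => by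
      have o := ordr hb p3 o2 p1 (eA.symm.trans k) k (by unfold Sk.hp; omega)
      exact cross hb hn c1 c3 c2' eA eB (l12.trans l23) (by omega) (by omega)
        (k ▸ (hn.ns _ _ c2').2) (eB2 ▸ (hn.two _ _ _ _ c2 c2' t2).2)
    have eb : S.blk b1' = S.blk b2' :=
      ((h3 _ _ _ o1 p1 o2 n1 s1 n2 w1 x12).resolve_left nb).resolve_right nb2
    have ln := len hc c1
    rw [r1, r2]
    rcases ordr hb o1 o2 o3 eb (eB0.symm.trans eb) (by unfold Sk.hp; omega) with o | o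
    · exact ih _ _ _ _ _ _ (by rw [← r1]; omega) c1' c2' c3' o.1 o.2 eh
    · rw [eh]
      exact ih _ _ _ _ _ _ (by rw [← eh, ← r1]; omega) c3' c2' c1' o.1 o.2 eh.symm

end LemAx

theorem lemAS : LemAS := fun _ _ _ hb h3 ht hc hn hT a1 b1 a2 b2 a3 b3 =>
  LemAx.main hb h3 ht hc hn hT _ a1 b1 a2 b2 a3 b3 (Nat.lt_succ_self _)

end Pool.Agent.MP_1a6d78_lc.DS
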