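import Pool.Agent.MP_1a6d78_lc.DS.Basic

/-! Row LEN: an itinerary enters each block at most once. -/

namespace Pool.Agent.MP_1a6d78_lc.DS

open Classical ED PR

theorem lenS : LenS := by
  intro S B hB hN _ _ hO hT hC
  have key : ∀ m z, S.F z = m → S.K z → ∃ s : Finset ℕ, s ⊆ Finset.range B ∧
      (S.C z).length = 2 * s.card + 1 ∧
      ∀ q ∈ s, ∃ b, S.port b ∧ S.blk b = q ∧ S.Fa (S.M.nd b) z := by
    intro m
    induction m using Nat.strong_induction_on with
    | _ m ih =>
      intro z hm hz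
      by_cases sp : S.sp z
      · exact ⟨∅, by simp, by simp [hC.sp z sp], by simp⟩
      obtain ⟨h, te⟩ := hT.ex z hz sp
      obtain ⟨t1, t2, -, -, t5, t6⟩ := hT.mem h z te
      rw [hC.te h z te]
      rcases hC.head h t1 with k | k | ⟨a, b, cn, rfl⟩
      · exact ⟨∅, by simp, by simp [k.1], by simp⟩
      · exact ⟨∅, by simp, by simp [k.1], by simp⟩
      obtain ⟨tg, -, e, -⟩ := hC.can a b cn
      have fp := hO.leg a b tg
      have ka : S.K (S.M.nd a) := tg.1.2.1
      obtain ⟨s, s1, s2, s3⟩ := ih (S.F (S.M.nd a)) (by unfold Sk.Fp at fp; omega) _ rfl ka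
      have ns : S.blk b ∉ s := fun q => by
        obtain ⟨b', p, e', fa⟩ := s3 _ q
        exact hO.once _ _ (hB.s2 b' b p tg.2.1 e') (hO.ap _ _ _ p.2.1 ka cn.1 fa fp)
      refine ⟨insert (S.blk b) s, Finset.insert_subset (Finset.mem_range.2 (hN b)) s1, ?_,
        fun q hq => ?_⟩
      · rw [e, Finset.card_insert_of_notMem ns, List.length_append, s2]; rfl
      · rcases Finset.mem_insert.1 hq with rfl | hq
        · exact ⟨b, tg.2.1, rfl, t5⟩
        · obtain ⟨b', p, e', fa⟩ := s3 q hq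
          exact ⟨b', p, e', hO.aa _ _ _ p.2.1 cn.1 hz (hO.ap _ _ _ p.2.1 ka cn.1 fa fp).fa t5⟩
  intro z hz
  obtain ⟨s, s1, s2, -⟩ := key _ z rfl hz
  have := Finset.card_le_card s1
  rw [Finset.card_range] at this
  omega

end Pool.Agent.MP_1a6d78_lc.DS
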