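import Pool.Agent.MP_1a6d78_lc.DS.Basic

/-! PROJECT DS, row LEV: the invariants of the levels. -/

namespace Pool.Agent.MP_1a6d78_lc.DS

open Classical ED PR

namespace LevL

theorem ar {E X a b Q : ℕ} (hE : 1 ≤ E)
    (h : 5000 * E * X ≤ 5000 * (a + b) + 1000 * (Q * (5000 * E))) : X ≤ a / E + b + 1000 * Q := by
  have h1 : X * E ≤ a + (b + 1000 * Q) * E := by nlinarith [Nat.mul_le_mul_left b hE]
  have h2 := (Nat.le_div_iff_mul_le hE).2 h1
  rw [Nat.add_mul_div_right _ _ hE] at h2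
  omega

theorem wz (x : List Bool) : Wx x ≤ Zx x :=
  (Nat.pow_le_pow_left (Nat.le_succ _) 2).trans (Nat.pow_le_pow_right (by omega) (by omega))

end LevL

theorem levS : LevS := by
  intro comp dk nx size sub vy m φ x E R hc hw hE hR hs hm l
  have hD : 1 ≤ 5000 * E := by omega
  obtain ⟨c1, c2⟩ := comp _ _ _ hw
  have hl : cnt (inp x).n (lv (inp x)) ≤ (5000 * E) ^ 3 * R :=
    (cnt_congr fun a ha => (c1 a).trans ⟨fun k => k.2, fun k => ⟨ha, k⟩⟩).le.trans hs
  induction l with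
  | zero =>
    obtain ⟨s1, s2, s3⟩ := size _ _ _ _ _ _ _ _ hw c2 hD hR hl
    refine ⟨s1, rfl, s2.trans ?_, fun K w' hK u hu k => (s3 K w' hK u hu k).trans hm⟩
    have : cnt (inp x).n (f1 (inp x) (Wx x)).mk' ≤ num x 0 := cnt_le _ _
    simpa using this
  | succ l ih =>
    obtain ⟨i1, i2, i3, i4⟩ := ih
    set g := lev φ x (5000 * E) R l with hg
    have ck := (glev _ _ g hD hw.ok i1.fit).2
    have xs : (inp x).X (5000 * E) g ((inp x).nd (inp x).s) := Or.inl rfl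
    have o := sub vy m φ x g.live ((inp x).ld (5000 * E) g).K 1 0 hc hw le_rfl (by omega)
      (by omega) (fun v hv => ⟨i1.fit.1.lt v hv, i1.fit.2.vx v hv⟩)
      fun u hu k => i4 _ _ (fun _ k => k) u (i2 ▸ hu) k
    have e : (fun d => 1 * wt x d + 0) = wt x := funext fun d => by simp
    have o' : OrK (inp x) (wt x) g.live ((inp x).ld (5000 * E) g).K
        (orc φ x ((inp x).ld (5000 * E) g).K fun d => 1 * wt x d + 0) (Zx x) := by
      rw [e] at o ⊢
      exact o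
    have d := dk _ _ _ _ g _ _ _ hw i1 ((ck.K _).2 ⟨_, xs, 0, rfl⟩) ck.klive (LevL.wz x) o'
    have n1 : Lok (inp x) (wt x) (Wx x) (l + 1 + 1) (nxt φ x (5000 * E) g) :=
      nx _ _ _ _ g _ _ _ hw i1 xs (fun v hv => hv.elim (fun k => k ▸ i1.fit.2.ls) fun k => k.1)
        ck.K d
    have n2 : (nxt φ x (5000 * E) g).live = lv (inp x) := i2
    obtain ⟨s1, s2, s3⟩ := size _ _ _ _ _ _ _ _ hw n1 hD hR (n2 ▸ hl)
    refine ⟨s1, i2, s2.trans ?_, fun K w' hK u hu k => (s3 K w' hK u (n2 ▸ hu) k).trans hm⟩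
    have f1 : cnt (inp x).n ((inp x).X (5000 * E) g) ≤ num x 0 / E ^ l / E +
        (l * (1001 * (5000 * E) ^ 4) + (5000 * E) ^ 3) + 1000 * (5000 * E) ^ 4 := by
      refine LevL.ar hE (ck.few.trans ?_)
      rw [← pow_succ, ← add_assoc]
      exact Nat.add_le_add_right (Nat.mul_le_mul_left _ i3) _
    have f2 : (5000 * E) ^ 3 ≤ (5000 * E) ^ 4 := Nat.pow_le_pow_right hD (by omega)
    have f3 : cnt (inp x).n (nxt φ x (5000 * E) g).mk' =
        cnt (inp x).n ((inp x).X (5000 * E) g) := rfl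
    rw [Nat.div_div_eq_div_mul, ← pow_succ] at f1
    rw [f3, Nat.add_mul l 1, Nat.one_mul]
    omega

end Pool.Agent.MP_1a6d78_lc.DS
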