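import Pool.Agent.MP_1a6d78_lc.DS.Basic

/-! PROJECT DS, row LINE: a class is a line; few special vertices. -/

namespace Pool.Agent.MP_1a6d78_lc.DS

open Classical ED PR

namespace LineL

variable {S : Sk} {r μ : ℕ}

theorem cnt_true (m : ℕ) : cnt m (fun _ => True) = m := by simp [cnt]

theorem kit (kt : S.Kt0) {v : ℕ} (hv : S.K v) (s : ℕ) : S.K (S.f.par^[s] v) :=
  iter_inv (Q := S.K) kt.par hv s

theorem ht_lt (ok : S.Ok r μ) (kt : S.Kt0) {v : ℕ} (hv : S.K v) (h : S.f.par v ≠ v) :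
    S.f.ht (S.f.par v) < S.f.ht v := (ok.fit.1.par v (kt.live v hv).1 h).2.2

theorem ht_it (ok : S.Ok r μ) (kt : S.Kt0) {v : ℕ} (hv : S.K v) {s t : ℕ} (h : s ≤ t) :
    S.f.ht (S.f.par^[t] v) ≤ S.f.ht (S.f.par^[s] v) := by
  induction t, h using Nat.le_induction with
  | base => exact le_rfl
  | succ t _ ih =>
    rw [Function.iterate_succ_apply']
    by_cases e : S.f.par (S.f.par^[t] v) = S.f.par^[t] v
    · rw [e]; exact ih
    · exact (ht_lt ok kt (kit kt hv t) e).le.trans ih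

theorem chain (ok : S.Ok r μ) (kt : S.Kt0) (ky : S.KeyK) {z : ℕ} (hz : S.K z) :
    S.len z < S.M.n ∧ (∀ s ≤ S.len z, S.sam (S.f.par^[s] (S.bt z)) z) ∧
      ∀ u, S.sam u z → ∃ s ≤ S.len z, S.f.par^[s] (S.bt z) = u := by
  obtain ⟨e1, e2, e3, -⟩ := ky.ends z hz
  obtain ⟨t, h1, h2⟩ := ky.cmp _ _ (e1.trans e3.symm) ((ky.ht z z (.refl hz)).1.trans
    (ky.ht z z (.refl hz)).2)
  have c1 : ∀ s ≤ t, S.sam (S.f.par^[s] (S.bt z)) z := fun s hs => (h2 s hs).1.trans e3
  have c2 : ∀ u, S.sam u z → ∃ s ≤ t, S.f.par^[s] (S.bt z) = u := fun u hu => by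
    obtain ⟨s, k1, k2⟩ := ky.cmp _ _ (hu.trans e3.symm) (ky.ht u z hu).2
    refine ⟨s, le_of_not_gt fun q => ?_, k1⟩
    have a1 := (k2 t q.le).2 q
    have a2 := (k2 (t + 1) q).1
    rw [Function.iterate_succ_apply'] at a2
    rw [h1] at a1 a2
    exact e2.elim a1 fun a => a (a2.trans (e3.trans e1.symm))
  have c3 : ∀ s s', s < s' → s' ≤ t → S.f.par^[s] (S.bt z) ≠ S.f.par^[s'] (S.bt z) :=
    fun s s' a b e => by
      have a1 := ht_lt ok kt (kit kt e3.1 s) ((h2 s (by omega)).2 (by omega))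
      have a2 := ht_it ok kt e3.1 (show s + 1 ≤ s' from a)
      rw [Function.iterate_succ_apply', ← e] at a2
      omega
  have l1 : cnt (t + 1) (fun _ => True) ≤ cnt S.M.n fun u => S.sam u z :=
    cnt_inj (fun s => S.f.par^[s] (S.bt z))
      (fun s hs _ => ⟨(kt.live _ (kit kt e3.1 s)).2.1, c1 s (by omega)⟩)
      fun a ha b hb _ _ e => by
        rcases lt_trichotomy a b with q | q | q
        · exact absurd e (c3 a b q (by omega))
        · exact q
        · exact absurd e.symm (c3 b a q (by omega))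
  choose! g g1 g2 using c2
  have l2 : (cnt S.M.n fun u => S.sam u z) ≤ cnt (t + 1) (fun _ => True) :=
    cnt_inj g (fun u _ hu => ⟨Nat.lt_succ_of_le (g1 u hu), trivial⟩)
      fun a _ b _ ha hb e => by rw [← g2 a ha, e, g2 b hb]
  have l3 := cnt_le S.M.n fun u => S.sam u z
  rw [cnt_true] at l1 l2
  have e : S.len z = t := by unfold Sk.len; omega
  rw [e]
  exact ⟨by omega, c1, fun u hu => ⟨g u, g1 u hu, g2 u hu⟩⟩

theorem vx_eq (kt : S.Kt0) (ky : S.KeyK) {z : ℕ} (hz : S.K z) (o x : ℕ) :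
    S.vx z o x = S.f.par^[if o = 1 then S.len z - x else min x (S.len z)] (S.bt z) :=
  it_eq' (Q := S.K) kt.par (fun a h => (kt.live a h).2.1) (ky.ends z hz).2.2.1.1 _

theorem slide (ok : S.Ok r μ) (kt : S.Kt0) (ky : S.KeyK) {u v : ℕ} (h : S.sam u v)
    (k : S.f.ht u ≤ S.f.ht v) : Wk S.M S.wp U v u (S.N * (S.f.ht v - S.f.ht u)) := by
  obtain ⟨t, rfl, h2⟩ := ky.cmp u v h k
  have key : ∀ s ≤ t, Wk S.M S.wp U v (S.f.par^[s] v)
      (S.N * (S.f.ht v - S.f.ht (S.f.par^[s] v))) := by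
    intro s
    induction s with
    | zero => intro _; simpa using Wk.nil trivial
    | succ s ih =>
      intro hs
      have a0 := ih (by omega)
      obtain ⟨a1, a2⟩ := h2 s (by omega)
      have a3 := (h2 (s + 1) hs).1
      have a4 := ht_it ok kt h.2.1 (Nat.zero_le s)
      rw [Function.iterate_succ_apply'] at a3 ⊢
      rw [Function.iterate_zero_apply] at a4
      generalize S.f.par^[s] v = y at *
      obtain ⟨b1, b2, b3, b4⟩ := kt.up y a1.1 (a2 hs)
      have b5 := kt.gam_eq b1 b3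
      have b6 : S.wp (S.pd y) = S.N * S.w (S.pd y) := if_neg b3
      rw [b5] at b3 b4
      have b7 := ok.geo.par _ b1 b3 (by rw [b2]; exact (kt.live y a1.1).1)
        (by rw [b2]; exact a2 hs) (by rw [b2, b4])
        (by rw [b2, b4]; exact (a1.trans a3.symm).2.2.2.2)
      rw [b2, b4] at b7
      have b8 := a0.step b1 b3 b2 b4 trivial
      rw [b6, ← Nat.mul_add] at b8
      have : S.f.ht v - S.f.ht (S.f.par y) = S.f.ht v - S.f.ht y + S.w (S.pd y) := by omega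
      rw [this]
      exact b8
  exact key t le_rfl

theorem code {a b c a' b' c' m r : ℕ} (hb : b < m) (hb' : b' < m) (hc : c < r) (hc' : c' < r)
    (e : (a * m + b) * r + c = (a' * m + b') * r + c') : a = a' ∧ b = b' ∧ c = c' := by
  have k : ∀ {x y x' y' q : ℕ}, y < q → y' < q → x * q + y = x' * q + y' → x = x' ∧ y = y' :=
    fun {x y x' y' q} h h' e => by
      have := congrArg (· % q) e
      simp only [Nat.mul_add_mod_of_lt h, Nat.mul_add_mod_of_lt h'] at this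
      subst this
      exact ⟨Nat.eq_of_mul_eq_mul_right (by omega) (Nat.add_right_cancel e), rfl⟩
  obtain ⟨e1, e2⟩ := k hc hc' e
  exact ⟨(k hb hb' e1).1, (k hb hb' e1).2, e2⟩

theorem few (ok : S.Ok r μ) (kt : S.Kt0) {P : ℕ → Prop}
    (hP : ∀ u v, S.sam u v → P u → P v → u = v) :
    cnt S.M.n (fun v => S.K v ∧ P v) ≤ μ * (μ + 1) * r := by
  have k : ∀ v, S.K v → sel S.M.n S.X (cnt (lst S.M.n (S.bel v)) S.X) = lst S.M.n (S.bel v) ∧
      cnt (lst S.M.n (S.bel v)) S.X < μ ∧ cnt S.M.n (S.bel v) < μ + 1 ∧ S.f.ht v / S.W < r :=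
    fun v hv => by
      obtain ⟨a1, a2⟩ := lst_spec (P := S.bel v) hv
      obtain ⟨a3, a4⟩ := sel_cnt a1 a2.1
      have a5 := cnt_mono (n := S.M.n) (P := S.bel v) (Q := S.X) fun _ _ h => h.1
      have a6 := ok.xn
      refine ⟨a3, by omega, by omega, Nat.div_lt_of_lt_mul ?_⟩
      rw [Nat.mul_comm]
      exact (ok.fit.1.ht v (kt.live v hv).1).trans_le ok.hH
  rw [← cnt_true (μ * (μ + 1) * r)]
  refine cnt_inj (fun v => (cnt (lst S.M.n (S.bel v)) S.X * (μ + 1) + cnt S.M.n (S.bel v)) * r +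
    S.f.ht v / S.W) (fun v _ hv => ⟨?_, trivial⟩) fun u _ v _ hu hv e => ?_
  · obtain ⟨-, a1, a2, a3⟩ := k v hv.1
    have b1 := Nat.mul_le_mul_right (μ + 1) (Nat.succ_le_of_lt a1)
    rw [Nat.succ_mul] at b1
    have b2 := Nat.mul_le_mul_right r (show cnt (lst S.M.n (S.bel v)) S.X * (μ + 1) +
      cnt S.M.n (S.bel v) + 1 ≤ μ * (μ + 1) by omega)
    rw [Nat.succ_mul] at b2
    omega
  · obtain ⟨a0, -, a2, a3⟩ := k u hu.1
    obtain ⟨b0, -, b2, b3⟩ := k v hv.1
    obtain ⟨c1, c2, c3⟩ := code a2 b2 a3 b3 e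
    exact hP u v ⟨hu.1, hv.1, by rw [← a0, c1, b0], c2, c3⟩ hu.2 hv.2

end LineL

open LineL in
theorem lineS : LineS := fun S r μ ok kt ky => by
  have t1 := few ok kt (P := S.top) fun u v h a b =>
    (ky.tp u v h a).trans (ky.tp v v (.refl h.2.1) b).symm
  have t2 := few ok kt (P := S.bot) fun u v h a b =>
    (ky.bt u v h a).trans (ky.bt v v (.refl h.2.1) b).symm
  refine ⟨fun z o x hz => ?_, fun z x y hz h => ?_, fun z o x y hz ho h => ?_,
    fun z o u h => ?_, fun u v h => ?_, t1, ?_⟩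
  · rw [vx_eq kt ky hz]
    exact (chain ok kt ky hz).2.1 _ (by split_ifs <;> omega)
  · rw [vx_eq kt ky hz, vx_eq kt ky hz, if_pos rfl, if_pos rfl]
    exact ht_it ok kt (ky.ends z hz).2.2.1.1 (by omega)
  · rw [vx_eq kt ky hz, vx_eq kt ky hz, if_neg ho, if_neg ho]
    exact ht_it ok kt (ky.ends z hz).2.2.1.1 (by omega)
  · obtain ⟨a1, -, a2⟩ := chain ok kt ky h.2.1
    obtain ⟨s, b1, b2⟩ := a2 u h
    by_cases ho : o = 1
    · refine ⟨S.len z - s, by omega, ?_⟩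
      rw [vx_eq kt ky h.2.1, if_pos ho, Nat.sub_sub_self b1, b2]
    · refine ⟨s, by omega, ?_⟩
      rw [vx_eq kt ky h.2.1, if_neg ho, min_eq_left b1, b2]
  · rcases le_total (S.f.ht u) (S.f.ht v) with k | k
    · rw [df_le k]
      exact (slide ok kt ky h k).symm ok.wok.ok.iv kt.wps
    · rw [df_ge k]
      exact slide ok kt ky h.symm k
  · have := cnt_or S.M.n (fun v => S.K v ∧ S.top v) fun v => S.K v ∧ S.bot v
    have := cnt_mono (n := S.M.n) (P := S.sp)
      (Q := fun v => (S.K v ∧ S.top v) ∨ (S.K v ∧ S.bot v)) fun _ _ h => and_or_left.1 h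
    omega

end Pool.Agent.MP_1a6d78_lc.DS
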