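import Pool.Agent.MP_1a6d78_lc.DS.Basic

/-! PROJECT DS, row LSEM: the meaning of the legs. -/

namespace Pool.Agent.MP_1a6d78_lc.DS

open Classical ED PR

namespace Ls

variable {S : Sk} {r μ : ℕ}

theorem live (ok : S.Ok r μ) (kt : S.Kt0) {a : ℕ} (h : S.port a) :
    S.f.live (S.M.nd (S.M.β a)) :=
  ok.wok.clo ok.fit h.1 (kt.live _ h.2.1).1

theorem lt (ok : S.Ok r μ) {A : ℕ → Prop} {u v : ℕ} (h : Rc S.M S.w1 A u v) (hu : u < S.M.n) :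
    ds S.M S.w1 A u v < S.Z := by
  obtain ⟨m, h1, h2⟩ := ok.wok.max
  have h3 := ds_bnd ok.wok.ok.iv (w := S.w1) (m := S.N * m + 1)
    (fun d a _ => Nat.succ_le_succ (Nat.mul_le_mul_left _ (h1 d a))) h hu
  have h4 := ok.Z
  have h5 : S.N * m * (S.M.n - 1) ≤ S.N * S.W := by
    rw [Nat.mul_assoc]
    refine Nat.mul_le_mul_left _ (le_trans ?_ h2.le)
    rw [Nat.mul_comm]
    exact Nat.mul_le_mul_right _ (Nat.sub_le _ _)
  have h6 : S.N = S.M.n + 1 := rfl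
  rw [Nat.add_mul, Nat.one_mul] at h3
  omega

theorem w1 (a : ℕ) : 1 ≤ S.w1 a := Nat.le_add_left _ _

end Ls

theorem lsS : LsS := by
  intro S r μ ok kt
  refine ⟨fun a b ha hb h => ⟨ha, hb, ?_⟩, fun a b c h => ?_, fun a b b' c c' h h' => ?_,
    fun a b c h => ?_⟩
  · by_cases e : S.M.β a = b
    · exact Or.inl ⟨e, if_pos e⟩
    · obtain ⟨k1, k2, k3⟩ := h.resolve_left e
      have o := ok.o _ _ (Ls.live ok kt ha) k1 (Ls.live ok kt hb) k2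
      by_cases q : Rc S.M S.w1 (fun z => ¬S.K z) (S.M.nd (S.M.β a)) (S.M.nd (S.M.β b))
      · rw [if_pos q] at o
        exact Or.inr ⟨_, ds_spec q, by rw [Sk.Lv, if_neg e, o]⟩
      · rw [if_neg q] at o
        omega
  · obtain ⟨ha, hb, ⟨e, rfl⟩ | ⟨c', p, rfl⟩⟩ := h
    · exact ⟨Or.inl e, le_of_eq (if_pos e)⟩
    · have o := ok.o _ _ (Ls.live ok kt ha) p.mem.1 (Ls.live ok kt hb) p.mem.2
      rw [if_pos ⟨c', p⟩] at o
      refine ⟨Or.inr ⟨p.mem.1, p.mem.2, ?_⟩, ?_⟩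
      · rw [o]
        exact Ls.lt ok ⟨c', p⟩ (Mp.nd_spec (ok.wok.ok.iv a ha.1).1).1
      · have := ds_le p
        rw [Sk.Lv]
        split_ifs <;> omega
  · obtain ⟨ha, hb, ⟨e, rfl⟩ | ⟨c1, p, rfl⟩⟩ := h
    · have e' : S.M.β b = a := by rw [← e]; exact (ok.wok.ok.iv a ha.1).2
      obtain ⟨_, _, ⟨q, _⟩ | ⟨c2, q, _⟩⟩ := h'
      · exact Or.inl (by rw [← q, e'])
      · exact absurd ha.2.1 (e' ▸ q.mem.1)
    · obtain ⟨_, hb', ⟨q, _⟩ | ⟨c2, q, rfl⟩⟩ := h'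
      · exact absurd hb'.2.1 (q ▸ p.mem.2)
      · refine Or.inr ⟨_, ⟨ha, hb', Or.inr ⟨_, p.trans q, rfl⟩⟩, ?_⟩
        have := Ls.w1 (S := S) b
        omega
  · have := Ls.w1 (S := S) a
    obtain ⟨_, _, ⟨_, rfl⟩ | ⟨c', _, rfl⟩⟩ := h <;> omega

end Pool.Agent.MP_1a6d78_lc.DS
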