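import Pool.Agent.MP_1a6d78_lc.DS.Basic

/-! PROJECT DS, row MCH: the machine. -/

namespace Pool.Agent.MP_1a6d78_lc.DS

open Classical ED PR

namespace Mch

theorem kq_le {r μ m : ℕ} (h : μ ≤ m) (h1 : 1 ≤ m) : kq r μ ≤ (12 * r + 4) ^ 5 * m ^ 10 := by
  have a : μ * (μ + 1) ≤ m * (2 * m) := Nat.mul_le_mul h (by omega)
  have b : μ * (μ + 1) * r ≤ m * (2 * m) * r := Nat.mul_le_mul_right _ a
  have c : m ≤ m * m := Nat.le_mul_self m
  have d : bq r μ + 2 ≤ (12 * r + 4) * m ^ 2 := by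
    unfold bq
    have e : (12 * r + 4) * m ^ 2 = 6 * (m * (2 * m) * r) + 4 * (m * m) := by ring
    omega
  calc kq r μ ≤ ((12 * r + 4) * m ^ 2) ^ 5 := Nat.pow_le_pow_left d 5
    _ = _ := by rw [mul_pow, ← pow_mul]

theorem mu_le (r : ℕ) : ∃ a, 1 ≤ a ∧ ∀ E k, E ≤ k → mu r (5000 * E) ≤ a * k ^ 4 :=
  ⟨4000 * (r + 1) * 5000 ^ 4, Nat.mul_pos (by omega) (by norm_num), fun E k h => by
    rw [mu, mul_pow, ← mul_assoc]
    exact Nat.mul_le_mul_left _ (Nat.pow_le_pow_left h 4)⟩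

theorem bs_le (r : ℕ) : ∃ C, ∀ x k, 1 ≤ k → ro r (num x 0) ≤ k → bs r x ≤ C * k ^ 120 := by
  obtain ⟨a, a1, ha⟩ := mu_le r
  refine ⟨((12 * (r + 1) + 4) ^ 5 * a ^ 10 + 2) ^ 3, fun x k k1 h => ?_⟩
  have h1 : kx r x ≤ (12 * (r + 1) + 4) ^ 5 * (a * k ^ 4) ^ 10 :=
    kq_le (ha _ _ h) (Nat.mul_pos a1 (Nat.pow_pos k1))
  rw [mul_pow, ← pow_mul, ← mul_assoc] at h1
  generalize (12 * (r + 1) + 4) ^ 5 * a ^ 10 = b at h1 ⊢
  have h2 : 1 ≤ k ^ (4 * 10) := Nat.pow_pos k1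
  have h3 : kx r x + 2 ≤ (b + 2) * k ^ (4 * 10) := by
    rw [add_mul]
    omega
  calc bs r x ≤ ((b + 2) * k ^ (4 * 10)) ^ 3 := Nat.pow_le_pow_left h3 3
    _ = _ := by rw [mul_pow, ← pow_mul]

theorem two_pow {n k r : ℕ} (h : n < k ^ r) : n + 1 ≤ 2 ^ (k * r) := by
  rw [pow_mul]
  exact h.trans_le (Nat.pow_le_pow_left Nat.lt_two_pow_self.le r)

theorem log_le {n e : ℕ} (h : n ≤ 2 ^ e) : Nat.log 2 n ≤ e :=
  (Nat.log_mono_right h).trans (Nat.log_pow (by norm_num) e).le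

theorem bl_le (r : ℕ) : ∃ C, ∀ x k, 1 ≤ k → ro r (num x 0) ≤ k → x.length < k ^ r →
    bl r x ≤ C * k ^ 120 := by
  obtain ⟨C, hC⟩ := bs_le r
  refine ⟨C + (r + 1) ^ 2, fun x k k1 h h' => ?_⟩
  have a : SC.lg x ≤ (r + 1) * k := by
    have := log_le ((Nat.le_succ _).trans (two_pow h'))
    unfold SC.lg
    rw [add_mul, one_mul, mul_comm r k]
    omega
  have b : SC.lg x ^ 2 ≤ (r + 1) ^ 2 * k ^ 120 := by
    refine (Nat.pow_le_pow_left a 2).trans ?_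
    rw [mul_pow]
    exact Nat.mul_le_mul_left _ (Nat.pow_le_pow_right k1 (by norm_num))
  have c := hC x k k1 h
  rw [add_mul]
  exact Nat.add_le_add c b

theorem time (n m : ℕ) : (n + 2) ^ (m + 1) + 2 ≤ (n + 2) ^ (m + 2) := by
  have a : 2 ≤ (n + 2) ^ (m + 1) := (Nat.le_add_left 2 n).trans (Nat.le_self_pow (by omega) _)
  rw [pow_succ _ (m + 1), Nat.mul_add]
  omega

theorem lgB {n k r : ℕ} (m : ℕ) (k1 : 1 ≤ k) (h : n < k ^ r) :
    Nat.log 2 ((n + 2) ^ (m + 1) + 2) ≤ (r + 1) * (m + 2) * k := by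
  have a : n + 2 ≤ 2 ^ (k * r + k) := by
    have a1 := two_pow h
    have a2 : 2 ≤ 2 ^ k := Nat.le_self_pow (by omega) 2
    have a3 := Nat.mul_le_mul a1 a2
    rw [pow_add]
    omega
  refine log_le ((time n m).trans ((Nat.pow_le_pow_left a _).trans (le_of_eq ?_)))
  rw [← pow_mul]
  congr 1
  ring

theorem root {n k r : ℕ} {ε : ℝ} (hε : 0 < ε) (hr : 1 ≤ r) (h4 : 4 / (ε / 31) ≤ r)
    (h : (k - 1) ^ r ≤ n) : ((k ^ 124 : ℕ) : ℝ) ≤ ((81 ^ 31 : ℕ) : ℝ) * ((n : ℝ) + 1) ^ ε := by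
  have a := Fn.root (by positivity) hr h4 h
  have e : (((n : ℝ) + 1) ^ (ε / 31)) ^ 31 = ((n : ℝ) + 1) ^ ε := by
    rw [← Real.rpow_natCast, ← Real.rpow_mul (by positivity)]
    congr 1
    push_cast
    ring
  have b : ((k ^ 124 : ℕ) : ℝ) ≤ ((((k + 1) ^ 4) ^ 31 : ℕ) : ℝ) := by
    rw [← pow_mul]
    exact Nat.cast_le.2 (Nat.pow_le_pow_left (Nat.le_succ k) _)
  refine b.trans ?_
  rw [Nat.cast_pow, ← e, Nat.cast_pow 81 31, ← mul_pow]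
  exact pow_le_pow_left₀ (Nat.cast_nonneg _) (by exact_mod_cast a) 31

theorem bsl {r : ℕ} (h : PiK r) : Bs r (bl r) := by
  refine ⟨fun x => Nat.le_add_right _ _, fun κ => K.add (h.bs.c κ) (K.pow 2 (SC.lgC κ)), ?_⟩
  obtain ⟨e, he⟩ := h.bs.pol
  refine ⟨e + 2 + 1, fun x => ?_⟩
  have a : bs r x ≤ (x.length + 2) ^ (e + 2) :=
    (he x).trans (Nat.pow_le_pow_right (by omega) (by omega))
  have b : SC.lg x ^ 2 ≤ (x.length + 2) ^ (e + 2) :=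
    (Nat.pow_le_pow_left ((SC.lg_le x).trans (Nat.le_succ _)) 2).trans
      (Nat.pow_le_pow_right (by omega) (by omega))
  unfold bl
  rw [pow_succ _ (e + 2), Nat.mul_add]
  omega

theorem space {κ l c C L k : ℕ} (k1 : 1 ≤ k) (h1 : κ ≤ C * k ^ 120) (h2 : l ≤ L * k) :
    (κ + 1) * (c * l + c) ≤ (C + 1) * (c * L + c) * k ^ 124 := by
  have a : 1 ≤ k ^ 120 := Nat.pow_pos k1
  have a1 : κ + 1 ≤ (C + 1) * k ^ 120 := by
    rw [add_mul, one_mul]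
    omega
  have a2 : k ≤ k ^ 4 := Nat.le_self_pow (by norm_num) k
  have a3 : c * l + c ≤ (c * L + c) * k ^ 4 := by
    have b1 : c * l ≤ c * (L * k ^ 4) :=
      Nat.mul_le_mul_left _ (h2.trans (Nat.mul_le_mul_left _ a2))
    have b2 : c ≤ c * k ^ 4 := Nat.le_mul_of_pos_right _ (Nat.pow_pos k1)
    rw [add_mul, mul_assoc]
    omega
  refine (Nat.mul_le_mul a1 a3).trans (le_of_eq ?_)
  rw [show (124 : ℕ) = 120 + 4 from rfl, pow_add]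
  exact mul_mul_mul_comm _ _ _ _

end Mch

open Mch in
theorem mchS : MchS := by
  intro hR ε hε
  obtain ⟨r, hr, h4⟩ : ∃ r : ℕ, 1 ≤ r ∧ 4 / (ε / 31) ≤ r :=
    ⟨⌈4 / (ε / 31)⌉₊, Nat.ceil_pos.2 (by positivity), Nat.le_ceil _⟩
  refine ⟨r, hr, fun hP => ⟨bsl hP, ?_⟩⟩
  rintro f ⟨A, hA⟩
  obtain ⟨e, he⟩ := (bsl hP).pol
  obtain ⟨C, hC⟩ := bl_le r
  obtain ⟨M, c, H⟩ := mach (fun x => (A + 1) * bl r x) f
    (hA _ fun x => Nat.mul_le_mul_right _ (Nat.le_succ A))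
  obtain ⟨Q, hQ⟩ : ∃ Q : ℕ, Q = 81 ^ 31 := ⟨_, rfl⟩
  refine ⟨M, (A + e + 2) * c + ((A + 1) * C + 1) * (c * ((r + 1) * (A + e + 2)) + c) * Q,
    fun x => ?_⟩
  obtain ⟨k1, k2, k3, -⟩ := hR r x.length hr
  obtain ⟨-, -, j3, -⟩ := hR r (num x 0) hr
  have j4 : ro r (num x 0) ≤ ro r x.length := by
    have := lt_of_pow_lt_pow_left₀ r (Nat.zero_le _) ((j3.trans (RowKk.num_le x 0)).trans_lt k2)
    omega
  have b1 : 1 ≤ bl r x := (Nat.pow_pos (by omega)).trans_le (Nat.le_add_right _ _)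
  have b2 : (A + 1) * bl r x ≤ (x.length + 2) ^ (A + e + 1) := by
    have : A + 1 ≤ (x.length + 2) ^ (A + 1) :=
      Nat.lt_two_pow_self.le.trans (Nat.pow_le_pow_left (by omega) _)
    rw [show A + e + 1 = A + 1 + e by omega, pow_add]
    exact Nat.mul_le_mul this (he x)
  obtain ⟨H1, H2⟩ := H x ((x.length + 2) ^ (A + e + 1)) (Nat.mul_pos (by omega) b1) b2
    ((Nat.le_add_right _ 2).trans (Nat.le_self_pow (by omega) _))
  refine ⟨?_, fun t i => ?_⟩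
  · rw [Fn.halt M x H1, H1]
    refine (Nat.pow_le_pow_left (time _ _) c).trans ?_
    rw [← pow_mul]
    exact Nat.pow_le_pow_right (by omega) (Nat.le_add_right _ _)
  · have a0 : (A + 1) * bl r x ≤ (A + 1) * C * ro r x.length ^ 120 := by
      rw [mul_assoc]
      exact Nat.mul_le_mul_left _ (hC x _ k1 j4 k2)
    have a : ((M.run x t).head i : ℝ) ≤ ((((A + 1) * C + 1) *
        (c * ((r + 1) * (A + e + 2)) + c) * ro r x.length ^ 124 : ℕ) : ℝ) :=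
      Nat.cast_le.2 ((H2 t i).trans (space k1 a0 (lgB _ k1 k2)))
    have b := root hε hr h4 k3
    rw [← hQ] at b
    have p : (0 : ℝ) ≤ ((x.length : ℝ) + 1) ^ ε := by positivity
    rw [Nat.cast_mul] at a
    refine (a.trans (mul_le_mul_of_nonneg_left b (Nat.cast_nonneg _))).trans ?_
    rw [← mul_assoc, ← Nat.cast_mul]
    exact mul_le_mul_of_nonneg_right (Nat.cast_le.2 (Nat.le_add_left _ _)) p

end Pool.Agent.MP_1a6d78_lc.DS
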