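import Pool.Agent.MP_1a6d78_lc.DS.Basic

/-! PROJECT DS, row MK: the state made from the values up to a radius. -/

namespace Pool.Agent.MP_1a6d78_lc.DS

open Classical ED PR

namespace Mk

variable {S : Sk} {k : ℕ} {e : ℕ → ℕ} {ρ : ℕ}

theorem tab_enc (k : ℕ) (l : List ℕ) : tab k (fun j => gt (enc k l) j) = enc k l :=
  tab_cg fun _ h => gt_tb _ h

theorem row_eq (S : Sk) (e : ℕ → ℕ) (ρ : ℕ) {r : ℕ} (hr : r < k) :
    row k (S.mkT k e ρ) r = tab k fun j => if sel S.M.n (S.fst k e ρ) r < S.M.n then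
      gt (S.cz k e (sel S.M.n (S.fst k e ρ) r)) j else 0 := by
  refine tab_cg fun j hj => ?_
  have h1 : (r + 1) * k ≤ k * k := Nat.mul_le_mul_right _ hr
  rw [Nat.succ_mul] at h1
  have h2 : k + r * k + j - k = j + r * k := by omega
  have h3 : (j + r * k) / k = r := by
    rw [Nat.add_mul_div_right _ _ (by omega), Nat.div_eq_of_lt hj, Nat.zero_add]
  have h4 : (j + r * k) % k = j := by rw [Nat.add_mul_mod_self_right, Nat.mod_eq_of_lt hj]
  unfold Sk.mkT
  rw [gt_tb _ (by omega), if_neg (by omega), h2, h3, h4]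

theorem row_sel (S : Sk) (e : ℕ → ℕ) (ρ : ℕ) {r : ℕ} (hr : r < k)
    (h : sel S.M.n (S.fst k e ρ) r < S.M.n) :
    row k (S.mkT k e ρ) r = S.cz k e (sel S.M.n (S.fst k e ρ) r) := by
  rw [row_eq S e ρ hr]
  simp only [if_pos h]
  exact tab_enc _ _

theorem cz_eq (hA : S.AgrK) (hρ : ρ < S.Z)
    (he : ∀ v, S.K v → e v = if S.F v ≤ ρ then S.F v else S.Z) {z : ℕ} (h : S.act e ρ z) :
    S.cz k e z = enc k (S.C z) := by
  have h1 : S.F z ≤ ρ := by
    by_contra q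
    have := he z h.1
    rw [if_neg q] at this
    have := h.2.2
    omega
  unfold Sk.cz
  rw [hA e ρ hρ he z h.1 h1]

theorem cnt_fst {B : ℕ} (hA : S.AgrK) (hC : S.CntK B) (hρ : ρ < S.Z)
    (he : ∀ v, S.K v → e v = if S.F v ≤ ρ then S.F v else S.Z) :
    cnt S.M.n (S.fst k e ρ) ≤ (B + 2) ^ 5 := by
  have key : ∀ a b, a < b → S.fst k e ρ a → S.fst k e ρ b → S.C a ≠ S.C b := by
    intro a b hab ha hb q
    obtain ⟨j, _, hj⟩ := hb.2 a hab ha.1
    rw [cz_eq hA hρ he ha.1, cz_eq hA hρ he hb.1, q] at hj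
    exact hj rfl
  refine le_trans ?_ hC
  refine Finset.card_le_card_of_injOn S.C (fun a ha => ?_) fun a ha b hb q => ?_
  · rw [Finset.mem_coe, Finset.mem_filter] at ha
    exact Finset.mem_coe.2 (Finset.mem_image_of_mem _
      (Finset.mem_filter.2 ⟨ha.1, ha.2.1.1, ha.2.1.2.1⟩))
  · rw [Finset.mem_coe, Finset.mem_filter] at ha hb
    rcases lt_trichotomy a b with l | l | l
    · exact absurd q (key a b l ha.2 hb.2)
    · exact l
    · exact absurd q.symm (key b a l hb.2 ha.2)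

end Mk

theorem mkS : MkS := by
  intro S B k h0 hA hC hk hs e ρ hρ he
  refine ⟨fun x hx => ?_, fun r hr => ?_, fun z hz hsp hF => ?_⟩
  · obtain ⟨h1, h2⟩ := sel_cnt (h0.live x hx.1).2.1 hx
    unfold Sk.g Sk.mkT
    rw [gt_tb _ (by omega), if_pos (by omega), h1, he x hx.1]
    simp only [Nat.lt_succ_iff]
  · by_cases h : sel S.M.n (S.fst k e ρ) r < S.M.n
    · have a := (sel_spec h).1.1
      exact Or.inr ⟨_, a.1, (Mk.row_sel S e ρ hr h).trans (Mk.cz_eq hA hρ he a)⟩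
    · left
      rw [Mk.row_eq S e ρ hr]
      unfold nl
      rw [gt_tb _ (by omega), if_neg h]
  · have ha : S.act e ρ z := ⟨hz, hsp, by rw [he z hz, if_pos (by omega)]; omega⟩
    have ex : ∃ z', S.act e ρ z' ∧ ∀ j < k, gt (S.cz k e z') j = gt (S.cz k e z) j :=
      ⟨z, ha, fun _ _ => rfl⟩
    obtain ⟨p1, p2⟩ := Nat.find_spec ex
    have hf : S.fst k e ρ (Nat.find ex) := by
      refine ⟨p1, fun z' l a => ?_⟩
      by_contra q
      refine Nat.find_min ex l ⟨a, fun j hj => ?_⟩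
      by_contra q'
      exact q ⟨j, hj, fun q'' => q' (q''.trans (p2 j hj))⟩
    have hn := (h0.live _ p1.1).2.1
    obtain ⟨h1, h2⟩ := sel_cnt hn hf
    have h3 := Mk.cnt_fst (k := k) hA hC hρ he
    have hr : cnt (Nat.find ex) (S.fst k e ρ) < k := by omega
    refine ⟨_, hr, ?_⟩
    rw [Mk.row_sel S e ρ hr (by rw [h1]; exact hn), h1, ← Mk.cz_eq hA hρ he ha]
    exact (Mk.tab_enc _ _).symm.trans ((tab_cg p2).trans (Mk.tab_enc _ _))

end Pool.Agent.MP_1a6d78_lc.DS
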