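import Pool.Agent.MP_1a6d78_lc.DS.Basic

/-! PROJECT DS, row MON: the step costs of an itinerary have the Monge property. -/

namespace Pool.Agent.MP_1a6d78_lc.DS

open Classical ED PR

theorem monS : MonS := by
  intro S r μ hL hQ T I j a a' b b' ha hb
  rcases j with _ | m
  · simp only [Sk.sd, if_true]
    omega
  · simp only [Sk.sd, Nat.succ_ne_zero, if_false, Nat.add_sub_cancel]
    split_ifs with hg
    · obtain ⟨hne, k0, k1⟩ := hg
      have ho : S.ori I (m + 1) = if ((S.ori I m = 1 ↔ S.inc (gt I (2 * (m + 1)))) ↔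
          S.inc (gt I (2 * (m + 1) + 1))) then 0 else 1 := rfl
      have m0 := hL.mono _ a a' k0 ha
      have a0 := fun h => hL.anti _ (S.ori I m) a a' k0 h ha
      have m1 := hL.mono _ b b' k1 hb
      have a1 := hL.anti _ 0 b b' k1 (by decide) hb
      unfold Sk.pv
      rw [ho]
      generalize gt I (2 * (m + 1)) = A at *
      generalize gt I (2 * (m + 1) + 1) = B at *
      generalize S.ori I m = o at *
      by_cases e : o = 1 <;> by_cases eA : S.inc A <;> by_cases eB : S.inc B
      · rw [if_pos (by simp [e, eA, eB]), e]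
        exact hQ.mon A B _ _ _ _ hne ((if_pos eA).mpr m0) ((if_pos eB).mpr a1)
      · rw [if_neg (by simp [e, eA, eB]), e]
        exact hQ.mon A B _ _ _ _ hne ((if_pos eA).mpr m0) ((if_neg eB).mpr m1)
      · rw [if_neg (by simp [e, eA, eB]), e]
        have := hQ.mon A B _ _ _ _ hne ((if_neg eA).mpr m0) ((if_pos eB).mpr m1)
        omega
      · rw [if_pos (by simp [e, eA, eB]), e]
        have := hQ.mon A B _ _ _ _ hne ((if_neg eA).mpr m0) ((if_neg eB).mpr a1)
        omega
      · rw [if_neg (by simp [e, eA, eB])]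
        have := hQ.mon A B _ _ _ _ hne ((if_pos eA).mpr (a0 e))
          ((if_pos eB).mpr m1)
        omega
      · rw [if_pos (by simp [e, eA, eB])]
        have := hQ.mon A B _ _ _ _ hne ((if_pos eA).mpr (a0 e))
          ((if_neg eB).mpr a1)
        omega
      · rw [if_pos (by simp [e, eA, eB])]
        exact hQ.mon A B _ _ _ _ hne ((if_neg eA).mpr (a0 e)) ((if_pos eB).mpr a1)
      · rw [if_neg (by simp [e, eA, eB])]
        exact hQ.mon A B _ _ _ _ hne ((if_neg eA).mpr (a0 e)) ((if_neg eB).mpr m1)
    · exact le_rfl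

end Pool.Agent.MP_1a6d78_lc.DS
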