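import Pool.Agent.MP_1a6d78_lc.DS.Basic

/-! PROJECT DS: the cost of one leg between two blocks is a Monge function. -/

namespace Pool.Agent.MP_1a6d78_lc.DS

open Classical ED PR

namespace MonQ

theorem code {n a b : ℕ} (ha : a < n) (hb : b < n) :
    (a * n + b) / n = a ∧ (a * n + b) % n = b ∧ a * n + b < n * n := by
  refine ⟨?_, ?_, ?_⟩
  · rw [Nat.add_comm, Nat.add_mul_div_right _ _ (by omega), Nat.div_eq_of_lt hb, Nat.zero_add]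
  · rw [Nat.add_comm, Nat.add_mul_mod_self_right, Nat.mod_eq_of_lt hb]
  · have := Nat.mul_le_mul_right n (Nat.succ_le_of_lt ha)
    rw [Nat.succ_mul] at this
    omega

variable {S : Sk}

theorem val {a b : ℕ} (ha : S.port a) (hb : S.port b) (hl : S.Lf a b) :
    a * S.M.n + b < S.M.n * S.M.n ∧ S.vq (S.blk a) (S.blk b) (a * S.M.n + b) := by
  obtain ⟨h1, h2, h3⟩ := code ha.1 hb.1
  refine ⟨h3, ?_⟩
  unfold Sk.vq
  rw [h1, h2]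
  exact ⟨ha, hb, rfl, rfl, hl⟩

theorem sq_le {a b A B : ℕ} (h h' : ℕ) (ha : S.port a) (hb : S.port b) (hl : S.Lf a b)
    (hA : S.blk a = A) (hB : S.blk b = B) :
    S.sq A B h h' ≤ S.N * df h (S.hp a) + S.Lv a b + S.N * df (S.hp b) h' := by
  subst hA hB
  obtain ⟨h1, h2, -⟩ := code ha.1 hb.1
  have h3 := val ha hb hl
  unfold Sk.sq
  rw [if_pos ⟨_, h3⟩]
  have := (mnv_spec (S.cq h h') ⟨_, h3⟩).2 _ h3.1 h3.2
  unfold Sk.cq at this ⊢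
  rwa [h1, h2] at this

theorem sq_ex {A B : ℕ} (h h' : ℕ) (hq : ∃ q < S.M.n * S.M.n, S.vq A B q) :
    ∃ a b, S.port a ∧ S.port b ∧ S.blk a = A ∧ S.blk b = B ∧ S.Lf a b ∧
      S.sq A B h h' = S.N * df h (S.hp a) + S.Lv a b + S.N * df (S.hp b) h' := by
  obtain ⟨q, -, h2, h3⟩ := (mnv_spec (S.cq h h') hq).1
  refine ⟨_, _, h2.1, h2.2.1, h2.2.2.1, h2.2.2.2.1, h2.2.2.2.2, ?_⟩
  unfold Sk.sq
  rw [if_pos hq, h3]
  rfl

theorem cross (hK : S.Kt0) (hB : S.BlkK) (hC : S.CrossK) (hL : S.LsK) {a1 a2 b1 b2 : ℕ}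
    (p1 : S.port a1) (p2 : S.port a2) (q1 : S.port b1) (q2 : S.port b2)
    (ea : S.blk a2 = S.blk a1) (eb : S.blk b2 = S.blk b1) (hne : S.blk a1 ≠ S.blk b1)
    (l1 : S.Lf a1 b1) (l2 : S.Lf a2 b2) (oa : S.pos a1 ≤ S.pos a2) (ob : S.pos b1 ≤ S.pos b2) :
    S.Lf a1 b2 ∧ S.Lf a2 b1 ∧ S.Lv a1 b2 + S.Lv a2 b1 ≤ S.Lv a1 b1 + S.Lv a2 b2 := by
  rcases oa.eq_or_lt with oa | oa
  · obtain rfl := hK.inj _ p1.1 _ p2.1 oa
    exact ⟨l2, l1, (Nat.add_comm _ _).le⟩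
  rcases ob.eq_or_lt with ob | ob
  · obtain rfl := hK.inj _ q1.1 _ q2.1 ob
    exact ⟨l1, l2, le_rfl⟩
  have g1 := hL.lg _ _ p1 q1 l1
  have g2 := hL.lg _ _ p2 q2 l2
  rcases lt_or_gt_of_ne hne with h | h
  · obtain ⟨c1, c2, k1, k2, k3⟩ := (hC.swap _ _ _ _ _ _ oa (hB.lt (by omega)) ob g1 g2).1
    obtain ⟨u1, u2⟩ := hL.le _ _ _ k1
    obtain ⟨u3, u4⟩ := hL.le _ _ _ k2
    exact ⟨u1, u3, by omega⟩
  · obtain ⟨c1, c2, k1, k2, k3⟩ :=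
      (hC.swap _ _ _ _ _ _ ob (hB.lt (by omega)) oa (hC.symm _ _ _ g1) (hC.symm _ _ _ g2)).1
    obtain ⟨u1, u2⟩ := hL.le _ _ _ (hC.symm _ _ _ k1)
    obtain ⟨u3, u4⟩ := hL.le _ _ _ (hC.symm _ _ _ k2)
    exact ⟨u3, u1, by omega⟩

theorem cvx (hB : S.BlkK) {A a a' h1 h2 : ℕ} (p : S.port a) (p' : S.port a') (e : S.blk a = A)
    (e' : S.blk a' = A) (o : S.pos a ≤ S.pos a') (hh : if S.inc A then h1 ≤ h2 else h2 ≤ h1) :
    S.N * df h1 (S.hp a) + S.N * df h2 (S.hp a') ≤ S.N * df h1 (S.hp a') + S.N * df h2 (S.hp a) := by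
  rw [← Nat.mul_add, ← Nat.mul_add]
  refine Nat.mul_le_mul_left _ ?_
  split_ifs at hh with hi
  · have := hi a p.1 a' p'.1 p p' e e' o
    unfold df; omega
  · have := (hB.dir A).resolve_left hi a p.1 a' p'.1 p p' e e' o
    unfold df; omega

end MonQ

open MonQ in
theorem monQS : MonQS := by
  intro S hK hB hC hL
  refine ⟨fun a b h h' ha hb hl => sq_le h h' ha hb hl rfl rfl,
    fun a b h h' ha hb hl => sq_ex h h' ⟨_, val ha hb hl⟩, fun A B h1 h2 k1 k2 hne hh hk => ?_⟩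
  by_cases hq : ∃ q < S.M.n * S.M.n, S.vq A B q
  swap
  · simp only [Sk.sq, if_neg hq, le_refl]
  obtain ⟨a1, b1, p1, q1, e1, f1, l1, s1⟩ := sq_ex h1 k2 hq
  obtain ⟨a2, b2, p2, q2, e2, f2, l2, s2⟩ := sq_ex h2 k1 hq
  rw [s1, s2, df_comm (S.hp b1), df_comm (S.hp b2)]
  rcases le_total (S.pos a1) (S.pos a2) with oa | oa <;>
    rcases le_total (S.pos b1) (S.pos b2) with ob | ob
  · obtain ⟨m1, m2, m3⟩ := cross hK hB hC hL p1 p2 q1 q2 (by omega) (by omega) (by omega) l1 l2 oa ob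
    have t1 := sq_le h1 k1 p1 q2 m1 e1 f2
    have t2 := sq_le h2 k2 p2 q1 m2 e2 f1
    rw [df_comm (S.hp _)] at t1 t2
    omega
  · have t1 := sq_le h1 k1 p1 q1 l1 e1 f1
    have t2 := sq_le h2 k2 p2 q2 l2 e2 f2
    have c := cvx hB q2 q1 f2 f1 ob hk
    rw [df_comm (S.hp _)] at t1 t2
    omega
  · have t1 := sq_le h1 k1 p2 q2 l2 e2 f2
    have t2 := sq_le h2 k2 p1 q1 l1 e1 f1
    have c := cvx hB p2 p1 e2 e1 oa hh
    rw [df_comm (S.hp _)] at t1 t2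
    omega
  · obtain ⟨m1, m2, m3⟩ := cross hK hB hC hL p2 p1 q2 q1 (by omega) (by omega) (by omega) l2 l1 oa ob
    have t1 := sq_le h1 k1 p2 q1 m1 e2 f1
    have t2 := sq_le h2 k2 p1 q2 m2 e1 f2
    have c := cvx hB p2 p1 e2 e1 oa hh
    have c' := cvx hB q2 q1 f2 f1 ob hk
    rw [df_comm (S.hp _)] at t1 t2
    omega

end Pool.Agent.MP_1a6d78_lc.DS
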