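import Pool.Agent.MP_1a6d78_lc.DS.Basic

/-! PROJECT DS, row NC: canonical legs do not cross. -/

namespace Pool.Agent.MP_1a6d78_lc.DS

namespace NcL

variable {S : Sk} {a b a' b' : ℕ}

theorem lg (hL : S.LsK) (h : S.tg S.F a b) : S.Lg a b (S.Lv a b) := hL.lg a b h.1 h.2.1 h.2.2.1

/-- Exchanged legs of the same total cost are tight. -/
theorem key (hL : S.LsK) (hB : S.BellK) (hC : S.ClsK) (h : S.Can a b) (h' : S.Can a' b')
    {c1 c2 : ℕ} (l1 : S.Lg a b' c1) (l2 : S.Lg a' b c2) (e : c1 + c2 = S.Lv a b + S.Lv a' b') :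
    a = a' := by
  obtain ⟨t, -, -, m⟩ := hC.can a b h
  obtain ⟨t', -, -, m'⟩ := hC.can a' b' h'
  obtain ⟨f1, g1⟩ := hL.le _ _ _ l1
  obtain ⟨f2, g2⟩ := hL.le _ _ _ l2
  have k1 := hB.lg _ _ _ (hL.lg _ _ l1.1 l1.2.1 f1)
  have k2 := hB.lg _ _ _ (hL.lg _ _ l2.1 l2.2.1 f2)
  have e1 := t.2.2.2
  have e2 := t'.2.2.2
  exact le_antisymm (m a' b rfl ⟨l2.1, l2.2.1, f2, by omega⟩)
    (m' a b' rfl ⟨l1.1, l1.2.1, f1, by omega⟩)

end NcL

open NcL

theorem ncS : NcS := by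
  intro S hK hb hX hL hB hO hT hC
  refine ⟨fun a b a' b' h h' ⟨p1, p2, p3⟩ => ?_, fun a b a' b' h h' e => ?_, fun a b h => ?_,
    fun a b a' b' h h' k => ?_⟩
  · have l := lg hL (hC.can a b h).1
    have l' := lg hL (hC.can a' b' h').1
    have s := hX.symm _ _ _ l
    have s' := hX.symm _ _ _ l'
    have e : a = a' := by
      rcases le_total (S.pos a) (S.pos b) with q | q <;>
        rcases le_total (S.pos a') (S.pos b') with q' | q'
      · obtain ⟨c1, c2, u, v, e⟩ := (hX.swap a a' b b' _ _ (by omega) (by omega) (by omega) l l').1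
        exact key hL hB hC h h' u v e
      · obtain ⟨c1, c2, u, v, e⟩ := (hX.swap a b' b a' _ _ (by omega) (by omega) (by omega) l s').2
        exact key hL hB hC h h' u (hX.symm _ _ _ v) e
      · obtain ⟨c1, c2, u, v, e⟩ := (hX.swap b a' a b' _ _ (by omega) (by omega) (by omega) s l').2
        exact key hL hB hC h h' v (hX.symm _ _ _ u) (by omega)
      · obtain ⟨c1, c2, u, v, e⟩ := (hX.swap b b' a a' _ _ (by omega) (by omega) (by omega) s s').1
        exact key hL hB hC h h' (hX.symm _ _ _ v) (hX.symm _ _ _ u) (by omega)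
    subst e
    omega
  · have t := (hC.can a b h).1
    have t' := (hC.can a' b' h').1
    obtain rfl := hK.inj _ t.2.1.1 _ t'.1.1 e
    have e1 := t.2.2.2
    have e2 := t'.2.2.2
    have := hL.pos _ _ _ (lg hL t)
    rcases hL.back _ _ _ _ _ (lg hL t) (lg hL t') with q | ⟨c, q1, q2⟩
    · rw [q] at e2
      omega
    · have := hB.lg _ _ _ q1
      omega
  · have t := (hC.can a b h).1
    have n : ¬S.sam (S.M.nd a) (S.M.nd b) := fun e => hO.once _ _ e (hO.leg a b t)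
    exact ⟨n, fun e => n (hb.s2 a b t.1 t.2.1 e)⟩
  · have t := (hC.can a b h).1
    have t' := (hC.can a' b' h').1
    have n : ¬S.sam (S.M.nd a') (S.M.nd b) := fun e => hO.once _ _ e
      (hO.pa _ _ _ t'.1.2.1 t.1.2.1 t.2.1.2.1
        (hO.pa _ _ _ t'.1.2.1 t'.2.1.2.1 t.1.2.1 (hO.leg a' b' t') (hT.mem _ _ k).2.2.2.2.1)
        (hO.leg a b t).fa)
    exact ⟨n, fun e => n (hb.s2 a' b t'.1 t.2.1 e)⟩

end Pool.Agent.MP_1a6d78_lc.DS
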