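import Pool.Agent.MP_1a6d78_lc.DS.Basic

/-! PROJECT DS, row ONCE: the potential grows along tight legs and slides. -/

namespace Pool.Agent.MP_1a6d78_lc.DS

open Classical ED PR

namespace Once

variable {S : Sk} {r μ : ℕ}

theorem rc (ok : S.Ok r μ) (kt : S.Kt0) {u v : ℕ} (hu : S.K u) (hv : S.K v) :
    Wk S.M S.w U u v (S.D u v) :=
  ds_spec (ok.wok.rc (ok.comp u (kt.live u hu).1) (ok.comp v (kt.live v hv).1))

theorem tri (ok : S.Ok r μ) (kt : S.Kt0) {u v z : ℕ} (hu : S.K u) (hv : S.K v) (hz : S.K z) :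
    S.N * S.D u z ≤ S.N * S.D u v + S.N * S.D v z := by
  rw [← Nat.mul_add]
  exact Nat.mul_le_mul_left _ (ds_le ((rc ok kt hu hv).trans (rc ok kt hv hz)))

theorem back (ok : S.Ok r μ) {u v c : ℕ} (h : Wk S.M S.w U u v c) : Wk S.M S.w U v u c :=
  h.symm ok.wok.ok.iv fun _ p q => ok.wok.symm p q

theorem edge {d : ℕ} (hd : d < S.M.n) (hb : S.M.β d ≠ d) :
    Wk S.M S.w U (S.M.nd d) (S.M.nd (S.M.β d)) (S.w d) := Wk.one hd hb trivial trivial

theorem leg (ok : S.Ok r μ) {a b c : ℕ} (h : S.Lg a b c) :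
    S.N * S.D (S.M.nd a) (S.M.nd b) < c := by
  obtain ⟨pa, pb, ⟨e, rfl⟩ | ⟨c', k, rfl⟩⟩ := h
  · have h1 : S.D (S.M.nd a) (S.M.nd b) ≤ S.w a := ds_le (e ▸ edge pa.1 pa.2.2.2)
    exact Nat.lt_succ_of_le (Nat.mul_le_mul_left _ h1)
  · obtain ⟨c0, k1, k2⟩ := Wk.wle (a := S.N) (w := S.w) (fun d _ _ => Nat.le_succ _) k
    have h1 : S.D (S.M.nd a) (S.M.nd b) ≤ S.w a + c0 + S.w b :=
      ds_le (((edge pa.1 pa.2.2.2).trans k1.toU).trans (back ok (edge pb.1 pb.2.2.2)))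
    have h2 := Nat.mul_le_mul_left S.N h1
    rw [Nat.mul_add, Nat.mul_add] at h2
    unfold Sk.w1
    omega

end Once

open Once in
theorem onceS : OnceS := by
  intro S r μ ok kt li ls be
  refine ⟨fun u => ?_, fun u v z hu hv hz h k => ?_, fun u v z hu hv hz h k => ?_,
    fun u v z hu hv hz h k => ?_, fun a b h => ?_, fun z d hd h => ?_, fun u z h k => ?_⟩
  · have : S.D u u = 0 := ds_self trivial
    unfold Sk.Fa
    rw [this]
    exact Nat.le_refl _
  · have := tri ok kt hu hv hz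
    unfold Sk.Fa at h k ⊢
    omega
  · have := tri ok kt hu hv hz
    unfold Sk.Fa at h
    unfold Sk.Fp at k ⊢
    omega
  · have := tri ok kt hu hv hz
    unfold Sk.Fa at k
    unfold Sk.Fp at h ⊢
    omega
  · have h1 := leg ok (ls.lg a b h.1 h.2.1 h.2.2.1)
    have h2 := h.2.2.2
    unfold Sk.Fp
    omega
  · obtain ⟨rfl, h1, h2⟩ := h
    have e := kt.gam_eq hd h1
    have h3 : S.D (S.M.nd (S.gam d)) (S.M.nd d) ≤ S.w d := by
      rw [e]
      exact ds_le (back ok (edge hd (e ▸ h1)))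
    have h4 := Nat.mul_le_mul_left S.N h3
    unfold Sk.Fa
    omega
  · have lu := (kt.live u h.1).1
    have lz := (kt.live z h.2.1).1
    have h1 := be.wk u z _ lu (li.slide u z h)
    have h2 := ok.geo.lip u z _ lu lz h.2.2.2.2 (rc ok kt h.1 h.2.1)
    have h3 := ok.geo.lip z u _ lz lu h.2.2.2.2.symm (back ok (rc ok kt h.1 h.2.1))
    have h4 : df (S.f.ht u) (S.f.ht z) ≤ S.D u z := by
      unfold df
      omega
    have h5 := Nat.mul_le_mul_left S.N h4
    unfold Sk.Fp at k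
    omega

end Pool.Agent.MP_1a6d78_lc.DS
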