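import Pool.Agent.MP_1a6d78_lc.DS.Basic

/-! PROJECT DS: the levels of the algorithm and its top are computable. -/

namespace Pool.Agent.MP_1a6d78_lc.DS

open Classical ED PR

namespace Pa

variable {κ : List Bool → ℕ} {r : ℕ}

theorem alg_le (r j : ℕ) (y : List Bool) : alg r j y ≤ 1 := by
  cases j <;> (simp only [alg, ans]; split_ifs <;> omega)

theorem nm (i : PiK r) (κ : List Bool → ℕ) (n : ℕ) : Cn κ fun x _ => num x n :=
  K.app (i.num κ) (K.c n)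

theorem fo (i : PiK r) (κ : List Bool → ℕ) : Fo.C κ fun x => f1 (inp x) (Wx x) :=
  ⟨K.v 0, K.c 0, i.W κ, i.lv κ, i.lv κ⟩

theorem an (pf : PfS) (i : PiK r) {S : List Bool → Sk} (h : SkC κ S) (hκ : ∀ x, bs r x ≤ κ x) :
    Cn κ fun x _ => ans (S x) (kx r x) r (num x 3) :=
  K.ite (K.and (K.appP h.f.2.2.2.1 (K.app h.nd h.M.2.2.2.2.2))
    (K.le (pf κ (kx r) S r h (i.k κ) hκ) (nm i κ 3))) (K.c 1) (K.c 0)

variable {a : List Bool → Env → ℕ} {π : List Bool → ℕ → ℕ}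

theorem bt (i : PiK r) (h : Cn κ a) : Cn κ fun x ρ => (inp x).β (a x ρ) :=
  K.app (i.M κ).2.2.1 h

theorem nd (i : PiK r) (h : Cn κ a) : Cn κ fun x ρ => (inp x).nd (a x ρ) := K.app (i.nd κ) h

theorem u (i : PiK r) (h : Cn κ a) : Cp κ fun x ρ => us x (a x ρ) :=
  K.eq (K.app (i.num κ) (K.add (K.add (K.add (K.add (K.c 4) (nm i κ 0)) (nm i κ 0)) (nm i κ 0)) h))
    (K.c 1)

theorem b (i : PiK r) (h : Cn κ a) : Cn κ fun x ρ => be x (a x ρ) :=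
  K.ite (K.or (u i h) (u i (bt i h))) (bt i h) h

theorem o (i : PiK r) (p : F1 κ fun x _ => π x) (h : Cn κ a) :
    Cn κ fun x ρ => om x (π x) (a x ρ) :=
  have p1 := K.app p (nd i h)
  have p2 := K.app p (nd i (bt i h))
  K.add (K.ite (u i h) (K.app (i.wt κ) h) (K.app (i.wt κ) (bt i h)))
    (K.mul (K.add (nm i κ 3) (K.c 1)) (K.add (K.sub p1 p2) (K.sub p2 p1)))

theorem w (fm : FmC) (i : PiK r) (p : F1 κ fun x _ => π x) : F1 κ fun x _ => wm x (π x) :=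
  (fm κ inp _ (i.M κ) (i.nd κ) (fo i κ)).2.2 (fun x _ => num x 0)
    (fun x ρ e => be x e ≠ e ∧ (inp x).nd e = (inp x).nd (hd (ρ 0)) ∧
      (inp x).nd ((inp x).β e) = (inp x).nd ((inp x).β (hd (ρ 0))))
    (fun x _ => om x (π x)) (nm i κ 0)
    (K.and (K.ne (b i (K.v 0)) (K.v 0)) (K.and (K.eq (nd i (K.v 0)) (nd i (K.v 1)))
      (K.eq (nd i (bt i (K.v 0))) (nd i (bt i (K.v 1)))))) (o i p (K.v 0))

end Pa

open Pa

theorem paS : PaS := by
  intro fm po pn pf r i j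
  induction j with
  | zero =>
    exact (Ev.all (P := fun _ => True) fun _ => trivial).imp fun κ hκ _ => an pf i
      ⟨i.M κ, i.nd κ, i.wt κ, i.W κ, fo i κ, i.lv κ, fun _ _ _ _ => K.c 0, i.Z κ⟩ hκ
  | succ j ih =>
    obtain ⟨h1, h2⟩ := pn fm po r (alg r j) (fun x => ro r (num x 0) ^ (j + 1)) i ih
      (alg_le r j) fun κ => K.pow _ (i.ro κ)
    exact (h2 _ (h1 r)).imp fun κ hκ h => an pf i h hκ

theorem ptS : PtS := by
  intro fm po r b φ π i hb hφ h1 hπ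
  have h := po r b φ i hb hφ h1 be (fun x d => (num x 0 + 1) * wm x (π x) d + 1)
    (hπ.imp fun κ _ p => ⟨Pa.b i (K.v 0),
      K.add (K.mul (K.add (nm i κ 0) (K.c 1)) (w fm i p)) (K.c 1)⟩)
  refine (h.and hπ).imp fun κ _ ⟨q, p⟩ => ?_
  have p1 := K.app p (nd i (nm i κ 1))
  have p2 := K.app p (nd i (nm i κ 2))
  exact K.ite (K.le p1 p2) (q _ _ _ (nm i κ 1) (nm i κ 2)
    (K.add (K.mul (K.add (nm i κ 0) (K.c 1)) (K.add (nm i κ 3)
      (K.mul (K.add (nm i κ 3) (K.c 1)) (K.sub p2 p1)))) (nm i κ 0))) (K.c 0)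

end Pool.Agent.MP_1a6d78_lc.DS
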