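import Pool.Agent.MP_1a6d78_lc.DS.Basic

/-! PROJECT PSD: the skeleton of geodesics, blocks and classes (rows packed). -/

section MrgPart1

/-! PROJECT DS: two paths through isolated vertices cannot cross in a face. -/

namespace Pool.Agent.MP_1a6d78_lc.DS

open Classical ED PR

namespace Jor

theorem sw_l (a b : ℕ) : sw a b a = b := if_pos rfl

theorem sw_r (a b : ℕ) : sw a b b = a := by
  unfold sw
  split_ifs with h k
  exacts [h, rfl, absurd rfl k]

theorem sw_o {a b d : ℕ} (h : d ≠ a) (k : d ≠ b) : sw a b d = d := by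
  rw [sw, if_neg h, if_neg k]

/-- A passage through a cycle acts on the other points as one transposition. -/
theorem pass {n a b p x y z : ℕ} {f : ℕ → ℕ} (hf : Pm n f) (ha : a < n) (hb : b < n) (hp : p < n)
    (hx : x < n) (hy : y < n) (hab : a ≠ b) (hxp : x ≠ p) (px : Sc n f p x) (pa : ¬Sc n f p a)
    (pb : ¬Sc n f p b) (py : ¬Sc n f p y) (pz : ¬Sc n f p z)
    (h : Sc n (fun d => f (sw a p (sw x b d))) y z) : Sc n (fun d => f (sw a b d)) y z := by
  have pp := Sc.refl f hp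
  have ap : a ≠ p := fun e => pa (e ▸ pp)
  have bp : b ≠ p := fun e => pb (e ▸ pp)
  have ax : a ≠ x := fun e => pa (e ▸ px)
  have hk : Pm n fun d => f (sw p x d) := swapK.pm hf hp hx
  have hh : Pm n fun d => f (sw a b d) := swapK.pm hf ha hb
  have hg : Pm n fun d => f (sw a p (sw x b d)) :=
    swapK.pm (f := fun d => f (sw a p d)) (swapK.pm hf ha hp) hx hb
  have nk : ¬Sc n (fun d => f (sw p x d)) x p := fun k =>
    swapK.split hf hp hx hxp.symm px (k.symm hk hx)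
  have cyc : ∀ g : ℕ → ℕ, Pm n g → ∀ c < n, ∀ d < n, Sc n g c (g d) ↔ Sc n g c d :=
    fun g q c hc d hd => ⟨fun k => k.trans q.1 hc ((Sc.step q.1 hd).symm q hd),
      fun k => k.trans q.1 hc (Sc.step q.1 hd)⟩
  let π : ℕ → ℕ := fun d =>
    if Sc n f p d then (if Sc n (fun d => f (sw p x d)) x d then a else b) else d
  have off : ∀ d, ¬Sc n f p d → π d = d := fun d k => if_neg k
  have la : ∀ d, Sc n f p d → Sc n (fun d => f (sw p x d)) x d → π d = a :=
    fun d k k' => (if_pos k).trans (if_pos k')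
  have lb : ∀ d, Sc n f p d → ¬Sc n (fun d => f (sw p x d)) x d → π d = b :=
    fun d k k' => (if_pos k).trans (if_neg k')
  have key := Sc.ind hg.1 (Q := fun d => Sc n (fun d => f (sw a b d)) y (π d)) hy
    (by rw [off y py]; exact Sc.refl _ hy) (fun d hd k => ?_) h
  · rwa [off z pz] at key
  by_cases dx : d = x
  · rw [dx, la x px (Sc.refl _ hx)] at k
    rw [dx, sw_l, sw_o hab.symm bp, off _ (mt (cyc f hf p hp b hb).1 pb)]
    have := (cyc _ hh y hy a ha).2 k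
    rwa [sw_l] at this
  by_cases db : d = b
  · rw [db, off b pb] at k
    rw [db, sw_r, sw_o ax.symm hxp, lb _ ((cyc f hf p hp x hx).2 px) fun q => nk ?_]
    · exact k
    · refine (cyc _ hk x hx p hp).1 ?_
      rwa [sw_l]
  rw [sw_o dx db]
  by_cases da : d = a
  · rw [da, off a pa] at k
    rw [da, sw_l, la _ ((cyc f hf p hp p hp).2 pp) ?_]
    · exact k
    · have := Sc.step hk.1 hx
      rwa [sw_r] at this
  by_cases dp : d = p
  · rw [dp, lb p pp nk] at k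
    rw [dp, sw_r, off _ (mt (cyc f hf p hp a ha).1 pa)]
    have := (cyc _ hh y hy b hb).2 k
    rwa [sw_r] at this
  rw [sw_o da dp]
  by_cases q : Sc n f p d
  · have e := cyc _ hk x hx d hd
    rw [sw_o dp dx] at e
    by_cases q' : Sc n (fun d => f (sw p x d)) x d
    · rwa [(la _ ((cyc f hf p hp d hd).2 q) (e.2 q')).trans (la d q q').symm]
    · rwa [(lb _ ((cyc f hf p hp d hd).2 q) (mt e.1 q')).trans (lb d q q').symm]
  · rw [off d q] at k
    rw [off _ (mt (cyc f hf p hp d hd).1 q)]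
    have := (cyc _ hh y hy d hd).2 k
    rwa [sw_o da db] at this

variable {M : Mp} {w γ : ℕ → ℕ} {V : ℕ → Prop} {a b : ℕ}

/-- The face of a dart of an isolated vertex is the vertex. -/
theorem iso (hM : M.Ok) (hγ : Iv M.n γ) {p d : ℕ} (hp : p < M.n) (hd : d < M.n)
    (h : ∀ e < M.n, M.nd e = M.nd p → γ e = e) :
    Sc M.n (fun e => M.ρ (γ e)) p d ↔ M.nd d = M.nd p := by
  have hf := hM.pm.comp hγ.pm
  have st : ∀ e < M.n, M.nd (M.ρ e) = M.nd e := fun e he =>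
    ((Mp.nd_iff hM.pm he (hM.pm.1 e he)).2 (Sc.step hM.pm.1 he)).symm
  constructor
  · exact Sc.ind hf.1 (Q := fun e => M.nd e = M.nd p) hp rfl fun e he k => by
      rw [h e he k, st e he, k]
  · intro e
    refine (Sc.ind hM.pm.1 (Q := fun e => M.nd e = M.nd p ∧ Sc M.n (fun e => M.ρ (γ e)) p e) hp
      ⟨rfl, Sc.refl _ hp⟩ (fun e he k => ⟨(st e he).trans k.1, ?_⟩)
      ((Mp.nd_iff hM.pm hp hd).1 e.symm)).2
    have := k.2.trans hf.1 hp (Sc.step hf.1 he)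
    rwa [h e he k.1] at this

theorem add_sb (hM : M.Ok) (hs : Sb M.n γ M.β) (ha : a < M.n) (ea : γ a = a)
    (eb : γ (M.β a) = M.β a) : Sb M.n (fun d => γ (sw a (M.β a) d)) M.β ∧
      Sb M.n γ fun d => γ (sw a (M.β a) d) := by
  refine ⟨fun d hd => ?_, fun d _ => ?_⟩ <;> beta_reduce
  · by_cases h1 : d = a
    · exact Or.inr (by rw [h1, sw_l, eb])
    by_cases h2 : d = M.β a
    · exact Or.inr (by rw [h2, sw_r, ea, (hM.iv a ha).2])
    simpa only [sw_o h1 h2] using hs d hd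
  · by_cases h1 : d = a
    · exact Or.inl (h1 ▸ ea)
    by_cases h2 : d = M.β a
    · exact Or.inl (h2 ▸ eb)
    exact Or.inr (by rw [sw_o h1 h2])

/-- The state of a path under construction. -/
structure St (M : Mp) (V : ℕ → Prop) (γ : ℕ → ℕ) (a b : ℕ) : Prop where
  iv : Iv M.n γ
  sb : Sb M.n γ M.β
  ha : a < M.n
  hb : b < M.n
  ne : a ≠ b
  ea : γ a = a
  eb : γ b = b
  nb : M.β b ≠ b
  va : ¬V (M.nd a)
  vb : ¬V (M.nd b)
  fix : ∀ d < M.n, V (M.nd d) → γ d = d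

/-- One more vertex of the path. -/
theorem adv (hM : M.Ok) (h : St M V γ a b) (k : Rc M w V (M.nd (M.β a)) (M.nd (M.β b))) :
    ∃ x, V (M.nd (M.β a)) ∧ M.nd x = M.nd (M.β a) ∧ x ≠ M.β a ∧
      St M (fun v => V v ∧ v ≠ M.nd (M.β a)) (fun d => γ (sw a (M.β a) d)) x b ∧
      (M.β x = b ∨ Rc M w (fun v => V v ∧ v ≠ M.nd (M.β a)) (M.nd (M.β x)) (M.nd (M.β b))) := by
  obtain ⟨c, k⟩ := k
  have hu := k.mem.1
  have hp := hM.iv a h.ha
  have hq := hM.iv b h.hb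
  have ep := h.fix _ hp.1 hu
  have mk : ∀ x < M.n, M.nd x = M.nd (M.β a) → x ≠ M.β a →
      St M (fun v => V v ∧ v ≠ M.nd (M.β a)) (fun d => γ (sw a (M.β a) d)) x b := fun x hx e q =>
    { iv := h.iv.add h.ha hp.1 h.ea ep
      sb := (add_sb hM h.sb h.ha h.ea ep).1
      ha := hx
      hb := h.hb
      ne := fun r => h.vb (r ▸ e ▸ hu)
      ea := by rw [sw_o (fun r : x = a => h.va (r ▸ e ▸ hu)) q, h.fix x hx (e ▸ hu)]
      eb := by rw [sw_o h.ne.symm fun r => h.vb (r ▸ hu), h.eb]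
      nb := h.nb
      va := fun r => r.2 e
      vb := fun r => h.vb r.1
      fix := fun d hd r => by
        rw [sw_o (fun s : d = a => h.va (s ▸ r.1)) fun s => r.2 (congrArg _ s), h.fix d hd r.1] }
  rcases k.exit with e | ⟨d, c', d1, -, d3, d4, -⟩
  · have q : M.β b ≠ M.β a := fun r => h.ne (hM.iv.pm.2 a h.ha b h.hb r.symm)
    exact ⟨M.β b, hu, e.symm, q, mk _ hq.1 e.symm q, Or.inl hq.2⟩
  · have q : d ≠ M.β a := fun r => h.va (by have := d4.mem.1.1; rwa [r, hp.2] at this)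
    exact ⟨d, hu, d3, q, mk d d1 d3 q, Or.inr ⟨c', d4⟩⟩

/-- A path through isolated vertices may replace a chord. -/
theorem one (hM : M.Ok) {y z : ℕ} (hy : y < M.n) (hz : z < M.n) (m : ℕ) :
    ∀ (V : ℕ → Prop) (γ : ℕ → ℕ) (a : ℕ), cnt M.n V < m → St M V γ a b → ¬V (M.nd y) →
      ¬V (M.nd z) → ¬Sc M.n (fun d => M.ρ (γ (sw a b d))) y z →
      (M.β a = b ∨ Rc M w V (M.nd (M.β a)) (M.nd (M.β b))) →
      ∃ γ', Iv M.n γ' ∧ Sb M.n γ' M.β ∧ Sb M.n γ γ' ∧
        (∀ d < M.n, d ≠ a → d ≠ b → ¬V (M.nd d) → γ' d = γ d) ∧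
        ¬Sc M.n (fun d => M.ρ (γ' d)) y z := by
  induction m with
  | zero => exact fun _ _ _ k => absurd k (Nat.not_lt_zero _)
  | succ m ih =>
    rintro V γ a hm h vy vz hn (e | k)
    · have s := add_sb hM h.sb h.ha h.ea (e ▸ h.eb)
      rw [e] at s
      exact ⟨_, h.iv.add h.ha h.hb h.ea h.eb, s.1, s.2, fun d _ p q _ => by rw [sw_o p q], hn⟩
    obtain ⟨x, hu, ex, xp, h', k'⟩ := adv hM h k
    have hp := (hM.iv a h.ha).1
    have I : ∀ d < M.n, Sc M.n (fun e => M.ρ (γ e)) (M.β a) d ↔ M.nd d = M.nd (M.β a) :=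
      fun d hd => iso hM h.iv hp hd fun e he r => h.fix e he (r ▸ hu)
    have N : ∀ d < M.n, ¬V (M.nd d) → ¬Sc M.n (fun e => M.ρ (γ e)) (M.β a) d :=
      fun d hd r s => r ((I d hd).1 s ▸ hu)
    have l := cnt_lt (P := fun v => V v ∧ v ≠ M.nd (M.β a)) (fun _ _ r => r.1) (Mp.nd_spec hp).1 hu
      fun r => r.2 rfl
    obtain ⟨γ', i1, i2, i3, i4, i5⟩ := ih _ _ x (by omega) h' (fun r => vy r.1) (fun r => vz r.1)
      (fun r => hn (pass (hM.pm.comp h.iv.pm) h.ha h.hb hp h'.ha hy h.ne xp ((I x h'.ha).2 ex)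
        (N a h.ha h.va) (N b h.hb h.vb) (N y hy vy) (N z hz vz) r)) k'
    refine ⟨γ', i1, i2, (add_sb hM h.sb h.ha h.ea (h.fix _ hp hu)).2.trans i3,
      fun d hd p q r => ?_, i5⟩
    rw [i4 d hd (fun s => r (s ▸ ex ▸ hu)) q fun s => r s.1, sw_o p fun s => r (s ▸ hu)]

/-- The ends of a path through isolated vertices lie in one face. -/
theorem two (hM : M.Ok) (m : ℕ) :
    ∀ (V : ℕ → Prop) (γ : ℕ → ℕ) (a : ℕ), cnt M.n V < m → St M V γ a b → Conn M.n M.ρ γ a b →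
      (M.β a = b ∨ Rc M w V (M.nd (M.β a)) (M.nd (M.β b))) →
      Sc M.n (fun d => M.ρ (γ d)) a b := by
  induction m with
  | zero => exact fun _ _ _ k => absurd k (Nat.not_lt_zero _)
  | succ m ih =>
    rintro V γ a hm h hc (e | k)
    · exact e ▸ hM.pl γ h.iv h.sb a h.ha h.ea (e ▸ hc)
    obtain ⟨x, hu, ex, -, h', k'⟩ := adv hM h k
    have hp := (hM.iv a h.ha).1
    have hf := hM.pm.comp h.iv.pm
    have N : ∀ c < M.n, M.nd c = M.nd (M.β a) → ∀ d < M.n, ¬V (M.nd d) →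
        ¬Sc M.n (fun e => M.ρ (γ e)) c d := fun c hc e d hd r s =>
      r (((iso hM h.iv hc hd fun e' he q => h.fix e' he ((q.trans e) ▸ hu)).1 s).trans e ▸ hu)
    have l := cnt_lt (P := fun v => V v ∧ v ≠ M.nd (M.β a)) (fun _ _ r => r.1) (Mp.nd_spec hp).1 hu
      fun r => r.2 rfl
    have c1 := Conn.gam M.ρ (fun d => γ (sw a (M.β a) d)) hp
    rw [sw_r, h.ea] at c1
    have s := ih _ _ x (by omega) h'
      ((Sc.conn' _ hM.pm h'.ha ((Mp.nd_iff hM.pm h'.ha hp).1 ex)).trans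
        (c1.trans (hc.mono (add_sb hM h.sb h.ha h.ea (h.fix _ hp hu)).2))) k'
    rcases (swapK.merge hf h.ha hp (fun r => N _ hp rfl a h.ha h.va (r.symm hf h.ha)) x h'.ha b
      h.hb).1 s with r | r | r
    exacts [absurd r (N x h'.ha ex b h.hb h.vb), absurd r.1 (N x h'.ha ex a h.ha h.va), r.2]

end Jor

theorem jorS : JorS := by
  intro M w γ V V' a b a' b' hM iv sb ha hb ha' hb' n1 n2 n3 n4 n5 n6 e1 e2 e3 e4 _ t2 _ t4 dj hV
    hn hc p1 p2
  have va' : ¬V (M.nd a') := fun r => (hV a' ha' (Or.inl r)).2.2.2.1 rfl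
  have vb' : ¬V (M.nd b') := fun r => (hV b' hb' (Or.inl r)).2.2.2.2.1 rfl
  obtain ⟨γ', i1, i2, i3, i4, i5⟩ := Jor.one hM ha' hb' _ V γ a (Nat.lt_succ_self _)
    ⟨iv, sb, ha, hb, n1, e1, e2, t2, fun r => (hV a ha (Or.inl r)).2.1 rfl,
      fun r => (hV b hb (Or.inl r)).2.2.1 rfl, fun d hd r => (hV d hd (Or.inl r)).1⟩ va' vb' hn p1
  refine i5 (Jor.two hM _ V' γ' a' (Nat.lt_succ_self _) ⟨i1, i2, ha', hb', n2,
    (i4 a' ha' n3.symm n5.symm va').trans e3, (i4 b' hb' n4.symm n6.symm vb').trans e4, t4,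
    fun r => (hV a' ha' (Or.inr r)).2.2.2.1 rfl, fun r => (hV b' hb' (Or.inr r)).2.2.2.2.1 rfl,
    fun d hd r => ?_⟩ (hc.mono i3) p2)
  have q := hV d hd (Or.inr r)
  exact (i4 d hd q.2.1 q.2.2.1 fun s => dj _ s r).trans q.1

end Pool.Agent.MP_1a6d78_lc.DS

end MrgPart1

section MrgPart2

/-! PROJECT DS, row KT0: the tree on the skeleton and its contour. -/

namespace Pool.Agent.MP_1a6d78_lc.DS

open Classical ED PR

namespace KT0

variable {S : Sk}

theorem gam_or (S : Sk) (d : ℕ) : S.gam d = d ∨ (S.gam d = (S.M.F S.f).tau d ∧ S.K (S.M.nd d) ∧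
    S.K (S.M.nd ((S.M.F S.f).tau d))) := by
  unfold Sk.gam
  split_ifs with h
  exacts [Or.inr ⟨rfl, h⟩, Or.inl rfl]

theorem gam_pos {d : ℕ} (h : S.K (S.M.nd d)) (k : S.K (S.M.nd ((S.M.F S.f).tau d))) :
    S.gam d = (S.M.F S.f).tau d := if_pos ⟨h, k⟩

theorem lpar (hf : S.f.Ok S.M.n S.M.arc) (a : ℕ) (h : S.f.live a) : S.f.live (S.f.par a) := by
  by_cases e : S.f.par a = a
  · rwa [e]
  · exact (hf.par a h e).2.1

theorem bnd (hf : S.f.Ok S.M.n S.M.arc) {x v : ℕ} (h : S.f.live x) :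
    (∃ t < S.M.n, it S.M.n S.f.par t x = v) ↔ ∃ t, S.f.par^[t] x = v :=
  ⟨fun ⟨t, _, e⟩ => ⟨t, (it_eq' (lpar hf) hf.lt h t).symm.trans e⟩, fun ⟨_, e⟩ =>
    (iter_bnd' (lpar hf) hf.lt h e).imp fun s k => ⟨k.1, (it_eq' (lpar hf) hf.lt h s).trans k.2⟩⟩

end KT0

open KT0 in
theorem kt0S : Kt0S := by
  intro S r μ ok
  have hM := ok.wok.ok
  have hf := ok.fit.1
  have s := gSetS (msfS nclK) (msfC nclK) (contS swapK) S.M S.f hM ok.fit
  have hK : ∀ v, S.K v ↔ ∃ x, S.X x ∧ ∃ t, S.f.par^[t] x = v := fun v =>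
    ⟨fun ⟨x, _, a, b⟩ => ⟨x, a, (bnd hf (ok.xl x a)).1 b⟩,
      fun ⟨x, a, b⟩ => ⟨x, hf.lt x (ok.xl x a), a, (bnd hf (ok.xl x a)).2 b⟩⟩
  have hl : ∀ v, S.K v → S.f.live v := fun v h => by
    obtain ⟨x, a, t, rfl⟩ := (hK v).1 h
    exact iter_inv (lpar hf) (ok.xl x a) t
  have hp : ∀ v, S.K v → S.K (S.f.par v) := fun v h => by
    obtain ⟨x, a, t, rfl⟩ := (hK v).1 h
    exact (hK _).2 ⟨x, a, t + 1, Function.iterate_succ_apply' _ _ _⟩
  have ti : ∀ d < S.M.n, (S.M.F S.f).tau d < S.M.n ∧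
      (S.M.F S.f).tau ((S.M.F S.f).tau d) = d := s.msf.iv
  have iv : Iv S.M.n S.gam := fun d hd => by
    rcases gam_or S d with e | ⟨e, a, b⟩
    · rw [e, e]
      exact ⟨hd, rfl⟩
    · rw [e, gam_pos b (by rwa [(ti d hd).2])]
      exact ti d hd
  have sb : Sb S.M.n S.gam S.M.β := fun d hd => by
    rcases gam_or S d with e | ⟨e, -, -⟩
    · exact Or.inl e
    · rcases s.msf.sb d hd with k | k
      · exact Or.inl (e.trans k)
      · by_cases c : S.f.live (S.M.nd d) ∧ S.f.live (S.M.nd (S.M.β d))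
        exacts [Or.inr (e.trans (k.trans (if_pos c))), Or.inl (e.trans (k.trans (if_neg c)))]
  have gk : ∀ d, S.gam d ≠ d → S.K (S.M.nd d) ∧ S.K (S.M.nd (S.gam d)) := fun d h => by
    obtain ⟨e, a, b⟩ := (gam_or S d).resolve_left h
    exact ⟨a, e ▸ b⟩
  have up : ∀ v, S.K v → S.f.par v ≠ v → S.pd v < S.M.n ∧ S.M.nd (S.pd v) = v ∧
      S.gam (S.pd v) ≠ S.pd v ∧ S.M.nd (S.gam (S.pd v)) = S.f.par v := fun v h e => by
    obtain ⟨a, b, c⟩ : S.pd v < S.M.n ∧ S.M.nd (S.pd v) = v ∧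
        S.M.nd (S.M.β (S.pd v)) = S.f.par v := GSet.pd_of hM hf ⟨hl v h, e⟩
    have k : (S.M.F S.f).pd (S.M.nd (S.pd v)) = S.pd v := congrArg S.pd b
    have t : (S.M.F S.f).tau (S.pd v) = S.M.β (S.pd v) :=
      (s.msf.phi _ a (Or.inl k)).trans (s.child _ a k).2.2
    have g : S.gam (S.pd v) = S.M.β (S.pd v) :=
      (gam_pos (by rwa [b]) (by rw [t, c]; exact hp v h)).trans t
    rw [g]
    exact ⟨a, b, fun u => e (by rw [← c, u, b]), c⟩
  have ps : ∀ d < S.M.n, S.psi d < S.M.n ∧ S.M.nd (S.psi d) = S.M.nd (S.gam d) := fun d hd =>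
    ⟨hM.pm.1 _ (iv d hd).1, ((Mp.nd_iff hM.pm (iv d hd).1 (hM.pm.1 _ (iv d hd).1)).2
      (Sc.step hM.pm.1 (iv d hd).1)).symm⟩
  have ct := contS swapK S.M.n S.M.ρ S.gam S.gam
    (fun e => ¬S.K (S.M.nd e) ∨ S.f.par (S.M.nd e) = S.M.nd e) hM.pm iv (hM.pl.sub sb) iv
    (fun _ _ => Or.inr rfl) (fun d hd => Conn.gam _ _ hd) (fun d hd h c => by
      obtain ⟨e, -, -⟩ := (gam_or S d).resolve_left h
      refine s.msf.br d hd (e ▸ h) (e ▸ c.mono fun a _ => ?_)
      unfold del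
      rw [e]
      split_ifs
      · exact Or.inl rfl
      · exact (gam_or S a).imp_right And.left) (fun d hd => by
      induction hk : S.f.ht (S.M.nd d) using Nat.strong_induction_on generalizing d with
      | _ k ih =>
        by_cases q : ¬S.K (S.M.nd d) ∨ S.f.par (S.M.nd d) = S.M.nd d
        · exact ⟨d, hd, Conn.refl _ _ _ _, q⟩
        rw [not_or, not_not] at q
        obtain ⟨a, b, -, c⟩ := up _ q.1 q.2
        obtain ⟨e, h1, h2, h3⟩ := ih _ (by
          rw [c, ← hk]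
          exact (hf.par _ (hl _ q.1) q.2).2.2) _ (iv _ a).1 rfl
        exact ⟨e, h1, (Sc.conn' _ hM.pm hd ((Mp.nd_iff hM.pm hd a).1 b.symm)).trans
          ((Conn.gam _ _ a).trans h2), h3⟩)
  refine ⟨fun v x => and_congr_right fun a => bnd hf (ok.xl x a), hK,
    fun v h => ⟨hl v h, hf.lt v (hl v h), ok.fit.2.vx v (hl v h)⟩, hp, iv, sb, gk,
    fun d hd h => ?_, up, fun v h => (GSet.of_pd h).2, ct.inj, ps, fun d hd h => ?_,
    fun d hd h => ?_⟩
  · obtain ⟨e, -, -⟩ := (gam_or S d).resolve_left h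
    have b : (S.M.F S.f).tau d = (S.M.F S.f).β d := (s.msf.sb d hd).resolve_left (e ▸ h)
    by_cases c : (S.M.F S.f).isF d
    · exact c.imp_right fun c => Or.inl (by rw [e, b]; exact c)
    · refine Or.inr (Or.inr ⟨⟨e ▸ h, c⟩, ?_⟩)
      rw [e]
      refine ⟨by rw [(ti d hd).2]; exact (e ▸ h : _ ≠ d).symm, fun k => c ?_⟩
      rw [b, Fm.isF, (s.fok.iv d hd).2] at k
      exact k.symm
  · by_cases e : st S.M.n (fun d => S.M.ρ (S.gam d))
        (fun e => ¬S.K (S.M.nd e) ∨ S.f.par (S.M.nd e) = S.M.nd e) (S.psi d) = S.psi d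
    · have k := ct.root _ (ps d hd).1
      rw [e] at k
      refine Or.inr (k.resolve_left (not_not.2 ?_))
      rw [(ps d hd).2]
      by_cases g : S.gam d = d
      · rwa [g]
      · exact (gk d g).2
    · exact Or.inl (ct.succ d hd e)
  · have e : S.gam (S.M.β d) = S.M.β d ↔ S.gam d = d := by
      refine ⟨fun k => (sb d hd).resolve_right fun g => h ?_, Cont.fix hM.iv iv sb hd⟩
      rw [← k, ← g, (iv d hd).2]
    simp only [Sk.wp, Sk.w1, e, ok.wok.symm hd h]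

end Pool.Agent.MP_1a6d78_lc.DS

end MrgPart2

section MrgPart3

/-! PROJECT DS, row KT: the darts of the skeleton form one cycle of the contour. -/

namespace Pool.Agent.MP_1a6d78_lc.DS

open Classical ED PR

namespace KtA

/-- The least index of a dart on the cycle of `z`. -/
theorem idx {n z a : ℕ} {φ : ℕ → ℕ} (hf : Pm n φ) (hz : z < n) (k : Sc n φ z a) :
    lst n (fun t => it n φ t z = a) < n ∧ φ^[lst n fun t => it n φ t z = a] z = a ∧
      ∀ t < n, φ^[t] z = a → lst n (fun t => it n φ t z = a) ≤ t := by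
  obtain ⟨k1, k2⟩ := lst_spec (P := fun t => it n φ t z = a) k
  exact ⟨k1, (it_eq hf.1 hz _).symm.trans k2, fun t ht e =>
    lst_le (P := fun t => it n φ t z = a) ht ((it_eq hf.1 hz t).trans e)⟩

/-- On one cycle the positions increase by one along the walk. -/
theorem run_ps {n d e : ℕ} {φ : ℕ → ℕ} {rt : ℕ → Prop} (hf : Pm n φ) (hd : d < n)
    (k : Sc n φ d e) (hr : ∃ r < n, Sc n φ d r ∧ rt r) (h : ps n φ rt d ≤ ps n φ rt e) :
    ∃ t, φ^[t] d = e ∧ ∀ s ≤ t, ps n φ rt (φ^[s] d) = ps n φ rt d + s := by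
  obtain ⟨hz, kz, -⟩ : st n φ rt d < n ∧ Sc n φ d (st n φ rt d) ∧ rt (st n φ rt d) := lst_spec hr
  have zd := kz.symm hf hd
  obtain ⟨-, i2, -⟩ := idx hf hz zd
  obtain ⟨j1, j2, j3⟩ := idx hf hz (zd.trans hf.1 hz k)
  have he : st n φ rt e = st n φ rt d := (Cont.st_eq hf hd k).symm
  have hs : ∀ s, st n φ rt (φ^[s] d) = st n φ rt d := fun s =>
    (Cont.st_eq hf hd ((sc_iff hf.1 hd).2 ⟨s, rfl⟩)).symm
  unfold ps at h ⊢
  simp only [hs]
  rw [he] at h
  generalize st n φ rt d = z at *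
  generalize lst n (fun t => it n φ t z = d) = i at *
  generalize lst n (fun t => it n φ t z = e) = j at *
  have hij : i ≤ j := by omega
  have inj := iter_first j2 fun t ht q => absurd (j3 t (ht.trans j1) q) (not_le.2 ht)
  refine ⟨j - i, ?_, fun s hs' => ?_⟩
  · rw [← i2, ← Function.iterate_add_apply, Nat.sub_add_cancel hij, j2]
  · have ea : φ^[s + i] z = φ^[s] d := by rw [Function.iterate_add_apply, i2]
    obtain ⟨-, a2, a3⟩ := idx hf hz ((sc_iff hf.1 hz).2 ⟨s + i, ea⟩)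
    have l1 := a3 (s + i) (by omega) ea
    have := inj _ (by omega) (s + i) (by omega) (a2.trans ea.symm)
    omega

variable {S : Sk} {r μ : ℕ}

theorem c_nd (ok : S.Ok r μ) {d : ℕ} (hd : d < S.M.n) : Conn S.M.n S.M.ρ S.gam d (S.M.nd d) :=
  (Mp.nd_spec hd).2.conn' _ ok.wok.ok.pm hd

theorem c_par (ok : S.Ok r μ) (kt : S.Kt0) {v : ℕ} (hv : S.K v) :
    Conn S.M.n S.M.ρ S.gam v (S.f.par v) := by
  by_cases e : S.f.par v = v
  · rw [e]; exact Conn.refl _ _ _ _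
  · obtain ⟨a, b, -, c⟩ := kt.up v hv e
    have h1 := c_nd ok a
    have h2 := c_nd ok (kt.iv _ a).1
    rw [b] at h1
    rw [c] at h2
    exact h1.symm.trans ((Conn.gam _ _ a).trans h2)

theorem c_iter (ok : S.Ok r μ) (kt : S.Kt0) {v : ℕ} (hv : S.K v) (t : ℕ) :
    Conn S.M.n S.M.ρ S.gam v (S.f.par^[t] v) :=
  (iter_inv (Q := fun u => S.K u ∧ Conn S.M.n S.M.ρ S.gam v u)
    (fun u k => ⟨kt.par u k.1, k.2.trans (c_par ok kt k.1)⟩) ⟨hv, Conn.refl _ _ _ _⟩ t).2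

/-- Some ancestor lies in the skeleton and is joined to the source there. -/
def Q (S : Sk) (v : ℕ) : Prop :=
  ∃ t, S.K (S.f.par^[t] v) ∧ Conn S.M.n S.M.ρ S.gam (S.f.par^[t] v) S.M.s

theorem q_par (ok : S.Ok r μ) (kt : S.Kt0) (v : ℕ) : Q S v ↔ Q S (S.f.par v) := by
  constructor
  · rintro ⟨t, a, b⟩
    refine ⟨t, ?_⟩
    rw [← Function.iterate_succ_apply, Function.iterate_succ_apply']
    exact ⟨kt.par _ a, (c_par ok kt a).symm.trans b⟩
  · rintro ⟨t, a⟩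
    exact ⟨t + 1, a⟩

theorem q_K (ok : S.Ok r μ) (kt : S.Kt0) {v : ℕ} (hv : S.K v) :
    Q S v ↔ Conn S.M.n S.M.ρ S.gam v S.M.s :=
  ⟨fun ⟨t, _, b⟩ => (c_iter ok kt hv t).trans b, fun k => ⟨0, hv, k⟩⟩

theorem q_tau (ok : S.Ok r μ) (kt : S.Kt0) (s : S.M.SetK S.f) {d : ℕ} (hd : d < S.M.n) :
    Q S (S.M.nd d) ↔ Q S (S.M.nd ((S.M.F S.f).tau d)) := by
  by_cases e : (S.M.F S.f).tau d = d
  · rw [e]
  have eb : (S.M.F S.f).tau d = (S.M.F S.f).β d := (s.msf.sb d hd).resolve_left e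
  obtain ⟨b1, b2⟩ := s.fok.iv d hd
  by_cases hF : (S.M.F S.f).isF d
  · rcases hF with p | p
    · obtain ⟨-, c2, c3⟩ := s.child d hd p
      rw [eb, c3, ← c2]
      exact q_par ok kt _
    · obtain ⟨-, c2, c3⟩ := s.child _ b1 p
      rw [← c3, b2] at c2
      rw [eb, ← c2]
      exact (q_par ok kt _).symm
  · have c1 : S.con d := ⟨e, hF⟩
    have c2 : S.con ((S.M.F S.f).tau d) := by
      refine ⟨?_, fun k => hF ?_⟩
      · rw [(s.msf.iv d hd).2]; exact Ne.symm e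
      · rw [eb] at k
        unfold Fm.isF at k ⊢
        rw [b2] at k
        exact k.symm
    have t1 := (s.msf.iv d hd).1
    have k1 : S.K (S.M.nd d) := (kt.K _).2 ⟨_, ok.xc d hd c1, 0, rfl⟩
    have k2 : S.K (S.M.nd ((S.M.F S.f).tau d)) := (kt.K _).2 ⟨_, ok.xc _ t1 c2, 0, rfl⟩
    have g : S.gam d = (S.M.F S.f).tau d := if_pos ⟨k1, k2⟩
    have cn : Conn S.M.n S.M.ρ S.gam (S.M.nd d) (S.M.nd ((S.M.F S.f).tau d)) :=
      (c_nd ok hd).symm.trans ((g ▸ Conn.gam S.M.ρ S.gam hd).trans (c_nd ok t1))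
    rw [q_K ok kt k1, q_K ok kt k2]
    exact ⟨fun k => cn.symm.trans k, fun k => cn.trans k⟩

theorem q_beta (ok : S.Ok r μ) (kt : S.Kt0) (s : S.M.SetK S.f) {d : ℕ} (hd : d < S.M.n)
    (hl : S.f.live (S.M.nd d)) : Q S (S.M.nd d) ↔ Q S (S.M.nd (S.M.β d)) := by
  have eb : (S.M.F S.f).β d = S.M.β d := if_pos ⟨hl, ok.wok.clo ok.fit hd hl⟩
  have sp : Conn S.M.n S.M.ρ (S.M.F S.f).tau d ((S.M.F S.f).β d) := by
    refine Conn.mono (fun x _ => ?_) (s.msf.span d hd)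
    by_cases q : (S.M.F S.f).mx x ≤ (S.M.F S.f).mx d
    · exact Or.inr (if_pos q)
    · exact Or.inl (if_neg q)
  rw [eb] at sp
  refine Conn.ind (r := fun a b => Q S (S.M.nd a) ↔ Q S (S.M.nd b))
    ⟨fun _ => Iff.rfl, Iff.symm, Iff.trans⟩ (fun a ha => ?_) (fun a ha => q_tau ok kt s ha) sp
  rw [(Mp.nd_iff ok.wok.ok.pm ha (ok.wok.ok.pm.1 a ha)).2 (Sc.step ok.wok.ok.pm.1 ha)]

/-- The skeleton is connected. -/
theorem conn (ok : S.Ok r μ) (kt : S.Kt0) (s : S.M.SetK S.f) {d : ℕ} (hd : d < S.M.n)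
    (hK : S.K (S.M.nd d)) : Conn S.M.n S.M.ρ S.gam d S.M.s := by
  obtain ⟨c, p⟩ := ok.comp _ (kt.live _ hK).1
  have k0 : S.K (S.M.nd S.M.s) := (kt.K _).2 ⟨_, ok.xs, 0, rfl⟩
  have := (p.inv (P := fun v => S.f.live v ∧ Q S v)
    ⟨ok.xl _ ok.xs, (q_K ok kt k0).2 (c_nd ok ok.wok.ok.s).symm⟩
    fun e he _ _ _ k => ⟨ok.wok.clo ok.fit he k.1, (q_beta ok kt s he k.1).1 k.2⟩).1.2
  exact (c_nd ok hd).trans ((q_K ok kt hK).1 this)

theorem gam_sb (d : ℕ) : S.gam d = d ∨ S.gam d = (S.M.F S.f).tau d := by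
  unfold Sk.gam
  split_ifs
  · exact Or.inr rfl
  · exact Or.inl rfl

theorem bridge (s : S.M.SetK S.f) (d : ℕ) (hd : d < S.M.n) (e : S.gam d ≠ d) :
    ¬Conn S.M.n S.M.ρ (del S.gam d) d (S.gam d) := by
  have g := (gam_sb d).resolve_left e
  intro k
  refine s.msf.br d hd (g ▸ e) (g ▸ Conn.mono (fun x _ => ?_) k)
  unfold del
  rw [g]
  split_ifs
  · exact Or.inl rfl
  · exact gam_sb x

end KtA

open KtA

theorem ktS : KtS := by
  intro S r μ ok kt
  refine ⟨kt, fun d hd e he kd ke h => ?_⟩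
  have s := gSetS (msfS nclK) (msfC nclK) (contS swapK) S.M S.f ok.wok.ok ok.fit
  have hρ := ok.wok.ok.pm
  have sc : ∀ b, Conn S.M.n S.M.ρ S.gam d b → Sc S.M.n S.psi d b := fun b k =>
    Cont.conn_sc swapK hρ kt.iv (bridge s) hd k
  have cd := conn ok kt s hd kd
  exact run_ps (φ := S.psi) (hρ.comp kt.iv.pm) hd (sc e (cd.trans (conn ok kt s he ke).symm))
    ⟨_, ok.wok.ok.s, sc _ cd, Or.inr ok.fit.2.ps⟩ h

end Pool.Agent.MP_1a6d78_lc.DS

end MrgPart3

section MrgPart4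

/-! PROJECT DS, row KEY: the classes are paths, the special vertices are their ends. -/

namespace Pool.Agent.MP_1a6d78_lc.DS

open Classical ED PR

namespace KeyP

variable {S : Sk} {r μ u v z x : ℕ}

theorem drop (h : S.Ok r μ) (k : S.Kt0) (hv : S.K v) (hp : S.f.par v ≠ v) :
    S.f.ht (S.f.par v) < S.f.ht v :=
  (h.fit.1.par v (k.live v hv).1 hp).2.2

theorem le1 (h : S.Ok r μ) (k : S.Kt0) (hv : S.K v) : S.f.ht (S.f.par v) ≤ S.f.ht v := by
  by_cases e : S.f.par v = v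
  · rw [e]
  · exact (drop h k hv e).le

theorem kit (k : S.Kt0) (hv : S.K v) (t : ℕ) : S.K (S.f.par^[t] v) := by
  induction t with
  | zero => exact hv
  | succ t ih => rw [Function.iterate_succ_apply']; exact k.par _ ih

theorem hit (h : S.Ok r μ) (k : S.Kt0) (hv : S.K v) (t : ℕ) :
    S.f.ht (S.f.par^[t] v) ≤ S.f.ht v := by
  induction t with
  | zero => exact le_rfl
  | succ t ih => rw [Function.iterate_succ_apply']; exact (le1 h k (kit k hv t)).trans ih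

theorem heq (h : S.Ok r μ) (k : S.Kt0) (hv : S.K v) (t : ℕ)
    (e : S.f.ht v ≤ S.f.ht (S.f.par^[t] v)) : S.f.par^[t] v = v := by
  by_cases q : S.f.par v = v
  · exact Function.iterate_fixed q t
  · cases t with
    | zero => rfl
    | succ t =>
      rw [Function.iterate_succ_apply] at e
      have a := hit h k (k.par v hv) t
      have b := drop h k hv q
      omega

theorem xk (k : S.Kt0) (hx : S.X x) : S.K x := (k.K x).2 ⟨x, hx, 0, rfl⟩

theorem belit (k : S.Kt0) (b : S.bel u x) (t : ℕ) : S.bel (S.f.par^[t] u) x := by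
  obtain ⟨hx, s, e⟩ := (k.bel u x).1 b
  exact (k.bel _ x).2 ⟨hx, t + s, by rw [Function.iterate_add_apply, e]⟩

theorem xlt (k : S.Kt0) (b : S.bel u x) : x < S.M.n := (k.live x (xk k b.1)).2.1

theorem exb (k : S.Kt0) (hu : S.K u) : ∃ x, S.bel u x :=
  ((k.K u).1 hu).imp fun x a => (k.bel u x).2 a

theorem wit (k : S.Kt0) (hu : S.K u) : S.bel u (lst S.M.n (S.bel u)) :=
  (lst_spec ((exb k hu).imp fun _ a => ⟨xlt k a, a⟩)).2

/-- Two vertices above one mark lie on one root path. -/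
theorem line (k : S.Kt0) (a : S.bel u x) (b : S.bel v x) :
    ∃ t, S.f.par^[t] v = u ∨ S.f.par^[t] u = v := by
  obtain ⟨_, s, e⟩ := (k.bel u x).1 a
  obtain ⟨_, t, e'⟩ := (k.bel v x).1 b
  rcases le_total s t with q | q
  · exact ⟨t - s, Or.inr (by rw [← e, ← Function.iterate_add_apply, Nat.sub_add_cancel q, e'])⟩
  · exact ⟨s - t, Or.inl (by rw [← e', ← Function.iterate_add_apply, Nat.sub_add_cancel q, e])⟩

theorem up (h : S.Ok r μ) (k : S.Kt0) (s : S.sam u v) (l : S.f.ht u ≤ S.f.ht v) :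
    ∃ t, S.f.par^[t] v = u := by
  have a := wit k s.1
  have b := wit k s.2.1
  rw [← s.2.2.1] at b
  obtain ⟨t, e | e⟩ := line k a b
  · exact ⟨t, e⟩
  · exact ⟨0, e.symm.trans (heq h k s.1 t (by rw [e]; exact l))⟩

theorem beq (k : S.Kt0) (s : S.sam u v) {t : ℕ} (e : S.f.par^[t] v = u) (b : S.bel u x) :
    S.bel v x := by
  by_contra q
  have := cnt_lt (n := S.M.n) (P := S.bel v) (Q := S.bel u)
    (fun a _ c => e ▸ belit k c t) (xlt k b) b q
  have := s.2.2.2.1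
  omega

theorem mid (h : S.Ok r μ) (k : S.Kt0) (s : S.sam u v) {t m : ℕ} (e : S.f.par^[t] v = u)
    (l : m ≤ t) : S.sam (S.f.par^[m] v) v := by
  have e' : S.f.par^[t - m] (S.f.par^[m] v) = u := by
    rw [← Function.iterate_add_apply, Nat.sub_add_cancel l, e]
  have i : ∀ a < S.M.n, S.bel (S.f.par^[m] v) a ↔ S.bel v a := fun a _ =>
    ⟨fun c => beq k s e (e' ▸ belit k c (t - m)), fun c => belit k c m⟩
  have a := hit h k s.2.1 m
  have b := hit h k (kit k s.2.1 m) (t - m)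
  rw [e'] at b
  exact ⟨kit k s.2.1 m, s.2.1, lst_congr i, cnt_congr i, le_antisymm (Nat.div_le_div_right a)
    (s.2.2.2.2.ge.trans (Nat.div_le_div_right b))⟩

theorem cmp (h : S.Ok r μ) (k : S.Kt0) (s : S.sam u v) (l : S.f.ht u ≤ S.f.ht v) :
    ∃ t, S.f.par^[t] v = u ∧ ∀ m ≤ t, S.sam (S.f.par^[m] v) v ∧
      (m < t → S.f.par (S.f.par^[m] v) ≠ S.f.par^[m] v) := by
  have ex := up h k s l
  refine ⟨Nat.find ex, Nat.find_spec ex, fun m q => ⟨mid h k s (Nat.find_spec ex) q, fun q' e => ?_⟩⟩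
  refine Nat.find_min ex q' ?_
  have := Nat.find_spec ex
  rw [← Nat.sub_add_cancel q, Function.iterate_add_apply, Function.iterate_fixed e] at this
  exact this

theorem topmin (h : S.Ok r μ) (k : S.Kt0) (s : S.sam u z) (a : S.top z)
    (l : S.f.ht u ≤ S.f.ht z) : u = z := by
  obtain ⟨t, e, q⟩ := cmp h k s l
  cases t with
  | zero => exact e.symm
  | succ t =>
    rcases a with a | a
    · exact absurd a ((q 0 (Nat.zero_le _)).2 t.succ_pos)
    · exact absurd (q 1 (by omega)).1 a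

theorem botmax (h : S.Ok r μ) (k : S.Kt0) (s : S.sam u z) (a : S.bot u)
    (l : S.f.ht u ≤ S.f.ht z) : u = z := by
  obtain ⟨t, e, q⟩ := cmp h k s l
  cases t with
  | zero => exact e.symm
  | succ t =>
    rw [Function.iterate_succ_apply'] at e
    obtain ⟨q1, q2⟩ := q t t.le_succ
    exact absurd ⟨_, (k.live _ q1.1).2.1, fun c => q2 t.lt_succ_self (e.trans c.symm), e,
      q1.trans s.symm⟩ a

theorem extop (h : S.Ok r μ) (k : S.Kt0) (hz : S.K z) :
    ∃ u < S.M.n, S.sam u z ∧ S.top u := by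
  obtain ⟨u, k1, k2⟩ := Finset.exists_min_image ((Finset.range S.M.n).filter fun u => S.sam u z)
    S.f.ht ⟨z, Finset.mem_filter.2 ⟨Finset.mem_range.2 (k.live z hz).2.1, Sk.sam.refl hz⟩⟩
  rw [Finset.mem_filter, Finset.mem_range] at k1
  refine ⟨u, k1.1, k1.2, ?_⟩
  by_cases e : S.f.par u = u
  · exact Or.inl e
  · refine Or.inr fun c => ?_
    have := k2 _ (Finset.mem_filter.2 ⟨Finset.mem_range.2 (k.live _ c.1).2.1, c.trans k1.2⟩)
    have := drop h k k1.2.1 e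
    omega

theorem exbot (h : S.Ok r μ) (k : S.Kt0) (hz : S.K z) :
    ∃ u < S.M.n, S.sam u z ∧ S.bot u := by
  obtain ⟨u, k1, k2⟩ := Finset.exists_max_image ((Finset.range S.M.n).filter fun u => S.sam u z)
    S.f.ht ⟨z, Finset.mem_filter.2 ⟨Finset.mem_range.2 (k.live z hz).2.1, Sk.sam.refl hz⟩⟩
  rw [Finset.mem_filter, Finset.mem_range] at k1
  refine ⟨u, k1.1, k1.2, ?_⟩
  rintro ⟨w, a, b, c, d⟩
  have := k2 _ (Finset.mem_filter.2 ⟨Finset.mem_range.2 a, d.trans k1.2⟩)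
  have := drop h k d.1 (c ▸ b.symm)
  rw [c] at this
  omega

theorem ends (h : S.Ok r μ) (k : S.Kt0) (hz : S.K z) :
    S.sam (S.tp z) z ∧ S.top (S.tp z) ∧ S.sam (S.bt z) z ∧ S.bot (S.bt z) :=
  have a := (lst_spec (P := fun u => S.sam u z ∧ S.top u) (extop h k hz)).2
  have b := (lst_spec (P := fun u => S.sam u z ∧ S.bot u) (exbot h k hz)).2
  ⟨a.1, a.2, b.1, b.2⟩

theorem xb (h : S.Ok r μ) (k : S.Kt0) (hx : S.X x) : S.sp x := by
  refine ⟨xk k hx, Or.inr ?_⟩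
  rintro ⟨w, _, b, c, d⟩
  have e : S.bel w x := beq k d.symm (t := 1) c ((k.bel x x).2 ⟨hx, 0, rfl⟩)
  obtain ⟨_, t, e⟩ := (k.bel w x).1 e
  have a := hit h k (xk k hx) t
  have := drop h k d.1 (c ▸ b.symm)
  rw [c] at this
  rw [e] at a
  omega

/-- Two children of one vertex on one root path are equal. -/
theorem sib (h : S.Ok r μ) (k : S.Kt0) {w t : ℕ} (hu : S.K u) (hw : S.K w) (n : w ≠ v)
    (a : S.f.par u = v) (b : S.f.par w = v) (e : S.f.par^[t] u = w) : u = w := by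
  cases t with
  | zero => exact e
  | succ t =>
    rw [Function.iterate_succ_apply] at e
    have c := hit h k (k.par u hu) t
    have := drop h k hw (b ▸ n.symm)
    rw [b] at this
    rw [e, a] at c
    omega

theorem only (h : S.Ok r μ) (k : S.Kt0) {w : ℕ} (n : w ≠ v) (b : S.f.par w = v)
    (s : S.sam w v) (hu : S.K u) (n' : u ≠ v) (a : S.f.par u = v) : u = w := by
  obtain ⟨x, c⟩ := exb k hu
  have c1 : S.bel v x := a ▸ belit k c 1
  have c2 : S.bel w x := beq k s.symm (t := 1) b c1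
  obtain ⟨t, e | e⟩ := line k c c2
  · exact (sib h k s.1 hu n' b a e).symm
  · exact sib h k hu s.1 n a b e

end KeyP

open KeyP in
theorem keyS : KeyS := fun S _ _ h k =>
  { ends := fun _ hz => ends h k hz
    tp := fun u z s a => by
      obtain ⟨b, c, _⟩ := ends h k s.2.1
      rcases le_total (S.f.ht u) (S.f.ht (S.tp z)) with q | q
      · exact topmin h k (s.trans b.symm) c q
      · exact (topmin h k (b.trans s.symm) a q).symm
    bt := fun u z s a => by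
      obtain ⟨_, _, b, c⟩ := ends h k s.2.1
      rcases le_total (S.f.ht u) (S.f.ht (S.bt z)) with q | q
      · exact botmax h k (s.trans b.symm) a q
      · exact (botmax h k (b.trans s.symm) c q).symm
    ht := fun u z s => by
      obtain ⟨b, c, b', c'⟩ := ends h k s.2.1
      constructor
      · rcases le_total (S.f.ht u) (S.f.ht (S.tp z)) with q | q
        · rw [← topmin h k (s.trans b.symm) c q]
        · exact q
      · rcases le_total (S.f.ht u) (S.f.ht (S.bt z)) with q | q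
        · exact q
        · rw [botmax h k (b'.trans s.symm) c' q]
    cmp := fun _ _ s l => cmp h k s l
    inj := fun u v s e => by
      obtain ⟨t, q⟩ := up h k s e.le
      exact q.symm.trans (heq h k s.2.1 t (by rw [q]; exact e.ge))
    xb := fun _ hx => xb h k hx
    child := fun v u hv n hu n' a => by
      obtain ⟨w, _, b, c, d⟩ := not_not.1 fun q => n ⟨hv, Or.inr q⟩
      have e := only h k b c d hu n' a
      exact ⟨e ▸ d, fun u' p q o => (only h k b c d p q o).trans e.symm⟩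
    nxt := fun u v s _ l => by
      obtain ⟨t, q⟩ := up h k s l.le
      cases t with
      | zero => exact absurd l (by rw [← q]; exact lt_irrefl _)
      | succ t =>
        rw [Function.iterate_succ_apply] at q
        exact q ▸ hit h k (k.par v s.2.1) t }

end Pool.Agent.MP_1a6d78_lc.DS

end MrgPart4

section MrgPart5

/-! PROJECT DS, row LINE: a class is a line; few special vertices. -/

namespace Pool.Agent.MP_1a6d78_lc.DS

open Classical ED PR

namespace LineL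

variable {S : Sk} {r μ : ℕ}

theorem cnt_true (m : ℕ) : cnt m (fun _ => True) = m := by simp [cnt]

theorem kit (kt : S.Kt0) {v : ℕ} (hv : S.K v) (s : ℕ) : S.K (S.f.par^[s] v) :=
  iter_inv (Q := S.K) kt.par hv s

theorem ht_lt (ok : S.Ok r μ) (kt : S.Kt0) {v : ℕ} (hv : S.K v) (h : S.f.par v ≠ v) :
    S.f.ht (S.f.par v) < S.f.ht v := (ok.fit.1.par v (kt.live v hv).1 h).2.2

theorem ht_it (ok : S.Ok r μ) (kt : S.Kt0) {v : ℕ} (hv : S.K v) {s t : ℕ} (h : s ≤ t) :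
    S.f.ht (S.f.par^[t] v) ≤ S.f.ht (S.f.par^[s] v) := by
  induction t, h using Nat.le_induction with
  | base => exact le_rfl
  | succ t _ ih =>
    rw [Function.iterate_succ_apply']
    by_cases e : S.f.par (S.f.par^[t] v) = S.f.par^[t] v
    · rw [e]; exact ih
    · exact (ht_lt ok kt (kit kt hv t) e).le.trans ih

theorem chain (ok : S.Ok r μ) (kt : S.Kt0) (ky : S.KeyK) {z : ℕ} (hz : S.K z) :
    S.len z < S.M.n ∧ (∀ s ≤ S.len z, S.sam (S.f.par^[s] (S.bt z)) z) ∧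
      ∀ u, S.sam u z → ∃ s ≤ S.len z, S.f.par^[s] (S.bt z) = u := by
  obtain ⟨e1, e2, e3, -⟩ := ky.ends z hz
  obtain ⟨t, h1, h2⟩ := ky.cmp _ _ (e1.trans e3.symm) ((ky.ht z z (.refl hz)).1.trans
    (ky.ht z z (.refl hz)).2)
  have c1 : ∀ s ≤ t, S.sam (S.f.par^[s] (S.bt z)) z := fun s hs => (h2 s hs).1.trans e3
  have c2 : ∀ u, S.sam u z → ∃ s ≤ t, S.f.par^[s] (S.bt z) = u := fun u hu => by
    obtain ⟨s, k1, k2⟩ := ky.cmp _ _ (hu.trans e3.symm) (ky.ht u z hu).2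
    refine ⟨s, le_of_not_gt fun q => ?_, k1⟩
    have a1 := (k2 t q.le).2 q
    have a2 := (k2 (t + 1) q).1
    rw [Function.iterate_succ_apply'] at a2
    rw [h1] at a1 a2
    exact e2.elim a1 fun a => a (a2.trans (e3.trans e1.symm))
  have c3 : ∀ s s', s < s' → s' ≤ t → S.f.par^[s] (S.bt z) ≠ S.f.par^[s'] (S.bt z) :=
    fun s s' a b e => by
      have a1 := ht_lt ok kt (kit kt e3.1 s) ((h2 s (by omega)).2 (by omega))
      have a2 := ht_it ok kt e3.1 (show s + 1 ≤ s' from a)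
      rw [Function.iterate_succ_apply', ← e] at a2
      omega
  have l1 : cnt (t + 1) (fun _ => True) ≤ cnt S.M.n fun u => S.sam u z :=
    cnt_inj (fun s => S.f.par^[s] (S.bt z))
      (fun s hs _ => ⟨(kt.live _ (kit kt e3.1 s)).2.1, c1 s (by omega)⟩)
      fun a ha b hb _ _ e => by
        rcases lt_trichotomy a b with q | q | q
        · exact absurd e (c3 a b q (by omega))
        · exact q
        · exact absurd e.symm (c3 b a q (by omega))
  choose! g g1 g2 using c2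
  have l2 : (cnt S.M.n fun u => S.sam u z) ≤ cnt (t + 1) (fun _ => True) :=
    cnt_inj g (fun u _ hu => ⟨Nat.lt_succ_of_le (g1 u hu), trivial⟩)
      fun a _ b _ ha hb e => by rw [← g2 a ha, e, g2 b hb]
  have l3 := cnt_le S.M.n fun u => S.sam u z
  rw [cnt_true] at l1 l2
  have e : S.len z = t := by unfold Sk.len; omega
  rw [e]
  exact ⟨by omega, c1, fun u hu => ⟨g u, g1 u hu, g2 u hu⟩⟩

theorem vx_eq (kt : S.Kt0) (ky : S.KeyK) {z : ℕ} (hz : S.K z) (o x : ℕ) :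
    S.vx z o x = S.f.par^[if o = 1 then S.len z - x else min x (S.len z)] (S.bt z) :=
  it_eq' (Q := S.K) kt.par (fun a h => (kt.live a h).2.1) (ky.ends z hz).2.2.1.1 _

theorem slide (ok : S.Ok r μ) (kt : S.Kt0) (ky : S.KeyK) {u v : ℕ} (h : S.sam u v)
    (k : S.f.ht u ≤ S.f.ht v) : Wk S.M S.wp U v u (S.N * (S.f.ht v - S.f.ht u)) := by
  obtain ⟨t, rfl, h2⟩ := ky.cmp u v h k
  have key : ∀ s ≤ t, Wk S.M S.wp U v (S.f.par^[s] v)
      (S.N * (S.f.ht v - S.f.ht (S.f.par^[s] v))) := by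
    intro s
    induction s with
    | zero => intro _; simpa using Wk.nil trivial
    | succ s ih =>
      intro hs
      have a0 := ih (by omega)
      obtain ⟨a1, a2⟩ := h2 s (by omega)
      have a3 := (h2 (s + 1) hs).1
      have a4 := ht_it ok kt h.2.1 (Nat.zero_le s)
      rw [Function.iterate_succ_apply'] at a3 ⊢
      rw [Function.iterate_zero_apply] at a4
      generalize S.f.par^[s] v = y at *
      obtain ⟨b1, b2, b3, b4⟩ := kt.up y a1.1 (a2 hs)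
      have b5 := kt.gam_eq b1 b3
      have b6 : S.wp (S.pd y) = S.N * S.w (S.pd y) := if_neg b3
      rw [b5] at b3 b4
      have b7 := ok.geo.par _ b1 b3 (by rw [b2]; exact (kt.live y a1.1).1)
        (by rw [b2]; exact a2 hs) (by rw [b2, b4])
        (by rw [b2, b4]; exact (a1.trans a3.symm).2.2.2.2)
      rw [b2, b4] at b7
      have b8 := a0.step b1 b3 b2 b4 trivial
      rw [b6, ← Nat.mul_add] at b8
      have : S.f.ht v - S.f.ht (S.f.par y) = S.f.ht v - S.f.ht y + S.w (S.pd y) := by omega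
      rw [this]
      exact b8
  exact key t le_rfl

theorem code {a b c a' b' c' m r : ℕ} (hb : b < m) (hb' : b' < m) (hc : c < r) (hc' : c' < r)
    (e : (a * m + b) * r + c = (a' * m + b') * r + c') : a = a' ∧ b = b' ∧ c = c' := by
  have k : ∀ {x y x' y' q : ℕ}, y < q → y' < q → x * q + y = x' * q + y' → x = x' ∧ y = y' :=
    fun {x y x' y' q} h h' e => by
      have := congrArg (· % q) e
      simp only [Nat.mul_add_mod_of_lt h, Nat.mul_add_mod_of_lt h'] at this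
      subst this
      exact ⟨Nat.eq_of_mul_eq_mul_right (by omega) (Nat.add_right_cancel e), rfl⟩
  obtain ⟨e1, e2⟩ := k hc hc' e
  exact ⟨(k hb hb' e1).1, (k hb hb' e1).2, e2⟩

theorem few (ok : S.Ok r μ) (kt : S.Kt0) {P : ℕ → Prop}
    (hP : ∀ u v, S.sam u v → P u → P v → u = v) :
    cnt S.M.n (fun v => S.K v ∧ P v) ≤ μ * (μ + 1) * r := by
  have k : ∀ v, S.K v → sel S.M.n S.X (cnt (lst S.M.n (S.bel v)) S.X) = lst S.M.n (S.bel v) ∧
      cnt (lst S.M.n (S.bel v)) S.X < μ ∧ cnt S.M.n (S.bel v) < μ + 1 ∧ S.f.ht v / S.W < r :=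
    fun v hv => by
      obtain ⟨a1, a2⟩ := lst_spec (P := S.bel v) hv
      obtain ⟨a3, a4⟩ := sel_cnt a1 a2.1
      have a5 := cnt_mono (n := S.M.n) (P := S.bel v) (Q := S.X) fun _ _ h => h.1
      have a6 := ok.xn
      refine ⟨a3, by omega, by omega, Nat.div_lt_of_lt_mul ?_⟩
      rw [Nat.mul_comm]
      exact (ok.fit.1.ht v (kt.live v hv).1).trans_le ok.hH
  rw [← cnt_true (μ * (μ + 1) * r)]
  refine cnt_inj (fun v => (cnt (lst S.M.n (S.bel v)) S.X * (μ + 1) + cnt S.M.n (S.bel v)) * r +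
    S.f.ht v / S.W) (fun v _ hv => ⟨?_, trivial⟩) fun u _ v _ hu hv e => ?_
  · obtain ⟨-, a1, a2, a3⟩ := k v hv.1
    have b1 := Nat.mul_le_mul_right (μ + 1) (Nat.succ_le_of_lt a1)
    rw [Nat.succ_mul] at b1
    have b2 := Nat.mul_le_mul_right r (show cnt (lst S.M.n (S.bel v)) S.X * (μ + 1) +
      cnt S.M.n (S.bel v) + 1 ≤ μ * (μ + 1) by omega)
    rw [Nat.succ_mul] at b2
    omega
  · obtain ⟨a0, -, a2, a3⟩ := k u hu.1
    obtain ⟨b0, -, b2, b3⟩ := k v hv.1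
    obtain ⟨c1, c2, c3⟩ := code a2 b2 a3 b3 e
    exact hP u v ⟨hu.1, hv.1, by rw [← a0, c1, b0], c2, c3⟩ hu.2 hv.2

end LineL

open LineL in
theorem lineS : LineS := fun S r μ ok kt ky => by
  have t1 := few ok kt (P := S.top) fun u v h a b =>
    (ky.tp u v h a).trans (ky.tp v v (.refl h.2.1) b).symm
  have t2 := few ok kt (P := S.bot) fun u v h a b =>
    (ky.bt u v h a).trans (ky.bt v v (.refl h.2.1) b).symm
  refine ⟨fun z o x hz => ?_, fun z x y hz h => ?_, fun z o x y hz ho h => ?_,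
    fun z o u h => ?_, fun u v h => ?_, t1, ?_⟩
  · rw [vx_eq kt ky hz]
    exact (chain ok kt ky hz).2.1 _ (by split_ifs <;> omega)
  · rw [vx_eq kt ky hz, vx_eq kt ky hz, if_pos rfl, if_pos rfl]
    exact ht_it ok kt (ky.ends z hz).2.2.1.1 (by omega)
  · rw [vx_eq kt ky hz, vx_eq kt ky hz, if_neg ho, if_neg ho]
    exact ht_it ok kt (ky.ends z hz).2.2.1.1 (by omega)
  · obtain ⟨a1, -, a2⟩ := chain ok kt ky h.2.1
    obtain ⟨s, b1, b2⟩ := a2 u h
    by_cases ho : o = 1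
    · refine ⟨S.len z - s, by omega, ?_⟩
      rw [vx_eq kt ky h.2.1, if_pos ho, Nat.sub_sub_self b1, b2]
    · refine ⟨s, by omega, ?_⟩
      rw [vx_eq kt ky h.2.1, if_neg ho, min_eq_left b1, b2]
  · rcases le_total (S.f.ht u) (S.f.ht v) with k | k
    · rw [df_le k]
      exact (slide ok kt ky h k).symm ok.wok.ok.iv kt.wps
    · rw [df_ge k]
      exact slide ok kt ky h.symm k
  · have := cnt_or S.M.n (fun v => S.K v ∧ S.top v) fun v => S.K v ∧ S.bot v
    have := cnt_mono (n := S.M.n) (P := S.sp)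
      (Q := fun v => (S.K v ∧ S.top v) ∨ (S.K v ∧ S.bot v)) fun _ _ h => and_or_left.1 h
    omega

end Pool.Agent.MP_1a6d78_lc.DS

end MrgPart5

section MrgPart6

/-! PROJECT DS, row SIDE: the two sides of a class along the contour. -/

namespace Pool.Agent.MP_1a6d78_lc.DS

open Classical ED PR

namespace SideL

/-- The first marked point after one of two marked points of a cycle is the other one. -/
theorem first {f : ℕ → ℕ} {P : ℕ → Prop} {a c : ℕ} (h : ∃ t, f^[t] (f a) = c)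
    (hP : ∀ s, P (f^[s] (f a)) → f^[s] (f a) = a ∨ f^[s] (f a) = c) :
    ∃ t, f^[t] (f a) = c ∧ ∀ s < t, ¬P (f^[s] (f a)) := by
  refine ⟨Nat.find h, Nat.find_spec h, fun s hs k => ?_⟩
  rcases hP s k with e | e
  · refine Nat.find_min h (m := Nat.find h - (s + 1)) (by omega) ?_
    have e1 : f^[s + 1] (f a) = f a := by rw [Function.iterate_succ_apply', e]
    have e2 := Function.iterate_add_apply f (Nat.find h - (s + 1)) (s + 1) (f a)
    rw [Nat.sub_add_cancel hs, e1] at e2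
    exact e2.symm.trans (Nat.find_spec h)
  · exact Nat.find_min h hs e

variable {S : Sk} {r μ d e y u : ℕ}

theorem dn_iff {t : ℕ} (h : S.gam (S.M.ρ^[t] d) ≠ S.M.ρ^[t] d)
    (hs : ∀ s < t, S.gam (S.M.ρ^[s] d) = S.M.ρ^[s] d) :
    S.dn d ↔ S.pd (S.M.nd d) ≠ S.M.ρ^[t] d := by
  refine ⟨fun ⟨t', a, b, c⟩ => ?_, fun k => ⟨t, h, k, hs⟩⟩
  rcases lt_trichotomy t t' with k | rfl | k
  exacts [absurd (c t k) h, b, absurd (hs t' k) a]

theorem dn_zero (h : S.gam d ≠ d) : S.dn d ↔ S.pd (S.M.nd d) ≠ d :=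
  dn_iff (t := 0) h fun _ k => absurd k (Nat.not_lt_zero _)

theorem dn_shift (h : S.gam d = d) (e : S.M.nd (S.M.ρ d) = S.M.nd d) :
    S.dn (S.M.ρ d) ↔ S.dn d := by
  constructor
  · rintro ⟨t, a, b, c⟩
    refine ⟨t + 1, a, e ▸ b, fun s k => ?_⟩
    cases s with
    | zero => exact h
    | succ s => exact c s (by omega)
  · rintro ⟨t, a, b, c⟩
    cases t with
    | zero => exact absurd h a
    | succ t => exact ⟨t, a, e ▸ b, fun s k => c (s + 1) (by omega)⟩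

/-- The tree at a vertex `y` inside a class; `u` is its child. -/
structure Two (S : Sk) (y u : ℕ) : Prop where
  ne : S.f.par y ≠ y
  sp : S.sam (S.f.par y) y
  su : S.sam u y
  pu : S.f.par u = y
  uy : u ≠ y
  all : ∀ d < S.M.n, S.M.nd d = y → S.gam d ≠ d → d = S.pd y ∨ d = S.gam (S.pd u)

variable (o : S.Ok r μ) (k : S.Kt0)
include o k

theorem ht_lt (h : S.K y) (n : S.f.par y ≠ y) : S.f.ht (S.f.par y) < S.f.ht y :=
  (o.fit.1.par y (k.live y h).1 n).2.2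

theorem two (q : S.KeyK) (h : S.K y) (n : ¬S.sp y) : ∃ u, Two S y u := by
  have t : ¬S.top y := fun t => n ⟨h, Or.inl t⟩
  obtain ⟨u, -, a, b, c⟩ := not_not.1 fun t : S.bot y => n ⟨h, Or.inr t⟩
  refine ⟨u, fun e => t (Or.inl e), not_not.1 fun e => t (Or.inr e), c, b, a, fun d hd e g => ?_⟩
  rcases k.typ d hd g with i | i | i
  · exact Or.inl (by rw [← e, i])
  · have k1 := (k.gk d g).2
    have k2 := k.pd _ (i.symm ▸ (k.iv d hd).1)
    have k3 := (k.up _ k1 k2).2.2.2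
    rw [i, (k.iv d hd).2, e] at k3
    have k4 := (q.child y u h n c.1 a b).2 _ k1 (fun j => k2 (k3.symm.trans j.symm)) k3.symm
    exact Or.inr (by rw [← k4, i, (k.iv d hd).2])
  · exact absurd (q.xb _ (e ▸ o.xc d hd i.1)) n

/-- The dart to the child. -/
theorem Two.low (T : Two S y u) : S.gam (S.pd u) < S.M.n ∧ S.M.nd (S.gam (S.pd u)) = y ∧
    S.gam (S.gam (S.pd u)) = S.pd u ∧ S.M.nd (S.pd u) = u ∧ S.gam (S.pd u) ≠ S.pd u ∧
    S.pd y ≠ S.gam (S.pd u) ∧ S.f.ht y < S.f.ht u := by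
  have n : S.f.par u ≠ u := T.pu ▸ T.uy.symm
  obtain ⟨a, b, c, d⟩ := k.up u T.su.1 n
  have l := ht_lt o k T.su.1 n
  rw [T.pu] at l d
  refine ⟨(k.iv _ a).1, d, (k.iv _ a).2, b, c, fun e => ?_, l⟩
  have := (k.up y T.su.2.1 T.ne).2.2.2
  rw [e, (k.iv _ a).2, b] at this
  have := this ▸ ht_lt o k T.su.2.1 T.ne
  omega

/-- After a tree dart the contour leads down iff the dart is the parent dart. -/
theorem Two.nx (T : Two S y u) (he : e < S.M.n) (hy : S.M.nd e = y) (g : S.gam e ≠ e) :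
    S.dn (S.M.ρ e) ↔ e = S.pd y := by
  have pm := o.wok.ok.pm
  obtain ⟨a1, a2, a3, -⟩ := k.up y T.su.2.1 T.ne
  obtain ⟨b1, b2, b3, -, b5, b6, -⟩ := T.low o k
  have r1 := pm.1 e he
  have r2 : S.M.nd (S.M.ρ e) = y := hy ▸ ((Mp.nd_iff pm he r1).2 (Sc.step pm.1 he)).symm
  have ex : ∀ c < S.M.n, S.M.nd c = y → ∃ t, S.M.ρ^[t] (S.M.ρ e) = c := fun c hc j =>
    (sc_iff pm.1 r1).1 ((Mp.nd_iff pm r1 hc).1 (r2.trans j.symm))
  have al : ∀ s, S.gam (S.M.ρ^[s] (S.M.ρ e)) ≠ S.M.ρ^[s] (S.M.ρ e) →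
      S.M.ρ^[s] (S.M.ρ e) = S.pd y ∨ S.M.ρ^[s] (S.M.ρ e) = S.gam (S.pd u) := fun s j => by
    have l := iter_inv (Q := fun a => a < S.M.n) pm.1 r1 s
    exact T.all _ l (r2 ▸ ((Mp.nd_iff pm r1 l).2 ((sc_iff pm.1 r1).2 ⟨s, rfl⟩)).symm) j
  rcases T.all e he hy g with i | i
  · obtain ⟨t, j1, j2⟩ := first (P := fun d => S.gam d ≠ d) (ex _ b1 b2) fun s j =>
      (al s j).imp_left fun m => m.trans i.symm
    rw [dn_iff (t := t) (by rw [j1, b3]; exact b5.symm) fun s l => not_not.1 (j2 s l), j1, r2]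
    exact iff_of_true b6 i
  · obtain ⟨t, j1, j2⟩ := first (P := fun d => S.gam d ≠ d) (ex _ a1 a2) fun s j =>
      (al s j).symm.imp_left fun m => m.trans i.symm
    rw [dn_iff (t := t) (by rw [j1]; exact a3) fun s l => not_not.1 (j2 s l), j1, r2]
    exact iff_of_false (fun m => m rfl) fun m => b6 (m.symm.trans i)

theorem step (q : S.KeyK) (hd : d < S.M.n) (h : S.K (S.M.nd d)) (n : ¬S.sp (S.M.nd d))
    (c : ¬S.cut d) :
    (S.dn (S.psi d) ↔ S.dn d) ∧ ¬S.sp (S.M.nd (S.psi d)) ∧ S.sam (S.M.nd (S.psi d)) (S.M.nd d) ∧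
      (S.dn d → S.hp d ≤ S.hp (S.psi d)) ∧ (¬S.dn d → S.hp (S.psi d) ≤ S.hp d) := by
  have p := (k.psi d hd).2
  unfold Sk.hp
  rw [p]
  by_cases g : S.gam d = d
  · rw [Sk.psi, g] at p
    rw [Sk.psi, g]
    exact ⟨dn_shift g p, n, .refl h, fun _ => le_rfl, fun _ => le_rfl⟩
  have n' : ¬S.sp (S.M.nd (S.gam d)) := fun m => c ⟨g, Or.inr m⟩
  obtain ⟨u, T⟩ := two o k q h n
  obtain ⟨u', T'⟩ := two o k q (k.gk d g).2 n'
  have x := T'.nx o k (k.iv d hd).1 rfl (by rw [(k.iv d hd).2]; exact Ne.symm g)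
  obtain ⟨-, -, b3, b4, -, b6, b7⟩ := T.low o k
  rw [Sk.psi, x, dn_zero g]
  rcases T.all d hd rfl g with i | i
  · have a := (k.up _ h T.ne).2.2.2
    have l := ht_lt o k h T.ne
    rw [← i] at a
    refine ⟨iff_of_false (fun m => ?_) fun m => m i.symm, n', a ▸ T.sp, fun m => absurd i.symm m,
      fun _ => a ▸ l.le⟩
    have a' := (k.up _ (k.gk d g).2 T'.ne).2.2.2
    have l' := ht_lt o k (k.gk d g).2 T'.ne
    rw [← m, (k.iv d hd).2] at a'
    rw [← a', a] at l'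
    omega
  · have a : S.gam d = S.pd u := by rw [← b3, ← i]
    have m : S.pd (S.M.nd d) ≠ d := fun m => b6 (m.trans i)
    rw [a, b4]
    rw [a, b4] at n'
    exact ⟨iff_of_true rfl m, n', T.su, fun _ => b7.le, fun j => absurd m j⟩

omit o in
/-- A cut at the parent dart: the parent is the top of the class. -/
theorem Two.top (T : Two S y u) (s : S.sp (S.M.nd (S.gam (S.pd y)))) : S.top (S.f.par y) := by
  rw [(k.up y T.su.2.1 T.ne).2.2.2] at s
  exact s.2.resolve_right fun b => b ⟨y, (k.live y T.su.2.1).2.1, T.ne.symm, rfl, T.sp.symm⟩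

/-- A cut at the dart to the child: the child is the bottom of the class. -/
theorem Two.bot (T : Two S y u) (s : S.sp (S.M.nd (S.gam (S.gam (S.pd u))))) : S.bot u := by
  obtain ⟨-, -, b3, b4, -⟩ := T.low o k
  rw [b3, b4] at s
  exact s.2.resolve_left fun t => t.elim (fun j => T.uy (j.symm.trans T.pu))
    fun j => j (T.pu.symm ▸ T.su.symm)

theorem fin (q : S.KeyK) (hd : d < S.M.n) (he : e < S.M.n) (n : ¬S.sp (S.M.nd d))
    (n' : ¬S.sp (S.M.nd e)) (c : S.cut d) (c' : S.cut e) (s : S.sam (S.M.nd d) (S.M.nd e))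
    (h : S.dn d ↔ S.dn e) : d = e := by
  obtain ⟨u, T⟩ := two o k q s.1 n
  obtain ⟨u', T'⟩ := two o k q s.2.1 n'
  have p := c.2.resolve_left n
  have p' := c'.2.resolve_left n'
  rw [dn_zero c.1, dn_zero c'.1, not_iff_not] at h
  by_cases i : S.pd (S.M.nd d) = d
  · have i' := h.1 i
    have a := (q.tp _ _ (T.sp.trans s) (T.top k (i.symm ▸ p))).trans
      (q.tp _ _ T'.sp (T'.top k (i'.symm ▸ p'))).symm
    have l := ht_lt o k s.1 T.ne
    have l' := ht_lt o k s.2.1 T'.ne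
    have x := q.nxt _ _ s T'.ne
    have x' := q.nxt _ _ s.symm T.ne
    rw [← a] at x l'
    rw [← i, ← i', q.inj _ _ s (by omega)]
  · have j := (T.all d hd rfl c.1).resolve_left fun m => i m.symm
    have j' := (T'.all e he rfl c'.1).resolve_left fun m => i (h.2 m.symm)
    rw [j, j', (q.bt _ _ (T.su.trans s) (T.bot o k (j ▸ p))).trans
      (q.bt _ _ T'.su (T'.bot o k (j' ▸ p'))).symm]

end SideL

theorem sideS : SideS := fun _ _ _ o k q =>
  ⟨fun _ hd h n c => SideL.step o k q hd h n c,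
    fun _ hd _ he n n' c c' s h => SideL.fin o k q hd he n n' c c' s h⟩

end Pool.Agent.MP_1a6d78_lc.DS

end MrgPart6

section MrgPart7

/-! PROJECT DS, row BLK1: the ports of a block lie on one side of one class. -/

namespace Pool.Agent.MP_1a6d78_lc.DS

open Classical ED PR

namespace Blk1

variable {S : Sk}

/-- What is kept along a run without cuts. -/
def Rel (S : Sk) (a d : ℕ) : Prop :=
  d < S.M.n ∧ S.K (S.M.nd d) ∧ ((S.sp (S.M.nd a) ∧ S.M.nd d = S.M.nd a) ∨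
    (¬S.sp (S.M.nd a) ∧ ¬S.sp (S.M.nd d) ∧ S.sam (S.M.nd d) (S.M.nd a) ∧ (S.dn d ↔ S.dn a) ∧
      (S.dn a → S.hp a ≤ S.hp d) ∧ (¬S.dn a → S.hp d ≤ S.hp a)))

theorem base {a : ℕ} (ha : a < S.M.n) (hk : S.K (S.M.nd a)) : Rel S a a := by
  refine ⟨ha, hk, ?_⟩
  by_cases q : S.sp (S.M.nd a)
  · exact Or.inl ⟨q, rfl⟩
  · exact Or.inr ⟨q, q, Sk.sam.refl hk, Iff.rfl, fun _ => le_rfl, fun _ => le_rfl⟩

theorem step (h : S.KtK) (k : S.SideK) {a d : ℕ} (r : Rel S a d) (hc : ¬S.cut d) :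
    Rel S a (S.psi d) := by
  obtain ⟨hd, hk, r⟩ := r
  have p := h.psi d hd
  rcases r with ⟨r1, r2⟩ | ⟨r1, r2, r3, r4, r5, r6⟩
  · have g : S.gam d = d := by
      by_contra g
      exact hc ⟨g, Or.inl (by rw [r2]; exact r1)⟩
    have e : S.M.nd (S.psi d) = S.M.nd d := by rw [p.2, g]
    exact ⟨p.1, by rw [e]; exact hk, Or.inl ⟨r1, e.trans r2⟩⟩
  · obtain ⟨s1, s2, s3, s4, s5⟩ := k.step d hd hk r2 hc
    exact ⟨p.1, s3.1, Or.inr ⟨r1, s2, s3.trans r3, s1.trans r4,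
      fun q => (r5 q).trans (s4 (r4.2 q)), fun q => (s5 fun q' => q (r4.1 q')).trans (r6 q)⟩⟩

theorem key (h : S.KtK) (k : S.SideK) {a b : ℕ} (ha : S.port a) (hb : S.port b)
    (e : S.blk a = S.blk b) (l : S.pos a ≤ S.pos b) : Rel S a b := by
  obtain ⟨t, t1, t2⟩ := h.run a ha.1 b hb.1 ha.2.1 hb.2.1 l
  have all : ∀ s ≤ t, Rel S a (S.psi^[s] a) := by
    intro s
    induction s with
    | zero => exact fun _ => base ha.1 ha.2.1
    | succ s ih =>
      intro hs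
      have r := ih (by omega)
      rw [Function.iterate_succ_apply']
      refine step h k r fun hc => ?_
      have u1 := t2 s (by omega)
      have u2 := t2 t le_rfl
      rw [t1] at u2
      have lt : S.blk a < S.blk b :=
        cnt_lt (P := fun e => S.cut e ∧ S.pos e < S.pos a)
          (Q := fun e => S.cut e ∧ S.pos e < S.pos b)
          (fun _ _ q => ⟨q.1, q.2.trans_le l⟩) r.1 ⟨hc, by omega⟩ fun q => by
            have := q.2
            omega
      omega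
  have := all t le_rfl
  rw [t1] at this
  exact this

theorem same (h : S.KtK) (k : S.SideK) {a b : ℕ} (ha : S.port a) (hb : S.port b)
    (e : S.blk a = S.blk b) (p : ¬S.sp (S.M.nd a)) (q : ¬S.sp (S.M.nd b)) (d : S.dn a) :
    S.dn b := by
  rcases le_total (S.pos a) (S.pos b) with l | l
  · rcases (key h k ha hb e l).2.2 with r | r
    · exact absurd r.1 p
    · exact r.2.2.2.1.2 d
  · rcases (key h k hb ha e.symm l).2.2 with r | r
    · exact absurd r.1 q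
    · exact r.2.2.2.1.1 d

end Blk1

open Blk1

theorem blkS : BlkS := by
  intro S h k
  refine ⟨fun a b l => cnt_mono fun _ _ q => ⟨q.1, q.2.trans_le l⟩, fun a b ha hb e s => ?_,
    fun a b ha hb e => ?_, fun A => ?_⟩
  · rcases le_total (S.pos a) (S.pos b) with l | l
    · rcases (key h k ha hb e l).2.2 with r | r
      · exact r.2
      · exact absurd s r.1
    · rcases (key h k hb ha e.symm l).2.2 with r | r
      · exact r.2.symm
      · exact absurd s r.2.1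
  · rcases le_total (S.pos a) (S.pos b) with l | l
    · rcases (key h k ha hb e l).2.2 with r | r
      · rw [r.2]
        exact Sk.sam.refl ha.2.1
      · exact r.2.2.1.symm
    · rcases (key h k hb ha e.symm l).2.2 with r | r
      · rw [r.2]
        exact Sk.sam.refl hb.2.1
      · exact r.2.2.1
  · by_cases x : ∃ a0, S.port a0 ∧ S.blk a0 = A ∧ ¬S.sp (S.M.nd a0) ∧ S.dn a0
    · obtain ⟨a0, x1, x2, x3, x4⟩ := x
      refine Or.inl fun a _ b _ ha hb e1 e2 l => ?_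
      rcases (key h k ha hb (e1.trans e2.symm) l).2.2 with r | r
      · unfold Sk.hp
        rw [r.2]
      · exact r.2.2.2.2.1 (same h k x1 ha (x2.trans e1.symm) x3 r.1 x4)
    · refine Or.inr fun a _ b _ ha hb e1 e2 l => ?_
      rcases (key h k ha hb (e1.trans e2.symm) l).2.2 with r | r
      · unfold Sk.hp
        rw [r.2]
      · exact r.2.2.2.2.2 fun d => x ⟨a, ha, e1, r.1, d⟩

end Pool.Agent.MP_1a6d78_lc.DS

end MrgPart7

section MrgPart8

/-! PROJECT DS, row BLK3: a class has two sides. -/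

namespace Pool.Agent.MP_1a6d78_lc.DS

open Classical ED PR

namespace Blk3L

variable {S : Sk}

/-- Before the first cut the side, the class and the count of positions are kept. -/
theorem keep (hK : S.Kt0) (hS : S.SideK) {a : ℕ} (ha : a < S.M.n) (k : S.K (S.M.nd a))
    (hs : ¬S.sp (S.M.nd a)) (t : ℕ) (h : ∀ s < t, ¬S.cut (S.psi^[s] a)) :
    S.psi^[t] a < S.M.n ∧ ¬S.sp (S.M.nd (S.psi^[t] a)) ∧
      S.sam (S.M.nd (S.psi^[t] a)) (S.M.nd a) ∧ (S.dn (S.psi^[t] a) ↔ S.dn a) ∧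
      S.pos (S.psi^[t] a) = S.pos a + t := by
  induction t with
  | zero => exact ⟨ha, hs, .refl k, Iff.rfl, rfl⟩
  | succ t ih =>
    obtain ⟨i1, i2, i3, i4, i5⟩ := ih fun s e => h s (by omega)
    obtain ⟨j1, j2, j3, -⟩ := hS.step _ i1 i3.1 i2 (h t (by omega))
    rw [Function.iterate_succ_apply']
    refine ⟨(hK.psi _ i1).1, j2, j3.trans i3, j1.trans i4, ?_⟩
    rcases hK.succ _ i1 i3.1 with e | e
    · omega
    · exact absurd ⟨j3.1, Or.inl (Or.inl e)⟩ j2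

theorem first (hM : S.M.Ok) (hK : S.Kt0) (hS : S.SideK) {a : ℕ} (ha : a < S.M.n)
    (k : S.K (S.M.nd a)) (hs : ¬S.sp (S.M.nd a)) :
    ∃ t, S.cut (S.psi^[t] a) ∧ ∀ s < t, ¬S.cut (S.psi^[s] a) := by
  have h : ∃ t, S.cut (S.psi^[t] a) := by
    by_contra h
    obtain ⟨p, p0, e⟩ := Pm.period (f := S.psi) (hM.pm.comp hK.iv.pm) ha
    have := (keep hK hS ha k hs p fun s _ c => h ⟨s, c⟩).2.2.2.2
    rw [e] at this
    omega
  exact ⟨Nat.find h, Nat.find_spec h, fun s e => Nat.find_min h e⟩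

theorem same (hM : S.M.Ok) (hK : S.KtK) (hS : S.SideK) {a b : ℕ} (ha : a < S.M.n) (hb : b < S.M.n)
    (sa : ¬S.sp (S.M.nd a)) (sb : ¬S.sp (S.M.nd b)) (h : S.sam (S.M.nd a) (S.M.nd b))
    (hd : S.dn a ↔ S.dn b) (hp : S.pos a ≤ S.pos b) : S.blk a = S.blk b := by
  obtain ⟨t, c1, c2⟩ := first hM hK.toKt0 hS ha h.1 sa
  obtain ⟨u, d1, d2⟩ := first hM hK.toKt0 hS hb h.2.1 sb
  obtain ⟨i1, i2, i3, i4, i5⟩ := keep hK.toKt0 hS ha h.1 sa t c2
  obtain ⟨j1, j2, j3, j4, j5⟩ := keep hK.toKt0 hS hb h.2.1 sb u d2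
  have e := hS.fin _ i1 _ j1 i2 j2 c1 d1 ((i3.trans h).trans j3.symm) ((i4.trans hd).trans j4.symm)
  rw [e] at i5
  refine cnt_congr fun e he => ⟨fun k => ⟨k.1, by omega⟩, fun k => ⟨k.1, lt_of_not_ge fun q => ?_⟩⟩
  obtain ⟨s, s1, s2⟩ := hK.run a ha e he h.1 (hK.gk e k.1.1).1 q
  have := s2 s le_rfl
  rw [s1] at this
  exact c2 s (by omega) (s1 ▸ k.1)

theorem same' (hM : S.M.Ok) (hK : S.KtK) (hS : S.SideK) {a b : ℕ} (ha : a < S.M.n)
    (hb : b < S.M.n) (sa : ¬S.sp (S.M.nd a)) (sb : ¬S.sp (S.M.nd b))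
    (h : S.sam (S.M.nd a) (S.M.nd b)) (hd : S.dn a ↔ S.dn b) : S.blk a = S.blk b :=
  (le_total (S.pos a) (S.pos b)).elim (same hM hK hS ha hb sa sb h hd)
    fun k => (same hM hK hS hb ha sb sa h.symm hd.symm k).symm

end Blk3L

theorem blk3S : Blk3S := by
  intro S r μ hO hK hS a b c pa pb pc sa sb sc h1 h2
  by_cases e1 : S.dn a ↔ S.dn b
  · exact Or.inl (Blk3L.same' hO.wok.ok hK hS pa.1 pb.1 sa sb h1 e1)
  by_cases e2 : S.dn a ↔ S.dn c
  · exact Or.inr (Or.inl (Blk3L.same' hO.wok.ok hK hS pa.1 pc.1 sa sc h2 e2))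
  · exact Or.inr (Or.inr (Blk3L.same' hO.wok.ok hK hS pb.1 pc.1 sb sc (h1.symm.trans h2)
      (by tauto)))

end Pool.Agent.MP_1a6d78_lc.DS

end MrgPart8

section MrgPart9

/-! PROJECT DS, row BLKN: the number of blocks. -/

namespace Pool.Agent.MP_1a6d78_lc.DS

open Classical ED PR

namespace BlkNP

variable {S : Sk} {r μ : ℕ}

/-- The lower ends of the tree edges with a special end. -/
def Lo (S : Sk) (u : ℕ) : Prop :=
  S.K u ∧ S.f.par u ≠ u ∧ (S.sp u ∨ S.sp (S.f.par u))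

theorem lo_top (kt : S.Kt0) {u : ℕ} (h : Lo S u) (hs : ¬S.sp u) :
    S.sam (S.f.par u) u ∧ S.top (S.f.par u) := by
  obtain ⟨hK, hp, h3⟩ := h
  have hsam : S.sam (S.f.par u) u := by
    by_contra k
    exact hs ⟨hK, Or.inl (Or.inr k)⟩
  refine ⟨hsam, ?_⟩
  rcases (h3.resolve_left hs).2 with t | b
  · exact t
  · exact absurd ⟨u, (kt.live u hK).2.1, hp.symm, rfl, hsam.symm⟩ b

theorem lo_cnt (ok : S.Ok r μ) (kt : S.Kt0) (key : S.KeyK) (ln : S.LineK r μ) :
    cnt S.M.n (Lo S) ≤ 3 * (μ * (μ + 1) * r) := by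
  have h1 : cnt S.M.n (Lo S) ≤ cnt S.M.n fun u => S.sp u ∨ (Lo S u ∧ ¬S.sp u) :=
    cnt_mono fun a _ k => by
      by_cases q : S.sp a
      · exact Or.inl q
      · exact Or.inr ⟨k, q⟩
  have h2 := cnt_or S.M.n S.sp fun u => Lo S u ∧ ¬S.sp u
  have lt : ∀ u, Lo S u → S.f.ht (S.f.par u) < S.f.ht u := fun u k =>
    (ok.fit.1.par u (kt.live u k.1).1 k.2.1).2.2
  have h3 : cnt S.M.n (fun u => Lo S u ∧ ¬S.sp u) ≤ cnt S.M.n fun v => S.K v ∧ S.top v := by
    refine cnt_inj S.f.par (fun a _ k => ?_) fun a _ b _ ka kb e => ?_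
    · exact ⟨(kt.live _ (kt.par a k.1.1)).2.1, kt.par a k.1.1, (lo_top kt k.1 k.2).2⟩
    · have sa := (lo_top kt ka.1 ka.2).1
      have sb := (lo_top kt kb.1 kb.2).1
      have sab : S.sam a b := sa.symm.trans (e ▸ sb)
      have la := lt a ka.1
      have lb := lt b kb.1
      rcases lt_trichotomy (S.f.ht a) (S.f.ht b) with q | q | q
      · have := key.nxt a b sab kb.1.2.1 q
        rw [← e] at this
        omega
      · exact key.inj a b sab q
      · have := key.nxt b a sab.symm ka.1.2.1 q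
        rw [e] at this
        omega
  have := ln.ntop
  have := ln.nsp
  omega

theorem cut_cnt (kt : S.Kt0) :
    cnt S.M.n S.cut ≤ cnt S.M.n S.con + 2 * cnt S.M.n (Lo S) := by
  have h1 : cnt S.M.n S.cut ≤ cnt S.M.n fun e => S.con e ∨
      ((S.cut e ∧ S.pd (S.M.nd e) = e) ∨ (S.cut e ∧ S.pd (S.M.nd (S.gam e)) = S.gam e)) :=
    cnt_mono fun e he k => by
      rcases kt.typ e he k.1 with q | q | q
      · exact Or.inr (Or.inl ⟨k, q⟩)
      · exact Or.inr (Or.inr ⟨k, q⟩)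
      · exact Or.inl q.1
  have h2 := cnt_or S.M.n S.con fun e =>
    (S.cut e ∧ S.pd (S.M.nd e) = e) ∨ (S.cut e ∧ S.pd (S.M.nd (S.gam e)) = S.gam e)
  have h3 := cnt_or S.M.n (fun e => S.cut e ∧ S.pd (S.M.nd e) = e)
    fun e => S.cut e ∧ S.pd (S.M.nd (S.gam e)) = S.gam e
  have h4 : cnt S.M.n (fun e => S.cut e ∧ S.pd (S.M.nd e) = e) ≤ cnt S.M.n (Lo S) := by
    refine cnt_inj S.M.nd (fun e he k => ?_) fun a _ b _ ka kb e => ?_
    · have hK := (kt.gk e k.1.1).1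
      have hp := kt.pd (S.M.nd e) (by rw [k.2]; exact he)
      have hu := (kt.up _ hK hp).2.2.2
      rw [k.2] at hu
      exact ⟨(kt.live _ hK).2.1, hK, hp, hu ▸ k.1.2⟩
    · rw [← ka.2, ← kb.2, e]
  have h5 : cnt S.M.n (fun e => S.cut e ∧ S.pd (S.M.nd (S.gam e)) = S.gam e) ≤
      cnt S.M.n (Lo S) := by
    refine cnt_inj (fun e => S.M.nd (S.gam e)) (fun e he k => ?_) fun a ha b hb ka kb e => ?_
    · have hK := (kt.gk e k.1.1).2
      have hp := kt.pd (S.M.nd (S.gam e)) (by rw [k.2]; exact (kt.iv e he).1)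
      have hu := (kt.up _ hK hp).2.2.2
      rw [k.2, (kt.iv e he).2] at hu
      exact ⟨(kt.live _ hK).2.1, hK, hp, hu ▸ k.1.2.symm⟩
    · have g : S.gam a = S.gam b := by
        rw [← ka.2, ← kb.2]
        exact congrArg S.pd e
      rw [← (kt.iv a ha).2, g, (kt.iv b hb).2]
  omega

end BlkNP

theorem blkNS : BlkNS := by
  intro S r μ ok kt key ln a
  have h0 : S.blk a ≤ cnt S.M.n S.cut := cnt_mono fun _ _ k => k.1
  have h1 := BlkNP.cut_cnt kt
  have h2 := BlkNP.lo_cnt ok kt key ln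
  have h3 := ok.xm
  unfold bq
  omega

end Pool.Agent.MP_1a6d78_lc.DS

end MrgPart9

section MrgPart10

/-! PROJECT DS, row CROSS: two crossing legs can be exchanged. -/

namespace Pool.Agent.MP_1a6d78_lc.DS

open Classical ED PR

namespace Cross

variable {M : Mp} {w : ℕ → ℕ} {A : ℕ → Prop} {u v c : ℕ}

/-- A walk stays among the vertices that split its cost. -/
theorem own {y c1 : ℕ} (h : Wk M w A u y c1) : ∀ c2, Wk M w A y v c2 → c1 + c2 = c →
    Wk M w (fun x => ∃ c1 c2, Wk M w A u x c1 ∧ Wk M w A x v c2 ∧ c1 + c2 = c) u y c1 := by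
  induction h with
  | nil k => exact fun c2 p e => .nil ⟨0, c2, .nil k, p, e⟩
  | @step y y' c1 d p a b e e' k ih =>
    intro c2 q s
    subst e e'
    exact (ih (w d + c2) ((Wk.one a b p.mem.2 k).trans q) (by omega)).step a b rfl rfl
      ⟨c1 + w d, c2, p.step a b rfl rfl k, q, s⟩

variable {S : Sk} {r μ : ℕ}

theorem w1_symm (h : S.Ok r μ) : ∀ d < S.M.n, S.M.β d ≠ d → S.w1 (S.M.β d) = S.w1 d :=
  fun d a b => by unfold Sk.w1; rw [h.wok.symm a b]

/-- The interior of a leg. -/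
theorem inner {a b c : ℕ} (h : S.Lg a b c) : ∃ V : ℕ → Prop, (∀ x, V x → ¬S.K x) ∧
    (S.M.β a = b ∨ Rc S.M S.w1 V (S.M.nd (S.M.β a)) (S.M.nd (S.M.β b))) ∧
    ∀ x, V x → ∃ c1 c2, Wk S.M S.w1 (fun z => ¬S.K z) (S.M.nd (S.M.β a)) x c1 ∧
      Wk S.M S.w1 (fun z => ¬S.K z) x (S.M.nd (S.M.β b)) c2 ∧ c = S.w1 a + (c1 + c2) + S.w1 b := by
  rcases h.2.2 with ⟨e, _⟩ | ⟨c', p, e⟩
  · exact ⟨fun _ => False, fun _ k => k.elim, Or.inl e, fun _ k => k.elim⟩
  · refine ⟨fun x => ∃ c1 c2, Wk S.M S.w1 (fun z => ¬S.K z) (S.M.nd (S.M.β a)) x c1 ∧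
      Wk S.M S.w1 (fun z => ¬S.K z) x (S.M.nd (S.M.β b)) c2 ∧ c1 + c2 = c', ?_,
      Or.inr ⟨c', own p 0 (.nil p.mem.2) rfl⟩, ?_⟩
    · rintro x ⟨c1, c2, q, _, _⟩
      exact q.mem.2
    · rintro x ⟨c1, c2, q, q', s⟩
      exact ⟨c1, c2, q, q', by omega⟩

theorem iter_lt {n : ℕ} {f : ℕ → ℕ} (hf : ∀ d < n, f d < n) {a : ℕ} (ha : a < n) (t : ℕ) :
    f^[t] a < n := by
  induction t with
  | zero => exact ha
  | succ t ih => rw [Function.iterate_succ_apply']; exact hf _ ih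

theorem sep (h : S.Ok r μ) (kt : S.KtK) {a a' b b' : ℕ} (pa : S.port a) (pa' : S.port a')
    (pb : S.port b) (pb' : S.port b') (h1 : S.pos a < S.pos a') (h2 : S.pos a' < S.pos b)
    (h3 : S.pos b < S.pos b') :
    ¬Sc S.M.n (fun d => S.M.ρ (S.gam (sw a b d))) a' b' := by
  have pm : Pm S.M.n S.psi := h.wok.ok.pm.comp kt.iv.pm
  obtain ⟨t, e, ht⟩ := kt.run a pa.1 b' pb'.1 pa.2.1 pb'.2.1 (by omega)
  have et : S.pos b' = S.pos a + t := e ▸ ht t le_rfl
  have id : ∀ x, x < S.M.n → S.pos a ≤ S.pos x → S.pos x ≤ S.pos b' →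
      S.psi^[S.pos x - S.pos a] a = x := fun x hx k k' =>
    kt.inj _ (iter_lt pm.1 pa.1 _) x hx (by rw [ht _ (by omega)]; omega)
  have := swapK.sep (i := 0) (j := S.pos a' - S.pos a) (k := S.pos b - S.pos a) (l := t) pm pa.1
    (by omega) (by omega) (by omega) fun s hs s' hs' q => by
      have i1 := ht s hs
      have i2 := ht s' hs'
      rw [q] at i1
      omega
  rw [id a' pa'.1 h1.le (by omega), id b pb.1 (by omega) h3.le, e] at this
  exact this

theorem conn (h : S.Ok r μ) (kt : S.KtK) {a b : ℕ} (pa : S.port a) (pb : S.port b)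
    (h1 : S.pos a ≤ S.pos b) : Conn S.M.n S.M.ρ S.gam a b := by
  have pm : Pm S.M.n S.psi := h.wok.ok.pm.comp kt.iv.pm
  obtain ⟨t, e, _⟩ := kt.run a pa.1 b pb.1 pa.2.1 pb.2.1 h1
  exact Sc.conn h.wok.ok.pm kt.iv pa.1 ((sc_iff pm.1 pa.1).2 ⟨t, e⟩)

end Cross

theorem crossS : CrossS := fun jor S r μ h kt =>
  { symm := by
      rintro a b c ⟨pa, pb, ⟨e, q⟩ | ⟨c', p, q⟩⟩
      · refine ⟨pb, pa, Or.inl ⟨?_, ?_⟩⟩
        · rw [← e]; exact (h.wok.ok.iv a pa.1).2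
        · rw [← e, Cross.w1_symm h a pa.1 pa.2.2.2]; exact q
      · exact ⟨pb, pa, Or.inr ⟨c', p.symm h.wok.ok.iv (Cross.w1_symm h), by omega⟩⟩
    swap := by
      intro a a' b b' c c' h1 h2 h3 l l'
      obtain ⟨V, v1, v2, v3⟩ := Cross.inner l
      obtain ⟨V', u1, u2, u3⟩ := Cross.inner l'
      obtain ⟨pa, pb, -⟩ := l
      obtain ⟨pa', pb', -⟩ := l'
      by_cases k : ∃ x, V x ∧ V' x
      · obtain ⟨x, k1, k2⟩ := k
        obtain ⟨c1, c2, p1, p2, e⟩ := v3 x k1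
        obtain ⟨d1, d2, q1, q2, e'⟩ := u3 x k2
        exact ⟨⟨_, _, ⟨pa, pb', Or.inr ⟨_, p1.trans q2, rfl⟩⟩,
            ⟨pa', pb, Or.inr ⟨_, q1.trans p2, rfl⟩⟩, by omega⟩,
          _, _, ⟨pa, pa', Or.inr ⟨_, p1.trans (q1.symm h.wok.ok.iv (Cross.w1_symm h)), rfl⟩⟩,
            ⟨pb, pb', Or.inr ⟨_, (p2.symm h.wok.ok.iv (Cross.w1_symm h)).trans q2, rfl⟩⟩, by omega⟩
      · have ne : ∀ {x y : ℕ}, S.pos x < S.pos y → x ≠ y := fun q e => by
          rw [e] at q; exact lt_irrefl _ q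
        refine (jor S.M S.w1 S.gam V V' a b a' b' h.wok.ok kt.iv kt.sb pa.1 pb.1 pa'.1 pb'.1
          (ne (by omega)) (ne (by omega)) (ne h1) (ne (by omega)) (ne h2).symm (ne h3)
          pa.2.2.1 pb.2.2.1 pa'.2.2.1 pb'.2.2.1 pa.2.2.2 pb.2.2.2 pa'.2.2.2 pb'.2.2.2
          (fun x i j => k ⟨x, i, j⟩) (fun d _ i => ?_) (Cross.sep h kt pa pa' pb pb' h1 h2 h3)
          (Cross.conn h kt pa' pb' (by omega)) v2 u2).elim
        have nk : ¬S.K (S.M.nd d) := i.elim (v1 _) (u1 _)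
        have n1 : ∀ {x : ℕ}, S.port x → S.M.nd d ≠ S.M.nd x := fun p e => nk (e ▸ p.2.1)
        have n2 : ∀ {x : ℕ}, S.port x → d ≠ x := fun p e => n1 p (e ▸ rfl)
        exact ⟨by_contra fun q => nk (kt.gk d q).1, n2 pa, n2 pb, n2 pa', n2 pb', n1 pa, n1 pb,
          n1 pa', n1 pb'⟩ }

end Pool.Agent.MP_1a6d78_lc.DS

end MrgPart10

section MrgPart11

/-! PROJECT DS, row LSEM: the meaning of the legs. -/

namespace Pool.Agent.MP_1a6d78_lc.DS

open Classical ED PR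

namespace Ls

variable {S : Sk} {r μ : ℕ}

theorem live (ok : S.Ok r μ) (kt : S.Kt0) {a : ℕ} (h : S.port a) :
    S.f.live (S.M.nd (S.M.β a)) :=
  ok.wok.clo ok.fit h.1 (kt.live _ h.2.1).1

theorem lt (ok : S.Ok r μ) {A : ℕ → Prop} {u v : ℕ} (h : Rc S.M S.w1 A u v) (hu : u < S.M.n) :
    ds S.M S.w1 A u v < S.Z := by
  obtain ⟨m, h1, h2⟩ := ok.wok.max
  have h3 := ds_bnd ok.wok.ok.iv (w := S.w1) (m := S.N * m + 1)
    (fun d a _ => Nat.succ_le_succ (Nat.mul_le_mul_left _ (h1 d a))) h hu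
  have h4 := ok.Z
  have h5 : S.N * m * (S.M.n - 1) ≤ S.N * S.W := by
    rw [Nat.mul_assoc]
    refine Nat.mul_le_mul_left _ (le_trans ?_ h2.le)
    rw [Nat.mul_comm]
    exact Nat.mul_le_mul_right _ (Nat.sub_le _ _)
  have h6 : S.N = S.M.n + 1 := rfl
  rw [Nat.add_mul, Nat.one_mul] at h3
  omega

theorem w1 (a : ℕ) : 1 ≤ S.w1 a := Nat.le_add_left _ _

end Ls

theorem lsS : LsS := by
  intro S r μ ok kt
  refine ⟨fun a b ha hb h => ⟨ha, hb, ?_⟩, fun a b c h => ?_, fun a b b' c c' h h' => ?_,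
    fun a b c h => ?_⟩
  · by_cases e : S.M.β a = b
    · exact Or.inl ⟨e, if_pos e⟩
    · obtain ⟨k1, k2, k3⟩ := h.resolve_left e
      have o := ok.o _ _ (Ls.live ok kt ha) k1 (Ls.live ok kt hb) k2
      by_cases q : Rc S.M S.w1 (fun z => ¬S.K z) (S.M.nd (S.M.β a)) (S.M.nd (S.M.β b))
      · rw [if_pos q] at o
        exact Or.inr ⟨_, ds_spec q, by rw [Sk.Lv, if_neg e, o]⟩
      · rw [if_neg q] at o
        omega
  · obtain ⟨ha, hb, ⟨e, rfl⟩ | ⟨c', p, rfl⟩⟩ := h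
    · exact ⟨Or.inl e, le_of_eq (if_pos e)⟩
    · have o := ok.o _ _ (Ls.live ok kt ha) p.mem.1 (Ls.live ok kt hb) p.mem.2
      rw [if_pos ⟨c', p⟩] at o
      refine ⟨Or.inr ⟨p.mem.1, p.mem.2, ?_⟩, ?_⟩
      · rw [o]
        exact Ls.lt ok ⟨c', p⟩ (Mp.nd_spec (ok.wok.ok.iv a ha.1).1).1
      · have := ds_le p
        rw [Sk.Lv]
        split_ifs <;> omega
  · obtain ⟨ha, hb, ⟨e, rfl⟩ | ⟨c1, p, rfl⟩⟩ := h
    · have e' : S.M.β b = a := by rw [← e]; exact (ok.wok.ok.iv a ha.1).2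
      obtain ⟨_, _, ⟨q, _⟩ | ⟨c2, q, _⟩⟩ := h'
      · exact Or.inl (by rw [← q, e'])
      · exact absurd ha.2.1 (e' ▸ q.mem.1)
    · obtain ⟨_, hb', ⟨q, _⟩ | ⟨c2, q, rfl⟩⟩ := h'
      · exact absurd hb'.2.1 (q ▸ p.mem.2)
      · refine Or.inr ⟨_, ⟨ha, hb', Or.inr ⟨_, p.trans q, rfl⟩⟩, ?_⟩
        have := Ls.w1 (S := S) b
        omega
  · have := Ls.w1 (S := S) a
    obtain ⟨_, _, ⟨_, rfl⟩ | ⟨c', _, rfl⟩⟩ := h <;> omega

end Pool.Agent.MP_1a6d78_lc.DS

end MrgPart11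

section MrgPart12

/-! PROJECT DS: the Bellman equations on the skeleton. -/

namespace Pool.Agent.MP_1a6d78_lc.DS

open Classical ED PR

namespace Bell

variable {S : Sk} {r μ : ℕ}

theorem wp_le (d : ℕ) : S.wp d ≤ S.N * S.w d + 1 := by
  unfold Sk.wp Sk.w1
  split_ifs <;> omega

theorem le_wp (d : ℕ) : S.N * S.w d ≤ S.wp d := by
  unfold Sk.wp Sk.w1
  split_ifs <;> omega

theorem wp_fix {d : ℕ} (h : S.gam d = d) : S.wp d = S.w1 d := if_pos h

theorem wp_mov {d : ℕ} (h : S.gam d ≠ d) : S.wp d = S.N * S.w d := if_neg h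

theorem rc (ok : S.Ok r μ) {v : ℕ} (h : S.f.live v) : Rc S.M S.wp U (S.M.nd S.M.s) v :=
  (ok.comp v h).wt _

theorem bnd (ok : S.Ok r μ) {v : ℕ} (h : S.f.live v) :
    S.N * S.D (S.M.nd S.M.s) v ≤ S.F v ∧ S.F v < S.N * S.D (S.M.nd S.M.s) v + S.N := by
  constructor
  · obtain ⟨c, h1, h2⟩ := (ds_spec (rc ok h)).wle (a := S.N) (w := S.w) fun d _ _ => le_wp d
    exact (Nat.mul_le_mul_left _ (ds_le h1)).trans h2
  · obtain ⟨c, h1, h2⟩ := (ds_spec (ok.comp v h)).hop ok.wok.ok.iv (w' := S.wp) (a := S.N) (b := 1)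
      (fun d _ _ => wp_le d) (Mp.nd_spec ok.wok.ok.s).1
    have h3 : S.F v ≤ c := ds_le h1
    have h4 : S.N = S.M.n + 1 := rfl
    unfold Sk.D
    omega

theorem wk (ok : S.Ok r μ) {u v c : ℕ} (hu : S.f.live u) (h : Wk S.M S.wp U u v c) :
    S.F v ≤ S.F u + c := ds_le ((ds_spec (rc ok hu)).trans h)

theorem back (ok : S.Ok r μ) (kt : S.Kt0) {d : ℕ} (hd : d < S.M.n) (hb : S.M.β d ≠ d) :
    Wk S.M S.wp U (S.M.nd (S.M.β d)) (S.M.nd d) (S.wp d) :=
  (Wk.one hd hb trivial trivial).symm ok.wok.ok.iv kt.wps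

theorem lg (ok : S.Ok r μ) (kt : S.Kt0) {a b c : ℕ} (h : S.Lg a b c) :
    S.F (S.M.nd b) ≤ S.F (S.M.nd a) + c := by
  obtain ⟨pa, pb, h⟩ := h
  have o : Wk S.M S.wp U (S.M.nd a) (S.M.nd (S.M.β a)) (S.wp a) :=
    Wk.one pa.1 pa.2.2.2 trivial trivial
  rw [wp_fix pa.2.2.1] at o
  refine wk ok (kt.live _ pa.2.1).1 ?_
  rcases h with ⟨rfl, rfl⟩ | ⟨c', h, rfl⟩
  · exact o
  · have o2 := back ok kt pb.1 pb.2.2.2
    rw [wp_fix pb.2.2.1] at o2
    exact (o.trans (h.cg (w' := S.wp) fun d _ _ k _ =>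
      (wp_fix (by_contra fun e => k (kt.gk d e).1)).symm).toU).trans o2

theorem tg_of (ok : S.Ok r μ) (kt : S.Kt0) (ls : S.LsK) {a b c : ℕ} (h : S.Lg a b c)
    (e : S.F (S.M.nd a) + c = S.F (S.M.nd b)) : S.tg S.F a b := by
  obtain ⟨h1, h2⟩ := ls.le a b c h
  have h3 := lg ok kt (ls.lg a b h.1 h.2.1 h1)
  exact ⟨h.1, h.2.1, h1, by omega⟩

theorem ex (ok : S.Ok r μ) (kt : S.Kt0) (ls : S.LsK) {v c : ℕ}
    (h : Wk S.M S.wp U (S.M.nd S.M.s) v c) (e : c = S.F v) :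
    (S.K v → v = S.M.nd S.M.s ∨ S.sl S.F v ∨
      ∃ a < S.M.n, ∃ b < S.M.n, S.M.nd b = v ∧ S.tg S.F a b) ∧
    (¬S.K v → ∃ a c', S.port a ∧ Wk S.M S.w1 (fun z => ¬S.K z) (S.M.nd (S.M.β a)) v c' ∧
      S.F (S.M.nd a) + S.w1 a + c' = S.F v) := by
  induction h with
  | nil _ => exact ⟨fun _ => Or.inl rfl, fun k => absurd ((kt.K _).2 ⟨_, ok.xs, 0, rfl⟩) k⟩
  | @step v v' c d p hd hb e1 e2 _ ih =>
    subst e1 e2
    have iv := ok.wok.ok.iv d hd
    have l0 : S.f.live (S.M.nd d) := ok.wok.live ok.fit p (ok.xl _ ok.xs)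
    have a1 : S.F (S.M.nd d) ≤ c := ds_le p
    have a2 := wk ok l0 (Wk.one (w := S.wp) (A := U) hd hb trivial trivial)
    have ec : c = S.F (S.M.nd d) := by omega
    have ws := ok.wok.symm hd hb
    by_cases hg : S.gam d = d
    · have hg' : S.gam (S.M.β d) = S.M.β d := by
        by_contra k
        have k1 := kt.gam_eq iv.1 k
        have k2 := (kt.iv _ iv.1).2
        rw [k1, iv.2, hg] at k2
        exact hb k2.symm
      have w1s : S.w1 (S.M.β d) = S.w1 d := by unfold Sk.w1; rw [ws]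
      have pb : S.K (S.M.nd (S.M.β d)) → S.port (S.M.β d) := fun k =>
        ⟨iv.1, k, hg', by rw [iv.2]; exact hb.symm⟩
      rw [wp_fix hg] at e
      by_cases k0 : S.K (S.M.nd d)
      · have pa : S.port d := ⟨hd, k0, hg, hb⟩
        exact ⟨fun k => Or.inr (Or.inr ⟨d, hd, _, iv.1, rfl,
          tg_of ok kt ls ⟨pa, pb k, Or.inl ⟨rfl, rfl⟩⟩ (by omega)⟩),
          fun k => ⟨d, 0, pa, .nil k, by omega⟩⟩
      · obtain ⟨a, c', pa, q, eq⟩ := (ih ec).2 k0
        refine ⟨fun k => Or.inr (Or.inr ⟨a, pa.1, _, iv.1, rfl,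
          tg_of ok kt ls ⟨pa, pb k, Or.inr ⟨c', by rw [iv.2]; exact q, rfl⟩⟩ (by omega)⟩),
          fun k => ⟨a, c' + S.w1 d, pa, q.step hd hb rfl rfl k, by omega⟩⟩
    · have g1 := kt.gam_eq hd hg
      have g2 := (kt.iv d hd).2
      have g3 := (kt.gk d hg).2
      rw [g1] at g2 g3
      rw [wp_mov hg] at e
      refine ⟨fun _ => Or.inr (Or.inl ⟨_, iv.1, rfl, by rw [g2]; exact hb.symm, ?_⟩),
        fun k => absurd g3 k⟩
      rw [g2, ws]
      omega

end Bell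

open Bell in
theorem bellS : BellS := by
  intro S r μ ok kt ls
  refine ⟨fun v h => ?_, ds_self trivial, fun u v c hu h => wk ok hu h, fun d hd hg => ?_,
    fun a b c h => lg ok kt h, fun z k hz => ?_, fun v h => ?_⟩
  · obtain ⟨m, h1, h2⟩ := ok.wok.max
    have h3 := ds_bnd ok.wok.ok.iv (fun d a _ => h1 d a) (ok.comp v h) (Mp.nd_spec ok.wok.ok.s).1
    have h4 : S.D (S.M.nd S.M.s) v ≤ S.W :=
      h3.trans ((Nat.mul_le_mul_left _ (Nat.sub_le _ _)).trans (by rw [Nat.mul_comm]; exact h2.le))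
    have h5 := Nat.mul_le_mul_left S.N h4
    have h6 := (bnd ok h).2
    have h7 := ok.Z
    omega
  · have g1 := kt.gam_eq hd hg
    have hb : S.M.β d ≠ d := g1 ▸ hg
    have g3 := (kt.gk d hg).2
    have o := back ok kt hd hb
    rw [wp_mov hg, ← g1] at o
    exact ⟨wk ok (kt.live _ g3).1 o, Nat.mul_pos (Nat.succ_pos _) (ok.wok.pos d hd hb)⟩
  · exact ((ex ok kt ls (ds_spec (rc ok (kt.live _ k).1)) rfl).1 k).resolve_left hz
  · obtain ⟨h1, h2⟩ := bnd ok h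
    refine Nat.div_eq_of_lt_le ?_ ?_
    · rw [Nat.mul_comm]; exact h1
    · rw [Nat.succ_mul, Nat.mul_comm]; exact h2

end Pool.Agent.MP_1a6d78_lc.DS

end MrgPart12

section MrgPart13

/-! PROJECT DS, row ONCE: the potential grows along tight legs and slides. -/

namespace Pool.Agent.MP_1a6d78_lc.DS

open Classical ED PR

namespace Once

variable {S : Sk} {r μ : ℕ}

theorem rc (ok : S.Ok r μ) (kt : S.Kt0) {u v : ℕ} (hu : S.K u) (hv : S.K v) :
    Wk S.M S.w U u v (S.D u v) :=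
  ds_spec (ok.wok.rc (ok.comp u (kt.live u hu).1) (ok.comp v (kt.live v hv).1))

theorem tri (ok : S.Ok r μ) (kt : S.Kt0) {u v z : ℕ} (hu : S.K u) (hv : S.K v) (hz : S.K z) :
    S.N * S.D u z ≤ S.N * S.D u v + S.N * S.D v z := by
  rw [← Nat.mul_add]
  exact Nat.mul_le_mul_left _ (ds_le ((rc ok kt hu hv).trans (rc ok kt hv hz)))

theorem back (ok : S.Ok r μ) {u v c : ℕ} (h : Wk S.M S.w U u v c) : Wk S.M S.w U v u c :=
  h.symm ok.wok.ok.iv fun _ p q => ok.wok.symm p q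

theorem edge {d : ℕ} (hd : d < S.M.n) (hb : S.M.β d ≠ d) :
    Wk S.M S.w U (S.M.nd d) (S.M.nd (S.M.β d)) (S.w d) := Wk.one hd hb trivial trivial

theorem leg (ok : S.Ok r μ) {a b c : ℕ} (h : S.Lg a b c) :
    S.N * S.D (S.M.nd a) (S.M.nd b) < c := by
  obtain ⟨pa, pb, ⟨e, rfl⟩ | ⟨c', k, rfl⟩⟩ := h
  · have h1 : S.D (S.M.nd a) (S.M.nd b) ≤ S.w a := ds_le (e ▸ edge pa.1 pa.2.2.2)
    exact Nat.lt_succ_of_le (Nat.mul_le_mul_left _ h1)
  · obtain ⟨c0, k1, k2⟩ := Wk.wle (a := S.N) (w := S.w) (fun d _ _ => Nat.le_succ _) k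
    have h1 : S.D (S.M.nd a) (S.M.nd b) ≤ S.w a + c0 + S.w b :=
      ds_le (((edge pa.1 pa.2.2.2).trans k1.toU).trans (back ok (edge pb.1 pb.2.2.2)))
    have h2 := Nat.mul_le_mul_left S.N h1
    rw [Nat.mul_add, Nat.mul_add] at h2
    unfold Sk.w1
    omega

end Once

open Once in
theorem onceS : OnceS := by
  intro S r μ ok kt li ls be
  refine ⟨fun u => ?_, fun u v z hu hv hz h k => ?_, fun u v z hu hv hz h k => ?_,
    fun u v z hu hv hz h k => ?_, fun a b h => ?_, fun z d hd h => ?_, fun u z h k => ?_⟩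
  · have : S.D u u = 0 := ds_self trivial
    unfold Sk.Fa
    rw [this]
    exact Nat.le_refl _
  · have := tri ok kt hu hv hz
    unfold Sk.Fa at h k ⊢
    omega
  · have := tri ok kt hu hv hz
    unfold Sk.Fa at h
    unfold Sk.Fp at k ⊢
    omega
  · have := tri ok kt hu hv hz
    unfold Sk.Fa at k
    unfold Sk.Fp at h ⊢
    omega
  · have h1 := leg ok (ls.lg a b h.1 h.2.1 h.2.2.1)
    have h2 := h.2.2.2
    unfold Sk.Fp
    omega
  · obtain ⟨rfl, h1, h2⟩ := h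
    have e := kt.gam_eq hd h1
    have h3 : S.D (S.M.nd (S.gam d)) (S.M.nd d) ≤ S.w d := by
      rw [e]
      exact ds_le (back ok (edge hd (e ▸ h1)))
    have h4 := Nat.mul_le_mul_left S.N h3
    unfold Sk.Fa
    omega
  · have lu := (kt.live u h.1).1
    have lz := (kt.live z h.2.1).1
    have h1 := be.wk u z _ lu (li.slide u z h)
    have h2 := ok.geo.lip u z _ lu lz h.2.2.2.2 (rc ok kt h.1 h.2.1)
    have h3 := ok.geo.lip z u _ lz lu h.2.2.2.2.symm (back ok (rc ok kt h.1 h.2.1))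
    have h4 : df (S.f.ht u) (S.f.ht z) ≤ S.D u z := by
      unfold df
      omega
    have h5 := Nat.mul_le_mul_left S.N h4
    unfold Sk.Fp at k
    omega

end Pool.Agent.MP_1a6d78_lc.DS

end MrgPart13

section MrgPart14

/-! PROJECT DS, row TER: the territories. -/

namespace Pool.Agent.MP_1a6d78_lc.DS

open Classical ED PR

namespace Ter

variable {S : Sk} {r μ h z : ℕ}

/-- A slide comes from a neighbour in the class. -/
theorem slide (ok : S.Ok r μ) (kt : S.Kt0) (ky : S.KeyK) (on : S.OnceK) (hK : S.K z)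
    (hs : ¬S.sp z) (hl : S.sl S.F z) :
    S.sam (S.sv S.F z) z ∧ S.Fa (S.sv S.F z) z ∧ ∃ w, 1 ≤ w ∧
      S.F z = S.F (S.sv S.F z) + S.N * w ∧
      ((S.f.ht z = S.f.ht (S.sv S.F z) + w ∧
          ∀ u, S.sam u z → S.f.ht u < S.f.ht z → S.f.ht u ≤ S.f.ht (S.sv S.F z)) ∨
        (S.f.ht (S.sv S.F z) = S.f.ht z + w ∧
          ∀ u, S.sam u z → S.f.ht u < S.f.ht (S.sv S.F z) → S.f.ht u ≤ S.f.ht z)) := by
  obtain ⟨hd, ht⟩ := lst_spec hl
  have fa := on.sld z _ hd ht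
  unfold Sk.sv
  generalize lst S.M.n (S.ts S.F z) = d at hd ht fa
  obtain ⟨e1, e2, e3⟩ := ht
  have eb := kt.gam_eq hd e2
  have nb : S.M.β d ≠ d := eb ▸ e2
  have w1 := ok.wok.pos d hd nb
  have ky' := (kt.gk d e2).2
  have iv := kt.iv d hd
  rcases kt.typ d hd e2 with k | k | k
  · rw [e1] at k
    have p1 := kt.pd z (by rw [k]; exact hd)
    have p2 := (kt.up z hK p1).2.2.2
    rw [k] at p2
    have sm : S.sam (S.f.par z) z := by
      by_contra q
      exact hs ⟨hK, Or.inl (Or.inr q)⟩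
    have g := ok.geo.par d hd nb (by rw [e1]; exact (kt.live z hK).1) (by rw [e1]; exact p1)
      (by rw [e1, ← eb, p2]) (by rw [e1, ← eb, p2]; exact sm.2.2.2.2.symm)
    rw [e1, ← eb] at g
    refine ⟨p2 ▸ sm, fa, S.w d, w1, e3.symm, Or.inl ⟨g, fun u a b => ?_⟩⟩
    rw [p2]
    exact ky.nxt u z a p1 b
  · have p1 := kt.pd _ (by rw [k]; exact iv.1)
    have p2 := (kt.up _ ky' p1).2.2.2
    rw [k, iv.2, e1] at p2
    have sm : S.sam (S.M.nd (S.gam d)) z :=
      (ky.child z _ hK hs ky' (fun q => p1 (by rw [← p2, q])) p2.symm).1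
    have bb : S.M.β (S.gam d) = d := by rw [eb]; exact (ok.wok.ok.iv d hd).2
    have g := ok.geo.par (S.gam d) iv.1 (by rw [bb]; exact e2.symm) (kt.live _ ky').1 p1
      (by rw [bb, e1, p2]) (by rw [bb, e1]; exact sm.2.2.2.2)
    have ws : S.w (S.gam d) = S.w d := by rw [eb]; exact ok.wok.symm hd nb
    rw [bb, e1, ws] at g
    refine ⟨sm, fa, S.w d, w1, e3.symm, Or.inr ⟨g, fun u a b => ?_⟩⟩
    have := ky.nxt u _ (a.trans sm.symm) p1 b
    rwa [← p2] at this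
  · exact absurd (e1 ▸ ky.xb _ (ok.xc d hd k.1)) hs

theorem nsp (t : S.Te h z) : ¬S.sp z := by
  cases t with
  | base _ k _ => exact k
  | step _ _ k _ => exact k

theorem uniq {h' : ℕ} (t : S.Te h z) (t' : S.Te h' z) : h = h' := by
  induction t with
  | base _ _ k =>
    cases t' with
    | base _ _ _ => rfl
    | step a _ _ b => exact k.elim (absurd b) fun q => absurd q (nsp a)
  | step a _ _ b ih =>
    cases t' with
    | base _ _ k => exact k.elim (absurd b) fun q => absurd q (nsp a)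
    | step a' _ _ _ => exact ih a'

theorem ex (ok : S.Ok r μ) (kt : S.Kt0) (ky : S.KeyK) (on : S.OnceK) :
    ∀ m z, S.F z = m → S.K z → ¬S.sp z → ∃ h, S.Te h z := by
  intro m
  induction m using Nat.strong_induction_on with
  | _ m ih =>
    intro z e hK hs
    by_cases q : ¬S.sl S.F z ∨ S.sp (S.sv S.F z)
    · exact ⟨z, .base hK hs q⟩
    · have q1 : S.sl S.F z := by_contra fun k => q (Or.inl k)
      obtain ⟨sm, -, w, w1, e1, -⟩ := slide ok kt ky on hK hs q1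
      have p : 1 ≤ S.N * w := Nat.mul_pos (Nat.succ_pos _) w1
      obtain ⟨h, t⟩ := ih (S.F (S.sv S.F z)) (by omega) _ rfl sm.1 fun k => q (Or.inr k)
      exact ⟨h, .step t hK hs q1⟩

theorem joint (ok : S.Ok r μ) (kt : S.Kt0) (ky : S.KeyK) (on : S.OnceK) (t : S.Te h z) :
    S.Te h h ∧ S.sam h z ∧ S.Fa h z ∧ ∀ u, S.sam u z →
      (S.f.ht h ≤ S.f.ht u ∧ S.f.ht u ≤ S.f.ht z) ∨ (S.f.ht z ≤ S.f.ht u ∧ S.f.ht u ≤ S.f.ht h) →
        S.Te h u ∧ S.F u = S.F h + S.N * df (S.f.ht h) (S.f.ht u) := by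
  induction t with
  | base a b c =>
    refine ⟨.base a b c, .refl a, on.refl h, fun u k e => ?_⟩
    have := ky.inj u h k (by omega)
    subst this
    exact ⟨.base a b c, by simp [df_self]⟩
  | @step z a hK hs hl ih =>
    obtain ⟨i1, i2, i3, i4⟩ := ih
    obtain ⟨sm, fa, w, w1, e1, e2⟩ := slide ok kt ky on hK hs hl
    have tz : S.Te h z := .step a hK hs hl
    generalize S.sv S.F z = y at *
    have hz := i2.trans sm
    have p : 1 ≤ S.N * w := Nat.mul_pos (Nat.succ_pos _) w1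
    have fy := (i4 y (.refl sm.1) (by omega)).2
    have nb : ¬((S.f.ht h ≤ S.f.ht z ∧ S.f.ht z ≤ S.f.ht y) ∨
        (S.f.ht y ≤ S.f.ht z ∧ S.f.ht z ≤ S.f.ht h)) := fun q => by
      have fz := (i4 z sm.symm q).2
      have : S.N * df (S.f.ht h) (S.f.ht z) ≤ S.N * df (S.f.ht h) (S.f.ht y) :=
        Nat.mul_le_mul_left _ (by unfold df; omega)
      omega
    have dd : df (S.f.ht h) (S.f.ht z) = df (S.f.ht h) (S.f.ht y) + w := by
      rcases e2 with ⟨e2, e3⟩ | ⟨e2, e3⟩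
      · have := e3 h hz
        unfold df
        omega
      · have := e3 h hz
        unfold df
        omega
    refine ⟨i1, hz, on.aa h y z i2.1 sm.1 hK i3 fa, fun u k e => ?_⟩
    by_cases q : S.f.ht u = S.f.ht z
    · have := ky.inj u z k q
      subst this
      exact ⟨tz, by rw [dd, Nat.mul_add]; omega⟩
    · refine i4 u (k.trans sm.symm) ?_
      rcases e2 with ⟨e2, e3⟩ | ⟨e2, e3⟩
      · have := e3 h hz
        have := e3 u k
        omega
      · have := e3 h hz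
        have := e3 u k
        omega

end Ter

theorem terS : TerS := fun _ _ _ ok kt ky _ on =>
  { ex := fun z => Ter.ex ok kt ky on _ z rfl
    uniq := fun _ _ _ => Ter.uniq
    mem := fun _ z t =>
      have j := Ter.joint ok kt ky on t
      ⟨j.1, j.2.1, Ter.nsp j.1, Ter.nsp t, j.2.2.1,
        (j.2.2.2 z (.refl j.2.1.2.1) (by omega)).2⟩
    conv := fun _ _ u t k e => ((Ter.joint ok kt ky on t).2.2.2 u k e).1 }

end Pool.Agent.MP_1a6d78_lc.DS

end MrgPart14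

section MrgPart15

/-! PROJECT DS, row CLS: the recursion of the itineraries. -/

namespace Pool.Agent.MP_1a6d78_lc.DS

open Classical ED PR

namespace ClsP

variable {S : Sk} {r μ : ℕ}

theorem ne (e : ℕ → ℕ) (t z : ℕ) : S.cls e t z ≠ [] := by
  induction t generalizing z with
  | zero => simp [Sk.cls]
  | succ t ih =>
    simp only [Sk.cls]
    split_ifs <;> simp [ih]

theorem sv (kt : S.Kt0) (bell : S.BellK) {z : ℕ} (h : S.sl S.F z) :
    S.K (S.sv S.F z) ∧ S.F (S.sv S.F z) < S.F z ∧ ∃ d < S.M.n, S.M.nd d = z ∧ S.gam d ≠ d ∧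
      S.M.nd (S.gam d) = S.sv S.F z ∧ S.F (S.sv S.F z) + S.N * S.w d = S.F z := by
  obtain ⟨h1, h2, h3, h4⟩ := lst_spec h
  have h5 := (bell.sl _ h1 h3).2
  exact ⟨(kt.gk _ h3).2, by unfold Sk.sv; omega, _, h1, h2, h3, rfl, h4⟩

theorem la (ok : S.Ok r μ) (key : S.KeyK) (ls : S.LsK) (bell : S.BellK) {z : ℕ} (hz : S.K z)
    (h1 : ¬S.sp z) (h2 : ¬S.sl S.F z) :
    S.M.nd (S.lb S.F z) = z ∧ S.tg S.F (S.la S.F z) (S.lb S.F z) ∧ S.K (S.M.nd (S.la S.F z)) ∧
      S.F (S.M.nd (S.la S.F z)) < S.F z := by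
  have h3 := (bell.ex z hz fun e => h1 (e ▸ key.xb _ ok.xs)).resolve_left h2
  obtain ⟨-, h4⟩ := lst_spec h3
  obtain ⟨-, h5, h6⟩ := lst_spec h4
  have h7 := ls.pos _ _ _ (ls.lg _ _ h6.1 h6.2.1 h6.2.2.1)
  have h8 := h6.2.2.2
  rw [h5] at h8
  exact ⟨h5, h6, h6.1.2.1, by unfold Sk.la; omega⟩

theorem fuel (ok : S.Ok r μ) (kt : S.Kt0) (key : S.KeyK) (ls : S.LsK) (bell : S.BellK) (t : ℕ) :
    ∀ t' z, S.K z → S.F z < t → S.F z < t' → S.cls S.F t z = S.cls S.F t' z := by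
  induction t with
  | zero => exact fun _ _ _ h => absurd h (Nat.not_lt_zero _)
  | succ t ih =>
    intro t' z hz h h'
    obtain ⟨t', rfl⟩ : ∃ s, t' = s + 1 := ⟨t' - 1, by omega⟩
    simp only [Sk.cls]
    by_cases h1 : S.sp z
    · rw [if_pos h1, if_pos h1]
    rw [if_neg h1, if_neg h1]
    by_cases h2 : S.sl S.F z
    · obtain ⟨k1, k2, -⟩ := sv kt bell h2
      rw [if_pos h2, if_pos h2, ih t' _ k1 (by omega) (by omega)]
    · obtain ⟨-, -, k1, k2⟩ := la ok key ls bell hz h1 h2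
      rw [if_neg h2, if_neg h2, ih t' _ k1 (by omega) (by omega)]

theorem unf (ok : S.Ok r μ) (kt : S.Kt0) (key : S.KeyK) (ls : S.LsK) (bell : S.BellK) {z : ℕ}
    (hz : S.K z) : S.C z = if S.sp z then [0] else if S.sl S.F z then
      (if S.sp (S.sv S.F z) then [if S.sv S.F z = S.f.par z then 1 else 2] else S.C (S.sv S.F z))
    else S.C (S.M.nd (S.la S.F z)) ++ [S.blk (S.la S.F z), S.blk (S.lb S.F z)] := by
  have h := bell.lt z (kt.live z hz).1
  exact fuel ok kt key ls bell S.Z (S.Z + 1) z hz h (by omega)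

theorem te_mem (kt : S.Kt0) (bell : S.BellK) {h z : ℕ} (k : S.Te h z) :
    S.K z ∧ ¬S.sp z ∧ S.F h ≤ S.F z := by
  induction k with
  | base a b _ => exact ⟨a, b, le_rfl⟩
  | step _ a b c ih => exact ⟨a, b, ih.2.2.trans (sv kt bell c).2.1.le⟩

theorem te_base (kt : S.Kt0) (bell : S.BellK) {h z : ℕ} (k : S.Te h z) (e : z = h) :
    ¬S.sl S.F h ∨ S.sp (S.sv S.F h) := by
  cases k with
  | base _ _ c => exact c
  | step p _ _ c =>
    subst e
    exact absurd (sv kt bell c).2.1 (te_mem kt bell p).2.2.not_gt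

theorem up (ok : S.Ok r μ) (kt : S.Kt0) (key : S.KeyK) {h d : ℕ} (hk : S.K h) (hs : ¬S.sp h)
    (hd : d < S.M.n) (e : S.M.nd d = h) (hg : S.gam d ≠ d) (hy : S.sp (S.M.nd (S.gam d)))
    (hp : S.M.nd (S.gam d) = S.f.par h) :
    S.M.nd (S.gam d) = S.tp h ∧ S.f.ht h - S.f.ht (S.tp h) = S.w d ∧
      ∀ u, S.sam u h → ¬S.sp u → S.f.ht h ≤ S.f.ht u := by
  have h1 : ¬S.top h := fun k => hs ⟨hk, Or.inl k⟩
  have h2 : S.f.par h ≠ h := fun k => h1 (Or.inl k)
  have h3 : S.sam (S.f.par h) h := by_contra fun k => h1 (Or.inr k)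
  rw [hp] at hy
  have h4 : S.f.par h = S.tp h := key.tp _ _ h3 (hy.2.resolve_right fun k =>
    k ⟨h, (kt.live h hk).2.1, h2.symm, rfl, h3.symm⟩)
  have h5 := kt.gam_eq hd hg
  have h6 := ok.geo.par d hd (h5 ▸ hg) (e ▸ (kt.live h hk).1) (e ▸ h2)
    (by rw [e, ← h5, hp]) (by rw [e, ← h5, hp]; exact h3.2.2.2.2.symm)
  rw [e, ← h5, hp, h4] at h6
  refine ⟨hp.trans h4, by omega, fun u a b => not_lt.1 fun k => b ?_⟩
  have k1 := key.nxt u h a h2 k
  have k2 := (key.ht u h a).1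
  rw [← h4] at k2
  rw [key.inj u _ (a.trans h3.symm) (le_antisymm k1 k2)]
  exact hy

theorem down (ok : S.Ok r μ) (kt : S.Kt0) (key : S.KeyK) {h d : ℕ} (hk : S.K h) (hs : ¬S.sp h)
    (hd : d < S.M.n) (e : S.M.nd d = h) (hg : S.gam d ≠ d) (hy : S.sp (S.M.nd (S.gam d)))
    (hp : S.M.nd (S.gam d) ≠ S.f.par h) :
    S.M.nd (S.gam d) = S.bt h ∧ S.f.ht (S.bt h) - S.f.ht h = S.w d ∧
      ∀ u, S.sam u h → ¬S.sp u → S.f.ht u ≤ S.f.ht h := by
  have hi := kt.iv d hd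
  have h0 : S.pd (S.M.nd (S.gam d)) = S.gam d := by
    rcases kt.typ d hd hg with k | k | k
    · rw [e] at k
      have := (kt.up h hk (kt.pd h (k.symm ▸ hd))).2.2.2
      rw [k] at this
      exact absurd this hp
    · exact k
    · exact absurd (key.xb _ (e ▸ ok.xc d hd k.1)) hs
  have h2 := kt.pd _ (h0.symm ▸ hi.1)
  have h1 := (kt.up _ hy.1 h2).2.2.2
  rw [h0, hi.2, e] at h1
  have h3 := (key.child h _ hk hs hy.1 (fun k => h2 (h1.symm.trans k.symm)) h1.symm).1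
  have h4 : S.M.nd (S.gam d) = S.bt h := key.bt _ _ h3 (hy.2.resolve_left fun k =>
    k.elim h2 fun k => k (h1 ▸ h3.symm))
  have h5 := kt.gam_eq hd hg
  have hj := ok.wok.ok.iv d hd
  have h6 := ok.geo.par (S.M.β d) hj.1 (by rw [hj.2, ← h5]; exact hg.symm)
    (h5 ▸ (kt.live _ hy.1).1) (h5 ▸ h2) (by rw [hj.2, e, ← h5]; exact h1.symm)
    (by rw [hj.2, e, ← h5]; exact h3.2.2.2.2)
  rw [hj.2, e, ok.wok.symm hd (h5 ▸ hg), ← h5, h4] at h6
  refine ⟨h4, by omega, fun u a b => not_lt.1 fun k => b ?_⟩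
  have k2 := (key.ht u h a).2
  rw [← h4] at k2
  rcases k2.lt_or_eq with k1 | k1
  · have := key.nxt u _ (a.trans h3.symm) h2 k1
    rw [← h1] at this
    omega
  · rw [key.inj u _ (a.trans h3.symm) k1]
    exact hy

end ClsP

open ClsP in
theorem clsS : ClsS := by
  intro S r μ ok kt key ls bell
  refine ⟨fun z h => ?_, fun h z k => ?_, fun a b k => ?_, fun h k => ?_, fun z => ne _ _ _⟩
  · rw [unf ok kt key ls bell h.1, if_pos h]
  · induction k with
    | base => rfl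
    | step p a b c ih =>
      rw [unf ok kt key ls bell a, if_neg b, if_pos c, if_neg (te_mem kt bell p).2.1, ih]
  · obtain ⟨k1, k2, k3, k4, k5⟩ := k
    have h := (la ok key ls bell k1 k2 k3).2.1
    rw [k4, k5] at h
    refine ⟨h, .base k1 k2 (Or.inl k3), ?_, fun a' b' e t => ?_⟩
    · rw [unf ok kt key ls bell k1, if_neg k2, if_neg k3, k4, k5]
    · exact k4 ▸ lst_le t.1.1 ⟨b', t.2.1.1, e, t⟩
  · obtain ⟨k1, k2, -⟩ := te_mem kt bell k
    by_cases c : S.sl S.F h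
    · have hy := (te_base kt bell k rfl).resolve_left (not_not.2 c)
      have hC := unf ok kt key ls bell k1
      rw [if_neg k2, if_pos c, if_pos hy] at hC
      obtain ⟨-, a1, d, hd, e, hg, a2, a3⟩ := sv kt bell c
      rw [← a2] at hy hC a1 a3
      by_cases hp : S.M.nd (S.gam d) = S.f.par h
      · obtain ⟨b1, b2, b3⟩ := up ok kt key k1 k2 hd e hg hy hp
        rw [if_pos hp] at hC
        rw [b1] at a1 a3
        exact Or.inl ⟨hC, b3, by rw [b2, a3], a1⟩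
      · obtain ⟨b1, b2, b3⟩ := down ok kt key k1 k2 hd e hg hy hp
        rw [if_neg hp] at hC
        rw [b1] at a1 a3
        exact Or.inr (Or.inl ⟨hC, b3, by rw [b2, a3], a1⟩)
    · have e := (la ok key ls bell k1 k2 c).1
      refine Or.inr (Or.inr ⟨S.la S.F h, S.lb S.F h, ?_, e⟩)
      unfold Sk.Can
      rw [e]
      exact ⟨k1, k2, c, rfl, rfl⟩

end Pool.Agent.MP_1a6d78_lc.DS

end MrgPart15

section MrgPart16

/-! PROJECT DS: the itineraries depend only on the values up to the radius. -/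

namespace Pool.Agent.MP_1a6d78_lc.DS

open Classical ED PR

namespace AgrL

variable {S : Sk} {e : ℕ → ℕ} {ρ z : ℕ} (hρ : ρ < S.Z)
  (he : ∀ v, S.K v → e v = if S.F v ≤ ρ then S.F v else S.Z) (hz : S.K z) (hF : S.F z ≤ ρ)
include hρ he hz hF

theorem key {u : ℕ} (hu : S.K u) (c : ℕ) : e u + c = e z ↔ S.F u + c = S.F z := by
  rw [he u hu, he z hz, if_pos hF]
  split_ifs <;> omega

theorem ts (k : S.Kt0) : S.ts e z = S.ts S.F z := funext fun d => propext
  (and_congr_right fun _ => and_congr_right fun h => key hρ he hz hF (k.gk d h).2 _)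

theorem tg (a b : ℕ) : (S.M.nd b = z ∧ S.tg e a b) ↔ (S.M.nd b = z ∧ S.tg S.F a b) :=
  and_congr_right fun h => and_congr_right fun p => and_congr_right fun _ =>
    and_congr_right fun _ => h ▸ key hρ he (h ▸ hz) (h ▸ hF) p.2.1 _

theorem la : S.la e z = S.la S.F z :=
  lst_congr fun a _ => exists_congr fun b => and_congr_right fun _ => tg hρ he hz hF a b

theorem lb : S.lb e z = S.lb S.F z := by
  rw [Sk.lb, la hρ he hz hF]
  exact lst_congr fun b _ => tg hρ he hz hF _ b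

end AgrL

open AgrL in
theorem agrS : AgrS := by
  intro S r μ ok k ky _ bl e ρ hρ he
  have : ∀ t z, S.K z → S.F z ≤ ρ → S.cls e t z = S.cls S.F t z := by
    intro t
    induction t with
    | zero => exact fun _ _ _ => rfl
    | succ t ih =>
      intro z hz hF
      have e1 : S.sl e z = S.sl S.F z := by rw [Sk.sl, ts hρ he hz hF k, Sk.sl]
      have e2 : S.sv e z = S.sv S.F z := by rw [Sk.sv, ts hρ he hz hF k, Sk.sv]
      simp only [Sk.cls]
      rw [e1, e2, la hρ he hz hF, lb hρ he hz hF]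
      split_ifs with h1 h2 h3
      · rfl
      · rfl
      · rfl
      · obtain ⟨-, -, p, q⟩ := lst_spec h2
        exact ih _ (k.gk _ p).2 ((Nat.le_add_right _ _).trans (q.trans_le hF))
      · obtain ⟨-, b, -, rfl, p, -, -, q⟩ := lst_spec
          ((bl.ex z hz fun h => h1 (h ▸ ky.xb _ ok.xs)).resolve_left h2)
        exact congrArg (· ++ _) (ih _ p.2.1 ((Nat.le_add_right _ _).trans (q.trans_le hF)))
  exact this _

end Pool.Agent.MP_1a6d78_lc.DS

end MrgPart16
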