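import Pool.Agent.MP_1a6d78_lc.DS.Basic

/-! PROJECT DS, row PC: the itinerary of a vertex is computable. -/

namespace Pool.Agent.MP_1a6d78_lc.DS

open Classical ED PR

namespace Pc

noncomputable section

variable (S : Sk) (e : ℕ → ℕ)

def jj (z d : ℕ) : ℕ :=
  if d ≠ 0 then 0 else if S.sp z then 1 else if S.sl e z then (if S.sp (S.sv e z) then 1 else 0)
  else 2

def aa (z : ℕ) : ℕ :=
  if S.sp z then 0 else if S.sl e z then (if S.sv e z = S.f.par z then 1 else 2)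
  else S.blk (S.la e z)

def cc (z d : ℕ) : ℕ :=
  if d ≠ 0 then z else if S.sp z then z else if S.sl e z then S.sv e z else S.M.nd (S.la e z)

def dd (z d : ℕ) : ℕ := if d ≠ 0 then 1 else if jj S e z d = 1 then 1 else 0

def ab (s : ℕ × ℕ × List ℕ) : ℕ × ℕ × List ℕ :=
  (cc S e s.1 s.2.1, dd S e s.1 s.2.1,
    List.take (jj S e s.1 s.2.1) [aa S e s.1, S.blk (S.lb e s.1)] ++ s.2.2)

def up (k c d j a b g : ℕ) (T : List ℕ) : List ℕ :=
  tab (k + 3) fun i => if i = 0 then c else if i = 1 then d else if i = 2 then min (gt T 2 + j) g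
    else if i < 3 + j then (if i = 3 then a else b) else gt T (i - j)

def rp (k : ℕ) (s : ℕ × ℕ × List ℕ) : List ℕ :=
  tab (k + 3) (gt (s.1 :: s.2.1 :: s.2.2.length :: s.2.2))

def stp (k m : ℕ) (T : List ℕ) : List ℕ :=
  up k (cc S e (gt T 0) (gt T 1)) (dd S e (gt T 0) (gt T 1)) (jj S e (gt T 0) (gt T 1))
    (aa S e (gt T 0)) (S.blk (S.lb e (gt T 0))) (2 * m + 2) T

end

variable {S : Sk} {e : ℕ → ℕ}

theorem jj_le (z d : ℕ) : jj S e z d ≤ 2 := by unfold jj; split_ifs <;> omega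

theorem up_rp (k c d j a b g : ℕ) (s : ℕ × ℕ × List ℕ) (hj : j ≤ 2) (hg : s.2.2.length + j ≤ g) :
    up k c d j a b g (rp k s) = rp k (c, d, List.take j [a, b] ++ s.2.2) := by
  refine tab_cg fun i hi => ?_
  obtain rfl | rfl | rfl | ⟨i, rfl⟩ : i = 0 ∨ i = 1 ∨ i = 2 ∨ ∃ i', i = i' + 3 := by
    rcases i with _ | _ | _ | i
    exacts [.inl rfl, .inr (.inl rfl), .inr (.inr (.inl rfl)), .inr (.inr (.inr ⟨i, rfl⟩))]
  · rfl
  · rfl
  · rw [if_neg (by omega), if_neg (by omega), if_pos rfl, rp, gt_tb _ (by omega)]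
    obtain rfl | rfl | rfl : j = 0 ∨ j = 1 ∨ j = 2 := by omega
    all_goals simp [gt] at hg ⊢; omega
  · rw [if_neg (by omega), if_neg (by omega), if_neg (by omega)]
    obtain rfl | rfl | rfl : j = 0 ∨ j = 1 ∨ j = 2 := by omega
    · rw [if_neg (by omega), rp, gt_tb _ (by omega)]; rfl
    · rcases i with _ | i
      · rfl
      · rw [if_neg (by omega), rp, gt_tb _ (by omega)]; rfl
    · rcases i with _ | _ | i
      · rfl
      · rfl
      · rw [if_neg (by omega), rp, gt_tb _ (by omega)]; rfl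

theorem inv (z m : ℕ) : (itr (fun _ => ab S e) (z, 0, []) m).2.2.length ≤ 2 * m ∧
    ∀ t, S.cls e (t + m) z = if (itr (fun _ => ab S e) (z, 0, []) m).2.1 ≠ 0 then
      (itr (fun _ => ab S e) (z, 0, []) m).2.2
      else S.cls e t (itr (fun _ => ab S e) (z, 0, []) m).1 ++
        (itr (fun _ => ab S e) (z, 0, []) m).2.2 := by
  induction m with
  | zero => simp [itr]
  | succ m ih =>
    simp only [itr]
    generalize itr (fun _ => ab S e) (z, 0, []) m = s at ih ⊢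
    obtain ⟨c, d, L⟩ := s
    refine ⟨?_, fun t => ?_⟩
    · have := jj_le (S := S) (e := e) c d
      have := ih.1
      simp only [ab, List.length_append, List.length_take] at this ⊢
      omega
    · rw [show t + (m + 1) = t + 1 + m by omega, ih.2]
      simp only [ab, dd, jj, cc, aa, Sk.cls]
      by_cases h1 : d = 0 <;> by_cases h2 : S.sp c <;> by_cases h3 : S.sl e c <;>
        by_cases h4 : S.sp (S.sv e c) <;> simp [h1, h2, h3, h4]

theorem run (k z m : ℕ) : itr (stp S e k) (rp k (z, 0, [])) m =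
    rp k (itr (fun _ => ab S e) (z, 0, []) m) := by
  induction m with
  | zero => rfl
  | succ m ih =>
    have l := (inv (S := S) (e := e) z m).1
    simp only [itr]
    rw [ih]
    generalize itr (fun _ => ab S e) (z, 0, []) m = s at l ⊢
    have a : gt (rp k s) 0 = s.1 := gt_tb _ (by omega)
    have b : gt (rp k s) 1 = s.2.1 := gt_tb _ (by omega)
    rw [stp, a, b, up_rp _ _ _ _ _ _ _ _ (jj_le _ _) (by have := jj_le (S := S) (e := e) s.1 s.2.1; omega)]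
    rfl

theorem fin (k z : ℕ) (T : List ℕ) (h : T = itr (stp S e k) (rp k (z, 0, [])) S.Z) :
    S.cz k e z = tab k fun i =>
      gt (up k 0 0 (if gt T 1 ≠ 0 then 0 else 1) 0 0 (2 * S.Z + 2) T) (i + 2) := by
  obtain ⟨l, q⟩ := inv (S := S) (e := e) z S.Z
  have q := q 0
  rw [h, run]
  generalize itr (fun _ => ab S e) (z, 0, []) S.Z = s at l q ⊢
  have b : gt (rp k s) 1 = s.2.1 := gt_tb _ (by omega)
  rw [b, up_rp _ _ _ _ _ _ _ _ (by split_ifs <;> omega) (by split_ifs <;> omega), Sk.cz,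
    ← Nat.zero_add S.Z, q]
  refine tab_cg fun i hi => ?_
  rw [rp, gt_tb _ (by omega)]
  split_ifs <;> rfl

theorem lst_n (n : ℕ) (P : ℕ → Prop) : lst n P ≤ n := by
  rcases Nat.eq_zero_or_pos n with rfl | h
  · exact (lst_none (by omega)).le
  · exact (lst_lt P h).le

theorem gt_le {T : List ℕ} {b : ℕ} (h : ∀ a ∈ T, a ≤ b) (i : ℕ) : gt T i ≤ b := by
  unfold gt
  rcases lt_or_ge i T.length with k | k
  · rw [List.getD_eq_getElem _ _ k]; exact h _ (List.getElem_mem k)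
  · rw [List.getD_eq_default _ _ k]; exact Nat.zero_le _

theorem stp_le (k m : ℕ) (T : List ℕ) (b : ℕ) (h : ∀ a ∈ T, a ≤ b) (hb : 2 * m + S.M.n + 3 ≤ b) :
    ∀ a ∈ stp S e k m T, a ≤ b := by
  intro a ha
  obtain ⟨i, _, rfl⟩ := List.mem_map.1 ha
  have g := gt_le h
  have n1 : ∀ d, S.M.nd d ≤ b := fun d => (lst_n _ _).trans (by omega)
  have n2 : ∀ d, S.blk d ≤ b := fun d => (cnt_le _ _).trans (by omega)
  split_ifs
  · unfold cc Sk.sv; split_ifs; exacts [g _, g _, n1 _, n1 _]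
  · unfold dd; split_ifs <;> omega
  · omega
  · unfold aa; split_ifs; exacts [by omega, by omega, by omega, n2 _]
  · exact n2 _
  · exact g _

section
variable {κ k : List Bool → ℕ} {S : List Bool → Sk} (h : SkC κ S) (p : PkK κ S)
  {e : List Bool → Env → ℕ → ℕ} {a b z : List Bool → Env → ℕ}
include h p

theorem tgC (he : F1 κ e) (ha : Cn κ a) (hb : Cn κ b) :
    Cp κ fun x ρ => (S x).tg (e x ρ) (a x ρ) (b x ρ) :=
  K.and (K.appP p.port ha) (K.and (K.appP p.port hb) (K.and (p.Lf _ _ ha hb)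
    (K.eq (K.add (K.app he (K.app h.nd ha)) (p.Lv _ _ ha hb)) (K.app he (K.app h.nd hb)))))

theorem tsC (he : F1 κ e) (hz : Cn κ z) (ha : Cn κ a) :
    Cp κ fun x ρ => (S x).ts (e x ρ) (z x ρ) (a x ρ) :=
  K.and (K.eq (K.app h.nd ha) hz) (K.and (K.ne (K.app p.gam ha) ha)
    (K.eq (K.add (K.app he (K.app h.nd (K.app p.gam ha))) (K.mul p.N (K.app h.w ha)))
      (K.app he hz)))

theorem slC (he : F1 κ e) (hz : Cn κ z) : Cp κ fun x ρ => (S x).sl (e x ρ) (z x ρ) :=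
  K.ex (P := fun x ρ => (S x).ts (e x ρ) (z x ρ)) h.M.1 (tsC h p (K.wF he) (K.w hz) (K.v 0))

theorem svC (he : F1 κ e) (hz : Cn κ z) : Cn κ fun x ρ => (S x).sv (e x ρ) (z x ρ) :=
  K.cg (K.app h.nd (K.app p.gam (K.lst (P := fun x ρ => (S x).ts (e x ρ) (z x ρ)) h.M.1
    (tsC h p (K.wF he) (K.w hz) (K.v 0))))) fun _ _ => rfl

theorem laC (he : F1 κ e) (hz : Cn κ z) : Cn κ fun x ρ => (S x).la (e x ρ) (z x ρ) :=
  K.lst (P := fun x ρ a => ∃ b < (S x).M.n, (S x).M.nd b = z x ρ ∧ (S x).tg (e x ρ) a b) h.M.1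
    (K.ex (P := fun x ρ b => (S x).M.nd b = z x (tl ρ) ∧ (S x).tg (e x (tl ρ)) (hd (ρ 0)) b) h.M.1
      (K.and (K.eq (K.app h.nd (K.v 0)) (K.w (K.w hz))) (tgC h p (K.wF (K.wF he)) (K.v 1) (K.v 0))))

theorem lbC (he : F1 κ e) (hz : Cn κ z) : Cn κ fun x ρ => (S x).lb (e x ρ) (z x ρ) :=
  K.lst (P := fun x ρ b => (S x).M.nd b = z x ρ ∧ (S x).tg (e x ρ) ((S x).la (e x ρ) (z x ρ)) b)
    h.M.1 (K.and (K.eq (K.app h.nd (K.v 0)) (K.w hz))
      (tgC h p (K.wF he) (laC h p (K.wF he) (K.w hz)) (K.v 0)))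

theorem jjC (he : F1 κ e) (hz : Cn κ z) (ha : Cn κ a) :
    Cn κ fun x ρ => jj (S x) (e x ρ) (z x ρ) (a x ρ) :=
  K.ite (K.ne ha (K.c 0)) (K.c 0) (K.ite (K.appP p.sp hz) (K.c 1) (K.ite (slC h p he hz)
    (K.ite (K.appP p.sp (svC h p he hz)) (K.c 1) (K.c 0)) (K.c 2)))

theorem hitC (he : F1 κ e) (hz : Cn κ z) (ha : Cn κ a) :
    Cp κ fun x ρ => (S x).hit (e x ρ) (a x ρ) (z x ρ) :=
  K.or (K.and (K.eq hz (K.app h.nd h.M.2.2.2.2.1)) (K.eq ha (K.c 0))) (K.or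
    (K.ex (P := fun x ρ d => (S x).M.nd d = z x ρ ∧ (S x).gam d ≠ d ∧
      e x ρ ((S x).M.nd ((S x).gam d)) + (S x).N * (S x).w d = a x ρ) h.M.1
      (K.and (K.eq (K.app h.nd (K.v 0)) (K.w hz)) (K.and (K.ne (K.app p.gam (K.v 0)) (K.v 0))
        (K.eq (K.add (K.app (K.wF he) (K.app h.nd (K.app p.gam (K.v 0))))
          (K.mul p.N (K.app h.w (K.v 0)))) (K.w ha)))))
    (K.ex (P := fun x ρ c => ∃ b < (S x).M.n, (S x).M.nd b = z x ρ ∧ (S x).port c ∧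
      (S x).port b ∧ (S x).Lf c b ∧ e x ρ ((S x).M.nd c) + (S x).Lv c b = a x ρ) h.M.1
      (K.ex (P := fun x ρ b => (S x).M.nd b = z x (tl ρ) ∧ (S x).port (hd (ρ 0)) ∧
        (S x).port b ∧ (S x).Lf (hd (ρ 0)) b ∧
          e x (tl ρ) ((S x).M.nd (hd (ρ 0))) + (S x).Lv (hd (ρ 0)) b = a x (tl ρ)) h.M.1
        (K.and (K.eq (K.app h.nd (K.v 0)) (K.w (K.w hz))) (K.and (K.appP p.port (K.v 1))
          (K.and (K.appP p.port (K.v 0)) (K.and (p.Lf _ _ (K.v 1) (K.v 0))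
            (K.eq (K.add (K.app (K.wF (K.wF he)) (K.app h.nd (K.v 1)))
              (p.Lv _ _ (K.v 1) (K.v 0))) (K.w (K.w ha))))))))))

omit h p in
theorem upC (hk : Cn κ fun x _ => k x) (hκ : ∀ x, k x + 3 ≤ κ x)
    {c d j g : List Bool → Env → ℕ} {T : List Bool → Env → List ℕ} (hc : Cn κ c) (hd : Cn κ d)
    (hj : Cn κ j) (ha : Cn κ a) (hb : Cn κ b) (hg : Cn κ g) (hT : Cm κ T) :
    Cm κ fun x ρ => up (k x) (c x ρ) (d x ρ) (j x ρ) (a x ρ) (b x ρ) (g x ρ) (T x ρ) :=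
  (kitOne κ).tab (n := fun x => k x + 3) (fun x ρ i => if i = 0 then c x ρ else if i = 1 then d x ρ
    else if i = 2 then min (gt (T x ρ) 2 + j x ρ) (g x ρ) else if i < 3 + j x ρ then
      (if i = 3 then a x ρ else b x ρ) else gt (T x ρ) (i - j x ρ)) hκ (K.add hk (K.c 3))
    (K.ite (K.eq (K.v 0) (K.c 0)) (K.w hc) (K.ite (K.eq (K.v 0) (K.c 1)) (K.w hd)
      (K.ite (K.eq (K.v 0) (K.c 2)) (K.min (K.add (K.gt (K.wL hT) (K.c 2)) (K.w hj)) (K.w hg))
        (K.ite (K.lt (K.v 0) (K.add (K.c 3) (K.w hj)))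
          (K.ite (K.eq (K.v 0) (K.c 3)) (K.w ha) (K.w hb))
          (K.gt (K.wL hT) (K.sub (K.v 0) (K.w hj)))))))

theorem stpC (hk : Cn κ fun x _ => k x) (hκ : ∀ x, k x + 3 ≤ κ x) (he : F1 κ e) (ha : Cn κ a)
    {T : List Bool → Env → List ℕ} (hT : Cm κ T) :
    Cm κ fun x ρ => stp (S x) (e x ρ) (k x) (a x ρ) (T x ρ) :=
  have z := K.gt hT (K.c 0)
  have d := K.gt hT (K.c 1)
  upC hk hκ (K.ite (K.ne d (K.c 0)) z (K.ite (K.appP p.sp z) z (K.ite (slC h p he z)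
      (svC h p he z) (K.app h.nd (laC h p he z)))))
    (K.ite (K.ne d (K.c 0)) (K.c 1) (K.ite (K.eq (jjC h p he z d) (K.c 1)) (K.c 1) (K.c 0)))
    (jjC h p he z d)
    (K.ite (K.appP p.sp z) (K.c 0) (K.ite (slC h p he z)
      (K.ite (K.eq (svC h p he z) (K.app h.f.1 z)) (K.c 1) (K.c 2)) (K.app p.blk (laC h p he z))))
    (K.app p.blk (lbC h p he z)) (K.add (K.mul (K.c 2) ha) (K.c 2)) hT

end

end Pc

open Pc in
theorem pcS : PcS := by
  intro κ k S h p hk hκ e z he hz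
  refine ⟨?_, fun a ha => hitC h p he hz ha⟩
  have k3 : ∀ x, k x + 3 ≤ κ x := fun x => le_trans (by nlinarith [Nat.zero_le (k x ^ 3), Nat.zero_le (k x ^ 2)]) (hκ x)
  have h0 : Cm κ fun x ρ => rp (k x) (z x ρ, 0, []) := by
    have := (kitOne κ).tab (n := fun x => k x + 3) (fun x ρ i => if i = 0 then z x ρ else 0) k3
      (K.add hk (K.c 3)) (K.ite (K.eq (K.v 0) (K.c 0)) (K.w hz) (K.c 0))
    convert this using 3 with x ρ
    refine tab_cg fun i _ => ?_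
    rcases i with _ | _ | _ | i <;> simp [gt]
  have hT : Cm κ fun x ρ => itr (stp (S x) (e x ρ) (k x)) (rp (k x) (z x ρ, 0, [])) (S x).Z :=
    (kitOne κ).foldL (fun x ρ => stp (S x) (e x ρ) (k x)) (fun x _ m => 2 * m + (S x).M.n + 3)
      h.Z h0 (stpC h p hk k3 (K.wF (K.wF he)) (K.v 1) (K.vL 0))
      (K.add (K.add (K.mul (K.c 2) (K.v 0)) h.M.1) (K.c 3))
      fun x ρ m acc b h1 h2 => stp_le _ m acc b h1 h2
  have hU := upC hk k3 (K.c 0) (K.c 0)
    (K.ite (i := fun _ _ => inferInstance) (K.ne (K.gt hT (K.c 1)) (K.c 0)) (K.c 0) (K.c 1))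
    (K.c 0) (K.c 0) (K.add (K.mul (K.c 2) h.Z) (K.c 2)) hT
  have := (kitOne κ).tab (n := k) (fun x ρ i => gt (up (k x) 0 0 (if gt (itr (stp (S x) (e x ρ)
    (k x)) (rp (k x) (z x ρ, 0, [])) (S x).Z) 1 ≠ 0 then 0 else 1) 0 0 (2 * (S x).Z + 2)
      (itr (stp (S x) (e x ρ) (k x)) (rp (k x) (z x ρ, 0, [])) (S x).Z)) (i + 2))
    (fun x => by have := k3 x; omega) hk (K.gt (K.wL hU) (K.add (K.v 0) (K.c 2)))
  convert this using 3 with x ρ
  exact fin _ _ _ rfl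

end Pool.Agent.MP_1a6d78_lc.DS
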