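import Pool.Agent.MP_1a6d78_lc.DS.Basic

/-! PROJECT DS, row PD: the states and the result are computable. -/

namespace Pool.Agent.MP_1a6d78_lc.DS

open Classical ED PR

namespace PdL

theorem gt_le {l : List ℕ} {b : ℕ} (h : ∀ a ∈ l, a ≤ b) (j : ℕ) : gt l j ≤ b := by
  rw [gt, List.getD_eq_getElem?_getD]
  cases e : l[j]? with
  | none => exact Nat.zero_le _
  | some a => exact h a (List.mem_of_getElem? e)

theorem tab_le {n b : ℕ} {f : ℕ → ℕ} (h : ∀ i, f i ≤ b) : ∀ a ∈ tab n f, a ≤ b := fun a ha => by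
  obtain ⟨i, -, rfl⟩ := List.mem_map.1 ha
  exact h i

theorem cls_bd (S : Sk) (e : ℕ → ℕ) (t z : ℕ) :
    (S.cls e t z).length ≤ 2 * t + 1 ∧ ∀ a ∈ S.cls e t z, a ≤ S.M.n + 2 := by
  induction t generalizing z with
  | zero => simp [Sk.cls]
  | succ t ih =>
    simp only [Sk.cls]
    split_ifs
    · simp
    · simp
    · simp
    · exact ⟨(ih _).1.trans (by omega), (ih _).2⟩
    · refine ⟨?_, fun a ha => ?_⟩
      · have := (ih (S.M.nd (S.la e z))).1
        simp only [List.length_append, List.length_cons, List.length_nil]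
        omega
      · simp only [List.mem_append, List.mem_cons, List.not_mem_nil, or_false] at ha
        rcases ha with ha | rfl | rfl
        · exact (ih _).2 a ha
        · exact (cnt_le _ _).trans (by omega)
        · exact (cnt_le _ _).trans (by omega)

theorem mkT_le (S : Sk) (k t m : ℕ) (T : List ℕ) :
    ∀ a ∈ S.mkT k (S.e1 k t T m) m, a ≤ m + 2 * S.Z + S.M.n + 3 := by
  refine tab_le fun i => ?_
  split_ifs
  · unfold Sk.e1
    split_ifs <;> omega
  · refine gt_le (tab_le fun j => gt_le (fun a ha => ?_) j) _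
    rcases List.mem_cons.1 ha with rfl | ha
    · exact (cls_bd S _ _ _).1.trans (by omega)
    · exact ((cls_bd S _ _ _).2 a ha).trans (by omega)
  · omega

variable {κ k : List Bool → ℕ} {S : List Bool → Sk} {e : List Bool → Env → ℕ → ℕ}
  {p : List Bool → Env → ℕ}

theorem act (hP : PkK κ S) (he : F1 κ e) (hp : Cn κ p) :
    P1 κ fun x ρ => (S x).act (e x ρ) (p x ρ) :=
  K.and (K.appP hP.K (K.v 0)) (K.and (K.not (K.appP hP.sp (K.v 0))) (K.le he (K.w hp)))

theorem fst (hP : PkK κ S) (hc : PcK κ k S) (hk : Cn κ fun x _ => k x) (he : F1 κ e)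
    (hp : Cn κ p) : P1 κ fun x ρ => (S x).fst (k x) (e x ρ) (p x ρ) :=
  K.and (act hP he hp) (K.all (P := fun x ρ z' => (S x).act (e x (tl ρ)) (p x (tl ρ)) z' →
      ∃ j < k x, gt ((S x).cz (k x) (e x (tl ρ)) z') j ≠
        gt ((S x).cz (k x) (e x (tl ρ)) (hd (ρ 0))) j) (K.v 0)
    (K.imp (K.wP1 (act hP he hp)) (K.ex (P := fun x ρ j =>
        gt ((S x).cz (k x) (e x (tl (tl ρ))) (hd (ρ 0))) j ≠
          gt ((S x).cz (k x) (e x (tl (tl ρ))) (hd (ρ 1))) j) hk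
      (K.ne (K.gt (K.wL (hc _ _ (K.wF (K.wF he)) (K.v 0)).1) (K.v 0))
        (K.gt (K.wL (hc _ _ (K.wF (K.wF he)) (K.v 1)).1) (K.v 0))))))

theorem mkT (hn : Cn κ fun x _ => (S x).M.n) (hP : PkK κ S) (hc : PcK κ k S)
    (hk : Cn κ fun x _ => k x) (hκ : ∀ x, k x + k x * k x ≤ κ x) (he : F1 κ e) (hp : Cn κ p) :
    Cm κ fun x ρ => (S x).mkT (k x) (e x ρ) (p x ρ) := by
  have hq := K.app (K.wF (K.sel hn (fst hP hc hk he hp))) (K.div (K.sub (K.v 0) hk) hk)
  exact (kitOne κ).tab (fun x ρ i => if i < k x then e x ρ (sel (S x).M.n (S x).sp i)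
      else if sel (S x).M.n ((S x).fst (k x) (e x ρ) (p x ρ)) ((i - k x) / k x) < (S x).M.n then
        gt ((S x).cz (k x) (e x ρ)
          (sel (S x).M.n ((S x).fst (k x) (e x ρ) (p x ρ)) ((i - k x) / k x))) ((i - k x) % k x)
      else 0) hκ (K.add hk (K.mul hk hk))
    (K.ite (K.lt (K.v 0) hk) (K.app (K.wF he) (K.app (K.sel hn hP.sp) (K.v 0)))
      (K.ite (K.lt hq hn) (K.gt (hc _ _ (K.wF he) hq).1 (K.mod (K.sub (K.v 0) hk) hk)) (K.c 0)))

end PdL

theorem pdS : PdS := by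
  intro κ k S t hS hP hc hs hE hk h3
  have hκ : ∀ x, k x + k x * k x ≤ κ x := fun x => le_trans (by nlinarith [Nat.zero_le (k x ^ 3)])
    (h3 x)
  have hn := hS.M.1
  have hT : Cm κ fun x _ => (S x).stt (k x) t (S x).Z :=
    (kitOne κ).foldL (fun x _ m T => (S x).mkT (k x) ((S x).e1 (k x) t T m) m)
      (fun x _ m => m + 2 * (S x).Z + (S x).M.n + 3) hS.Z
      ((kitOne κ).tab (fun x _ i => if i < k x then (S x).Z else 0) hκ (K.add hk (K.mul hk hk))
        (K.ite (K.lt (K.v 0) hk) hS.Z (K.c 0)))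
      (PdL.mkT hn hP hc hk hκ (hE _ _ (K.vL 0) (K.v 1)) (K.v 1))
      (K.add (K.add (K.add (K.v 0) (K.mul (K.c 2) hS.Z)) hn) (K.c 3))
      fun x _ m T _ _ h a ha => (PdL.mkT_le _ _ _ _ T a ha).trans h
  exact K.div (hs.g _ _ hT (K.app hS.nd hS.M.2.2.2.2.2)) hP.N

end Pool.Agent.MP_1a6d78_lc.DS
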