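import Pool.Agent.MP_1a6d78_lc.DS.Basic

/-! PROJECT DS, row PE: the values of one round are computable. -/

namespace Pool.Agent.MP_1a6d78_lc.DS

open Classical ED PR

namespace PeL

variable {κ k : List Bool → ℕ} {S : List Bool → Sk} {t : ℕ}

theorem rowC (hk : Cn κ fun x _ => k x) (hb : ∀ x, k x ≤ κ x) {T : List Bool → Env → List ℕ}
    {r : List Bool → Env → ℕ} (hT : Cm κ T) (hr : Cn κ r) :
    Cm κ fun x ρ => row (k x) (T x ρ) (r x ρ) :=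
  (kitOne κ).tab (fun x ρ j => gt (T x ρ) (k x + r x ρ * k x + j)) hb hk
    (K.gt (K.wL hT) (K.add (K.add hk (K.mul (K.w hr) hk)) (K.v 0)))

theorem vlC (hA : AvS) (hS : SkC κ S) (hP : PkK κ S) (hQ : PsK κ S) (hk : Cn κ fun x _ => k x)
    (hb : ∀ x, (k x + 2) ^ 3 ≤ κ x) {T : List Bool → Env → List ℕ} {z : List Bool → Env → ℕ}
    (hT : Cm κ T) (hz : Cn κ z) : Cn κ fun x ρ => (S x).vl (k x) t (T x ρ) (z x ρ) := by
  have b1 : ∀ x, (k x + 1) ^ 3 ≤ κ x := fun x =>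
    (Nat.pow_le_pow_left (Nat.le_succ _) 3).trans (hb x)
  have b0 : ∀ x, k x ≤ κ x := fun x =>
    ((Nat.le_succ _).trans (Nat.le_self_pow (by omega) _)).trans (b1 x)
  have nil : Cm κ fun _ _ => [] :=
    (kitOne κ).tab (n := fun _ => 0) (fun _ _ _ => 0) (fun _ => Nat.zero_le _) (K.c 0) (K.c 0)
  have hT2 := K.wL (K.wL hT)
  have hz2 := K.w (K.w hz)
  have hR := rowC hk b0 hT2 (K.v 1)
  have hO := hA κ k (fun x => (S x).sd) b1 hk hQ.sd t _ _ _ _ _ hT2 hR nil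
    (K.div (K.gt hR (K.c 0)) (K.c 2)) (hQ.ix _ _ hR hz2)
  refine K.ite (K.appP hP.sp hz) (hQ.g _ _ hT hz) ((kitOne κ).fold
    (fun x ρ r acc => if (S x).use (row (k x) (T x ρ) r) (z x ρ) then
      min acc ((S x).ov (k x) t (T x ρ) (row (k x) (T x ρ) r) (z x ρ)) else acc)
    (fun _ _ _ => 0) hk (hQ.d0 _ _ _ hT hz (K.app hS.f.2.1 hz))
    (K.ite (hQ.use _ _ hR hz2) (K.min (K.v 0) hO) (K.v 0)) (K.c 0) fun x ρ m acc b h _ => ?_)
  split_ifs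
  · exact (min_le_left _ _).trans h
  · exact h

end PeL

theorem peS : PeS := by
  intro hA κ k S t hS hP hC hQ hk hb T p hT hp
  have h0 : F1 κ fun x ρ => (S x).e0 (k x) t (T x ρ) (p x ρ) := by
    have h := PeL.vlC (t := t) hA hS hP hQ hk hb (K.wL hT) (K.v 0)
    exact K.ite (K.lt h (K.w hp)) h hS.Z
  have h := PeL.vlC (t := t) hA hS hP hQ hk hb (K.wL hT) (K.v 0)
  exact K.ite (K.lt h (K.w hp)) h
    (K.ite ((hC _ _ (K.wF h0) (K.v 0)).2 _ (K.w hp)) (K.w hp) hS.Z)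

end Pool.Agent.MP_1a6d78_lc.DS
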