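import Pool.Agent.MP_1a6d78_lc.DS.Basic

/-! PROJECT DS, row PK: the static data of the skeleton are computable. -/

namespace Pool.Agent.MP_1a6d78_lc.DS

open Classical ED PR

namespace Pk

variable {κ : List Bool → ℕ}

theorem ap {f : List Bool → ℕ → ℕ} (h : F1 κ fun x _ => f x) {a : List Bool → Env → ℕ}
    (ha : Cn κ a) : Cn κ fun x ρ => f x (a x ρ) := K.app h ha

theorem aq {P : List Bool → ℕ → Prop} (h : P1 κ fun x _ => P x) {a : List Bool → Env → ℕ}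
    (ha : Cn κ a) : Cp κ fun x ρ => P x (a x ρ) := K.appP h ha

variable {S : List Bool → Sk} (h : SkC κ S)
include h

theorem bel : P2 κ fun x => (S x).bel := fun a b ha hb =>
  K.and (aq h.X hb) (K.ex (P := fun x ρ t => it (S x).M.n (S x).f.par t (b x ρ) = a x ρ) h.M.1
    (K.eq (K.it (f := fun x _ => (S x).f.par) h.M.1 h.f.1 (K.v 0) (K.w hb)) (K.w ha)))

theorem kk : P1 κ fun x _ => (S x).K :=
  K.ex (P := fun x ρ y => (S x).bel (hd (ρ 0)) y) h.M.1 (bel h _ _ (K.v 1) (K.v 0))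

theorem sam : P2 κ fun x => (S x).sam := fun a b ha hb => by
  have p : ∀ c, Cn κ c → P1 κ fun x ρ y => (S x).bel (c x ρ) y := fun c hc =>
    bel h _ _ (K.w hc) (K.v 0)
  exact K.and (aq (kk h) ha) (K.and (aq (kk h) hb)
    (K.and (K.eq (K.lst h.M.1 (p a ha)) (K.lst h.M.1 (p b hb)))
      (K.and (K.eq (K.cnt h.M.1 (p a ha)) (K.cnt h.M.1 (p b hb)))
        (K.eq (K.div (ap h.f.2.1 ha) h.W) (K.div (ap h.f.2.1 hb) h.W)))))

theorem top : P1 κ fun x _ => (S x).top :=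
  K.or (K.eq (ap h.f.1 (K.v 0)) (K.v 0)) (K.not (sam h _ _ (ap h.f.1 (K.v 0)) (K.v 0)))

theorem bot : P1 κ fun x _ => (S x).bot :=
  K.not (K.ex (P := fun x ρ u => u ≠ hd (ρ 0) ∧ (S x).f.par u = hd (ρ 0) ∧
    (S x).sam u (hd (ρ 0))) h.M.1 (K.and (K.ne (K.v 0) (K.v 1))
      (K.and (K.eq (ap h.f.1 (K.v 0)) (K.v 1)) (sam h _ _ (K.v 0) (K.v 1)))))

theorem sp : P1 κ fun x _ => (S x).sp :=
  K.and (aq (kk h) (K.v 0)) (K.or (aq (top h) (K.v 0)) (aq (bot h) (K.v 0)))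

theorem tp : F1 κ fun x _ => (S x).tp :=
  K.lst (P := fun x ρ u => (S x).sam u (hd (ρ 0)) ∧ (S x).top u) h.M.1
    (K.and (sam h _ _ (K.v 0) (K.v 1)) (aq (top h) (K.v 0)))

theorem bt : F1 κ fun x _ => (S x).bt :=
  K.lst (P := fun x ρ u => (S x).sam u (hd (ρ 0)) ∧ (S x).bot u) h.M.1
    (K.and (sam h _ _ (K.v 0) (K.v 1)) (aq (bot h) (K.v 0)))

theorem len : F1 κ fun x _ => (S x).len :=
  K.sub (K.cnt (P := fun x ρ u => (S x).sam u (hd (ρ 0))) h.M.1 (sam h _ _ (K.v 0) (K.v 1)))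
    (K.c 1)

theorem vx : F3 κ fun x => (S x).vx := fun _ _ _ ha hb hc =>
  K.it (f := fun x _ => (S x).f.par) h.M.1 h.f.1
    (K.ite (K.eq hb (K.c 1)) (K.sub (ap (len h) ha) hc) (K.min hc (ap (len h) ha))) (ap (bt h) ha)

theorem hp : F1 κ fun x _ => (S x).hp := ap h.f.2.1 (ap h.nd (K.v 0))

theorem nn : Cn κ fun x _ => (S x).N := K.add h.M.1 (K.c 1)

theorem w1 : F1 κ fun x _ => (S x).w1 := K.add (K.mul (nn h) (ap h.w (K.v 0))) (K.c 1)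

theorem nb {a : List Bool → Env → ℕ} (ha : Cn κ a) :
    Cn κ fun x ρ => (S x).M.nd ((S x).M.β (a x ρ)) := ap h.nd (ap h.M.2.2.1 ha)

theorem lf : P2 κ fun x => (S x).Lf := fun _ _ ha hb =>
  K.or (K.eq (ap h.M.2.2.1 ha) hb) (K.and (K.not (aq (kk h) (nb h ha)))
    (K.and (K.not (aq (kk h) (nb h hb))) (K.lt (h.o _ _ (nb h ha) (nb h hb)) h.Z)))

theorem lv : F2 κ fun x => (S x).Lv := fun _ _ ha hb =>
  K.ite (K.eq (ap h.M.2.2.1 ha) hb) (ap (w1 h) ha)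
    (K.add (K.add (ap (w1 h) ha) (h.o _ _ (nb h ha) (nb h hb))) (ap (w1 h) hb))

variable (ht : F1 κ fun x _ => ((S x).M.F (S x).f).tau)
include ht

theorem gam : F1 κ fun x _ => (S x).gam :=
  K.ite (K.and (aq (kk h) (ap h.nd (K.v 0))) (aq (kk h) (ap h.nd (ap ht (K.v 0)))))
    (ap ht (K.v 0)) (K.v 0)

theorem pos : F1 κ fun x _ => (S x).pos :=
  (aFm κ).2 (fun x _ => (S x).M.n) (fun x _ => (S x).psi)
    (fun x _ e => ¬(S x).K ((S x).M.nd e) ∨ (S x).f.par ((S x).M.nd e) = (S x).M.nd e) h.M.1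
    (ap h.M.2.1 (ap (gam h ht) (K.v 0)))
    (K.or (K.not (aq (kk h) (ap h.nd (K.v 0))))
      (K.eq (ap h.f.1 (ap h.nd (K.v 0))) (ap h.nd (K.v 0))))

theorem port : P1 κ fun x _ => (S x).port :=
  K.and (K.lt (K.v 0) h.M.1) (K.and (aq (kk h) (ap h.nd (K.v 0)))
    (K.and (K.eq (ap (gam h ht) (K.v 0)) (K.v 0)) (K.ne (ap h.M.2.2.1 (K.v 0)) (K.v 0))))

theorem cut : P1 κ fun x _ => (S x).cut :=
  K.and (K.ne (ap (gam h ht) (K.v 0)) (K.v 0)) (K.or (aq (sp h) (ap h.nd (K.v 0)))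
    (aq (sp h) (ap h.nd (ap (gam h ht) (K.v 0)))))

theorem blk : F1 κ fun x _ => (S x).blk :=
  K.cnt (P := fun x ρ e => (S x).cut e ∧ (S x).pos e < (S x).pos (hd (ρ 0))) h.M.1
    (K.and (aq (cut h ht) (K.v 0)) (K.lt (ap (pos h ht) (K.v 0)) (ap (pos h ht) (K.v 1))))

theorem inc : P1 κ fun x _ => (S x).inc :=
  K.all (P := fun x ρ a => ∀ b < (S x).M.n, (S x).port a → (S x).port b →
      (S x).blk a = hd (ρ 0) → (S x).blk b = hd (ρ 0) → (S x).pos a ≤ (S x).pos b →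
        (S x).hp a ≤ (S x).hp b) h.M.1
    (K.all (P := fun x ρ b => (S x).port (hd (ρ 0)) → (S x).port b →
        (S x).blk (hd (ρ 0)) = hd (ρ 1) → (S x).blk b = hd (ρ 1) →
        (S x).pos (hd (ρ 0)) ≤ (S x).pos b → (S x).hp (hd (ρ 0)) ≤ (S x).hp b) h.M.1
      (K.imp (aq (port h ht) (K.v 1)) (K.imp (aq (port h ht) (K.v 0))
        (K.imp (K.eq (ap (blk h ht) (K.v 1)) (K.v 2)) (K.imp (K.eq (ap (blk h ht) (K.v 0)) (K.v 2))
          (K.imp (K.le (ap (pos h ht) (K.v 1)) (ap (pos h ht) (K.v 0)))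
            (K.le (ap (hp h) (K.v 1)) (ap (hp h) (K.v 0)))))))))

theorem rep : F1 κ fun x _ => (S x).rep :=
  K.lst (P := fun x ρ a => (S x).port a ∧ (S x).blk a = hd (ρ 0)) h.M.1
    (K.and (aq (port h ht) (K.v 0)) (K.eq (ap (blk h ht) (K.v 0)) (K.v 1)))

end Pk

theorem pkS : PkS := fun hF κ S h =>
  have ht : F1 κ fun x _ => ((S x).M.F (S x).f).tau :=
    ((aFm κ).1 _ (hF κ (fun x => (S x).M) (fun x => (S x).f) h.M h.nd h.f).1).1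
  ⟨Pk.kk h, Pk.gam h ht, Pk.sam h, Pk.sp h, Pk.tp h, Pk.bt h, Pk.vx h, Pk.port h ht, Pk.blk h ht,
    Pk.hp h, Pk.inc h ht, Pk.rep h ht, Pk.nn h, Pk.lf h, Pk.lv h⟩

end Pool.Agent.MP_1a6d78_lc.DS
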