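import Pool.Agent.MP_1a6d78_lc.DS.Basic

/-! PROJECT DS, row PN: one level is computable. -/

namespace Pool.Agent.MP_1a6d78_lc.DS

open Classical ED PR

namespace Pn

variable {r : ℕ} {φ : List Bool → ℕ} {κ : List Bool → ℕ} {f : List Bool → Fo}

theorem orcC (hP : PoS) (pi : PiK r) (hφ : Ev (bs r) fun κ => Cn κ fun x _ => φ x)
    (h1 : ∀ y, φ y ≤ 1) (A : List Bool → ℕ → Prop) (w : List Bool → ℕ → ℕ)
    (h : Ev (bs r) fun κ => (P1 κ fun x _ => A x) ∧ F1 κ fun x _ => w x) :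
    Ev (bs r) fun κ => F2 κ fun x => orc φ x (A x) (w x) :=
  (hP r (bs r) φ pi pi.bs hφ h1 (fun x => sub (inp x) (A x)) w (h.imp fun κ _ k =>
    ⟨K.ite (K.and (K.not (K.appP k.1 (pi.nd κ)))
      (K.not (K.appP k.1 (K.app (pi.nd κ) (pi.M κ).2.2.1)))) (pi.M κ).2.2.1 (K.v 0), k.2⟩)).imp
    fun κ _ o a b ha hb => K.lst (P := fun x ρ θ => θ = Zx x ∨
      φ (vy x (sub (inp x) (A x)) (w x) (a x ρ) (b x ρ) θ) = 1) (K.add (pi.Z κ) (K.c 1))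
      (K.or (K.eq (K.v 0) (pi.Z κ)) (K.eq (o _ _ _ (K.w ha) (K.w hb) (K.v 0)) (K.c 1)))

theorem plC (hF : FmC) (pi : PiK r) {R : List Bool → ℕ} (hR : Cn κ fun x _ => R x)
    (hf : Fo.C κ f) : Fo.C κ fun x => pl (inp x) (f x) (R x) :=
  have pos := (hF κ inp f (pi.M κ) (pi.nd κ) hf).2.1
  ⟨hf.1, hf.2.1, hf.2.2.1, hf.2.2.2.1, K.or hf.2.2.2.2 (K.and hf.2.2.2.1 (K.eq (K.mod
    (K.cnt (P := fun x ρ u => (f x).live u ∧
      ((inp x).L (f x)).pos u < ((inp x).L (f x)).pos (hd (ρ 0))) (pi.M κ).1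
      (K.and hf.2.2.2.1 (K.lt pos (K.app pos (K.v 1))))) hR) (K.c 0)))⟩

theorem ldC (pi : PiK r) (e : ∀ x, bs r x ≤ κ x) (hf : Fo.C κ f) :
    (P1 κ fun x _ => ((inp x).ld (Dx r x) (f x)).K) ∧
      P1 κ fun x _ => (inp x).X (Dx r x) (f x) :=
  have h := (aLd aFm aLn (aPt aFm aLn aBall) κ (Dx r) inp (pi.M κ) (K.mul (K.c 5000) (pi.ro κ))
    fun x => (pi.D x).trans (e x)).2.2 f hf
  ⟨h.1.2.1, h.2⟩

theorem nxC (hF : FmC) (pi : PiK r) {A X : List Bool → ℕ → Prop} {o : List Bool → ℕ → ℕ → ℕ}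
    (hf : Fo.C κ f) (hA : P1 κ fun x _ => A x) (hX : P1 κ fun x _ => X x) (ho : F2 κ o) :
    Fo.C κ fun x => nxF (inp x) (wt x) (Wx x) (f x) (A x) (X x)
      (dK (inp x) (wt x) (A x) (o x) (Zx x)) := by
  have hn := (pi.M κ).1
  have hβ := (pi.M κ).2.2.1
  have nd := pi.nd κ
  have n0 : Cn κ fun x ρ => (inp x).nd (hd (ρ 0)) := nd
  have nb : Cn κ fun x ρ => (inp x).nd ((inp x).β (hd (ρ 0))) := K.app nd hβ
  have o1 : Cn κ fun x ρ => o x (hd (ρ 1)) ((inp x).nd (hd (ρ 0))) := ho _ _ (K.v 1) n0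
  have δ : F1 κ fun x _ => dK (inp x) (wt x) (A x) (o x) (Zx x) :=
    K.ite hA (K.c 0) ((hF κ inp f (pi.M κ) nd hf).2.2 (fun x _ => (inp x).n)
      (fun x ρ d => (inp x).β d ≠ d ∧ ¬A x ((inp x).nd d) ∧ A x ((inp x).nd ((inp x).β d)) ∧
        o x (hd (ρ 0)) ((inp x).nd d) < Zx x)
      (fun x ρ d => o x (hd (ρ 0)) ((inp x).nd d) + wt x d) hn
      (K.and (K.ne hβ (K.v 0)) (K.and (K.not (K.appP hA n0))
        (K.and (K.appP hA nb) (K.lt o1 (pi.Z κ))))) (K.add o1 (pi.wt κ)))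
  exact ⟨K.ite hA hf.1 (K.app nd (K.app hβ (K.lst (P := fun x ρ d => (inp x).nd d = hd (ρ 0) ∧
      (inp x).β d ≠ d ∧ wt x d + dK (inp x) (wt x) (A x) (o x) (Zx x) ((inp x).nd ((inp x).β d)) =
        dK (inp x) (wt x) (A x) (o x) (Zx x) (hd (ρ 0))) hn
      (K.and (K.eq n0 (K.v 1)) (K.and (K.ne hβ (K.v 0))
        (K.eq (K.add (pi.wt κ) (K.app δ nb)) (K.app δ (K.v 1)))))))),
    K.ite hA hf.2.1 (K.add hf.2.2.1 δ), K.add hf.2.2.1 (pi.W κ), hf.2.2.2.1, hX⟩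

theorem xsC (hF : FmC) (pi : PiK r) (e : ∀ x, bs r x ≤ κ x) (hf : Fo.C κ f) :
    (P1 κ fun x _ => xs x (Dx r x) (f x)) ∧
      P1 κ fun x _ => anc (inp x).n (f x).par (xs x (Dx r x) (f x)) :=
  have hn := (pi.M κ).1
  have X : P1 κ fun x _ => xs x (Dx r x) (f x) :=
    K.or (ldC pi e hf).2 (K.or
      (K.ex (P := fun x ρ d => ((inp x).F (f x)).con d ∧ (inp x).nd d = hd (ρ 0)) hn
        (K.and ((aFm κ).1 _ (hF κ inp f (pi.M κ) (pi.nd κ) hf).1).2 (K.eq (pi.nd κ) (K.v 1))))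
      (K.and (K.eq (K.v 0) (K.app (pi.nd κ) (pi.M κ).2.2.2.2.2)) hf.2.2.2.1))
  ⟨X, K.ex (P := fun x ρ y => xs x (Dx r x) (f x) y ∧
    ∃ t < (inp x).n, it (inp x).n (f x).par t y = hd (ρ 0)) hn (K.and X
      (K.ex (P := fun x ρ t => it (inp x).n (f x).par t (hd (ρ 0)) = hd (ρ 1)) hn
        (K.eq (K.it hn hf.1 (K.v 0) (K.v 1)) (K.v 2))))⟩

end Pn

open Pn in
theorem pnS : PnS := by
  intro hF hP r φ R pi hφ h1 hR
  refine ⟨fun l => ?_, fun f hf => ?_⟩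
  · induction l with
    | zero =>
      exact Ev.all fun κ => plC (f := fun x => f1 (inp x) (Wx x)) hF pi (hR κ)
        ⟨K.v 0, K.c 0, pi.W κ, pi.lv κ, pi.lv κ⟩
    | succ l ih =>
      refine (ih.and (orcC hP pi hφ h1
        (fun x => ((inp x).ld (Dx r x) (lev φ x (Dx r x) (R x) l)).K) (fun x d => 1 * wt x d + 0)
        (ih.imp fun κ e k => ⟨(ldC pi e k).1,
          K.add (K.mul (K.c 1) (pi.wt κ)) (K.c 0)⟩))).imp fun κ e k => ?_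
      exact plC (f := fun x => nxt φ x (Dx r x) (lev φ x (Dx r x) (R x) l)) hF pi (hR κ)
        (nxC hF pi k.1 (ldC pi e k.1).1 (ldC pi e k.1).2 k.2)
  · exact (hf.and (orcC hP pi hφ h1 (fun x => anc (inp x).n (f x).par (xs x (Dx r x) (f x)))
      (fun x d => (num x 0 + 1) * wt x d + 1) (hf.imp fun κ e k => ⟨(xsC hF pi e k).2,
        K.add (K.mul (K.add (pi.M κ).1 (K.c 1)) (pi.wt κ)) (K.c 1)⟩))).imp fun κ e k =>
      ⟨pi.M κ, pi.nd κ, pi.wt κ, pi.W κ, k.1, (xsC hF pi e k.1).1, k.2, pi.Z κ⟩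

end Pool.Agent.MP_1a6d78_lc.DS
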