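import Pool.Agent.MP_1a6d78_lc.DS.Basic
import Pool.Agent.MP_1a6d78_lc.GM.Vin
import Pool.Agent.MP_1a6d78_lc.GM.RecC

/-! PROJECT DS, row PO: a call on a virtual instance is computable. -/

namespace Pool.Agent.MP_1a6d78_lc.DS

open Classical ED PR

namespace Po

def ps (e : ℕ → ℕ) (i : ℕ) : ℕ := ∑ j ∈ Finset.range i, (e j + 1)

theorem un_succ (e : ℕ → ℕ) (M : ℕ) :
    unary (tab (M + 1) e) = unary (tab M e) ++ (List.replicate (e M) true ++ [false]) := by
  simp [unary, tab, List.range_succ]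

theorem un_len (e : ℕ → ℕ) : ∀ M, (unary (tab M e)).length = ps e M
  | 0 => rfl
  | M + 1 => by
    rw [un_succ, List.length_append, un_len e M, ps, ps, Finset.sum_range_succ]
    simp

theorem ps_mono (e : ℕ → ℕ) {i j : ℕ} (h : i ≤ j) : ps e i ≤ ps e j :=
  Finset.sum_le_sum_of_subset (Finset.range_mono h)

theorem un_bit (e : ℕ → ℕ) (p : ℕ) : ∀ M, bit (unary (tab M e)) p =
    if p < ps e M ∧ ∀ i < M, p + 1 ≠ ps e (i + 1) then 1 else 0
  | 0 => by simp [bit, unary, tab, ps]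
  | M + 1 => by
    have a : ps e (M + 1) = ps e M + (e M + 1) := Finset.sum_range_succ _ _
    have ih := un_bit e p M
    rw [bit] at ih ⊢
    rw [un_succ]
    rcases lt_or_ge p (ps e M) with h | h
    · rw [List.getElem?_append_left (by rwa [un_len]), ih]
      refine if_congr ⟨fun k => ⟨by omega, fun i hi => ?_⟩, fun k => ⟨h, fun i hi => k.2 i (by omega)⟩⟩
        rfl rfl
      rcases Nat.lt_succ_iff_lt_or_eq.1 hi with hi | rfl
      · exact k.2 i hi
      · omega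
    · rw [List.getElem?_append_right (by rwa [un_len]), un_len]
      refine if_congr ⟨fun k => ?_, fun k => ?_⟩ rfl rfl
      · have : p - ps e M < e M := by
          by_contra c
          rw [List.getElem?_append_right (by simpa using c)] at k
          rcases Nat.eq_zero_or_pos (p - ps e M - (List.replicate (e M) true).length) with z | z
          · rw [z] at k; simp at k
          · rw [List.getElem?_eq_none (by simp at z ⊢; omega)] at k; simp at k
        refine ⟨by omega, fun i hi => ?_⟩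
        rcases Nat.lt_succ_iff_lt_or_eq.1 hi with hi | rfl
        · have := ps_mono e (show i + 1 ≤ M from hi); omega
        · omega
      · have := k.2 M M.lt_succ_self
        have := k.1
        rw [List.getElem?_append_left (by simp; omega), List.getElem?_replicate, if_pos (by omega)]

theorem ps_le {e : ℕ → ℕ} {N : ℕ} (h : ∀ i, e i ≤ N) (M : ℕ) : ps e M ≤ M * (N + 1) := by
  refine (Finset.sum_le_card_nsmul _ _ (N + 1) fun i _ => Nat.succ_le_succ (h i)).trans ?_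
  simp

theorem pg {κ f : List Bool → ℕ} (h : Cn κ fun x _ => f x) : GM.Pg κ f := by
  obtain ⟨c, -, h⟩ := h
  obtain ⟨p, hp⟩ := h (fun _ => 0) 1 fun _ => Nat.one_pos
  exact ⟨p, 1, c, fun x B h1 h2 h3 => ⟨_, hp x (fun _ => []) B ⟨h1, h2, h3, by simp⟩
    (fun _ => Nat.zero_le _) fun _ _ => rfl, by simp [hd]⟩⟩

theorem nle (x : List Bool) (i : ℕ) : num x i ≤ x.length :=
  (Finset.sum_le_card_nsmul _ _ 1 fun p _ => by unfold bit; split_ifs <;> omega).trans (by simp)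

theorem pw_le (x : List Bool) {a b : ℕ} (h : a ≤ b) : (x.length + 2) ^ a ≤ (x.length + 2) ^ b :=
  Nat.pow_le_pow_right (by omega) h

theorem lt_pw (x : List Bool) (a : ℕ) : a < (x.length + 2) ^ a := Nat.lt_pow_self (by omega)

variable (x : List Bool) (β w : ℕ → ℕ) (u v θ : ℕ)

theorem bs_vy (r : ℕ) : bs r (vy x β w u v θ) = bs r x := by
  have h : num (vy x β w u v θ) 0 = num x 0 := by
    have := nle x 0
    have := pw_le x (show 1 ≤ 4 by omega)
    refine (ED.Code.num_unary _ _).trans ((gt_tb _ (by omega)).trans ?_)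
    rw [pow_one] at this
    rw [ent, if_pos rfl, Zx]
    omega
  simp only [bs, kx, Dx, h]

theorem len_vy : (vy x β w u v θ).length ≤ (x.length + 2) ^ 8 := by
  refine ((un_len _ _).trans_le (ps_le (N := Zx x) (fun i => min_le_left _ _) _)).trans ?_
  have := nle x 0
  have h : 1 ≤ Zx x := Nat.one_le_pow _ _ (by omega)
  calc _ ≤ (x.length + 2) ^ 4 * Zx x := by
        refine (Nat.mul_le_mul (show _ ≤ 4 * (x.length + 2) by omega)
          (show _ ≤ 2 * Zx x by omega)).trans ?_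
        have : 2 ^ 3 ≤ (x.length + 2) ^ 3 := Nat.pow_le_pow_left (by omega) 3
        rw [pow_succ _ 3]
        nlinarith [Nat.mul_le_mul_right ((x.length + 2) * Zx x) this]
    _ = _ := by rw [Zx, ← pow_add]

theorem vy_min {q : ℕ} (h : Zx x ≤ q) :
    vy x β w (min q u) (min q v) (min q θ) = vy x β w u v θ := by
  unfold vy
  refine congrArg unary (tab_cg fun i _ => ?_)
  unfold ent
  split_ifs <;> omega

end Po

open Po

theorem poS : PoS := by
  rintro r b φ hi hb ⟨A1, h1⟩ hφ β w ⟨A2, h2⟩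
  obtain ⟨e, he⟩ := hb.pol
  have b8 : ∀ x, 8 ≤ bs r x := fun x => Nat.pow_le_pow_left (Nat.le_add_left 2 _) 3
  have b9 : ∀ x, 8 ≤ b x := fun x => (b8 x).trans (hb.le x)
  obtain ⟨κ0, k0⟩ : ∃ κ0 : List Bool → ℕ, κ0 = fun x => (A1 + 1 + A2) * b x := ⟨_, rfl⟩
  obtain ⟨q, eq⟩ : ∃ q : List Bool → ℕ, q = fun x => (x.length + 2) ^ (A1 + 1 + e + 8) := ⟨_, rfl⟩
  have q8 : ∀ x, (x.length + 2) ^ 8 ≤ q x := fun x => eq ▸ pw_le x (by omega)
  have k8 : ∀ x, 8 ≤ κ0 x := fun x => k0 ▸ (b9 x).trans (Nat.le_mul_of_pos_left _ (by omega))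
  obtain ⟨cβ, cw⟩ := h2 κ0 fun x => k0 ▸ Nat.mul_le_mul_right _ (by omega)
  have cn : Cn κ0 fun x _ => num x 0 := K.app (hi.num κ0) (K.c 0)
  have cM : Cn κ0 fun x _ => 4 + num x 0 + num x 0 + num x 0 :=
    K.add (K.add (K.add (K.c 4) cn) cn) cn
  have ce : F1 κ0 fun x ρ => ent x (β x) (w x) (gt (ρ 0) 0) (gt (ρ 0) 1) (gt (ρ 0) 2) :=
    K.min (hi.Z κ0) (K.ite (K.eq (K.v 0) (K.c 0)) cn
      (K.ite (K.eq (K.v 0) (K.c 1)) (K.gt (K.vL 1) (K.c 0))
      (K.ite (K.eq (K.v 0) (K.c 2)) (K.gt (K.vL 1) (K.c 1))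
      (K.ite (K.eq (K.v 0) (K.c 3)) (K.gt (K.vL 1) (K.c 2))
      (K.ite (K.lt (K.v 0) (K.add (K.c 4) cn)) (hi.num κ0)
      (K.ite (K.lt (K.v 0) (K.add (K.add (K.c 4) cn) cn))
        (K.app cβ (K.sub (K.v 0) (K.add (K.c 4) cn)))
        (K.app cw (K.sub (K.v 0) (K.add (K.add (K.c 4) cn) cn)))))))))
  have cp : F1 κ0 fun x ρ => ps (ent x (β x) (w x) (gt (ρ 0) 0) (gt (ρ 0) 1) (gt (ρ 0) 2)) :=
    (kitOne κ0).sum (fun x ρ j => ent x (β x) (w x) (gt (ρ 1) 0) (gt (ρ 1) 1) (gt (ρ 1) 2) j + 1)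
      (K.v 0) (K.add (K.wF ce) (K.c 1))
  have cF : SC.Nq κ0 q q fun x _ ρ =>
      φ (vy x (β x) (w x) (gt (ρ 0) 0) (gt (ρ 0) 1) (gt (ρ 0) 2)) := by
    refine GM.vin (fun y => (A1 + 1) * bs r y) φ
      (pg (h1 _ fun y => Nat.mul_le_mul_right _ (by omega)))
      (fun y => Nat.mul_pos (by omega) (by have := b8 y; omega)) hφ κ0 q q
      (fun x _ ρ => vy x (β x) (w x) (gt (ρ 0) 0) (gt (ρ 0) 1) (gt (ρ 0) 2)) (fun x _ ρ => ?_)
      (SC.Q.lift (K.cg (K.app cp cM) fun x ρ => (un_len _ _).symm))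
      (SC.Q.lift (K.cg (K.ite (i := fun _ _ => instDecidableAnd)
        (K.and (K.lt (K.v 0) (K.w (K.app cp cM)))
          (K.all (P := fun x ρ i => hd (ρ 0) + 1 ≠
            ps (ent x (β x) (w x) (gt (ρ 1) 0) (gt (ρ 1) 1) (gt (ρ 1) 2)) (i + 1)) cM
            (K.ne (K.add (K.v 1) (K.c 1)) (K.cg (K.app (K.wF (K.wF cp)) (K.add (K.v 0) (K.c 1)))
              fun _ _ => rfl)))) (K.c 1) (K.c 0)) fun x ρ => (un_bit _ _ _).symm))
    refine ⟨(len_vy ..).trans (q8 x), ?_, ?_⟩ <;> simp only [bs_vy]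
    · exact k0 ▸ Nat.mul_le_mul (by omega) (hb.le x)
    · refine eq ▸ (Nat.mul_le_mul (lt_pw x _).le ((hb.le x).trans (he x))).trans ?_
      rw [← pow_add]
      exact pw_le x (by omega)
  obtain ⟨E, hE⟩ := GM.recC κ0 q q (fun _ => 1)
    (fun x _ l => φ (vy x (β x) (w x) (gt l 0) (gt l 1) (gt l 2))) (A1 + 1 + e + 8 + 1) cF
    (fun x _ _ => (hφ _).trans ((Nat.one_le_pow _ _ (by omega)).trans (q8 x)))
    (fun x => by have := k8 x; omega) fun x => by
      have := (lt_pw x 8).le.trans (q8 x)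
      have e' : (x.length + 2) ^ (A1 + 1 + e + 8 + 1) = q x * (x.length + 2) := by rw [eq, pow_succ]
      rw [e', pow_one]
      refine ⟨?_, ?_, ?_⟩ <;> nlinarith
  refine ⟨E * (A1 + 1 + A2 + 1) * 2 + 1, fun κ hκ a1 a2 a3 c1 c2 c3 => ?_⟩
  have k3 : ∀ x, 3 ≤ κ x := fun x => by
    have := hκ x
    have := b9 x
    rw [Nat.add_mul] at *
    omega
  have cR := hE κ (fun x => le_trans (by
      have := b9 x
      rw [k0]
      nlinarith [Nat.mul_le_mul_left E (show 1 ≤ b x by omega)]) (hκ x)) (K.c 1)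
    (k0 ▸ K.mul (K.c _) (hb.c κ)) (eq ▸ K.pow _ (K.add (kitOne κ).len (K.c 2)))
  refine K.cg ((kitA κ).bind _ _ ((kitOne κ).tab (n := fun _ => 3)
    (fun x ρ i => if i = 0 then a1 x ρ else if i = 1 then a2 x ρ else a3 x ρ) k3 (K.c 3)
    (K.ite (K.eq (K.v 0) (K.c 0)) (K.w c1) (K.ite (K.eq (K.v 0) (K.c 1)) (K.w c2) (K.w c3)))) cR)
    fun x ρ => ?_
  have := k8 x
  refine Eq.trans ?_ (congrArg φ (vy_min x _ _ _ _ _ ((pw_le x (by omega)).trans (q8 x))))
  simp only [rc, GM.clip]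
  rw [gt_tb _ (by omega), gt_tb _ (by omega), gt_tb _ (by omega)]
  rfl

end Pool.Agent.MP_1a6d78_lc.DS
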