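import Pool.Agent.MP_1a6d78_lc.DS.Basic
import Pool.Agent.MP_1a6d78_lc.GM.BoxQ

/-! PROJECT DS, row POT: the number of darts that reach a vertex is a computable potential. -/

namespace Pool.Agent.MP_1a6d78_lc.DS

open Classical ED PR

namespace PotAux

variable {M : Mp} {u : ℕ → Prop}

theorem sc_wk (h : Pm M.n M.ρ) {a b : ℕ} (ha : a < M.n) (k : Sc M.n M.ρ a b) :
    PL.Wk M.n M.ρ M.β u a b :=
  Sc.ind h.1 (Q := fun d => PL.Wk M.n M.ρ M.β u a d) ha .refl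
    (fun _ hd i => i.tail ⟨hd, Or.inl rfl⟩) k

theorem to_nd (h : Pm M.n M.ρ) {d : ℕ} (hd : d < M.n) : PL.Wk M.n M.ρ M.β u d (M.nd d) :=
  sc_wk h hd (Mp.nd_spec hd).2

theorem of_nd (h : Pm M.n M.ρ) {d : ℕ} (hd : d < M.n) : PL.Wk M.n M.ρ M.β u (M.nd d) d :=
  sc_wk h (Mp.nd_spec hd).1 ((Mp.nd_spec hd).2.symm h hd)

/-- A usable dart carries the reachability from its vertex to the other end. -/
theorem arc (h : Pm M.n M.ρ) (hi : Iv M.n M.β) {d a : ℕ} (hd : d < M.n) (hu : u d)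
    (k : PL.Wk M.n M.ρ M.β u a (M.nd d)) : PL.Wk M.n M.ρ M.β u a (M.nd (M.β d)) :=
  ((k.trans (of_nd h hd)).tail ⟨hd, Or.inr ⟨hu, rfl⟩⟩).trans (to_nd h (hi d hd).1)

theorem clip_hd {k b : ℕ} (h : 1 ≤ k) (l : List ℕ) : gt (GM.clip k b l) 0 = min b (hd l) := by
  rw [GM.clip, gt_tb _ h]
  cases l <;> rfl

end PotAux

open PotAux in
theorem potS : PotS := by
  intro hC r hP _
  obtain ⟨bx, b1, b2⟩ := GM.boxQ
  obtain ⟨A, hA⟩ := b2 1
  have l1 : ∀ x, 1 ≤ SC.lg x ^ 2 := fun x => Nat.one_le_pow _ _ (Nat.succ_pos _)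
  have nl : ∀ x : List Bool, num x 0 ≤ (x.length + 2) ^ (A + 1) := fun x =>
    ((RowKk.num_le x 0).trans (Nat.le_add_right _ 2)).trans (Nat.le_self_pow (by omega) _)
  have cn : ∀ κ, Cn κ fun x _ => num x 0 := fun κ => (hP.M κ).1
  have cu : ∀ κ, P1 κ fun x _ => us x := fun κ =>
    K.eq (K.app (hP.num κ) (K.add (K.add (K.add (K.add (K.c 4) (cn κ)) (cn κ)) (cn κ)) (K.v 0)))
      (K.c 1)
  have hF : SC.Nq (fun x => (A + 1) * SC.lg x ^ 2) (fun x => (x.length + 2) ^ (A + 1))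
      (fun x => (x.length + 2) ^ (A + 1)) fun x _ ρ =>
        cnt (num x 0) fun a => bx (num x 0) (inp x).ρ (inp x).β (us x) a (gt (ρ 0) 0) :=
    SC.Q.cnt (P := fun x _ ρ a => bx (num x 0) (inp x).ρ (inp x).β (us x) a (gt (ρ 0) 0))
      (SC.Q.lift (cn _)) (fun x _ _ => nl x)
      (hA _ _ _ (fun x => num x 0) (fun x => ⟨(RowKk.num_le x 0).trans (by rw [pow_one]; omega),
          Nat.mul_le_mul_right _ (Nat.le_succ _), Nat.pow_le_pow_right (by omega) (Nat.le_succ _)⟩)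
        (SC.Q.lift (cn _)) (fun x _ _ => (inp x).ρ) (fun x _ _ => (inp x).β) (fun x _ _ => us x)
        (fun _ _ ρ => hd (ρ 0)) (fun _ _ ρ => gt (ρ 1) 0) (SC.Q.lift (hP.M _).2.1)
        (SC.Q.lift (hP.M _).2.2.1) (SC.Q.liftP (cu _)) (SC.Q.v 0)
        (SC.Q.gt (SC.Q.vL 1) (SC.Q.c 0)))
  have k1 : ∀ x, 1 ≤ (A + 1) * SC.lg x ^ 2 := fun x => Nat.mul_pos (Nat.succ_pos _) (l1 x)
  obtain ⟨E, hE⟩ := GM.recC _ _ _ (fun _ => 1) (fun x _ l =>
      cnt (num x 0) fun a => bx (num x 0) (inp x).ρ (inp x).β (us x) a (gt l 0)) (A + 2) hF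
    (fun x _ _ => (cnt_le _ _).trans (nl x)) k1 fun x => by
      have e1 : (x.length + 2) ^ (A + 2) = (x.length + 2) ^ (A + 1) * (x.length + 2) := pow_succ _ _
      have e2 : x.length + 2 ≤ (x.length + 2) ^ (A + 1) := Nat.le_self_pow (by omega) _
      rw [pow_one, e1]
      refine ⟨?_, ?_, ?_⟩ <;> nlinarith
  refine ⟨fun x v => cnt (num x 0) fun a => bx (num x 0) (inp x).ρ (inp x).β (us x) a
    (min ((x.length + 2) ^ (A + 1)) v), ⟨E * (A + 2) * 2, fun κ hκ => ?_⟩, ?_⟩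
  · refine K.cg (hE κ (fun x => le_trans ?_ (hκ x)) (K.c 1)
      (K.mul (K.c _) (K.pow 2 (SC.lgC κ))) (K.pow _ (K.add (kitOne κ).len (K.c 2)))) fun x ρ => ?_
    · have e1 := l1 x
      have e2 : SC.lg x ^ 2 ≤ bl r x := Nat.le_add_left _ _
      have e3 : (A + 1) * SC.lg x ^ 2 + 1 ≤ (A + 2) * bl r x := by nlinarith
      calc _ ≤ E * ((A + 2) * bl r x) * 2 := Nat.mul_le_mul_right _ (Nat.mul_le_mul_left _ e3)
        _ = _ := by ring
    · simp only [rc, clip_hd (k1 x)]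
  intro n σ α dir w s t θ x h1 h2 h3 hM
  obtain ⟨ok, g0, e0, -, -, -, ea, -⟩ := hC σ α dir w s t θ x h1 h2 h3
  clear h3
  subst e0
  have pm : Pm (inp x).n (inp x).ρ := ok.pm
  have iv : Iv (inp x).n (inp x).β := ok.iv
  have ed : dir = fun a : Fin (num x 0) => decide (us x a) := funext fun a => by
    rw [(ea a).2.2.2]
    simp
  have rw' : ∀ a b : Fin (num x 0), Reach σ α dir a b ↔
      PL.Wk (inp x).n (inp x).ρ (inp x).β (us x) a b := fun a b =>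
    ed ▸ GM.Bq.reach_wk σ α (fun a => (ea a).1) (fun a => (ea a).2.1) a b
  have ev : ∀ v < (inp x).n, (cnt (num x 0) fun a => bx (num x 0) (inp x).ρ (inp x).β (us x) a
      (min ((x.length + 2) ^ (A + 1)) v)) =
      cnt (inp x).n fun a => PL.Wk (inp x).n (inp x).ρ (inp x).β (us x) a v := fun v hv => by
    rw [min_eq_right ((le_of_lt hv).trans (nl x))]
    exact cnt_congr fun a ha => b1 _ _ _ _ _ _ pm iv g0 ha hv
  refine ⟨fun v => cnt_le _ _, fun d hd u1 u2 => ⟨?_, ?_⟩, fun d hd u1 u2 => ?_⟩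
  · have eb : (inp x).β d = α ⟨d, hd⟩ := (ea ⟨d, hd⟩).2.1
    rcases hM ⟨d, hd⟩ ((ea ⟨d, hd⟩).2.2.2.1 u1) with k | k
    · rw [eb, (ea _).2.2.1, k.2]
      exact (ea ⟨d, hd⟩).2.2.1.symm
    · refine absurd ((rw' _ _).2 ?_) k
      rw [← eb]
      exact .single ⟨(iv d hd).1, Or.inr ⟨u2, (iv d hd).2.symm⟩⟩
  · beta_reduce
    rw [ev _ (Mp.nd_spec hd).1, ev _ (Mp.nd_spec (iv d hd).1).1]
    refine cnt_congr fun a _ => ⟨arc pm iv hd u1, fun k => ?_⟩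
    have := arc pm iv (iv d hd).1 u2 k
    rwa [(iv d hd).2] at this
  · have eb : (inp x).β d = α ⟨d, hd⟩ := (ea ⟨d, hd⟩).2.1
    beta_reduce
    rw [ev _ (Mp.nd_spec hd).1, ev _ (Mp.nd_spec (iv d hd).1).1]
    refine cnt_lt (fun a _ => arc pm iv hd u1) (iv d hd).1 (to_nd pm (iv d hd).1) fun k => ?_
    rcases hM ⟨d, hd⟩ ((ea ⟨d, hd⟩).2.2.2.1 u1) with k' | k'
    · exact u2 (eb ▸ (ea _).2.2.2.2 k'.1)
    · refine k' ((rw' _ _).2 ?_)
      rw [← eb]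
      exact k.trans (of_nd pm hd)

end Pool.Agent.MP_1a6d78_lc.DS
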