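import Pool.Agent.MP_1a6d78_lc.DS.Basic

/-! PROJECT DS: the values of an itinerary are computable. -/

namespace Pool.Agent.MP_1a6d78_lc.DS

open Classical ED PR

namespace Ps

variable {κ : List Bool → ℕ} {a b z j A B q : List Bool → Env → ℕ}
  {T I : List Bool → Env → List ℕ}

theorem ap {f : List Bool → ℕ → ℕ} (hf : F1 κ fun x _ => f x) (ha : Cn κ a) :
    Cn κ fun x ρ => f x (a x ρ) := K.app (f := fun x _ => f x) hf ha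

theorem apP {P : List Bool → ℕ → Prop} (hP : P1 κ fun x _ => P x) (ha : Cn κ a) :
    Cp κ fun x ρ => P x (a x ρ) := K.appP (P := fun x _ => P x) hP ha

theorem iff {P Q : List Bool → Env → Prop} (hP : Cp κ P) (hQ : Cp κ Q) :
    Cp κ fun x ρ => P x ρ ↔ Q x ρ :=
  K.cgP (K.and (K.imp hP hQ) (K.imp hQ hP)) fun _ _ => iff_iff_implies_and_implies.symm

theorem dfC (ha : Cn κ a) (hb : Cn κ b) : Cn κ fun x ρ => df (a x ρ) (b x ρ) :=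
  K.add (K.sub ha hb) (K.sub hb ha)

theorem nlC (hI : Cm κ I) : Cn κ fun x ρ => nl (I x ρ) := K.div (K.gt hI (K.c 0)) (K.c 2)

theorem odd (hI : Cm κ I) (hj : Cn κ j) (n : ℕ) : Cn κ fun x ρ => gt (I x ρ) (2 * j x ρ + n) :=
  K.gt hI (K.add (K.mul (K.c 2) hj) (K.c n))

variable {S : List Bool → Sk} (h : SkC κ S) (p : PkK κ S)

include p

theorem g (hT : Cm κ T) (hz : Cn κ z) : Cn κ fun x ρ => (S x).g (T x ρ) (z x ρ) :=
  K.gt hT (K.cnt (P := fun x _ => (S x).sp) hz p.sp)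

theorem ori (hI : Cm κ I) (hj : Cn κ j) : Cn κ fun x ρ => (S x).ori (I x ρ) (j x ρ) :=
  (kitOne κ).fold (fun x ρ m o => if ((o = 1 ↔ (S x).inc (gt (I x ρ) (2 * m + 2))) ↔
      (S x).inc (gt (I x ρ) (2 * m + 3))) then 0 else 1) (fun _ _ _ => 1) hj (K.c 1)
    (K.ite (iff (iff (K.eq (K.v 0) (K.c 1)) (apP p.inc (odd (K.wL (K.wL hI)) (K.v 1) 2)))
      (apP p.inc (odd (K.wL (K.wL hI)) (K.v 1) 3))) (K.c 0) (K.c 1))
    (K.c 1) fun _ _ _ _ _ _ e => by split_ifs <;> omega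

include h

theorem lz (hI : Cm κ I) (hj : Cn κ j) : Cn κ fun x ρ => (S x).lz (I x ρ) (j x ρ) :=
  ap h.nd (ap p.rep (K.ite (K.eq hj (K.c 0)) (K.gt hI (K.c 2)) (odd hI hj 1)))

theorem pv (hI : Cm κ I) (hj : Cn κ j) (ha : Cn κ a) :
    Cn κ fun x ρ => (S x).pv (I x ρ) (j x ρ) (a x ρ) := p.vx _ _ _ (lz h p hI hj) (ori p hI hj) ha

theorem d0 (hT : Cm κ T) (hz : Cn κ z) (ha : Cn κ a) :
    Cn κ fun x ρ => (S x).d0 (T x ρ) (z x ρ) (a x ρ) :=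
  K.min (K.add (g p hT (ap p.tp hz)) (K.mul p.N (K.sub ha (ap h.f.2.1 (ap p.tp hz)))))
    (K.add (g p hT (ap p.bt hz)) (K.mul p.N (K.sub (ap h.f.2.1 (ap p.bt hz)) ha)))

theorem vq (hA : Cn κ A) (hB : Cn κ B) (hq : Cn κ q) :
    Cp κ fun x ρ => (S x).vq (A x ρ) (B x ρ) (q x ρ) :=
  K.and (apP p.port (K.div hq h.M.1)) (K.and (apP p.port (K.mod hq h.M.1))
    (K.and (K.eq (ap p.blk (K.div hq h.M.1)) hA) (K.and (K.eq (ap p.blk (K.mod hq h.M.1)) hB)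
      (p.Lf _ _ (K.div hq h.M.1) (K.mod hq h.M.1)))))

theorem cq (ha : Cn κ a) (hb : Cn κ b) (hq : Cn κ q) :
    Cn κ fun x ρ => (S x).cq (a x ρ) (b x ρ) (q x ρ) :=
  K.add (K.add (K.mul p.N (dfC ha (ap p.hp (K.div hq h.M.1))))
    (p.Lv _ _ (K.div hq h.M.1) (K.mod hq h.M.1))) (K.mul p.N (dfC (ap p.hp (K.mod hq h.M.1)) hb))

theorem sq (fm : FmC) (hA : Cn κ A) (hB : Cn κ B) (ha : Cn κ a) (hb : Cn κ b) :
    Cn κ fun x ρ => (S x).sq (A x ρ) (B x ρ) (a x ρ) (b x ρ) :=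
  have v : P1 κ fun x ρ => (S x).vq (A x ρ) (B x ρ) := vq h p (K.w hA) (K.w hB) (K.v 0)
  have c : F1 κ fun x ρ => (S x).cq (a x ρ) (b x ρ) := cq h p (K.w ha) (K.w hb) (K.v 0)
  K.ite (K.ex (K.mul h.M.1 h.M.1) v)
    ((fm κ _ _ h.M h.nd h.f).2.2 _ _ _ (K.mul h.M.1 h.M.1) v c) (K.c 0)

theorem sd (fm : FmC) (hT : Cm κ T) (hI : Cm κ I) (hj : Cn κ j) (ha : Cn κ a) (hb : Cn κ b) :
    Cn κ fun x ρ => (S x).sd (T x ρ) (I x ρ) (j x ρ) (a x ρ) (b x ρ) :=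
  have e : Cn κ fun x ρ => gt (I x ρ) (2 * j x ρ) := K.gt hI (K.mul (K.c 2) hj)
  K.ite (K.eq hj (K.c 0)) (d0 h p hT (lz h p hI (K.c 0)) (ap h.f.2.1 (pv h p hI (K.c 0) hb)))
    (K.ite (K.and (K.ne e (odd hI hj 1))
        (K.and (apP p.K (lz h p hI (K.sub hj (K.c 1)))) (apP p.K (lz h p hI hj))))
      (sq h p fm e (odd hI hj 1) (ap h.f.2.1 (pv h p hI (K.sub hj (K.c 1)) ha))
        (ap h.f.2.1 (pv h p hI hj hb))) (K.c 0))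

theorem ix (hI : Cm κ I) (hz : Cn κ z) : Cn κ fun x ρ => (S x).ix (I x ρ) (z x ρ) :=
  K.lst (P := fun x ρ y => (S x).pv (I x ρ) (nl (I x ρ)) y = z x ρ) h.M.1
    (K.eq (pv h p (K.wL hI) (nlC (K.wL hI)) (K.v 0)) (K.w hz))

theorem use (hI : Cm κ I) (hz : Cn κ z) : Cp κ fun x ρ => (S x).use (I x ρ) (z x ρ) :=
  K.and (K.le (K.c 1) (nlC hI)) (p.sam _ _ (lz h p hI (nlC hI)) hz)

end Ps

theorem psS : PsS := fun fm _ _ h p =>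
  ⟨fun _ _ => Ps.g p, fun _ _ _ => Ps.d0 h p, fun _ _ _ _ _ => Ps.sd h p fm, fun _ _ => Ps.ix h p,
    fun _ _ => Ps.use h p⟩

end Pool.Agent.MP_1a6d78_lc.DS
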