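import Pool.Agent.MP_1a6d78_lc.DS.Basic

/-! PROJECT DS, rows RO and REC: the recursion on the size of the components. -/

namespace Pool.Agent.MP_1a6d78_lc.DS

open Classical ED PR

theorem roS : RoS := fun r n hr => by
  obtain ⟨k1, k2, k3, -⟩ := kkS r (List.replicate n true) hr
  have e : kk r (List.replicate n true) = ro r n := by
    unfold kk ro
    rw [List.length_replicate]
  rw [e] at k1 k2 k3
  rw [List.length_replicate] at k2 k3
  have := (Nat.le_self_pow (by omega : r ≠ 0) (ro r n - 1)).trans k3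
  exact ⟨k1, k2, k3, by omega⟩

namespace Rec

theorem ans_iff (hF : FinS) {S : Sk} {r μ t : ℕ} (θ : ℕ) (h : S.Ok r μ)
    (hn : S.M.n ≤ kq r μ ^ t) (hx : S.f.live (S.M.nd S.M.t) → S.X (S.M.nd S.M.t)) :
    ans S (kq r μ) t θ = 1 ↔ ∃ c ≤ θ, Wk S.M S.w U (S.M.nd S.M.s) (S.M.nd S.M.t) c := by
  unfold ans
  constructor
  · intro e
    have k : S.f.live (S.M.nd S.M.t) ∧ S.res (kq r μ) t ≤ θ := by
      by_contra q
      rw [if_neg q] at e
      exact absurd e (by omega)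
    exact ⟨_, hF S r μ t h hn (hx k.1) ▸ k.2, ds_spec (h.comp _ k.1)⟩
  · rintro ⟨c, hc, k⟩
    have l := h.wok.live h.fit k h.fit.2.ls
    rw [if_pos ⟨l, by rw [hF S r μ t h hn (hx l)]; exact (ds_le k).trans hc⟩]

theorem mu_ge (r D : ℕ) (hD : 1 ≤ D) : 2 * D ^ 3 ≤ mu r D ∧ D ≤ mu r D := by
  have a : D ^ 3 ≤ D ^ 4 := Nat.pow_le_pow_right hD (by omega)
  have b : D ≤ D ^ 4 := Nat.le_self_pow (by omega) D
  have c : 4000 * D ^ 4 ≤ 4000 * (r + 1) * D ^ 4 :=
    Nat.mul_le_mul_right _ (Nat.le_mul_of_pos_right _ (by omega))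
  unfold mu
  omega

theorem kx_ge (hR : RoS) {r : ℕ} (hr : 1 ≤ r) (x : List Bool) : num x 0 ≤ kx r x ^ r := by
  obtain ⟨k1, k2, -, -⟩ := hR r (num x 0) hr
  have a := (mu_ge r (Dx r x) (by unfold Dx; omega)).2
  have b : bq (r + 1) (mu r (Dx r x)) + 2 ≤ kx r x := Nat.le_self_pow (by omega) _
  have c : ro r (num x 0) ≤ kx r x := by
    unfold bq at b
    unfold Dx at a b
    omega
  exact k2.le.trans (Nat.pow_le_pow_left c r)

theorem zx (x : List Bool) : (num x 0 + 1) * Wx x + (num x 0 + 1) ≤ Zx x := by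
  have a := (kkS 1 x le_rfl).2.2.2 0
  have b : (num x 0 + 1) * Wx x ≤ (x.length + 1) * Wx x := Nat.mul_le_mul_right _ (by omega)
  have c : (x.length + 1) * Wx x + (x.length + 1) ≤ Zx x := by
    unfold Wx Zx
    nlinarith [Nat.zero_le (x.length ^ 4), Nat.zero_le (x.length ^ 3), Nat.zero_le (x.length ^ 2)]
  omega

theorem ok0 (hC : CompS) {x : List Bool} (r D : ℕ) (hD : 1 ≤ D)
    (h : Wok (inp x) (wt x) (Wx x))
    (hs : csz (inp x) (wt x) U ((inp x).nd (inp x).s) ≤ D ^ 3) : (sk0 x).Ok (r + 1) (mu r D) := by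
  obtain ⟨c1, c2⟩ := hC _ _ _ h
  have g := gSetS (msfS nclK) (msfC nclK) (contS swapK) _ _ h.ok c2.fit
  have a : cnt (inp x).n (lv (inp x)) ≤ D ^ 3 :=
    (cnt_mono fun v _ k => ((c1 v).1 k).2).trans hs
  have b := (mu_ge r D hD).1
  have c : cnt (inp x).n ((inp x).F (f1 (inp x) (Wx x))).con ≤ 2 * cnt (inp x).n (lv (inp x)) :=
    g.con
  refine ⟨h, c2.fit, c2.comp, c2.geo, ?_, fun _ k => k, c2.fit.2.ls, fun d hd k => ?_, ?_, ?_,
    fun u v l k _ _ => ?_, zx x⟩
  · exact c2.hH.le.trans (Nat.mul_le_mul_right _ (by omega))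
  · have e := (g.msf.sb d hd).resolve_left k.1
    by_contra q
    refine k.1 (e.trans ?_)
    exact if_neg fun p => q p.1
  · exact a.trans (by omega)
  · exact c.trans (by omega)
  · have hu : u < (inp x).n := c2.fit.1.lt u l
    exact absurd ⟨u, hu, l, 0, (Nat.zero_le _).trans_lt hu, rfl⟩ k

end Rec

open Rec in
theorem recS : RecS := by
  intro hR hC hS hV hD hN hZ hL hK hF r hr j
  induction j with
  | zero =>
    intro y h _ hs
    have k1 := (hR r (num y 0) hr).1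
    have o := ok0 hC r (Dx r y) (by unfold Dx; omega) h (by simpa [mm, Dx] using hs)
    exact ans_iff hF (num y 3) o (kx_ge hR hr y) fun k => k
  | succ j ih =>
    intro y h _ hs
    obtain ⟨k1, k2, -, -⟩ := hR r (num y 0) hr
    have e : 4 * (5000 * ro r (num y 0)) ^ 2 * ro r (num y 0) ^ (j + 1) ≤ mm r j (num y 0) := by
      unfold mm
      generalize ro r (num y 0) = E
      have : (5000 * E) ^ 3 * E ^ j = 5000 * ((5000 * E) ^ 2 * E ^ (j + 1)) := by ring
      rw [this, Nat.mul_assoc]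
      exact Nat.mul_le_mul_right _ (by omega)
    obtain ⟨l1, l2, l3, l4⟩ := hL hC hD hN hZ hS hV (mm r j) (alg r j) y (ro r (num y 0))
      (ro r (num y 0) ^ (j + 1)) ih h k1 (Nat.one_le_pow _ _ k1) hs e r
    rw [Nat.div_eq_of_lt k2, Nat.zero_add] at l3
    have o := hK hS hV (mm r j) (alg r j) y (5000 * ro r (num y 0)) r _ ih h (by omega) l1 l3
      fun K w' a u b => l4 K w' a u (l2 ▸ b)
    exact ans_iff hF (num y 3) o (kx_ge hR hr y) fun k => Or.inr (Or.inr ⟨rfl, k⟩)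

end Pool.Agent.MP_1a6d78_lc.DS
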