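import Pool.Agent.MP_1a6d78_lc.DS.Basic

/-! PROJECT DS, row SIDE: the two sides of a class along the contour. -/

namespace Pool.Agent.MP_1a6d78_lc.DS

open Classical ED PR

namespace SideL

/-- The first marked point after one of two marked points of a cycle is the other one. -/
theorem first {f : ℕ → ℕ} {P : ℕ → Prop} {a c : ℕ} (h : ∃ t, f^[t] (f a) = c)
    (hP : ∀ s, P (f^[s] (f a)) → f^[s] (f a) = a ∨ f^[s] (f a) = c) :
    ∃ t, f^[t] (f a) = c ∧ ∀ s < t, ¬P (f^[s] (f a)) := by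
  refine ⟨Nat.find h, Nat.find_spec h, fun s hs k => ?_⟩
  rcases hP s k with e | e
  · refine Nat.find_min h (m := Nat.find h - (s + 1)) (by omega) ?_
    have e1 : f^[s + 1] (f a) = f a := by rw [Function.iterate_succ_apply', e]
    have e2 := Function.iterate_add_apply f (Nat.find h - (s + 1)) (s + 1) (f a)
    rw [Nat.sub_add_cancel hs, e1] at e2
    exact e2.symm.trans (Nat.find_spec h)
  · exact Nat.find_min h hs e

variable {S : Sk} {r μ d e y u : ℕ}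

theorem dn_iff {t : ℕ} (h : S.gam (S.M.ρ^[t] d) ≠ S.M.ρ^[t] d)
    (hs : ∀ s < t, S.gam (S.M.ρ^[s] d) = S.M.ρ^[s] d) :
    S.dn d ↔ S.pd (S.M.nd d) ≠ S.M.ρ^[t] d := by
  refine ⟨fun ⟨t', a, b, c⟩ => ?_, fun k => ⟨t, h, k, hs⟩⟩
  rcases lt_trichotomy t t' with k | rfl | k
  exacts [absurd (c t k) h, b, absurd (hs t' k) a]

theorem dn_zero (h : S.gam d ≠ d) : S.dn d ↔ S.pd (S.M.nd d) ≠ d :=
  dn_iff (t := 0) h fun _ k => absurd k (Nat.not_lt_zero _)

theorem dn_shift (h : S.gam d = d) (e : S.M.nd (S.M.ρ d) = S.M.nd d) :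
    S.dn (S.M.ρ d) ↔ S.dn d := by
  constructor
  · rintro ⟨t, a, b, c⟩
    refine ⟨t + 1, a, e ▸ b, fun s k => ?_⟩
    cases s with
    | zero => exact h
    | succ s => exact c s (by omega)
  · rintro ⟨t, a, b, c⟩
    cases t with
    | zero => exact absurd h a
    | succ t => exact ⟨t, a, e ▸ b, fun s k => c (s + 1) (by omega)⟩

/-- The tree at a vertex `y` inside a class; `u` is its child. -/
structure Two (S : Sk) (y u : ℕ) : Prop where
  ne : S.f.par y ≠ y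
  sp : S.sam (S.f.par y) y
  su : S.sam u y
  pu : S.f.par u = y
  uy : u ≠ y
  all : ∀ d < S.M.n, S.M.nd d = y → S.gam d ≠ d → d = S.pd y ∨ d = S.gam (S.pd u)

variable (o : S.Ok r μ) (k : S.Kt0)
include o k

theorem ht_lt (h : S.K y) (n : S.f.par y ≠ y) : S.f.ht (S.f.par y) < S.f.ht y :=
  (o.fit.1.par y (k.live y h).1 n).2.2

theorem two (q : S.KeyK) (h : S.K y) (n : ¬S.sp y) : ∃ u, Two S y u := by
  have t : ¬S.top y := fun t => n ⟨h, Or.inl t⟩
  obtain ⟨u, -, a, b, c⟩ := not_not.1 fun t : S.bot y => n ⟨h, Or.inr t⟩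
  refine ⟨u, fun e => t (Or.inl e), not_not.1 fun e => t (Or.inr e), c, b, a, fun d hd e g => ?_⟩
  rcases k.typ d hd g with i | i | i
  · exact Or.inl (by rw [← e, i])
  · have k1 := (k.gk d g).2
    have k2 := k.pd _ (i.symm ▸ (k.iv d hd).1)
    have k3 := (k.up _ k1 k2).2.2.2
    rw [i, (k.iv d hd).2, e] at k3
    have k4 := (q.child y u h n c.1 a b).2 _ k1 (fun j => k2 (k3.symm.trans j.symm)) k3.symm
    exact Or.inr (by rw [← k4, i, (k.iv d hd).2])
  · exact absurd (q.xb _ (e ▸ o.xc d hd i.1)) n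

/-- The dart to the child. -/
theorem Two.low (T : Two S y u) : S.gam (S.pd u) < S.M.n ∧ S.M.nd (S.gam (S.pd u)) = y ∧
    S.gam (S.gam (S.pd u)) = S.pd u ∧ S.M.nd (S.pd u) = u ∧ S.gam (S.pd u) ≠ S.pd u ∧
    S.pd y ≠ S.gam (S.pd u) ∧ S.f.ht y < S.f.ht u := by
  have n : S.f.par u ≠ u := T.pu ▸ T.uy.symm
  obtain ⟨a, b, c, d⟩ := k.up u T.su.1 n
  have l := ht_lt o k T.su.1 n
  rw [T.pu] at l d
  refine ⟨(k.iv _ a).1, d, (k.iv _ a).2, b, c, fun e => ?_, l⟩
  have := (k.up y T.su.2.1 T.ne).2.2.2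
  rw [e, (k.iv _ a).2, b] at this
  have := this ▸ ht_lt o k T.su.2.1 T.ne
  omega

/-- After a tree dart the contour leads down iff the dart is the parent dart. -/
theorem Two.nx (T : Two S y u) (he : e < S.M.n) (hy : S.M.nd e = y) (g : S.gam e ≠ e) :
    S.dn (S.M.ρ e) ↔ e = S.pd y := by
  have pm := o.wok.ok.pm
  obtain ⟨a1, a2, a3, -⟩ := k.up y T.su.2.1 T.ne
  obtain ⟨b1, b2, b3, -, b5, b6, -⟩ := T.low o k
  have r1 := pm.1 e he
  have r2 : S.M.nd (S.M.ρ e) = y := hy ▸ ((Mp.nd_iff pm he r1).2 (Sc.step pm.1 he)).symm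
  have ex : ∀ c < S.M.n, S.M.nd c = y → ∃ t, S.M.ρ^[t] (S.M.ρ e) = c := fun c hc j =>
    (sc_iff pm.1 r1).1 ((Mp.nd_iff pm r1 hc).1 (r2.trans j.symm))
  have al : ∀ s, S.gam (S.M.ρ^[s] (S.M.ρ e)) ≠ S.M.ρ^[s] (S.M.ρ e) →
      S.M.ρ^[s] (S.M.ρ e) = S.pd y ∨ S.M.ρ^[s] (S.M.ρ e) = S.gam (S.pd u) := fun s j => by
    have l := iter_inv (Q := fun a => a < S.M.n) pm.1 r1 s
    exact T.all _ l (r2 ▸ ((Mp.nd_iff pm r1 l).2 ((sc_iff pm.1 r1).2 ⟨s, rfl⟩)).symm) j
  rcases T.all e he hy g with i | i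
  · obtain ⟨t, j1, j2⟩ := first (P := fun d => S.gam d ≠ d) (ex _ b1 b2) fun s j =>
      (al s j).imp_left fun m => m.trans i.symm
    rw [dn_iff (t := t) (by rw [j1, b3]; exact b5.symm) fun s l => not_not.1 (j2 s l), j1, r2]
    exact iff_of_true b6 i
  · obtain ⟨t, j1, j2⟩ := first (P := fun d => S.gam d ≠ d) (ex _ a1 a2) fun s j =>
      (al s j).symm.imp_left fun m => m.trans i.symm
    rw [dn_iff (t := t) (by rw [j1]; exact a3) fun s l => not_not.1 (j2 s l), j1, r2]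
    exact iff_of_false (fun m => m rfl) fun m => b6 (m.symm.trans i)

theorem step (q : S.KeyK) (hd : d < S.M.n) (h : S.K (S.M.nd d)) (n : ¬S.sp (S.M.nd d))
    (c : ¬S.cut d) :
    (S.dn (S.psi d) ↔ S.dn d) ∧ ¬S.sp (S.M.nd (S.psi d)) ∧ S.sam (S.M.nd (S.psi d)) (S.M.nd d) ∧
      (S.dn d → S.hp d ≤ S.hp (S.psi d)) ∧ (¬S.dn d → S.hp (S.psi d) ≤ S.hp d) := by
  have p := (k.psi d hd).2
  unfold Sk.hp
  rw [p]
  by_cases g : S.gam d = d
  · rw [Sk.psi, g] at p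
    rw [Sk.psi, g]
    exact ⟨dn_shift g p, n, .refl h, fun _ => le_rfl, fun _ => le_rfl⟩
  have n' : ¬S.sp (S.M.nd (S.gam d)) := fun m => c ⟨g, Or.inr m⟩
  obtain ⟨u, T⟩ := two o k q h n
  obtain ⟨u', T'⟩ := two o k q (k.gk d g).2 n'
  have x := T'.nx o k (k.iv d hd).1 rfl (by rw [(k.iv d hd).2]; exact Ne.symm g)
  obtain ⟨-, -, b3, b4, -, b6, b7⟩ := T.low o k
  rw [Sk.psi, x, dn_zero g]
  rcases T.all d hd rfl g with i | i
  · have a := (k.up _ h T.ne).2.2.2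
    have l := ht_lt o k h T.ne
    rw [← i] at a
    refine ⟨iff_of_false (fun m => ?_) fun m => m i.symm, n', a ▸ T.sp, fun m => absurd i.symm m,
      fun _ => a ▸ l.le⟩
    have a' := (k.up _ (k.gk d g).2 T'.ne).2.2.2
    have l' := ht_lt o k (k.gk d g).2 T'.ne
    rw [← m, (k.iv d hd).2] at a'
    rw [← a', a] at l'
    omega
  · have a : S.gam d = S.pd u := by rw [← b3, ← i]
    have m : S.pd (S.M.nd d) ≠ d := fun m => b6 (m.trans i)
    rw [a, b4]
    rw [a, b4] at n'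
    exact ⟨iff_of_true rfl m, n', T.su, fun _ => b7.le, fun j => absurd m j⟩

omit o in
/-- A cut at the parent dart: the parent is the top of the class. -/
theorem Two.top (T : Two S y u) (s : S.sp (S.M.nd (S.gam (S.pd y)))) : S.top (S.f.par y) := by
  rw [(k.up y T.su.2.1 T.ne).2.2.2] at s
  exact s.2.resolve_right fun b => b ⟨y, (k.live y T.su.2.1).2.1, T.ne.symm, rfl, T.sp.symm⟩

/-- A cut at the dart to the child: the child is the bottom of the class. -/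
theorem Two.bot (T : Two S y u) (s : S.sp (S.M.nd (S.gam (S.gam (S.pd u))))) : S.bot u := by
  obtain ⟨-, -, b3, b4, -⟩ := T.low o k
  rw [b3, b4] at s
  exact s.2.resolve_left fun t => t.elim (fun j => T.uy (j.symm.trans T.pu))
    fun j => j (T.pu.symm ▸ T.su.symm)

theorem fin (q : S.KeyK) (hd : d < S.M.n) (he : e < S.M.n) (n : ¬S.sp (S.M.nd d))
    (n' : ¬S.sp (S.M.nd e)) (c : S.cut d) (c' : S.cut e) (s : S.sam (S.M.nd d) (S.M.nd e))
    (h : S.dn d ↔ S.dn e) : d = e := by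
  obtain ⟨u, T⟩ := two o k q s.1 n
  obtain ⟨u', T'⟩ := two o k q s.2.1 n'
  have p := c.2.resolve_left n
  have p' := c'.2.resolve_left n'
  rw [dn_zero c.1, dn_zero c'.1, not_iff_not] at h
  by_cases i : S.pd (S.M.nd d) = d
  · have i' := h.1 i
    have a := (q.tp _ _ (T.sp.trans s) (T.top k (i.symm ▸ p))).trans
      (q.tp _ _ T'.sp (T'.top k (i'.symm ▸ p'))).symm
    have l := ht_lt o k s.1 T.ne
    have l' := ht_lt o k s.2.1 T'.ne
    have x := q.nxt _ _ s T'.ne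
    have x' := q.nxt _ _ s.symm T.ne
    rw [← a] at x l'
    rw [← i, ← i', q.inj _ _ s (by omega)]
  · have j := (T.all d hd rfl c.1).resolve_left fun m => i m.symm
    have j' := (T'.all e he rfl c'.1).resolve_left fun m => i (h.2 m.symm)
    rw [j, j', (q.bt _ _ (T.su.trans s) (T.bot o k (j ▸ p))).trans
      (q.bt _ _ T'.su (T'.bot o k (j' ▸ p'))).symm]

end SideL

theorem sideS : SideS := fun _ _ _ o k q =>
  ⟨fun _ hd h n c => SideL.step o k q hd h n c,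
    fun _ hd _ he n n' c c' s h => SideL.fin o k q hd he n n' c c' s h⟩

end Pool.Agent.MP_1a6d78_lc.DS
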