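import Pool.Agent.MP_1a6d78_lc.DS.Basic

/-! PROJECT DS, row SIZE: a mark on every `R`-th live vertex makes the pieces small. -/

namespace Pool.Agent.MP_1a6d78_lc.DS

open Classical ED PR

namespace Size

/-- The rank of `v` among the numbers with `P`, ordered by `pos`. -/
noncomputable def rank (n : ℕ) (P : ℕ → Prop) (pos : ℕ → ℕ) (v : ℕ) : ℕ :=
  cnt n fun u => P u ∧ pos u < pos v

variable {n : ℕ} {P : ℕ → Prop} {pos : ℕ → ℕ} {u v : ℕ}

theorem rank_lt (hu : u < n) (h : P u) (k : pos u < pos v) : rank n P pos u < rank n P pos v :=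
  cnt_lt (fun _ _ a => ⟨a.1, a.2.trans k⟩) hu ⟨h, k⟩ fun a => lt_irrefl _ a.2

theorem rank_le (k : pos u ≤ pos v) : rank n P pos u ≤ rank n P pos v :=
  cnt_mono fun _ _ a => ⟨a.1, a.2.trans_le k⟩

theorem rank_top (hv : v < n) (h : P v) : rank n P pos v < cnt n P :=
  cnt_lt (fun _ _ a => a.1) hv h fun a => lt_irrefl _ a.2

theorem rank_inj (inj : ∀ a < n, ∀ b < n, pos a = pos b → a = b) (hu : u < n) (hv : v < n)
    (h : P u) (h' : P v) (e : rank n P pos u = rank n P pos v) : u = v := by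
  rcases lt_trichotomy (pos u) (pos v) with k | k | k
  · exact absurd e (rank_lt hu h k).ne
  · exact inj u hu v hv k
  · exact absurd e (rank_lt hv h' k).ne'

theorem rank_onto (inj : ∀ a < n, ∀ b < n, pos a = pos b → a = b) {j : ℕ} (hj : j < cnt n P) :
    ∃ c < n, P c ∧ rank n P pos c = j := by
  have := Finset.surjOn_of_injOn_of_card_le (s := (Finset.range n).filter P)
    (t := Finset.range (cnt n P)) (rank n P pos) (fun a ha => ?_) (fun a ha b hb e => ?_)
    (by rw [Finset.card_range]; exact le_rfl)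
  · obtain ⟨c, hc, e⟩ := this (Finset.mem_coe.2 (Finset.mem_range.2 hj))
    have hc := Finset.mem_filter.1 (Finset.mem_coe.1 hc)
    exact ⟨c, Finset.mem_range.1 hc.1, hc.2, e⟩
  · have ha := Finset.mem_filter.1 (Finset.mem_coe.1 ha)
    exact Finset.mem_coe.2 (Finset.mem_range.2 (rank_top (Finset.mem_range.1 ha.1) ha.2))
  · have ha := Finset.mem_filter.1 (Finset.mem_coe.1 ha)
    have hb := Finset.mem_filter.1 (Finset.mem_coe.1 hb)
    exact rank_inj inj (Finset.mem_range.1 ha.1) (Finset.mem_range.1 hb.1) ha.2 hb.2 e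

/-- Between two ranks with different quotients there is a multiple of `R`. -/
theorem between (inj : ∀ a < n, ∀ b < n, pos a = pos b → a = b) {R : ℕ} (hR : 1 ≤ R) (hv : v < n)
    (h' : P v) (k : rank n P pos u / R < rank n P pos v / R) :
    ∃ c < n, P c ∧ rank n P pos c % R = 0 ∧ pos u < pos c ∧ pos c ≤ pos v := by
  have h1 : rank n P pos v / R * R ≤ rank n P pos v := Nat.div_mul_le_self _ _
  have h2 : rank n P pos u < rank n P pos v / R * R := (Nat.div_lt_iff_lt_mul hR).1 k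
  obtain ⟨c, hc, p, e⟩ := rank_onto inj (h1.trans_lt (rank_top hv h'))
  refine ⟨c, hc, p, by rw [e, Nat.mul_mod_left], lt_of_not_ge fun a => ?_, le_of_not_gt fun a => ?_⟩
  · have := rank_le (n := n) (P := P) a
    omega
  · have := rank_lt hv h' a
    omega

end Size

open Size in
theorem sizeS : SizeS := by
  intro M w W l f D R m hw hl hD hR hm
  have fit : M.Fit (pl M f R) :=
    ⟨⟨hl.fit.1.lt, hl.fit.1.clo, hl.fit.1.par, hl.fit.1.ht,
      fun v k => k.elim (hl.fit.1.mk' v) fun a => a.1⟩,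
     ⟨fun v a b => (hl.fit.2.rt v a b).imp fun _ k => ⟨Or.inl k.1, k.2⟩, hl.fit.2.ls, hl.fit.2.ps,
      hl.fit.2.vx⟩⟩
  have s := gSetS (msfS nclK) (msfC nclK) (contS swapK) M _ hw.ok fit
  have p := gPtS sectS secUS secQS part M D _ hD hw.ok fit s
  have lab := (glev M D _ hD hw.ok fit).1
  have sec := sectS _ p.lok
  have inj : ∀ a < M.n, ∀ b < M.n, (M.L f).pos a = (M.L f).pos b → a = b := p.lok.inj
  refine ⟨⟨fit, hl.comp, ⟨hl.geo.lip, hl.geo.par⟩, hl.hH⟩, ?_, fun K w' hK u hu hKu => ?_⟩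
  · refine (cnt_or _ _ _).trans (Nat.add_le_add_left (le_trans ?_ (cnt_le m fun _ => True)) _)
    refine cnt_inj (fun v => rank M.n f.live (M.L f).pos v / R) (fun a ha k => ⟨?_, trivial⟩)
      fun a ha b hb k k' e => rank_inj inj ha hb k.1 k'.1 ?_
    · exact (Nat.div_lt_iff_lt_mul hR).2 ((rank_top ha k.1).trans_le hm)
    · have h1 : rank M.n f.live (M.L f).pos a % R = 0 := k.2
      have h2 : rank M.n f.live (M.L f).pos b % R = 0 := k'.2
      exact Nat.ext_div_mod e (h1.trans h2.symm)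
  let Q : ℕ → Prop := fun i => M.l2 D (pl M f R) i = (M.ld D (pl M f R)).pc u
  have key : ∀ v, Rc M w' (fun z => ¬K z) u v → f.live v ∧ Q ((M.L (pl M f R)).rk v) := by
    rintro v ⟨c, k⟩
    refine (k.inv (P := fun x => f.live x ∧ Q ((M.L (pl M f R)).rk x)) ⟨hu, rfl⟩
      fun d hd _ a b h => ⟨hw.clo hl.fit hd h.1, ?_⟩).1
    exact (lab _ _ h.1 ⟨d, hd, hw.dir d, rfl, rfl⟩ (fun k => a (hK _ k)) fun k => b (hK _ k)).symm.trans
      h.2
  have blk : ∀ a < M.n, ∀ b < M.n, f.live b → (M.L (pl M f R)).rk a = (M.L (pl M f R)).rk b →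
      ¬rank M.n f.live (M.L f).pos a / R < rank M.n f.live (M.L f).pos b / R := by
    intro a ha b hb h e k
    obtain ⟨c, hc, c1, c2, c3, c4⟩ := between inj hR hb h k
    exact (sec.gap a ha b hb c hc (Or.inr (Or.inr ⟨c1, c2⟩)) c3 c4).ne ((sec.same a ha b hb).1 e).1
  refine le_trans ?_ (cnt_le (4 * D ^ 2 * R) fun _ => True)
  refine cnt_inj (fun v => cnt ((M.L (pl M f R)).rk v) Q * R + rank M.n f.live (M.L f).pos v % R)
    (fun a ha k => ⟨?_, trivial⟩) fun a ha b hb k k' e => ?_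
  · have h1 := (cnt_lt_of (sec.lt a ha) (key a k.2).2).trans_le (p.size _)
    have h2 := Nat.mod_lt (rank M.n f.live (M.L f).pos a) hR
    have h3 := Nat.mul_le_mul_right R (Nat.succ_le_of_lt h1)
    rw [Nat.succ_mul] at h3
    omega
  · have ka := key a k.2
    have kb := key b k'.2
    have e1 : rank M.n f.live (M.L f).pos a % R = rank M.n f.live (M.L f).pos b % R := by
      have := congrArg (· % R) e
      simpa only [Nat.mul_add_mod', Nat.mod_mod] using this
    have e2 : cnt ((M.L (pl M f R)).rk a) Q = cnt ((M.L (pl M f R)).rk b) Q :=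
      Nat.eq_of_mul_eq_mul_right hR (by omega)
    have e3 : (M.L (pl M f R)).rk a = (M.L (pl M f R)).rk b := by
      rcases lt_trichotomy ((M.L (pl M f R)).rk a) ((M.L (pl M f R)).rk b) with h | h | h
      · exact absurd e2 (cnt_lt_of h ka.2).ne
      · exact h
      · exact absurd e2 (cnt_lt_of h kb.2).ne'
    refine rank_inj inj ha hb ka.1 kb.1 (Nat.ext_div_mod ?_ e1)
    exact le_antisymm (not_lt.1 (blk b hb a ha ka.1 e3.symm)) (not_lt.1 (blk a ha b hb kb.1 e3))

end Pool.Agent.MP_1a6d78_lc.DS
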