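import Pool.Agent.MP_1a6d78_lc.DS.Basic

/-! PROJECT DS: the last forest gives a skeleton. -/

namespace Pool.Agent.MP_1a6d78_lc.DS

open Classical ED PR

namespace Skl

theorem one (n a : ℕ) (P : ℕ → Prop) : cnt n (fun v => v = a ∧ P v) ≤ 1 :=
  (cnt_inj (m := 1) (Q := fun _ => True) (fun _ => 0) (fun _ _ _ => ⟨one_pos, trivial⟩)
    fun _ _ _ _ h k _ => h.1.trans k.1.symm).trans (cnt_le _ _)

theorem img (n : ℕ) (P : ℕ → Prop) (g : ℕ → ℕ) :
    cnt n (fun v => ∃ d < n, P d ∧ g d = v) ≤ cnt n P :=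
  cnt_inj (fun v => lst n fun d => P d ∧ g d = v)
    (fun _ _ h => ⟨(lst_spec h).1, (lst_spec h).2.1⟩) fun _ _ _ _ h k e =>
      (lst_spec h).2.2.symm.trans ((congrArg g e).trans (lst_spec k).2.2)

theorem zed {n L : ℕ} (h : n ≤ L) : (n + 1) * (L + 1) ^ 2 + (n + 1) ≤ (L + 2) ^ 4 := by
  have h1 : (n + 1) * (L + 1) ^ 2 ≤ (L + 1) * (L + 1) ^ 2 := Nat.mul_le_mul_right _ (by omega)
  have h2 : (L + 2) ^ 4 = (L + 1) * (L + 1) ^ 2 + (L + 1) +
      (L ^ 4 + 7 * L ^ 3 + 21 * L ^ 2 + 28 * L + 14) := by ring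
  omega

theorem nums {r D c a : ℕ} (hD : 5000 ≤ D) (hc : c ≤ r * (1001 * D ^ 4) + D ^ 3)
    (ha : D * a ≤ 5000 * c + 1000 * D ^ 5) : a + (2 * c + 1) ≤ mu r D := by
  have h1 : a ≤ c + 1000 * D ^ 4 := by
    refine Nat.le_of_mul_le_mul_left (ha.trans ?_) (by omega : 0 < D)
    have := Nat.mul_le_mul_right c hD
    rw [Nat.mul_add, show D * (1000 * D ^ 4) = 1000 * D ^ 5 by ring]
    omega
  have h2 : D ^ 3 ≤ D ^ 4 := Nat.pow_le_pow_right (by omega) (by omega)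
  have h3 : 1 ≤ D ^ 4 := Nat.one_le_pow _ _ (by omega)
  have h4 : mu r D = 4000 * (r * D ^ 4) + 4000 * D ^ 4 := by unfold mu; ring
  rw [show r * (1001 * D ^ 4) = 1001 * (r * D ^ 4) by ring] at hc
  omega

end Skl

theorem sklS : SklS := by
  intro sub vy m φ x D r f hc hw hD hl hm hK
  have s := gSetS (msfS nclK) (msfC nclK) (contS swapK) (inp x) f hw.ok hl.fit
  have g := (glev (inp x) D f (by omega) hw.ok hl.fit).2
  have n := Skl.nums hD hm g.few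
  have c := s.con
  refine ⟨hw, hl.fit, hl.comp, hl.geo, hl.hH.le, ?_, Or.inl (Or.inl rfl),
    fun d hd h => Or.inr (Or.inl ⟨d, hd, h, rfl⟩), ?_, ?_, ?_,
    Skl.zed (RowKk.num_le x 0)⟩
  · rintro v ((rfl | h) | ⟨d, hd, h, rfl⟩ | h)
    · exact hl.fit.2.ls
    · exact h.1
    · by_contra k
      exact h.1 ((s.msf.sb d hd).elim id fun e => e.trans (if_neg fun k' => k k'.1))
    · exact h.2
  · refine (cnt_or _ _ _).trans ((Nat.add_le_add_left ((cnt_or _ _ _).trans (Nat.add_le_add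
      ((Skl.img _ _ _).trans c) (Skl.one _ _ _))) _).trans n)
  · exact c.trans (by omega)
  · exact sub vy m φ x f.live (anc (inp x).n f.par (xs x D f)) (num x 0 + 1) 1 hc hw (by omega)
      le_rfl le_rfl (fun v h => ⟨hl.fit.1.lt v h, hl.fit.2.vx v h⟩)
      (hK _ _ fun v ⟨y, h1, h2, h3⟩ => ⟨y, h1, Or.inl h2, h3⟩)

end Pool.Agent.MP_1a6d78_lc.DS
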