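import Pool.Agent.MP_1a6d78_lc.PR.All
import Pool.Agent.MP_1a6d78_lc.GM.Spec
import Pool.Agent.MP_1a6d78_lc.DS.Defs

/-! PROJECT DS: distances in plane graphs in small space.  The algorithm and the statements of the
rows.  Note: PSD1a6d78_note_h24.md, blueprint: PSD1a6d78_BLUEPRINT.md. -/

namespace Pool.Agent.MP_1a6d78_lc.DS

open Classical ED PR

noncomputable section

/-! ### Walks -/

/-- A walk of cost `c` between vertices, all of its vertices in `A`. -/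
inductive Wk (M : Mp) (w : ℕ → ℕ) (A : ℕ → Prop) (u : ℕ) : ℕ → ℕ → Prop
  | nil : A u → Wk M w A u u 0
  | step {v v' c d : ℕ} : Wk M w A u v c → d < M.n → M.β d ≠ d → M.nd d = v →
      M.nd (M.β d) = v' → A v' → Wk M w A u v' (c + w d)

def ds (M : Mp) (w : ℕ → ℕ) (A : ℕ → Prop) (u v : ℕ) : ℕ := sInf {c | Wk M w A u v c}

def Rc (M : Mp) (w : ℕ → ℕ) (A : ℕ → Prop) (u v : ℕ) : Prop := ∃ c, Wk M w A u v c

def U : ℕ → Prop := fun _ => True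

def df (a b : ℕ) : ℕ := (a - b) + (b - a)

/-- The least value of `c` on the numbers below `n` with `P`. -/
def mnv (n : ℕ) (P : ℕ → Prop) (c : ℕ → ℕ) : ℕ :=
  c (lst n fun q => P q ∧ ∀ q' < n, P q' → c q ≤ c q')

/-- Positive weights that depend on the two ends only. -/
structure Wok (M : Mp) (w : ℕ → ℕ) (W : ℕ) : Prop where
  ok : M.Ok
  dir : ∀ d, M.dir d
  pos : ∀ d < M.n, M.β d ≠ d → 1 ≤ w d
  par : ∀ d < M.n, ∀ e < M.n, M.β d ≠ d → M.β e ≠ e → M.nd d = M.nd (M.β e) →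
    M.nd (M.β d) = M.nd e → w d = w e
  big : ∀ d < M.n, M.n * w d < W

/-- Inside a class (`ht / W`) the heights are a geodesic parameter. -/
structure Geo (M : Mp) (w : ℕ → ℕ) (W : ℕ) (f : Fo) : Prop where
  lip : ∀ u v c, f.live u → f.live v → f.ht u / W = f.ht v / W → Wk M w U u v c →
    f.ht u ≤ f.ht v + c
  par : ∀ d < M.n, M.β d ≠ d → f.live (M.nd d) → f.par (M.nd d) ≠ M.nd d →
    f.par (M.nd d) = M.nd (M.β d) → f.ht (M.nd d) / W = f.ht (M.nd (M.β d)) / W →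
      f.ht (M.nd d) = f.ht (M.nd (M.β d)) + w d

/-- The oracle gives the distances off `K`. -/
def OrK (M : Mp) (w : ℕ → ℕ) (live K : ℕ → Prop) (o : ℕ → ℕ → ℕ) (Z : ℕ) : Prop :=
  ∀ u v, live u → ¬K u → live v → ¬K v →
    o u v = if Rc M w (fun z => ¬K z) u v then ds M w (fun z => ¬K z) u v else Z

def anc (n : ℕ) (par : ℕ → ℕ) (X : ℕ → Prop) (v : ℕ) : Prop :=
  ∃ x < n, X x ∧ ∃ t < n, it n par t x = v

/-- JOR: two paths through isolated vertices cannot cross in a face. -/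
def JorS : Prop :=
  ∀ (M : Mp) (w γ : ℕ → ℕ) (V V' : ℕ → Prop) (a b a' b' : ℕ), M.Ok → Iv M.n γ → Sb M.n γ M.β →
    a < M.n → b < M.n → a' < M.n → b' < M.n → a ≠ b → a' ≠ b' → a ≠ a' → a ≠ b' → b ≠ a' →
    b ≠ b' → γ a = a → γ b = b → γ a' = a' → γ b' = b' → M.β a ≠ a → M.β b ≠ b → M.β a' ≠ a' →
    M.β b' ≠ b' → (∀ v, V v → ¬V' v) →
    (∀ d < M.n, V (M.nd d) ∨ V' (M.nd d) → γ d = d ∧ d ≠ a ∧ d ≠ b ∧ d ≠ a' ∧ d ≠ b' ∧
      M.nd d ≠ M.nd a ∧ M.nd d ≠ M.nd b ∧ M.nd d ≠ M.nd a' ∧ M.nd d ≠ M.nd b') →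
    ¬Sc M.n (fun d => M.ρ (γ (sw a b d))) a' b' → Conn M.n M.ρ γ a' b' →
    (M.β a = b ∨ Rc M w V (M.nd (M.β a)) (M.nd (M.β b))) →
    (M.β a' = b' ∨ Rc M w V' (M.nd (M.β a')) (M.nd (M.β b'))) → False

/-! ### The skeleton -/

structure Sk where
  M : Mp
  w : ℕ → ℕ
  W : ℕ
  f : Fo
  X : ℕ → Prop
  o : ℕ → ℕ → ℕ
  Z : ℕ

def enc (k : ℕ) (l : List ℕ) : List ℕ := tab k (gt (l.length :: l))

def row (k : ℕ) (T : List ℕ) (r : ℕ) : List ℕ := tab k fun j => gt T (k + r * k + j)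

/-- The number of legs of a coded itinerary. -/
def nl (I : List ℕ) : ℕ := gt I 0 / 2

namespace Sk

variable (S : Sk)

def K : ℕ → Prop := anc S.M.n S.f.par S.X

def bel (v x : ℕ) : Prop := S.X x ∧ ∃ t < S.M.n, it S.M.n S.f.par t x = v

def pd : ℕ → ℕ := (S.M.F S.f).pd

def con : ℕ → Prop := (S.M.F S.f).con

def gam (d : ℕ) : ℕ :=
  if S.K (S.M.nd d) ∧ S.K (S.M.nd ((S.M.F S.f).tau d)) then (S.M.F S.f).tau d else d

def psi (d : ℕ) : ℕ := S.M.ρ (S.gam d)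

def pos : ℕ → ℕ := ps S.M.n S.psi fun e => ¬S.K (S.M.nd e) ∨ S.f.par (S.M.nd e) = S.M.nd e

def sam (u v : ℕ) : Prop :=
  S.K u ∧ S.K v ∧ lst S.M.n (S.bel u) = lst S.M.n (S.bel v) ∧
    cnt S.M.n (S.bel u) = cnt S.M.n (S.bel v) ∧ S.f.ht u / S.W = S.f.ht v / S.W

def top (v : ℕ) : Prop := S.f.par v = v ∨ ¬S.sam (S.f.par v) v

def bot (v : ℕ) : Prop := ¬∃ u < S.M.n, u ≠ v ∧ S.f.par u = v ∧ S.sam u v

def sp (v : ℕ) : Prop := S.K v ∧ (S.top v ∨ S.bot v)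

def tp (z : ℕ) : ℕ := lst S.M.n fun u => S.sam u z ∧ S.top u

def bt (z : ℕ) : ℕ := lst S.M.n fun u => S.sam u z ∧ S.bot u

def len (z : ℕ) : ℕ := cnt S.M.n (fun u => S.sam u z) - 1

/-- The class of `z` as a line; the heights increase iff `o = 1`. -/
def vx (z o x : ℕ) : ℕ :=
  it S.M.n S.f.par (if o = 1 then S.len z - x else min x (S.len z)) (S.bt z)

def port (a : ℕ) : Prop := a < S.M.n ∧ S.K (S.M.nd a) ∧ S.gam a = a ∧ S.M.β a ≠ a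

def cut (e : ℕ) : Prop := S.gam e ≠ e ∧ (S.sp (S.M.nd e) ∨ S.sp (S.M.nd (S.gam e)))

def blk (a : ℕ) : ℕ := cnt S.M.n fun e => S.cut e ∧ S.pos e < S.pos a

/-- The height of the vertex of a dart. -/
def hp (a : ℕ) : ℕ := S.f.ht (S.M.nd a)

def inc (A : ℕ) : Prop :=
  ∀ a < S.M.n, ∀ b < S.M.n, S.port a → S.port b → S.blk a = A → S.blk b = A →
    S.pos a ≤ S.pos b → S.hp a ≤ S.hp b

def dec (A : ℕ) : Prop :=
  ∀ a < S.M.n, ∀ b < S.M.n, S.port a → S.port b → S.blk a = A → S.blk b = A →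
    S.pos a ≤ S.pos b → S.hp b ≤ S.hp a

def rep (A : ℕ) : ℕ := lst S.M.n fun a => S.port a ∧ S.blk a = A

def N : ℕ := S.M.n + 1

def w1 (d : ℕ) : ℕ := S.N * S.w d + 1

def wp (d : ℕ) : ℕ := if S.gam d = d then S.w1 d else S.N * S.w d

def Lf (a b : ℕ) : Prop :=
  S.M.β a = b ∨ (¬S.K (S.M.nd (S.M.β a)) ∧ ¬S.K (S.M.nd (S.M.β b)) ∧
    S.o (S.M.nd (S.M.β a)) (S.M.nd (S.M.β b)) < S.Z)

def Lv (a b : ℕ) : ℕ :=
  if S.M.β a = b then S.w1 a else S.w1 a + S.o (S.M.nd (S.M.β a)) (S.M.nd (S.M.β b)) + S.w1 b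

/-- A leg: out by the port `a`, interior off `K`, in by the port `b`. -/
def Lg (a b c : ℕ) : Prop :=
  S.port a ∧ S.port b ∧ ((S.M.β a = b ∧ c = S.w1 a) ∨ ∃ c',
    Wk S.M S.w1 (fun z => ¬S.K z) (S.M.nd (S.M.β a)) (S.M.nd (S.M.β b)) c' ∧
      c = S.w1 a + c' + S.w1 b)

section
variable (e : ℕ → ℕ)

def tg (a b : ℕ) : Prop :=
  S.port a ∧ S.port b ∧ S.Lf a b ∧ e (S.M.nd a) + S.Lv a b = e (S.M.nd b)

def ts (z d : ℕ) : Prop :=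
  S.M.nd d = z ∧ S.gam d ≠ d ∧ e (S.M.nd (S.gam d)) + S.N * S.w d = e z

def sl (z : ℕ) : Prop := ∃ d < S.M.n, S.ts e z d

/-- The vertex from which `z` is reached by a slide. -/
def sv (z : ℕ) : ℕ := S.M.nd (S.gam (lst S.M.n (S.ts e z)))

def la (z : ℕ) : ℕ := lst S.M.n fun a => ∃ b < S.M.n, S.M.nd b = z ∧ S.tg e a b

def lb (z : ℕ) : ℕ := lst S.M.n fun b => S.M.nd b = z ∧ S.tg e (S.la e z) b

/-- The itinerary of `z`. -/
def cls : ℕ → ℕ → List ℕ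
  | 0 => fun _ => [0]
  | t + 1 => fun z =>
    if S.sp z then [0] else if S.sl e z then
      (if S.sp (S.sv e z) then [if S.sv e z = S.f.par z then 1 else 2] else cls t (S.sv e z))
    else cls t (S.M.nd (S.la e z)) ++ [S.blk (S.la e z), S.blk (S.lb e z)]

def hit (ρ z : ℕ) : Prop :=
  (z = S.M.nd S.M.s ∧ ρ = 0) ∨
    (∃ d < S.M.n, S.M.nd d = z ∧ S.gam d ≠ d ∧ e (S.M.nd (S.gam d)) + S.N * S.w d = ρ) ∨
    ∃ a < S.M.n, ∃ b < S.M.n, S.M.nd b = z ∧ S.port a ∧ S.port b ∧ S.Lf a b ∧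
      e (S.M.nd a) + S.Lv a b = ρ

end

/-! ### The value of an itinerary -/

def g (T : List ℕ) (x : ℕ) : ℕ := gt T (cnt x S.sp)

def lz (I : List ℕ) (j : ℕ) : ℕ := S.M.nd (S.rep (if j = 0 then gt I 2 else gt I (2 * j + 1)))

def ori (I : List ℕ) (j : ℕ) : ℕ :=
  itr (fun m o => if ((o = 1 ↔ S.inc (gt I (2 * m + 2))) ↔ S.inc (gt I (2 * m + 3))) then 0 else 1)
    1 j

def pv (I : List ℕ) (j x : ℕ) : ℕ := S.vx (S.lz I j) (S.ori I j) x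

def d0 (T : List ℕ) (z h : ℕ) : ℕ :=
  min (S.g T (S.tp z) + S.N * (h - S.f.ht (S.tp z))) (S.g T (S.bt z) + S.N * (S.f.ht (S.bt z) - h))

def vq (A B q : ℕ) : Prop :=
  S.port (q / S.M.n) ∧ S.port (q % S.M.n) ∧ S.blk (q / S.M.n) = A ∧ S.blk (q % S.M.n) = B ∧
    S.Lf (q / S.M.n) (q % S.M.n)

def cq (h h' q : ℕ) : ℕ :=
  S.N * df h (S.hp (q / S.M.n)) + S.Lv (q / S.M.n) (q % S.M.n) + S.N * df (S.hp (q % S.M.n)) h'

/-- From the height `h` to a port of the block `A`, a leg to the block `B`, on to the height `h'`. -/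
def sq (A B h h' : ℕ) : ℕ :=
  if ∃ q < S.M.n * S.M.n, S.vq A B q then mnv (S.M.n * S.M.n) (S.vq A B) (S.cq h h') else 0

def sd (T I : List ℕ) (j x y : ℕ) : ℕ :=
  if j = 0 then S.d0 T (S.lz I 0) (S.f.ht (S.pv I 0 y))
  else if gt I (2 * j) ≠ gt I (2 * j + 1) ∧ S.K (S.lz I (j - 1)) ∧ S.K (S.lz I j) then
    S.sq (gt I (2 * j)) (gt I (2 * j + 1)) (S.f.ht (S.pv I (j - 1) x)) (S.f.ht (S.pv I j y))
  else 0

def ix (I : List ℕ) (z : ℕ) : ℕ := lst S.M.n fun x => S.pv I (nl I) x = z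

def use (I : List ℕ) (z : ℕ) : Prop := 1 ≤ nl I ∧ S.sam (S.lz I (nl I)) z

section
variable (k t : ℕ)

def ov (T I : List ℕ) (z : ℕ) : ℕ := Val k 0 (S.sd T I) t [] (nl I) (S.ix I z)

def vl (T : List ℕ) (z : ℕ) : ℕ :=
  if S.sp z then S.g T z else
    itr (fun r acc => if S.use (row k T r) z then min acc (S.ov k t T (row k T r) z) else acc)
      (S.d0 T z (S.f.ht z)) k

def e0 (T : List ℕ) (ρ z : ℕ) : ℕ := if S.vl k t T z < ρ then S.vl k t T z else S.Z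

def e1 (T : List ℕ) (ρ z : ℕ) : ℕ :=
  if S.vl k t T z < ρ then S.vl k t T z else if S.hit (S.e0 k t T ρ) ρ z then ρ else S.Z

end

section
variable (k : ℕ) (e : ℕ → ℕ) (ρ : ℕ)

def act (z : ℕ) : Prop := S.K z ∧ ¬S.sp z ∧ e z ≤ ρ

def cz (z : ℕ) : List ℕ := enc k (S.cls e S.Z z)

def fst (z : ℕ) : Prop :=
  S.act e ρ z ∧ ∀ z' < z, S.act e ρ z' → ∃ j < k, gt (S.cz k e z') j ≠ gt (S.cz k e z) j

/-- The state made from the values `e` up to the radius `ρ`. -/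
def mkT : List ℕ :=
  tab (k + k * k) fun i => if i < k then e (sel S.M.n S.sp i)
    else if sel S.M.n (S.fst k e ρ) ((i - k) / k) < S.M.n then
      gt (S.cz k e (sel S.M.n (S.fst k e ρ) ((i - k) / k))) ((i - k) % k) else 0

end

def stt (k t ρ : ℕ) : List ℕ :=
  itr (fun ρ T => S.mkT k (S.e1 k t T ρ) ρ) (tab (k + k * k) fun i => if i < k then S.Z else 0) ρ

def res (k t : ℕ) : ℕ := S.g (S.stt k t S.Z) (S.M.nd S.M.t) / S.N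

/-! ### Semantics -/

structure Ok (r μ : ℕ) : Prop where
  wok : Wok S.M S.w S.W
  fit : S.M.Fit S.f
  comp : ∀ v, S.f.live v → Rc S.M S.w U (S.M.nd S.M.s) v
  geo : Geo S.M S.w S.W S.f
  hH : S.f.H ≤ r * S.W
  xl : ∀ x, S.X x → S.f.live x
  xs : S.X (S.M.nd S.M.s)
  xc : ∀ d < S.M.n, S.con d → S.X (S.M.nd d)
  xn : cnt S.M.n S.X ≤ μ
  xm : cnt S.M.n S.con ≤ μ
  o : OrK S.M S.w1 S.f.live S.K S.o S.Z
  Z : S.N * S.W + S.N ≤ S.Z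

/-- The distance from the source for the weights `wp`. -/
def F (v : ℕ) : ℕ := ds S.M S.wp U (S.M.nd S.M.s) v

def D (u v : ℕ) : ℕ := ds S.M S.w U u v

def Fa (u z : ℕ) : Prop := S.F u + S.N * S.D u z ≤ S.F z

def Fp (u z : ℕ) : Prop := S.F u + S.N * S.D u z < S.F z

def C (z : ℕ) : List ℕ := S.cls S.F S.Z z

/-- `z` lies in the territory of the head `h`. -/
inductive Te (h : ℕ) : ℕ → Prop
  | base : S.K h → ¬S.sp h → (¬S.sl S.F h ∨ S.sp (S.sv S.F h)) → Te h h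
  | step {z : ℕ} : Te h (S.sv S.F z) → S.K z → ¬S.sp z → S.sl S.F z → Te h z

/-- Canonical legs. -/
def Can (a b : ℕ) : Prop :=
  S.K (S.M.nd b) ∧ ¬S.sp (S.M.nd b) ∧ ¬S.sl S.F (S.M.nd b) ∧ S.la S.F (S.M.nd b) = a ∧
    S.lb S.F (S.M.nd b) = b

/-- KT: the tree on the skeleton and its contour. -/
structure Kt0 : Prop where
  bel : ∀ v x, S.bel v x ↔ S.X x ∧ ∃ t, S.f.par^[t] x = v
  K : ∀ v, S.K v ↔ ∃ x, S.X x ∧ ∃ t, S.f.par^[t] x = v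
  live : ∀ v, S.K v → S.f.live v ∧ v < S.M.n ∧ S.M.nd v = v
  par : ∀ v, S.K v → S.K (S.f.par v)
  iv : Iv S.M.n S.gam
  sb : Sb S.M.n S.gam S.M.β
  gk : ∀ d, S.gam d ≠ d → S.K (S.M.nd d) ∧ S.K (S.M.nd (S.gam d))
  typ : ∀ d < S.M.n, S.gam d ≠ d → S.pd (S.M.nd d) = d ∨ S.pd (S.M.nd (S.gam d)) = S.gam d ∨
    (S.con d ∧ S.con (S.gam d))
  up : ∀ v, S.K v → S.f.par v ≠ v → S.pd v < S.M.n ∧ S.M.nd (S.pd v) = v ∧
    S.gam (S.pd v) ≠ S.pd v ∧ S.M.nd (S.gam (S.pd v)) = S.f.par v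
  pd : ∀ v, S.pd v < S.M.n → S.f.par v ≠ v
  inj : ∀ a < S.M.n, ∀ b < S.M.n, S.pos a = S.pos b → a = b
  psi : ∀ d < S.M.n, S.psi d < S.M.n ∧ S.M.nd (S.psi d) = S.M.nd (S.gam d)
  succ : ∀ d < S.M.n, S.K (S.M.nd d) → S.pos (S.psi d) = S.pos d + 1 ∨
    S.f.par (S.M.nd (S.psi d)) = S.M.nd (S.psi d)
  wps : ∀ d < S.M.n, S.M.β d ≠ d → S.wp (S.M.β d) = S.wp d

/-- RUN: the darts of the skeleton form one cycle. -/
structure KtK : Prop extends S.Kt0 where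
  run : ∀ d < S.M.n, ∀ e < S.M.n, S.K (S.M.nd d) → S.K (S.M.nd e) → S.pos d ≤ S.pos e →
    ∃ t, S.psi^[t] d = e ∧ ∀ s ≤ t, S.pos (S.psi^[s] d) = S.pos d + s

/-- KEY: the classes are paths; the special vertices are their ends. -/
structure KeyK : Prop where
  ends : ∀ z, S.K z → S.sam (S.tp z) z ∧ S.top (S.tp z) ∧ S.sam (S.bt z) z ∧ S.bot (S.bt z)
  tp : ∀ u z, S.sam u z → S.top u → u = S.tp z
  bt : ∀ u z, S.sam u z → S.bot u → u = S.bt z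
  ht : ∀ u z, S.sam u z → S.f.ht (S.tp z) ≤ S.f.ht u ∧ S.f.ht u ≤ S.f.ht (S.bt z)
  cmp : ∀ u v, S.sam u v → S.f.ht u ≤ S.f.ht v → ∃ t, S.f.par^[t] v = u ∧
    ∀ s ≤ t, S.sam (S.f.par^[s] v) v ∧ (s < t → S.f.par (S.f.par^[s] v) ≠ S.f.par^[s] v)
  inj : ∀ u v, S.sam u v → S.f.ht u = S.f.ht v → u = v
  xb : ∀ x, S.X x → S.sp x
  child : ∀ v u, S.K v → ¬S.sp v → S.K u → u ≠ v → S.f.par u = v →
    S.sam u v ∧ ∀ u', S.K u' → u' ≠ v → S.f.par u' = v → u' = u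
  nxt : ∀ u v, S.sam u v → S.f.par v ≠ v → S.f.ht u < S.f.ht v → S.f.ht u ≤ S.f.ht (S.f.par v)

/-- LINE -/
structure LineK (r μ : ℕ) : Prop where
  sam : ∀ z o x, S.K z → S.sam (S.vx z o x) z
  mono : ∀ z x y, S.K z → x ≤ y → S.f.ht (S.vx z 1 x) ≤ S.f.ht (S.vx z 1 y)
  anti : ∀ z o x y, S.K z → o ≠ 1 → x ≤ y → S.f.ht (S.vx z o y) ≤ S.f.ht (S.vx z o x)
  surj : ∀ z o u, S.sam u z → ∃ x < S.M.n, S.vx z o x = u
  slide : ∀ u v, S.sam u v → Wk S.M S.wp U u v (S.N * df (S.f.ht u) (S.f.ht v))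
  ntop : cnt S.M.n (fun v => S.K v ∧ S.top v) ≤ μ * (μ + 1) * r
  nsp : cnt S.M.n S.sp ≤ 2 * (μ * (μ + 1) * r)

/-- The next dart of the tree around the vertex leads down. -/
def dn (d : ℕ) : Prop :=
  ∃ t, S.gam (S.M.ρ^[t] d) ≠ S.M.ρ^[t] d ∧ S.pd (S.M.nd d) ≠ S.M.ρ^[t] d ∧
    ∀ s < t, S.gam (S.M.ρ^[s] d) = S.M.ρ^[s] d

/-- SIDE -/
structure SideK : Prop where
  step : ∀ d < S.M.n, S.K (S.M.nd d) → ¬S.sp (S.M.nd d) → ¬S.cut d →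
    (S.dn (S.psi d) ↔ S.dn d) ∧ ¬S.sp (S.M.nd (S.psi d)) ∧ S.sam (S.M.nd (S.psi d)) (S.M.nd d) ∧
      (S.dn d → S.hp d ≤ S.hp (S.psi d)) ∧ (¬S.dn d → S.hp (S.psi d) ≤ S.hp d)
  fin : ∀ d < S.M.n, ∀ e < S.M.n, ¬S.sp (S.M.nd d) → ¬S.sp (S.M.nd e) → S.cut d → S.cut e →
    S.sam (S.M.nd d) (S.M.nd e) → (S.dn d ↔ S.dn e) → d = e

/-- BLK1 -/
structure BlkK : Prop where
  mono : ∀ a b, S.pos a ≤ S.pos b → S.blk a ≤ S.blk b
  s1 : ∀ a b, S.port a → S.port b → S.blk a = S.blk b → S.sp (S.M.nd a) → S.M.nd b = S.M.nd a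
  s2 : ∀ a b, S.port a → S.port b → S.blk a = S.blk b → S.sam (S.M.nd a) (S.M.nd b)
  dir : ∀ A, S.inc A ∨ S.dec A

/-- BLK3: a class has two sides. -/
def Blk3 : Prop :=
  ∀ a b c, S.port a → S.port b → S.port c → ¬S.sp (S.M.nd a) → ¬S.sp (S.M.nd b) →
    ¬S.sp (S.M.nd c) → S.sam (S.M.nd a) (S.M.nd b) → S.sam (S.M.nd a) (S.M.nd c) →
      S.blk a = S.blk b ∨ S.blk a = S.blk c ∨ S.blk b = S.blk c

/-- BLKN -/
def BlkN (B : ℕ) : Prop := ∀ a, S.blk a < B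

/-- CROSS -/
structure CrossK : Prop where
  symm : ∀ a b c, S.Lg a b c → S.Lg b a c
  swap : ∀ a a' b b' c c', S.pos a < S.pos a' → S.pos a' < S.pos b → S.pos b < S.pos b' →
    S.Lg a b c → S.Lg a' b' c' →
      (∃ c1 c2, S.Lg a b' c1 ∧ S.Lg a' b c2 ∧ c1 + c2 = c + c') ∧
        ∃ c1 c2, S.Lg a a' c1 ∧ S.Lg b b' c2 ∧ c1 + c2 = c + c'

/-- LSEM -/
structure LsK : Prop where
  lg : ∀ a b, S.port a → S.port b → S.Lf a b → S.Lg a b (S.Lv a b)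
  le : ∀ a b c, S.Lg a b c → S.Lf a b ∧ S.Lv a b ≤ c
  back : ∀ a b b' c c', S.Lg a b c → S.Lg b b' c' →
    S.M.nd b' = S.M.nd a ∨ ∃ c'', S.Lg a b' c'' ∧ c'' < c + c'
  pos : ∀ a b c, S.Lg a b c → 1 ≤ c

/-- BELL -/
structure BellK : Prop where
  lt : ∀ v, S.f.live v → S.F v < S.Z
  zero : S.F (S.M.nd S.M.s) = 0
  wk : ∀ u v c, S.f.live u → Wk S.M S.wp U u v c → S.F v ≤ S.F u + c
  sl : ∀ d < S.M.n, S.gam d ≠ d → S.F (S.M.nd d) ≤ S.F (S.M.nd (S.gam d)) + S.N * S.w d ∧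
    1 ≤ S.N * S.w d
  lg : ∀ a b c, S.Lg a b c → S.F (S.M.nd b) ≤ S.F (S.M.nd a) + c
  ex : ∀ z, S.K z → z ≠ S.M.nd S.M.s →
    S.sl S.F z ∨ ∃ a < S.M.n, ∃ b < S.M.n, S.M.nd b = z ∧ S.tg S.F a b
  ans : ∀ v, S.f.live v → S.F v / S.N = S.D (S.M.nd S.M.s) v

/-- ONCE -/
structure OnceK : Prop where
  refl : ∀ u, S.Fa u u
  aa : ∀ u v z, S.K u → S.K v → S.K z → S.Fa u v → S.Fa v z → S.Fa u z
  ap : ∀ u v z, S.K u → S.K v → S.K z → S.Fa u v → S.Fp v z → S.Fp u z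
  pa : ∀ u v z, S.K u → S.K v → S.K z → S.Fp u v → S.Fa v z → S.Fp u z
  leg : ∀ a b, S.tg S.F a b → S.Fp (S.M.nd a) (S.M.nd b)
  sld : ∀ z, ∀ d < S.M.n, S.ts S.F z d → S.Fa (S.M.nd (S.gam d)) z
  once : ∀ u z, S.sam u z → ¬S.Fp u z

/-- TER: territories. -/
structure TerK : Prop where
  ex : ∀ z, S.K z → ¬S.sp z → ∃ h, S.Te h z
  uniq : ∀ h h' z, S.Te h z → S.Te h' z → h = h'
  mem : ∀ h z, S.Te h z → S.Te h h ∧ S.sam h z ∧ ¬S.sp h ∧ ¬S.sp z ∧ S.Fa h z ∧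
    S.F z = S.F h + S.N * df (S.f.ht h) (S.f.ht z)
  conv : ∀ h z u, S.Te h z → S.sam u z →
    (S.f.ht h ≤ S.f.ht u ∧ S.f.ht u ≤ S.f.ht z) ∨ (S.f.ht z ≤ S.f.ht u ∧ S.f.ht u ≤ S.f.ht h) →
      S.Te h u

/-- CLS: the recursion of the itineraries. -/
structure ClsK : Prop where
  sp : ∀ z, S.sp z → S.C z = [0]
  te : ∀ h z, S.Te h z → S.C z = S.C h
  can : ∀ a b, S.Can a b → S.tg S.F a b ∧ S.Te (S.M.nd b) (S.M.nd b) ∧
    S.C (S.M.nd b) = S.C (S.M.nd a) ++ [S.blk a, S.blk b] ∧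
    ∀ a' b', S.M.nd b' = S.M.nd b → S.tg S.F a' b' → a ≤ a'
  head : ∀ h, S.Te h h →
    (S.C h = [1] ∧ (∀ u, S.sam u h → ¬S.sp u → S.f.ht h ≤ S.f.ht u) ∧
      S.F h = S.F (S.tp h) + S.N * (S.f.ht h - S.f.ht (S.tp h)) ∧ S.F (S.tp h) < S.F h) ∨
    (S.C h = [2] ∧ (∀ u, S.sam u h → ¬S.sp u → S.f.ht u ≤ S.f.ht h) ∧
      S.F h = S.F (S.bt h) + S.N * (S.f.ht (S.bt h) - S.f.ht h) ∧ S.F (S.bt h) < S.F h) ∨
    ∃ a b, S.Can a b ∧ S.M.nd b = h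
  ne : ∀ z, S.C z ≠ []

/-- AGR -/
def AgrK : Prop :=
  ∀ (e : ℕ → ℕ) (ρ : ℕ), ρ < S.Z → (∀ v, S.K v → e v = if S.F v ≤ ρ then S.F v else S.Z) →
    ∀ z, S.K z → S.F z ≤ ρ → S.cls e S.Z z = S.C z

/-- NC: canonical legs do not cross. -/
structure NcK : Prop where
  nc : ∀ a b a' b', S.Can a b → S.Can a' b' →
    ¬(min (S.pos a) (S.pos b) < min (S.pos a') (S.pos b') ∧
      min (S.pos a') (S.pos b') < max (S.pos a) (S.pos b) ∧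
      max (S.pos a) (S.pos b) < max (S.pos a') (S.pos b'))
  ne : ∀ a b a' b', S.Can a b → S.Can a' b' → S.pos b ≠ S.pos a'
  ns : ∀ a b, S.Can a b → ¬S.sam (S.M.nd a) (S.M.nd b) ∧ S.blk a ≠ S.blk b
  two : ∀ a b a' b', S.Can a b → S.Can a' b' → S.Te (S.M.nd b') (S.M.nd a) →
    ¬S.sam (S.M.nd a') (S.M.nd b) ∧ S.blk a' ≠ S.blk b

/-- TOUCH -/
structure TouchK : Prop where
  mid : ∀ a1 b1 a2 b2 a3 b3, S.Can a1 b1 → S.Can a2 b2 → S.Can a3 b3 → S.pos b1 < S.pos b2 →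
    S.pos b2 < S.pos b3 → S.blk b1 = S.blk b3 → S.blk a1 = S.blk a3 →
      S.pos a3 ≤ S.pos a2 ∧ S.pos a2 ≤ S.pos a1
  touch : ∀ a1 b1 a3 b3 a1' b1' a3' b3', S.Can a1 b1 → S.Can a3 b3 → S.Can a1' b1' →
    S.Can a3' b3' → S.Te (S.M.nd b1') (S.M.nd a1) → S.Te (S.M.nd b3') (S.M.nd a3) →
    S.blk a1 = S.blk a3 → S.blk b1 = S.blk b3 → S.blk a1' = S.blk a3' → S.blk b1' = S.blk a1 →
    S.blk b3' = S.blk a1 → S.M.nd b1' = S.M.nd b3'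
  bet : ∀ h1 v1 h2 v2 h3 v3, S.Te h1 v1 → S.Te h2 v2 → S.Te h3 v3 → S.sam v1 v2 → S.sam v2 v3 →
    S.f.ht v3 ≤ S.f.ht v2 → S.f.ht v2 ≤ S.f.ht v1 → h2 ≠ h1 → h2 ≠ h3 →
      S.f.ht h3 < S.f.ht h2 ∧ S.f.ht h2 < S.f.ht h1 ∧ S.f.ht v3 < S.f.ht h2 ∧ S.f.ht h2 < S.f.ht v1

/-- LEMMA A -/
def LemA : Prop :=
  ∀ a1 b1 a2 b2 a3 b3, S.Can a1 b1 → S.Can a2 b2 → S.Can a3 b3 → S.pos b1 < S.pos b2 →
    S.pos b2 < S.pos b3 → S.C (S.M.nd b1) = S.C (S.M.nd b3) → S.C (S.M.nd b2) = S.C (S.M.nd b1)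

/-- The rank of the block `B` in the cyclic order that starts behind `A`. -/
def cy (m A B : ℕ) : ℕ := if A < B then B else B + m

/-- STAIR: a crossing leg whose target is not the last one of its class determines the class. -/
def Stair (m : ℕ) : Prop :=
  ∀ a b a1 b1 a' b' a1' b1' a'' b'', S.Can a b → S.Can a1 b1 → S.Can a' b' → S.Can a1' b1' →
    S.Can a'' b'' → S.Te (S.M.nd b1) (S.M.nd a) → S.Te (S.M.nd b1') (S.M.nd a') →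
    S.blk b1 ≠ S.blk a → S.blk b1' ≠ S.blk a → S.blk a' = S.blk a → S.blk a'' = S.blk a →
    S.blk b' = S.blk b → S.pos a ≤ S.pos a' → S.C (S.M.nd a'') = S.C (S.M.nd a') →
    cy m (S.blk a) (S.blk b') < cy m (S.blk a) (S.blk b'') → S.C (S.M.nd a) = S.C (S.M.nd a')

/-- LEN -/
def LenK (B : ℕ) : Prop := ∀ z, S.K z → (S.C z).length ≤ 2 * B + 1 ∧ (S.C z).length % 2 = 1

/-- CNT -/
def CntK (B : ℕ) : Prop :=
  (((Finset.range S.M.n).filter fun z => S.K z ∧ ¬S.sp z).image S.C).card ≤ (B + 2) ^ 5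

/-- MONQ -/
structure MonQ : Prop where
  le : ∀ a b h h', S.port a → S.port b → S.Lf a b →
    S.sq (S.blk a) (S.blk b) h h' ≤ S.N * df h (S.hp a) + S.Lv a b + S.N * df (S.hp b) h'
  ex : ∀ a b h h', S.port a → S.port b → S.Lf a b → ∃ a' b', S.port a' ∧ S.port b' ∧
    S.blk a' = S.blk a ∧ S.blk b' = S.blk b ∧ S.Lf a' b' ∧
    S.sq (S.blk a) (S.blk b) h h' = S.N * df h (S.hp a') + S.Lv a' b' + S.N * df (S.hp b') h'
  mon : ∀ A B h1 h2 k1 k2, A ≠ B → (if S.inc A then h1 ≤ h2 else h2 ≤ h1) →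
    (if S.inc B then k2 ≤ k1 else k1 ≤ k2) →
      S.sq A B h1 k1 + S.sq A B h2 k2 ≤ S.sq A B h1 k2 + S.sq A B h2 k1

/-- MON -/
def MonK : Prop := ∀ T I, Mon (S.sd T I)

/-- `I` codes the itinerary `l` and perhaps more. -/
def Pre (I l : List ℕ) : Prop := ∀ j < l.length, gt I (j + 1) = gt l j

/-- D0 -/
structure D0K : Prop where
  lo : ∀ (T : List ℕ) z u, (∀ x, S.sp x → S.F x ≤ S.g T x) → S.sam u z →
    S.F u ≤ S.d0 T z (S.f.ht u)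
  hi : ∀ (T : List ℕ) z u, (∀ y, S.sp y → S.F y ≤ S.F u → S.g T y = S.F y) → S.sam u z →
    (S.C u).length = 1 → S.d0 T z (S.f.ht u) ≤ S.F u
  rep : ∀ a, S.port a → S.port (S.rep (S.blk a)) ∧ S.blk (S.rep (S.blk a)) = S.blk a ∧
    S.sam (S.M.nd (S.rep (S.blk a))) (S.M.nd a)
  last : ∀ (I : List ℕ) z, S.K z → Pre I (S.C z) → 3 ≤ (S.C z).length →
    S.sam (S.lz I ((S.C z).length / 2)) z
  pre : ∀ (I : List ℕ) a b, S.Can a b → Pre I (S.C (S.M.nd b)) → Pre I (S.C (S.M.nd a)) ∧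
    (S.C (S.M.nd b)).length / 2 = (S.C (S.M.nd a)).length / 2 + 1 ∧
    gt I (2 * ((S.C (S.M.nd a)).length / 2 + 1)) = S.blk a ∧
    gt I (2 * ((S.C (S.M.nd a)).length / 2 + 1) + 1) = S.blk b ∧
    S.sam (S.lz I ((S.C (S.M.nd a)).length / 2)) (S.M.nd a)

/-- VALL -/
def ValL : Prop :=
  ∀ (T I : List ℕ) (Wd z : ℕ), 0 < Wd → (∀ x, S.sp x → S.F x ≤ S.g T x) → S.K z → Pre I (S.C z) →
    3 ≤ (S.C z).length → ∀ j ≤ (S.C z).length / 2, S.K (S.lz I j) ∧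
      ∀ x, S.F (S.pv I j x) ≤ opt (S.sd T I) 0 Wd (gt []) j x

/-- VALU -/
def ValU : Prop :=
  ∀ (T I : List ℕ) (Wd z x : ℕ), S.M.n ≤ Wd → S.K z →
    (∀ y, S.sp y → S.F y ≤ S.F z → S.g T y = S.F y) → Pre I (S.C z) →
    S.sam (S.lz I ((S.C z).length / 2)) z → S.pv I ((S.C z).length / 2) x = z →
      opt (S.sd T I) 0 Wd (gt []) ((S.C z).length / 2) x ≤ S.F z

/-- The state knows everything below the radius `ρ`. -/
structure Inv (k ρ : ℕ) (T : List ℕ) : Prop where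
  g : ∀ x, S.sp x → S.g T x = if S.F x < ρ then S.F x else S.Z
  rows : ∀ r < k, nl (row k T r) = 0 ∨ ∃ z, S.K z ∧ row k T r = enc k (S.C z)
  all : ∀ z, S.K z → ¬S.sp z → S.F z < ρ → ∃ r < k, row k T r = enc k (S.C z)

/-- VL -/
def VlK (k t : ℕ) : Prop :=
  ∀ ρ T, S.Inv k ρ T → ∀ z, S.K z → S.F z ≤ S.vl k t T z ∧ (S.F z < ρ → S.vl k t T z = S.F z)

/-- E1 -/
def E1K (k t : ℕ) : Prop :=
  ∀ ρ T, ρ < S.Z → S.Inv k ρ T → ∀ z, S.K z →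
    S.e1 k t T ρ z = if S.F z ≤ ρ then S.F z else S.Z

/-- MK -/
def MkK (k : ℕ) : Prop :=
  ∀ (e : ℕ → ℕ) (ρ : ℕ), ρ < S.Z → (∀ v, S.K v → e v = if S.F v ≤ ρ then S.F v else S.Z) →
    S.Inv k (ρ + 1) (S.mkT k e ρ)

end Sk

/-- The bound for the number of blocks. -/
def bq (r μ : ℕ) : ℕ := 6 * (μ * (μ + 1) * r) + μ + 1

def kq (r μ : ℕ) : ℕ := (bq r μ + 2) ^ 5

section
open Sk

def Kt0S : Prop := ∀ (S : Sk) r μ, S.Ok r μ → S.Kt0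
def KtS : Prop := ∀ (S : Sk) r μ, S.Ok r μ → S.Kt0 → S.KtK
def KeyS : Prop := ∀ (S : Sk) r μ, S.Ok r μ → S.Kt0 → S.KeyK
def LineS : Prop := ∀ (S : Sk) r μ, S.Ok r μ → S.Kt0 → S.KeyK → S.LineK r μ
def SideS : Prop := ∀ (S : Sk) r μ, S.Ok r μ → S.Kt0 → S.KeyK → S.SideK
def BlkS : Prop := ∀ S : Sk, S.KtK → S.SideK → S.BlkK
def Blk3S : Prop := ∀ (S : Sk) r μ, S.Ok r μ → S.KtK → S.SideK → S.Blk3
def BlkNS : Prop := ∀ (S : Sk) r μ, S.Ok r μ → S.Kt0 → S.KeyK → S.LineK r μ → S.BlkN (bq r μ)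
def CrossS : Prop := JorS → ∀ (S : Sk) r μ, S.Ok r μ → S.KtK → S.CrossK
def LsS : Prop := ∀ (S : Sk) r μ, S.Ok r μ → S.Kt0 → S.LsK
def BellS : Prop := ∀ (S : Sk) r μ, S.Ok r μ → S.Kt0 → S.LsK → S.BellK
def OnceS : Prop :=
  ∀ (S : Sk) r μ, S.Ok r μ → S.Kt0 → S.LineK r μ → S.LsK → S.BellK → S.OnceK
def TerS : Prop := ∀ (S : Sk) r μ, S.Ok r μ → S.Kt0 → S.KeyK → S.BellK → S.OnceK → S.TerK
def ClsS : Prop := ∀ (S : Sk) r μ, S.Ok r μ → S.Kt0 → S.KeyK → S.LsK → S.BellK → S.ClsK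
def AgrS : Prop := ∀ (S : Sk) r μ, S.Ok r μ → S.Kt0 → S.KeyK → S.LsK → S.BellK → S.AgrK
def NcS : Prop := ∀ S : Sk, S.Kt0 → S.BlkK → S.CrossK → S.LsK → S.BellK → S.OnceK → S.TerK →
  S.ClsK → S.NcK
def TouchS : Prop := ∀ S : Sk, S.Kt0 → S.KeyK → S.BlkK → S.TerK → S.ClsK → S.NcK → S.TouchK
def LemAS : Prop := ∀ S : Sk, S.Kt0 → S.KeyK → S.BlkK → S.Blk3 → S.TerK → S.ClsK → S.NcK →
  S.TouchK → S.LemA
def StairS : Prop := ∀ (S : Sk) m, S.Kt0 → S.KeyK → S.BlkK → S.Blk3 → S.BlkN m → S.TerK →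
  S.ClsK → S.NcK → S.TouchK → S.LemA → S.Stair m
def LenS : Prop := ∀ (S : Sk) B, S.BlkK → S.BlkN B → S.LsK → S.BellK → S.OnceK → S.TerK →
  S.ClsK → S.LenK B
def CntS : Prop := ∀ (S : Sk) B, S.Kt0 → S.BlkK → S.Blk3 → S.BlkN B → S.TerK → S.ClsK →
  S.TouchK → S.Stair B → S.LenK B → S.CntK B
def MonQS : Prop := ∀ S : Sk, S.Kt0 → S.BlkK → S.CrossK → S.LsK → S.MonQ
def MonS : Prop := ∀ (S : Sk) r μ, S.LineK r μ → S.MonQ → S.MonK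
def D0S : Prop := ∀ (S : Sk) r μ B, S.Kt0 → S.KeyK → S.LineK r μ → S.BlkK → S.BellK → S.TerK →
  S.ClsK → S.LenK B → S.D0K
def ValLS : Prop := ∀ (S : Sk) r μ B, S.LineK r μ → S.BlkK → S.LsK → S.BellK → S.Kt0 →
  S.TerK → S.ClsK → S.NcK → S.MonQ → S.LenK B → S.D0K → S.ValL
def ValUS : Prop := ∀ (S : Sk) r μ B, S.LineK r μ → S.BlkK → S.LsK → S.BellK → S.Kt0 →
  S.TerK → S.ClsK → S.NcK → S.MonQ → S.LenK B → S.D0K → S.ValU
def VlS : Prop := ∀ (S : Sk) r μ B k t, S.Kt0 → S.LineK r μ → S.BellK → S.LenK B →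
  S.MonK → S.D0K → S.ValL → S.ValU → 2 * B + 2 ≤ k → S.M.n ≤ k ^ t → S.VlK k t
def E1S : Prop := ∀ (S : Sk) k t, S.Kt0 → S.LsK → S.BellK → S.VlK k t → S.E1K k t
def MkS : Prop := ∀ (S : Sk) B k, S.Kt0 → S.AgrK → S.CntK B → (B + 2) ^ 5 ≤ k →
  cnt S.M.n S.sp ≤ k → S.MkK k

/-- The final stage is right. -/
def FinS : Prop :=
  ∀ (S : Sk) r μ t, S.Ok r μ → S.M.n ≤ kq r μ ^ t → S.X (S.M.nd S.M.t) →
    S.res (kq r μ) t = ds S.M S.w U (S.M.nd S.M.s) (S.M.nd S.M.t)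

/-- DIJ -/
def DijS : Prop := ∀ (S : Sk) k t, S.Kt0 → S.KeyK → S.BellK → S.E1K k t → S.MkK k →
  cnt S.M.n S.sp ≤ k → S.X (S.M.nd S.M.t) → S.res k t = S.D (S.M.nd S.M.s) (S.M.nd S.M.t)

end

/-! ### The levels -/

def lv (M : Mp) (v : ℕ) : Prop :=
  v < M.n ∧ M.nd v = v ∧
    ps M.n (fun d => M.ρ ((M.F M.f0).tau d)) (fun _ => True) v / M.n =
      ps M.n (fun d => M.ρ ((M.F M.f0).tau d)) (fun _ => True) M.s / M.n

def f1 (M : Mp) (W : ℕ) : Fo := ⟨fun v => v, fun _ => 0, W, lv M, lv M⟩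

def exm (M : Mp) (f : Fo) (R v : ℕ) : Prop :=
  f.live v ∧ cnt M.n (fun u => f.live u ∧ (M.L f).pos u < (M.L f).pos v) % R = 0

/-- Every `R`-th live vertex gets a mark. -/
def pl (M : Mp) (f : Fo) (R : ℕ) : Fo := ⟨f.par, f.ht, f.H, f.live, fun v => f.mk' v ∨ exm M f R v⟩

def dK (M : Mp) (w : ℕ → ℕ) (K : ℕ → Prop) (o : ℕ → ℕ → ℕ) (Z v : ℕ) : ℕ :=
  if K v then 0 else mnv M.n
    (fun d => M.β d ≠ d ∧ ¬K (M.nd d) ∧ K (M.nd (M.β d)) ∧ o v (M.nd d) < Z)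
    fun d => o v (M.nd d) + w d

def nxF (M : Mp) (w : ℕ → ℕ) (W : ℕ) (f : Fo) (K X : ℕ → Prop) (δ : ℕ → ℕ) : Fo where
  par v := if K v then f.par v else
    M.nd (M.β (lst M.n fun d => M.nd d = v ∧ M.β d ≠ d ∧ w d + δ (M.nd (M.β d)) = δ v))
  ht v := if K v then f.ht v else f.H + δ v
  H := f.H + W
  live := f.live
  mk' := X

/-- The invariant of the forests. -/
structure Lok (M : Mp) (w : ℕ → ℕ) (W l : ℕ) (f : Fo) : Prop where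
  fit : M.Fit f
  comp : ∀ v, f.live v → Rc M w U (M.nd M.s) v
  geo : Geo M w W f
  hH : f.H = l * W

/-- COMP -/
def CompS : Prop :=
  ∀ M w W, Wok M w W → (∀ v, lv M v ↔ v < M.n ∧ M.nd v = v ∧ Rc M w U (M.nd M.s) v) ∧
    Lok M w W 1 (f1 M W)

/-- `δ` is the distance to `K`. -/
structure DkK (M : Mp) (w : ℕ → ℕ) (W : ℕ) (live K : ℕ → Prop) (δ : ℕ → ℕ) : Prop where
  zero : ∀ v, K v → δ v = 0
  lt : ∀ v, live v → δ v < W
  lip : ∀ d < M.n, M.β d ≠ d → live (M.nd d) → δ (M.nd d) ≤ δ (M.nd (M.β d)) + w d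
  ex : ∀ v, live v → ¬K v → ∃ d < M.n, M.nd d = v ∧ M.β d ≠ d ∧ w d + δ (M.nd (M.β d)) = δ v

/-- DK -/
def DkS : Prop :=
  ∀ M w W l f (K : ℕ → Prop) o Z, Wok M w W → Lok M w W l f → K (M.nd M.s) →
    (∀ v, K v → f.live v) → W ≤ Z → OrK M w f.live K o Z → DkK M w W f.live K (dK M w K o Z)

/-- NEXT -/
def NxS : Prop :=
  ∀ M w W l f (K X : ℕ → Prop) δ, Wok M w W → Lok M w W l f → X (M.nd M.s) →
    (∀ x, X x → f.live x) → (∀ v, K v ↔ ∃ x, X x ∧ ∃ t, f.par^[t] x = v) →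
    DkK M w W f.live K δ → Lok M w W (l + 1) (nxF M w W f K X δ)

/-- The number of vertices in the component of `u`. -/
def csz (M : Mp) (w : ℕ → ℕ) (A : ℕ → Prop) (u : ℕ) : ℕ :=
  cnt M.n fun v => M.nd v = v ∧ Rc M w A u v

/-- SIZE -/
def SizeS : Prop :=
  ∀ M w W l f D R m, Wok M w W → Lok M w W l f → 1 ≤ D → 1 ≤ R → cnt M.n f.live ≤ m * R →
    Lok M w W l (pl M f R) ∧ cnt M.n (pl M f R).mk' ≤ cnt M.n f.mk' + m ∧
      ∀ (K : ℕ → Prop) (w' : ℕ → ℕ), (∀ v, (M.ld D (pl M f R)).K v → K v) → ∀ u, f.live u → ¬K u →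
        csz M w' (fun z => ¬K z) u ≤ 4 * D ^ 2 * R

def inp (x : List Bool) : Mp :=
  ⟨num x 0, fun d => num x (4 + d), fun d => num x (4 + num x 0 + d), fun _ => True, num x 1,
    num x 2⟩

def wt (x : List Bool) (d : ℕ) : ℕ := num x (4 + num x 0 + num x 0 + d)

def Wx (x : List Bool) : ℕ := (x.length + 1) ^ 2

def Zx (x : List Bool) : ℕ := (x.length + 2) ^ 4

def ent (x : List Bool) (β w : ℕ → ℕ) (u v θ i : ℕ) : ℕ :=
  min (Zx x) (if i = 0 then num x 0 else if i = 1 then u else if i = 2 then v else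
    if i = 3 then θ else if i < 4 + num x 0 then num x i else
    if i < 4 + num x 0 + num x 0 then β (i - (4 + num x 0)) else w (i - (4 + num x 0 + num x 0)))

/-- The virtual instance. -/
def vy (x : List Bool) (β w : ℕ → ℕ) (u v θ : ℕ) : List Bool :=
  unary (tab (4 + num x 0 + num x 0 + num x 0) (ent x β w u v θ))

def sub (M : Mp) (K : ℕ → Prop) (d : ℕ) : ℕ :=
  if ¬K (M.nd d) ∧ ¬K (M.nd (M.β d)) then M.β d else d

def orc (φ : List Bool → ℕ) (x : List Bool) (K : ℕ → Prop) (w : ℕ → ℕ) (u v : ℕ) : ℕ :=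
  lst (Zx x + 1) fun θ => θ = Zx x ∨ φ (vy x (sub (inp x) K) w u v θ) = 1

/-- `φ` is right if the component of the source has at most `m n` vertices. -/
def Cor (m : ℕ → ℕ) (φ : List Bool → ℕ) : Prop :=
  ∀ y, Wok (inp y) (wt y) (Wx y) → (inp y).t < (inp y).n →
    csz (inp y) (wt y) U ((inp y).nd (inp y).s) ≤ m (num y 0) →
      (φ y = 1 ↔ ∃ c ≤ num y 3,
        Wk (inp y) (wt y) U ((inp y).nd (inp y).s) ((inp y).nd (inp y).t) c)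

/-- The map with other edges and ends. -/
def alt (M : Mp) (β : ℕ → ℕ) (u v : ℕ) : Mp := ⟨M.n, M.ρ, β, fun _ => True, u, v⟩

/-- VY: a call on a virtual instance. -/
def VyS : Prop :=
  ∀ m φ x β w u v θ W, Cor m φ → Wok (alt (inp x) β u v) w W → v < num x 0 → θ ≤ Zx x →
    (∀ d < num x 0, w d ≤ Zx x) → csz (alt (inp x) β u v) w U ((inp x).nd u) ≤ m (num x 0) →
      (φ (vy x β w u v θ) = 1 ↔
        ∃ c ≤ θ, Wk (alt (inp x) β u v) w U ((inp x).nd u) ((inp x).nd v) c)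

/-- SUB -/
def SubS : Prop :=
  VyS → ∀ m φ x (live K : ℕ → Prop) p q, Cor m φ → Wok (inp x) (wt x) (Wx x) → 1 ≤ p →
    p ≤ num x 0 + 1 → q ≤ 1 → (∀ v, live v → v < num x 0 ∧ (inp x).nd v = v) →
    (∀ u, live u → ¬K u →
      csz (inp x) (fun d => p * wt x d + q) (fun z => ¬K z) u ≤ m (num x 0)) →
      OrK (inp x) (fun d => p * wt x d + q) live K (orc φ x K fun d => p * wt x d + q) (Zx x)

def ro (r n : ℕ) : ℕ := itr (fun m acc => if m ^ r ≤ n then m + 1 else acc) 0 (n + 1)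

def Dx (r : ℕ) (x : List Bool) : ℕ := 5000 * ro r (num x 0)

def mu (r D : ℕ) : ℕ := 4000 * (r + 1) * D ^ 4

def kx (r : ℕ) (x : List Bool) : ℕ := kq (r + 1) (mu r (Dx r x))

section
variable (φ : List Bool → ℕ) (x : List Bool) (D R : ℕ)

def nxt (f : Fo) : Fo :=
  nxF (inp x) (wt x) (Wx x) f ((inp x).ld D f).K ((inp x).X D f)
    (dK (inp x) (wt x) ((inp x).ld D f).K
      (orc φ x ((inp x).ld D f).K fun d => 1 * wt x d + 0) (Zx x))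

def lev : ℕ → Fo
  | 0 => pl (inp x) (f1 (inp x) (Wx x)) R
  | l + 1 => pl (inp x) (nxt φ x D (lev l)) R

def xs (f : Fo) (v : ℕ) : Prop :=
  (inp x).X D f v ∨ (∃ d < (inp x).n, ((inp x).F f).con d ∧ (inp x).nd d = v) ∨
    (v = (inp x).nd (inp x).t ∧ f.live v)

def skl (f : Fo) : Sk :=
  ⟨inp x, wt x, Wx x, f, xs x D f,
    orc φ x (anc (inp x).n f.par (xs x D f)) fun d => (num x 0 + 1) * wt x d + 1, Zx x⟩

def sk0 : Sk := ⟨inp x, wt x, Wx x, f1 (inp x) (Wx x), lv (inp x), fun _ _ => 0, Zx x⟩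

end

def ans (S : Sk) (k t θ : ℕ) : ℕ := if S.f.live (S.M.nd S.M.t) ∧ S.res k t ≤ θ then 1 else 0

def alg (r : ℕ) : ℕ → List Bool → ℕ
  | 0 => fun x => ans (sk0 x) (kx r x) r (num x 3)
  | j + 1 => fun x => ans (skl (alg r j) x (Dx r x)
      (lev (alg r j) x (Dx r x) (ro r (num x 0) ^ (j + 1)) r)) (kx r x) r (num x 3)

def mm (r j n : ℕ) : ℕ := (5000 * ro r n) ^ 3 * ro r n ^ j

/-- RO -/
def RoS : Prop :=
  ∀ r n, 1 ≤ r → 1 ≤ ro r n ∧ n < ro r n ^ r ∧ (ro r n - 1) ^ r ≤ n ∧ ro r n ≤ n + 1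

/-- LEV -/
def LevS : Prop :=
  CompS → DkS → NxS → SizeS → SubS → VyS → ∀ m φ x E R, Cor m φ → Wok (inp x) (wt x) (Wx x) →
    1 ≤ E → 1 ≤ R → csz (inp x) (wt x) U ((inp x).nd (inp x).s) ≤ (5000 * E) ^ 3 * R →
    4 * (5000 * E) ^ 2 * R ≤ m (num x 0) → ∀ l,
      Lok (inp x) (wt x) (Wx x) (l + 1) (lev φ x (5000 * E) R l) ∧
      (lev φ x (5000 * E) R l).live = lv (inp x) ∧
      cnt (inp x).n (lev φ x (5000 * E) R l).mk' ≤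
        num x 0 / E ^ l + l * (1001 * (5000 * E) ^ 4) + (5000 * E) ^ 3 ∧
      ∀ (K : ℕ → Prop) (w' : ℕ → ℕ),
        (∀ v, ((inp x).ld (5000 * E) (lev φ x (5000 * E) R l)).K v → K v) →
          ∀ u, lv (inp x) u → ¬K u → csz (inp x) w' (fun z => ¬K z) u ≤ m (num x 0)

/-- SKL -/
def SklS : Prop :=
  SubS → VyS → ∀ m φ x D r f, Cor m φ → Wok (inp x) (wt x) (Wx x) → 5000 ≤ D →
    Lok (inp x) (wt x) (Wx x) (r + 1) f →
    cnt (inp x).n f.mk' ≤ r * (1001 * D ^ 4) + D ^ 3 →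
    (∀ (K : ℕ → Prop) (w' : ℕ → ℕ), (∀ v, ((inp x).ld D f).K v → K v) →
      ∀ u, f.live u → ¬K u → csz (inp x) w' (fun z => ¬K z) u ≤ m (num x 0)) →
    (skl φ x D f).Ok (r + 1) (mu r D)

/-- REC -/
def RecS : Prop :=
  RoS → CompS → SubS → VyS → DkS → NxS → SizeS → LevS → SklS → FinS →
    ∀ r, 1 ≤ r → ∀ j, Cor (mm r j) (alg r j)

/-! ### The top -/

def us (x : List Bool) (d : ℕ) : Prop := num x (4 + num x 0 + num x 0 + num x 0 + d) = 1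

/-- Directed walks on darts. -/
inductive Dw (M : Mp) (us : ℕ → Prop) (w : ℕ → ℕ) (s : ℕ) : ℕ → ℕ → Prop
  | nil : Dw M us w s s 0
  | rot {a c : ℕ} : Dw M us w s a c → Dw M us w s (M.ρ a) c
  | edge {a c : ℕ} : Dw M us w s a c → us a → Dw M us w s (M.β a) (c + w a)

section
variable (x : List Bool) (π : ℕ → ℕ)

def be (d : ℕ) : ℕ := if us x d ∨ us x ((inp x).β d) then (inp x).β d else d

def om (d : ℕ) : ℕ :=
  (if us x d then wt x d else wt x ((inp x).β d)) +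
    (num x 3 + 1) * df (π ((inp x).nd d)) (π ((inp x).nd ((inp x).β d)))

def wm (d : ℕ) : ℕ :=
  mnv (num x 0) (fun e => be x e ≠ e ∧ (inp x).nd e = (inp x).nd d ∧
    (inp x).nd ((inp x).β e) = (inp x).nd ((inp x).β d)) (om x π)

def topv (φ : List Bool → ℕ) : ℕ :=
  if π ((inp x).nd (num x 1)) ≤ π ((inp x).nd (num x 2)) then
    φ (vy x (be x) (fun d => (num x 0 + 1) * wm x π d + 1) (num x 1) (num x 2)
      ((num x 0 + 1) * (num x 3 + (num x 3 + 1) *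
        (π ((inp x).nd (num x 2)) - π ((inp x).nd (num x 1)))) + num x 0))
  else 0

/-- `π` is a potential. -/
structure Pot : Prop where
  le : ∀ v, π v ≤ num x 0
  two : ∀ d < num x 0, us x d → us x ((inp x).β d) → wt x ((inp x).β d) = wt x d ∧
    π ((inp x).nd d) = π ((inp x).nd ((inp x).β d))
  one : ∀ d < num x 0, us x d → ¬us x ((inp x).β d) →
    π ((inp x).nd d) < π ((inp x).nd ((inp x).β d))

end

/-- TOP -/
def TopS : Prop :=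
  VyS → ∀ m φ x π, Cor m φ → (∀ n, n ≤ m n) → (inp x).Ok → num x 2 < num x 0 → Pot x π →
    (topv x π φ = 1 ↔ ∃ c ≤ num x 3, Dw (inp x) (us x) (wt x) (num x 1) (num x 2) c)

/-- CODE -/
def CodS : Prop :=
  ∀ {n : ℕ} (σ α : Equiv.Perm (Fin n)) (dir : Fin n → Bool) (w : Fin n → ℕ) (s t : Fin n) (θ : ℕ)
    (x : List Bool), α * α = 1 → Planar σ α → x = code σ α dir w s t θ →
      (inp x).Ok ∧ gen (inp x).n (inp x).ρ (inp x).β = 0 ∧ num x 0 = n ∧ num x 1 = s ∧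
      num x 2 = t ∧ num x 3 = θ ∧
      (∀ a : Fin n, (inp x).ρ a = σ a ∧ (inp x).β a = α a ∧ wt x a = w a ∧
        (us x a ↔ dir a = true)) ∧
      ∀ c, Dw (inp x) (us x) (wt x) s t c ↔ Walk σ α dir w s t c

/-! ### Computability -/

def F2 (κ : List Bool → ℕ) (o : List Bool → ℕ → ℕ → ℕ) : Prop :=
  ∀ a b : List Bool → Env → ℕ, Cn κ a → Cn κ b → Cn κ fun x ρ => o x (a x ρ) (b x ρ)

def F3 (κ : List Bool → ℕ) (o : List Bool → ℕ → ℕ → ℕ → ℕ) : Prop :=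
  ∀ a b c : List Bool → Env → ℕ, Cn κ a → Cn κ b → Cn κ c →
    Cn κ fun x ρ => o x (a x ρ) (b x ρ) (c x ρ)

structure SkC (κ : List Bool → ℕ) (S : List Bool → Sk) : Prop where
  M : Mp.C κ fun x => (S x).M
  nd : F1 κ fun x _ => (S x).M.nd
  w : F1 κ fun x _ => (S x).w
  W : Cn κ fun x _ => (S x).W
  f : Fo.C κ fun x => (S x).f
  X : P1 κ fun x _ => (S x).X
  o : F2 κ fun x => (S x).o
  Z : Cn κ fun x _ => (S x).Z

/-- PK -/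
structure PkK (κ : List Bool → ℕ) (S : List Bool → Sk) : Prop where
  K : P1 κ fun x _ => (S x).K
  gam : F1 κ fun x _ => (S x).gam
  sam : P2 κ fun x => (S x).sam
  sp : P1 κ fun x _ => (S x).sp
  tp : F1 κ fun x _ => (S x).tp
  bt : F1 κ fun x _ => (S x).bt
  vx : F3 κ fun x => (S x).vx
  port : P1 κ fun x _ => (S x).port
  blk : F1 κ fun x _ => (S x).blk
  hp : F1 κ fun x _ => (S x).hp
  inc : P1 κ fun x _ => (S x).inc
  rep : F1 κ fun x _ => (S x).rep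
  N : Cn κ fun x _ => (S x).N
  Lf : P2 κ fun x => (S x).Lf
  Lv : F2 κ fun x => (S x).Lv

/-- `F` and the weights of the forest map are computable. -/
def FmC : Prop :=
  ∀ κ (M : List Bool → Mp) (f : List Bool → Fo), Mp.C κ M → (F1 κ fun x _ => (M x).nd) →
    Fo.C κ f → Fm.C κ (fun x => (M x).F (f x)) ∧ (F1 κ fun x _ => ((M x).L (f x)).pos) ∧
      ∀ (n : List Bool → Env → ℕ) (P : List Bool → Env → ℕ → Prop)
        (c : List Bool → Env → ℕ → ℕ), Cn κ n → P1 κ P → F1 κ c →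
          Cn κ fun x ρ => mnv (n x ρ) (P x ρ) (c x ρ)

def PkS : Prop := FmC → ∀ κ S, SkC κ S → PkK κ S

/-- PC -/
def PcK (κ k : List Bool → ℕ) (S : List Bool → Sk) : Prop :=
  ∀ (e : List Bool → Env → ℕ → ℕ) (z : List Bool → Env → ℕ), F1 κ e → Cn κ z →
    (Cm κ fun x ρ => (S x).cz (k x) (e x ρ) (z x ρ)) ∧ ∀ p : List Bool → Env → ℕ, Cn κ p →
      Cp κ fun x ρ => (S x).hit (e x ρ) (p x ρ) (z x ρ)

def PcS : Prop := ∀ (κ k : List Bool → ℕ) S, SkC κ S → PkK κ S → (Cn κ fun x _ => k x) →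
  (∀ x, (k x + 2) ^ 3 ≤ κ x) → PcK κ k S

/-- AV: `Val` with two list parameters. -/
def AvS : Prop :=
  ∀ (κ k : List Bool → ℕ) (d : List Bool → List ℕ → List ℕ → ℕ → ℕ → ℕ → ℕ),
    (∀ x, (k x + 1) ^ 3 ≤ κ x) → Cn κ (fun x _ => k x) →
    (∀ (T I : List Bool → Env → List ℕ) (i a b : List Bool → Env → ℕ), Cm κ T → Cm κ I → Cn κ i →
      Cn κ a → Cn κ b → Cn κ fun x ρ => d x (T x ρ) (I x ρ) (i x ρ) (a x ρ) (b x ρ)) →
    ∀ (t : ℕ) (T I B : List Bool → Env → List ℕ) (i y : List Bool → Env → ℕ), Cm κ T → Cm κ I →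
      Cm κ B → Cn κ i → Cn κ y →
        Cn κ fun x ρ => Val (k x) 0 (d x (T x ρ) (I x ρ)) t (B x ρ) (i x ρ) (y x ρ)

/-- PS -/
structure PsK (κ : List Bool → ℕ) (S : List Bool → Sk) : Prop where
  g : ∀ (T : List Bool → Env → List ℕ) (z : List Bool → Env → ℕ), Cm κ T → Cn κ z →
    Cn κ fun x ρ => (S x).g (T x ρ) (z x ρ)
  d0 : ∀ (T : List Bool → Env → List ℕ) (z h : List Bool → Env → ℕ), Cm κ T → Cn κ z → Cn κ h →
    Cn κ fun x ρ => (S x).d0 (T x ρ) (z x ρ) (h x ρ)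
  sd : ∀ (T I : List Bool → Env → List ℕ) (i a b : List Bool → Env → ℕ), Cm κ T → Cm κ I →
    Cn κ i → Cn κ a → Cn κ b → Cn κ fun x ρ => (S x).sd (T x ρ) (I x ρ) (i x ρ) (a x ρ) (b x ρ)
  ix : ∀ (I : List Bool → Env → List ℕ) (z : List Bool → Env → ℕ), Cm κ I → Cn κ z →
    Cn κ fun x ρ => (S x).ix (I x ρ) (z x ρ)
  use : ∀ (I : List Bool → Env → List ℕ) (z : List Bool → Env → ℕ), Cm κ I → Cn κ z →
    Cp κ fun x ρ => (S x).use (I x ρ) (z x ρ)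

def PsS : Prop := FmC → ∀ κ S, SkC κ S → PkK κ S → PsK κ S

/-- PE -/
def PeK (κ k : List Bool → ℕ) (S : List Bool → Sk) (t : ℕ) : Prop :=
  ∀ (T : List Bool → Env → List ℕ) (p : List Bool → Env → ℕ), Cm κ T → Cn κ p →
    F1 κ fun x ρ => (S x).e1 (k x) t (T x ρ) (p x ρ)

def PeS : Prop := AvS → ∀ (κ k : List Bool → ℕ) S t, SkC κ S → PkK κ S → PcK κ k S → PsK κ S →
  (Cn κ fun x _ => k x) → (∀ x, (k x + 2) ^ 3 ≤ κ x) → PeK κ k S t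

/-- PD -/
def PdS : Prop := ∀ (κ k : List Bool → ℕ) S t, SkC κ S → PkK κ S → PcK κ k S → PsK κ S → PeK κ k S t →
  (Cn κ fun x _ => k x) → (∀ x, (k x + 2) ^ 3 ≤ κ x) → Cn κ fun x _ => (S x).res (k x) t

/-- The final stage is computable. -/
def PfS : Prop := ∀ (κ k : List Bool → ℕ) S t, SkC κ S → (Cn κ fun x _ => k x) → (∀ x, (k x + 2) ^ 3 ≤ κ x) →
  Cn κ fun x _ => (S x).res (k x) t

def bs (r : ℕ) (x : List Bool) : ℕ := (kx r x + 2) ^ 3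

def Ev (b : List Bool → ℕ) (P : (List Bool → ℕ) → Prop) : Prop :=
  ∃ A, ∀ κ : List Bool → ℕ, (∀ x, A * b x ≤ κ x) → P κ

structure Bs (r : ℕ) (b : List Bool → ℕ) : Prop where
  le : ∀ x, bs r x ≤ b x
  c : ∀ κ, Cn κ fun x _ => b x
  pol : ∃ e, ∀ x, b x ≤ (x.length + 2) ^ e

/-- PI: the input. -/
structure PiK (r : ℕ) : Prop where
  num : ∀ κ, F1 κ fun x _ => num x
  M : ∀ κ, Mp.C κ inp
  nd : ∀ κ, F1 κ fun x _ => (inp x).nd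
  wt : ∀ κ, F1 κ fun x _ => wt x
  W : ∀ κ, Cn κ fun x _ => Wx x
  Z : ∀ κ, Cn κ fun x _ => Zx x
  ro : ∀ κ, Cn κ fun x _ => ro r (ED.num x 0)
  k : ∀ κ, Cn κ fun x _ => kx r x
  lv : ∀ κ, P1 κ fun x _ => lv (inp x)
  bs : Bs r (bs r)
  D : ∀ x, 5 * Dx r x ^ 4 + 1 ≤ DS.bs r x

def PiS : Prop := RoS → FmC → ∀ r, 1 ≤ r → PiK r

/-- PO: a call on a virtual instance is computable. -/
def PoS : Prop :=
  ∀ r b (φ : List Bool → ℕ), PiK r → Bs r b → (Ev (bs r) fun κ => Cn κ fun x _ => φ x) → (∀ y, φ y ≤ 1) →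
    ∀ β w : List Bool → ℕ → ℕ, (Ev b fun κ => (F1 κ fun x _ => β x) ∧ F1 κ fun x _ => w x) →
      Ev b fun κ => F3 κ fun x => fun u v θ => φ (vy x (β x) (w x) u v θ)

/-- PN: one level. -/
def PnS : Prop :=
  FmC → PoS → ∀ r φ (R : List Bool → ℕ), PiK r → (Ev (bs r) fun κ => Cn κ fun x _ => φ x) →
    (∀ y, φ y ≤ 1) → (∀ κ, Cn κ fun x _ => R x) →
      (∀ l, Ev (bs r) fun κ => Fo.C κ fun x => lev φ x (Dx r x) (R x) l) ∧
      ∀ f : List Bool → Fo, (Ev (bs r) fun κ => Fo.C κ f) →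
        Ev (bs r) fun κ => SkC κ fun x => skl φ x (Dx r x) (f x)

/-- PA -/
def PaS : Prop :=
  FmC → PoS → PnS → PfS → ∀ r, PiK r → ∀ j, Ev (bs r) fun κ => Cn κ fun x _ => alg r j x

/-- PT -/
def PtS : Prop :=
  FmC → PoS → ∀ r b φ (π : List Bool → ℕ → ℕ), PiK r → Bs r b →
    (Ev (bs r) fun κ => Cn κ fun x _ => φ x) → (∀ y, φ y ≤ 1) →
    (Ev b fun κ => F1 κ fun x _ => π x) → Ev b fun κ => Cn κ fun x _ => topv x (π x) φ

def bl (r : ℕ) (x : List Bool) : ℕ := bs r x + SC.lg x ^ 2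

/-- MCH: the machine. -/
def MchS : Prop :=
  RoS → ∀ ε : ℝ, 0 < ε → ∃ r, 1 ≤ r ∧ (PiK r → Bs r (bl r) ∧ ∀ f : List Bool → ℕ,
    (Ev (bl r) fun κ => Cn κ fun x _ => f x) → ∃ (M : TM) (c : ℕ), ∀ x : List Bool,
      M.out (M.run x ((x.length + 2) ^ c)).q = some (f x != 0) ∧
        ∀ t i, ((M.run x t).head i : ℝ) ≤ c * ((x.length : ℝ) + 1) ^ ε)

/-- POT: a computable potential (the number of darts that reach a vertex). -/
def PotS : Prop :=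
  CodS → ∀ r, PiK r → Bs r (bl r) → ∃ π : List Bool → ℕ → ℕ,
    (Ev (bl r) fun κ => F1 κ fun x _ => π x) ∧
      ∀ {n : ℕ} (σ α : Equiv.Perm (Fin n)) (dir : Fin n → Bool) (w : Fin n → ℕ) (s t : Fin n)
        (θ : ℕ) (x : List Bool), α * α = 1 → Planar σ α → x = code σ α dir w s t θ →
          Mixed σ α dir w → Pot x (π x)

/-- The theorem. -/
def MainS : Prop :=
  ∀ ε : ℝ, 0 < ε → ∃ (M : TM) (c : ℕ), ∀ x : List Bool, ∃ r : Bool,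
    M.out (M.run x ((x.length + 2) ^ c)).q = some r ∧
    (∀ t i, ((M.run x t).head i : ℝ) ≤ c * ((x.length : ℝ) + 1) ^ ε) ∧
    ∀ (n : ℕ) (σ α : Equiv.Perm (Fin n)) (dir : Fin n → Bool) (w : Fin n → ℕ) (s t : Fin n)
      (θ : ℕ), α * α = 1 → Planar σ α → Mixed σ α dir w → x = code σ α dir w s t θ →
        (r = true ↔ ∃ c ≤ θ, Walk σ α dir w s t c)

end

end Pool.Agent.MP_1a6d78_lc.DS
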