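import Pool.Agent.MP_1a6d78_lc.DS.Basic

/-! PROJECT DS, row STAIR. -/

namespace Pool.Agent.MP_1a6d78_lc.DS

open Sk

namespace Stair

variable {S : Sk}

theorem ports (hc : S.ClsK) {a b : ℕ} (h : S.Can a b) : S.port a ∧ S.port b :=
  ⟨(hc.can a b h).1.1, (hc.can a b h).1.2.1⟩

/-- Three ports of one block are ordered by their heights. -/
theorem order (hb : S.BlkK) {a b c : ℕ} (pa : S.port a) (pb : S.port b) (pc : S.port c)
    (e1 : S.blk a = S.blk b) (e2 : S.blk c = S.blk b) (h1 : S.hp a < S.hp b)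
    (h2 : S.hp b < S.hp c) :
    (S.pos a < S.pos b ∧ S.pos b < S.pos c) ∨ (S.pos c < S.pos b ∧ S.pos b < S.pos a) := by
  rcases hb.dir (S.blk b) with k | k
  · exact Or.inl ⟨lt_of_not_ge fun e => h1.not_ge (k b pb.1 a pa.1 pb pa rfl e1 e),
      lt_of_not_ge fun e => h2.not_ge (k c pc.1 b pb.1 pc pb e2 rfl e)⟩
  · exact Or.inr ⟨lt_of_not_ge fun e => h2.not_ge (k b pb.1 c pc.1 pb pc rfl e2 e),
      lt_of_not_ge fun e => h1.not_ge (k a pa.1 b pb.1 pa pb e1 rfl e)⟩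

theorem first (hb : S.BlkK) {m : ℕ} (hn : S.BlkN m) (hx : S.NcK) {a b a' b' : ℕ} (h : S.Can a b)
    (h' : S.Can a' b') (e : S.blk a' = S.blk a)
    (k : cy m (S.blk a) (S.blk b) < cy m (S.blk a) (S.blk b')) : S.pos a' ≤ S.pos a := by
  by_contra hp
  have n1 := hx.nc a b a' b' h h'
  have n2 := hx.nc a' b' a b h' h
  have s1 := (hx.ns a b h).2
  have s2 := (hx.ns a' b' h').2
  have m1 := hn b'
  have l1 := hb.lt (a := a') (b := b)
  have l2 := hb.lt (a := b) (b := b')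
  have l3 := hb.lt (a := b') (b := a)
  unfold cy at k
  split_ifs at k <;> omega

end Stair

open Stair

theorem stairS : StairS := by
  intro S m h0 _ hb h3 hn ht hc hx hu hl a b a1 b1 a' b' a1' b1' a'' b'' c c1 c' c1' c'' t t'
    n1 n1' e' e'' eb hp hC hcy
  obtain ⟨pa, -⟩ := ports hc c
  obtain ⟨pa', -⟩ := ports hc c'
  obtain ⟨pa'', -⟩ := ports hc c''
  obtain ⟨-, pb1⟩ := ports hc c1
  obtain ⟨-, pb1'⟩ := ports hc c1'
  have hq := first hb hn hx c c'' e'' (eb ▸ hcy)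
  have m := ht.mem _ _ t
  have m' := ht.mem _ _ t'
  have ns : ¬S.sp (S.M.nd a'') := fun k =>
    m.2.2.2.1 (hb.s1 a'' a pa'' pa e'' k ▸ k)
  obtain ⟨h'', t''⟩ := ht.ex _ pa''.2.1 ns
  have m'' := ht.mem _ _ t''
  have q := hc.te _ _ t
  have q' := hc.te _ _ t'
  have q'' := hc.te _ _ t''
  have r' := (hc.can _ _ c1').2.2.1
  have hlen : 3 ≤ (S.C h'').length := by
    rw [← q'', hC, q', r', List.length_append]
    have := List.length_pos_iff.2 (hc.ne (S.M.nd a1'))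
    simp only [List.length_cons, List.length_nil]
    omega
  obtain ⟨a1'', b1'', c1'', rfl⟩ : ∃ x y, S.Can x y ∧ S.M.nd y = h'' := by
    rcases hc.head _ m''.1 with k | k | k
    · rw [k.1] at hlen
      simp at hlen
    · rw [k.1] at hlen
      simp at hlen
    · exact k
  obtain ⟨-, pb1''⟩ := ports hc c1''
  have hh : S.C (S.M.nd b1'') = S.C (S.M.nd b1') := by rw [← q'', hC, q']
  have eb1 : S.blk b1'' = S.blk b1' := by
    have k := hh
    rw [r', (hc.can _ _ c1'').2.2.1] at k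
    simpa using (List.append_inj' k rfl).2 |> List.tail_eq_of_cons_eq
  have s' := hb.s2 a a' pa pa' e'.symm
  have s'' := hb.s2 a a'' pa pa'' e''.symm
  have hd : (S.hp a'' ≤ S.hp a ∧ S.hp a ≤ S.hp a') ∨ (S.hp a' ≤ S.hp a ∧ S.hp a ≤ S.hp a'') := by
    rcases hb.dir (S.blk a) with k | k
    · exact Or.inl ⟨k _ pa''.1 _ pa.1 pa'' pa e'' rfl hq, k _ pa.1 _ pa'.1 pa pa' rfl e' hp⟩
    · exact Or.inr ⟨k _ pa.1 _ pa'.1 pa pa' rfl e' hp, k _ pa''.1 _ pa.1 pa'' pa e'' rfl hq⟩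
  unfold Sk.hp at hd
  by_cases d1 : S.M.nd b1 = S.M.nd b1'
  · rw [q, q', d1]
  by_cases d2 : S.M.nd b1 = S.M.nd b1''
  · rw [q, d2, hh, q']
  by_cases d3 : S.M.nd b1'' = S.M.nd b1'
  · rw [d3] at t''
    have : S.Te (S.M.nd b1') (S.M.nd a) := by
      rcases le_total (S.f.ht (S.M.nd b1')) (S.f.ht (S.M.nd a)) with k | k <;>
        rcases hd with k' | k'
      exacts [ht.conv _ _ _ t' s' (Or.inl ⟨k, k'.2⟩), ht.conv _ _ _ t'' s'' (Or.inl ⟨k, k'.2⟩),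
        ht.conv _ _ _ t'' s'' (Or.inr ⟨k'.1, k⟩), ht.conv _ _ _ t' s' (Or.inr ⟨k'.1, k⟩)]
    rw [hc.te _ _ this, q']
  have eb2 : S.blk b1' = S.blk b1 := by
    rcases h3 b1' a b1 pb1' pa pb1 m'.2.2.1 m.2.2.2.1 m.2.2.1 (m'.2.1.trans s'.symm)
      ((m'.2.1.trans s'.symm).trans m.2.1.symm) with k | k | k
    exacts [absurd k n1', k, absurd k.symm n1]
  have fin : (S.pos b1'' < S.pos b1 ∧ S.pos b1 < S.pos b1') ∨
      (S.pos b1' < S.pos b1 ∧ S.pos b1 < S.pos b1'') := by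
    rcases hd with k | k
    · have := hu.bet _ _ _ _ _ _ t' t t'' s'.symm s'' k.1 k.2 d1 d2
      exact order hb pb1'' pb1 pb1' (eb1.trans eb2) eb2 this.1 this.2.1
    · have := hu.bet _ _ _ _ _ _ t'' t t' s''.symm s' k.1 k.2 d2 d1
      exact (order hb pb1' pb1 pb1'' eb2 (eb1.trans eb2) this.1 this.2.1).symm
  rcases fin with k | k
  · rw [q, q', hl _ _ _ _ _ _ c1'' c1 c1' k.1 k.2 hh, hh]
  · rw [q, q', hl _ _ _ _ _ _ c1' c1 c1'' k.1 k.2 hh.symm]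

end Pool.Agent.MP_1a6d78_lc.DS
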