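import Pool.Agent.MP_1a6d78_lc.DS.Basic

/-! PROJECT DS, row SUB: the calls on the map without `K` give the distances off `K`. -/

namespace Pool.Agent.MP_1a6d78_lc.DS

open Classical ED PR

namespace Sub

variable {M : Mp} {K : ℕ → Prop} {w : ℕ → ℕ} {d u v a b c : ℕ}

theorem nle (x : List Bool) (i : ℕ) : num x i ≤ x.length :=
  (Finset.sum_le_card_nsmul _ _ 1 fun p _ => by
    unfold bit
    split_ifs <;> omega).trans (by simp)

theorem on (h1 : ¬K (M.nd d)) (h2 : ¬K (M.nd (M.β d))) : sub M K d = M.β d := if_pos ⟨h1, h2⟩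

theorem ne (h : sub M K d ≠ d) : ¬K (M.nd d) ∧ ¬K (M.nd (M.β d)) ∧ sub M K d = M.β d := by
  by_cases k : ¬K (M.nd d) ∧ ¬K (M.nd (M.β d))
  · exact ⟨k.1, k.2, if_pos k⟩
  · exact absurd (if_neg k) h

theorem sb : Sb M.n (sub M K) M.β := fun _ _ => (Classical.em _).imp id fun h => (ne h).2.2

theorem iv (h : Iv M.n M.β) : Iv M.n (sub M K) := fun d hd => by
  by_cases k : sub M K d = d
  · rw [k, k]
    exact ⟨hd, rfl⟩
  · obtain ⟨k1, k2, k3⟩ := ne k
    rw [k3, on k2 (by rw [(h d hd).2]; exact k1)]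
    exact h d hd

theorem down (h : Wk (alt M (sub M K) u v) w U a b c) (ha : ¬K a) :
    Wk M w (fun z => ¬K z) a b c := by
  induction h with
  | nil _ => exact .nil ha
  | @step y y' c d _ k1 k2 k3 k4 _ ih =>
    obtain ⟨_, j2, j3⟩ := ne (M := M) (K := K) (d := d) k2
    have k5 : M.nd (M.β d) = y' := j3 ▸ k4
    exact ih.step k1 (fun e => k2 (j3.trans e)) k3 k5 (k5 ▸ j2)

theorem up (h : Wk M w (fun z => ¬K z) a b c) : Wk (alt M (sub M K) u v) w U a b c := by
  induction h with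
  | nil _ => exact .nil trivial
  | @step y y' c d p k1 k2 k3 k4 k5 ih =>
    have j : sub M K d = M.β d := on (k3 ▸ p.mem.2) (k4 ▸ k5)
    exact ih.step k1 (fun e => k2 (j.symm.trans e)) k3
      ((congrArg M.nd j).trans k4) trivial

theorem wok {W Z p q : ℕ} (h : Wok M w W) (hp : 1 ≤ p) (hu : u < M.n)
    (hZ : ∀ d < M.n, p * w d + q ≤ Z) :
    Wok (alt M (sub M K) u v) (fun d => p * w d + q) (M.n * Z + 1) where
  ok := ⟨h.ok.pm, iv h.ok.iv, h.ok.pl.sub sb, hu⟩
  dir _ := trivial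
  pos d hd k := by
    have := Nat.mul_le_mul hp (h.pos d hd fun e => k ((ne k).2.2.trans e))
    omega
  par d hd e he k k' e1 e2 := by
    have j := (ne (M := M) (K := K) (d := d) k).2.2
    have j' := (ne (M := M) (K := K) (d := e) k').2.2
    rw [h.par d hd e he (fun i => k (j.trans i)) (fun i => k' (j'.trans i))
      (e1.trans (congrArg M.nd j')) ((congrArg M.nd j).symm.trans e2)]
  big d hd := Nat.lt_succ_of_le (Nat.mul_le_mul_left _ (hZ d hd))

end Sub

theorem subS : SubS := by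
  intro vy m φ x live K p q hc hw hp hp' hq hl hs u v lu ku lv kv
  have n0 := Sub.nle x 0
  have hm : ∀ d, p * wt x d + q ≤ (x.length + 2) ^ 2 := fun d => by
    have : p * wt x d ≤ (x.length + 1) * x.length :=
      Nat.mul_le_mul (hp'.trans (Nat.succ_le_succ n0)) (Sub.nle x _)
    nlinarith
  have hZ : ∀ d, p * wt x d + q ≤ Zx x := fun d =>
    (hm d).trans (Nat.pow_le_pow_right (by omega) (by omega))
  have key : ∀ θ < Zx x + 1, (θ = Zx x ∨
      φ (DS.vy x (sub (inp x) K) (fun d => p * wt x d + q) u v θ) = 1) ↔ (θ = Zx x ∨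
      ∃ c ≤ θ, Wk (inp x) (fun d => p * wt x d + q) (fun z => ¬K z) u v c) := fun θ hθ => by
    rw [vy m φ x (sub (inp x) K) _ u v θ _ hc (Sub.wok hw hp (hl u lu).1 fun d _ => hZ d)
      (hl v lv).1 (by omega) (fun d _ => hZ d) ?_, (hl u lu).2, (hl v lv).2]
    · exact or_congr_right (exists_congr fun c => and_congr_right fun _ =>
        ⟨fun k => Sub.down k ku, Sub.up⟩)
    · rw [(hl u lu).2]
      exact le_trans (cnt_mono fun a _ k => ⟨k.1, k.2.imp fun c j => Sub.down j ku⟩) (hs u lu ku)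
  rw [orc, lst_congr key]
  obtain ⟨-, h2⟩ := lst_spec (n := Zx x + 1) (P := fun θ => θ = Zx x ∨
    ∃ c ≤ θ, Wk (inp x) (fun d => p * wt x d + q) (fun z => ¬K z) u v c)
    ⟨_, Nat.lt_succ_self _, Or.inl rfl⟩
  split_ifs with h
  · have h3 := ds_bnd hw.ok.iv (fun d _ _ => hm d) h (hl u lu).1
    have h4 : ds (inp x) (fun d => p * wt x d + q) (fun z => ¬K z) u v ≤ Zx x :=
      h3.trans (by
        rw [Zx, show 4 = 2 + 2 from rfl, Nat.pow_add]
        refine Nat.mul_le_mul_left _ ?_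
        have : (inp x).n ≤ x.length := n0
        nlinarith [Nat.sub_le (inp x).n 1])
    refine le_antisymm (lst_le (by omega) (Or.inr ⟨_, le_rfl, ds_spec h⟩)) ?_
    rcases h2 with h2 | ⟨c, h5, h6⟩
    · exact h2.symm ▸ h4
    · exact (ds_le h6).trans h5
  · exact h2.resolve_right fun ⟨c, _, k⟩ => h ⟨c, k⟩

end Pool.Agent.MP_1a6d78_lc.DS
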