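import Pool.Agent.MP_1a6d78_lc.DS.Basic

/-! PROJECT DS, row TER: the territories. -/

namespace Pool.Agent.MP_1a6d78_lc.DS

open Classical ED PR

namespace Ter

variable {S : Sk} {r μ h z : ℕ}

/-- A slide comes from a neighbour in the class. -/
theorem slide (ok : S.Ok r μ) (kt : S.Kt0) (ky : S.KeyK) (on : S.OnceK) (hK : S.K z)
    (hs : ¬S.sp z) (hl : S.sl S.F z) :
    S.sam (S.sv S.F z) z ∧ S.Fa (S.sv S.F z) z ∧ ∃ w, 1 ≤ w ∧
      S.F z = S.F (S.sv S.F z) + S.N * w ∧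
      ((S.f.ht z = S.f.ht (S.sv S.F z) + w ∧
          ∀ u, S.sam u z → S.f.ht u < S.f.ht z → S.f.ht u ≤ S.f.ht (S.sv S.F z)) ∨
        (S.f.ht (S.sv S.F z) = S.f.ht z + w ∧
          ∀ u, S.sam u z → S.f.ht u < S.f.ht (S.sv S.F z) → S.f.ht u ≤ S.f.ht z)) := by
  obtain ⟨hd, ht⟩ := lst_spec hl
  have fa := on.sld z _ hd ht
  unfold Sk.sv
  generalize lst S.M.n (S.ts S.F z) = d at hd ht fa
  obtain ⟨e1, e2, e3⟩ := ht
  have eb := kt.gam_eq hd e2
  have nb : S.M.β d ≠ d := eb ▸ e2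
  have w1 := ok.wok.pos d hd nb
  have ky' := (kt.gk d e2).2
  have iv := kt.iv d hd
  rcases kt.typ d hd e2 with k | k | k
  · rw [e1] at k
    have p1 := kt.pd z (by rw [k]; exact hd)
    have p2 := (kt.up z hK p1).2.2.2
    rw [k] at p2
    have sm : S.sam (S.f.par z) z := by
      by_contra q
      exact hs ⟨hK, Or.inl (Or.inr q)⟩
    have g := ok.geo.par d hd nb (by rw [e1]; exact (kt.live z hK).1) (by rw [e1]; exact p1)
      (by rw [e1, ← eb, p2]) (by rw [e1, ← eb, p2]; exact sm.2.2.2.2.symm)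
    rw [e1, ← eb] at g
    refine ⟨p2 ▸ sm, fa, S.w d, w1, e3.symm, Or.inl ⟨g, fun u a b => ?_⟩⟩
    rw [p2]
    exact ky.nxt u z a p1 b
  · have p1 := kt.pd _ (by rw [k]; exact iv.1)
    have p2 := (kt.up _ ky' p1).2.2.2
    rw [k, iv.2, e1] at p2
    have sm : S.sam (S.M.nd (S.gam d)) z :=
      (ky.child z _ hK hs ky' (fun q => p1 (by rw [← p2, q])) p2.symm).1
    have bb : S.M.β (S.gam d) = d := by rw [eb]; exact (ok.wok.ok.iv d hd).2
    have g := ok.geo.par (S.gam d) iv.1 (by rw [bb]; exact e2.symm) (kt.live _ ky').1 p1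
      (by rw [bb, e1, p2]) (by rw [bb, e1]; exact sm.2.2.2.2)
    have ws : S.w (S.gam d) = S.w d := by rw [eb]; exact ok.wok.symm hd nb
    rw [bb, e1, ws] at g
    refine ⟨sm, fa, S.w d, w1, e3.symm, Or.inr ⟨g, fun u a b => ?_⟩⟩
    have := ky.nxt u _ (a.trans sm.symm) p1 b
    rwa [← p2] at this
  · exact absurd (e1 ▸ ky.xb _ (ok.xc d hd k.1)) hs

theorem nsp (t : S.Te h z) : ¬S.sp z := by
  cases t with
  | base _ k _ => exact k
  | step _ _ k _ => exact k

theorem uniq {h' : ℕ} (t : S.Te h z) (t' : S.Te h' z) : h = h' := by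
  induction t with
  | base _ _ k =>
    cases t' with
    | base _ _ _ => rfl
    | step a _ _ b => exact k.elim (absurd b) fun q => absurd q (nsp a)
  | step a _ _ b ih =>
    cases t' with
    | base _ _ k => exact k.elim (absurd b) fun q => absurd q (nsp a)
    | step a' _ _ _ => exact ih a'

theorem ex (ok : S.Ok r μ) (kt : S.Kt0) (ky : S.KeyK) (on : S.OnceK) :
    ∀ m z, S.F z = m → S.K z → ¬S.sp z → ∃ h, S.Te h z := by
  intro m
  induction m using Nat.strong_induction_on with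
  | _ m ih =>
    intro z e hK hs
    by_cases q : ¬S.sl S.F z ∨ S.sp (S.sv S.F z)
    · exact ⟨z, .base hK hs q⟩
    · have q1 : S.sl S.F z := by_contra fun k => q (Or.inl k)
      obtain ⟨sm, -, w, w1, e1, -⟩ := slide ok kt ky on hK hs q1
      have p : 1 ≤ S.N * w := Nat.mul_pos (Nat.succ_pos _) w1
      obtain ⟨h, t⟩ := ih (S.F (S.sv S.F z)) (by omega) _ rfl sm.1 fun k => q (Or.inr k)
      exact ⟨h, .step t hK hs q1⟩

theorem joint (ok : S.Ok r μ) (kt : S.Kt0) (ky : S.KeyK) (on : S.OnceK) (t : S.Te h z) :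
    S.Te h h ∧ S.sam h z ∧ S.Fa h z ∧ ∀ u, S.sam u z →
      (S.f.ht h ≤ S.f.ht u ∧ S.f.ht u ≤ S.f.ht z) ∨ (S.f.ht z ≤ S.f.ht u ∧ S.f.ht u ≤ S.f.ht h) →
        S.Te h u ∧ S.F u = S.F h + S.N * df (S.f.ht h) (S.f.ht u) := by
  induction t with
  | base a b c =>
    refine ⟨.base a b c, .refl a, on.refl h, fun u k e => ?_⟩
    have := ky.inj u h k (by omega)
    subst this
    exact ⟨.base a b c, by simp [df_self]⟩
  | @step z a hK hs hl ih =>
    obtain ⟨i1, i2, i3, i4⟩ := ih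
    obtain ⟨sm, fa, w, w1, e1, e2⟩ := slide ok kt ky on hK hs hl
    have tz : S.Te h z := .step a hK hs hl
    generalize S.sv S.F z = y at *
    have hz := i2.trans sm
    have p : 1 ≤ S.N * w := Nat.mul_pos (Nat.succ_pos _) w1
    have fy := (i4 y (.refl sm.1) (by omega)).2
    have nb : ¬((S.f.ht h ≤ S.f.ht z ∧ S.f.ht z ≤ S.f.ht y) ∨
        (S.f.ht y ≤ S.f.ht z ∧ S.f.ht z ≤ S.f.ht h)) := fun q => by
      have fz := (i4 z sm.symm q).2
      have : S.N * df (S.f.ht h) (S.f.ht z) ≤ S.N * df (S.f.ht h) (S.f.ht y) :=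
        Nat.mul_le_mul_left _ (by unfold df; omega)
      omega
    have dd : df (S.f.ht h) (S.f.ht z) = df (S.f.ht h) (S.f.ht y) + w := by
      rcases e2 with ⟨e2, e3⟩ | ⟨e2, e3⟩
      · have := e3 h hz
        unfold df
        omega
      · have := e3 h hz
        unfold df
        omega
    refine ⟨i1, hz, on.aa h y z i2.1 sm.1 hK i3 fa, fun u k e => ?_⟩
    by_cases q : S.f.ht u = S.f.ht z
    · have := ky.inj u z k q
      subst this
      exact ⟨tz, by rw [dd, Nat.mul_add]; omega⟩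
    · refine i4 u (k.trans sm.symm) ?_
      rcases e2 with ⟨e2, e3⟩ | ⟨e2, e3⟩
      · have := e3 h hz
        have := e3 u k
        omega
      · have := e3 h hz
        have := e3 u k
        omega

end Ter

theorem terS : TerS := fun _ _ _ ok kt ky _ on =>
  { ex := fun z => Ter.ex ok kt ky on _ z rfl
    uniq := fun _ _ _ => Ter.uniq
    mem := fun _ z t =>
      have j := Ter.joint ok kt ky on t
      ⟨j.1, j.2.1, Ter.nsp j.1, Ter.nsp t, j.2.2.1,
        (j.2.2.2 z (.refl j.2.1.2.1) (by omega)).2⟩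
    conv := fun _ _ u t k e => ((Ter.joint ok kt ky on t).2.2.2 u k e).1 }

end Pool.Agent.MP_1a6d78_lc.DS
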