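import Pool.Agent.MP_1a6d78_lc.DS.Basic

/-! PROJECT DS, row TOP: a directed instance with a potential is an undirected instance. -/

namespace Pool.Agent.MP_1a6d78_lc.DS

open Classical ED PR

namespace Tp

variable {x : List Bool} {π : ℕ → ℕ}

theorem nle (x : List Bool) (i : ℕ) : num x i ≤ x.length := ED.RowKk.num_le x i

theorem be_eq {d : ℕ} (h : be x d ≠ d) :
    be x d = (inp x).β d ∧ (us x d ∨ us x ((inp x).β d)) := by
  unfold be at h ⊢
  by_cases k : us x d ∨ us x ((inp x).β d)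
  · exact ⟨if_pos k, k⟩
  · exact absurd (if_neg k) h

theorem be_bb (hO : (inp x).Ok) {d : ℕ} (hd : d < num x 0) (h : be x d ≠ d) :
    be x ((inp x).β d) = d ∧ be x ((inp x).β d) ≠ (inp x).β d := by
  obtain ⟨e, k⟩ := be_eq h
  have b := (hO.iv d hd).2
  have : be x ((inp x).β d) = d := by
    unfold be
    rw [b, if_pos k.symm]
  exact ⟨this, by rw [this, ← e]; exact h.symm⟩

theorem be_iv (hO : (inp x).Ok) : Iv (num x 0) (be x) := by
  intro d hd
  by_cases h : be x d = d
  · rw [h]; exact ⟨hd, h⟩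
  · rw [(be_eq h).1]
    exact ⟨(hO.iv d hd).1, (be_bb hO hd h).1⟩

theorem be_sb : Sb (num x 0) (be x) (inp x).β := by
  intro d _
  by_cases h : be x d = d
  · exact Or.inl h
  · exact Or.inr (be_eq h).1

theorem om_b (hO : (inp x).Ok) (hP : Pot x π) {e : ℕ} (he : e < num x 0) (h : be x e ≠ e) :
    om x π ((inp x).β e) = om x π e := by
  have b := (hO.iv e he).2
  unfold om
  rw [b, df_comm]
  congr 1
  by_cases k : us x e <;> by_cases k' : us x ((inp x).β e)
  · rw [if_pos k, if_pos k']; exact (hP.two e he k k').1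
  · rw [if_pos k, if_neg k']
  · rw [if_neg k, if_pos k']
  · exact absurd (be_eq h).2 (by tauto)

theorem om_le (hP : Pot x π) (e : ℕ) : om x π e ≤ x.length + (x.length + 1) * x.length := by
  unfold om
  refine Nat.add_le_add ?_ (Nat.mul_le_mul (Nat.succ_le_succ (nle x 3)) ?_)
  · split_ifs <;> exact nle x _
  · have a := hP.le ((inp x).nd e)
    have b := hP.le ((inp x).nd ((inp x).β e))
    have c := nle x 0
    unfold df
    omega

theorem wm_le (hP : Pot x π) (d : ℕ) : wm x π d ≤ x.length + (x.length + 1) * x.length :=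
  om_le hP _

theorem wm_spec {d : ℕ} (hd : d < num x 0) (h : be x d ≠ d) :
    (∃ e < num x 0, (be x e ≠ e ∧ (inp x).nd e = (inp x).nd d ∧
      (inp x).nd ((inp x).β e) = (inp x).nd ((inp x).β d)) ∧ wm x π d = om x π e) ∧
    ∀ e < num x 0, (be x e ≠ e ∧ (inp x).nd e = (inp x).nd d ∧
      (inp x).nd ((inp x).β e) = (inp x).nd ((inp x).β d)) → wm x π d ≤ om x π e :=
  mnv_spec (om x π) ⟨d, hd, h, rfl, rfl⟩

theorem wm_par (hO : (inp x).Ok) (hP : Pot x π) {d e : ℕ} (hd : d < num x 0) (he : e < num x 0)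
    (h : be x d ≠ d) (k : be x e ≠ e) (e1 : (inp x).nd d = (inp x).nd ((inp x).β e))
    (e2 : (inp x).nd ((inp x).β d) = (inp x).nd e) : wm x π d ≤ wm x π e := by
  obtain ⟨q, q1, ⟨q2, q3, q4⟩, q5⟩ := (wm_spec (π := π) he k).1
  rw [q5, ← om_b hO hP q1 q2]
  refine (wm_spec hd h).2 _ (hO.iv q q1).1 ⟨(be_bb hO q1 q2).2, q4.trans e1.symm, ?_⟩
  rw [(hO.iv q q1).2]
  exact q3.trans e2.symm

theorem zb (x : List Bool) {a : ℕ} (ha : a ≤ x.length + (x.length + 1) * x.length) :
    (num x 0 + 1) * a + num x 0 + 1 ≤ Zx x := by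
  have h := nle x 0
  have h1 := Nat.mul_le_mul (Nat.succ_le_succ h) ha
  unfold Zx
  generalize x.length = L at *
  have : (L + 1) * (L + (L + 1) * L) + L + 1 ≤ (L + 2) ^ 4 := by
    have : (L + 2) ^ 4 = (L + 1) * (L + (L + 1) * L) + L + 1 +
      (L ^ 4 + 7 * L ^ 3 + 21 * L ^ 2 + 29 * L + 15) := by ring
    omega
  simp only [Nat.succ_eq_add_one] at h1
  omega

theorem wok (hO : (inp x).Ok) (hP : Pot x π) (t : ℕ) :
    Wok (alt (inp x) (be x) (num x 1) t) (fun d => (num x 0 + 1) * wm x π d + 1)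
      (num x 0 * Zx x + 1) where
  ok := ⟨hO.pm, be_iv hO, hO.pl.sub be_sb, hO.s⟩
  dir _ := trivial
  pos _ _ _ := Nat.le_add_left _ _
  par d hd e he h k e1 e2 := by
    have e1' : (inp x).nd d = (inp x).nd ((inp x).β e) := (be_eq k).1 ▸ e1
    have e2' : (inp x).nd ((inp x).β d) = (inp x).nd e := (be_eq h).1 ▸ e2
    have : wm x π d = wm x π e := le_antisymm (wm_par hO hP hd he h k e1' e2')
      (wm_par hO hP he hd k h e2'.symm e1'.symm)
    simp only [this]
  big d _ := by
    refine Nat.lt_succ_of_le (Nat.mul_le_mul_left _ ?_)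
    have := zb x (wm_le hP d)
    omega

theorem nd_rho (hO : (inp x).Ok) {a : ℕ} (ha : a < num x 0) :
    (inp x).nd ((inp x).ρ a) = (inp x).nd a :=
  ((Mp.nd_iff hO.pm ha (hO.pm.1 a ha)).2 (Sc.step hO.pm.1 ha)).symm

theorem pot_le (hP : Pot x π) {a : ℕ} (ha : a < num x 0) (h : us x a) :
    π ((inp x).nd a) ≤ π ((inp x).nd ((inp x).β a)) := by
  by_cases k : us x ((inp x).β a)
  · exact (hP.two a ha h k).2.le
  · exact (hP.one a ha h k).le

/-- A directed walk gives an undirected one. -/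
theorem fwd (hO : (inp x).Ok) (hP : Pot x π) (t : ℕ) {a c : ℕ}
    (h : Dw (inp x) (us x) (wt x) (num x 1) a c) :
    a < num x 0 ∧ π ((inp x).nd (num x 1)) ≤ π ((inp x).nd a) ∧
      ∃ c', Wk (alt (inp x) (be x) (num x 1) t) (wm x π) U ((inp x).nd (num x 1)) ((inp x).nd a) c' ∧
        c' + (num x 3 + 1) * π ((inp x).nd (num x 1)) ≤ c + (num x 3 + 1) * π ((inp x).nd a) := by
  induction h with
  | nil => exact ⟨hO.s, le_rfl, 0, .nil trivial, le_rfl⟩
  | @rot a c _ ih =>
    rw [nd_rho hO ih.1]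
    exact ⟨hO.pm.1 a ih.1, ih.2⟩
  | @edge a c _ k ih =>
    obtain ⟨i1, i2, c', i3, i4⟩ := ih
    have p := pot_le hP i1 k
    refine ⟨(hO.iv a i1).1, i2.trans p, ?_⟩
    by_cases q : (inp x).β a = a
    · rw [q]; exact ⟨c', i3, by omega⟩
    · have e : be x a = (inp x).β a := if_pos (Or.inl k)
      have e' : be x a ≠ a := by rw [e]; exact q
      refine ⟨c' + wm x π a, i3.step (d := a) i1 e' rfl ?_ trivial, ?_⟩
      · show (inp x).nd (be x a) = _
        rw [e]
      · have w1 := (wm_spec (π := π) i1 e').2 a i1 ⟨e', rfl, rfl⟩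
        unfold om at w1
        rw [if_pos k, df_le p] at w1
        obtain ⟨r, hr⟩ := Nat.exists_eq_add_of_le p
        rw [hr, Nat.add_sub_cancel_left] at w1
        rw [hr, Nat.mul_add]
        omega

theorem rot_all (hO : (inp x).Ok) {a b c : ℕ} (ha : a < num x 0) (hb : b < num x 0)
    (e : (inp x).nd b = (inp x).nd a) (h : Dw (inp x) (us x) (wt x) (num x 1) a c) :
    Dw (inp x) (us x) (wt x) (num x 1) b c :=
  Sc.ind hO.pm.1 (Q := fun d => Dw (inp x) (us x) (wt x) (num x 1) d c) ha h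
    (fun _ _ k => k.rot) ((Mp.nd_iff hO.pm ha hb).1 e.symm)

/-- A cheap undirected walk gives a directed one. -/
theorem bwd (hO : (inp x).Ok) (hP : Pot x π) (t : ℕ) {v c0 : ℕ}
    (h : Wk (alt (inp x) (be x) (num x 1) t) (wm x π) U ((inp x).nd (num x 1)) v c0) :
    (∃ c, (∀ a < num x 0, (inp x).nd a = v → Dw (inp x) (us x) (wt x) (num x 1) a c) ∧
      c + (num x 3 + 1) * π v ≤ c0 + (num x 3 + 1) * π ((inp x).nd (num x 1))) ∨
    (num x 3 + 1) * π v + (num x 3 + 1) ≤ c0 + (num x 3 + 1) * π ((inp x).nd (num x 1)) := by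
  induction h with
  | nil _ => exact Or.inl ⟨0, fun a ha e => rot_all hO hO.s ha e .nil, le_rfl⟩
  | @step v v' c d _ hd hb e1 e2 _ ih =>
    have hb' : be x d ≠ d := hb
    have e1' : (inp x).nd d = v := e1
    have e2' : (inp x).nd ((inp x).β d) = v' := (be_eq hb').1 ▸ e2
    obtain ⟨e, he, ⟨q2, q3, q4⟩, q5⟩ := (wm_spec (π := π) hd hb').1
    rw [e1'] at q3
    rw [e2'] at q4
    rw [q5]
    have m1 : (num x 3 + 1) * π v' ≤ (num x 3 + 1) * π v + (num x 3 + 1) * df (π v) (π v') := by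
      rw [← Nat.mul_add]
      exact Nat.mul_le_mul_left _ (by unfold df; omega)
    unfold om
    rw [q3, q4]
    rcases ih with ⟨c1, i1, i2⟩ | i
    · by_cases k : us x e
      · rw [if_pos k]
        refine Or.inl ⟨c1 + wt x e, fun a ha ea => ?_, by omega⟩
        exact rot_all hO (hO.iv e he).1 ha (ea.trans q4.symm) ((i1 e he q3).edge k)
      · have k' : us x ((inp x).β e) := (be_eq q2).2.resolve_left k
        have o := hP.one _ (hO.iv e he).1 k' (by rw [(hO.iv e he).2]; exact k)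
        rw [(hO.iv e he).2, q3, q4] at o
        have := Nat.mul_le_mul_left (num x 3 + 1) (Nat.succ_le_of_lt o)
        rw [Nat.mul_succ] at this
        exact Or.inr (by omega)
    · exact Or.inr (by omega)

end Tp

open Tp in
theorem topS : TopS := by
  intro hV m φ x π hC hm hO ht hP
  have hW := wok hO hP (num x 2)
  have hθ : num x 3 + (num x 3 + 1) * (π ((inp x).nd (num x 2)) - π ((inp x).nd (num x 1))) ≤
      x.length + (x.length + 1) * x.length := by
    refine Nat.add_le_add (nle x 3) (Nat.mul_le_mul (Nat.succ_le_succ (nle x 3)) ?_)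
    have a := hP.le ((inp x).nd (num x 2))
    have c := nle x 0
    omega
  have key := hV m φ x (be x) (fun d => (num x 0 + 1) * wm x π d + 1) (num x 1) (num x 2)
    ((num x 0 + 1) * (num x 3 + (num x 3 + 1) *
      (π ((inp x).nd (num x 2)) - π ((inp x).nd (num x 1)))) + num x 0) _ hC hW ht
    (by have := zb x hθ; omega) (fun d _ => by have := zb x (wm_le hP d); omega)
    ((cnt_le _ _).trans (hm _))
  unfold topv
  constructor
  · intro h
    by_cases p : π ((inp x).nd (num x 1)) ≤ π ((inp x).nd (num x 2))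
    · rw [if_pos p] at h
      obtain ⟨c, hc, hw⟩ := key.1 h
      obtain ⟨c0, w0, l0⟩ := hw.wle (w := wm x π) (a := num x 0 + 1)
        fun _ _ _ => Nat.le_succ _
      obtain ⟨r, hr⟩ := Nat.exists_eq_add_of_le p
      rw [hr, Nat.add_sub_cancel_left] at hc
      have l1 : c0 ≤ num x 3 + (num x 3 + 1) * r := by
        by_contra q
        have := Nat.mul_le_mul_left (num x 0 + 1) (Nat.succ_le_of_lt (not_le.1 q))
        rw [Nat.mul_succ] at this
        omega
      rcases bwd hO hP _ w0 with ⟨c1, i1, i2⟩ | i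
      · rw [hr, Nat.mul_add] at i2
        exact ⟨c1, by omega, i1 _ ht rfl⟩
      · rw [hr, Nat.mul_add] at i
        omega
    · rw [if_neg p] at h
      exact absurd h (by decide)
  · rintro ⟨c, hc, hw⟩
    obtain ⟨_, p, c', w1, l1⟩ := fwd hO hP (num x 2) hw
    rw [if_pos p]
    obtain ⟨c2, w2, l2⟩ := w1.hop (w' := fun d => (num x 0 + 1) * wm x π d + 1) hW.ok.iv
      (a := num x 0 + 1) (b := 1) (fun _ _ _ => le_rfl) (Mp.nd_spec hO.s).1
    refine key.2 ⟨c2, ?_, w2⟩
    obtain ⟨r, hr⟩ := Nat.exists_eq_add_of_le p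
    rw [hr, Nat.mul_add] at l1
    rw [hr, Nat.add_sub_cancel_left]
    have l3 : c' ≤ num x 3 + (num x 3 + 1) * r := by omega
    have := Nat.mul_le_mul_left (num x 0 + 1) l3
    have e : (alt (inp x) (be x) (num x 1) (num x 2)).n = num x 0 := rfl
    rw [e] at l2
    omega

end Pool.Agent.MP_1a6d78_lc.DS
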