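import Pool.Agent.MP_1a6d78_lc.DS.Basic

/-! PROJECT DS: TOUCH. -/

namespace Pool.Agent.MP_1a6d78_lc.DS

open Classical ED PR

namespace TouchH

variable {S : Sk}

/-- Two different territories of one class occupy disjoint intervals of heights. -/
theorem dis (T : S.TerK) {h v h' v' : ℕ} (a : S.Te h v) (b : S.Te h' v') (s : S.sam v v')
    (ne : h' ≠ h) (le : S.f.ht v' ≤ S.f.ht v) :
    S.f.ht h' < S.f.ht h ∧ S.f.ht h' < S.f.ht v ∧ S.f.ht v' < S.f.ht h ∧
      S.f.ht v' < S.f.ht v := by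
  have ma := T.mem _ _ a
  have mb := T.mem _ _ b
  have e1 := fun k => ne (T.uniq _ _ _ b (T.conv _ _ v' a s.symm k))
  have e2 := fun k => ne (T.uniq _ _ _ mb.1 (T.conv _ _ h' a (mb.2.1.trans s.symm) k))
  have e3 := fun k => ne (T.uniq _ _ _ (T.conv _ _ v b s k) a)
  have e4 := fun k => ne (T.uniq _ _ _ (T.conv _ _ h b (ma.2.1.trans s) k) ma.1)
  have e1 : ¬_ := e1
  have e2 : ¬_ := e2
  have e3 : ¬_ := e3
  have e4 : ¬_ := e4
  omega

theorem cross (B : S.BlkK) (N : S.NcK) {a1 b1 a3 b3 a1' b1' a3' b3' : ℕ} (c1 : S.Can a1 b1)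
    (c3 : S.Can a3 b3) (d1 : S.Can a1' b1') (d3 : S.Can a3' b3') (e1 : S.blk a1 = S.blk a3)
    (e2 : S.blk b1 = S.blk b3) (e3 : S.blk a1' = S.blk a3') (e4 : S.blk b1' = S.blk a1)
    (e5 : S.blk b3' = S.blk a1) (n3 : S.blk a1' ≠ S.blk b1) (p1 : S.pos a3 < S.pos b1')
    (p2 : S.pos b3' < S.pos a1) : False := by
  have n1 := (N.ns _ _ c1).2
  have n2 := (N.ns _ _ d1).2
  have L : ∀ a b, S.blk a < S.blk b → S.pos a < S.pos b := fun _ _ k => B.lt k
  rcases lt_or_gt_of_ne n1 with q1 | q1 <;> rcases lt_or_gt_of_ne n2 with q2 | q2 <;>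
    rcases lt_or_gt_of_ne n3 with q3 | q3
  · have := N.nc _ _ _ _ d1 c3
    have := L a1' a3 (by omega)
    have := L b1' b3 (by omega)
    omega
  · omega
  · have := N.nc _ _ _ _ d3 c1
    have := L a1 a3' (by omega)
    have := L a3' b1 (by omega)
    omega
  · have := N.nc _ _ _ _ c3 d1
    have := L b1' b3 (by omega)
    have := L b3 a1' (by omega)
    omega
  · have := N.nc _ _ _ _ d3 c1
    have := L a3' b1 (by omega)
    have := L b1 b3' (by omega)
    omega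
  · have := N.nc _ _ _ _ c3 d1
    have := L b3 a1' (by omega)
    have := L a1' a3 (by omega)
    omega
  · omega
  · have := N.nc _ _ _ _ c1 d3
    have := L b1 b3' (by omega)
    have := L a1 a3' (by omega)
    omega

end TouchH

open TouchH in
theorem touchS : TouchS := by
  intro S _ _ B T C N
  have L : ∀ a b, S.blk a < S.blk b → S.pos a < S.pos b := fun _ _ k => B.lt k
  refine ⟨?_, ?_, ?_⟩
  · intro a1 b1 a2 b2 a3 b3 c1 c2 c3 p1 p2 e1 e2
    have n1 := (N.ns _ _ c1).2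
    have n2 := (N.ns _ _ c2).2
    have m1 := B.mono _ _ p1.le
    have m2 := B.mono _ _ p2.le
    have k12 := N.nc _ _ _ _ c1 c2
    have k21 := N.nc _ _ _ _ c2 c1
    have k23 := N.nc _ _ _ _ c2 c3
    have k32 := N.nc _ _ _ _ c3 c2
    rcases lt_or_gt_of_ne n1 with q1 | q1 <;> rcases lt_or_gt_of_ne n2 with q2 | q2
    · have := L a1 b1 q1
      have := L a3 b1 (by omega)
      have := L a2 b1 (by omega)
      omega
    · have := L a3 b1 (by omega)
      have := L b3 a2 (by omega)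
      omega
    · have := L a2 b1 (by omega)
      have := L b3 a1 (by omega)
      omega
    · have := L b3 a1 (by omega)
      have := L b3 a2 (by omega)
      have := L b3 a3 (by omega)
      omega
  · intro a1 b1 a3 b3 a1' b1' a3' b3' c1 c3 d1 d3 t1 t3 e1 e2 e3 e4 e5
    by_contra ne
    have pa1 := (C.can _ _ c1).1.1
    have pa3 := (C.can _ _ c3).1.1
    have pb1 := (C.can _ _ d1).1.2.1
    have pb3 := (C.can _ _ d3).1.2.1
    have s := B.s2 _ _ pa1 pa3 e1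
    have n3 := (N.two _ _ _ _ c1 d1 t1).2
    have X := fun p1 p2 => cross B N c1 c3 d1 d3 e1 e2 e3 e4 e5 n3 p1 p2
    have Y := fun p1 p2 => cross B N c3 c1 d3 d1 e1.symm e2.symm e3.symm (e5.trans e1)
      (e4.trans e1) (by omega) p1 p2
    have X : ¬(S.pos a3 < S.pos b1' ∧ S.pos b3' < S.pos a1) := fun k => X k.1 k.2
    have Y : ¬(S.pos a1 < S.pos b3' ∧ S.pos b1' < S.pos a3) := fun k => Y k.1 k.2
    have H : (S.hp b3' < S.hp a1 ∧ S.hp a3 < S.hp b1') ∨
        (S.hp b1' < S.hp a3 ∧ S.hp a1 < S.hp b3') := by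
      rcases le_total (S.f.ht (S.M.nd a3)) (S.f.ht (S.M.nd a1)) with q | q
      · have := dis T t1 t3 s (Ne.symm ne) q
        exact Or.inl ⟨this.2.1, this.2.2.1⟩
      · have := dis T t3 t1 s.symm ne q
        exact Or.inr ⟨this.2.1, this.2.2.1⟩
    rcases B.dir (S.blk a1) with D | D
    · have k1 := D a1 pa1.1 b3' pb3.1 pa1 pb3 rfl e5
      have k2 := D b3' pb3.1 a1 pa1.1 pb3 pa1 e5 rfl
      have k3 := D a3 pa3.1 b1' pb1.1 pa3 pb1 e1.symm e4
      have k4 := D b1' pb1.1 a3 pa3.1 pb1 pa3 e4 e1.symm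
      omega
    · have k1 := D a1 pa1.1 b3' pb3.1 pa1 pb3 rfl e5
      have k2 := D b3' pb3.1 a1 pa1.1 pb3 pa1 e5 rfl
      have k3 := D a3 pa3.1 b1' pb1.1 pa3 pb1 e1.symm e4
      have k4 := D b1' pb1.1 a3 pa3.1 pb1 pa3 e4 e1.symm
      omega
  · intro h1 v1 h2 v2 h3 v3 t1 t2 t3 s1 s2 l1 l2 n1 n3
    have a := dis T t1 t2 s1 n1 l2
    have b := dis T t2 t3 s2 n3.symm l1
    exact ⟨b.1, a.1, b.2.2.1, a.2.1⟩

end Pool.Agent.MP_1a6d78_lc.DS
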