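import Pool.Agent.MP_1a6d78_lc.DS.Basic

/-! PROJECT DS: the value of an itinerary is at least the distance. -/

namespace Pool.Agent.MP_1a6d78_lc.DS

open Classical ED PR Sk

theorem valLS : ValLS := by
  intro S r μ B hL hB hS hF hK hT hC hN hQ hn hD T I Wd z hW hg
  induction h : S.F z using Nat.strong_induction_on generalizing z with
  | _ m ih =>
  subst h
  intro kz pz l3
  have ns : ¬S.sp z := fun e => by
    rw [hC.sp z e] at l3
    simp at l3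
  obtain ⟨h, te⟩ := hT.ex z kz ns
  obtain ⟨th, -, -, -, -, eF⟩ := hT.mem h z te
  rw [hC.te h z te] at pz l3 ⊢
  rcases hC.head h th with ⟨e, -⟩ | ⟨e, -⟩ | ⟨a, b, cn, rfl⟩
  · rw [e] at l3
    simp at l3
  · rw [e] at l3
    simp at l3
  obtain ⟨⟨pa, pb, lf, eT⟩, -⟩ := hC.can a b cn
  have l1 := hS.pos _ _ _ (hS.lg a b pa pb lf)
  obtain ⟨p1, p2, p3, p4, p5⟩ := hD.pre I a b cn pz
  have low : ∀ j ≤ (S.C (S.M.nd a)).length / 2, S.K (S.lz I j) ∧
      ∀ x, S.F (S.pv I j x) ≤ opt (S.sd T I) 0 Wd (gt []) j x := by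
    by_cases q : 3 ≤ (S.C (S.M.nd a)).length
    · exact ih _ (by omega) _ rfl pa.2.1 p1 q
    · have := (hn _ pa.2.1).2
      have e0 : (S.C (S.M.nd a)).length / 2 = 0 := by omega
      rw [e0] at p5 ⊢
      intro j hj
      obtain rfl : j = 0 := by omega
      exact ⟨p5.1, fun x => hD.lo T _ _ hg (hL.sam _ _ x p5.1)⟩
  have la := hD.last I _ cn.1 pz l3
  rw [p2] at la ⊢
  generalize (S.C (S.M.nd a)).length / 2 = i at *
  intro j hj
  rcases Nat.lt_or_ge i j with q | q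
  swap
  · exact low j q
  obtain rfl : j = i + 1 := by omega
  refine ⟨la.1, fun x => ?_⟩
  obtain ⟨y, -, ey⟩ := Nat.sInf_mem (s := (fun y => opt (S.sd T I) 0 Wd (gt []) i y +
    S.sd T I (i + 1) y x) '' Set.Ico (gt [] i) (gt [] i + Wd)) ⟨_, gt [] i, ⟨le_rfl, by omega⟩, rfl⟩
  have e1 : S.sd T I (i + 1) y x = S.sq (S.blk a) (S.blk b) (S.f.ht (S.pv I i y))
      (S.f.ht (S.pv I (i + 1) x)) := by
    unfold Sk.sd
    rw [if_neg (by omega), p3, p4, if_pos ⟨(hN.ns a b cn).2, p5.1, la.1⟩]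
    rfl
  obtain ⟨a', b', pa', pb', ba, bb, lf', e2⟩ :=
    hQ.ex a b (S.f.ht (S.pv I i y)) (S.f.ht (S.pv I (i + 1) x)) pa pb lf
  have s1 : S.sam (S.pv I i y) (S.M.nd a') :=
    ((hL.sam _ _ y p5.1).trans p5).trans (hB.s2 a a' pa pa' ba.symm)
  have s2 : S.sam (S.M.nd b') (S.pv I (i + 1) x) :=
    ((hB.s2 b' b pb' pb bb).trans la.symm).trans (hL.sam _ _ x la.1).symm
  have w1 := hF.wk _ _ _ (hK.live _ s1.1).1 (hL.slide _ _ s1)
  have w2 := hF.wk _ _ _ (hK.live _ s2.1).1 (hL.slide _ _ s2)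
  have w3 := hF.lg _ _ _ (hS.lg a' b' pa' pb' lf')
  have w4 := (low i le_rfl).2 y
  have e3 : opt (S.sd T I) 0 Wd (gt []) (i + 1) x =
      opt (S.sd T I) 0 Wd (gt []) i y + S.sd T I (i + 1) y x := ey.symm
  rw [e3, e1, e2]
  unfold Sk.hp
  omega

end Pool.Agent.MP_1a6d78_lc.DS
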