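import Pool.Agent.MP_1a6d78_lc.DS.Basic

/-! PROJECT DS, row VALU: the value of the itinerary of a vertex is at most its distance. -/

namespace Pool.Agent.MP_1a6d78_lc.DS

open Classical ED PR

theorem valUS : ValUS := by
  intro S r μ B hL _ hls _ _ hT hC hN hQ hn hD T I Wd z x hW
  induction e : S.F z using Nat.strong_induction_on generalizing z x with | _ m ih => ?_
  subst e
  intro hK hg hp hs hx
  by_cases h1 : (S.C z).length = 1
  · rw [h1] at hs hx ⊢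
    have hx' : S.pv I 0 x = z := hx
    show S.sd T I 0 0 x ≤ _
    rw [Sk.sd, if_pos rfl, hx']
    exact hD.hi T _ z hg hs.symm h1
  have hsp : ¬S.sp z := fun k => h1 (by rw [hC.sp z k]; rfl)
  obtain ⟨h, ht⟩ := hT.ex z hK hsp
  have e1 := hC.te h z ht
  obtain ⟨m1, -, -, -, -, m2⟩ := hT.mem h z ht
  rcases hC.head h m1 with k | k | ⟨a, b, hc, rfl⟩
  · exact absurd (by rw [e1, k.1]; rfl) h1
  · exact absurd (by rw [e1, k.1]; rfl) h1
  obtain ⟨pa, pb, lf, tg⟩ := (hC.can a b hc).1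
  rw [e1] at hp hs hx ⊢
  obtain ⟨p1, p2, p3, p4, p5⟩ := hD.pre I a b hc hp
  rw [p2] at hs hx ⊢
  obtain ⟨x0, x1, x2⟩ := hL.surj _ (S.ori I ((S.C (S.M.nd a)).length / 2)) _ p5.symm
  have x3 : S.pv I ((S.C (S.M.nd a)).length / 2) x0 = S.M.nd a := x2
  have l1 := hls.pos a b _ (hls.lg a b pa pb lf)
  have lt : S.F (S.M.nd a) < S.F z := by omega
  have i1 := ih _ lt (S.M.nd a) x0 rfl pa.2.1 (fun y k k' => hg y k (k'.trans lt.le)) p1 p5 x3
  obtain ⟨j, hj⟩ : ∃ j, j = (S.C (S.M.nd a)).length / 2 := ⟨_, rfl⟩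
  rw [← hj] at hs hx p3 p4 p5 x3 i1 ⊢
  have i2 : S.sd T I (j + 1) x0 x ≤ S.Lv a b + S.N * df (S.f.ht (S.M.nd b)) (S.f.ht z) := by
    rw [Sk.sd, if_neg (Nat.succ_ne_zero j), p3, p4, Nat.add_sub_cancel,
      if_pos ⟨(hN.ns a b hc).2, p5.1, hs.1⟩, x3, hx]
    have := hQ.le a b (S.f.ht (S.M.nd a)) (S.f.ht z) pa pb lf
    rw [Sk.hp, df_self, Nat.mul_zero, Nat.zero_add] at this
    exact this
  refine (Nat.sInf_le (s := (fun y => opt (S.sd T I) 0 Wd (gt []) j y + S.sd T I (j + 1) y x) ''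
    Set.Ico (gt [] j) (gt [] j + Wd)) ⟨x0, ⟨?_, ?_⟩, rfl⟩).trans ?_
  · simp [gt]
  · omega
  · show _ + _ ≤ _
    omega

end Pool.Agent.MP_1a6d78_lc.DS
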