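import Pool.Agent.MP_1a6d78_lc.DS.Basic

/-! PROJECT DS: the value computed from a state. -/

namespace Pool.Agent.MP_1a6d78_lc.DS

open Classical ED PR Sk

namespace VlA

variable (P : ℕ → Prop) (c : ℕ → ℕ) (z : ℕ)

theorem lo {m : ℕ} (k : ℕ) (hz : m ≤ z) (h : ∀ r < k, P r → m ≤ c r) :
    m ≤ itr (fun r acc => if P r then min acc (c r) else acc) z k := by
  induction k with
  | zero => exact hz
  | succ k ih =>
    have := ih fun r hr => h r (by omega)
    rw [itr]
    split_ifs with q
    · exact le_min this (h k (by omega) q)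
    · exact this

theorem hi (k : ℕ) : itr (fun r acc => if P r then min acc (c r) else acc) z k ≤ z ∧
    ∀ r < k, P r → itr (fun r acc => if P r then min acc (c r) else acc) z k ≤ c r := by
  induction k with
  | zero => exact ⟨le_rfl, fun r hr => absurd hr (by omega)⟩
  | succ k ih =>
    rw [itr]
    split_ifs with q
    · refine ⟨(min_le_left _ _).trans ih.1, fun r hr p => ?_⟩
      rcases Nat.lt_succ_iff_lt_or_eq.1 hr with e | rfl
      · exact (min_le_left _ _).trans (ih.2 r e p)
      · exact min_le_right _ _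
    · refine ⟨ih.1, fun r hr p => ?_⟩
      rcases Nat.lt_succ_iff_lt_or_eq.1 hr with e | rfl
      · exact ih.2 r e p
      · exact absurd p q

end VlA

theorem vlS : VlS := by
  intro S r μ B k t hK hL hF hn hM hD vL vU hk ht ρ T hI z kz
  have hg : ∀ x, S.sp x → S.F x ≤ S.g T x := fun x hx => by
    rw [hI.g x hx]
    split_ifs
    · exact le_rfl
    · exact (hF.lt x (hK.live x hx.1).1).le
  have e1 : ∀ y, nl (enc k (S.C y)) = (S.C y).length / 2 := fun y => by
    rw [nl, enc_zero _ (by omega)]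
  have e2 : ∀ y, S.K y → Pre (enc k (S.C y)) (S.C y) := fun y ky =>
    enc_pre (by have := (hn y ky).1; omega)
  have e3 : ∀ y, S.K y → S.ov k t T (enc k (S.C y)) z = opt (S.sd T (enc k (S.C y))) 0 (k ^ t)
      (gt []) ((S.C y).length / 2) (S.ix (enc k (S.C y)) z) := fun y ky => by
    rw [Sk.ov, e1]
    exact ED.val _ 0 k (hM T _) (by omega) t [] _ _ (by have := (hn y ky).1; omega)
  have e4 : ∀ I, S.sam (S.lz I (nl I)) z → S.pv I (nl I) (S.ix I z) = z := fun I h =>
    (lst_spec (P := fun x => S.pv I (nl I) x = z) (hL.surj _ _ _ h.symm)).2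
  unfold Sk.vl
  split_ifs with q
  · exact ⟨hg z q, fun h => by rw [hI.g z q, if_pos h]⟩
  have low : S.F z ≤ itr (fun r acc => if S.use (row k T r) z then
      min acc (S.ov k t T (row k T r) z) else acc) (S.d0 T z (S.f.ht z)) k := by
    refine VlA.lo (fun r => S.use (row k T r) z) (fun r => S.ov k t T (row k T r) z) _ k
      (hD.lo T z z hg (sam.refl kz)) fun r hr u => ?_
    rcases hI.rows r hr with e | ⟨y, ky, e⟩
    · have := u.1
      omega
    · have u1 := u.1
      have u2 := e4 _ u.2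
      rw [e] at u1 u2 ⊢
      rw [e1] at u1 u2
      have := (hn y ky).2
      have := (vL T _ (k ^ t) y (Nat.pow_pos (by omega)) hg ky (e2 y ky) (by omega) _ le_rfl).2
        (S.ix (enc k (S.C y)) z)
      rwa [u2, ← e3 y ky] at this
  refine ⟨low, fun h => le_antisymm ?_ low⟩
  have hu : ∀ y, S.sp y → S.F y ≤ S.F z → S.g T y = S.F y := fun y hy e => by
    rw [hI.g y hy, if_pos (e.trans_lt h)]
  have hh := VlA.hi (fun r => S.use (row k T r) z) (fun r => S.ov k t T (row k T r) z)
    (S.d0 T z (S.f.ht z)) k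
  by_cases l : (S.C z).length = 1
  · exact hh.1.trans (hD.hi T z z hu (sam.refl kz) l)
  have := (hn z kz).2
  obtain ⟨i, hi, e⟩ := hI.all z kz q h
  have la := hD.last _ z kz (e2 z kz) (by omega)
  have u : S.use (row k T i) z := by
    rw [e, Sk.use, e1]
    exact ⟨by omega, la⟩
  refine (hh.2 i hi u).trans ?_
  have u2 := e4 _ u.2
  rw [e] at u2 ⊢
  rw [e1] at u2
  rw [e3 z kz]
  exact vU T _ _ z _ ht kz hu (e2 z kz) la u2

end Pool.Agent.MP_1a6d78_lc.DS
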